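import Pool.Agent.Lib.D9.Blk

/-!
Module BlkRank (2.5h). Uniform (e, u, p arbitrary): rank conditions for elements X = BX .. of adj T, A = JX in adj T.
PROOF. (Schur) if [[P, Q], [R, S]](s) (P of size m) has rank <= m for all s and P = 1 + s P1 + s^2 P2, Q = s Q1 + s^2 Q2, R = s R1 + s^2 R2, S = s^2 S2, then for all s outside of a finite set S = R P^-1 Q, i.e.
S2 = (R1 + s R2) P^-1 (Q1 + s Q2) (le_rank_of_minor and Matrix.det_fromBlocks₁₁). Clearing det P(s) (polynomial, = 1 at s = 0) and s -> 0: S2 = R1 Q1. Subtract, divide by s (P^-1 = 1 - (P - 1) P^-1): 0 = - R1 (P1 + s P2) P^-1 (Q1 + s Q2) + R1 Q2 + R2 P^-1 (Q1 + s Q2),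
s -> 0: R1 Q2 + R2 Q1 = R1 P1 Q1. Again: R2 Q2 - R1 P1 Q2 - R2 P1 Q1 - R1 P2 Q1 + R1 P1 P1 Q1 = 0. Everything as identities of polynomials with finitely many exceptions. (Suggestion: one general lemma schur3 with these three conclusions, used twice.)
rank (A + s X)^2 <= ρ 2 <= e (hT.rank_le with A + s X in adj T): rows E_2 and U_1, columns E_0 and U_0: P1 = 2 N, P2 = N N + d a + b c + th w, Q1 = 2 b, Q2 = N b + b nu + th pi, R1 = 2 a, R2 = a N + nu a + et w, S2 = a b + et pi (BX_mul, JX_mul_BX, BX_mul_JX).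
 => R1X, and for N = 0: R4X, R5X.
rank (A + s X) <= ρ 1 <= 2 e + u: rows (E_1, E_2, U_1) and P, columns (E_0, E_1, U_0) and P: P1 = [[N, 0, b], [M, N, d], [c, a, nu]], P2 = 0, Q1 = (0, th, et), Q2 = 0, R1 = (w, 0, pi), R2 = 0, S2 = 0 (also S has no term of first order). => R2X (R1 Q1 = 0), R3X (R1 P1 Q1 = 0).
-/

namespace Pool.Agent.Lib.D9

open Matrix Pool.Agent.Lib.Q5dc Pool.Agent.Lib.D7

namespace BlkRankAux

variable {k : Type*} [Field k]

theorem card_le_rank {n t : Type*} [Fintype n] [DecidableEq n] [Fintype t] [DecidableEq t]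
    (M : Matrix n n k) (f g : t → n)
    (h : (M.submatrix f g).det ≠ 0) : Fintype.card t ≤ M.rank := by
  have h1 : (M.submatrix f g).rank = Fintype.card t :=
    rank_of_isUnit _ ((Matrix.isUnit_iff_isUnit_det _).2 (isUnit_iff_ne_zero.2 h))
  have e : M.submatrix f g =
      (1 : Matrix n n k).submatrix f id * (M * (1 : Matrix n n k).submatrix id g) := by
    ext i j
    simp [Matrix.mul_apply, Matrix.one_apply]
  rw [e] at h1
  rw [← h1]
  exact (rank_mul_le_right _ _).trans (rank_mul_le_left _ _)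

/-- Schur complement of a block of maximal rank -/
theorem schur_at {n m r c : Type*} [Fintype n] [DecidableEq n] [Fintype m] [DecidableEq m]
    (M : Matrix n n k) (hM : M.rank ≤ Fintype.card m) (fr fc : m → n) (gr : r → n) (gc : c → n)
    (h : (M.submatrix fr fc).det ≠ 0) :
    M.submatrix gr gc = M.submatrix gr fc * (M.submatrix fr fc)⁻¹ * M.submatrix fr gc := by
  ext i j
  by_contra hne
  have hu : IsUnit (M.submatrix fr fc) :=
    (Matrix.isUnit_iff_isUnit_det _).2 (isUnit_iff_ne_zero.2 h)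
  letI : Invertible (M.submatrix fr fc) := hu.invertible
  have h1 : M.submatrix (Sum.elim fr fun _ : Unit => gr i) (Sum.elim fc fun _ : Unit => gc j) =
      Matrix.fromBlocks (M.submatrix fr fc) (M.submatrix fr fun _ : Unit => gc j)
        (M.submatrix (fun _ : Unit => gr i) fc)
        (M.submatrix (fun _ : Unit => gr i) fun _ : Unit => gc j) := by
    ext x y
    rcases x with x | x <;> rcases y with y | y <;> rfl
  have h2 : (M.submatrix (Sum.elim fr fun _ : Unit => gr i)
      (Sum.elim fc fun _ : Unit => gc j)).det ≠ 0 := by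
    rw [h1, Matrix.det_fromBlocks₁₁]
    refine mul_ne_zero h ?_
    rw [Matrix.det_unique, Matrix.invOf_eq_nonsing_inv]
    intro h3
    apply hne
    rw [Matrix.sub_apply, sub_eq_zero] at h3
    exact h3
  have h4 := card_le_rank M _ _ h2
  rw [Fintype.card_sum, Fintype.card_unit] at h4
  omega

theorem germ {α β γ : k} {δ g : Polynomial k} (hδ : δ.coeff 0 ≠ 0)
    (h : δ * (Polynomial.C α + Polynomial.X * Polynomial.C β + Polynomial.X ^ 2 * Polynomial.C γ) =
      Polynomial.X ^ 3 * g) : α = 0 ∧ β = 0 ∧ γ = 0 := by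
  have h1 : Polynomial.X ^ 3 ∣ (Polynomial.C α + Polynomial.X * Polynomial.C β +
      Polynomial.X ^ 2 * Polynomial.C γ) := by
    refine Polynomial.prime_X.pow_dvd_of_dvd_mul_left 3 ?_ ⟨g, h⟩
    rwa [Polynomial.X_dvd_iff]
  rw [Polynomial.X_pow_dvd_iff] at h1
  refine ⟨?_, ?_, ?_⟩
  · have := h1 0 (by norm_num)
    simpa [Polynomial.coeff_X_pow] using this
  · have := h1 1 (by norm_num)
    simpa [Polynomial.coeff_X_pow, Polynomial.coeff_C] using this
  · have := h1 2 (by norm_num)
    simpa [Polynomial.coeff_X_pow, Polynomial.coeff_C, Polynomial.coeff_X] using this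

/-- the expansion of the Schur complement -/
theorem expand {R : Type*} [CommRing R] {m r c : Type*} [Fintype m] [DecidableEq m]
    (x δ : R) (P1 P2 W : Matrix m m R) (Q1 Q2 : Matrix m c R) (R1 R2 : Matrix r m R)
    (h : (1 + x • P1 + x ^ 2 • P2) * W = δ • (1 : Matrix m m R)) :
    ∃ G : Matrix r c R, (R1 + x • R2) * W * (Q1 + x • Q2) =
      δ • (R1 * Q1 + x • (R1 * Q2 + R2 * Q1 - R1 * P1 * Q1) +
        x ^ 2 • (R2 * Q2 + R1 * P1 * P1 * Q1 - R1 * P1 * Q2 - R2 * P1 * Q1 - R1 * P2 * Q1)) +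
      x ^ 3 • G := by
  have h0 : W = δ • (1 : Matrix m m R) - x • ((P1 + x • P2) * W) := by
    rw [← h]
    simp only [Matrix.add_mul, Matrix.smul_mul, Matrix.one_mul, smul_add, smul_smul]
    module
  have h1 : W = δ • (1 - x • P1 + x ^ 2 • (P1 * P1 - P2)) +
      x ^ 3 • (δ • (P1 * P2 + P2 * P1 + x • (P2 * P2)) -
        (P1 + x • P2) * ((P1 + x • P2) * ((P1 + x • P2) * W))) := by
    conv_lhs => rw [h0, h0, h0]
    simp only [Matrix.add_mul, Matrix.mul_add, Matrix.sub_mul, Matrix.mul_sub, Matrix.smul_mul,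
      Matrix.mul_smul, Matrix.one_mul, Matrix.mul_one, smul_add, smul_sub, smul_smul,
      Matrix.mul_assoc]
    module
  obtain ⟨Y, hY⟩ : ∃ Y, W = δ • (1 - x • P1 + x ^ 2 • (P1 * P1 - P2)) + x ^ 3 • Y := ⟨_, h1⟩
  refine ⟨(R1 + x • R2) * Y * (Q1 + x • Q2) + δ • (R1 * (P1 * P1 - P2) * Q2 +
    R2 * (P1 * P1 - P2) * Q1 - R2 * P1 * Q2 + x • (R2 * (P1 * P1 - P2) * Q2)), ?_⟩
  rw [hY]
  simp only [Matrix.add_mul, Matrix.mul_add, Matrix.sub_mul, Matrix.mul_sub, Matrix.smul_mul,
    Matrix.mul_smul, Matrix.one_mul, Matrix.mul_one, smul_add, smul_sub, smul_smul,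
    Matrix.mul_assoc]
  module

theorem schur3 [Infinite k] {n m r c : Type*} [Fintype n] [DecidableEq n] [Fintype m]
    [DecidableEq m] (F : k → Matrix n n k) (hF : ∀ s, (F s).rank ≤ Fintype.card m)
    (fr fc : m → n) (gr : r → n) (gc : c → n)
    (P1 P2 : Matrix m m k) (Q1 Q2 : Matrix m c k) (R1 R2 : Matrix r m k) (S2 : Matrix r c k)
    (hP : ∀ s, (F s).submatrix fr fc = 1 + s • P1 + s ^ 2 • P2)
    (hQ : ∀ s, (F s).submatrix fr gc = s • Q1 + s ^ 2 • Q2)
    (hR : ∀ s, (F s).submatrix gr fc = s • R1 + s ^ 2 • R2)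
    (hS : ∀ s, (F s).submatrix gr gc = s ^ 2 • S2) :
    S2 = R1 * Q1 ∧ R1 * Q2 + R2 * Q1 = R1 * P1 * Q1 ∧
      R2 * Q2 + R1 * P1 * P1 * Q1 = R1 * P1 * Q2 + R2 * P1 * Q1 + R1 * P2 * Q1 := by
  classical
  let C : k →+* Polynomial k := Polynomial.C
  let X : Polynomial k := Polynomial.X
  let Pp : Matrix m m (Polynomial k) := 1 + X • P1.map C + X ^ 2 • P2.map C
  let δ : Polynomial k := Pp.det
  -- evaluation
  have hev : ∀ s : k, Pp.map (Polynomial.evalRingHom s) = 1 + s • P1 + s ^ 2 • P2 := by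
    intro s
    ext i j
    simp [Pp, C, X, Matrix.one_apply, apply_ite (Polynomial.eval s)]
    ring
  have hδ : ∀ s : k, δ.eval s = (1 + s • P1 + s ^ 2 • P2).det := by
    intro s
    rw [← hev s]
    exact (RingHom.map_det (Polynomial.evalRingHom s) Pp)
  have hδ0 : δ.coeff 0 ≠ 0 := by
    rw [Polynomial.coeff_zero_eq_eval_zero, hδ]
    simp
  have hδne : δ ≠ 0 := by
    rintro h
    rw [h] at hδ0
    simp at hδ0
  have hadj : ∀ s : k, (Pp.adjugate).map (Polynomial.evalRingHom s) =
      (1 + s • P1 + s ^ 2 • P2).adjugate := by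
    intro s
    rw [← hev s]
    exact (RingHom.map_adjugate (Polynomial.evalRingHom s) Pp)
  -- the polynomial identity
  have key : δ • S2.map C = (R1.map C + X • R2.map C) * Pp.adjugate * (Q1.map C + X • Q2.map C) := by
    ext1 i j
    refine Polynomial.eq_of_infinite_eval_eq _ _ ?_
    have hfin : {s : k | s = 0 ∨ δ.eval s = 0}.Finite := by
      refine Set.Finite.union (Set.finite_singleton 0) ?_
      exact Polynomial.finite_setOfPred_isRoot hδne
    refine hfin.infinite_compl.mono ?_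
    intro s hs
    simp only [Set.mem_compl_iff, Set.mem_ofPred_eq, not_or] at hs
    obtain ⟨hs0, hs1⟩ := hs
    show Polynomial.eval s _ = Polynomial.eval s _
    have h1 := schur_at (F s) (hF s) fr fc gr gc (by rw [hP, ← hδ]; exact hs1)
    rw [hP, hQ, hR, hS] at h1
    have h2 : (1 + s • P1 + s ^ 2 • P2)⁻¹ =
        (δ.eval s)⁻¹ • (Pp.adjugate).map (Polynomial.evalRingHom s) := by
      rw [Matrix.inv_def, hadj, hδ, Ring.inverse_eq_inv']
    rw [h2] at h1
    have h3 : (δ.eval s) • S2 = (R1 + s • R2) *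
        (Pp.adjugate).map (Polynomial.evalRingHom s) * (Q1 + s • Q2) := by
      have h4 : (s ^ 2 * (δ.eval s)⁻¹) • ((δ.eval s) • S2) = (s ^ 2 * (δ.eval s)⁻¹) •
          ((R1 + s • R2) * (Pp.adjugate).map (Polynomial.evalRingHom s) * (Q1 + s • Q2)) := by
        have h5 : s • R1 + s ^ 2 • R2 = s • (R1 + s • R2) := by
          rw [smul_add, smul_smul, pow_two]
        have h6 : s • Q1 + s ^ 2 • Q2 = s • (Q1 + s • Q2) := by
          rw [smul_add, smul_smul, pow_two]
        rw [h5, h6] at h1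
        rw [smul_smul, mul_assoc, inv_mul_cancel₀ hs1, mul_one, h1]
        simp only [Matrix.smul_mul, Matrix.mul_smul, smul_smul]
        congr 1
        ring
      exact smul_right_injective _ (mul_ne_zero (pow_ne_zero 2 hs0) (inv_ne_zero hs1)) h4
    have h7 : ((R1.map C + X • R2.map C) * Pp.adjugate * (Q1.map C + X • Q2.map C)).map
        (Polynomial.evalRingHom s) = (R1 + s • R2) *
        (Pp.adjugate).map (Polynomial.evalRingHom s) * (Q1 + s • Q2) := by
      have h8 : (R1.map C + X • R2.map C).map (Polynomial.evalRingHom s) = R1 + s • R2 := by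
        ext a b
        simp [C, X]
        ring
      have h9 : (Q1.map C + X • Q2.map C).map (Polynomial.evalRingHom s) = Q1 + s • Q2 := by
        ext a b
        simp [C, X]
        ring
      rw [Matrix.map_mul, Matrix.map_mul, h8, h9]
    have h10 := congrFun (congrFun (h3.trans h7.symm) i) j
    rw [Matrix.smul_apply, smul_eq_mul] at h10
    have h11 : Polynomial.eval s ((δ • S2.map C) i j) = δ.eval s * S2 i j := by
      simp [C]
    rw [h11, h10]
    rfl
  obtain ⟨G, hG⟩ := expand X δ (P1.map C) (P2.map C) Pp.adjugate (Q1.map C) (Q2.map C) (R1.map C)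
    (R2.map C) (Matrix.mul_adjugate Pp)
  rw [← key] at hG
  simp only [← Matrix.map_mul] at hG
  have hG' : ∀ i j, (S2 - R1 * Q1) i j = 0 ∧ (R1 * P1 * Q1 - R1 * Q2 - R2 * Q1) i j = 0 ∧
      (R1 * P1 * Q2 + R2 * P1 * Q1 + R1 * P2 * Q1 - R2 * Q2 - R1 * P1 * P1 * Q1) i j = 0 := by
    intro i j
    have h1 := congrFun (congrFun hG i) j
    refine germ hδ0 (g := G i j) ?_
    simp only [Matrix.smul_apply, Matrix.add_apply, Matrix.sub_apply, Matrix.map_apply,
      smul_eq_mul] at h1
    simp only [Matrix.add_apply, Matrix.sub_apply, map_add, map_sub]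
    linear_combination h1
  refine ⟨?_, ?_, ?_⟩
  · ext i j
    have := (hG' i j).1
    rw [Matrix.sub_apply] at this
    linear_combination this
  · ext i j
    have := (hG' i j).2.1
    simp only [Matrix.sub_apply] at this
    rw [Matrix.add_apply]
    linear_combination -this
  · ext i j
    have := (hG' i j).2.2
    simp only [Matrix.sub_apply, Matrix.add_apply] at this
    simp only [Matrix.add_apply]
    linear_combination -this

end BlkRankAux

variable {k : Type*} [Field k] [CharZero k] {e u p : ℕ} {ρ : ℕ → ℕ}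
  {T : Fin 3 → Matrix (Ix e u p) (Ix e u p) k}
  {N M : Matrix (Fin e) (Fin e) k} {a c : Matrix (Fin u) (Fin e) k}
  {w : Matrix (Fin p) (Fin e) k} {b d : Matrix (Fin e) (Fin u) k}
  {nu : Matrix (Fin u) (Fin u) k} {pi : Matrix (Fin p) (Fin u) k}
  {th : Matrix (Fin e) (Fin p) k} {et : Matrix (Fin u) (Fin p) k}

namespace BlkRankAux

/-- the conditions from the rank of the squares -/
theorem sq_rank (hT : MaxR ρ T) (h2 : ρ 2 ≤ e) (hA : JX k e u p ∈ adj T)
    (hX : BX N M a c w b d nu pi th et ∈ adj T) :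
    a * b + et * pi = ((2 : k) • a) * ((2 : k) • b) ∧
    ((2 : k) • a) * (N * b + b * nu + th * pi) + (a * N + nu * a + et * w) * ((2 : k) • b) =
      ((2 : k) • a) * ((2 : k) • N) * ((2 : k) • b) ∧
    (a * N + nu * a + et * w) * (N * b + b * nu + th * pi) +
        ((2 : k) • a) * ((2 : k) • N) * ((2 : k) • N) * ((2 : k) • b) =
      ((2 : k) • a) * ((2 : k) • N) * (N * b + b * nu + th * pi) +
        (a * N + nu * a + et * w) * ((2 : k) • N) * ((2 : k) • b) +
        ((2 : k) • a) * (N * N + d * a + b * c + th * w) * ((2 : k) • b) := by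
  refine schur3 (m := Fin e) (fun s => (JX k e u p + s • BX N M a c w b d nu pi th et) ^ 2)
    (fun s => ?_) (fun i => .inl (.inr (.inr i))) (fun j => .inl (.inl j))
    (fun i => .inr (.inl (.inr i))) (fun j => .inr (.inl (.inl j)))
    ((2 : k) • N) (N * N + d * a + b * c + th * w) ((2 : k) • b) (N * b + b * nu + th * pi)
    ((2 : k) • a) (a * N + nu * a + et * w) (a * b + et * pi) ?_ ?_ ?_ ?_
  · rw [Fintype.card_fin]
    exact (hT.rank_le (add_mem hA (SMulMemClass.smul_mem s hX)) 2).trans h2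
  all_goals
    intro s
    have h : (JX k e u p + s • BX N M a c w b d nu pi th et) ^ 2 = JX k e u p * JX k e u p +
        (2 * s) • (JX k e u p * BX N M a c w b d nu pi th et) + (s ^ 2) •
        (BX N M a c w b d nu pi th et * BX N M a c w b d nu pi th et) := by
      rw [pow_two, Matrix.add_mul, Matrix.mul_add, Matrix.mul_add, Matrix.smul_mul,
        Matrix.mul_smul, Matrix.smul_mul, Matrix.mul_smul, ← JX_comm]
      module
    rw [h, JX_sq, JX_mul_BX, BX_mul]
    ext i j
    simp [BX]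
    try ring

/-- the conditions from the rank -/
theorem lin_rank (hT : MaxR ρ T) (h1 : ρ 1 ≤ 2 * e + u) (hA : JX k e u p ∈ adj T)
    (hX : BX N M a c w b d nu pi th et ∈ adj T) :
    pi * et = 0 ∧ pi * a * th + w * b * et + pi * nu * et = 0 := by
  let X : Matrix (Ix e u p) (Ix e u p) k := BX N M a c w b d nu pi th et
  let fr : Fin e ⊕ Fin e ⊕ Fin u → Ix e u p := fun i => match i with
    | .inl i => .inl (.inr (.inl i))
    | .inr (.inl i) => .inl (.inr (.inr i))
    | .inr (.inr i) => .inr (.inl (.inr i))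
  let fc : Fin e ⊕ Fin e ⊕ Fin u → Ix e u p := fun i => match i with
    | .inl i => .inl (.inl i)
    | .inr (.inl i) => .inl (.inr (.inl i))
    | .inr (.inr i) => .inr (.inl (.inl i))
  let g : Fin p → Ix e u p := fun i => .inr (.inr i)
  have h := schur3 (m := Fin e ⊕ Fin e ⊕ Fin u) (fun s => JX k e u p + s • X)
    (fun s => ?_) fr fc g g (X.submatrix fr fc) 0 (X.submatrix fr g) 0 (X.submatrix g fc) 0 0
    ?_ ?_ ?_ ?_
  · obtain ⟨h2, h3, -⟩ := h
    constructor
    · refine Eq.trans ?_ h2.symm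
      ext i j
      simp [Matrix.mul_apply, Fintype.sum_sum_type, X, fr, fc, g, BX]
    · rw [Matrix.mul_zero, Matrix.zero_mul, add_zero] at h3
      refine Eq.trans ?_ h3.symm
      ext i j
      simp [Matrix.mul_apply, Fintype.sum_sum_type, X, fr, fc, g, BX, add_mul,
        Finset.sum_add_distrib]
      ring
  · simp only [Fintype.card_sum, Fintype.card_fin]
    have h4 := hT.rank_le (add_mem hA (SMulMemClass.smul_mem s hX)) 1
    rw [pow_one] at h4
    show (JX k e u p + s • BX N M a c w b d nu pi th et).rank ≤ _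
    omega
  all_goals
    intro s
    ext i j
    rcases i with i | i | i <;> rcases j with j | j | j <;>
      simp [JX, X, fr, fc, g, BX, Matrix.one_apply]

end BlkRankAux

theorem R1X (hT : MaxR ρ T) (h2 : ρ 2 ≤ e) (hA : JX k e u p ∈ adj T)
    (hX : BX N M a c w b d nu pi th et ∈ adj T) : et * pi = (3 : k) • (a * b) := by
  have h := (BlkRankAux.sq_rank hT h2 hA hX).1
  rw [Matrix.smul_mul, Matrix.mul_smul, smul_smul] at h
  have h3 : et * pi = (a * b + et * pi) - a * b := by abel
  rw [h3, h]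
  module

theorem R2X (hT : MaxR ρ T) (h1 : ρ 1 ≤ 2 * e + u) (hA : JX k e u p ∈ adj T)
    (hX : BX N M a c w b d nu pi th et ∈ adj T) : pi * et = 0 :=
  (BlkRankAux.lin_rank hT h1 hA hX).1

theorem R3X (hT : MaxR ρ T) (h1 : ρ 1 ≤ 2 * e + u) (hA : JX k e u p ∈ adj T)
    (hX : BX N M a c w b d nu pi th et ∈ adj T) :
    pi * a * th + w * b * et + pi * nu * et = 0 :=
  (BlkRankAux.lin_rank hT h1 hA hX).2

theorem R4X (hT : MaxR ρ T) (h2 : ρ 2 ≤ e) (hA : JX k e u p ∈ adj T)
    (hX : BX 0 M a c w b d nu pi th et ∈ adj T) :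
    a * (b * nu + th * pi) + (nu * a + et * w) * b = 0 := by
  have h := (BlkRankAux.sq_rank hT h2 hA hX).2.1
  simp only [Matrix.smul_mul, Matrix.mul_smul, Matrix.zero_mul, Matrix.mul_zero, smul_zero,
    zero_add] at h
  rw [← smul_add] at h
  have h3 := (smul_eq_zero.1 h).resolve_left (two_ne_zero)
  exact h3

theorem R5X (hT : MaxR ρ T) (h2 : ρ 2 ≤ e) (hA : JX k e u p ∈ adj T)
    (hX : BX 0 M a c w b d nu pi th et ∈ adj T) :
    (nu * a + et * w) * (b * nu + th * pi) = (4 : k) • (a * (d * a + b * c + th * w) * b) := by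
  have h := (BlkRankAux.sq_rank hT h2 hA hX).2.2
  simp only [Matrix.smul_mul, Matrix.mul_smul, Matrix.zero_mul, Matrix.mul_zero, smul_zero,
    zero_add, add_zero, smul_smul] at h
  rw [h]
  norm_num

end Pool.Agent.Lib.D9
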