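import Pool.Agent.Lib.D9.Blk

/-!
# MP_5dcbc3_ag: the shape of the matrices of a maximal triple with the Jordan matrix `(3^e, 2^u, 1^p)`

`kill2`: if `M0 + s M1 + s^2 M2` has rank at most `card ι` for all `s`, `M0` is the identity on
the rows `f i` and the columns `g j` and vanishes on the row `i0` and the column `j0`, then
`M1 i0 j0 = 0` (a minor of size `card ι + 1` divided by `s`, at `s = 0`).
-/

namespace Pool.Agent.Lib.D9

open Matrix Pool.Agent.Lib.Q5dc Pool.Agent.Lib.D7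

variable {k : Type*} [Field k] {e u p : ℕ}

/-- `P -> P` part -/
def KX (e u : ℕ) {p : ℕ} (κ : Matrix (Fin p) (Fin p) k) : Matrix (Ix e u p) (Ix e u p) k :=
  Matrix.of fun i j => match i, j with
    | .inr (.inr i), .inr (.inr j) => κ i j
    | _, _ => 0

variable {ρ : ℕ → ℕ} {T : Fin 3 → Matrix (Ix e u p) (Ix e u p) k}

namespace BlkShapeAux

theorem card_le_rank {n ι : Type*} [Fintype n] [DecidableEq n] [Fintype ι] [DecidableEq ι]
    (M : Matrix n n k) (f g : ι → n) (h : (M.submatrix f g).det ≠ 0) :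
    Fintype.card ι ≤ M.rank := by
  refine le_rank_of_minor M (f ∘ (Fintype.equivFin ι).symm) (g ∘ (Fintype.equivFin ι).symm) ?_
  rw [← Matrix.submatrix_submatrix, Matrix.det_submatrix_equiv_self]
  exact h

theorem kill2 [Infinite k] {n ι : Type*} [Fintype n] [DecidableEq n] [Fintype ι] [DecidableEq ι]
    {M0 M1 M2 : Matrix n n k} (f g : ι → n) (i0 j0 : n)
    (h : ∀ s : k, (M0 + s • M1 + s ^ 2 • M2).rank ≤ Fintype.card ι)
    (h1 : ∀ i j, M0 (f i) (g j) = (1 : Matrix ι ι k) i j) (h2 : ∀ i, M0 (f i) j0 = 0)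
    (h3 : ∀ j, M0 i0 (g j) = 0) (h4 : M0 i0 j0 = 0) : M1 i0 j0 = 0 := by
  let W : Matrix (ι ⊕ Unit) (ι ⊕ Unit) (Polynomial k) := fromBlocks
    (Matrix.of fun i j => Polynomial.C (M0 (f i) (g j)) +
      Polynomial.X * Polynomial.C (M1 (f i) (g j)) +
      Polynomial.X ^ 2 * Polynomial.C (M2 (f i) (g j)))
    (Matrix.of fun i _ => Polynomial.C (M0 (f i) j0) +
      Polynomial.X * Polynomial.C (M1 (f i) j0) +
      Polynomial.X ^ 2 * Polynomial.C (M2 (f i) j0))
    (Matrix.of fun _ j => Polynomial.C (M1 i0 (g j)) + Polynomial.X * Polynomial.C (M2 i0 (g j)))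
    (Matrix.of fun _ _ => Polynomial.C (M1 i0 j0) + Polynomial.X * Polynomial.C (M2 i0 j0))
  have hW : ∀ s : k, W.det.eval s = ((Polynomial.evalRingHom s).mapMatrix W).det := by
    intro s
    rw [← Polynomial.coe_evalRingHom, RingHom.map_det]
  have hfac : ∀ s : k, (M0 + s • M1 + s ^ 2 • M2).submatrix
      (Sum.elim f (fun _ : Unit => i0)) (Sum.elim g (fun _ : Unit => j0)) =
      fromBlocks (1 : Matrix ι ι k) 0 0 (s • (1 : Matrix Unit Unit k)) *
        (Polynomial.evalRingHom s).mapMatrix W := by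
    intro s
    have hW' : (Polynomial.evalRingHom s).mapMatrix W = fromBlocks
        (Matrix.of fun i j => M0 (f i) (g j) + s * M1 (f i) (g j) + s ^ 2 * M2 (f i) (g j))
        (Matrix.of fun i _ => M0 (f i) j0 + s * M1 (f i) j0 + s ^ 2 * M2 (f i) j0)
        (Matrix.of fun _ j => M1 i0 (g j) + s * M2 i0 (g j))
        (Matrix.of fun _ _ => M1 i0 j0 + s * M2 i0 j0) := by
      ext i j
      rcases i with i | i <;> rcases j with j | j <;>
        first | (simp [W]; done) | (simp [W]; ring)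
    rw [hW', fromBlocks_multiply]
    simp only [Matrix.one_mul, Matrix.zero_mul, zero_add, add_zero, Matrix.smul_mul]
    ext i j
    rcases i with i | i <;> rcases j with j | j
    · rfl
    · rfl
    · show M0 i0 (g j) + s * M1 i0 (g j) + s ^ 2 * M2 i0 (g j) =
        s * (M1 i0 (g j) + s * M2 i0 (g j))
      rw [h3]
      ring
    · show M0 i0 j0 + s * M1 i0 j0 + s ^ 2 * M2 i0 j0 = s * (M1 i0 j0 + s * M2 i0 j0)
      rw [h4]
      ring
  have hz : ∀ s : k, s ≠ 0 → W.det.eval s = 0 := by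
    intro s hs
    by_contra hne
    have hd : ((M0 + s • M1 + s ^ 2 • M2).submatrix
      (Sum.elim f (fun _ : Unit => i0)) (Sum.elim g (fun _ : Unit => j0))).det ≠ 0 := by
      rw [hfac, det_mul, ← hW, det_fromBlocks_zero₂₁]
      simp [hs, hne]
    have h5 := card_le_rank _ _ _ hd
    have h6 := h s
    rw [Fintype.card_sum, Fintype.card_unit] at h5
    omega
  have hp : W.det = 0 := by
    refine Polynomial.eq_zero_of_infinite_isRoot _ ?_
    refine Set.Infinite.mono (s := {s : k | s ≠ 0}) (fun s hs => hz s hs) ?_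
    exact (Set.finite_singleton (0 : k)).infinite_compl
  have h0 := hW 0
  rw [hp, Polynomial.eval_zero] at h0
  have hW0 : (Polynomial.evalRingHom (0 : k)).mapMatrix W = fromBlocks (1 : Matrix ι ι k)
      0 (Matrix.of fun _ j => M1 i0 (g j)) (Matrix.of fun _ _ => M1 i0 j0) := by
    ext i j
    rcases i with i | i <;> rcases j with j | j <;> simp [W, h1, h2]
  rw [hW0, det_fromBlocks_zero₁₂] at h0
  simpa using h0.symm

/-- rows `E_1, E_2, U_1` -/
def fR : Fin e ⊕ (Fin e ⊕ Fin u) → Ix e u p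
  | .inl i => .inl (.inr (.inl i))
  | .inr (.inl i) => .inl (.inr (.inr i))
  | .inr (.inr i) => .inr (.inl (.inr i))

/-- columns `E_0, E_1, U_0` -/
def gR : Fin e ⊕ (Fin e ⊕ Fin u) → Ix e u p
  | .inl i => .inl (.inl i)
  | .inr (.inl i) => .inl (.inr (.inl i))
  | .inr (.inr i) => .inr (.inl (.inl i))

theorem killP [Infinite k] (hT : MaxR ρ T) (h1 : ρ 1 ≤ 2 * e + u) (hA : JX k e u p ∈ adj T)
    {X : Matrix (Ix e u p) (Ix e u p) k} (hX : X ∈ adj T) (i j : Fin p) :
    X (.inr (.inr i)) (.inr (.inr j)) = 0 := by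
  refine kill2 (M0 := JX k e u p) (M1 := X) (M2 := 0) (fR (e := e) (u := u) (p := p))
    (gR (e := e) (u := u) (p := p)) _ _ ?_ ?_ ?_ ?_ ?_
  · intro s
    have h2 := hT.rank_le (add_mem hA (SMulMemClass.smul_mem s hX)) 1
    rw [pow_one] at h2
    rw [smul_zero, add_zero]
    refine (h2.trans h1).trans ?_
    simp only [Fintype.card_sum, Fintype.card_fin]
    omega
  · intro i j
    rcases i with i | i | i <;> rcases j with j | j | j <;>
      simp [JX, BX, fR, gR, Matrix.one_apply]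
  · intro i
    rcases i with i | i | i <;> simp [JX, BX, fR]
  · intro i
    rcases i with i | i | i <;> simp [JX, BX, gR]
  · simp [JX, BX]

theorem killU [CharZero k] (hT : MaxR ρ T) (h2 : ρ 2 ≤ e) (hA : JX k e u p ∈ adj T)
    {X : Matrix (Ix e u p) (Ix e u p) k} (hX : X ∈ adj T) (i j : Fin u) :
    (JX k e u p * X + X * JX k e u p) (.inr (.inl (.inr i))) (.inr (.inl (.inl j))) = 0 := by
  refine kill2 (M0 := JX k e u p * JX k e u p) (M1 := JX k e u p * X + X * JX k e u p)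
    (M2 := X * X) (fun i : Fin e => .inl (.inr (.inr i))) (fun i : Fin e => .inl (.inl i))
    _ _ ?_ ?_ ?_ ?_ ?_
  · intro s
    have h3 := hT.rank_le (add_mem hA (SMulMemClass.smul_mem s hX)) 2
    have h4 : (JX k e u p + s • X) ^ 2 = JX k e u p * JX k e u p +
        s • (JX k e u p * X + X * JX k e u p) + s ^ 2 • (X * X) := by
      rw [pow_two, add_mul, mul_add, mul_add, smul_mul_assoc, mul_smul_comm, smul_mul_assoc,
        mul_smul_comm, smul_smul, smul_add, pow_two]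
      abel
    rw [← h4]
    refine (h3.trans h2).trans ?_
    simp
  · intro i j
    rw [JX_sq]
    simp [BX]
  · intro i
    rw [JX_sq]
    simp [BX]
  · intro i
    rw [JX_sq]
    simp [BX]
  · rw [JX_sq]
    simp [BX]

/-- entries of `A X` and `X A` -/
theorem shape1 [CharZero k] (hT : MaxR ρ T) (h1 : ρ 1 ≤ 2 * e + u) (h2 : ρ 2 ≤ e) (h3 : ρ 3 = 0)
    (hA : JX k e u p ∈ adj T)
    {X : Matrix (Ix e u p) (Ix e u p) k} (hX : X ∈ adj T) :
    X = BX (Matrix.of fun i j => X (.inl (.inr (.inl i))) (.inl (.inl j)))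
      (Matrix.of fun i j => X (.inl (.inr (.inr i))) (.inl (.inl j)))
      (Matrix.of fun i j => X (.inr (.inl (.inl i))) (.inl (.inl j)))
      (Matrix.of fun i j => X (.inr (.inl (.inr i))) (.inl (.inl j)))
      (Matrix.of fun i j => X (.inr (.inr i)) (.inl (.inl j)))
      (Matrix.of fun i j => X (.inl (.inr (.inl i))) (.inr (.inl (.inl j))))
      (Matrix.of fun i j => X (.inl (.inr (.inr i))) (.inr (.inl (.inl j))))
      (Matrix.of fun i j => X (.inr (.inl (.inr i))) (.inr (.inl (.inl j))))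
      (Matrix.of fun i j => X (.inr (.inr i)) (.inr (.inl (.inl j))))
      (Matrix.of fun i j => X (.inl (.inr (.inr i))) (.inr (.inr j)))
      (Matrix.of fun i j => X (.inr (.inl (.inr i))) (.inr (.inr j))) := by
  have hc : JX k e u p * X = X * JX k e u p := hT.cn.comm hA hX
  have h0 : JX k e u p * JX k e u p * X = 0 := D8.mul3 hT h3 hA hA hX
  have H := fun i j => congrFun (congrFun hc i) j
  have H0 := fun i j => congrFun (congrFun h0 i) j
  have HP := fun i j => killP hT h1 hA hX i j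
  have HU := fun i j => killU hT h2 hA hX i j
  -- rows and columns of `A`
  have rE1 : ∀ (Y : Matrix (Ix e u p) (Ix e u p) k) (i : Fin e) (c : Ix e u p),
      (JX k e u p * Y) (.inl (.inr (.inl i))) c = Y (.inl (.inl i)) c := by
    intro Y i c
    simp [JX, BX, Matrix.mul_apply, Fintype.sum_sum_type, Matrix.one_apply]
  have rE2 : ∀ (Y : Matrix (Ix e u p) (Ix e u p) k) (i : Fin e) (c : Ix e u p),
      (JX k e u p * Y) (.inl (.inr (.inr i))) c = Y (.inl (.inr (.inl i))) c := by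
    intro Y i c
    simp [JX, BX, Matrix.mul_apply, Fintype.sum_sum_type, Matrix.one_apply]
  have rE0 : ∀ (Y : Matrix (Ix e u p) (Ix e u p) k) (i : Fin e) (c : Ix e u p),
      (JX k e u p * Y) (.inl (.inl i)) c = 0 := by
    intro Y i c
    simp [JX, BX, Matrix.mul_apply]
  have rU0 : ∀ (Y : Matrix (Ix e u p) (Ix e u p) k) (i : Fin u) (c : Ix e u p),
      (JX k e u p * Y) (.inr (.inl (.inl i))) c = 0 := by
    intro Y i c
    simp [JX, BX, Matrix.mul_apply, Fintype.sum_sum_type]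
  have rU1 : ∀ (Y : Matrix (Ix e u p) (Ix e u p) k) (i : Fin u) (c : Ix e u p),
      (JX k e u p * Y) (.inr (.inl (.inr i))) c = Y (.inr (.inl (.inl i))) c := by
    intro Y i c
    simp [JX, BX, Matrix.mul_apply, Fintype.sum_sum_type, Matrix.one_apply]
  have rP : ∀ (Y : Matrix (Ix e u p) (Ix e u p) k) (i : Fin p) (c : Ix e u p),
      (JX k e u p * Y) (.inr (.inr i)) c = 0 := by
    intro Y i c
    simp [JX, BX, Matrix.mul_apply, Fintype.sum_sum_type]
  have cE0 : ∀ (r : Ix e u p) (j : Fin e), (X * JX k e u p) r (.inl (.inl j)) =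
      X r (.inl (.inr (.inl j))) := by
    intro r j
    simp [JX, BX, Matrix.mul_apply, Fintype.sum_sum_type, Matrix.one_apply]
  have cE1 : ∀ (r : Ix e u p) (j : Fin e), (X * JX k e u p) r (.inl (.inr (.inl j))) =
      X r (.inl (.inr (.inr j))) := by
    intro r j
    simp [JX, BX, Matrix.mul_apply, Fintype.sum_sum_type, Matrix.one_apply]
  have cE2 : ∀ (r : Ix e u p) (j : Fin e), (X * JX k e u p) r (.inl (.inr (.inr j))) = 0 := by
    intro r j
    simp [JX, BX, Matrix.mul_apply]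
  have cU0 : ∀ (r : Ix e u p) (j : Fin u), (X * JX k e u p) r (.inr (.inl (.inl j))) =
      X r (.inr (.inl (.inr j))) := by
    intro r j
    simp [JX, BX, Matrix.mul_apply, Fintype.sum_sum_type, Matrix.one_apply]
  have cU1 : ∀ (r : Ix e u p) (j : Fin u), (X * JX k e u p) r (.inr (.inl (.inr j))) = 0 := by
    intro r j
    simp [JX, BX, Matrix.mul_apply, Fintype.sum_sum_type]
  have cP : ∀ (r : Ix e u p) (j : Fin p), (X * JX k e u p) r (.inr (.inr j)) = 0 := by
    intro r j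
    simp [JX, BX, Matrix.mul_apply, Fintype.sum_sum_type]
  have R1 : ∀ (i : Fin e) (c : Ix e u p), X (.inl (.inl i)) c =
      (X * JX k e u p) (.inl (.inr (.inl i))) c := fun i c => by rw [← hc, rE1]
  have R2 : ∀ (i : Fin e) (c : Ix e u p), X (.inl (.inr (.inl i))) c =
      (X * JX k e u p) (.inl (.inr (.inr i))) c := fun i c => by rw [← hc, rE2]
  have R0 : ∀ (i : Fin e) (c : Ix e u p),
      (X * JX k e u p) (.inl (.inl i)) c = 0 := fun i c => by rw [← hc, rE0]
  have S0 : ∀ (i : Fin u) (c : Ix e u p),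
      (X * JX k e u p) (.inr (.inl (.inl i))) c = 0 := fun i c => by rw [← hc, rU0]
  have S1 : ∀ (i : Fin u) (c : Ix e u p), X (.inr (.inl (.inl i))) c =
      (X * JX k e u p) (.inr (.inl (.inr i))) c := fun i c => by rw [← hc, rU1]
  have SP : ∀ (i : Fin p) (c : Ix e u p),
      (X * JX k e u p) (.inr (.inr i)) c = 0 := fun i c => by rw [← hc, rP]
  -- first block
  have n0 : ∀ (i j : Fin e), X (.inl (.inl i)) (.inl (.inl j)) = 0 := by
    intro i j
    have h := H0 (.inl (.inr (.inr i))) (.inl (.inl j))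
    rw [mul_assoc, rE2, rE1] at h
    exact h
  have z0 : ∀ (i j : Fin u), X (.inr (.inl (.inl i))) (.inr (.inl (.inl j))) = 0 := by
    intro i j
    have h := HU i j
    rw [← hc, Matrix.add_apply, rU1, ← two_mul] at h
    exact (mul_eq_zero.1 h).resolve_left two_ne_zero
  -- the remaining entries
  have x01 : ∀ (i j : Fin e), X (.inl (.inl i)) (.inl (.inr (.inl j))) = 0 := fun i j => by
    rw [← cE0, R0]
  have x02 : ∀ (i j : Fin e), X (.inl (.inl i)) (.inl (.inr (.inr j))) = 0 := fun i j => by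
    rw [← cE1, R0]
  have x0U1 : ∀ (i : Fin e) (j : Fin u), X (.inl (.inl i)) (.inr (.inl (.inr j))) = 0 :=
    fun i j => by rw [← cU0, R0]
  have x11 : ∀ (i j : Fin e), X (.inl (.inr (.inl i))) (.inl (.inr (.inl j))) = 0 := fun i j => by
    rw [← cE0, ← R1, n0]
  have x12 : ∀ (i j : Fin e), X (.inl (.inr (.inl i))) (.inl (.inr (.inr j))) = 0 := fun i j => by
    rw [R2, cE2]
  have x1U1 : ∀ (i : Fin e) (j : Fin u), X (.inl (.inr (.inl i))) (.inr (.inl (.inr j))) = 0 :=
    fun i j => by rw [R2, cU1]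
  have x1P : ∀ (i : Fin e) (j : Fin p), X (.inl (.inr (.inl i))) (.inr (.inr j)) = 0 :=
    fun i j => by rw [R2, cP]
  have x0U0 : ∀ (i : Fin e) (j : Fin u), X (.inl (.inl i)) (.inr (.inl (.inl j))) = 0 :=
    fun i j => by rw [R1, cU0, x1U1]
  have x0P : ∀ (i : Fin e) (j : Fin p), X (.inl (.inl i)) (.inr (.inr j)) = 0 :=
    fun i j => by rw [R1, cP]
  have x21 : ∀ (i j : Fin e), X (.inl (.inr (.inr i))) (.inl (.inr (.inl j))) =
      X (.inl (.inr (.inl i))) (.inl (.inl j)) := fun i j => by rw [R2, cE0]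
  have x22 : ∀ (i j : Fin e), X (.inl (.inr (.inr i))) (.inl (.inr (.inr j))) = 0 := fun i j => by
    rw [← cE1, ← R2, x11]
  have x2U1 : ∀ (i : Fin e) (j : Fin u), X (.inl (.inr (.inr i))) (.inr (.inl (.inr j))) =
      X (.inl (.inr (.inl i))) (.inr (.inl (.inl j))) := fun i j => by rw [R2, cU0]
  have y01 : ∀ (i : Fin u) (j : Fin e), X (.inr (.inl (.inl i))) (.inl (.inr (.inl j))) = 0 :=
    fun i j => by rw [← cE0, S0]
  have y02 : ∀ (i : Fin u) (j : Fin e), X (.inr (.inl (.inl i))) (.inl (.inr (.inr j))) = 0 :=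
    fun i j => by rw [← cE1, S0]
  have y0U1 : ∀ (i j : Fin u), X (.inr (.inl (.inl i))) (.inr (.inl (.inr j))) = 0 :=
    fun i j => by rw [← cU0, S0]
  have y0P : ∀ (i : Fin u) (j : Fin p), X (.inr (.inl (.inl i))) (.inr (.inr j)) = 0 :=
    fun i j => by rw [S1, cP]
  have y11 : ∀ (i : Fin u) (j : Fin e), X (.inr (.inl (.inr i))) (.inl (.inr (.inl j))) =
      X (.inr (.inl (.inl i))) (.inl (.inl j)) := fun i j => by rw [S1, cE0]
  have y12 : ∀ (i : Fin u) (j : Fin e), X (.inr (.inl (.inr i))) (.inl (.inr (.inr j))) = 0 :=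
    fun i j => by rw [← cE1, ← S1, y01]
  have y1U1 : ∀ (i j : Fin u), X (.inr (.inl (.inr i))) (.inr (.inl (.inr j))) = 0 :=
    fun i j => by rw [← cU0, ← S1, z0]
  have p1 : ∀ (i : Fin p) (j : Fin e), X (.inr (.inr i)) (.inl (.inr (.inl j))) = 0 :=
    fun i j => by rw [← cE0, SP]
  have p2 : ∀ (i : Fin p) (j : Fin e), X (.inr (.inr i)) (.inl (.inr (.inr j))) = 0 :=
    fun i j => by rw [← cE1, SP]
  have pU1 : ∀ (i : Fin p) (j : Fin u), X (.inr (.inr i)) (.inr (.inl (.inr j))) = 0 :=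
    fun i j => by rw [← cU0, SP]
  ext i j
  rcases i with (i | i | i) | ((i | i) | i) <;> rcases j with (j | j | j) | ((j | j) | j)
  all_goals simp only [BX, Matrix.of_apply, n0, z0, x01, x02, x0U1, x11, x12, x1U1, x1P, x0U0,
    x0P, x21, x22, x2U1, y01, y02, y0U1, y0P, y11, y12, y1U1, p1, p2, pU1, HP]

theorem shape2 [CharZero k] (hT : MaxR ρ T) (h1 : ρ 1 ≤ 2 * e + u) (h2 : ρ 2 ≤ e) (h3 : ρ 3 = 0)
    (hA : JX k e u p ∈ adj T)
    {X : Matrix (Ix e u p) (Ix e u p) k} (hX : X ∈ adj T) :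
    ∃ (N M : Matrix (Fin e) (Fin e) k) (a c : Matrix (Fin u) (Fin e) k)
      (w : Matrix (Fin p) (Fin e) k) (b d : Matrix (Fin e) (Fin u) k)
      (nu : Matrix (Fin u) (Fin u) k) (pi : Matrix (Fin p) (Fin u) k)
      (th : Matrix (Fin e) (Fin p) k) (et : Matrix (Fin u) (Fin p) k),
      X = BX N M a c w b d nu pi th et :=
  ⟨_, _, _, _, _, _, _, _, _, _, _, shape1 hT h1 h2 h3 hA hX⟩

end BlkShapeAux

open BlkShapeAux

theorem kap0 [CharZero k] (hT : MaxR ρ T) (h1 : ρ 1 ≤ 2 * e + u) (hA : JX k e u p ∈ adj T)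
    {N M : Matrix (Fin e) (Fin e) k} {a c : Matrix (Fin u) (Fin e) k}
    {w : Matrix (Fin p) (Fin e) k} {b d : Matrix (Fin e) (Fin u) k}
    {nu : Matrix (Fin u) (Fin u) k} {pi : Matrix (Fin p) (Fin u) k}
    {th : Matrix (Fin e) (Fin p) k} {et : Matrix (Fin u) (Fin p) k} {κ : Matrix (Fin p) (Fin p) k}
    (hX : BX N M a c w b d nu pi th et + KX e u κ ∈ adj T) : κ = 0 := by
  ext i j
  have h := killP hT h1 hA hX i j
  simpa [BX, KX] using h

theorem ba0X [CharZero k] (hT : MaxR ρ T) (h3 : ρ 3 = 0) (hA : JX k e u p ∈ adj T)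
    {N M N' M' : Matrix (Fin e) (Fin e) k} {a c a' c' : Matrix (Fin u) (Fin e) k}
    {w w' : Matrix (Fin p) (Fin e) k} {b d b' d' : Matrix (Fin e) (Fin u) k}
    {nu nu' : Matrix (Fin u) (Fin u) k} {pi pi' : Matrix (Fin p) (Fin u) k}
    {th th' : Matrix (Fin e) (Fin p) k} {et et' : Matrix (Fin u) (Fin p) k}
    (hX : BX N M a c w b d nu pi th et ∈ adj T)
    (hY : BX N' M' a' c' w' b' d' nu' pi' th' et' ∈ adj T) : b * a' = 0 := by
  have h := D8.mul3 hT h3 hA hX hY
  rw [JX_mul_BX, BX_mul, ← BX_zero, BX_inj] at h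
  simpa using h.2.1

theorem shapeX [CharZero k] (hT : MaxR ρ T) (hρ : ∀ i, ρ i = (JX k e u p ^ i).rank)
    (h0 : T 0 = JX k e u p) :
    ∃ (N M : Matrix (Fin e) (Fin e) k) (a c : Matrix (Fin u) (Fin e) k)
      (w : Matrix (Fin p) (Fin e) k) (b d : Matrix (Fin e) (Fin u) k)
      (nu : Matrix (Fin u) (Fin u) k) (pi : Matrix (Fin p) (Fin u) k)
      (th : Matrix (Fin e) (Fin p) k) (et : Matrix (Fin u) (Fin p) k)
      (N' M' : Matrix (Fin e) (Fin e) k) (a' c' : Matrix (Fin u) (Fin e) k)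
      (w' : Matrix (Fin p) (Fin e) k) (b' d' : Matrix (Fin e) (Fin u) k)
      (nu' : Matrix (Fin u) (Fin u) k) (pi' : Matrix (Fin p) (Fin u) k)
      (th' : Matrix (Fin e) (Fin p) k) (et' : Matrix (Fin u) (Fin p) k),
      MaxR ρ ![JX k e u p, BX N M a c w b d nu pi th et,
        BX N' M' a' c' w' b' d' nu' pi' th' et'] := by
  have h1 : ρ 1 ≤ 2 * e + u := by
    rw [hρ, pow_one]
    exact JX_rank
  have h2 : ρ 2 ≤ e := by
    rw [hρ]
    exact JX_rank_sq
  have h3 : ρ 3 = 0 := by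
    rw [hρ, JX_cube, Matrix.rank_zero]
  have hA : JX k e u p ∈ adj T := h0 ▸ mem_adj T 0
  obtain ⟨N, M, a, c, w, b, d, nu, pi, th, et, e1⟩ := shape2 hT h1 h2 h3 hA (mem_adj T 1)
  obtain ⟨N', M', a', c', w', b', d', nu', pi', th', et', e2⟩ :=
    shape2 hT h1 h2 h3 hA (mem_adj T 2)
  refine ⟨N, M, a, c, w, b, d, nu, pi, th, et, N', M', a', c', w', b', d', nu', pi', th', et', ?_⟩
  rw [← e1, ← e2, ← h0]
  have : ![T 0, T 1, T 2] = T := by
    funext i
    fin_cases i <;> rfl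
  rw [this]
  exact hT

end Pool.Agent.Lib.D9
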