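import Pool.Agent.Lib.D9.T3321b

/-!
Module T3321I (black boxes no_3321W, no_3321b). Type (3,3,2,1), b = pi = 0 for both. Notation: F = E + U = k^3, e3 := u, Y = [[N, d], [a, nu]] : F -> F, Θ = (th; et) in F, w : E -> k; the same for C. Relations (BX_comm 2, 3): [Y, Y'] e + Θ w'(e) - Θ' w(e) = 0 for all e in E.
M, c, M', c' are free. Y' can be changed by multiples of Y and 1 (MaxR.lin).
PROOF. (W) w, w' independent: conjX with g = rows (w; w') on E: w = (1, 0), w' = (0, 1): no_3321W. Otherwise MaxR.lin / swap: w' = 0.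
(c) w = w' = 0. (c.1) a = a' = 0: then N N' = N' N, and d, nu, Θ are free. There is (α, α', ψ, ψ') <> 0 (rows of k^2, 8 unknowns) with d α' + th ψ' = d' α + th' ψ (4 equations) and α N' + nu α' + et ψ' = α' N + nu' α + et' ψ (2 equations): family a = s α, a' = s α', w = s ψ, w' = s ψ': CN for all s. So WLOG (a, a', w, w') <> 0.
 (c.2) w = w' = 0, (a, a') <> 0: swap: a <> 0. The family d' + s th, nu' + s et, w' = s a is CN for all s: with y := Θ e3^* one has [Y, y] e = - Θ a(e) for e in E. So WLOG w' <> 0.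
(b) w <> 0, w' = 0 (after MaxR.lin; conjX: w = (1, 0)), f := e2 spans ker w. (b.1) if Y f or (Y + Y') f is not in k f (replace B by B + C, w does not change) we may assume Y f not in k f. There are y, ϑ in F and ψ = (0, 1) with [Y, y] e + Θ ψ(e) - ϑ w(e) = 0 on E: y f = 0, y (Y f) = Θ, ϑ := [Y, y] e1. Family C -> C + s K1 (Y-part y, w-part ψ, Θ-part ϑ): CN for all s; w, w'_s = s ψ independent: (W).
 (b.2) Y f, Y' f in k f: subtract multiples of A from B, C (MaxR.lin): Y f = Y' f = 0: no_3321b.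
-/

namespace Pool.Agent.Lib.D9

open Matrix Pool.Agent.Lib.Q5dc Pool.Agent.Lib.D7

namespace T3321IAux

variable {k : Type*} [Field k] {ρ : ℕ → ℕ}

/-- the triples of this file -/
abbrev Tr (N M : Matrix (Fin 2) (Fin 2) k) (a c w : Matrix (Fin 1) (Fin 2) k)
    (d : Matrix (Fin 2) (Fin 1) k) (nu : Matrix (Fin 1) (Fin 1) k)
    (th : Matrix (Fin 2) (Fin 1) k) (et : Matrix (Fin 1) (Fin 1) k)
    (N' M' : Matrix (Fin 2) (Fin 2) k) (a' c' w' : Matrix (Fin 1) (Fin 2) k)
    (d' : Matrix (Fin 2) (Fin 1) k) (nu' : Matrix (Fin 1) (Fin 1) k)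
    (th' : Matrix (Fin 2) (Fin 1) k) (et' : Matrix (Fin 1) (Fin 1) k) :
    Fin 3 → Matrix (Ix 2 1 1) (Ix 2 1 1) k :=
  ![JX k 2 1 1, BX N M a c w 0 d nu 0 th et, BX N' M' a' c' w' 0 d' nu' 0 th' et']

variable {N M N' M' : Matrix (Fin 2) (Fin 2) k} {a c w a' c' w' : Matrix (Fin 1) (Fin 2) k}
    {d d' th th' : Matrix (Fin 2) (Fin 1) k} {nu nu' et et' : Matrix (Fin 1) (Fin 1) k}

theorem rel (hT : MaxR ρ (Tr N M a c w d nu th et N' M' a' c' w' d' nu' th' et')) :
    N * N' + d * a' + th * w' = N' * N + d' * a + th' * w ∧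
    a * N' + nu * a' + et * w' = a' * N + nu' * a + et' * w := by
  have h := (BX_comm ..).1 (hT.cn.comm (D8.mem1 _ _ _) (D8.mem2 _ _ _))
  obtain ⟨-, h2, h3, -⟩ := h
  refine ⟨?_, h3⟩
  simpa using h2

theorem cn (h2 : N * N' + d * a' + th * w' = N' * N + d' * a + th' * w)
    (h3 : a * N' + nu * a' + et * w' = a' * N + nu' * a + et' * w) :
    CN (Tr N M a c w d nu th et N' M' a' c' w' d' nu' th' et') :=
  cnX _ _ _ _ _ _ _ _ _ _ _ _ _ _ _ _ _ _ _ _ _ _ (by simp) (by simpa using h2) h3 (by simp)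
    (by simp) (by simp) (by simp)

/-- linear changes -/
theorem lin (hT : MaxR ρ (Tr N M a c w d nu th et N' M' a' c' w' d' nu' th' et'))
    (x y z t p q : k) (h : x * t - y * z ≠ 0) :
    MaxR ρ (Tr (x • N + y • N' + p • 1) (x • M + y • M') (x • a + y • a') (x • c + y • c')
      (x • w + y • w') (x • d + y • d') (x • nu + y • nu' + p • 1) (x • th + y • th')
      (x • et + y • et') (z • N + t • N' + q • 1) (z • M + t • M') (z • a + t • a')
      (z • c + t • c') (z • w + t • w') (z • d + t • d') (z • nu + t • nu' + q • 1)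
      (z • th + t • th') (z • et + t • et')) := by
  have h := D8.MaxR.lin hT x y z t p 0 q 0 h
  simp only [zero_smul, add_zero] at h
  rw [JX, BX_smul, BX_smul, BX_smul, BX_smul, BX_smul, BX_smul, BX_add, BX_add, BX_add,
    BX_add] at h
  simp only [smul_zero, add_zero] at h
  exact h

theorem swap (hT : MaxR ρ (Tr N M a c w d nu th et N' M' a' c' w' d' nu' th' et')) :
    MaxR ρ (Tr N' M' a' c' w' d' nu' th' et' N M a c w d nu th et) := D8.MaxR.swap hT

/-- change of the basis of `E` -/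
theorem conj (hT : MaxR ρ (Tr N M a c w d nu th et N' M' a' c' w' d' nu' th' et'))
    {g h : Matrix (Fin 2) (Fin 2) k} (hgh : g * h = 1) :
    MaxR ρ (Tr (g * N * h) (g * M * h) (a * h) (c * h) (w * h) (g * d) nu (g * th) et
      (g * N' * h) (g * M' * h) (a' * h) (c' * h) (w' * h) (g * d') nu' (g * th') et') := by
  have h2 := MaxR.conjX g h 1 1 1 1 hT hgh (one_mul 1) (one_mul 1)
  simp only [Matrix.one_mul, Matrix.mul_one, Matrix.mul_zero] at h2
  exact h2

/-- case (W) -/
theorem caseW [IsAlgClosed k] [CharZero k] (hcl : ∀ G : Fin 6 × Fin 3 → k, Cl (TG3 G))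
    (hT : MaxR ρ (Tr N M a c w d nu th et N' M' a' c' w' d' nu' th' et'))
    (h : w 0 0 * w' 0 1 - w 0 1 * w' 0 0 ≠ 0) : False := by
  obtain ⟨g, hg⟩ : ∃ g : Matrix (Fin 2) (Fin 2) k, g = !![w 0 0, w 0 1; w' 0 0, w' 0 1] :=
    ⟨_, rfl⟩
  have hu : IsUnit g.det := by
    rw [hg, Matrix.det_fin_two_of]
    exact isUnit_iff_ne_zero.2 h
  have hgh : g * g⁻¹ = 1 := Matrix.mul_nonsing_inv g hu
  have h1 := conj hT hgh
  have e1 : w = (!![1, 0] : Matrix (Fin 1) (Fin 2) k) * g := by
    rw [hg]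
    ext i j
    fin_cases i
    fin_cases j <;> simp [Matrix.mul_apply, Fin.sum_univ_two]
  have e2 : w' = (!![0, 1] : Matrix (Fin 1) (Fin 2) k) * g := by
    rw [hg]
    ext i j
    fin_cases i
    fin_cases j <;> simp [Matrix.mul_apply, Fin.sum_univ_two]
  have e3 : w * g⁻¹ = !![1, 0] := by
    rw [e1, Matrix.mul_assoc, hgh, Matrix.mul_one]
  have e4 : w' * g⁻¹ = !![0, 1] := by
    rw [e2, Matrix.mul_assoc, hgh, Matrix.mul_one]
  rw [e3, e4] at h1
  exact no_3321W hcl h1

/-- case (b.1), given `y = (y0 | 0 | y2)` with `y (Y e2) = Θ` -/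
theorem caseB1 [IsAlgClosed k] [CharZero k] (hcl : ∀ G : Fin 6 × Fin 3 → k, Cl (TG3 G))
    (hT : MaxR ρ (Tr N M a c !![1, 0] d nu th et N' M' a' c' 0 d' nu' th' et'))
    (h : N 0 1 ≠ 0 ∨ a 0 1 ≠ 0) : False := by
  obtain ⟨h2, h3⟩ := rel hT
  obtain ⟨x, z, hxz⟩ : ∃ x z : k, N 0 1 * x + a 0 1 * z = 1 := by
    rcases h with h | h
    · exact ⟨(N 0 1)⁻¹, 0, by rw [mul_inv_cancel₀ h, mul_zero, add_zero]⟩
    · exact ⟨0, (a 0 1)⁻¹, by rw [mul_inv_cancel₀ h, mul_zero, zero_add]⟩
  -- `y e1 = x Θ`, `y e2 = 0`, `y e3 = z Θ`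
  obtain ⟨n1, hn1⟩ : ∃ n1 : Matrix (Fin 2) (Fin 2) k, n1 = !![x * th 0 0, 0; x * th 1 0, 0] :=
    ⟨_, rfl⟩
  obtain ⟨a1, ha1⟩ : ∃ a1 : Matrix (Fin 1) (Fin 2) k, a1 = !![x * et 0 0, 0] := ⟨_, rfl⟩
  obtain ⟨th1, hth1⟩ : ∃ th1 : Matrix (Fin 2) (Fin 1) k, th1 = Matrix.of fun i _ =>
    (N * n1 + d * a1 - n1 * N - (z • th) * a) i 0 := ⟨_, rfl⟩
  obtain ⟨et1, het1⟩ : ∃ et1 : Matrix (Fin 1) (Fin 1) k, et1 = Matrix.of fun i _ =>
    (a * n1 + nu * a1 - a1 * N - (z • et) * a) i 0 := ⟨_, rfl⟩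
  obtain ⟨s, hs, h4⟩ := D8.MaxR.line2 hT 0
    (BX n1 0 a1 0 !![0, 1] 0 (z • th) (z • et) 0 th1 et1) (fun s => by
      rw [BX_smul, BX_add]
      simp only [smul_zero, add_zero, zero_add]
      refine cn ?_ ?_
      · ext i j
        have b := congrFun (congrFun h2 i) j
        rw [hth1, hn1, ha1]
        simp only [Matrix.add_apply, Matrix.sub_apply, Matrix.smul_apply, Matrix.mul_apply,
          Fin.sum_univ_two, Fin.sum_univ_one, smul_eq_mul, Matrix.zero_apply,
          Matrix.of_apply] at b ⊢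
        fin_cases i <;> fin_cases j <;> simp at b ⊢
        · linear_combination b
        · linear_combination b - s * th 0 0 * hxz
        · linear_combination b
        · linear_combination b - s * th 1 0 * hxz
      · ext i j
        have b := congrFun (congrFun h3 i) j
        rw [het1, hn1, ha1]
        simp only [Matrix.add_apply, Matrix.sub_apply, Matrix.smul_apply, Matrix.mul_apply,
          Fin.sum_univ_two, Fin.sum_univ_one, smul_eq_mul, Matrix.zero_apply,
          Matrix.of_apply] at b ⊢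
        fin_cases i
        fin_cases j <;> simp at b ⊢
        · linear_combination b
        · linear_combination b - s * et 0 0 * hxz) (Set.finite_singleton 0)
  rw [BX_smul, BX_add] at h4
  simp only [smul_zero, add_zero, zero_add] at h4
  refine caseW hcl h4 ?_
  have hs0 : s ≠ 0 := hs
  simpa using hs0

/-- case (b), `w = (1, 0)` -/
theorem caseB [IsAlgClosed k] [CharZero k] (hcl : ∀ G : Fin 6 × Fin 3 → k, Cl (TG3 G))
    (hT : MaxR ρ (Tr N M a c !![1, 0] d nu th et N' M' a' c' 0 d' nu' th' et')) : False := by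
  by_cases hN : N 0 1 = 0
  · by_cases ha : a 0 1 = 0
    · by_cases hN' : N' 0 1 = 0
      · by_cases ha' : a' 0 1 = 0
        · have h1 := lin hT 1 0 0 1 (-N 1 1) (-N' 1 1) (by simp)
          simp only [one_smul, zero_smul, add_zero, zero_add] at h1
          have e1 : N + (-N 1 1) • 1 = !![N 0 0 - N 1 1, 0; N 1 0, 0] := by
            ext i j
            fin_cases i <;> fin_cases j <;> simp [hN, sub_eq_add_neg]
          have e2 : N' + (-N' 1 1) • 1 = !![N' 0 0 - N' 1 1, 0; N' 1 0, 0] := by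
            ext i j
            fin_cases i <;> fin_cases j <;> simp [hN', sub_eq_add_neg]
          have e3 : a = !![a 0 0, 0] := by
            ext i j
            fin_cases i
            fin_cases j <;> simp [ha]
          have e4 : a' = !![a' 0 0, 0] := by
            ext i j
            fin_cases i
            fin_cases j <;> simp [ha']
          rw [e1, e2, e3, e4] at h1
          exact no_3321b hcl h1
        · have h1 := lin hT 1 1 0 1 0 0 (by simp)
          simp only [one_smul, zero_smul, add_zero, zero_add] at h1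
          refine caseB1 hcl h1 (Or.inr ?_)
          simpa [ha] using ha'
      · have h1 := lin hT 1 1 0 1 0 0 (by simp)
        simp only [one_smul, zero_smul, add_zero, zero_add] at h1
        refine caseB1 hcl h1 (Or.inl ?_)
        simpa [hN] using hN'
    · exact caseB1 hcl hT (Or.inr ha)
  · exact caseB1 hcl hT (Or.inl hN)

/-- case (b), `w' = 0` -/
theorem caseB0 [IsAlgClosed k] [CharZero k] (hcl : ∀ G : Fin 6 × Fin 3 → k, Cl (TG3 G))
    (hT : MaxR ρ (Tr N M a c w d nu th et N' M' a' c' 0 d' nu' th' et')) (hw : w ≠ 0) :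
    False := by
  obtain ⟨g, hu, hwg⟩ : ∃ g : Matrix (Fin 2) (Fin 2) k, IsUnit g.det ∧
      w = (!![1, 0] : Matrix (Fin 1) (Fin 2) k) * g := by
    by_cases h0 : w 0 0 = 0
    · have h1 : w 0 1 ≠ 0 := by
        intro h1
        apply hw
        ext i j
        fin_cases i
        fin_cases j
        · exact h0
        · exact h1
      refine ⟨!![w 0 0, w 0 1; 1, 0], ?_, ?_⟩
      · rw [Matrix.det_fin_two_of]
        exact isUnit_iff_ne_zero.2 (by simpa using h1)
      · ext i j
        fin_cases i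
        fin_cases j <;> simp [Matrix.mul_apply, Fin.sum_univ_two]
    · refine ⟨!![w 0 0, w 0 1; 0, 1], ?_, ?_⟩
      · rw [Matrix.det_fin_two_of]
        exact isUnit_iff_ne_zero.2 (by simpa using h0)
      · ext i j
        fin_cases i
        fin_cases j <;> simp [Matrix.mul_apply, Fin.sum_univ_two]
  have hgh : g * g⁻¹ = 1 := Matrix.mul_nonsing_inv g hu
  have h1 := conj hT hgh
  have e3 : w * g⁻¹ = !![1, 0] := by
    rw [hwg, Matrix.mul_assoc, hgh, Matrix.mul_one]
  rw [e3, Matrix.zero_mul] at h1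
  exact caseB hcl h1

/-- `w` is not zero -/
theorem casew [IsAlgClosed k] [CharZero k] (hcl : ∀ G : Fin 6 × Fin 3 → k, Cl (TG3 G))
    (hT : MaxR ρ (Tr N M a c w d nu th et N' M' a' c' w' d' nu' th' et')) (hw : w ≠ 0) :
    False := by
  by_cases h : w 0 0 * w' 0 1 - w 0 1 * w' 0 0 = 0
  · obtain ⟨t, ht⟩ : ∃ t : k, w' = t • w := by
      by_cases h0 : w 0 0 = 0
      · have h1 : w 0 1 ≠ 0 := by
          intro h1
          apply hw
          ext i j
          fin_cases i
          fin_cases j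
          · exact h0
          · exact h1
        refine ⟨w' 0 1 / w 0 1, ?_⟩
        ext i j
        fin_cases i
        fin_cases j
        · simp
          field_simp
          linear_combination -h
        · simp
          field_simp
      · refine ⟨w' 0 0 / w 0 0, ?_⟩
        ext i j
        fin_cases i
        fin_cases j
        · simp
          field_simp
        · simp
          field_simp
          linear_combination h
    have h1 := lin hT 1 0 (-t) 1 0 0 (by simp)
    have e1 : (1 : k) • w + (0 : k) • w' = w := by simp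
    have e2 : -t • w + (1 : k) • w' = 0 := by
      rw [ht]
      module
    rw [e1, e2] at h1
    exact caseB0 hcl h1 hw
  · exact caseW hcl hT h

/-- `(w, w')` is not zero -/
theorem casew2 [IsAlgClosed k] [CharZero k] (hcl : ∀ G : Fin 6 × Fin 3 → k, Cl (TG3 G))
    (hT : MaxR ρ (Tr N M a c w d nu th et N' M' a' c' w' d' nu' th' et'))
    (hw : w ≠ 0 ∨ w' ≠ 0) : False := by
  rcases hw with hw | hw
  · exact casew hcl hT hw
  · exact casew hcl (swap hT) hw

/-- case (c.2) -/
theorem caseC2 [IsAlgClosed k] [CharZero k] (hcl : ∀ G : Fin 6 × Fin 3 → k, Cl (TG3 G))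
    (hT : MaxR ρ (Tr N M a c 0 d nu th et N' M' a' c' 0 d' nu' th' et')) (ha : a ≠ 0) :
    False := by
  obtain ⟨h2, h3⟩ := rel hT
  obtain ⟨s, hs, h4⟩ := D8.MaxR.line2 hT 0 (BX 0 0 0 0 a 0 th et 0 0 0) (fun s => by
      rw [BX_smul, BX_add]
      simp only [smul_zero, add_zero, zero_add]
      refine cn ?_ ?_
      · simp only [Matrix.mul_zero, add_zero] at h2 ⊢
        rw [h2, Matrix.mul_smul, Matrix.add_mul, Matrix.smul_mul]
        abel
      · simp only [Matrix.mul_zero, add_zero] at h3 ⊢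
        rw [h3, Matrix.mul_smul, Matrix.add_mul, Matrix.smul_mul]
        abel) (Set.finite_singleton 0)
  rw [BX_smul, BX_add] at h4
  simp only [smul_zero, add_zero, zero_add] at h4
  have hs0 : s ≠ 0 := hs
  exact casew2 hcl h4 (Or.inr (smul_ne_zero hs0 ha))

/-- the linear system of case (c.1) -/
theorem exists_sol (N N' : Matrix (Fin 2) (Fin 2) k) (d d' th th' : Matrix (Fin 2) (Fin 1) k)
    (nu nu' et et' : Matrix (Fin 1) (Fin 1) k) :
    ∃ α α' ψ ψ' : Matrix (Fin 1) (Fin 2) k, (α ≠ 0 ∨ α' ≠ 0 ∨ ψ ≠ 0 ∨ ψ' ≠ 0) ∧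
      d * α' + th * ψ' = d' * α + th' * ψ ∧
      α * N' + nu * α' + et * ψ' = α' * N + nu' * α + et' * ψ := by
  classical
  let f : (Matrix (Fin 1) (Fin 2) k × Matrix (Fin 1) (Fin 2) k × Matrix (Fin 1) (Fin 2) k ×
      Matrix (Fin 1) (Fin 2) k) →ₗ[k] Matrix (Fin 2) (Fin 2) k × Matrix (Fin 1) (Fin 2) k :=
    { toFun := fun v => (d * v.2.1 + th * v.2.2.2 - d' * v.1 - th' * v.2.2.1,
        v.1 * N' + nu * v.2.1 + et * v.2.2.2 - v.2.1 * N - nu' * v.1 - et' * v.2.2.1)
      map_add' := by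
        intro u v
        simp only [Prod.fst_add, Prod.snd_add, Matrix.mul_add, Matrix.add_mul, Prod.mk_add_mk,
          Prod.mk.injEq]
        constructor <;> abel
      map_smul' := by
        intro s v
        simp only [Prod.smul_fst, Prod.smul_snd, Matrix.mul_smul, Matrix.smul_mul,
          RingHom.id_apply, Prod.smul_mk, smul_add, smul_sub] }
  have hf : LinearMap.ker f ≠ ⊥ := by
    apply LinearMap.ker_ne_bot_of_finrank_lt
    simp [Module.finrank_prod, Module.finrank_matrix]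
  obtain ⟨v, hv, hv0⟩ := (Submodule.ne_bot_iff _).1 hf
  have hv' : f v = 0 := hv
  have e1 : d * v.2.1 + th * v.2.2.2 - d' * v.1 - th' * v.2.2.1 = 0 := congrArg Prod.fst hv'
  have e2 : v.1 * N' + nu * v.2.1 + et * v.2.2.2 - v.2.1 * N - nu' * v.1 - et' * v.2.2.1 = 0 :=
    congrArg Prod.snd hv'
  refine ⟨v.1, v.2.1, v.2.2.1, v.2.2.2, ?_, ?_, ?_⟩
  · by_contra hc
    simp only [not_or, not_not] at hc
    obtain ⟨c1, c2, c3, c4⟩ := hc
    apply hv0
    ext1
    · exact c1
    · ext1
      · exact c2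
      · ext1
        · exact c3
        · exact c4
  · rw [← sub_eq_zero, ← e1]
    abel
  · rw [← sub_eq_zero, ← e2]
    abel

/-- case (c.1) -/
theorem caseC1 [IsAlgClosed k] [CharZero k] (hcl : ∀ G : Fin 6 × Fin 3 → k, Cl (TG3 G))
    (hT : MaxR ρ (Tr N M 0 c 0 d nu th et N' M' 0 c' 0 d' nu' th' et')) : False := by
  obtain ⟨h2, h3⟩ := rel hT
  obtain ⟨α, α', ψ, ψ', hne, r1, r2⟩ := exists_sol N N' d d' th th' nu nu' et et'
  obtain ⟨s, hs, h4⟩ := D8.MaxR.line2 hT (BX 0 0 α 0 ψ 0 0 0 0 0 0) (BX 0 0 α' 0 ψ' 0 0 0 0 0 0)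
    (fun s => by
      rw [BX_smul, BX_add, BX_smul, BX_add]
      simp only [smul_zero, add_zero, zero_add]
      refine cn ?_ ?_
      · simp only [Matrix.mul_zero, add_zero] at h2
        rw [h2]
        simp only [Matrix.mul_smul]
        rw [add_assoc, add_assoc, ← smul_add, ← smul_add, r1]
      · simp only [Matrix.mul_smul, Matrix.smul_mul]
        rw [← smul_add, ← smul_add, ← smul_add, ← smul_add, r2]) (Set.finite_singleton 0)
  rw [BX_smul, BX_add, BX_smul, BX_add] at h4
  simp only [smul_zero, add_zero, zero_add] at h4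
  have hs0 : s ≠ 0 := hs
  by_cases hp : ψ = 0
  · by_cases hp' : ψ' = 0
    · rw [hp, hp', smul_zero] at h4
      rcases hne with h | h | h | h
      · exact caseC2 hcl h4 (smul_ne_zero hs0 h)
      · exact caseC2 hcl (swap h4) (smul_ne_zero hs0 h)
      · exact h hp
      · exact h hp'
    · exact casew2 hcl h4 (Or.inr (smul_ne_zero hs0 hp'))
  · exact casew2 hcl h4 (Or.inl (smul_ne_zero hs0 hp))

end T3321IAux

theorem no_3321I {k : Type*} [Field k] [IsAlgClosed k] [CharZero k] {ρ : ℕ → ℕ}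
    (hcl : ∀ G : Fin 6 × Fin 3 → k, Cl (TG3 G))
    {N M N' M' : Matrix (Fin 2) (Fin 2) k} {a c w a' c' w' : Matrix (Fin 1) (Fin 2) k}
    {d d' th th' : Matrix (Fin 2) (Fin 1) k} {nu nu' et et' : Matrix (Fin 1) (Fin 1) k}
    (hT : MaxR ρ ![JX k 2 1 1, BX N M a c w 0 d nu 0 th et,
      BX N' M' a' c' w' 0 d' nu' 0 th' et']) : False := by
  by_cases hw : w = 0
  · by_cases hw' : w' = 0
    · subst hw
      subst hw'
      by_cases ha : a = 0
      · by_cases ha' : a' = 0
        · subst ha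
          subst ha'
          exact T3321IAux.caseC1 hcl hT
        · exact T3321IAux.caseC2 hcl (T3321IAux.swap hT) ha'
      · exact T3321IAux.caseC2 hcl hT ha
    · exact T3321IAux.casew2 hcl hT (Or.inr hw')
  · exact T3321IAux.casew2 hcl hT (Or.inl hw)

end Pool.Agent.Lib.D9
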