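import Pool.Agent.Lib.D9.BlkMap
import Pool.Agent.Lib.D9.BlkShape
import Pool.Agent.Lib.D9.BlkRank
import Pool.Agent.Lib.D9.T3321I

/-!
# MP_5dcbc3_ag: 9 x 9 commuting nilpotent triples, type `(3, 3, 2, 1)`

`main`: a maximal bad triple with `b = b' = 0` has `pi = pi' = 0` (then `no_3321I` applies) or
`et = et' = 0`, `pi' = 0`, `a' = 0`, `th' = 0`. If `a = 0` the dual triple has `b = b' = 0` and
`pi = pi' = 0`; if `a <> 0` the entry `et` can be made nonzero in a family, which contradicts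
`pi et = 0`.
-/

namespace Pool.Agent.Lib.D9

open Matrix Pool.Agent.Lib.Q5dc Pool.Agent.Lib.D7

namespace T3321Aux

variable {k : Type*} [Field k]

theorem m11_eq_zero {x : Matrix (Fin 1) (Fin 1) k} (h : x 0 0 = 0) : x = 0 := by
  ext i j
  rw [Subsingleton.elim i 0, Subsingleton.elim j 0, h]
  rfl

/-- a product (column) (row of length one) vanishes iff one of the factors does -/
theorem col_row {n m : Type*} {x : Matrix n (Fin 1) k} {y : Matrix (Fin 1) m k}
    (h : x * y = 0) : x = 0 ∨ y = 0 := by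
  by_contra hc
  rw [not_or] at hc
  obtain ⟨h1, h2⟩ := hc
  apply h1
  ext i j
  by_contra hx
  apply h2
  ext i' j'
  have h3 := congrFun (congrFun h i) j'
  rw [Matrix.mul_apply] at h3
  simp only [Finset.univ_unique, Finset.sum_singleton, Matrix.zero_apply] at h3
  rw [Subsingleton.elim j default] at hx
  rw [Subsingleton.elim i' default]
  exact (mul_eq_zero.1 h3).resolve_left hx

theorem raise_data {a : Matrix (Fin 1) (Fin 2) k} (ha : a ≠ 0) (w : Matrix (Fin 1) (Fin 2) k)
    (N : Matrix (Fin 2) (Fin 2) k) :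
    ∃ (n : Matrix (Fin 2) (Fin 2) k) (δ τ : Matrix (Fin 2) (Fin 1) k),
      a * n = - w ∧ N * n + τ * w = n * N + δ * a := by
  by_cases hD : a 0 0 * w 0 1 - a 0 1 * w 0 0 = 0
  · have h1 : ∃ c : k, w = c • a := by
      by_cases h0 : a 0 0 = 0
      · have h2 : a 0 1 ≠ 0 := by
          intro h2
          apply ha
          ext i j
          rw [Subsingleton.elim i 0]
          fin_cases j
          · exact h0
          · exact h2
        refine ⟨w 0 1 * (a 0 1)⁻¹, ?_⟩
        have h3 : w 0 0 = 0 := by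
          rw [h0, zero_mul, zero_sub, neg_eq_zero] at hD
          exact (mul_eq_zero.1 hD).resolve_left h2
        ext i j
        rw [Subsingleton.elim i 0]
        fin_cases j
        · simp [h0, h3]
        · simp [h2]
      · refine ⟨w 0 0 * (a 0 0)⁻¹, ?_⟩
        ext i j
        rw [Subsingleton.elim i 0]
        fin_cases j
        · simp [h0]
        · simp only [Fin.mk_one, Matrix.smul_apply, smul_eq_mul]
          field_simp
          linear_combination hD
    obtain ⟨c, rfl⟩ := h1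
    refine ⟨- (c • 1), 0, 0, ?_, ?_⟩
    · simp
    · simp
  · set D := a 0 0 * w 0 1 - a 0 1 * w 0 0 with hDd
    let W : Matrix (Fin 2) (Fin 1) k := fun i _ => if i = 0 then w 0 1 / D else - w 0 0 / D
    let V : Matrix (Fin 2) (Fin 1) k := fun i _ => if i = 0 then - a 0 1 / D else a 0 0 / D
    have h1 : W * a + V * w = 1 := by
      ext i j
      rw [Matrix.add_apply, Matrix.mul_apply, Matrix.mul_apply, Finset.univ_unique,
        Finset.sum_singleton, Finset.sum_singleton]
      fin_cases i <;> fin_cases j <;> simp [W, V]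
      · field_simp
        rw [hDd]
        ring
      · ring
      · ring
      · field_simp
        rw [hDd]
        ring
    have h2 : a * W = 1 := by
      ext i j
      rw [Subsingleton.elim i 0, Subsingleton.elim j 0, Matrix.mul_apply, Fin.sum_univ_two]
      simp [W]
      field_simp
      rw [hDd]
      ring
    refine ⟨- (W * w), (N * (- (W * w)) - (- (W * w)) * N) * W,
      - ((N * (- (W * w)) - (- (W * w)) * N) * V), ?_, ?_⟩
    · rw [Matrix.mul_neg, ← Matrix.mul_assoc, h2, Matrix.one_mul]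
    · generalize - (W * w) = n
      have h3 : (N * n - n * N) * (W * a + V * w) = N * n - n * N := by rw [h1, Matrix.mul_one]
      rw [Matrix.mul_add, ← Matrix.mul_assoc, ← Matrix.mul_assoc] at h3
      have h4 : N * n = n * N + ((N * n - n * N) * W * a + (N * n - n * N) * V * w) := by
        rw [h3]
        abel
      rw [Matrix.neg_mul]
      nth_rewrite 1 [h4]
      abel

section

variable [IsAlgClosed k] [CharZero k] {ρ : ℕ → ℕ}

/-- the case `a <> 0`: the entry `et` can be made nonzero -/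
theorem fin_a (h1 : ρ 1 ≤ 2 * 2 + 1)
    {N M N' M' : Matrix (Fin 2) (Fin 2) k} {a c w c' w' : Matrix (Fin 1) (Fin 2) k}
    {d d' th : Matrix (Fin 2) (Fin 1) k} {nu nu' pi : Matrix (Fin 1) (Fin 1) k}
    (hT : MaxR ρ ![JX k 2 1 1, BX N M a c w 0 d nu pi th 0,
      BX N' M' 0 c' w' 0 d' nu' 0 0 0]) (hpi : pi ≠ 0) (ha : a ≠ 0) : False := by
  obtain ⟨-, r2, r3, -, -, -, -⟩ := (BX_comm ..).1 (hT.cn.1 1 2)
  simp only [Matrix.mul_zero, Matrix.zero_mul, add_zero, zero_add] at r2 r3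
  obtain ⟨n, δ, τ, e1, e2⟩ := raise_data ha w' N
  have key : ∀ s : k, CN ![JX k 2 1 1,
      BX N M a c w 0 d nu pi th 0 + s • BX 0 0 0 0 0 0 0 0 0 τ 1,
      BX N' M' 0 c' w' 0 d' nu' 0 0 0 + s • BX n 0 0 0 0 0 δ 0 0 0 0] := by
    intro s
    rw [BX_smul, BX_smul, BX_add, BX_add]
    refine cnX _ _ _ _ _ _ _ _ _ _ _ _ _ _ _ _ _ _ _ _ _ _ ?_ ?_ ?_ ?_ ?_ ?_ ?_
    · simp
    · have e3 : s • (N * n) + s • (τ * w') = s • (n * N) + s • (δ * a) := by
        rw [← smul_add, e2, smul_add]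
      simp only [smul_zero, add_zero, Matrix.mul_zero, Matrix.zero_mul, Matrix.mul_add,
        Matrix.add_mul, Matrix.smul_mul, Matrix.mul_smul]
      calc N * N' + s • (N * n) + (th * w' + s • (τ * w'))
          = (N * N' + th * w') + (s • (N * n) + s • (τ * w')) := by abel
        _ = (N' * N + d' * a) + (s • (n * N) + s • (δ * a)) := by rw [r2, e3]
        _ = N' * N + s • (n * N) + (d' * a + s • (δ * a)) := by abel
    · simp [Matrix.mul_add, e1, r3]
    · simp
    · simp
    · simp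
    · simp
  obtain ⟨s, hs, h⟩ := D8.MaxR.line2 hT _ _ key (Set.finite_singleton 0)
  rw [BX_smul, BX_smul, BX_add, BX_add] at h
  have h2 := R2X h h1 (D8.mem0 _ _ _) (D8.mem1 _ _ _)
  simp only [smul_zero, add_zero, zero_add, Matrix.mul_smul, Matrix.mul_one] at h2
  rcases smul_eq_zero.1 h2 with h3 | h3
  · exact hs h3
  · exact hpi h3

theorem mainC (hcl : ∀ G : Fin 6 × Fin 3 → k, Cl (TG3 G)) (h1 : ρ 1 ≤ 2 * 2 + 1)
    {N M N' M' : Matrix (Fin 2) (Fin 2) k} {a c w a' c' w' : Matrix (Fin 1) (Fin 2) k}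
    {d d' th th' : Matrix (Fin 2) (Fin 1) k} {nu nu' pi pi' : Matrix (Fin 1) (Fin 1) k}
    (hT : MaxR ρ ![JX k 2 1 1, BX N M a c w 0 d nu pi th 0,
      BX N' M' a' c' w' 0 d' nu' pi' th' 0]) (hpi : pi ≠ 0) : False := by
  have hp0 : pi 0 0 ≠ 0 := fun h => hpi (m11_eq_zero h)
  obtain ⟨N'', M'', a'', c'', w'', d'', nu'', th'', h⟩ : ∃ (N'' M'' : Matrix (Fin 2) (Fin 2) k)
      (a'' c'' w'' : Matrix (Fin 1) (Fin 2) k) (d'' : Matrix (Fin 2) (Fin 1) k)
      (nu'' : Matrix (Fin 1) (Fin 1) k) (th'' : Matrix (Fin 2) (Fin 1) k),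
      MaxR ρ ![JX k 2 1 1, BX N M a c w 0 d nu pi th 0,
        BX N'' M'' a'' c'' w'' 0 d'' nu'' 0 th'' 0] := by
    have h := D8.MaxR.lin hT 1 0 (- (pi' 0 0 / pi 0 0)) 1 0 0 0 0 (by simp)
    rw [one_smul, one_smul, zero_smul, zero_smul, zero_smul, add_zero, add_zero, add_zero,
      add_zero, add_zero, BX_smul, BX_add] at h
    have h3 : - (pi' 0 0 / pi 0 0) • pi + pi' = 0 := by
      apply m11_eq_zero
      simp [hp0]
    rw [h3] at h
    simp only [smul_zero, add_zero] at h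
    exact ⟨_, _, _, _, _, _, _, _, h⟩
  obtain ⟨-, -, -, r4, r5, -, -⟩ := (BX_comm ..).1 (h.cn.1 1 2)
  simp only [Matrix.mul_zero, Matrix.zero_mul, add_zero, zero_add] at r4 r5
  have ha : a'' = 0 := (col_row r4).resolve_left hpi
  have hth : th'' = 0 := (col_row r5.symm).resolve_right hpi
  subst ha hth
  by_cases h0 : a = 0
  · subst h0
    have h4 := MaxR.dualX h
    simp only [Matrix.transpose_zero] at h4
    exact no_3321I hcl h4
  · exact fin_a h1 h hpi h0

theorem mainB (hcl : ∀ G : Fin 6 × Fin 3 → k, Cl (TG3 G)) (h1 : ρ 1 ≤ 2 * 2 + 1) (h2 : ρ 2 ≤ 2)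
    {N M N' M' : Matrix (Fin 2) (Fin 2) k} {a c w a' c' w' : Matrix (Fin 1) (Fin 2) k}
    {d d' th th' : Matrix (Fin 2) (Fin 1) k} {nu nu' pi pi' et et' : Matrix (Fin 1) (Fin 1) k}
    (hT : MaxR ρ ![JX k 2 1 1, BX N M a c w 0 d nu pi th et,
      BX N' M' a' c' w' 0 d' nu' pi' th' et']) : False := by
  have m0 := D8.mem0 (JX k 2 1 1) (BX N M a c w 0 d nu pi th et)
    (BX N' M' a' c' w' 0 d' nu' pi' th' et')
  have m1 := D8.mem1 (JX k 2 1 1) (BX N M a c w 0 d nu pi th et)
    (BX N' M' a' c' w' 0 d' nu' pi' th' et')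
  have m2 := D8.mem2 (JX k 2 1 1) (BX N M a c w 0 d nu pi th et)
    (BX N' M' a' c' w' 0 d' nu' pi' th' et')
  have e1 := R1X hT h2 m0 m1
  have e2 := R1X hT h2 m0 m2
  have m3 := add_mem m1 m2
  rw [BX_add] at m3
  have e3 := R1X hT h2 m0 m3
  obtain ⟨-, -, -, -, -, r6, -⟩ := (BX_comm ..).1 (hT.cn.1 1 2)
  simp only [Matrix.mul_zero, add_zero, zero_add, smul_zero, Matrix.mul_add,
    Matrix.add_mul] at e1 e2 e3 r6
  rw [e1, e2, r6, zero_add, add_zero, ← two_smul k] at e3
  have e6 : et' * pi = 0 := (smul_eq_zero.1 e3).resolve_left two_ne_zero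
  have e5 : et * pi' = 0 := r6.trans e6
  by_cases hp : pi = 0
  · by_cases hp' : pi' = 0
    · subst hp hp'
      exact no_3321I hcl hT
    · have h3 : et = 0 := (col_row e5).resolve_right hp'
      have h4 : et' = 0 := (col_row e2).resolve_right hp'
      subst h3 h4
      exact mainC hcl h1 (D8.MaxR.swap hT) hp'
  · have h3 : et = 0 := (col_row e1).resolve_right hp
    have h4 : et' = 0 := (col_row e6).resolve_right hp
    subst h3 h4
    exact mainC hcl h1 hT hp

end

end T3321Aux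

open T3321Aux

theorem no_3321 {k : Type*} [Field k] [IsAlgClosed k] [CharZero k] {ρ : ℕ → ℕ}
    (hcl : ∀ G : Fin 6 × Fin 3 → k, Cl (TG3 G))
    {T : Fin 3 → Matrix (Fin 9) (Fin 9) k} (hT : MaxR ρ T)
    (hρ : ∀ i, ρ i = (J3321 k ^ i).rank) (h0 : T 0 = J3321 k) : False := by
  obtain ⟨hρ', T', hT', h0'⟩ := toX3321 hT hρ h0
  have h1 : ρ 1 ≤ 2 * 2 + 1 := by
    rw [hρ', pow_one]
    exact JX_rank
  have h2 : ρ 2 ≤ 2 := by
    rw [hρ']
    exact JX_rank_sq
  have h3 : ρ 3 = 0 := by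
    rw [hρ', JX_cube, Matrix.rank_zero]
  obtain ⟨N, M, a, c, w, b, d, nu, pi, th, et, N', M', a', c', w', b', d', nu', pi', th', et',
    h⟩ := shapeX hT' hρ' h0'
  have m0 := D8.mem0 (JX k 2 1 1) (BX N M a c w b d nu pi th et)
    (BX N' M' a' c' w' b' d' nu' pi' th' et')
  have m1 := D8.mem1 (JX k 2 1 1) (BX N M a c w b d nu pi th et)
    (BX N' M' a' c' w' b' d' nu' pi' th' et')
  have m2 := D8.mem2 (JX k 2 1 1) (BX N M a c w b d nu pi th et)
    (BX N' M' a' c' w' b' d' nu' pi' th' et')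
  have e11 := ba0X h h3 m0 m1 m1
  have e12 := ba0X h h3 m0 m1 m2
  have e21 := ba0X h h3 m0 m2 m1
  have e22 := ba0X h h3 m0 m2 m2
  have hd := MaxR.dualX h
  by_cases hb : b = 0
  · by_cases hb' : b' = 0
    · subst hb hb'
      exact mainB hcl h1 h2 h
    · have g1 : a = 0 := (col_row e21).resolve_left hb'
      have g2 : a' = 0 := (col_row e22).resolve_left hb'
      subst g1 g2
      simp only [Matrix.transpose_zero] at hd
      exact mainB hcl h1 h2 hd
  · have g1 : a = 0 := (col_row e11).resolve_left hb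
    have g2 : a' = 0 := (col_row e12).resolve_left hb
    subst g1 g2
    simp only [Matrix.transpose_zero] at hd
    exact mainB hcl h1 h2 hd

end Pool.Agent.Lib.D9
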