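import Pool.Agent.Lib.D9.FamsB
import Pool.Agent.Lib.D7.Api
import Pool.Agent.Lib.D8.Degen
import Pool.Agent.Lib.Q5dc.Tan

/-!
# MP_5dcbc3_ag: a criterion for all triples `T1X q c r g` to be limits of curvilinear triples

`V = k[t] / t ^ (n + 1)`, `mu a` is the multiplication by `∑ a_m t^m`. For a matrix `N` whose row and
column `0` vanish, `M_i(s) = adj(1 + s N) * mu ((1 + s N) e_i) * (1 + s N)` is (up to a scalar) a
curvilinear triple; its graded part is `T1X q c r(s) g(s)`, a polynomial curve whose first-order term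
is explicit in `N`.
-/

namespace Pool.Agent.Lib.D9

open Matrix Pool.Agent.Lib.Q5dc Pool.Agent.Lib.D7

variable {k : Type*} [Field k]

namespace DensX

/-! ### multiplication matrices -/

section Mu

variable {n : ℕ}

/-- the shift -/
def Sh (k : Type*) [Field k] (n : ℕ) : Matrix (Fin (n + 1)) (Fin (n + 1)) k :=
  Matrix.of fun i j => if (i : ℕ) = (j : ℕ) + 1 then 1 else 0

theorem Sh_pow (m : ℕ) : Sh k n ^ m =
    Matrix.of fun (i j : Fin (n + 1)) => if (i : ℕ) = (j : ℕ) + m then (1 : k) else 0 := by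
  induction m with
  | zero =>
    ext i j
    rw [pow_zero, Matrix.one_apply, Matrix.of_apply]
    simp [Fin.ext_iff]
  | succ m ih =>
    ext i j
    rw [pow_succ', ih, Matrix.mul_apply, Matrix.of_apply]
    by_cases h : (i : ℕ) = (j : ℕ) + (m + 1)
    · have hi := i.2
      rw [if_pos h, Finset.sum_eq_single (⟨(j : ℕ) + m, by omega⟩ : Fin (n + 1))]
      · have e1 : Sh k n i ⟨(j : ℕ) + m, by omega⟩ = 1 := by
          rw [Sh, Matrix.of_apply, if_pos (by simp only; omega)]
        rw [e1, one_mul, Matrix.of_apply, if_pos rfl]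
      · intro b _ hb
        by_cases h1 : (i : ℕ) = (b : ℕ) + 1
        · rw [Matrix.of_apply, if_neg (fun h2 => hb (Fin.ext (by simp only; omega))), mul_zero]
        · rw [Sh, Matrix.of_apply, if_neg h1, zero_mul]
      · simp
    · rw [if_neg h]
      refine Finset.sum_eq_zero fun b _ => ?_
      by_cases h1 : (i : ℕ) = (b : ℕ) + 1
      · rw [Matrix.of_apply, if_neg (fun h2 => h (by omega)), mul_zero]
      · rw [Sh, Matrix.of_apply, if_neg h1, zero_mul]

/-- multiplication by `∑ a_m t^m` -/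
def mu (a : Fin (n + 1) → k) : Matrix (Fin (n + 1)) (Fin (n + 1)) k :=
  ∑ m, a m • Sh k n ^ (m : ℕ)

theorem mu_apply (a : Fin (n + 1) → k) (i j : Fin (n + 1)) :
    mu a i j = if (j : ℕ) ≤ i then a ⟨(i : ℕ) - j, by omega⟩ else 0 := by
  rw [mu, Matrix.sum_apply]
  simp only [Matrix.smul_apply, Sh_pow, Matrix.of_apply, smul_eq_mul, mul_ite, mul_one, mul_zero]
  by_cases h : (j : ℕ) ≤ i
  · have hi := i.2
    rw [if_pos h, Finset.sum_eq_single (⟨(i : ℕ) - j, by omega⟩ : Fin (n + 1))]
    · rw [if_pos (by simp only; omega)]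
    · intro b _ hb
      rw [if_neg (fun h2 => hb (Fin.ext (by simp only; omega)))]
    · simp
  · rw [if_neg h]
    refine Finset.sum_eq_zero fun b _ => ?_
    rw [if_neg (fun h2 => h (by omega))]

theorem mu_comm (a b : Fin (n + 1) → k) : mu a * mu b = mu b * mu a := by
  have h1 : ∀ m : Fin (n + 1), Commute (mu a) (b m • Sh k n ^ (m : ℕ)) := by
    intro m
    refine Commute.smul_right ?_ _
    rw [mu]
    refine Commute.sum_left _ _ _ fun m' _ => ?_
    refine Commute.smul_left ?_ _
    exact (Commute.refl (Sh k n)).pow_pow _ _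
  exact Commute.sum_right _ _ _ fun m _ => h1 m

theorem mu_col (a : Fin (n + 1) → k) (i : Fin (n + 1)) : mu a i 0 = a i := by
  rw [mu_apply, if_pos (by simp)]
  congr 1

theorem curv_mu (a : Fin 3 → Fin (n + 1) → k) (h : ∀ i, a i 0 = 0) : Curv fun i => mu (a i) := by
  refine ⟨Sh k n, ?_, ?_, fun i => ⟨∑ m : Fin (n + 1), Polynomial.C (a i m) *
    Polynomial.X ^ (m : ℕ), ?_, ?_⟩⟩
  · rw [Fintype.card_fin, Sh_pow]
    ext x y
    have hx := x.2
    rw [Matrix.of_apply, if_neg (by omega), Matrix.zero_apply]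
  · rw [Fintype.card_fin, Nat.add_sub_cancel, Sh_pow]
    intro h0
    have h1 := congrFun (congrFun h0 (Fin.last n)) 0
    simp at h1
  · rw [Polynomial.finsetSum_coeff]
    refine Finset.sum_eq_zero fun m _ => ?_
    rw [Polynomial.coeff_C_mul, Polynomial.coeff_X_pow]
    by_cases hm : (0 : ℕ) = (m : ℕ)
    · have : m = 0 := Fin.ext hm.symm
      rw [this, h, zero_mul]
    · rw [if_neg hm, mul_zero]
  · change mu (a i) = _
    rw [map_sum, mu]
    refine Finset.sum_congr rfl fun m _ => ?_
    rw [map_mul, Polynomial.aeval_C, map_pow, Polynomial.aeval_X, ← Algebra.smul_def]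

end Mu

/-! ### degeneration -/

/-- the graded part of a triple -/
theorem cl_grad [Infinite k] {ι : Type*} [Fintype ι] [DecidableEq ι] {M : Fin 3 → Matrix ι ι k}
    (hM : Cl M) (w : ι → ℕ) (hw : ∀ i a b, M i a b ≠ 0 → w a ≤ 1 + w b) :
    Cl fun i => Matrix.of fun a b => if w a = 1 + w b then M i a b else 0 := by
  by_contra h0
  set c : k → Fin 3 → Matrix ι ι k := fun s i => Matrix.of fun a b =>
    M i a b * s ^ (1 + w b - w a) with hc
  have hp : PolyFam c := by
    intro i x y
    exact ⟨Polynomial.C (M i x y) * Polynomial.X ^ (1 + w y - w x), fun s => by simp [hc]⟩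
  have h1 : c 0 = fun i => Matrix.of fun a b => if w a = 1 + w b then M i a b else 0 := by
    funext i
    ext a b
    simp only [hc, Matrix.of_apply]
    by_cases h : w a = 1 + w b
    · rw [if_pos h, h, Nat.sub_self, pow_zero, mul_one]
    · rw [if_neg h]
      by_cases h2 : M i a b = 0
      · rw [h2, zero_mul]
      · have h3 := hw i a b h2
        rw [zero_pow (by omega), mul_zero]
  have h2 := finite_cl c hp (by rwa [h1])
  refine (Set.finite_singleton (0 : k)).infinite_compl (h2.subset ?_)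
  intro s hs
  have hs0 : s ≠ 0 := hs
  have h3 : Cl fun i => (Matrix.diagonal fun a => (s ^ w a)⁻¹) * (s • M i) *
      (Matrix.diagonal fun a => s ^ w a) := by
    refine Cl.conj _ _ ?_ ?_ (D8.cl_smul3 hM fun _ => s)
    · rw [Matrix.diagonal_mul_diagonal, ← Matrix.diagonal_one]
      congr 1
      funext a
      exact inv_mul_cancel₀ (pow_ne_zero _ hs0)
    · rw [Matrix.diagonal_mul_diagonal, ← Matrix.diagonal_one]
      congr 1
      funext a
      exact mul_inv_cancel₀ (pow_ne_zero _ hs0)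
  have h4 : (fun i => (Matrix.diagonal fun a => (s ^ w a)⁻¹) * (s • M i) *
      (Matrix.diagonal fun a => s ^ w a)) = c s := by
    funext i
    ext a b
    rw [Matrix.mul_diagonal, Matrix.diagonal_mul, Matrix.smul_apply, smul_eq_mul]
    simp only [hc, Matrix.of_apply]
    by_cases h2 : M i a b = 0
    · rw [h2]; ring
    · have h3 := hw i a b h2
      have h5 : s ^ (1 + w b) = s ^ (1 + w b - w a) * s ^ w a := by
        rw [← pow_add, Nat.sub_add_cancel h3]
      rw [inv_mul_eq_div, div_mul_eq_mul_div, div_eq_iff (pow_ne_zero _ hs0), mul_assoc (M i a b),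
        ← h5, pow_add, pow_one]
      ring
  rw [h4] at h3
  exact h3

/-! ### jets -/

/-- `f s = a + b s + O(s ^ 2)` -/
def J (f : k → k) (a b : k) : Prop :=
  ∃ w : Polynomial k, ∀ s, f s = a + s * b + s ^ 2 * w.eval s

theorem J.line (a b : k) : J (fun s => a + s * b) a b := ⟨0, fun s => by simp⟩

theorem J.const (a : k) : J (fun _ => a) a 0 := ⟨0, fun s => by simp⟩

theorem J.add {f g : k → k} {a b a' b' : k} (hf : J f a b) (hg : J g a' b') :
    J (fun s => f s + g s) (a + a') (b + b') := by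
  obtain ⟨w, hw⟩ := hf
  obtain ⟨w', hw'⟩ := hg
  exact ⟨w + w', fun s => by dsimp only; rw [hw, hw', Polynomial.eval_add]; ring⟩

theorem J.mul {f g : k → k} {a b a' b' : k} (hf : J f a b) (hg : J g a' b') :
    J (fun s => f s * g s) (a * a') (a * b' + b * a') := by
  obtain ⟨w, hw⟩ := hf
  obtain ⟨w', hw'⟩ := hg
  refine ⟨Polynomial.C (b * b') + (Polynomial.C a + Polynomial.X * Polynomial.C b) * w' +
    (Polynomial.C a' + Polynomial.X * Polynomial.C b') * w + Polynomial.X ^ 2 * w * w',
    fun s => ?_⟩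
  dsimp only
  rw [hw, hw']
  simp only [Polynomial.eval_add, Polynomial.eval_mul, Polynomial.eval_C, Polynomial.eval_X,
    Polynomial.eval_pow]
  ring

theorem J.congr {f : k → k} {a b a' b' : k} (hf : J f a b) (ha : a = a') (hb : b = b') :
    J f a' b' := by
  subst ha hb
  exact hf

theorem J.congr' {f g : k → k} {a b a' b' : k} (hf : J f a b) (h : ∀ s, g s = f s) (ha : a = a')
    (hb : b = b') : J g a' b' := by
  subst ha hb
  have h1 : g = f := funext h
  rwa [h1]

theorem J.poly (p : Polynomial k) : J (fun s => p.eval s) (p.coeff 0) (p.coeff 1) := by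
  refine ⟨p.divX.divX, fun s => ?_⟩
  dsimp only
  conv_lhs => rw [← Polynomial.divX_mul_X_add p, ← Polynomial.divX_mul_X_add p.divX]
  simp only [Polynomial.eval_add, Polynomial.eval_mul, Polynomial.eval_C, Polynomial.eval_X,
    Polynomial.coeff_divX]
  ring

theorem J.sum {ι : Type*} (S : Finset ι) {f : ι → k → k} {a b : ι → k}
    (h : ∀ x, J (f x) (a x) (b x)) : J (fun s => ∑ x ∈ S, f x s) (∑ x ∈ S, a x) (∑ x ∈ S, b x) := by
  classical
  induction S using Finset.induction_on with
  | empty => exact (J.const 0).congr' (fun s => by simp) (by simp) (by simp)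
  | insert x S hx ih =>
    exact ((h x).add ih).congr' (fun s => Finset.sum_insert hx) (Finset.sum_insert hx).symm
      (Finset.sum_insert hx).symm

section JM

variable {ι : Type*} [Fintype ι] [DecidableEq ι]

/-- jets of matrices -/
def JM (F : k → Matrix ι ι k) (A B : Matrix ι ι k) : Prop :=
  ∀ x y, J (fun s => F s x y) (A x y) (B x y)

omit [Fintype ι] [DecidableEq ι] in
theorem JM.congr {F : k → Matrix ι ι k} {A B A' B' : Matrix ι ι k}
    (hF : JM F A B) (hA : A = A') (hB : B = B') : JM F A' B' := by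
  subst hA hB
  exact hF

omit [Fintype ι] [DecidableEq ι] in
theorem JM.line (A B : Matrix ι ι k) : JM (fun s => A + s • B) A B := by
  intro x y
  exact J.line (A x y) (B x y)

omit [DecidableEq ι] in
theorem JM.mul {F G : k → Matrix ι ι k} {A B A' B' : Matrix ι ι k}
    (hF : JM F A B) (hG : JM G A' B') : JM (fun s => F s * G s) (A * A') (A * B' + B * A') := by
  intro x y
  refine (J.sum Finset.univ fun z => (hF x z).mul (hG z y)).congr' (fun s => Matrix.mul_apply) ?_ ?_
  · rw [Matrix.mul_apply]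
  · rw [Matrix.add_apply, Matrix.mul_apply, Matrix.mul_apply, ← Finset.sum_add_distrib]

theorem JM.adj (N : Matrix ι ι k) :
    JM (fun s => adjugate (1 + s • N)) 1 (N.trace • (1 : Matrix ι ι k) - N) := by
  set Φ : Matrix ι ι (Polynomial k) := 1 + (Polynomial.X : Polynomial k) • N.map Polynomial.C
    with hΦ
  have hev : ∀ s : k, (Polynomial.evalRingHom s).mapMatrix Φ = 1 + s • N := by
    intro s
    ext x y
    simp only [hΦ, RingHom.mapMatrix_apply, Matrix.map_apply, Matrix.add_apply, Matrix.smul_apply,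
      smul_eq_mul, Polynomial.coe_evalRingHom, Polynomial.eval_add, Polynomial.eval_mul,
      Polynomial.eval_X, Polynomial.eval_C]
    congr 1
    rw [Matrix.one_apply, Matrix.one_apply]
    split_ifs <;> simp
  have hadj : ∀ (s : k) (x y : ι), adjugate (1 + s • N) x y = (adjugate Φ x y).eval s := by
    intro s x y
    rw [← hev s, ← RingHom.map_adjugate]
    rfl
  have h0 : ∀ x y : ι, (adjugate Φ x y).coeff 0 = (1 : Matrix ι ι k) x y := by
    intro x y
    rw [Polynomial.coeff_zero_eq_eval_zero, ← hadj, zero_smul, add_zero, Matrix.adjugate_one]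
  have h1 : ∀ x y : ι, (adjugate Φ x y).coeff 1 =
      (N.trace • (1 : Matrix ι ι k) - N) x y := by
    intro x y
    have h2 := congrFun (congrFun (Matrix.adjugate_mul Φ) x) y
    have h3 : (adjugate Φ * Φ) x y = adjugate Φ x y +
        (∑ z, adjugate Φ x z * Polynomial.C (N z y)) * Polynomial.X := by
      rw [hΦ, Matrix.mul_add, Matrix.mul_one, Matrix.mul_smul, Matrix.add_apply, Matrix.smul_apply,
        Matrix.mul_apply, smul_eq_mul, mul_comm Polynomial.X]
      rfl
    rw [h3] at h2
    have h4 := congrArg (fun p => Polynomial.coeff p 1) h2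
    simp only [Polynomial.coeff_add] at h4
    rw [show (1 : ℕ) = 0 + 1 from rfl, Polynomial.coeff_mul_X, Polynomial.finsetSum_coeff] at h4
    simp only [Polynomial.coeff_mul_C, h0] at h4
    have h5 : ∑ z, (1 : Matrix ι ι k) x z * N z y = N x y := by
      rw [← Matrix.mul_apply, Matrix.one_mul]
    have h6 : (Φ.det • (1 : Matrix ι ι (Polynomial k))) x y =
        Φ.det * Polynomial.C ((1 : Matrix ι ι k) x y) := by
      rw [Matrix.smul_apply, smul_eq_mul, Matrix.one_apply, Matrix.one_apply]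
      split_ifs <;> simp
    rw [h5, h6, Polynomial.coeff_mul_C, zero_add, hΦ, Matrix.coeff_det_one_add_X_smul_one] at h4
    rw [Matrix.sub_apply, Matrix.smul_apply, smul_eq_mul, ← h4]
    ring
  intro x y
  exact (J.poly (adjugate Φ x y)).congr' (fun s => hadj s x y) (h0 x y) (h1 x y)

theorem isPoly_det (N : Matrix ι ι k) : D7.IsPoly fun s : k => (1 + s • N).det := by
  refine ⟨(1 + (Polynomial.X : Polynomial k) • N.map Polynomial.C).det, fun s => ?_⟩
  have hev : (Polynomial.evalRingHom s).mapMatrix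
      (1 + (Polynomial.X : Polynomial k) • N.map Polynomial.C) = 1 + s • N := by
    ext x y
    simp only [RingHom.mapMatrix_apply, Matrix.map_apply, Matrix.add_apply, Matrix.smul_apply,
      smul_eq_mul, Polynomial.coe_evalRingHom, Polynomial.eval_add, Polynomial.eval_mul,
      Polynomial.eval_X, Polynomial.eval_C]
    congr 1
    rw [Matrix.one_apply, Matrix.one_apply]
    split_ifs <;> simp
  dsimp only
  rw [← hev, ← RingHom.map_det]
  rfl

theorem finite_det (N : Matrix ι ι k) : {s : k | (1 + s • N).det = 0}.Finite := by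
  refine (isPoly_det N).finite (s₁ := 0) ?_
  simp

end JM

/-! ### the graded triple of a curvilinear triple -/

section Block

variable {n q c : ℕ}

/-- first index of a pair -/
def ri : Fin 6 → Fin 3 := ![0, 0, 0, 1, 1, 2]

/-- second index of a pair -/
def ci : Fin 6 → Fin 3 := ![0, 1, 2, 1, 2, 2]

/-- level of a basis vector -/
def lv : Fin 1 ⊕ ((Fin 3 ⊕ Fin q) ⊕ Fin c) → ℕ
  | .inl _ => 0
  | .inr (.inl _) => 1
  | .inr (.inr _) => 2

variable (ex : Fin 1 ⊕ ((Fin 3 ⊕ Fin q) ⊕ Fin c) ≃ Fin (n + 1))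

/-- exponent of `e_j` -/
def Pe (j : Fin 3) : Fin (n + 1) := ex (.inr (.inl (.inl j)))

/-- exponent of `q_l` -/
def Pq (l : Fin q) : Fin (n + 1) := ex (.inr (.inl (.inr l)))

/-- exponent of `f_m` -/
def Pf (m : Fin c) : Fin (n + 1) := ex (.inr (.inr m))

theorem cl_block [Infinite k] (h0 : ex (.inl 0) = 0)
    {M : Fin 3 → Matrix (Fin (n + 1)) (Fin (n + 1)) k} (hM : Cl M) {δ : k} (hδ : δ ≠ 0)
    (hcol : ∀ i x, M i x 0 = if x = Pe ex i then δ else 0)
    (hsym : ∀ i j x, M i x (Pe ex j) = M j x (Pe ex i)) :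
    Cl (T1X q c (fun z => M (ri z.1) (Pf ex z.2) (Pe ex (ci z.1)))
      (fun z => M z.1 (Pf ex z.2.2) (Pq ex z.2.1))) := by
  have h1 : Cl fun i => (Matrix.reindexAlgEquiv k k ex.symm) (M i) :=
    Cl.mapEquiv _ (Fintype.card_congr ex.symm) hM
  have hent : ∀ i x y, (Matrix.reindexAlgEquiv k k ex.symm) (M i) x y = M i (ex x) (ex y) := by
    intro i x y
    rfl
  have hl : ∀ y : Fin 1, ex (.inl y) = 0 := by
    intro y
    rw [Subsingleton.elim y 0, h0]
  have h2 := cl_grad h1 lv (by
    intro i x y hne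
    rw [hent] at hne
    rcases y with y | (y | y)
    · rcases x with x | (x | x)
      · simp [lv]
      · simp [lv]
      · exfalso
        apply hne
        rw [hl, hcol, if_neg]
        intro h
        have h3 := ex.injective h
        simp at h3
    · rcases x with x | (x | x) <;> simp [lv]
    · rcases x with x | (x | x) <;> simp [lv])
  set d : Fin 1 ⊕ ((Fin 3 ⊕ Fin q) ⊕ Fin c) → k := fun x => match x with
    | .inl _ => δ
    | .inr _ => 1 with hd
  have hd0 : ∀ x, d x ≠ 0 := by
    intro x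
    rcases x with x | x
    · exact hδ
    · exact one_ne_zero
  have h3 := Cl.conj (Matrix.diagonal d) (Matrix.diagonal fun x => (d x)⁻¹) (by
    rw [Matrix.diagonal_mul_diagonal, ← Matrix.diagonal_one]
    congr 1
    funext a
    exact mul_inv_cancel₀ (hd0 a)) (by
    rw [Matrix.diagonal_mul_diagonal, ← Matrix.diagonal_one]
    congr 1
    funext a
    exact inv_mul_cancel₀ (hd0 a)) h2
  have h4 : (fun i => Matrix.diagonal d * (Matrix.of fun a b => if lv a = 1 + lv b then
      (Matrix.reindexAlgEquiv k k ex.symm) (M i) a b else 0) * Matrix.diagonal fun x => (d x)⁻¹) =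
      T1X q c (fun z => M (ri z.1) (Pf ex z.2) (Pe ex (ci z.1)))
      (fun z => M z.1 (Pf ex z.2.2) (Pq ex z.2.1)) := by
    funext i
    ext x y
    rw [Matrix.mul_diagonal, Matrix.diagonal_mul, Matrix.of_apply, hent]
    rcases x with x | ((x | x) | x) <;> rcases y with y | ((y | y) | y)
    · simp [lv, T1X]
    · simp [lv, T1X]
    · simp [lv, T1X]
    · simp [lv, T1X]
    · have e1 : (ex (.inr (.inl (.inl x))) = Pe ex i) ↔ x = i := by
        constructor
        · intro h
          have h3 := ex.injective h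
          simpa using h3
        · intro h
          rw [h]
          rfl
      simp only [lv, T1X, hl, hcol, Matrix.of_apply, hd, e1]
      by_cases h : x = i
      · simp [h, hδ]
      · simp [h]
    · simp [lv, T1X]
    · simp [lv, T1X]
    · simp [lv, T1X]
    · have e1 : ¬ (ex (.inr (.inl (.inr x))) = Pe ex i) := by
        intro h
        have h3 := ex.injective h
        simp at h3
      simp [lv, T1X, hl, hcol, e1]
    · simp [lv, T1X]
    · simp [lv, T1X]
    · simp [lv, T1X]
    · simp [lv, T1X]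
    · have e1 : M i (Pf ex x) (Pe ex y) = M (ri (ix i y)) (Pf ex x) (Pe ex (ci (ix i y))) := by
        fin_cases i <;> fin_cases y <;> first | rfl | exact hsym _ _ _
      simp only [lv, T1X, Matrix.of_apply, hd]
      rw [← e1]
      simp [Pf, Pe]
    · simp only [lv, T1X, Matrix.of_apply, hd]
      simp [Pf, Pq]
    · simp [lv, T1X]
  rw [← h4]
  exact h3

end Block

/-! ### the curves -/

section Curve

variable {n : ℕ} (N : Matrix (Fin (n + 1)) (Fin (n + 1)) k) (p : Fin 3 → Fin (n + 1))

/-- the triple with parameter `s` -/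
def Mc (s : k) (i : Fin 3) : Matrix (Fin (n + 1)) (Fin (n + 1)) k :=
  adjugate (1 + s • N) * mu (fun x => (1 + s • N) x (p i)) * (1 + s • N)

variable {N p}

theorem Mc_cl (hrow : ∀ x, N 0 x = 0) (hp : ∀ i, p i ≠ 0) {s : k} (hs : (1 + s • N).det ≠ 0) :
    Cl (Mc N p s) := by
  have h1 : Cl fun i => mu (fun x => (1 + s • N) x (p i)) := by
    refine Cl.of_curv (curv_mu _ fun i => ?_)
    rw [Matrix.add_apply, Matrix.smul_apply, hrow, smul_zero, add_zero,
      Matrix.one_apply_ne (hp i).symm]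
  have e1 : ((1 + s • N).det⁻¹ • adjugate (1 + s • N)) * (1 + s • N) = 1 := by
    rw [Matrix.smul_mul, Matrix.adjugate_mul, smul_smul, inv_mul_cancel₀ hs, one_smul]
  have h2 := D8.cl_smul3 (Cl.conj _ _ e1 (mul_eq_one_comm.1 e1) h1) fun _ => (1 + s • N).det
  have h3 : (fun i => (1 + s • N).det • (((1 + s • N).det⁻¹ • adjugate (1 + s • N)) *
      mu (fun x => (1 + s • N) x (p i)) * (1 + s • N))) = Mc N p s := by
    funext i
    rw [Matrix.smul_mul, Matrix.smul_mul, smul_smul, mul_inv_cancel₀ hs, one_smul, Mc]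
  rw [h3] at h2
  exact h2

theorem Mc_col (hcol : ∀ x, N x 0 = 0) (s : k) (i : Fin 3) (x : Fin (n + 1)) :
    Mc N p s i x 0 = if x = p i then (1 + s • N).det else 0 := by
  have h1 : ∀ (A : Matrix (Fin (n + 1)) (Fin (n + 1)) k), (A * (1 + s • N)) x 0 = A x 0 := by
    intro A
    rw [Matrix.mul_apply, Finset.sum_eq_single 0]
    · rw [Matrix.add_apply, Matrix.smul_apply, hcol, smul_zero, add_zero, Matrix.one_apply_eq,
        mul_one]
    · intro b _ hb
      rw [Matrix.add_apply, Matrix.smul_apply, hcol, smul_zero, add_zero, Matrix.one_apply_ne hb,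
        mul_zero]
    · simp
  rw [Mc, h1, Matrix.mul_apply]
  simp only [mu_col]
  rw [← Matrix.mul_apply, Matrix.adjugate_mul, Matrix.smul_apply, Matrix.one_apply, smul_eq_mul]
  simp

theorem Mc_comm (s : k) (i j : Fin 3) : Mc N p s i * Mc N p s j = Mc N p s j * Mc N p s i := by
  have h1 : ∀ i j : Fin 3, Mc N p s i * Mc N p s j = (1 + s • N).det •
      (adjugate (1 + s • N) * (mu (fun x => (1 + s • N) x (p i)) *
        mu (fun x => (1 + s • N) x (p j))) * (1 + s • N)) := by
    intro i j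
    have h2 : Mc N p s i * Mc N p s j = adjugate (1 + s • N) * mu (fun x => (1 + s • N) x (p i)) *
        ((1 + s • N) * adjugate (1 + s • N)) * mu (fun x => (1 + s • N) x (p j)) *
        (1 + s • N) := by
      simp only [Mc, Matrix.mul_assoc]
    rw [h2, Matrix.mul_adjugate, Matrix.mul_smul, Matrix.mul_one, Matrix.smul_mul, Matrix.smul_mul]
    simp only [Matrix.mul_assoc]
  rw [h1, h1, mu_comm]

theorem Mc_sym (hcol : ∀ x, N x 0 = 0) {s : k} (hs : (1 + s • N).det ≠ 0) (i j : Fin 3)
    (x : Fin (n + 1)) : Mc N p s i x (p j) = Mc N p s j x (p i) := by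
  have h1 : ∀ i j : Fin 3, (Mc N p s i * Mc N p s j) x 0 =
      Mc N p s i x (p j) * (1 + s • N).det := by
    intro i j
    rw [Matrix.mul_apply, Finset.sum_eq_single (p j)]
    · rw [Mc_col hcol, if_pos rfl]
    · intro b _ hb
      rw [Mc_col hcol, if_neg hb, mul_zero]
    · simp
  have h2 := h1 i j
  rw [Mc_comm, h1 j i] at h2
  exact (mul_right_cancel₀ hs h2).symm

/-- the derivative -/
def Dv (N : Matrix (Fin (n + 1)) (Fin (n + 1)) k) (p a c : Fin (n + 1)) : k :=
  -(if h : (a : ℕ) + p < n + 1 then N c ⟨(a : ℕ) + p, h⟩ else 0) +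
    (if (a : ℕ) ≤ c then N ⟨(c : ℕ) - a, by omega⟩ p else 0) +
    (if (p : ℕ) ≤ c then N ⟨(c : ℕ) - p, by omega⟩ a else 0)

theorem mu_single (p c a : Fin (n + 1)) :
    mu (fun x => (1 : Matrix (Fin (n + 1)) (Fin (n + 1)) k) x p) c a =
      if (c : ℕ) = (a : ℕ) + p then 1 else 0 := by
  rw [mu_apply]
  by_cases h : (a : ℕ) ≤ c
  · rw [if_pos h, Matrix.one_apply]
    by_cases h1 : (c : ℕ) = (a : ℕ) + p
    · rw [if_pos h1, if_pos (Fin.ext (by simp only; omega))]
    · rw [if_neg h1, if_neg]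
      intro h2
      have h3 := congrArg (fun x : Fin (n + 1) => (x : ℕ)) h2
      simp only at h3
      omega
  · rw [if_neg h, if_neg (by omega)]

theorem mu_line (a b : Fin (n + 1) → k) (s : k) :
    mu (fun x => a x + s * b x) = mu a + s • mu b := by
  simp only [mu, Finset.smul_sum, ← Finset.sum_add_distrib, smul_smul, add_smul]

theorem Mc_jet (htr : N.trace = 0) (i : Fin 3) (c a : Fin (n + 1)) :
    J (fun s => Mc N p s i c a) (if (c : ℕ) = (a : ℕ) + p i then 1 else 0) (Dv N (p i) a c) := by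
  have h1 : JM (fun s : k => mu (fun x => (1 + s • N) x (p i)))
      (mu (fun x => (1 : Matrix (Fin (n + 1)) (Fin (n + 1)) k) x (p i)))
      (mu (fun x => N x (p i))) := by
    have h2 : (fun s : k => mu (fun x => (1 + s • N) x (p i))) =
        fun s : k => mu (fun x => (1 : Matrix (Fin (n + 1)) (Fin (n + 1)) k) x (p i)) +
          s • mu (fun x => N x (p i)) := by
      funext s
      rw [← mu_line]
      rfl
    rw [h2]
    exact JM.line _ _
  have h3 := (((JM.adj N).mul h1).mul (JM.line 1 N)) c a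
  refine h3.congr ?_ ?_
  · rw [Matrix.one_mul, Matrix.mul_one, mu_single]
  · rw [htr, zero_smul, zero_sub, Matrix.one_mul, Matrix.one_mul, Matrix.mul_one,
      Matrix.neg_mul, Matrix.add_apply, Matrix.add_apply, Matrix.neg_apply]
    have e1 : (N * mu (fun x => (1 : Matrix (Fin (n + 1)) (Fin (n + 1)) k) x (p i))) c a =
        if h : (a : ℕ) + p i < n + 1 then N c ⟨(a : ℕ) + p i, h⟩ else 0 := by
      rw [Matrix.mul_apply]
      simp only [mu_single]
      by_cases h : (a : ℕ) + p i < n + 1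
      · rw [dif_pos h, Finset.sum_eq_single ⟨(a : ℕ) + p i, h⟩]
        · rw [if_pos rfl, mul_one]
        · intro b _ hb
          rw [if_neg (fun h2 => hb (Fin.ext h2)), mul_zero]
        · simp
      · rw [dif_neg h]
        refine Finset.sum_eq_zero fun b _ => ?_
        rw [if_neg (by omega), mul_zero]
    have e2 : (mu (fun x => (1 : Matrix (Fin (n + 1)) (Fin (n + 1)) k) x (p i)) * N) c a =
        if (p i : ℕ) ≤ c then N ⟨(c : ℕ) - p i, by omega⟩ a else 0 := by
      rw [Matrix.mul_apply]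
      simp only [mu_single]
      by_cases h : (p i : ℕ) ≤ c
      · rw [if_pos h, Finset.sum_eq_single ⟨(c : ℕ) - p i, by omega⟩]
        · rw [if_pos (by simp only; omega), one_mul]
        · intro b _ hb
          rw [if_neg (fun h2 => hb (Fin.ext (by simp only; omega))), zero_mul]
        · simp
      · rw [if_neg h]
        refine Finset.sum_eq_zero fun b _ => ?_
        rw [if_neg (by omega), zero_mul]
    rw [e1, e2, mu_apply, Dv]
    ring

end Curve

end DensX

open DensX MvPolynomial in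
/-- criterion: all triples `T1X q c r g` are limits of curvilinear triples -/
theorem cl_T1X_of_cert [CharZero k] {n q c : ℕ}
    (ex : Fin 1 ⊕ ((Fin 3 ⊕ Fin q) ⊕ Fin c) ≃ Fin (n + 1)) (h0 : ex (.inl 0) = 0)
    (N : ((Fin 6 × Fin c) ⊕ (Fin 3 × Fin q × Fin c) → k) →
      Matrix (Fin (n + 1)) (Fin (n + 1)) k)
    (hcol : ∀ v x, N v x 0 = 0) (hrow : ∀ v x, N v 0 x = 0) (htr : ∀ v, (N v).trace = 0)
    (hr : ∀ v a m, Dv (N v) (Pe ex (ri a)) (Pe ex (ci a)) (Pf ex m) = v (.inl (a, m)))
    (hg : ∀ v i l m, Dv (N v) (Pe ex i) (Pq ex l) (Pf ex m) = v (.inr (i, l, m)))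
    (r : Fin 6 × Fin c → k) (g : Fin 3 × Fin q × Fin c → k) : Cl (T1X q c r g) := by
  have hinf : Infinite k := inferInstance
  have hp0 : ∀ i, Pe ex i ≠ 0 := by
    intro i h
    rw [← h0] at h
    have h1 := ex.injective h
    simp at h1
  -- the base point
  set y0 : (Fin 6 × Fin c) ⊕ (Fin 3 × Fin q × Fin c) → k := fun z => match z with
    | .inl (a, m) => if (Pf ex m : ℕ) = (Pe ex (ci a) : ℕ) + Pe ex (ri a) then 1 else 0
    | .inr (i, l, m) => if (Pf ex m : ℕ) = (Pq ex l : ℕ) + Pe ex i then 1 else 0 with hy0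
  set S : Set ((Fin 6 × Fin c) ⊕ (Fin 3 × Fin q × Fin c) → k) :=
    {y | Cl (T1X q c (fun z => y (.inl z)) (fun z => y (.inr z)))} with hS
  have curve : ∀ v : (Fin 6 × Fin c) ⊕ (Fin 3 × Fin q × Fin c) → k,
      ∃ u : (Fin 6 × Fin c) ⊕ (Fin 3 × Fin q × Fin c) → Polynomial k,
      (∀ x, (u x).eval 0 = v x) ∧ {s : k | (fun x => y0 x + s * (u x).eval s) ∈ S}.Infinite := by
    intro v
    have hj : ∀ x : (Fin 6 × Fin c) ⊕ (Fin 3 × Fin q × Fin c), J (fun s => match x with
        | .inl (a, m) => Mc (N v) (Pe ex) s (ri a) (Pf ex m) (Pe ex (ci a))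
        | .inr (i, l, m) => Mc (N v) (Pe ex) s i (Pf ex m) (Pq ex l)) (y0 x) (v x) := by
      intro x
      rcases x with ⟨a, m⟩ | ⟨i, l, m⟩
      · exact (Mc_jet (htr v) (ri a) (Pf ex m) (Pe ex (ci a))).congr rfl (hr v a m)
      · exact (Mc_jet (htr v) i (Pf ex m) (Pq ex l)).congr rfl (hg v i l m)
    choose w hw using hj
    refine ⟨fun x => Polynomial.C (v x) + Polynomial.X * w x, fun x => by simp, ?_⟩
    refine (finite_det (N v)).infinite_compl.mono ?_
    intro s hs
    have hs' : (1 + s • N v).det ≠ 0 := hs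
    have h1 := cl_block ex h0 (Mc_cl (hrow v) hp0 hs') hs' (Mc_col (hcol v) s)
      (Mc_sym (hcol v) hs')
    have h2 : (fun x => y0 x + s * (Polynomial.C (v x) + Polynomial.X * w x).eval s) =
        fun x : (Fin 6 × Fin c) ⊕ (Fin 3 × Fin q × Fin c) => match x with
        | .inl (a, m) => Mc (N v) (Pe ex) s (ri a) (Pf ex m) (Pe ex (ci a))
        | .inr (i, l, m) => Mc (N v) (Pe ex) s i (Pf ex m) (Pq ex l) := by
      funext x
      refine Eq.trans ?_ (hw x s).symm
      simp only [Polynomial.eval_add, Polynomial.eval_mul, Polynomial.eval_C, Polynomial.eval_X]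
      ring
    have h3 : (fun x => y0 x + s * (Polynomial.C (v x) + Polynomial.X * w x).eval s) ∈ S := by
      rw [h2]
      exact h1
    exact h3
  -- coordinates of the triples are polynomials
  have hpol : ∀ z : Fin 3 × (Fin 1 ⊕ ((Fin 3 ⊕ Fin q) ⊕ Fin c)) ×
      (Fin 1 ⊕ ((Fin 3 ⊕ Fin q) ⊕ Fin c)),
      ∃ P : MvPolynomial ((Fin 6 × Fin c) ⊕ (Fin 3 × Fin q × Fin c)) k,
        ∀ y : (Fin 6 × Fin c) ⊕ (Fin 3 × Fin q × Fin c) → k,
          T1X q c (fun z => y (.inl z)) (fun z => y (.inr z)) z.1 z.2.1 z.2.2 = eval y P := by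
    rintro ⟨i, x, y⟩
    rcases x with x | ((x | x) | x) <;> rcases y with y | ((y | y) | y)
    · exact ⟨0, fun v => by simp [T1X]⟩
    · exact ⟨0, fun v => by simp [T1X]⟩
    · exact ⟨0, fun v => by simp [T1X]⟩
    · exact ⟨0, fun v => by simp [T1X]⟩
    · refine ⟨C (if x = i then 1 else 0), fun v => ?_⟩
      rw [eval_C]
      rfl
    · exact ⟨0, fun v => by simp [T1X]⟩
    · exact ⟨0, fun v => by simp [T1X]⟩
    · exact ⟨0, fun v => by simp [T1X]⟩
    · exact ⟨0, fun v => by simp [T1X]⟩
    · exact ⟨0, fun v => by simp [T1X]⟩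
    · exact ⟨0, fun v => by simp [T1X]⟩
    · exact ⟨0, fun v => by simp [T1X]⟩
    · exact ⟨0, fun v => by simp [T1X]⟩
    · refine ⟨X (.inl (ix i y, x)), fun v => ?_⟩
      rw [eval_X]
      rfl
    · refine ⟨X (.inr (i, y, x)), fun v => ?_⟩
      rw [eval_X]
      rfl
    · exact ⟨0, fun v => by simp [T1X]⟩
  choose P hP using hpol
  have main : ∀ y : (Fin 6 × Fin c) ⊕ (Fin 3 × Fin q × Fin c) → k, y ∈ S := by
    intro y F hF
    have hev : ∀ y : (Fin 6 × Fin c) ⊕ (Fin 3 × Fin q × Fin c) → k, eval y (aeval P F) =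
        eval (co (T1X q c (fun z => y (.inl z)) (fun z => y (.inr z)))) F := by
      intro y
      have h1 : ((aeval y : MvPolynomial ((Fin 6 × Fin c) ⊕ (Fin 3 × Fin q × Fin c)) k →ₐ[k]
          k).comp (aeval P)) =
          (aeval (co (T1X q c (fun z => y (.inl z)) (fun z => y (.inr z)))) :
            MvPolynomial (Fin 3 × (Fin 1 ⊕ ((Fin 3 ⊕ Fin q) ⊕ Fin c)) ×
      (Fin 1 ⊕ ((Fin 3 ⊕ Fin q) ⊕ Fin c))) k →ₐ[k] k) := by
        apply MvPolynomial.algHom_ext
        intro z
        simp only [AlgHom.comp_apply, aeval_X]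
        exact (hP z y).symm
      exact congrArg (fun f => f F) h1
    have h3 : aeval P F = 0 := by
      refine eq_zero_of_curves S y0 curve _ ?_
      intro y hy
      rw [hev]
      exact hy F hF
    rw [← hev, h3, map_zero]
  exact main (Sum.elim r g)

end Pool.Agent.Lib.D9
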