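import Pool.Agent.Lib.D9.Blk

/-!
Module R333 (1h). Type (3,3,3) (e = 3, u = p = 0): raise lemma; basis f_1, f_2, f_3 of E, f_i' = A f_i, f_i'' = A^2 f_i. X_1 = BX (E_11) M, X_2 = BX (E_22) M' with M = m23 E_23 + m32 E_32, M' as below, x13 = M' 0 2 <> 0.
(X_1 f1 = f1', X_1 f2 = m32 f3'', X_1 f3 = m23 f2''; X_2 f1 = x21 f2'' + x31 f3'', X_2 f2 = f2' + x12 f1'', X_2 f3 = x13 f1''.)
PROOF. K: f1 -> x31 f3, f1' -> x31 m23 f2'', f2 -> x13 m32 f1', f3'' -> x13 f1'', everything else -> 0. K commutes with X_1 and X_2 (check on the nine basis vectors). T_s = (A + s K, X_1, X_2) is CN for all s: A + s K is nilpotent: weights f2 : 0, f1 : 0, f1' : 1, f3 : 1, f2' : 1, f3' : 2, f3'' : 3, f1'' : 4, f2'' : 4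
(every nonzero entry of A + s K raises the weight). ((A + s K)^3) maps f3 to s x13 f1'' + ..: entry (f1'', f3) is s x13 (A + s K: f3 -> f3' -> f3'' -> s x13 f1''): MaxR.raise0 with i = 3, a = 1, b = c = 0.
-/

namespace Pool.Agent.Lib.D9

open Matrix Pool.Agent.Lib.Q5dc Pool.Agent.Lib.D7

namespace R333Aux

variable {k : Type*} [Field k]

/-- `K`: f1 -> x31 f3, f1' -> x31 m23 f2'', f2 -> x13 m32 f1', f3'' -> x13 f1'' -/
def KM (m23 m32 x13 x31 : k) : Matrix (Ix 3 0 0) (Ix 3 0 0) k :=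
  Matrix.of fun i j => match i, j with
    | .inl (.inl i), .inl (.inl j) => (!![0, 0, 0; 0, 0, 0; x31, 0, 0] : Matrix _ _ k) i j
    | .inl (.inr (.inr i)), .inl (.inr (.inl j)) =>
      (!![0, 0, 0; x31 * m23, 0, 0; 0, 0, 0] : Matrix _ _ k) i j
    | .inl (.inr (.inl i)), .inl (.inl j) =>
      (!![0, x13 * m32, 0; 0, 0, 0; 0, 0, 0] : Matrix _ _ k) i j
    | .inl (.inr (.inr i)), .inl (.inr (.inr j)) =>
      (!![0, 0, x13; 0, 0, 0; 0, 0, 0] : Matrix _ _ k) i j
    | _, _ => 0

theorem KM_comm1 (m23 m32 x13 x31 : k) :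
    KM m23 m32 x13 x31 *
        BX !![1, 0, 0; 0, 0, 0; 0, 0, 0] !![0, 0, 0; 0, 0, m23; 0, m32, 0] 0 0 0 0 0 0 0 0 0 =
      BX !![1, 0, 0; 0, 0, 0; 0, 0, 0] !![0, 0, 0; 0, 0, m23; 0, m32, 0] 0 0 0 0 0 0 0 0 0 *
        KM m23 m32 x13 x31 := by
  ext i j
  rcases i with (i | i | i) | ((i | i) | i)
  · rcases j with (j | j | j) | ((j | j) | j)
    · fin_cases i <;> fin_cases j <;>
        simp [KM, BX, Matrix.mul_apply, Fintype.sum_sum_type, Fin.sum_univ_three]
    · fin_cases i <;> fin_cases j <;>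
        simp [KM, BX, Matrix.mul_apply, Fintype.sum_sum_type, Fin.sum_univ_three]
    · fin_cases i <;> fin_cases j <;>
        simp [KM, BX, Matrix.mul_apply, Fintype.sum_sum_type, Fin.sum_univ_three]
    · exact j.elim0
    · exact j.elim0
    · exact j.elim0
  · rcases j with (j | j | j) | ((j | j) | j)
    · fin_cases i <;> fin_cases j <;>
        simp [KM, BX, Matrix.mul_apply, Fintype.sum_sum_type, Fin.sum_univ_three]
    · fin_cases i <;> fin_cases j <;>
        simp [KM, BX, Matrix.mul_apply, Fintype.sum_sum_type, Fin.sum_univ_three]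
    · fin_cases i <;> fin_cases j <;>
        simp [KM, BX, Matrix.mul_apply, Fintype.sum_sum_type, Fin.sum_univ_three]
    · exact j.elim0
    · exact j.elim0
    · exact j.elim0
  · rcases j with (j | j | j) | ((j | j) | j)
    · fin_cases i <;> fin_cases j <;>
        simp [KM, BX, Matrix.mul_apply, Fintype.sum_sum_type, Fin.sum_univ_three] <;> ring
    · fin_cases i <;> fin_cases j <;>
        simp [KM, BX, Matrix.mul_apply, Fintype.sum_sum_type, Fin.sum_univ_three]
    · fin_cases i <;> fin_cases j <;>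
        simp [KM, BX, Matrix.mul_apply, Fintype.sum_sum_type, Fin.sum_univ_three]
    · exact j.elim0
    · exact j.elim0
    · exact j.elim0
  · exact i.elim0
  · exact i.elim0
  · exact i.elim0

theorem KM_comm2 (m23 m32 x12 x13 x21 x31 : k) :
    KM m23 m32 x13 x31 *
        BX !![0, 0, 0; 0, 1, 0; 0, 0, 0] !![0, x12, x13; x21, 0, 0; x31, 0, 0] 0 0 0 0 0 0 0 0 0 =
      BX !![0, 0, 0; 0, 1, 0; 0, 0, 0] !![0, x12, x13; x21, 0, 0; x31, 0, 0] 0 0 0 0 0 0 0 0 0 *
        KM m23 m32 x13 x31 := by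
  ext i j
  rcases i with (i | i | i) | ((i | i) | i)
  · rcases j with (j | j | j) | ((j | j) | j)
    · fin_cases i <;> fin_cases j <;>
        simp [KM, BX, Matrix.mul_apply, Fintype.sum_sum_type, Fin.sum_univ_three]
    · fin_cases i <;> fin_cases j <;>
        simp [KM, BX, Matrix.mul_apply, Fintype.sum_sum_type, Fin.sum_univ_three]
    · fin_cases i <;> fin_cases j <;>
        simp [KM, BX, Matrix.mul_apply, Fintype.sum_sum_type, Fin.sum_univ_three]
    · exact j.elim0
    · exact j.elim0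
    · exact j.elim0
  · rcases j with (j | j | j) | ((j | j) | j)
    · fin_cases i <;> fin_cases j <;>
        simp [KM, BX, Matrix.mul_apply, Fintype.sum_sum_type, Fin.sum_univ_three]
    · fin_cases i <;> fin_cases j <;>
        simp [KM, BX, Matrix.mul_apply, Fintype.sum_sum_type, Fin.sum_univ_three]
    · fin_cases i <;> fin_cases j <;>
        simp [KM, BX, Matrix.mul_apply, Fintype.sum_sum_type, Fin.sum_univ_three]
    · exact j.elim0
    · exact j.elim0
    · exact j.elim0
  · rcases j with (j | j | j) | ((j | j) | j)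
    · fin_cases i <;> fin_cases j <;>
        simp [KM, BX, Matrix.mul_apply, Fintype.sum_sum_type, Fin.sum_univ_three]
    · fin_cases i <;> fin_cases j <;>
        simp [KM, BX, Matrix.mul_apply, Fintype.sum_sum_type, Fin.sum_univ_three]
    · fin_cases i <;> fin_cases j <;>
        simp [KM, BX, Matrix.mul_apply, Fintype.sum_sum_type, Fin.sum_univ_three]
    · exact j.elim0
    · exact j.elim0
    · exact j.elim0
  · exact i.elim0
  · exact i.elim0
  · exact i.elim0

/-- weights of the basis vectors -/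
def wt : Ix 3 0 0 → ℕ
  | .inl (.inl i) => ![0, 0, 1] i
  | .inl (.inr (.inl i)) => ![1, 1, 2] i
  | .inl (.inr (.inr i)) => ![4, 4, 3] i
  | .inr _ => 0

theorem nilp (m23 m32 x13 x31 s : k) : IsNilpotent (JX k 3 0 0 + s • KM m23 m32 x13 x31) := by
  refine isNilpotent_of_weight _ wt ?_
  intro i j h
  rcases i with (i | i | i) | ((i | i) | i)
  · rcases j with (j | j | j) | ((j | j) | j)
    · fin_cases i <;> fin_cases j <;> simp [KM, JX, BX, wt] at h ⊢
    · fin_cases i <;> fin_cases j <;> simp [KM, JX, BX, wt] at h ⊢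
    · fin_cases i <;> fin_cases j <;> simp [KM, JX, BX, wt] at h ⊢
    · exact j.elim0
    · exact j.elim0
    · exact j.elim0
  · rcases j with (j | j | j) | ((j | j) | j)
    · fin_cases i <;> fin_cases j <;> simp [KM, JX, BX, wt] at h ⊢
    · fin_cases i <;> fin_cases j <;> simp [KM, JX, BX, wt] at h ⊢
    · fin_cases i <;> fin_cases j <;> simp [KM, JX, BX, wt] at h ⊢
    · exact j.elim0
    · exact j.elim0
    · exact j.elim0
  · rcases j with (j | j | j) | ((j | j) | j)
    · fin_cases i <;> fin_cases j <;> simp [KM, JX, BX, wt] at h ⊢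
    · fin_cases i <;> fin_cases j <;> simp [KM, JX, BX, wt] at h ⊢
    · fin_cases i <;> fin_cases j <;> simp [KM, JX, BX, wt] at h ⊢
    · exact j.elim0
    · exact j.elim0
    · exact j.elim0
  · exact i.elim0
  · exact i.elim0
  · exact i.elim0

theorem entry (m23 m32 x13 x31 s : k) :
    ((JX k 3 0 0 + s • KM m23 m32 x13 x31) ^ 3) (.inl (.inr (.inr 0))) (.inl (.inl 2)) =
      s * x13 := by
  have h1 : ∀ i, ((JX k 3 0 0 + s • KM m23 m32 x13 x31) *
      (JX k 3 0 0 + s • KM m23 m32 x13 x31)) i (.inl (.inl 2)) =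
      if i = .inl (.inr (.inr 2)) then 1 else 0 := by
    intro i
    rcases i with (i | i | i) | ((i | i) | i)
    · fin_cases i <;>
        simp [KM, JX, BX, Matrix.mul_apply, Fintype.sum_sum_type, Fin.sum_univ_three]
    · fin_cases i <;>
        simp [KM, JX, BX, Matrix.mul_apply, Fintype.sum_sum_type, Fin.sum_univ_three]
    · fin_cases i <;>
        simp [KM, JX, BX, Matrix.mul_apply, Fintype.sum_sum_type, Fin.sum_univ_three]
    · exact i.elim0
    · exact i.elim0
    · exact i.elim0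
  rw [pow_succ', pow_two, Matrix.mul_apply]
  simp only [h1, mul_ite, mul_one, mul_zero, Finset.sum_ite_eq', Finset.mem_univ, if_true]
  simp [KM, JX, BX]

end R333Aux

open R333Aux in
theorem no_333R {k : Type*} [Field k] [CharZero k] {ρ : ℕ → ℕ} (h3 : ρ 3 = 0)
    {m23 m32 x12 x13 x21 x31 : k} (hx : x13 ≠ 0)
    (hT : MaxR ρ ![JX k 3 0 0,
      BX !![1, 0, 0; 0, 0, 0; 0, 0, 0] !![0, 0, 0; 0, 0, m23; 0, m32, 0] 0 0 0 0 0 0 0 0 0,
      BX !![0, 0, 0; 0, 1, 0; 0, 0, 0] !![0, x12, x13; x21, 0, 0; x31, 0, 0] 0 0 0 0 0 0 0 0 0]) :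
    False := by
  have hinf : Infinite k := CharZero.infinite k
  refine Pool.Agent.Lib.D8.MaxR.raise0 hT (KM m23 m32 x13 x31) 0 0 (fun s => ?_) 3 h3 1 0 0 ?_
  · simp only [smul_zero, add_zero]
    have hc := hT.cn.1 1 2
    refine D8.cn3 ?_ ?_ hc (nilp _ _ _ _ _) (BX_nil ..) (BX_nil ..)
    · rw [add_mul, mul_add, smul_mul_assoc, mul_smul_comm, JX_comm, KM_comm1]
    · rw [add_mul, mul_add, smul_mul_assoc, mul_smul_comm, JX_comm, KM_comm2]
  · refine (Set.finite_singleton (0 : k)).infinite_compl.mono fun s hs => ?_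
    have hs0 : s ≠ 0 := hs
    intro h0
    simp only [one_smul, smul_zero, add_zero, zero_smul] at h0
    have h1 := congrFun (congrFun h0 (.inl (.inr (.inr 0)))) (.inl (.inl 2))
    rw [entry] at h1
    exact mul_ne_zero hs0 hx h1

end Pool.Agent.Lib.D9
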