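import Pool.Agent.Lib.D9.T333X
import Pool.Agent.Lib.D9.R333

/-!
# MP_5dcbc3_ag: type (3, 3, 3), reduction to the normal form
-/

set_option autoImplicit false

namespace Pool.Agent.Lib.D9

namespace T333Aux

open Matrix Pool.Agent.Lib.Q5dc Pool.Agent.Lib.D7 Pool.Agent.Lib.D8

variable {k : Type*} [Field k] {ρ : ℕ → ℕ}

/-- block matrices without blocks for `U` and `P` -/
abbrev B3 (N M : Matrix (Fin 3) (Fin 3) k) : Matrix (Ix 3 0 0) (Ix 3 0 0) k :=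
  BX N M 0 0 0 0 0 0 0 0 0

theorem JX_eq : JX k 3 0 0 = B3 1 0 := by
  unfold JX
  rw [Subsingleton.elim (1 : Matrix (Fin 0) (Fin 0) k) 0]

theorem B3_mul (N M N' M' : Matrix (Fin 3) (Fin 3) k) : B3 N M * B3 N' M' = B3 0 (N * N') := by
  rw [BX_mul]
  simp

theorem B3_add (N M N' M' : Matrix (Fin 3) (Fin 3) k) :
    B3 N M + B3 N' M' = B3 (N + N') (M + M') := by
  rw [BX_add]
  simp

theorem B3_smul (s : k) (N M : Matrix (Fin 3) (Fin 3) k) : s • B3 N M = B3 (s • N) (s • M) := by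
  rw [BX_smul]
  simp

theorem B3_zero : B3 (0 : Matrix (Fin 3) (Fin 3) k) 0 = 0 := BX_zero

theorem B3_comm {N M N' M' : Matrix (Fin 3) (Fin 3) k} (h : B3 N M * B3 N' M' = B3 N' M' * B3 N M) :
    N * N' = N' * N := by
  rw [B3_mul, B3_mul, BX_inj] at h
  exact h.2.1

theorem B3_cn {N M N' M' : Matrix (Fin 3) (Fin 3) k} (h : N * N' = N' * N) :
    CN ![JX k 3 0 0, B3 N M, B3 N' M'] := by
  refine cnX _ _ _ _ _ _ _ _ _ _ _ _ _ _ _ _ _ _ _ _ _ _ ?_ ?_ ?_ ?_ ?_ ?_ ?_ <;> simp [h]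

theorem max_comm {N M N' M' : Matrix (Fin 3) (Fin 3) k}
    (hT : MaxR ρ ![JX k 3 0 0, B3 N M, B3 N' M']) : N * N' = N' * N :=
  B3_comm (hT.cn.1 1 2)

/-! ### the last step -/

theorem step8 [CharZero k] (h3 : ρ 3 = 0) {m23 m32 x12 x13 x21 x31 : k}
    (hT : MaxR ρ ![JX k 3 0 0,
      B3 !![1, 0, 0; 0, 0, 0; 0, 0, 0] !![0, 0, 0; 0, 0, m23; 0, m32, 0],
      B3 !![0, 0, 0; 0, 1, 0; 0, 0, 0] !![0, x12, x13; x21, 0, 0; x31, 0, 0]]) : False := by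
  have e1 : ∀ s : k, B3 !![1, 0, 0; 0, 0, 0; 0, 0, 0] !![0, 0, 0; 0, 0, m23; 0, m32, 0] +
      s • B3 0 0 = B3 !![1, 0, 0; 0, 0, 0; 0, 0, 0] !![0, 0, 0; 0, 0, m23; 0, m32, 0] := by
    intro s
    rw [B3_zero, smul_zero, add_zero]
  have e2 : ∀ s : k, B3 !![0, 0, 0; 0, 1, 0; 0, 0, 0] !![0, x12, x13; x21, 0, 0; x31, 0, 0] +
      s • B3 0 !![0, 0, 1; 0, 0, 0; 0, 0, 0] =
      B3 !![0, 0, 0; 0, 1, 0; 0, 0, 0] !![0, x12, x13 + s; x21, 0, 0; x31, 0, 0] := by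
    intro s
    rw [B3_smul, B3_add]
    congr 1
    · simp
    · ext i j
      fin_cases i <;> fin_cases j <;> simp
  obtain ⟨s, hs, h⟩ := MaxR.line2 hT (B3 0 0) (B3 0 !![0, 0, 1; 0, 0, 0; 0, 0, 0]) (fun s => by
    rw [e1, e2]
    refine B3_cn ?_
    ext i j
    fin_cases i <;> fin_cases j <;> simp [Matrix.mul_apply, Fin.sum_univ_three])
    (Set.finite_singleton (-x13))
  rw [e1, e2] at h
  exact no_333R h3 (fun h0 => hs (by
    rw [Set.mem_singleton_iff]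
    linear_combination h0)) h

/-! ### unipotent changes of basis -/

theorem unip_one (L : Matrix (Fin 3) (Fin 3) k) :
    (1 + B3 L 0) * (1 - B3 L 0 + B3 0 (L * L)) = 1 ∧
      (1 - B3 L 0 + B3 0 (L * L)) * (1 + B3 L 0) = 1 := by
  have h1 : B3 L 0 * B3 L 0 = B3 0 (L * L) := B3_mul ..
  have h2 : B3 L 0 * B3 0 (L * L) = 0 := by rw [B3_mul, mul_zero, B3_zero]
  have h3 : B3 0 (L * L) * B3 L 0 = 0 := by rw [B3_mul, zero_mul, B3_zero]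
  constructor
  · have : (1 + B3 L 0) * (1 - B3 L 0 + B3 0 (L * L)) =
        1 + B3 0 (L * L) - B3 L 0 * B3 L 0 + B3 L 0 * B3 0 (L * L) := by noncomm_ring
    rw [this, h1, h2]
    abel
  · have : (1 - B3 L 0 + B3 0 (L * L)) * (1 + B3 L 0) =
        1 + B3 0 (L * L) - B3 L 0 * B3 L 0 + B3 0 (L * L) * B3 L 0 := by noncomm_ring
    rw [this, h1, h3]
    abel

theorem unip_conj (L N M : Matrix (Fin 3) (Fin 3) k) :
    (1 + B3 L 0) * B3 N M * (1 - B3 L 0 + B3 0 (L * L)) = B3 N (M + L * N - N * L) := by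
  have h : (1 + B3 L 0) * B3 N M = B3 N (M + L * N - N * L) * (1 + B3 L 0) := by
    rw [add_mul, mul_add, one_mul, mul_one, B3_mul, B3_mul, B3_add, B3_add, add_zero,
      sub_add_cancel]
  rw [h, mul_assoc, (unip_one L).1, mul_one]

theorem max_unip (L : Matrix (Fin 3) (Fin 3) k) {N M N' M' : Matrix (Fin 3) (Fin 3) k}
    (hT : MaxR ρ ![JX k 3 0 0, B3 N M, B3 N' M']) :
    MaxR ρ ![JX k 3 0 0, B3 N (M + L * N - N * L), B3 N' (M' + L * N' - N' * L)] := by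
  have h1 := hT.conj _ _ (unip_one L).1 (unip_one L).2
  have h2 : (fun i => (1 + B3 L 0) * (![JX k 3 0 0, B3 N M, B3 N' M'] :
      Fin 3 → Matrix (Ix 3 0 0) (Ix 3 0 0) k) i * (1 - B3 L 0 + B3 0 (L * L))) =
      ![JX k 3 0 0, B3 N (M + L * N - N * L), B3 N' (M' + L * N' - N' * L)] := by
    funext i
    fin_cases i
    · change (1 + B3 L 0) * JX k 3 0 0 * (1 - B3 L 0 + B3 0 (L * L)) = JX k 3 0 0
      rw [JX_eq, unip_conj]
      congr 1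
      simp
    · exact unip_conj ..
    · exact unip_conj ..
  rwa [h2] at h1

/-- subtracting multiples of `A ^ 2`, `A B`, `A C` -/
theorem max_sub (x y z x' y' z' : k) {N M N' M' : Matrix (Fin 3) (Fin 3) k}
    (hT : MaxR ρ ![JX k 3 0 0, B3 N M, B3 N' M']) :
    MaxR ρ ![JX k 3 0 0, B3 N (M - (x • 1 + y • N + z • N')),
      B3 N' (M' - (x' • 1 + y' • N + z' • N'))] := by
  have sm : ∀ {T : Fin 3 → Matrix (Ix 3 0 0) (Ix 3 0 0) k} {M : Matrix (Ix 3 0 0) (Ix 3 0 0) k}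
      (s : k), M ∈ adj T → s • M ∈ adj T := fun s hM => SMulMemClass.smul_mem s hM
  have key : ∀ (P Q P' Q' : Matrix (Fin 3) (Fin 3) k) (x y z : k),
      B3 0 (x • (1 : Matrix (Fin 3) (Fin 3) k) + y • N + z • N') ∈
        adj ![JX k 3 0 0, B3 N Q, B3 N' Q'] := by
    intro P Q P' Q' x y z
    have m0 := mem0 (JX k 3 0 0) (B3 N Q) (B3 N' Q')
    have m1 := mem1 (JX k 3 0 0) (B3 N Q) (B3 N' Q')
    have m2 := mem2 (JX k 3 0 0) (B3 N Q) (B3 N' Q')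
    have e : B3 0 (x • (1 : Matrix (Fin 3) (Fin 3) k) + y • N + z • N') =
        x • (JX k 3 0 0 * JX k 3 0 0) + y • (JX k 3 0 0 * B3 N Q) +
          z • (JX k 3 0 0 * B3 N' Q') := by
      rw [JX_eq, B3_mul, B3_mul, B3_mul, B3_smul, B3_smul, B3_smul, B3_add, B3_add]
      simp
    rw [e]
    exact add_mem (add_mem (sm x (mul_mem m0 m0)) (sm y (mul_mem m0 m1))) (sm z (mul_mem m0 m2))
  have e1 : ∀ (N M S : Matrix (Fin 3) (Fin 3) k), B3 N (M - S) = B3 N M - B3 0 S := by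
    intro N M S
    rw [eq_sub_iff_add_eq, B3_add, add_zero, sub_add_cancel]
  have e2 : ∀ (N M S : Matrix (Fin 3) (Fin 3) k), B3 N M = B3 N (M - S) + B3 0 S := by
    intro N M S
    rw [B3_add, add_zero, sub_add_cancel]
  refine MaxR.change3 hT ?_ ?_ ?_ ?_
  · rw [e1]
    exact sub_mem (mem1 _ _ _) (key 0 M 0 M' x y z)
  · rw [e1]
    exact sub_mem (mem2 _ _ _) (key 0 M 0 M' x' y' z')
  · rw [e2 N M (x • 1 + y • N + z • N')]
    exact add_mem (mem1 _ _ _) (key 0 _ 0 _ x y z)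
  · rw [e2 N' M' (x' • 1 + y' • N + z' • N')]
    exact add_mem (mem2 _ _ _) (key 0 _ 0 _ x' y' z')

theorem step7 [CharZero k] (h3 : ρ 3 = 0) {M M' : Matrix (Fin 3) (Fin 3) k}
    (hT : MaxR ρ ![JX k 3 0 0, B3 !![1, 0, 0; 0, 0, 0; 0, 0, 0] M,
      B3 !![0, 0, 0; 0, 1, 0; 0, 0, 0] M']) : False := by
  have h1 := max_unip !![0, M 0 1, M 0 2; -M 1 0, 0, M' 1 2; -M 2 0, -M' 2 1, 0] hT
  have h2 := max_sub (M 2 2) (M 0 0 - M 2 2) (M 1 1 - M 2 2) (M' 2 2) (M' 0 0 - M' 2 2)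
    (M' 1 1 - M' 2 2) h1
  have e1 : M + !![0, M 0 1, M 0 2; -M 1 0, 0, M' 1 2; -M 2 0, -M' 2 1, 0] *
      !![1, 0, 0; 0, 0, 0; 0, 0, 0] - !![1, 0, 0; 0, 0, 0; 0, 0, 0] *
      !![0, M 0 1, M 0 2; -M 1 0, 0, M' 1 2; -M 2 0, -M' 2 1, 0] -
      (M 2 2 • 1 + (M 0 0 - M 2 2) • !![1, 0, 0; 0, 0, 0; 0, 0, 0] +
        (M 1 1 - M 2 2) • !![0, 0, 0; 0, 1, 0; 0, 0, 0]) =
      !![0, 0, 0; 0, 0, M 1 2; 0, M 2 1, 0] := by
    ext i j
    fin_cases i <;> fin_cases j <;>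
      simp [Matrix.mul_apply, Fin.sum_univ_three]
  have e2 : M' + !![0, M 0 1, M 0 2; -M 1 0, 0, M' 1 2; -M 2 0, -M' 2 1, 0] *
      !![0, 0, 0; 0, 1, 0; 0, 0, 0] - !![0, 0, 0; 0, 1, 0; 0, 0, 0] *
      !![0, M 0 1, M 0 2; -M 1 0, 0, M' 1 2; -M 2 0, -M' 2 1, 0] -
      (M' 2 2 • 1 + (M' 0 0 - M' 2 2) • !![1, 0, 0; 0, 0, 0; 0, 0, 0] +
        (M' 1 1 - M' 2 2) • !![0, 0, 0; 0, 1, 0; 0, 0, 0]) =
      !![0, M' 0 1 + M 0 1, M' 0 2; M' 1 0 + M 1 0, 0, 0; M' 2 0, 0, 0] := by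
    ext i j
    fin_cases i <;> fin_cases j <;>
      simp [Matrix.mul_apply, Fin.sum_univ_three]
  rw [e1, e2] at h2
  exact step8 h3 h2

end T333Aux

end Pool.Agent.Lib.D9
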