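import Pool.Agent.Lib.D9.BlkMap
import Pool.Agent.Lib.D9.BlkShape
import Pool.Agent.Lib.D9.R333
import Pool.Agent.Lib.D9.T333Y

/-!
Module T333 (2.5h; black boxes toX333, shapeX, no_333R). Type (3,3,3). T = (A, BX N M .., BX N' M' ..), all other blocks are empty. Relation: N N' = N' N only (BX_comm relation 2), M, M' are free.
PROOF. (1) Every N in Mat_3(k) commutes with some R which has a cyclic vector v (T333X.lean). Family N' -> N' + s R: so WLOG N' has a cyclic vector (MaxR.line2).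
(2) In the basis v, N' v, N'^2 v the matrix N' is a companion matrix, N = c0 + c1 N' + c2 N'^2. Subtract c0 A + c1 C (MaxR.lin): N = c2 N'^2 (M changes). The roots of the characteristic polynomial are moved apart: a + s, b, c - s, and c2 -> c2 + s (polynomial family, MaxR.deform).
(3) MaxR.conjX with the Vandermonde matrix: N' = diag(l1, l2, l3), N = c2 diag (li^2), and by MaxR.lin (with multiples of A) N = E_11, N' = E_22.
(4) The last steps (unipotent change of basis, multiples of A^2, A B, A C, deformation of M' 0 2, no_333R) are in T333Y.lean.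
-/

set_option autoImplicit false

namespace Pool.Agent.Lib.D9

open Matrix Pool.Agent.Lib.Q5dc Pool.Agent.Lib.D7

namespace T333Aux

open Pool.Agent.Lib.D8

variable {k : Type*} [Field k] {ρ : ℕ → ℕ}

theorem max_conj {g g' : Matrix (Fin 3) (Fin 3) k} (hg : g * g' = 1)
    {N M N' M' : Matrix (Fin 3) (Fin 3) k} (hT : MaxR ρ ![JX k 3 0 0, B3 N M, B3 N' M']) :
    MaxR ρ ![JX k 3 0 0, B3 (g * N * g') (g * M * g'), B3 (g * N' * g') (g * M' * g')] := by
  have h := MaxR.conjX g g' 1 1 1 1 hT hg (one_mul 1) (one_mul 1)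
  simpa using h

theorem max_lin (a b c d x z : k) (hd : a * d - b * c ≠ 0)
    {N M N' M' : Matrix (Fin 3) (Fin 3) k} (hT : MaxR ρ ![JX k 3 0 0, B3 N M, B3 N' M']) :
    MaxR ρ ![JX k 3 0 0, B3 (a • N + b • N' + x • 1) (a • M + b • M'),
      B3 (c • N + d • N' + z • 1) (c • M + d • M')] := by
  have h := MaxR.lin hT a b c d x 0 z 0 hd
  have e : ∀ a b x : k, a • B3 N M + b • B3 N' M' + x • JX k 3 0 0 +
      (0 : k) • (JX k 3 0 0 * JX k 3 0 0) = B3 (a • N + b • N' + x • 1) (a • M + b • M') := by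
    intro a b x
    rw [zero_smul, add_zero, JX_eq, B3_smul, B3_smul, B3_smul, B3_add, B3_add, smul_zero, add_zero]
  rw [e, e] at h
  exact h

theorem step6 [CharZero k] (h3 : ρ 3 = 0) {w l0 l1 l2 : k} (hw : w ≠ 0) (h01 : l0 ≠ l1)
    (h02 : l0 ≠ l2) (h12 : l1 ≠ l2) {M M' : Matrix (Fin 3) (Fin 3) k}
    (hT : MaxR ρ ![JX k 3 0 0, B3 !![w * l0 ^ 2, 0, 0; 0, w * l1 ^ 2, 0; 0, 0, w * l2 ^ 2] M,
      B3 !![l0, 0, 0; 0, l1, 0; 0, 0, l2] M']) : False := by
  have e01 : l0 - l1 ≠ 0 := sub_ne_zero.2 h01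
  have e02 : l0 - l2 ≠ 0 := sub_ne_zero.2 h02
  have e12 : l1 - l2 ≠ 0 := sub_ne_zero.2 h12
  have e10 : l1 - l0 ≠ 0 := sub_ne_zero.2 h01.symm
  have h := max_lin (1 / (w * ((l0 - l1) * (l0 - l2)))) (-(l1 + l2) / ((l0 - l1) * (l0 - l2)))
    (1 / (w * ((l1 - l0) * (l1 - l2)))) (-(l0 + l2) / ((l1 - l0) * (l1 - l2)))
    (l1 * l2 / ((l0 - l1) * (l0 - l2))) (l0 * l2 / ((l1 - l0) * (l1 - l2))) (by
      have e : 1 / (w * ((l0 - l1) * (l0 - l2))) * (-(l0 + l2) / ((l1 - l0) * (l1 - l2))) -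
          -(l1 + l2) / ((l0 - l1) * (l0 - l2)) * (1 / (w * ((l1 - l0) * (l1 - l2)))) =
          (l1 - l0) / (w * ((l0 - l1) * (l0 - l2)) * ((l1 - l0) * (l1 - l2))) := by
        field_simp
        ring
      rw [e]
      exact div_ne_zero e10 (mul_ne_zero (mul_ne_zero hw (mul_ne_zero e01 e02))
        (mul_ne_zero e10 e12))) hT
  have a1 : (1 / (w * ((l0 - l1) * (l0 - l2)))) •
      !![w * l0 ^ 2, 0, 0; 0, w * l1 ^ 2, 0; 0, 0, w * l2 ^ 2] +
      (-(l1 + l2) / ((l0 - l1) * (l0 - l2))) • !![l0, 0, 0; 0, l1, 0; 0, 0, l2] +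
      (l1 * l2 / ((l0 - l1) * (l0 - l2))) • (1 : Matrix (Fin 3) (Fin 3) k) =
      !![1, 0, 0; 0, 0, 0; 0, 0, 0] := by
    ext i j
    fin_cases i <;> fin_cases j <;> simp <;> field_simp <;> ring
  have a2 : (1 / (w * ((l1 - l0) * (l1 - l2)))) •
      !![w * l0 ^ 2, 0, 0; 0, w * l1 ^ 2, 0; 0, 0, w * l2 ^ 2] +
      (-(l0 + l2) / ((l1 - l0) * (l1 - l2))) • !![l0, 0, 0; 0, l1, 0; 0, 0, l2] +
      (l0 * l2 / ((l1 - l0) * (l1 - l2))) • (1 : Matrix (Fin 3) (Fin 3) k) =
      !![0, 0, 0; 0, 1, 0; 0, 0, 0] := by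
    ext i j
    fin_cases i <;> fin_cases j <;> simp <;> field_simp <;> ring
  rw [a1, a2] at h
  exact step7 h3 h

/-- companion matrix of `(X - a) (X - b) (X - c)` -/
def comp (a b c : k) : Matrix (Fin 3) (Fin 3) k :=
  !![0, 0, a * b * c; 1, 0, -(a * b + b * c + c * a); 0, 1, a + b + c]

theorem vander_comp (l0 l1 l2 : k) :
    !![1, l0, l0 ^ 2; 1, l1, l1 ^ 2; 1, l2, l2 ^ 2] * comp l0 l1 l2 =
      !![l0, 0, 0; 0, l1, 0; 0, 0, l2] * !![1, l0, l0 ^ 2; 1, l1, l1 ^ 2; 1, l2, l2 ^ 2] := by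
  ext i j
  fin_cases i <;> fin_cases j <;> simp [comp, Matrix.mul_apply, Fin.sum_univ_three] <;> ring

theorem step5' [CharZero k] (h3 : ρ 3 = 0) {w l0 l1 l2 : k} (hw : w ≠ 0) (h01 : l0 ≠ l1)
    (h02 : l0 ≠ l2) (h12 : l1 ≠ l2) {M M' : Matrix (Fin 3) (Fin 3) k}
    (hT : MaxR ρ ![JX k 3 0 0, B3 (w • (comp l0 l1 l2 * comp l0 l1 l2)) M,
      B3 (comp l0 l1 l2) M']) : False := by
  set V : Matrix (Fin 3) (Fin 3) k := !![1, l0, l0 ^ 2; 1, l1, l1 ^ 2; 1, l2, l2 ^ 2] with hV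
  have hdet : V.det ≠ 0 := by
    have e : V.det = (l1 - l0) * (l2 - l0) * (l2 - l1) := by
      rw [hV, Matrix.det_fin_three]
      simp
      ring
    rw [e]
    exact mul_ne_zero (mul_ne_zero (sub_ne_zero.2 h01.symm) (sub_ne_zero.2 h02.symm))
      (sub_ne_zero.2 h12.symm)
  have hg : V * V⁻¹ = 1 := Matrix.mul_nonsing_inv _ (isUnit_iff_ne_zero.2 hdet)
  have hg' : V⁻¹ * V = 1 := mul_eq_one_comm.1 hg
  have hc : V * comp l0 l1 l2 * V⁻¹ = !![l0, 0, 0; 0, l1, 0; 0, 0, l2] := by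
    rw [hV, vander_comp, ← hV, mul_assoc, hg, mul_one]
  have hc2 : V * (w • (comp l0 l1 l2 * comp l0 l1 l2)) * V⁻¹ =
      !![w * l0 ^ 2, 0, 0; 0, w * l1 ^ 2, 0; 0, 0, w * l2 ^ 2] := by
    have e : V * (w • (comp l0 l1 l2 * comp l0 l1 l2)) * V⁻¹ =
        w • ((V * comp l0 l1 l2 * V⁻¹) * (V * comp l0 l1 l2 * V⁻¹)) := by
      have e1 : (V * comp l0 l1 l2 * V⁻¹) * (V * comp l0 l1 l2 * V⁻¹) =
          V * comp l0 l1 l2 * (V⁻¹ * V) * comp l0 l1 l2 * V⁻¹ := by noncomm_ring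
      rw [e1, hg', mul_one, mul_smul_comm, smul_mul_assoc]
      congr 1
      noncomm_ring
    rw [e, hc]
    ext i j
    fin_cases i <;> fin_cases j <;> simp [pow_two]
  have h := max_conj hg hT
  rw [hc, hc2] at h
  exact step6 h3 hw h01 h02 h12 h

theorem isPoly_B3 {N : k → Matrix (Fin 3) (Fin 3) k} (hN : ∀ i j, IsPoly fun s => N s i j)
    (M : Matrix (Fin 3) (Fin 3) k) : ∀ x y, IsPoly fun s => B3 (N s) M x y := by
  intro x y
  rcases x with (x | x | x) | ((x | x) | x) <;> rcases y with (y | y | y) | ((y | y) | y) <;>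
    first
    | exact hN _ _
    | exact D7.IsPoly.const _

theorem isPoly_comp (a b c : k) : ∀ i j, IsPoly fun s => comp (a + s) b (c - s) i j := by
  have ha : IsPoly fun s => a + s := (D7.IsPoly.const a).add D7.IsPoly.id
  have hb : IsPoly fun _ : k => b := D7.IsPoly.const b
  have hc : IsPoly fun s => c - s := (D7.IsPoly.const c).sub D7.IsPoly.id
  intro i j
  fin_cases i <;> fin_cases j
  · exact D7.IsPoly.const 0
  · exact D7.IsPoly.const 0
  · exact (ha.mul hb).mul hc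
  · exact D7.IsPoly.const 1
  · exact D7.IsPoly.const 0
  · exact (((ha.mul hb).add (hb.mul hc)).add (hc.mul ha)).neg
  · exact D7.IsPoly.const 0
  · exact D7.IsPoly.const 1
  · exact (ha.add hb).add hc

theorem step5 [CharZero k] (h3 : ρ 3 = 0) {z a b c : k} {M M' : Matrix (Fin 3) (Fin 3) k}
    (hT : MaxR ρ ![JX k 3 0 0, B3 (z • (comp a b c * comp a b c)) M, B3 (comp a b c) M']) :
    False := by
  obtain ⟨E, hE, h⟩ := hT.deform (fun s => ![JX k 3 0 0,
    B3 ((z + s) • (comp (a + s) b (c - s) * comp (a + s) b (c - s))) M,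
    B3 (comp (a + s) b (c - s)) M']) (by
      intro i
      fin_cases i
      · exact fun x y => D7.IsPoly.const _
      · refine isPoly_B3 ?_ M
        intro i j
        exact ((D7.IsPoly.const z).add D7.IsPoly.id).mul
          (isPoly_mul (isPoly_comp a b c) (isPoly_comp a b c) i j)
      · exact isPoly_B3 (isPoly_comp a b c) M') (by simp) Set.finite_empty (by
      intro s _
      refine B3_cn ?_
      rw [smul_mul_assoc, mul_smul_comm, mul_assoc])
  obtain ⟨s, hs⟩ := ((((hE.union (Set.finite_singleton (-z))).union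
    (Set.finite_singleton (b - a))).union (Set.finite_singleton (c - b))).union
    (Set.finite_singleton ((c - a) / 2))).infinite_compl.nonempty
  simp only [Set.mem_compl_iff, Set.mem_union, Set.mem_singleton_iff, not_or] at hs
  obtain ⟨⟨⟨⟨hs0, hs1⟩, hs2⟩, hs3⟩, hs4⟩ := hs
  refine step5' h3 (w := z + s) (l0 := a + s) (l1 := b) (l2 := c - s) ?_ ?_ ?_ ?_ (h s hs0)
  · intro h0
    exact hs1 (by linear_combination h0)
  · intro h0
    exact hs2 (by linear_combination h0)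
  · intro h0
    refine hs4 ?_
    rw [eq_div_iff two_ne_zero]
    linear_combination h0
  · intro h0
    exact hs3 (by linear_combination h0)

theorem exists_cubic [IsAlgClosed k] (p q r : k) :
    ∃ a : k, a ^ 3 = r * a ^ 2 + q * a + p := by
  obtain ⟨a, ha⟩ := IsAlgClosed.exists_root
    (Polynomial.X ^ 3 - (Polynomial.C r * Polynomial.X ^ 2 + Polynomial.C q * Polynomial.X +
      Polynomial.C p)) (by
      have : (Polynomial.X ^ 3 - (Polynomial.C r * Polynomial.X ^ 2 +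
          Polynomial.C q * Polynomial.X + Polynomial.C p)).degree = 3 := by compute_degree!
      rw [this]
      norm_num)
  refine ⟨a, ?_⟩
  rw [Polynomial.IsRoot.def] at ha
  simp only [Polynomial.eval_sub, Polynomial.eval_pow, Polynomial.eval_X, Polynomial.eval_add,
    Polynomial.eval_mul, Polynomial.eval_C] at ha
  linear_combination ha

theorem exists_quad [IsAlgClosed k] (q r : k) : ∃ a : k, a ^ 2 = r * a + q := by
  obtain ⟨a, ha⟩ := IsAlgClosed.exists_root
    (Polynomial.X ^ 2 - (Polynomial.C r * Polynomial.X + Polynomial.C q)) (by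
      have : (Polynomial.X ^ 2 - (Polynomial.C r * Polynomial.X + Polynomial.C q)).degree = 2 := by
        compute_degree!
      rw [this]
      norm_num)
  refine ⟨a, ?_⟩
  rw [Polynomial.IsRoot.def] at ha
  simp only [Polynomial.eval_sub, Polynomial.eval_pow, Polynomial.eval_X, Polynomial.eval_add,
    Polynomial.eval_mul, Polynomial.eval_C] at ha
  linear_combination ha

theorem exists_roots [IsAlgClosed k] (p q r : k) :
    ∃ a b c : k, p = a * b * c ∧ q = -(a * b + b * c + c * a) ∧ r = a + b + c := by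
  obtain ⟨a, ha⟩ := exists_cubic p q r
  obtain ⟨b, hb⟩ := exists_quad (q + r * a - a ^ 2) (r - a)
  refine ⟨a, b, r - a - b, ?_, ?_, by ring⟩
  · linear_combination -ha + a * hb
  · linear_combination -hb

/-- a matrix that commutes with a companion matrix -/
theorem comm_comp {p q r : k} {N : Matrix (Fin 3) (Fin 3) k}
    (h : N * !![0, 0, p; 1, 0, q; 0, 1, r] = !![0, 0, p; 1, 0, q; 0, 1, r] * N) :
    N = N 0 0 • (1 : Matrix (Fin 3) (Fin 3) k) + N 1 0 • !![0, 0, p; 1, 0, q; 0, 1, r] +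
      N 2 0 • (!![0, 0, p; 1, 0, q; 0, 1, r] * !![0, 0, p; 1, 0, q; 0, 1, r]) := by
  have H := fun i j => congrFun (congrFun h i) j
  have h00 := H 0 0
  have h10 := H 1 0
  have h20 := H 2 0
  have h01 := H 0 1
  have h11 := H 1 1
  have h21 := H 2 1
  simp [Matrix.mul_apply, Fin.sum_univ_three] at h00 h10 h20 h01 h11 h21
  ext i j
  fin_cases i <;> fin_cases j <;> simp [Matrix.mul_apply, Fin.sum_univ_three]
  · linear_combination h00
  · linear_combination h01 + p * h20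
  · linear_combination h10
  · linear_combination h11 + q * h20 + h00
  · linear_combination h20
  · linear_combination h21 + r * h20 + h10

theorem step4 [CharZero k] [IsAlgClosed k] (h3 : ρ 3 = 0) {N M X M' : Matrix (Fin 3) (Fin 3) k}
    {v : Fin 3 → k} (hv : Cyc X v) (hT : MaxR ρ ![JX k 3 0 0, B3 N M, B3 X M']) : False := by
  let K : Matrix (Fin 3) (Fin 3) k := Matrix.of fun i j => ![v i, (X *ᵥ v) i, (X *ᵥ (X *ᵥ v)) i] j
  have hK : K.det ≠ 0 := by
    have e : K.det = D3 v (X *ᵥ v) (X *ᵥ (X *ᵥ v)) := by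
      rw [Matrix.det_fin_three]
      simp [K, D3]
      ring
    rw [e]
    exact hv
  have hg : K⁻¹ * K = 1 := Matrix.nonsing_inv_mul _ (isUnit_iff_ne_zero.2 hK)
  have h := max_conj hg hT
  have hcomm := max_comm h
  have c0 : ∀ i, (X * K) i 0 = K i 1 := by
    intro i
    simp [K, Matrix.mul_apply, Matrix.mulVec, dotProduct]
  have c1 : ∀ i, (X * K) i 1 = K i 2 := by
    intro i
    simp [K, Matrix.mul_apply, Matrix.mulVec, dotProduct]
  have d0 : ∀ i, (K⁻¹ * X * K) i 0 = (1 : Matrix (Fin 3) (Fin 3) k) i 1 := by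
    intro i
    rw [mul_assoc, Matrix.mul_apply, ← hg, Matrix.mul_apply]
    exact Finset.sum_congr rfl fun j _ => by rw [c0]
  have d1 : ∀ i, (K⁻¹ * X * K) i 1 = (1 : Matrix (Fin 3) (Fin 3) k) i 2 := by
    intro i
    rw [mul_assoc, Matrix.mul_apply, ← hg, Matrix.mul_apply]
    exact Finset.sum_congr rfl fun j _ => by rw [c1]
  obtain ⟨a, b, c, ha, hb, hc⟩ := exists_roots ((K⁻¹ * X * K) 0 2) ((K⁻¹ * X * K) 1 2)
    ((K⁻¹ * X * K) 2 2)
  have hX : K⁻¹ * X * K = comp a b c := by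
    ext i j
    fin_cases j
    · fin_cases i
      · exact (d0 0).trans rfl
      · exact (d0 1).trans rfl
      · exact (d0 2).trans rfl
    · fin_cases i
      · exact (d1 0).trans rfl
      · exact (d1 1).trans rfl
      · exact (d1 2).trans rfl
    · fin_cases i
      · exact ha
      · exact hb
      · exact hc
  rw [hX] at h hcomm
  have hN := comm_comp hcomm
  set N1 : Matrix (Fin 3) (Fin 3) k := K⁻¹ * N * K with hN1
  have h' := max_lin 1 (-N1 1 0) 0 1 (-N1 0 0) 0 (by norm_num) h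
  simp only [zero_smul, zero_add, add_zero, one_smul] at h'
  have e : N1 + -N1 1 0 • comp a b c + -N1 0 0 • (1 : Matrix (Fin 3) (Fin 3) k) =
      N1 2 0 • (comp a b c * comp a b c) := by
    nth_rewrite 1 [hN]
    unfold comp
    module
  rw [e] at h'
  exact step5 h3 h'

theorem finite_cubic {c0 c1 c2 c3 : k} (h : c3 ≠ 0) :
    {s : k | c0 + c1 * s + c2 * s ^ 2 + c3 * s ^ 3 = 0}.Finite := by
  have hp : (Polynomial.C c0 + Polynomial.C c1 * Polynomial.X +
      Polynomial.C c2 * Polynomial.X ^ 2 + Polynomial.C c3 * Polynomial.X ^ 3) ≠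
      (0 : Polynomial k) := by
    intro h0
    have h1 := congrArg (fun p => Polynomial.coeff p 3) h0
    simp [Polynomial.coeff_X_pow] at h1
    exact h h1
  refine (finite_zeros _ hp).subset fun s hs => ?_
  simpa using hs

theorem finite_cyc {X R : Matrix (Fin 3) (Fin 3) k} {v : Fin 3 → k} (hv : Cyc R v) :
    {s : k | ¬ Cyc (X + s • R) v}.Finite := by
  have h := finite_cubic (c0 := D3 v (X *ᵥ v) (X *ᵥ (X *ᵥ v)))
    (c1 := D3 v (R *ᵥ v) (X *ᵥ (X *ᵥ v)) + D3 v (X *ᵥ v) (X *ᵥ (R *ᵥ v) + R *ᵥ (X *ᵥ v)))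
    (c2 := D3 v (R *ᵥ v) (X *ᵥ (R *ᵥ v) + R *ᵥ (X *ᵥ v)) + D3 v (X *ᵥ v) (R *ᵥ (R *ᵥ v)))
    (c3 := D3 v (R *ᵥ v) (R *ᵥ (R *ᵥ v))) hv
  refine h.subset fun s hs => ?_
  have hs' : D3 v ((X + s • R) *ᵥ v) ((X + s • R) *ᵥ ((X + s • R) *ᵥ v)) = 0 := by
    by_contra h0
    exact hs h0
  rw [Set.mem_ofPred_eq, ← hs']
  simp only [Matrix.add_mulVec, Matrix.mulVec_add, Matrix.smul_mulVec, Matrix.mulVec_smul, D3,
    Pi.add_apply, Pi.smul_apply, smul_eq_mul]
  ring

theorem step3 [CharZero k] [IsAlgClosed k] (h3 : ρ 3 = 0) {N M X M' : Matrix (Fin 3) (Fin 3) k}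
    (hT : MaxR ρ ![JX k 3 0 0, B3 N M, B3 X M']) : False := by
  obtain ⟨R, v, hc, hv⟩ := good_all N
  have hcomm := max_comm hT
  have e1 : ∀ s : k, B3 N M + s • B3 0 0 = B3 N M := by
    intro s
    rw [B3_zero, smul_zero, add_zero]
  have e2 : ∀ s : k, B3 X M' + s • B3 R 0 = B3 (X + s • R) M' := by
    intro s
    rw [B3_smul, B3_add, smul_zero, add_zero]
  obtain ⟨s, hs, h⟩ := MaxR.line2 hT (B3 0 0) (B3 R 0) (fun s => by
    rw [e1, e2]
    refine B3_cn ?_
    rw [mul_add, add_mul, hcomm, mul_smul_comm, smul_mul_assoc, hc]) (finite_cyc (X := X) hv)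
  rw [e1, e2] at h
  exact step4 h3 (not_not.1 hs) h

end T333Aux

theorem no_333 {k : Type*} [Field k] [IsAlgClosed k] [CharZero k] {ρ : ℕ → ℕ}
    {T : Fin 3 → Matrix (Fin 9) (Fin 9) k} (hT : MaxR ρ T)
    (hρ : ∀ i, ρ i = (J333 k ^ i).rank) (h0 : T 0 = J333 k) : False := by
  obtain ⟨hρ', T', hT', h0'⟩ := toX333 hT hρ h0
  obtain ⟨N, M, a, c, w, b, d, nu, pi, th, et, N', M', a', c', w', b', d', nu', pi', th', et',
    h⟩ := shapeX hT' hρ' h0'
  rw [Subsingleton.elim a 0, Subsingleton.elim c 0, Subsingleton.elim w 0, Subsingleton.elim b 0,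
    Subsingleton.elim d 0, Subsingleton.elim nu 0, Subsingleton.elim pi 0, Subsingleton.elim th 0,
    Subsingleton.elim et 0, Subsingleton.elim a' 0, Subsingleton.elim c' 0,
    Subsingleton.elim w' 0, Subsingleton.elim b' 0, Subsingleton.elim d' 0,
    Subsingleton.elim nu' 0, Subsingleton.elim pi' 0, Subsingleton.elim th' 0,
    Subsingleton.elim et' 0] at h
  refine T333Aux.step3 ?_ h
  rw [hρ' 3, JX_cube, Matrix.rank_zero]

end Pool.Agent.Lib.D9
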