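import Pool.Agent.Lib.D8.Axes
import Pool.Agent.Lib.D7.Adj
import Pool.Agent.Lib.D7.Api

/-!
# MP_5dcbc3_ag: cyclic modules with three axes

`exists_ring`: commuting matrices as elements of a commutative algebra.
`cl_axes3_cyc`: the version of `cl_axes3` where the axes only have to generate the algebra.
-/

namespace Pool.Agent.Lib.D9

open Matrix Polynomial Pool.Agent.Lib.Q5dc Pool.Agent.Lib.D7 Pool.Agent.Lib.D8

universe u v

/-- commuting matrices are elements of a commutative algebra -/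
theorem exists_ring {k : Type u} [Field k] {n : Type v} [Fintype n] [DecidableEq n]
    {A B C : Matrix n n k} (hT : CN ![A, B, C]) :
    ∃ (R : Type (max u v)) (_ : CommRing R) (_ : Algebra k R) (ρ : R →ₐ[k] Matrix n n k) (a b c : R),
      Function.Injective ρ ∧ ρ a = A ∧ ρ b = B ∧ ρ c = C := by
  have hcomm : ∀ x ∈ Set.range ![A, B, C], ∀ y ∈ Set.range ![A, B, C], x * y = y * x := by
    rintro _ ⟨i, rfl⟩ _ ⟨j, rfl⟩
    exact hT.1 i j
  let inst : CommRing (Algebra.adjoin k (Set.range ![A, B, C])) :=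
    { (Algebra.adjoin k (Set.range ![A, B, C])).toRing with
      mul_comm := by
        intro x y
        have := Algebra.isMulCommutative_adjoin k hcomm
        exact mul_comm' x y }
  have hm : ∀ i, ![A, B, C] i ∈ Algebra.adjoin k (Set.range ![A, B, C]) := fun i =>
    Algebra.subset_adjoin ⟨i, rfl⟩
  exact ⟨Algebra.adjoin k (Set.range ![A, B, C]), inferInstance, inferInstance,
    (Algebra.adjoin k (Set.range ![A, B, C])).val, ⟨A, hm 0⟩, ⟨B, hm 1⟩, ⟨C, hm 2⟩,
    Subtype.val_injective, rfl, rfl, rfl⟩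

variable {k : Type*} [Field k] {n : Type*} [Fintype n] [DecidableEq n]

theorem stable_adj {T : Fin 3 → Matrix n n k} {S : Submodule k (n → k)}
    (h : ∀ i, ∀ w ∈ S, T i *ᵥ w ∈ S) {M : Matrix n n k} (hM : M ∈ adj T) :
    ∀ w ∈ S, M *ᵥ w ∈ S := by
  refine adj_induction (p := fun M => ∀ w ∈ S, M *ᵥ w ∈ S) h ?_ ?_ ?_ ?_ hM
  · intro w _
    rw [Matrix.zero_mulVec]
    exact zero_mem _
  · intro x _ y _ hx hy w hw
    rw [Matrix.add_mulVec]
    exact add_mem (hx w hw) (hy w hw)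
  · intro x _ y _ hx hy w hw
    rw [← Matrix.mulVec_mulVec]
    exact hx _ (hy w hw)
  · intro r x _ hx w hw
    rw [Matrix.smul_mulVec]
    exact S.smul_mem _ (hx w hw)

/-- `v` is a cyclic vector -/
def Cyc (T : Fin 3 → Matrix n n k) (v : n → k) : Prop :=
  ∀ S : Submodule k (n → k), v ∈ S → (∀ i, ∀ w ∈ S, T i *ᵥ w ∈ S) → S = ⊤

theorem Cyc.of_adj {T T' : Fin 3 → Matrix n n k} {v : n → k} (h : Cyc T v)
    (hT : ∀ i, T i ∈ adj T') : Cyc T' v :=
  fun S hv hS => h S hv fun i => stable_adj hS (hT i)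

/-- two matrices commuting with the triple which agree on a cyclic vector are equal -/
theorem Cyc.ext {T : Fin 3 → Matrix n n k} {v : n → k} (h : Cyc T v) {M M' : Matrix n n k}
    (hM : ∀ i, T i * M = M * T i) (hM' : ∀ i, T i * M' = M' * T i) (hv : M *ᵥ v = M' *ᵥ v) :
    M = M' := by
  have h1 := h (LinearMap.ker (Matrix.mulVecLin (M - M'))) (by
    rw [LinearMap.mem_ker, Matrix.mulVecLin_apply, Matrix.sub_mulVec, hv, sub_self]) (by
    intro i w hw
    rw [LinearMap.mem_ker, Matrix.mulVecLin_apply] at hw ⊢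
    rw [Matrix.mulVec_mulVec, sub_mul, ← hM, ← hM', ← mul_sub, ← Matrix.mulVec_mulVec, hw,
      Matrix.mulVec_zero])
  have h2 : ∀ w, (M - M') *ᵥ w = 0 := by
    intro w
    have : w ∈ LinearMap.ker (Matrix.mulVecLin (M - M')) := by rw [h1]; trivial
    rwa [LinearMap.mem_ker, Matrix.mulVecLin_apply] at this
  have h3 : M - M' = 0 := by
    ext i j
    have := congrFun (h2 (Pi.single j 1)) i
    rwa [Matrix.mulVec_single_one] at this
  exact sub_eq_zero.1 h3

/-- three axes, cyclic module, version with generators of the algebra -/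
theorem cl_axes3_cyc [IsAlgClosed k] {A B C X Y Z : Matrix n n k} {v : n → k} {p q r : ℕ}
    (hp : 2 ≤ p) (hq : 1 ≤ q) (hr : 1 ≤ r) (hn : Fintype.card n = p + q + r)
    (hT : CN ![A, B, C]) (hX : X ∈ adj ![A, B, C]) (hY : Y ∈ adj ![A, B, C])
    (hZ : Z ∈ adj ![A, B, C]) (hXY : X * Y = 0) (hXZ : X * Z = 0) (hYZ : Y * Z = 0)
    {a b : k} (ha : a ≠ 0) (hb : b ≠ 0)
    (hXp : X ^ p *ᵥ v = a • (Y ^ q *ᵥ v) + b • (Z ^ r *ᵥ v))
    (hnak : ∀ i, ∃ N ∈ adj ![X, Y, Z], ![A, B, C] i - N ∈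
      Submodule.span k {M : Matrix n n k | ∃ P ∈ adj ![A, B, C], ∃ Q ∈ adj ![A, B, C],
        M = P * Q})
    (hv : Cyc ![A, B, C] v) : Cl ![A, B, C] := by
  have hYX : Y * X = 0 := by rw [hT.comm hY hX, hXY]
  have hZX : Z * X = 0 := by rw [hT.comm hZ hX, hXZ]
  have hZY : Z * Y = 0 := by rw [hT.comm hZ hY, hYZ]
  have hmem : ∀ i, ![A, B, C] i ∈ adj ![X, Y, Z] := by
    refine adj_nak hT ?_ hnak
    intro i
    fin_cases i
    · exact hX
    · exact hY
    · exact hZ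
  have hv' : Cyc ![X, Y, Z] v := hv.of_adj hmem
  have hpow : ∀ (M : Matrix n n k) (i : ℕ), M *ᵥ (M ^ (i + 1) *ᵥ v) = M ^ (i + 1 + 1) *ᵥ v := by
    intro M i
    rw [Matrix.mulVec_mulVec, ← pow_succ']
  have hzero : ∀ (M N : Matrix n n k) (i : ℕ), M * N = 0 → M *ᵥ (N ^ (i + 1) *ᵥ v) = 0 := by
    intro M N i h
    rw [Matrix.mulVec_mulVec, pow_succ', ← mul_assoc, h, zero_mul, Matrix.zero_mulVec]
  have hsp := hv' (Submodule.span k ({v} ∪ {x | ∃ i, x = X ^ (i + 1) *ᵥ v} ∪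
      {x | ∃ i, x = Y ^ (i + 1) *ᵥ v} ∪ {x | ∃ i, x = Z ^ (i + 1) *ᵥ v}))
    (Submodule.subset_span (Or.inl (Or.inl (Or.inl rfl)))) (by
      set S := Submodule.span k ({v} ∪ {x | ∃ i, x = X ^ (i + 1) *ᵥ v} ∪
        {x | ∃ i, x = Y ^ (i + 1) *ᵥ v} ∪ {x | ∃ i, x = Z ^ (i + 1) *ᵥ v}) with hS
      have sX : ∀ i, X ^ (i + 1) *ᵥ v ∈ S := fun i =>
        Submodule.subset_span (Or.inl (Or.inl (Or.inr ⟨i, rfl⟩)))
      have sY : ∀ i, Y ^ (i + 1) *ᵥ v ∈ S := fun i =>
        Submodule.subset_span (Or.inl (Or.inr ⟨i, rfl⟩))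
      have sZ : ∀ i, Z ^ (i + 1) *ᵥ v ∈ S := fun i =>
        Submodule.subset_span (Or.inr ⟨i, rfl⟩)
      have key : ∀ M : Matrix n n k, M *ᵥ v ∈ S → (∀ i, M *ᵥ (X ^ (i + 1) *ᵥ v) ∈ S) →
          (∀ i, M *ᵥ (Y ^ (i + 1) *ᵥ v) ∈ S) → (∀ i, M *ᵥ (Z ^ (i + 1) *ᵥ v) ∈ S) →
          ∀ w ∈ S, M *ᵥ w ∈ S := by
        intro M h0 h1 h2 h3 w hw
        have : S ≤ S.comap (Matrix.mulVecLin M) := by
          rw [hS, Submodule.span_le]
          rintro x (((rfl | ⟨i, rfl⟩) | ⟨i, rfl⟩) | ⟨i, rfl⟩)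
          · exact h0
          · exact h1 i
          · exact h2 i
          · exact h3 i
        exact this hw
      intro i
      fin_cases i
      · refine key X ?_ ?_ ?_ ?_
        · have := sX 0
          rwa [zero_add, pow_one] at this
        · intro i; rw [hpow]; exact sX (i + 1)
        · intro i; rw [hzero _ _ _ hXY]; exact zero_mem _
        · intro i; rw [hzero _ _ _ hXZ]; exact zero_mem _
      · refine key Y ?_ ?_ ?_ ?_
        · have := sY 0
          rwa [zero_add, pow_one] at this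
        · intro i; rw [hzero _ _ _ hYX]; exact zero_mem _
        · intro i; rw [hpow]; exact sY (i + 1)
        · intro i; rw [hzero _ _ _ hYZ]; exact zero_mem _
      · refine key Z ?_ ?_ ?_ ?_
        · have := sZ 0
          rwa [zero_add, pow_one] at this
        · intro i; rw [hzero _ _ _ hZX]; exact zero_mem _
        · intro i; rw [hzero _ _ _ hZY]; exact zero_mem _
        · intro i; rw [hpow]; exact sZ (i + 1))
  have h1 := cl_axes3 X Y Z v hp hq hr hn hXY hYX hXZ hZX hYZ hZY ha hb hXp (le_of_eq hsp.symm)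
    (fun i j => if i = j then 1 else 0)
  have h2 : (fun i : Fin 3 => (if i = 0 then (1 : k) else 0) • X +
      (if i = 1 then (1 : k) else 0) • Y + (if i = 2 then (1 : k) else 0) • Z) = ![X, Y, Z] := by
    funext i
    fin_cases i <;> simp
  rw [h2] at h1
  exact cl_of_adj hmem h1

end Pool.Agent.Lib.D9
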