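import Pool.Agent.Lib.D9.BlkRank
import Pool.Agent.Lib.D9.BlkShape

/-!
# MP_5dcbc3_ag: types `(3, 2^u, 1^p)` with `b = b' = 0`
-/

namespace Pool.Agent.Lib.D9

open Matrix Pool.Agent.Lib.Q5dc Pool.Agent.Lib.D7

namespace E1bAux

section

variable {k : Type*} [Field k] {e u p : ℕ}
  (N M : Matrix (Fin e) (Fin e) k) (a c : Matrix (Fin u) (Fin e) k)
  (w : Matrix (Fin p) (Fin e) k) (b d : Matrix (Fin e) (Fin u) k)
  (nu : Matrix (Fin u) (Fin u) k) (pi : Matrix (Fin p) (Fin u) k)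
  (th : Matrix (Fin e) (Fin p) k) (et : Matrix (Fin u) (Fin p) k)
  (a' c' : Matrix (Fin u) (Fin e) k)
  (w' : Matrix (Fin p) (Fin e) k) (d' : Matrix (Fin e) (Fin u) k)
  (nu' : Matrix (Fin u) (Fin u) k) (pi' : Matrix (Fin p) (Fin u) k)
  (th' : Matrix (Fin e) (Fin p) k) (et' : Matrix (Fin u) (Fin p) k)
  (κ κ' : Matrix (Fin p) (Fin p) k) (s : k)

theorem KX_mul_BX : KX e u κ * BX N M a c w b d nu pi th et =
    BX 0 0 0 0 (κ * w) 0 0 0 (κ * pi) 0 0 := by
  ext i j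
  rcases i with (i | i | i) | ((i | i) | i) <;> rcases j with (j | j | j) | ((j | j) | j) <;>
    simp [KX, BX, Matrix.mul_apply, Fintype.sum_sum_type]

theorem BX_mul_KX : BX N M a c w b d nu pi th et * KX e u κ =
    BX 0 0 0 0 0 0 0 0 0 (th * κ) (et * κ) := by
  ext i j
  rcases i with (i | i | i) | ((i | i) | i) <;> rcases j with (j | j | j) | ((j | j) | j) <;>
    simp [KX, BX, Matrix.mul_apply, Fintype.sum_sum_type]

theorem KX_mul_KX : KX e u κ * KX e u κ' = KX e u (κ * κ') := by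
  ext i j
  rcases i with (i | i | i) | ((i | i) | i) <;> rcases j with (j | j | j) | ((j | j) | j) <;>
    simp [KX, Matrix.mul_apply, Fintype.sum_sum_type]

theorem KX_smul : s • KX e u κ = KX e u (s • κ) := by
  ext i j
  rcases i with (i | i | i) | ((i | i) | i) <;> rcases j with (j | j | j) | ((j | j) | j) <;>
    simp [KX]

theorem KX_zero : KX e u (0 : Matrix (Fin p) (Fin p) k) = 0 := by
  ext i j
  rcases i with (i | i | i) | ((i | i) | i) <;> rcases j with (j | j | j) | ((j | j) | j) <;>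
    simp [KX]

theorem lin_eq : BX 0 0 a c w 0 d nu pi th et + s • BX 0 0 a' c' w' 0 d' nu' pi' th' et' =
    BX 0 0 (a + s • a') (c + s • c') (w + s • w') 0 (d + s • d') (nu + s • nu') (pi + s • pi')
      (th + s • th') (et + s • et') := by
  rw [BX_smul, BX_add]
  simp

theorem nil_add {n : Type*} [Fintype n] [DecidableEq n] {X K : Matrix n n k} (hX : IsNilpotent X)
    (h1 : X * K = 0) (h2 : K * K = 0) : IsNilpotent (X + K) := by
  obtain ⟨m, hm⟩ := hX
  have key : ∀ j : ℕ, (X + K) ^ (j + 1) = (X + K) * X ^ j := by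
    intro j
    induction j with
    | zero => simp
    | succ j ih =>
      rw [pow_succ', ih, ← Matrix.mul_assoc, pow_succ' X j, ← Matrix.mul_assoc]
      congr 1
      rw [Matrix.mul_add, Matrix.add_mul X K K, h1, h2]
      simp
  exact ⟨m + 1, by rw [key, hm, Matrix.mul_zero]⟩

theorem fin_line {m n : Type*} {A A' : Matrix m n k} (h : ¬ (A = 0 ∧ A' = 0)) :
    {y : k | A + y • A' = 0}.Finite := by
  refine Set.Subsingleton.finite ?_
  intro y hy z hz
  by_contra hne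
  have hy' : A + y • A' = 0 := hy
  have hz' : A + z • A' = 0 := hz
  have h1 : (y - z) • A' = 0 := by
    have h2 : (y - z) • A' = (A + y • A') - (A + z • A') := by module
    rw [h2, hy', hz', sub_zero]
  have h3 : A' = 0 := (smul_eq_zero.1 h1).resolve_left (sub_ne_zero.2 hne)
  rw [h3, smul_zero, add_zero] at hy'
  exact h ⟨hy', h3⟩

theorem exists_entry {m n : Type*} {A : Matrix m n k} (h : A ≠ 0) : ∃ i j, A i j ≠ 0 := by
  by_contra hc
  push Not at hc
  exact h (by ext i j; exact hc i j)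

end

variable {k : Type*} [Field k] [CharZero k] {u p : ℕ} {ρ : ℕ → ℕ}
  {a c a' c' : Matrix (Fin u) (Fin 1) k}
  {w w' : Matrix (Fin p) (Fin 1) k} {d d' : Matrix (Fin 1) (Fin u) k}
  {nu nu' : Matrix (Fin u) (Fin u) k} {pi pi' : Matrix (Fin p) (Fin u) k}
  {th th' : Matrix (Fin 1) (Fin p) k} {et et' : Matrix (Fin u) (Fin p) k}

/-- the elements `B + s C` -/
theorem mem_lin (s : k) : BX 0 0 (a + s • a') (c + s • c') (w + s • w') 0 (d + s • d')
    (nu + s • nu') (pi + s • pi') (th + s • th') (et + s • et') ∈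
    adj ![JX k 1 u p, BX 0 0 a c w 0 d nu pi th et, BX 0 0 a' c' w' 0 d' nu' pi' th' et'] := by
  rw [← lin_eq]
  exact add_mem (D8.mem1 _ _ _) (SMulMemClass.smul_mem s (D8.mem2 _ _ _))

/-- products with `et` vanish -/
theorem prod_et (h2 : ρ 2 ≤ 1)
    (hT : MaxR ρ ![JX k 1 u p, BX 0 0 a c w 0 d nu pi th et,
      BX 0 0 a' c' w' 0 d' nu' pi' th' et']) :
    et * pi = 0 ∧ et * pi' = 0 ∧ et' * pi = 0 ∧ et' * pi' = 0 := by
  have hA := D8.mem0 (JX k 1 u p) (BX 0 0 a c w 0 d nu pi th et)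
    (BX 0 0 a' c' w' 0 d' nu' pi' th' et')
  have e1 : et * pi = 0 := by
    have h := R1X hT h2 hA (D8.mem1 _ _ _)
    simpa using h
  have e2 : et' * pi' = 0 := by
    have h := R1X hT h2 hA (D8.mem2 _ _ _)
    simpa using h
  have e3 : (et + (1 : k) • et') * (pi + (1 : k) • pi') = 0 := by
    have h := R1X hT h2 hA (mem_lin 1)
    simpa using h
  have e4 := ((BX_comm ..).1 (hT.cn.1 1 2)).2.2.2.2.2.1
  simp only [Matrix.mul_zero, zero_add] at e4
  rw [one_smul, one_smul, Matrix.add_mul, Matrix.mul_add, Matrix.mul_add, e1, e2, e4, zero_add,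
    add_zero, ← two_smul k] at e3
  have e5 : et' * pi = 0 := (smul_eq_zero.1 e3).resolve_left two_ne_zero
  exact ⟨e1, e4.trans e5, e5, e2⟩

/-- products with `th` vanish -/
theorem prod_th (h2 : ρ 2 ≤ 1)
    (hT : MaxR ρ ![JX k 1 u p, BX 0 0 a c w 0 d nu pi th et,
      BX 0 0 a' c' w' 0 d' nu' pi' th' et']) (ha : a' ≠ 0) :
    th * pi = 0 ∧ th * pi' = 0 ∧ th' * pi = 0 ∧ th' * pi' = 0 := by
  have hinf : Infinite k := inferInstance
  have hA := D8.mem0 (JX k 1 u p) (BX 0 0 a c w 0 d nu pi th et)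
    (BX 0 0 a' c' w' 0 d' nu' pi' th' et')
  have key : ∀ (x : Matrix (Fin u) (Fin 1) k) (y : Matrix (Fin 1) (Fin u) k), x * y = 0 → x ≠ 0 →
      y = 0 := by
    intro x y hxy hx
    obtain ⟨i, j, hij⟩ := exists_entry hx
    have hj : j = 0 := Subsingleton.elim _ _
    subst hj
    ext r l
    have hr : r = 0 := Subsingleton.elim _ _
    subst hr
    have h := congrFun (congrFun hxy i) l
    rw [Matrix.mul_apply, Fin.sum_univ_one] at h
    exact (mul_eq_zero.1 h).resolve_left hij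
  have e2 : th' * pi' = 0 := by
    have h := R4X hT h2 hA (D8.mem2 _ _ _)
    simp only [Matrix.zero_mul, Matrix.mul_zero, zero_add, add_zero] at h
    exact key _ _ h ha
  have e3 : ∀ s : k, a + s • a' ≠ 0 → th * pi + s • (th * pi' + th' * pi) = 0 := by
    intro s hs
    have h := R4X hT h2 hA (mem_lin s)
    simp only [Matrix.zero_mul, Matrix.mul_zero, zero_add, add_zero] at h
    have h' := key _ _ h hs
    rw [Matrix.add_mul, Matrix.mul_add, Matrix.mul_add, Matrix.smul_mul, Matrix.mul_smul,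
      Matrix.smul_mul, Matrix.mul_smul, e2] at h'
    rw [← h']
    module
  have hfin : {s : k | a + s • a' = 0}.Finite := fin_line fun h => ha h.2
  have e4 : th * pi = 0 ∧ th * pi' + th' * pi = 0 := by
    by_contra hne
    obtain ⟨s, hs⟩ := (hfin.union (fin_line hne)).infinite_compl.nonempty
    rw [Set.mem_compl_iff, Set.mem_union, not_or] at hs
    exact hs.2 (e3 s hs.1)
  have e5 := ((BX_comm ..).1 (hT.cn.1 1 2)).2.2.2.2.1
  simp only [Matrix.mul_zero, Matrix.zero_mul, zero_add] at e5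
  have e6 : th' * pi = 0 := by
    have h := e4.2
    rw [e5, ← two_smul k] at h
    exact (smul_eq_zero.1 h).resolve_left two_ne_zero
  exact ⟨e4.1, e5.trans e6, e6, e2⟩

/-- the second part of the proof -/
theorem main2 (h1 : ρ 1 ≤ 2 + u)
    (hT : MaxR ρ ![JX k 1 u p, BX 0 0 a c w 0 d nu pi th et,
      BX 0 0 a' c' w' 0 d' nu' pi' th' et']) (ha : a' ≠ 0)
    {p1 : Matrix (Fin p) (Fin 1) k} {ψ : Matrix (Fin 1) (Fin p) k}
    (g1 : th * p1 = 0) (g2 : et * p1 = 0) (g3 : th' * p1 = 0) (g4 : et' * p1 = 0)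
    (g5 : ψ * pi = 0) (g6 : ψ * pi' = 0) (g7 : ψ * p1 = 0) (hp : p1 ≠ 0) (hψ : ψ ≠ 0) : False := by
  have hinf : Infinite k := inferInstance
  obtain ⟨i0, j0, hij⟩ := exists_entry ha
  have hj : j0 = 0 := Subsingleton.elim _ _
  subst hj
  set φ : Matrix (Fin 1) (Fin u) k := Matrix.of fun _ j => if j = i0 then (a' i0 0)⁻¹ else 0
    with hφ
  have hφ1 : φ * a' = 1 := by
    ext x y
    have hx : x = 0 := Subsingleton.elim _ _
    have hy : y = 0 := Subsingleton.elim _ _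
    subst hx hy
    rw [Matrix.mul_apply]
    simp [hφ, hij]
  obtain ⟨b1, b2, b3, b4, b5, b6, b7⟩ := (BX_comm ..).1 (hT.cn.1 1 2)
  set δ : Matrix (Fin p) (Fin u) k := -(p1 * (ψ * w' * φ)) with hδ
  have dw : δ * a' + p1 * ψ * w' = 0 := by
    rw [hδ, Matrix.neg_mul, Matrix.mul_assoc, Matrix.mul_assoc (ψ * w'), hφ1, Matrix.mul_one,
      Matrix.mul_assoc p1 ψ w', neg_add_cancel]
  have t1 : th' * δ = 0 := by
    rw [hδ, Matrix.mul_neg, ← Matrix.mul_assoc, g3, Matrix.zero_mul, neg_zero]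
  have t2 : et' * δ = 0 := by
    rw [hδ, Matrix.mul_neg, ← Matrix.mul_assoc, g4, Matrix.zero_mul, neg_zero]
  set B' : Matrix (Ix 1 u p) (Ix 1 u p) k := BX 0 0 0 0 0 0 0 0 δ 0 0 + KX 1 u (p1 * ψ) with hB'
  have hBs : ∀ s : k, BX 0 0 a c w 0 d nu pi th et + s • B' =
      BX 0 0 a c w 0 d nu (pi + s • δ) th et + KX 1 u (s • (p1 * ψ)) := by
    intro s
    rw [hB', smul_add, ← add_assoc, lin_eq, KX_smul]
    simp
  have hcomm : ∀ s : k, (BX 0 0 a c w 0 d nu (pi + s • δ) th et + KX 1 u (s • (p1 * ψ))) *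
      BX 0 0 a' c' w' 0 d' nu' pi' th' et' = BX 0 0 a' c' w' 0 d' nu' pi' th' et' *
      (BX 0 0 a c w 0 d nu (pi + s • δ) th et + KX 1 u (s • (p1 * ψ))) := by
    intro s
    rw [Matrix.add_mul, Matrix.mul_add, KX_mul_BX, BX_mul_KX, BX_mul, BX_mul, BX_add, BX_add,
      BX_inj]
    have k1 : (s • (p1 * ψ)) * pi' = 0 := by
      rw [Matrix.smul_mul, Matrix.mul_assoc, g6, Matrix.mul_zero, smul_zero]
    have k2 : th' * (s • (p1 * ψ)) = 0 := by
      rw [Matrix.mul_smul, ← Matrix.mul_assoc, g3, Matrix.zero_mul, smul_zero]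
    have k3 : et' * (s • (p1 * ψ)) = 0 := by
      rw [Matrix.mul_smul, ← Matrix.mul_assoc, g4, Matrix.zero_mul, smul_zero]
    have k4 : (pi + s • δ) * a' + (s • (p1 * ψ)) * w' = pi' * a := by
      rw [Matrix.add_mul, Matrix.smul_mul, Matrix.smul_mul, add_assoc, ← smul_add, dw, smul_zero,
        add_zero, b4]
    have k5 : th' * (pi + s • δ) = th' * pi := by
      rw [Matrix.mul_add, Matrix.mul_smul, t1, smul_zero, add_zero]
    have k6 : et' * (pi + s • δ) = et' * pi := by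
      rw [Matrix.mul_add, Matrix.mul_smul, t2, smul_zero, add_zero]
    simp only [Matrix.mul_zero, Matrix.zero_mul, zero_add, add_zero] at b2 b3 b5 b6 ⊢
    refine ⟨trivial, b2, trivial, b3, k4, trivial, ?_, ?_, k1, ?_, ?_⟩
    · rw [k5]; exact b5
    · rw [k6]; exact b6
    · rw [k2]
    · rw [k3]
  have hnil : ∀ s : k, IsNilpotent
      (BX 0 0 a c w 0 d nu (pi + s • δ) th et + KX 1 u (s • (p1 * ψ))) := by
    intro s
    refine nil_add (BX_nil ..) ?_ ?_
    · rw [BX_mul_KX, Matrix.mul_smul, Matrix.mul_smul, ← Matrix.mul_assoc, ← Matrix.mul_assoc, g1,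
        g2]
      simp [BX_zero]
    · rw [KX_mul_KX, Matrix.smul_mul, Matrix.mul_smul, Matrix.mul_assoc, ← Matrix.mul_assoc ψ, g7]
      simp [KX_zero]
  obtain ⟨s, hs, hTs⟩ := D8.MaxR.line2 hT B' 0 (fun s => by
    rw [smul_zero, add_zero, hBs]
    refine D8.cn3 ?_ (JX_comm ..) (hcomm s) JX_nil (hnil s) (BX_nil ..)
    rw [Matrix.mul_add, Matrix.add_mul, JX_comm]
    congr 1
    rw [JX, BX_mul_KX, KX_mul_BX]
    simp) (Set.finite_singleton (0 : k))
  rw [smul_zero, add_zero, hBs] at hTs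
  have h5 := kap0 hTs (by omega) (D8.mem0 _ _ _) (D8.mem1 _ _ _)
  have h6 : p1 * ψ = 0 := (smul_eq_zero.1 h5).resolve_left hs
  obtain ⟨i, x, hi⟩ := exists_entry hp
  obtain ⟨y, j, hj⟩ := exists_entry hψ
  have hx : x = 0 := Subsingleton.elim _ _
  have hy : y = 0 := Subsingleton.elim _ _
  subst hx hy
  have h7 := congrFun (congrFun h6 i) j
  rw [Matrix.mul_apply, Fin.sum_univ_one] at h7
  exact (mul_ne_zero hi hj) h7

theorem exists_col {m n : ℕ} {A : Matrix (Fin m) (Fin n) k} (h : A ≠ 0) :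
    ∃ E : Matrix (Fin n) (Fin 1) k, A * E ≠ 0 := by
  obtain ⟨i, j, hij⟩ := exists_entry h
  refine ⟨Matrix.of fun x _ => if x = j then 1 else 0, fun h0 => hij ?_⟩
  have h1 := congrFun (congrFun h0 i) 0
  rw [Matrix.mul_apply] at h1
  simpa using h1

theorem exists_row {m n : ℕ} {A : Matrix (Fin m) (Fin n) k} (h : A ≠ 0) :
    ∃ E : Matrix (Fin 1) (Fin m) k, E * A ≠ 0 := by
  obtain ⟨i, j, hij⟩ := exists_entry h
  refine ⟨Matrix.of fun _ x => if x = i then 1 else 0, fun h0 => hij ?_⟩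
  have h1 := congrFun (congrFun h0 0) j
  rw [Matrix.mul_apply] at h1
  simpa using h1

theorem exists_p1 (h : ¬ (pi = 0 ∧ pi' = 0)) : ∃ p1 : Matrix (Fin p) (Fin 1) k, p1 ≠ 0 ∧
    ∀ {m : ℕ} (R : Matrix (Fin m) (Fin p) k), R * pi = 0 → R * pi' = 0 → R * p1 = 0 := by
  by_cases h1 : pi = 0
  · obtain ⟨E, hE⟩ := exists_col (fun h2 => h ⟨h1, h2⟩ : pi' ≠ 0)
    exact ⟨_, hE, fun R _ h3 => by rw [← Matrix.mul_assoc, h3, Matrix.zero_mul]⟩
  · obtain ⟨E, hE⟩ := exists_col h1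
    exact ⟨_, hE, fun R h3 _ => by rw [← Matrix.mul_assoc, h3, Matrix.zero_mul]⟩

theorem exists_psi (h : ¬ (th = 0 ∧ th' = 0 ∧ et = 0 ∧ et' = 0)) :
    ∃ ψ : Matrix (Fin 1) (Fin p) k, ψ ≠ 0 ∧
    ∀ {m : ℕ} (R : Matrix (Fin p) (Fin m) k), th * R = 0 → th' * R = 0 → et * R = 0 →
      et' * R = 0 → ψ * R = 0 := by
  by_cases h1 : th = 0
  · by_cases h2 : th' = 0
    · by_cases h3 : et = 0
      · obtain ⟨E, hE⟩ := exists_row (fun h4 => h ⟨h1, h2, h3, h4⟩ : et' ≠ 0)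
        exact ⟨_, hE, fun R _ _ _ h5 => by rw [Matrix.mul_assoc, h5, Matrix.mul_zero]⟩
      · obtain ⟨E, hE⟩ := exists_row h3
        exact ⟨_, hE, fun R _ _ h5 _ => by rw [Matrix.mul_assoc, h5, Matrix.mul_zero]⟩
    · exact ⟨th', h2, fun R _ h5 _ _ => h5⟩
  · exact ⟨th, h1, fun R h5 _ _ _ => h5⟩

theorem core (h1 : ρ 1 ≤ 2 + u) (h2 : ρ 2 ≤ 1)
    (hT : MaxR ρ ![JX k 1 u p, BX 0 0 a c w 0 d nu pi th et,
      BX 0 0 a' c' w' 0 d' nu' pi' th' et']) (ha : a' ≠ 0) :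
    (pi = 0 ∧ pi' = 0) ∨ (th = 0 ∧ th' = 0 ∧ et = 0 ∧ et' = 0) := by
  by_contra hc
  rw [not_or] at hc
  obtain ⟨p1, hp, hp1⟩ := exists_p1 hc.1
  obtain ⟨ψ, hψ, hψ1⟩ := exists_psi hc.2
  obtain ⟨q1, q2, q3, q4⟩ := prod_et h2 hT
  obtain ⟨r1, r2, r3, r4⟩ := prod_th h2 hT ha
  have g5 := hψ1 pi r1 r3 q1 q3
  have g6 := hψ1 pi' r2 r4 q2 q4
  exact main2 h1 hT ha (hp1 th r1 r2) (hp1 et q1 q2) (hp1 th' r3 r4) (hp1 et' q3 q4) g5 g6
    (hp1 ψ g5 g6) hp hψ

end E1bAux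

open E1bAux

variable {k : Type*} [Field k] [CharZero k] {u p : ℕ} {ρ : ℕ → ℕ}
  {a c a' c' : Matrix (Fin u) (Fin 1) k}
  {w w' : Matrix (Fin p) (Fin 1) k} {d d' : Matrix (Fin 1) (Fin u) k}
  {nu nu' : Matrix (Fin u) (Fin u) k} {pi pi' : Matrix (Fin p) (Fin u) k}
  {th th' : Matrix (Fin 1) (Fin p) k} {et et' : Matrix (Fin u) (Fin p) k}

theorem caseA1 (h1 : ρ 1 ≤ 2 + u) (h2 : ρ 2 ≤ 1)
    (hT : MaxR ρ ![JX k 1 u p, BX 0 0 a c w 0 d nu pi th et,
      BX 0 0 a' c' w' 0 d' nu' pi' th' et']) (ha : a ≠ 0 ∨ a' ≠ 0) :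
    (pi = 0 ∧ pi' = 0) ∨ (th = 0 ∧ th' = 0 ∧ et = 0 ∧ et' = 0) := by
  rcases ha with ha | ha
  · rcases core h1 h2 (D8.MaxR.swap hT) ha with ⟨g1, g2⟩ | ⟨g1, g2, g3, g4⟩
    · exact Or.inl ⟨g2, g1⟩
    · exact Or.inr ⟨g2, g1, g4, g3⟩
  · exact core h1 h2 hT ha

theorem case01 (h1 : ρ 1 ≤ 2 + u)
    (hT : MaxR ρ ![JX k 1 u p, BX 0 0 0 c w 0 d nu pi th et,
      BX 0 0 0 c' w' 0 d' nu' pi' th' et']) :
    (pi = 0 ∧ pi' = 0) ∨ (et = 0 ∧ et' = 0) := by
  have hinf : Infinite k := inferInstance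
  have h1' : ρ 1 ≤ 2 * 1 + u := by omega
  have key : ∀ (s : k) (D : Matrix (Fin u) (Fin u) k), (pi + s • pi') * D * (et + s • et') = 0 := by
    intro s D
    have g0 := R3X hT h1' (D8.mem0 _ _ _) (mem_lin s)
    simp only [smul_zero, add_zero, Matrix.mul_zero, Matrix.zero_mul, zero_add] at g0
    obtain ⟨b1, b2, b3, b4, b5, b6, b7⟩ := (BX_comm ..).1 (hT.cn.1 1 2)
    have hB : ∀ t : k, BX 0 0 0 c w 0 d nu pi th et +
        t • (BX 0 0 0 0 0 0 0 D 0 0 0 : Matrix (Ix 1 u p) (Ix 1 u p) k) =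
        BX 0 0 0 c w 0 d (nu + t • D) pi th et := by
      intro t
      rw [lin_eq]
      simp
    obtain ⟨t, ht, hTs⟩ := D8.MaxR.line2 hT (BX 0 0 0 0 0 0 0 D 0 0 0) 0 (fun t => by
      rw [smul_zero, add_zero, hB]
      refine cnX _ _ _ _ _ _ _ _ _ _ _ _ _ _ _ _ _ _ _ _ _ _ b1 b2 ?_ b4 ?_ b6 b7
      · simpa using b3
      · simpa using b5) (Set.finite_singleton (0 : k))
    rw [smul_zero, add_zero, hB] at hTs
    have g1 := R3X hTs h1' (D8.mem0 _ _ _) (mem_lin s)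
    simp only [smul_zero, add_zero, Matrix.mul_zero, Matrix.zero_mul, zero_add] at g1
    have g2 : t • ((pi + s • pi') * D * (et + s • et')) = 0 := by
      have g3 : t • ((pi + s • pi') * D * (et + s • et')) =
          (pi + s • pi') * (nu + t • D + s • nu') * (et + s • et') -
            (pi + s • pi') * (nu + s • nu') * (et + s • et') := by
        rw [← Matrix.sub_mul, ← Matrix.mul_sub, ← Matrix.smul_mul, ← Matrix.mul_smul]
        congr 2
        abel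
      rw [g3, g0, g1, sub_zero]
    exact (smul_eq_zero.1 g2).resolve_left ht
  by_contra hc
  rw [not_or] at hc
  obtain ⟨s, hs⟩ := ((fin_line hc.1).union (fin_line hc.2)).infinite_compl.nonempty
  rw [Set.mem_compl_iff, Set.mem_union, not_or] at hs
  obtain ⟨x, i, hi⟩ := exists_entry hs.1
  obtain ⟨j, y, hj⟩ := exists_entry hs.2
  have h3 := congrFun (congrFun (key s (Matrix.of fun i' j' => if i' = i ∧ j' = j then 1 else 0)) x) y
  have h4 : ((pi + s • pi') * (Matrix.of fun i' j' => if i' = i ∧ j' = j then (1 : k) else 0) *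
      (et + s • et')) x y = (pi + s • pi') x i * (et + s • et') j y := by
    rw [Matrix.mul_apply, Finset.sum_eq_single j]
    · congr 1
      rw [Matrix.mul_apply, Finset.sum_eq_single i]
      · simp
      · intro b _ hb
        simp [hb]
      · simp
    · intro b _ hb
      rw [Matrix.mul_apply, Finset.sum_eq_zero, zero_mul]
      intro b' _
      simp [hb]
    · simp
  rw [h4] at h3
  exact (mul_ne_zero hi hj) h3

end Pool.Agent.Lib.D9
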