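import Pool.Agent.Lib.D9.Blk
import Pool.Agent.Lib.D9.Defs

/-!
# MP_5dcbc3_ag: transfer between `Fin 9` and the block index types

A bijection of the index types carries maximal bad triples to maximal bad triples; it is applied to
the bijections which carry the Jordan matrices of types `(3,2,2,2)`, `(3,2,2,1,1)`, `(3,3,2,1)`,
`(3,3,1,1,1)` and `(3,3,3)` to the block matrices `JX`.
-/

namespace Pool.Agent.Lib.D9

open Matrix Pool.Agent.Lib.Q5dc Pool.Agent.Lib.D7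

variable {k : Type*} [Field k] {ρ : ℕ → ℕ}

namespace BlkMapAux

theorem rank_reindexAlgEquiv {n m : Type*} [Fintype n] [DecidableEq n] [Fintype m]
    [DecidableEq m] (f : n ≃ m) (M : Matrix n n k) :
    (Matrix.reindexAlgEquiv k k f M).rank = M.rank :=
  Matrix.rank_reindex f f M

theorem rks_reindex {n m : Type*} [Fintype n] [DecidableEq n] [Fintype m]
    [DecidableEq m] (f : n ≃ m) (M : Matrix n n k) :
    rks (Matrix.reindexAlgEquiv k k f M) = rks M := by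
  unfold rks
  rw [Fintype.card_congr f]
  refine Finset.sum_congr rfl fun i _ => ?_
  rw [← map_pow, rank_reindexAlgEquiv]

theorem cn_reindex {n m : Type*} [Fintype n] [DecidableEq n] [Fintype m]
    [DecidableEq m] (f : n ≃ m) {T : Fin 3 → Matrix n n k} (hT : CN T) :
    CN fun i => Matrix.reindexAlgEquiv k k f (T i) := by
  refine ⟨fun i j => ?_, fun i => (hT.2 i).map (Matrix.reindexAlgEquiv k k f)⟩
  show Matrix.reindexAlgEquiv k k f (T i) * Matrix.reindexAlgEquiv k k f (T j) =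
    Matrix.reindexAlgEquiv k k f (T j) * Matrix.reindexAlgEquiv k k f (T i)
  rw [← map_mul, hT.1 i j, map_mul]

theorem adj_reindex {n m : Type*} [Fintype n] [DecidableEq n] [Fintype m]
    [DecidableEq m] (f : n ≃ m) {T : Fin 3 → Matrix n n k} {M : Matrix n n k}
    (hM : M ∈ adj T) :
    Matrix.reindexAlgEquiv k k f M ∈ adj fun i => Matrix.reindexAlgEquiv k k f (T i) :=
  mem_adj_map (((Matrix.reindexAlgEquiv k k f : Matrix n n k ≃ₐ[k] Matrix m m k) :
    Matrix n n k →ₐ[k] Matrix m m k) : Matrix n n k →ₙₐ[k] Matrix m m k) hM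

theorem reindex_symm {n m : Type*} [Fintype n] [DecidableEq n] [Fintype m]
    [DecidableEq m] (f : n ≃ m) (M : Matrix n n k) :
    Matrix.reindexAlgEquiv k k f.symm (Matrix.reindexAlgEquiv k k f M) = M := by
  ext x y
  simp

theorem cl_reindex {n m : Type*} [Fintype n] [DecidableEq n] [Fintype m]
    [DecidableEq m] (f : n ≃ m) {T : Fin 3 → Matrix n n k}
    (h : Cl fun i => Matrix.reindexAlgEquiv k k f (T i)) : Cl T := by
  have h1 := Cl.mapEquiv (Matrix.reindexAlgEquiv k k f.symm) (Fintype.card_congr f.symm) h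
  have h2 : (fun i => Matrix.reindexAlgEquiv k k f.symm (Matrix.reindexAlgEquiv k k f (T i)))
      = T := by
    funext i
    exact reindex_symm f (T i)
  rwa [h2] at h1

end BlkMapAux

open BlkMapAux

theorem MaxR.reindex [Infinite k] {n m : Type*} [Fintype n] [DecidableEq n] [Fintype m]
    [DecidableEq m] (f : n ≃ m) {T : Fin 3 → Matrix n n k} (hT : MaxR ρ T) :
    MaxR ρ fun i => Matrix.reindexAlgEquiv k k f (T i) := by
  refine ⟨cn_reindex f hT.cn, fun h => hT.ncl (cl_reindex f h), ?_, ?_⟩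
  · obtain ⟨A, hA, hr⟩ := hT.att
    refine ⟨Matrix.reindexAlgEquiv k k f A, adj_reindex f hA, fun i => ?_⟩
    rw [← map_pow, rank_reindexAlgEquiv, hr]
  · intro T' hc hn M hM
    have h1 := hT.max (fun i => Matrix.reindexAlgEquiv k k f.symm (T' i)) (cn_reindex f.symm hc)
      (fun h => hn (cl_reindex f.symm h)) (Matrix.reindexAlgEquiv k k f.symm M)
      (adj_reindex f.symm hM)
    rw [rks_reindex, Fintype.card_congr f] at h1
    exact h1

namespace BlkMapAux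

/-- transfer along a bijection carrying the Jordan matrix to the block matrix -/
theorem toX [Infinite k] {e u p : ℕ} (f : Fin 9 ≃ Ix e u p) {J : Matrix (Fin 9) (Fin 9) k}
    (hJ : ∀ i j, J i j = JX k e u p (f i) (f j))
    {T : Fin 3 → Matrix (Fin 9) (Fin 9) k} (hT : MaxR ρ T)
    (hρ : ∀ i, ρ i = (J ^ i).rank) (h0 : T 0 = J) :
    (∀ i, ρ i = (JX k e u p ^ i).rank) ∧
      ∃ T' : Fin 3 → Matrix (Ix e u p) (Ix e u p) k, MaxR ρ T' ∧ T' 0 = JX k e u p := by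
  have h1 : Matrix.reindexAlgEquiv k k f J = JX k e u p := by
    ext x y
    have h2 := hJ (f.symm x) (f.symm y)
    rw [Equiv.apply_symm_apply, Equiv.apply_symm_apply] at h2
    rw [← h2]
    simp
  refine ⟨fun i => ?_, fun i => Matrix.reindexAlgEquiv k k f (T i), MaxR.reindex f hT, ?_⟩
  · rw [hρ, ← h1, ← map_pow, rank_reindexAlgEquiv]
  · show Matrix.reindexAlgEquiv k k f (T 0) = _
    rw [h0, h1]

/-- the bijection for `3222` -/
def f3222 : Fin 9 ≃ Ix 1 3 0 where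
  toFun := ![.inl (.inl 0),
    .inl (.inr (.inl 0)),
    .inl (.inr (.inr 0)),
    .inr (.inl (.inl 0)),
    .inr (.inl (.inr 0)),
    .inr (.inl (.inl 1)),
    .inr (.inl (.inr 1)),
    .inr (.inl (.inl 2)),
    .inr (.inl (.inr 2))]
  invFun := Sum.elim (Sum.elim ![0] (Sum.elim ![1] ![2]))
    (Sum.elim (Sum.elim ![3, 5, 7] ![4, 6, 8]) Fin.elim0)
  left_inv := by decide
  right_inv := by decide

theorem hJ3222 : ∀ i j, J3222 k i j = JX k 1 3 0 (f3222 i) (f3222 j) := by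
  intro i j
  fin_cases i <;> fin_cases j <;> rfl

/-- the bijection for `32211` -/
def f32211 : Fin 9 ≃ Ix 1 2 2 where
  toFun := ![.inl (.inl 0),
    .inl (.inr (.inl 0)),
    .inl (.inr (.inr 0)),
    .inr (.inl (.inl 0)),
    .inr (.inl (.inr 0)),
    .inr (.inl (.inl 1)),
    .inr (.inl (.inr 1)),
    .inr (.inr 0),
    .inr (.inr 1)]
  invFun := Sum.elim (Sum.elim ![0] (Sum.elim ![1] ![2]))
    (Sum.elim (Sum.elim ![3, 5] ![4, 6]) ![7, 8])
  left_inv := by decide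
  right_inv := by decide

theorem hJ32211 : ∀ i j, J32211 k i j = JX k 1 2 2 (f32211 i) (f32211 j) := by
  intro i j
  fin_cases i <;> fin_cases j <;> rfl

/-- the bijection for `3321` -/
def f3321 : Fin 9 ≃ Ix 2 1 1 where
  toFun := ![.inl (.inl 0),
    .inl (.inr (.inl 0)),
    .inl (.inr (.inr 0)),
    .inl (.inl 1),
    .inl (.inr (.inl 1)),
    .inl (.inr (.inr 1)),
    .inr (.inl (.inl 0)),
    .inr (.inl (.inr 0)),
    .inr (.inr 0)]
  invFun := Sum.elim (Sum.elim ![0, 3] (Sum.elim ![1, 4] ![2, 5]))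
    (Sum.elim (Sum.elim ![6] ![7]) ![8])
  left_inv := by decide
  right_inv := by decide

theorem hJ3321 : ∀ i j, J3321 k i j = JX k 2 1 1 (f3321 i) (f3321 j) := by
  intro i j
  fin_cases i <;> fin_cases j <;> rfl

/-- the bijection for `33111` -/
def f33111 : Fin 9 ≃ Ix 2 0 3 where
  toFun := ![.inl (.inl 0),
    .inl (.inr (.inl 0)),
    .inl (.inr (.inr 0)),
    .inl (.inl 1),
    .inl (.inr (.inl 1)),
    .inl (.inr (.inr 1)),
    .inr (.inr 0),
    .inr (.inr 1),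
    .inr (.inr 2)]
  invFun := Sum.elim (Sum.elim ![0, 3] (Sum.elim ![1, 4] ![2, 5]))
    (Sum.elim (Sum.elim Fin.elim0 Fin.elim0) ![6, 7, 8])
  left_inv := by decide
  right_inv := by decide

theorem hJ33111 : ∀ i j, J33111 k i j = JX k 2 0 3 (f33111 i) (f33111 j) := by
  intro i j
  fin_cases i <;> fin_cases j <;> rfl

/-- the bijection for `333` -/
def f333 : Fin 9 ≃ Ix 3 0 0 where
  toFun := ![.inl (.inl 0),
    .inl (.inr (.inl 0)),
    .inl (.inr (.inr 0)),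
    .inl (.inl 1),
    .inl (.inr (.inl 1)),
    .inl (.inr (.inr 1)),
    .inl (.inl 2),
    .inl (.inr (.inl 2)),
    .inl (.inr (.inr 2))]
  invFun := Sum.elim (Sum.elim ![0, 3, 6] (Sum.elim ![1, 4, 7] ![2, 5, 8]))
    (Sum.elim (Sum.elim Fin.elim0 Fin.elim0) Fin.elim0)
  left_inv := by decide
  right_inv := by decide

theorem hJ333 : ∀ i j, J333 k i j = JX k 3 0 0 (f333 i) (f333 j) := by
  intro i j
  fin_cases i <;> fin_cases j <;> rfl

end BlkMapAux

theorem toX3222 [Infinite k] {T : Fin 3 → Matrix (Fin 9) (Fin 9) k} (hT : MaxR ρ T)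
    (hρ : ∀ i, ρ i = (J3222 k ^ i).rank) (h0 : T 0 = J3222 k) :
    (∀ i, ρ i = (JX k 1 3 0 ^ i).rank) ∧
      ∃ T' : Fin 3 → Matrix (Ix 1 3 0) (Ix 1 3 0) k, MaxR ρ T' ∧ T' 0 = JX k 1 3 0 :=
  toX f3222 hJ3222 hT hρ h0

theorem toX32211 [Infinite k] {T : Fin 3 → Matrix (Fin 9) (Fin 9) k} (hT : MaxR ρ T)
    (hρ : ∀ i, ρ i = (J32211 k ^ i).rank) (h0 : T 0 = J32211 k) :
    (∀ i, ρ i = (JX k 1 2 2 ^ i).rank) ∧
      ∃ T' : Fin 3 → Matrix (Ix 1 2 2) (Ix 1 2 2) k, MaxR ρ T' ∧ T' 0 = JX k 1 2 2 :=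
  toX f32211 hJ32211 hT hρ h0

theorem toX3321 [Infinite k] {T : Fin 3 → Matrix (Fin 9) (Fin 9) k} (hT : MaxR ρ T)
    (hρ : ∀ i, ρ i = (J3321 k ^ i).rank) (h0 : T 0 = J3321 k) :
    (∀ i, ρ i = (JX k 2 1 1 ^ i).rank) ∧
      ∃ T' : Fin 3 → Matrix (Ix 2 1 1) (Ix 2 1 1) k, MaxR ρ T' ∧ T' 0 = JX k 2 1 1 :=
  toX f3321 hJ3321 hT hρ h0

theorem toX33111 [Infinite k] {T : Fin 3 → Matrix (Fin 9) (Fin 9) k} (hT : MaxR ρ T)
    (hρ : ∀ i, ρ i = (J33111 k ^ i).rank) (h0 : T 0 = J33111 k) :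
    (∀ i, ρ i = (JX k 2 0 3 ^ i).rank) ∧
      ∃ T' : Fin 3 → Matrix (Ix 2 0 3) (Ix 2 0 3) k, MaxR ρ T' ∧ T' 0 = JX k 2 0 3 :=
  toX f33111 hJ33111 hT hρ h0

theorem toX333 [Infinite k] {T : Fin 3 → Matrix (Fin 9) (Fin 9) k} (hT : MaxR ρ T)
    (hρ : ∀ i, ρ i = (J333 k ^ i).rank) (h0 : T 0 = J333 k) :
    (∀ i, ρ i = (JX k 3 0 0 ^ i).rank) ∧
      ∃ T' : Fin 3 → Matrix (Ix 3 0 0) (Ix 3 0 0) k, MaxR ρ T' ∧ T' 0 = JX k 3 0 0 :=
  toX f333 hJ333 hT hρ h0

end Pool.Agent.Lib.D9
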