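import Pool.Agent.Lib.D9.Blk

/-!
# MP_5dcbc3_ag: families of graded commuting triples
-/

namespace Pool.Agent.Lib.D9

open Matrix

/-- numbering of the unordered pairs of indices -/
def ix (i j : Fin 3) : Fin 6 := ![![0, 1, 2], ![1, 3, 4], ![2, 4, 5]] i j

/-- the triple with `X_i v = e_i`, `X_i e_j = r (ix i j, .)`, `X_i q_l = g (i, l, .)`
(Hilbert function `(1, 3 + q, c)`) -/
def T1X {k : Type*} [Field k] (q c : ℕ) (r : Fin 6 × Fin c → k) (g : Fin 3 × Fin q × Fin c → k)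
    (i : Fin 3) : Matrix (Fin 1 ⊕ ((Fin 3 ⊕ Fin q) ⊕ Fin c)) (Fin 1 ⊕ ((Fin 3 ⊕ Fin q) ⊕ Fin c)) k :=
  Matrix.of fun x y => match x, y with
    | .inr (.inl (.inl j)), .inl _ => if j = i then 1 else 0
    | .inr (.inr m), .inr (.inl (.inl j)) => r (ix i j, m)
    | .inr (.inr m), .inr (.inl (.inr l)) => g (i, l, m)
    | _, _ => 0

/-- the triple with `X_i s = e_i`, `X_i t = e_(i+1)`, `X_i e_j = G (i + j, .)`
(`s, t`, `e_j = s^(3-j) t^j`, `X_i = s^(2-i) t^i`; Hilbert function `(2, 4, 3)`) -/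
def TG3 {k : Type*} [Field k] (G : Fin 6 × Fin 3 → k) (i : Fin 3) :
    Matrix (Fin 2 ⊕ (Fin 4 ⊕ Fin 3)) (Fin 2 ⊕ (Fin 4 ⊕ Fin 3)) k :=
  Matrix.of fun x y => match x, y with
    | .inr (.inl a), .inl b => if (a : ℕ) = (b : ℕ) + i then 1 else 0
    | .inr (.inr m), .inr (.inl j) => G (⟨(i : ℕ) + j, by omega⟩, m)
    | _, _ => 0

end Pool.Agent.Lib.D9
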