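import Pool.Agent.Lib.D9.FamsB

/-!
Module E1I (2.5h). e = 1, u, p arbitrary with u + p = q + 2; b = b' = 0, pi = pi' = 0; hypothesis hcl = density theorem for T1X.
PROOF. Dh := U_0 + P = k^u + k^p, ah = (a, w), ah' = (a', w') in Dh; G = [[d, th], [nu, et]] : Dh -> V3 := E_2 + U_1 = k^(1+u), G' the same for C. The only relation is G ah' = G' ah (BX_comm: relations 2, 3 with b = 0; all others are trivial). c, c' are free.
(1) If ah = ah' = 0: there is (x, x') <> 0 in Dh x Dh with G x' = G' x (1 + u equations, 2 (u + p) >= u + 2 unknowns, since u + p >= 2; exists nonzero kernel vector of a matrix with more columns than rows). Family ah = s x, ah' = s x': CN for all s. So WLOG ah <> 0 or ah' <> 0; MaxR.swap: ah' <> 0.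
(2) If ah, ah' are dependent choose x in Dh independent of ah' (dim Dh >= 2) and φ on Dh with φ(ah') = 1: family ah -> ah + s x, G -> G + s (G' x) φ: (G + s G'x φ) ah' = G ah' + s G' x = G' (ah + s x). CN for all s. So WLOG ah, ah' independent (s <> 0 and ah + s x independent of ah': all but at most one s).
(3) Basis of V: v0; A v0, B v0, C v0; q_1, .., q_q (vectors of Dh completing ah, ah' to a basis of Dh); a basis of V3: e.g. the standard basis of E_2 + U_1. [A v0 = E_1 vector, B v0 = ah + c (in V3), C v0 = ah' + c'.] In this basis (A, B, C) = T1X q (1 + u) r g with r (ix i j, .) = coordinates of X_i X_j v0 in V3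
(symmetric because the triple commutes: A (B v0) = A ah, B (A v0) = a_1 = A ah, B C v0 = C B v0, ..), g (i, l, .) = coordinates of X_i q_l. X_i maps V3 to 0 (b = 0) and X_i v0 = i-th basis vector. So Cl (A, B, C) by hcl, Cl.conj and Cl.mapEquiv (reindexAlgEquiv; the cardinalities agree: 3 + 2 u + p = 1 + (3 + q) + (u + 1)). Contradiction with hT.ncl.
(The map from k^(T1X index) to k^(Ix): Q = matrix with the basis as columns; X_i Q = Q T1X_i; Q is a product of invertible matrices / has an inverse. See D8/T3221a.lean (no_3221a) for the case u = 2, p = 1 done entrywise.)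
-/

namespace Pool.Agent.Lib.D9

open Matrix Pool.Agent.Lib.Q5dc Pool.Agent.Lib.D7

namespace E1IAux

variable {k : Type*} [Field k] {u p q : ℕ}

/-- the matrix with `v0 -> x + c`, `G : U_0 + P -> E_2 + U_1` -/
def BZ (x : Fin u ⊕ Fin p → k) (c : Fin u → k) (G : Matrix (Fin 1 ⊕ Fin u) (Fin u ⊕ Fin p) k) :
    Matrix (Ix 1 u p) (Ix 1 u p) k :=
  BX 0 0 (Matrix.of fun i _ => x (.inl i)) (Matrix.of fun i _ => c i)
    (Matrix.of fun i _ => x (.inr i)) 0
    (Matrix.of fun i j => G (.inl i) (.inl j)) (Matrix.of fun i j => G (.inr i) (.inl j)) 0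
    (Matrix.of fun i j => G (.inl i) (.inr j)) (Matrix.of fun i j => G (.inr i) (.inr j))

theorem BZ_eq (a c : Matrix (Fin u) (Fin 1) k) (w : Matrix (Fin p) (Fin 1) k)
    (d : Matrix (Fin 1) (Fin u) k) (nu : Matrix (Fin u) (Fin u) k) (th : Matrix (Fin 1) (Fin p) k)
    (et : Matrix (Fin u) (Fin p) k) :
    BX 0 0 a c w 0 d nu 0 th et =
      BZ (Sum.elim (fun i => a i 0) (fun i => w i 0)) (fun i => c i 0) (fromBlocks d th nu et) := by
  unfold BZ
  refine (BX_inj ..).2 ⟨rfl, rfl, ?_, ?_, ?_, rfl, rfl, rfl, rfl, rfl, rfl⟩ <;>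
  · ext i j
    obtain rfl : j = 0 := Subsingleton.elim _ _
    rfl

theorem BZ_line (x y : Fin u ⊕ Fin p → k) (c : Fin u → k)
    (G H : Matrix (Fin 1 ⊕ Fin u) (Fin u ⊕ Fin p) k) (s : k) :
    BZ x c G + s • BZ y 0 H = BZ (x + s • y) c (G + s • H) := by
  unfold BZ
  rw [BX_smul, BX_add, BX_inj]
  refine ⟨?_, ?_, ?_, ?_, ?_, ?_, ?_, ?_, ?_, ?_, ?_⟩ <;>
  · ext i j
    simp

theorem BZ_rel {x x' : Fin u ⊕ Fin p → k} {c c' : Fin u → k}
    {G G' : Matrix (Fin 1 ⊕ Fin u) (Fin u ⊕ Fin p) k} :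
    BZ x c G * BZ x' c' G' = BZ x' c' G' * BZ x c G ↔ G *ᵥ x' = G' *ᵥ x := by
  unfold BZ
  rw [BX_comm]
  constructor
  · rintro ⟨-, h2, h3, -⟩
    ext i
    rcases i with i | i
    · have := congrFun (congrFun h2 i) 0
      simpa [Matrix.mul_apply, mulVec, dotProduct, Fintype.sum_sum_type] using this
    · have := congrFun (congrFun h3 i) 0
      simpa [Matrix.mul_apply, mulVec, dotProduct, Fintype.sum_sum_type] using this
  · intro h
    refine ⟨by simp, ?_, ?_, by simp, by simp, by simp, by simp⟩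
    · ext i j
      have := congrFun h (.inl i)
      simpa [Matrix.mul_apply, mulVec, dotProduct, Fintype.sum_sum_type] using this
    · ext i j
      have := congrFun h (.inr i)
      simpa [Matrix.mul_apply, mulVec, dotProduct, Fintype.sum_sum_type] using this

theorem BZ_cn {x x' : Fin u ⊕ Fin p → k} {c c' : Fin u → k}
    {G G' : Matrix (Fin 1 ⊕ Fin u) (Fin u ⊕ Fin p) k} (h : G *ᵥ x' = G' *ᵥ x) :
    CN ![JX k 1 u p, BZ x c G, BZ x' c' G'] :=
  D8.cn3 (JX_comm ..) (JX_comm ..) (BZ_rel.2 h) JX_nil (BX_nil ..) (BX_nil ..)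

/-! ### conjugation to the family -/

/-- the new basis: columns `v0; A v0, B v0, C v0; q_l; E_2, U_1` -/
def QQ (x x' : Fin u ⊕ Fin p → k) (c c' : Fin u → k) (y : Fin q → Fin u ⊕ Fin p → k) :
    Matrix (Ix 1 u p) (Fin 1 ⊕ ((Fin 3 ⊕ Fin q) ⊕ Fin (u + 1))) k :=
  Matrix.of fun i s => match i, s with
    | .inl (.inl _), .inl _ => 1
    | .inl (.inr (.inl _)), .inr (.inl (.inl j)) => (![1, 0, 0] : Fin 3 → k) j
    | .inl (.inr (.inr _)), .inr (.inr m) => if m = 0 then 1 else 0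
    | .inr (.inl (.inl i)), .inr (.inl (.inl j)) => (![0, x (.inl i), x' (.inl i)] : Fin 3 → k) j
    | .inr (.inl (.inl i)), .inr (.inl (.inr l)) => y l (.inl i)
    | .inr (.inl (.inr i)), .inr (.inl (.inl j)) => (![0, c i, c' i] : Fin 3 → k) j
    | .inr (.inl (.inr i)), .inr (.inr m) => if m = i.succ then 1 else 0
    | .inr (.inr i), .inr (.inl (.inl j)) => (![0, x (.inr i), x' (.inr i)] : Fin 3 → k) j
    | .inr (.inr i), .inr (.inl (.inr l)) => y l (.inr i)
    | _, _ => 0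

/-- vectors of `E_2 + U_1` -/
def tv (f : Fin 1 ⊕ Fin u → k) : Fin (u + 1) → k :=
  Fin.cons (f (.inl 0)) (fun i => f (.inr i))

/-- the structure constants -/
def rr (x x' : Fin u ⊕ Fin p → k) (G G' : Matrix (Fin 1 ⊕ Fin u) (Fin u ⊕ Fin p) k)
    (z : Fin 6 × Fin (u + 1)) : k :=
  tv ((![Sum.elim 1 0, Sum.elim 0 (fun i => x (.inl i)), Sum.elim 0 (fun i => x' (.inl i)),
    G *ᵥ x, G *ᵥ x', G' *ᵥ x'] : Fin 6 → Fin 1 ⊕ Fin u → k) z.1) z.2

/-- the structure constants -/
def gg (y : Fin q → Fin u ⊕ Fin p → k) (G G' : Matrix (Fin 1 ⊕ Fin u) (Fin u ⊕ Fin p) k)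
    (z : Fin 3 × Fin q × Fin (u + 1)) : k :=
  tv ((![Sum.elim 0 (fun i => y z.2.1 (.inl i)), G *ᵥ y z.2.1, G' *ᵥ y z.2.1] :
    Fin 3 → Fin 1 ⊕ Fin u → k) z.1) z.2.2

theorem conj0 (x x' : Fin u ⊕ Fin p → k) (c c' : Fin u → k) (y : Fin q → Fin u ⊕ Fin p → k)
    (G G' : Matrix (Fin 1 ⊕ Fin u) (Fin u ⊕ Fin p) k) :
    JX k 1 u p * QQ x x' c c' y =
      QQ x x' c c' y * T1X q (u + 1) (rr x x' G G') (gg y G G') 0 := by
  ext i j
  rcases i with (i | i | i) | ((i | i) | i) <;> rcases j with j | ((j | j) | j) <;>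
    (try fin_cases j) <;>
    simp [JX, BX, QQ, T1X, rr, gg, tv, ix, Matrix.mul_apply, Fintype.sum_sum_type,
      Matrix.one_apply] <;>
    exact Subsingleton.elim _ _

theorem conj1 (x x' : Fin u ⊕ Fin p → k) (c c' : Fin u → k) (y : Fin q → Fin u ⊕ Fin p → k)
    (G G' : Matrix (Fin 1 ⊕ Fin u) (Fin u ⊕ Fin p) k) :
    BZ x c G * QQ x x' c c' y =
      QQ x x' c c' y * T1X q (u + 1) (rr x x' G G') (gg y G G') 1 := by
  ext i j
  rcases i with (i | i | i) | ((i | i) | i) <;> rcases j with j | ((j | j) | j) <;>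
    (try fin_cases j) <;> (try obtain rfl : i = 0 := Subsingleton.elim _ _) <;>
    simp [BZ, BX, QQ, T1X, rr, gg, tv, ix, Matrix.mul_apply, Fintype.sum_sum_type,
      mulVec, dotProduct]

theorem conj2 (x x' : Fin u ⊕ Fin p → k) (c c' : Fin u → k) (y : Fin q → Fin u ⊕ Fin p → k)
    (G G' : Matrix (Fin 1 ⊕ Fin u) (Fin u ⊕ Fin p) k) (h : G *ᵥ x' = G' *ᵥ x) :
    BZ x' c' G' * QQ x x' c c' y =
      QQ x x' c c' y * T1X q (u + 1) (rr x x' G G') (gg y G G') 2 := by
  unfold rr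
  rw [h]
  ext i j
  rcases i with (i | i | i) | ((i | i) | i) <;> rcases j with j | ((j | j) | j) <;>
    (try fin_cases j) <;> (try obtain rfl : i = 0 := Subsingleton.elim _ _) <;>
    simp [BZ, BX, QQ, T1X, gg, tv, ix, Matrix.mul_apply, Fintype.sum_sum_type,
      mulVec, dotProduct]


theorem QQ_inj {x x' : Fin u ⊕ Fin p → k} {c c' : Fin u → k} {y : Fin q → Fin u ⊕ Fin p → k}
    (e : Fin u ⊕ Fin p ≃ Fin 2 ⊕ Fin q)
    (hd : (Matrix.of fun d j => (Sum.elim ![x, x'] y (e j) : Fin u ⊕ Fin p → k) d :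
      Matrix (Fin u ⊕ Fin p) (Fin u ⊕ Fin p) k).det ≠ 0)
    {z : Fin 1 ⊕ ((Fin 3 ⊕ Fin q) ⊕ Fin (u + 1)) → k} (h : QQ x x' c c' y *ᵥ z = 0) : z = 0 := by
  have hrow := fun i => congrFun h i
  simp only [mulVec, dotProduct] at hrow
  have h0 := hrow (.inl (.inl 0))
  have h1 := hrow (.inl (.inr (.inl 0)))
  have hE := hrow (.inl (.inr (.inr 0)))
  have hU0 := fun i => hrow (.inr (.inl (.inl i)))
  have hU1 := fun i => hrow (.inr (.inl (.inr i)))
  have hP := fun i => hrow (.inr (.inr i))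
  simp [QQ, Fintype.sum_sum_type, Fin.sum_univ_three] at h0 h1 hE hU0 hU1 hP
  have hD : (Matrix.of fun d j => (Sum.elim ![x, x'] y (e j) : Fin u ⊕ Fin p → k) d :
      Matrix (Fin u ⊕ Fin p) (Fin u ⊕ Fin p) k) *ᵥ (fun j => (Sum.elim
        ![z (.inr (.inl (.inl 1))), z (.inr (.inl (.inl 2)))]
        (fun l => z (.inr (.inl (.inr l)))) (e j) : k)) = 0 := by
    ext d
    simp only [mulVec, dotProduct, Matrix.of_apply, Pi.zero_apply]
    rw [Equiv.sum_comp e (fun t => (Sum.elim ![x, x'] y t : Fin u ⊕ Fin p → k) d *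
      (Sum.elim ![z (.inr (.inl (.inl 1))), z (.inr (.inl (.inl 2)))]
        (fun l => z (.inr (.inl (.inr l)))) t : k)), Fintype.sum_sum_type]
    rcases d with d | d
    · simpa [Fin.sum_univ_two] using hU0 d
    · simpa [Fin.sum_univ_two] using hP d
  have hz := Matrix.eq_zero_of_mulVec_eq_zero hd hD
  have z1 : z (.inr (.inl (.inl 1))) = 0 := by
    simpa using congrFun hz (e.symm (.inl 0))
  have z2 : z (.inr (.inl (.inl 2))) = 0 := by
    simpa using congrFun hz (e.symm (.inl 1))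
  have zq : ∀ l, z (.inr (.inl (.inr l))) = 0 := fun l => by
    simpa using congrFun hz (e.symm (.inr l))
  simp only [z1, z2, mul_zero, zero_add] at hU1
  ext s
  rcases s with s | ((s | s) | s)
  · obtain rfl : s = 0 := Subsingleton.elim _ _
    exact h0
  · fin_cases s
    · exact h1
    · exact z1
    · exact z2
  · exact zq s
  · refine Fin.cases hE (fun i => ?_) s
    exact hU1 i

theorem cl_indep (hq : u + p = q + 2)
    (hcl : ∀ (r : Fin 6 × Fin (u + 1) → k) (g : Fin 3 × Fin q × Fin (u + 1) → k),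
      Cl (T1X q (u + 1) r g))
    {x x' : Fin u ⊕ Fin p → k} {c c' : Fin u → k}
    {G G' : Matrix (Fin 1 ⊕ Fin u) (Fin u ⊕ Fin p) k}
    (h : G *ᵥ x' = G' *ᵥ x) (y : Fin q → Fin u ⊕ Fin p → k)
    (e : Fin u ⊕ Fin p ≃ Fin 2 ⊕ Fin q)
    (hd : (Matrix.of fun d j => (Sum.elim ![x, x'] y (e j) : Fin u ⊕ Fin p → k) d :
      Matrix (Fin u ⊕ Fin p) (Fin u ⊕ Fin p) k).det ≠ 0) :
    Cl ![JX k 1 u p, BZ x c G, BZ x' c' G'] := by
  have hcard : Fintype.card (Fin 1 ⊕ ((Fin 3 ⊕ Fin q) ⊕ Fin (u + 1))) =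
      Fintype.card (Ix 1 u p) := by
    simp only [Fintype.card_sum, Fintype.card_fin]
    omega
  let ψ := Fintype.equivOfCardEq hcard
  set r := rr x x' G G' with hr
  set g := gg y G G' with hg
  set P : Matrix (Ix 1 u p) (Ix 1 u p) k := (QQ x x' c c' y).submatrix id ψ.symm with hP
  have hPd : P.det ≠ 0 := by
    intro h0
    obtain ⟨v, hv, hv0⟩ := Matrix.exists_mulVec_eq_zero_iff.2 h0
    rw [hP, Matrix.submatrix_mulVec_equiv] at hv0
    have h1 : QQ x x' c c' y *ᵥ (v ∘ ψ.symm.symm) = 0 := by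
      simpa using hv0
    have h2 := QQ_inj e hd h1
    apply hv
    ext i
    have := congrFun h2 (ψ.symm i)
    simpa using this
  have hu : IsUnit P.det := isUnit_iff_ne_zero.2 hPd
  have g1 : P⁻¹ * P = 1 := Matrix.nonsing_inv_mul _ hu
  have g2 : P * P⁻¹ = 1 := Matrix.mul_nonsing_inv _ hu
  have key : ∀ (X : Matrix (Ix 1 u p) (Ix 1 u p) k) (i : Fin 3),
      X * QQ x x' c c' y = QQ x x' c c' y * T1X q (u + 1) r g i →
      P * (T1X q (u + 1) r g i).submatrix ψ.symm ψ.symm * P⁻¹ = X := by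
    intro X i hX
    have h1 : P * (T1X q (u + 1) r g i).submatrix ψ.symm ψ.symm =
        (QQ x x' c c' y * T1X q (u + 1) r g i).submatrix id ψ.symm :=
      Matrix.submatrix_mul_equiv _ _ _ ψ.symm _
    have h2 : X * P = (X * QQ x x' c c' y).submatrix id ψ.symm := by
      have := Matrix.submatrix_mul_equiv X (QQ x x' c c' y) id (Equiv.refl _) ψ.symm
      simpa using this
    rw [h1, ← hX, ← h2, Matrix.mul_assoc, g2, Matrix.mul_one]
  have h1 := Cl.conj _ _ g2 g1 (Cl.mapEquiv (Matrix.reindexAlgEquiv k k ψ) hcard (hcl r g))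
  have h2 : (fun i => P * (Matrix.reindexAlgEquiv k k ψ) (T1X q (u + 1) r g i) * P⁻¹) =
      ![JX k 1 u p, BZ x c G, BZ x' c' G'] := by
    funext i
    rw [Matrix.coe_reindexAlgEquiv, Matrix.reindex_apply]
    fin_cases i
    · exact key _ 0 (conj0 ..)
    · exact key _ 1 (conj1 ..)
    · exact key _ 2 (conj2 _ _ _ _ _ _ _ h)
  rwa [h2] at h1

/-- the case `x' ≠ 0` -/
theorem case_ne [Infinite k] {ρ : ℕ → ℕ} (hq : u + p = q + 2)
    (hcl : ∀ (r : Fin 6 × Fin (u + 1) → k) (g : Fin 3 × Fin q × Fin (u + 1) → k),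
      Cl (T1X q (u + 1) r g))
    {x x' : Fin u ⊕ Fin p → k} {c c' : Fin u → k}
    {G G' : Matrix (Fin 1 ⊕ Fin u) (Fin u ⊕ Fin p) k}
    (hT : MaxR ρ ![JX k 1 u p, BZ x c G, BZ x' c' G']) (hx : x' ≠ 0) : False := by
  have hrel := BZ_rel.1 (hT.cn.1 1 2)
  obtain ⟨j0, hj0⟩ := Function.ne_iff.1 hx
  rw [Pi.zero_apply] at hj0
  have hc1 : 1 < Fintype.card (Fin u ⊕ Fin p) := by
    simp only [Fintype.card_sum, Fintype.card_fin]
    omega
  obtain ⟨j1, hj1⟩ := Fintype.exists_ne_of_one_lt_card hc1 j0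
  have hc2 : Fintype.card (Fin u ⊕ Fin p) = Fintype.card (Fin 2 ⊕ Fin q) := by
    simp only [Fintype.card_sum, Fintype.card_fin]
    omega
  obtain ⟨e, he1, he0⟩ : ∃ e : Fin u ⊕ Fin p ≃ Fin 2 ⊕ Fin q, e j1 = .inl 0 ∧ e j0 = .inl 1 := by
    let e0 := Fintype.equivOfCardEq hc2
    let e1 := e0.trans (Equiv.swap (e0 j1) (.inl 0))
    have h1 : e1 j1 = .inl 0 := by simp [e1]
    refine ⟨e1.trans (Equiv.swap (e1 j0) (.inl 1)), ?_, by simp⟩
    rw [Equiv.trans_apply, h1, Equiv.swap_apply_of_ne_of_ne]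
    · rw [← h1]
      exact fun h => hj1 (e1.injective h)
    · simp
  let y : Fin q → Fin u ⊕ Fin p → k := fun l => Pi.single (e.symm (.inr l)) 1
  let z : Fin u ⊕ Fin p → k := Pi.single j1 1
  let f : Fin u ⊕ Fin p → k := Pi.single j0 (x' j0)⁻¹
  have hf : f ⬝ᵥ x' = 1 := by
    rw [single_dotProduct]
    exact inv_mul_cancel₀ hj0
  let M0 : Matrix (Fin u ⊕ Fin p) (Fin u ⊕ Fin p) k := (1 : Matrix _ _ k).updateCol j0 x'
  have hM0 : M0.det = x' j0 := by
    show ((1 : Matrix _ _ k).updateCol j0 x').det = x' j0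
    rw [← Matrix.cramer_apply, Matrix.cramer_one]
    rfl
  have hdet : ∀ s : k, (Matrix.of fun d j => (Sum.elim ![x + s • z, x'] y (e j) :
      Fin u ⊕ Fin p → k) d : Matrix (Fin u ⊕ Fin p) (Fin u ⊕ Fin p) k).det =
      (M0.updateCol j1 x).det + x' j0 * s + 0 * s ^ 2 := by
    intro s
    have h1 : (Matrix.of fun d j => (Sum.elim ![x + s • z, x'] y (e j) :
        Fin u ⊕ Fin p → k) d : Matrix (Fin u ⊕ Fin p) (Fin u ⊕ Fin p) k) =
        M0.updateCol j1 (x + s • z) := by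
      ext d j
      by_cases h1 : j = j1
      · subst h1
        simp [he1]
      · rw [Matrix.updateCol_ne h1]
        by_cases h0 : j = j0
        · subst h0
          simp [he0, M0]
        · have h2 : M0 d j = (1 : Matrix _ _ k) d j := Matrix.updateCol_ne h0
          rw [h2]
          rcases hej : e j with t | l
          · exfalso
            fin_cases t
            · exact h1 (e.injective (hej.trans he1.symm))
            · exact h0 (e.injective (hej.trans he0.symm))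
          · have h3 : e.symm (.inr l) = j := by rw [← hej, Equiv.symm_apply_apply]
            simp only [Matrix.of_apply, hej, Sum.elim_inr, y, h3]
            rw [Matrix.one_apply, Pi.single_apply]
    rw [h1, Matrix.det_updateCol_add, Matrix.det_updateCol_smul]
    have h2 : M0.updateCol j1 z = M0 := by
      have h3 : z = fun i => M0 i j1 := by
        ext i
        have h4 : M0 i j1 = (1 : Matrix _ _ k) i j1 := Matrix.updateCol_ne hj1
        rw [h4, Matrix.one_apply]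
        exact Pi.single_apply _ _ _
      rw [h3]
      exact Matrix.updateCol_eq_self _ _
    rw [h2, hM0]
    ring
  obtain ⟨s, hs, hT'⟩ := D8.MaxR.line2 hT (BZ z 0 (vecMulVec (G' *ᵥ z) f)) 0 (fun s => by
    rw [BZ_line, smul_zero, add_zero]
    refine BZ_cn ?_
    rw [Matrix.add_mulVec, Matrix.smul_mulVec, Matrix.vecMulVec_mulVec, hf, hrel,
      Matrix.mulVec_add, Matrix.mulVec_smul]
    simp) (D8.finite_quad (Or.inr (Or.inl hj0)) (a := (M0.updateCol j1 x).det) (c := 0))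
  rw [BZ_line, smul_zero, add_zero] at hT'
  refine hT'.ncl (cl_indep hq hcl (BZ_rel.1 (hT'.cn.1 1 2)) y e ?_)
  rw [hdet]
  exact hs

theorem case_all [Infinite k] {ρ : ℕ → ℕ} (hq : u + p = q + 2)
    (hcl : ∀ (r : Fin 6 × Fin (u + 1) → k) (g : Fin 3 × Fin q × Fin (u + 1) → k),
      Cl (T1X q (u + 1) r g))
    {x x' : Fin u ⊕ Fin p → k} {c c' : Fin u → k}
    {G G' : Matrix (Fin 1 ⊕ Fin u) (Fin u ⊕ Fin p) k}
    (hT : MaxR ρ ![JX k 1 u p, BZ x c G, BZ x' c' G']) : False := by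
  by_cases hx' : x' = 0
  · by_cases hx : x = 0
    · subst hx hx'
      obtain ⟨y, z, hy, hyz⟩ : ∃ y z : Fin u ⊕ Fin p → k, (y ≠ 0 ∨ z ≠ 0) ∧
          G *ᵥ z = G' *ᵥ y := by
        let L : ((Fin u ⊕ Fin p → k) × (Fin u ⊕ Fin p → k)) →ₗ[k] (Fin 1 ⊕ Fin u → k) :=
          G.mulVecLin.comp (LinearMap.snd k _ _) - G'.mulVecLin.comp (LinearMap.fst k _ _)
        have hlt : Module.finrank k (Fin 1 ⊕ Fin u → k) <
            Module.finrank k ((Fin u ⊕ Fin p → k) × (Fin u ⊕ Fin p → k)) := by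
          rw [Module.finrank_prod, Module.finrank_fintype_fun_eq_card,
            Module.finrank_fintype_fun_eq_card]
          simp only [Fintype.card_sum, Fintype.card_fin]
          omega
        have hk : L.ker ≠ ⊥ := LinearMap.ker_ne_bot_of_finrank_lt hlt
        obtain ⟨⟨y, z⟩, hm, hne⟩ := Submodule.exists_mem_ne_zero_of_ne_bot hk
        refine ⟨y, z, ?_, ?_⟩
        · by_contra hcon
          rw [not_or, not_not, not_not] at hcon
          exact hne (Prod.ext hcon.1 hcon.2)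
        · have h1 : G *ᵥ z - G' *ᵥ y = 0 := by
            simpa [L] using LinearMap.mem_ker.1 hm
          exact sub_eq_zero.1 h1
      obtain ⟨s, hs, hT'⟩ := D8.MaxR.line2 hT (BZ y 0 0) (BZ z 0 0) (fun s => by
        rw [BZ_line, BZ_line, smul_zero, add_zero, add_zero, zero_add, zero_add]
        refine BZ_cn ?_
        rw [Matrix.mulVec_smul, Matrix.mulVec_smul, hyz]) (Set.finite_singleton (0 : k))
      rw [BZ_line, BZ_line, smul_zero, add_zero, add_zero, zero_add, zero_add] at hT'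
      rcases hy with hy | hy
      · exact case_ne hq hcl (D8.MaxR.swap hT') (smul_ne_zero hs hy)
      · exact case_ne hq hcl hT' (smul_ne_zero hs hy)
    · exact case_ne hq hcl (D8.MaxR.swap hT) hx
  · exact case_ne hq hcl hT hx'

end E1IAux

open E1IAux in
theorem no_I1 {k : Type*} [Field k] [CharZero k] {u p q : ℕ} (hq : u + p = q + 2) {ρ : ℕ → ℕ}
    (hcl : ∀ (r : Fin 6 × Fin (u + 1) → k) (g : Fin 3 × Fin q × Fin (u + 1) → k),
      Cl (T1X q (u + 1) r g))
    {a c a' c' : Matrix (Fin u) (Fin 1) k}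
    {w w' : Matrix (Fin p) (Fin 1) k} {d d' : Matrix (Fin 1) (Fin u) k}
    {nu nu' : Matrix (Fin u) (Fin u) k}
    {th th' : Matrix (Fin 1) (Fin p) k} {et et' : Matrix (Fin u) (Fin p) k}
    (hT : MaxR ρ ![JX k 1 u p, BX 0 0 a c w 0 d nu 0 th et,
      BX 0 0 a' c' w' 0 d' nu' 0 th' et']) : False := by
  have hk : Infinite k := Infinite.of_injective (fun n : ℕ => (n : k)) Nat.cast_injective
  rw [BZ_eq, BZ_eq] at hT
  exact case_all hq hcl hT

end Pool.Agent.Lib.D9
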