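import Pool.Agent.Lib.D9.BlkRank
import Pool.Agent.Lib.D9.BlkShape

/-!
Module E1mix (black box BlkRank). e = 1, u, p arbitrary: the mixed case is impossible.
PROOF. Suppose neither (a, a') = 0 nor (b, b') = 0. Some X in the pencil has a_X <> 0 and b_X <> 0
(X = B, C or B + C). By MaxR.swap / MaxR.lin we may assume X = B: a <> 0, b <> 0. Choose a row φ with
φ a = 1; after C -> C - t B we have φ a' = 0.
Family: d -> d + s φ (only B changes): CN for all s: relations 1, 3-7 of BX_comm do not contain d;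
relation 2 contains d * a' only, φ a' = 0. Take s <> 0 with T_s MaxR (MaxR.line2).
R5X for T and for T_s have the same left side, so 4 s (a φ a b) = 4 s (a b) = 0, a b <> 0.
-/

namespace Pool.Agent.Lib.D9

open Matrix Pool.Agent.Lib.Q5dc Pool.Agent.Lib.D7

namespace E1mixAux

theorem addl {k n : Type*} [Field k] [Fintype n] [DecidableEq n] {ρ : ℕ → ℕ}
    {A B C : Matrix n n k} (hT : MaxR ρ ![A, B, C]) (t : k) : MaxR ρ ![A, B + t • C, C] := by
  have h := D8.MaxR.lin hT 1 t 0 1 0 0 0 0 (by simp)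
  simpa using h

theorem addr {k n : Type*} [Field k] [Fintype n] [DecidableEq n] {ρ : ℕ → ℕ}
    {A B C : Matrix n n k} (hT : MaxR ρ ![A, B, C]) (t : k) : MaxR ρ ![A, B, C + t • B] :=
  D8.MaxR.swap (addl (D8.MaxR.swap hT) t)

variable {k : Type*} [Field k] {u p : ℕ}

theorem exists_phi {a : Matrix (Fin u) (Fin 1) k} (ha : a ≠ 0) :
    ∃ φ : Matrix (Fin 1) (Fin u) k, φ * a = 1 := by
  obtain ⟨i, hi⟩ : ∃ i, a i 0 ≠ 0 := by
    by_contra h
    push Not at h
    refine ha ?_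
    ext i j
    rw [Subsingleton.elim j 0]
    exact h i
  refine ⟨Matrix.of fun _ j => if j = i then (a i 0)⁻¹ else 0, ?_⟩
  ext x y
  rw [Subsingleton.elim x 0, Subsingleton.elim y 0, Matrix.mul_apply]
  simp [hi]

theorem one_one (M : Matrix (Fin 1) (Fin 1) k) : M = M 0 0 • (1 : Matrix (Fin 1) (Fin 1) k) := by
  ext x y
  rw [Subsingleton.elim x 0, Subsingleton.elim y 0]
  simp

theorem mul_ne {a : Matrix (Fin u) (Fin 1) k} {b : Matrix (Fin 1) (Fin u) k} (ha : a ≠ 0)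
    (hb : b ≠ 0) : a * b ≠ 0 := by
  obtain ⟨φ, h⟩ := exists_phi ha
  intro h0
  refine hb ?_
  have : φ * (a * b) = b := by rw [← Matrix.mul_assoc, h, Matrix.one_mul]
  rw [← this, h0, Matrix.mul_zero]

/-- the core: `φ a = 1`, `φ a' = 0` is impossible when `b ≠ 0` -/
theorem core0 [CharZero k] {ρ : ℕ → ℕ} (h2 : ρ 2 ≤ 1)
    {a c a' c' : Matrix (Fin u) (Fin 1) k}
    {w w' : Matrix (Fin p) (Fin 1) k} {b d b' d' : Matrix (Fin 1) (Fin u) k}
    {nu nu' : Matrix (Fin u) (Fin u) k} {pi pi' : Matrix (Fin p) (Fin u) k}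
    {th th' : Matrix (Fin 1) (Fin p) k} {et et' : Matrix (Fin u) (Fin p) k}
    (hT : MaxR ρ ![JX k 1 u p, BX 0 0 a c w b d nu pi th et,
      BX 0 0 a' c' w' b' d' nu' pi' th' et'])
    {φ : Matrix (Fin 1) (Fin u) k} (h1 : φ * a = 1) (h0 : φ * a' = 0) (hb : b ≠ 0) : False := by
  have ha : a ≠ 0 := by
    rintro rfl
    rw [Matrix.mul_zero] at h1
    exact zero_ne_one h1
  have hc := hT.cn.comm (D8.mem1 _ _ _) (D8.mem2 _ _ _)
  rw [BX_comm] at hc
  obtain ⟨c1, c2, c3, c4, c5, c6, c7⟩ := hc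
  have hs : ∀ s : k, BX 0 0 a c w b d nu pi th et + s • BX 0 0 0 0 0 0 φ 0 0 0 0 =
      BX 0 0 a c w b (d + s • φ) nu pi th et := by
    intro s
    rw [BX_smul, BX_add]
    simp
  obtain ⟨s, hs0, hM⟩ := D8.MaxR.line2 hT (BX 0 0 0 0 0 0 φ 0 0 0 0) 0 (fun s => by
    rw [hs s, smul_zero, add_zero]
    refine cnX _ _ _ _ _ _ _ _ _ _ _ _ _ _ _ _ _ _ _ _ _ _ c1 ?_ c3 c4 c5 c6 c7
    rw [Matrix.add_mul, Matrix.smul_mul, h0, smul_zero, add_zero]
    exact c2) (Set.finite_singleton (0 : k))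
  rw [hs s, smul_zero, add_zero] at hM
  have r0 := R5X hT h2 (D8.mem0 _ _ _) (D8.mem1 _ _ _)
  have r1 := R5X hM h2 (D8.mem0 _ _ _) (D8.mem1 _ _ _)
  rw [r0] at r1
  have r2 : (4 * s) • (a * b) = 0 := by
    have e : (4 : k) • (a * ((d + s • φ) * a + b * c + th * w) * b) =
        (4 : k) • (a * (d * a + b * c + th * w) * b) + (4 * s) • (a * (φ * a) * b) := by
      simp only [Matrix.add_mul, Matrix.mul_add, Matrix.smul_mul, Matrix.mul_smul, smul_add,
        mul_smul]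
      abel
    rw [e, h1, Matrix.mul_one] at r1
    exact (add_eq_left.1 r1.symm)
  have h4 : (4 * s : k) ≠ 0 := mul_ne_zero (by norm_num) hs0
  exact mul_ne ha hb ((smul_eq_zero.1 r2).resolve_left h4)

/-- the core: `a ≠ 0`, `b ≠ 0` is impossible -/
theorem core [CharZero k] {ρ : ℕ → ℕ} (h2 : ρ 2 ≤ 1)
    {a c a' c' : Matrix (Fin u) (Fin 1) k}
    {w w' : Matrix (Fin p) (Fin 1) k} {b d b' d' : Matrix (Fin 1) (Fin u) k}
    {nu nu' : Matrix (Fin u) (Fin u) k} {pi pi' : Matrix (Fin p) (Fin u) k}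
    {th th' : Matrix (Fin 1) (Fin p) k} {et et' : Matrix (Fin u) (Fin p) k}
    (hT : MaxR ρ ![JX k 1 u p, BX 0 0 a c w b d nu pi th et,
      BX 0 0 a' c' w' b' d' nu' pi' th' et']) (ha : a ≠ 0) (hb : b ≠ 0) : False := by
  obtain ⟨φ, h1⟩ := exists_phi ha
  have h := addr hT (-((φ * a') 0 0))
  rw [BX_smul, BX_add] at h
  simp only [smul_zero, add_zero] at h
  refine core0 h2 h h1 ?_ hb
  rw [Matrix.mul_add, Matrix.mul_smul, h1, neg_smul, ← one_one, add_neg_cancel]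

end E1mixAux

open E1mixAux in
theorem mix1 {k : Type*} [Field k] [CharZero k] {u p : ℕ} {ρ : ℕ → ℕ} (h2 : ρ 2 ≤ 1)
    {a c a' c' : Matrix (Fin u) (Fin 1) k}
    {w w' : Matrix (Fin p) (Fin 1) k} {b d b' d' : Matrix (Fin 1) (Fin u) k}
    {nu nu' : Matrix (Fin u) (Fin u) k} {pi pi' : Matrix (Fin p) (Fin u) k}
    {th th' : Matrix (Fin 1) (Fin p) k} {et et' : Matrix (Fin u) (Fin p) k}
    (hT : MaxR ρ ![JX k 1 u p, BX 0 0 a c w b d nu pi th et,
      BX 0 0 a' c' w' b' d' nu' pi' th' et']) :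
    (a = 0 ∧ a' = 0) ∨ (b = 0 ∧ b' = 0) := by
  by_contra hne
  rw [not_or, not_and_or, not_and_or] at hne
  obtain ⟨hA, hB⟩ := hne
  by_cases h : a ≠ 0 ∧ b ≠ 0
  · exact core h2 hT h.1 h.2
  by_cases h' : a' ≠ 0 ∧ b' ≠ 0
  · exact core h2 (D8.MaxR.swap hT) h'.1 h'.2
  have hl := addl hT 1
  rw [one_smul, BX_add, add_zero] at hl
  refine core h2 hl ?_ ?_
  · by_cases ha : a = 0
    · rw [ha, zero_add]
      exact hA.resolve_left (not_not.2 ha)
    · have hb : b = 0 := by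
        by_contra hb
        exact h ⟨ha, hb⟩
      have hb' : b' ≠ 0 := hB.resolve_left (not_not.2 hb)
      have ha' : a' = 0 := by
        by_contra ha'
        exact h' ⟨ha', hb'⟩
      rwa [ha', add_zero]
  · by_cases hb : b = 0
    · rw [hb, zero_add]
      exact hB.resolve_left (not_not.2 hb)
    · have ha : a = 0 := by
        by_contra ha
        exact h ⟨ha, hb⟩
      have ha' : a' ≠ 0 := hA.resolve_left (not_not.2 ha)
      have hb' : b' = 0 := by
        by_contra hb'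
        exact h' ⟨ha', hb'⟩
      rwa [hb', add_zero]

end Pool.Agent.Lib.D9
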