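import Pool.Agent.Lib.D9.DensX

/-!
# MP_5dcbc3_ag: all triples `T1X 2 3 r g` are limits of curvilinear triples

Exponents: `e_j`: 1, 4, 5, `q_l`: 2, 3, `f_m`: 6, 7, 8.
-/

namespace Pool.Agent.Lib.D9

open Matrix Pool.Agent.Lib.Q5dc Pool.Agent.Lib.D7

namespace Cl153Aux

/-- the exponents -/
def ex : Fin 1 ⊕ ((Fin 3 ⊕ Fin 2) ⊕ Fin 3) ≃ Fin (8 + 1) where
  toFun := Sum.elim (fun _ => 0) (Sum.elim (Sum.elim ![1, 4, 5] ![2, 3]) ![6, 7, 8])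
  invFun := ![.inl 0, .inr (.inl (.inl 0)), .inr (.inl (.inr 0)), .inr (.inl (.inr 1)), .inr (.inl (.inl 1)), .inr (.inl (.inl 2)), .inr (.inr 0), .inr (.inr 1), .inr (.inr 2)]
  left_inv := by
    intro x
    rcases x with x | ((x | x) | x) <;> fin_cases x <;> rfl
  right_inv := by
    intro x
    fin_cases x <;> rfl

variable {k : Type*} [Field k]

/-- the certificate -/
def Nc (v : (Fin 6 × Fin 3) ⊕ (Fin 3 × Fin 2 × Fin 3) → k) :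
    Matrix (Fin (8 + 1)) (Fin (8 + 1)) k :=
  !![0, 0, 0, 0, 0, 0, 0, 0, 0;
     0,
     5 / 8 * v (.inl (2, 0)) + 5 / 4 * v (.inl (3, 2)) - 1 / 4 * v (.inr (1, 0, 0)) + 1 / 2 * v (.inr (1, 1, 1)) - 1 / 8 * v (.inr (2, 0, 1)) - 7 / 8 * v (.inr (2, 1, 2)),
     -v (.inl (3, 1)) - 2 * v (.inl (4, 2)) - v (.inr (1, 1, 0)) + v (.inr (2, 0, 0)) + v (.inr (2, 1, 1)),
     -v (.inl (3, 0)) + 2 * v (.inl (4, 1)) - 3 / 2 * v (.inl (5, 2)) + v (.inr (2, 1, 0)),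
     v (.inl (4, 0)) - 1 / 2 * v (.inl (5, 1)),
     1 / 2 * v (.inl (5, 0)),
     0,
     0,
     0;
     0,
     0,
     -1 / 4 * v (.inl (2, 0)) + 1 / 2 * v (.inl (3, 2)) + 1 / 2 * v (.inr (1, 0, 0)) + 1 / 4 * v (.inr (2, 0, 1)) - 1 / 4 * v (.inr (2, 1, 2)),
     -v (.inl (3, 1)) - v (.inl (4, 2)) + v (.inr (2, 1, 1)),
     v (.inl (4, 1)) - 1 / 2 * v (.inl (5, 2)),
     1 / 2 * v (.inl (5, 1)),
     0,
     0,
     0;
     0,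
     0,
     -v (.inl (1, 0)) - v (.inl (2, 1)) + v (.inr (1, 0, 1)),
     -1 / 8 * v (.inl (2, 0)) - 1 / 4 * v (.inl (3, 2)) + 1 / 4 * v (.inr (1, 0, 0)) + 1 / 2 * v (.inr (1, 1, 1)) - 3 / 8 * v (.inr (2, 0, 1)) + 3 / 8 * v (.inr (2, 1, 2)),
     0,
     1 / 2 * v (.inl (5, 2)),
     0,
     0,
     0;
     0,
     0,
     -v (.inl (1, 1)) - v (.inl (2, 2)) + v (.inr (1, 0, 2)),
     -2 * v (.inl (1, 0)) - v (.inl (2, 1)) + v (.inr (1, 0, 1)) + v (.inr (1, 1, 2)) - v (.inr (2, 0, 2)),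
     0,
     v (.inl (4, 2)),
     0,
     0,
     0;
     0,
     0,
     v (.inr (0, 0, 0)) + v (.inr (0, 1, 1)),
     0,
     0,
     1 / 8 * v (.inl (2, 0)) - 3 / 4 * v (.inl (3, 2)) - 1 / 4 * v (.inr (1, 0, 0)) - 1 / 2 * v (.inr (1, 1, 1)) + 3 / 8 * v (.inr (2, 0, 1)) + 5 / 8 * v (.inr (2, 1, 2)),
     0,
     0,
     0;
     0,
     0,
     -v (.inl (0, 0)),
     v (.inr (0, 1, 1)),
     -v (.inr (0, 1, 0)),
     -v (.inl (1, 0)),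
     -1 / 4 * v (.inl (2, 0)) + 1 / 2 * v (.inl (3, 2)) - 1 / 2 * v (.inr (1, 0, 0)) + 1 / 4 * v (.inr (2, 0, 1)) - 1 / 4 * v (.inr (2, 1, 2)),
     -v (.inl (3, 1)) - v (.inl (4, 2)) - v (.inr (1, 1, 0)) + v (.inr (2, 1, 1)),
     -v (.inl (3, 0)) + 2 * v (.inl (4, 1)) - v (.inl (5, 2));
     0,
     1 / 2 * v (.inl (0, 2)),
     -v (.inl (0, 1)),
     -v (.inl (0, 0)) - v (.inr (0, 0, 1)),
     0,
     -v (.inl (1, 1)) - v (.inr (0, 1, 0)),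
     -v (.inl (1, 0)) - v (.inl (2, 1)),
     -1 / 8 * v (.inl (2, 0)) - 1 / 4 * v (.inl (3, 2)) + 1 / 4 * v (.inr (1, 0, 0)) - 1 / 2 * v (.inr (1, 1, 1)) - 3 / 8 * v (.inr (2, 0, 1)) + 3 / 8 * v (.inr (2, 1, 2)),
     -v (.inl (3, 1));
     0,
     0,
     0,
     -v (.inl (0, 1)) - v (.inr (0, 0, 2)),
     -v (.inl (0, 0)) - v (.inr (0, 0, 1)) - v (.inr (0, 1, 2)),
     -v (.inl (1, 2)),
     -v (.inl (1, 1)) - v (.inl (2, 2)) - v (.inr (0, 1, 0)),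
     -2 * v (.inl (1, 0)) - v (.inl (2, 1)) + v (.inr (1, 0, 1)) - v (.inr (2, 0, 2)),
     -v (.inl (3, 2))]

variable (v : (Fin 6 × Fin 3) ⊕ (Fin 3 × Fin 2 × Fin 3) → k)

theorem Nc_col (x : Fin (8 + 1)) : Nc v x 0 = 0 := by
  fin_cases x <;> rfl

theorem Nc_row (x : Fin (8 + 1)) : Nc v 0 x = 0 := by
  fin_cases x <;> rfl

variable [CharZero k]

theorem Nc_tr : (Nc v).trace = 0 := by
  simp [Nc, Matrix.trace, Fin.sum_univ_succ]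
  ring

theorem Nc_r (a : Fin 6) (m : Fin 3) :
    DensX.Dv (Nc v) (DensX.Pe ex (DensX.ri a)) (DensX.Pe ex (DensX.ci a)) (DensX.Pf ex m) =
      v (.inl (a, m)) := by
  fin_cases a <;> fin_cases m <;>
    simp [DensX.Dv, DensX.Pe, DensX.Pf, DensX.ri, DensX.ci, ex, Nc] <;> ring

theorem Nc_g (i : Fin 3) (l : Fin 2) (m : Fin 3) :
    DensX.Dv (Nc v) (DensX.Pe ex i) (DensX.Pq ex l) (DensX.Pf ex m) = v (.inr (i, l, m)) := by
  fin_cases i <;> fin_cases l <;> fin_cases m <;>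
    simp [DensX.Dv, DensX.Pe, DensX.Pf, DensX.Pq, ex, Nc] <;> ring

end Cl153Aux

open Cl153Aux in
/-- all triples `T1X 2 3 r g` are limits of curvilinear triples -/
theorem cl_T153 {k : Type*} [Field k] [IsAlgClosed k] [CharZero k] (r : Fin 6 × Fin 3 → k)
    (g : Fin 3 × Fin 2 × Fin 3 → k) : Cl (T1X 2 3 r g) :=
  cl_T1X_of_cert ex rfl Nc Nc_col Nc_row (fun v => Nc_tr v) (fun v => Nc_r v) (fun v => Nc_g v) r g

end Pool.Agent.Lib.D9
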