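import Pool.Agent.Lib.D9.Blk

/-!
Module E1III. Type (3,2,2,1,1) (e = 1, u = 2, p = 2), b = et = th = 0 for both, (a, a') <> 0: Hilbert
function (1, 3, 5), raise lemma.

PROOF. X: v0 -> a (U_0) + c (U_1) + w (P), E_1 -> a (U_1), U_0 -> d (E_2) + nu (U_1) + pi (P),
everything else -> 0. Relations (BX_comm): d a' = d' a, nu a' = nu' a, pi a' = pi' a.
(1) MaxR.swap: a' <> 0. x in k^2 independent of a', φ with φ a' = 1, family a -> a + s x,
d -> d + s (d' x) φ and so on: CN for all s. So WLOG a, a' are independent.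
(2) conj by GX 1 h 1: a = (1, 0), a' = (0, 1). Deform pi and pi': WLOG P0 = pi a and P2 = pi' a' are
independent.
(3) `raiseV`: if ξ is a vector killed by A, B, C and ev a functional with ev ξ = 0, ev B = x ev A,
ev C = y ev A, then (A + s K, B + s x K, C + s y K), K = ξ ev, is CN and (A + s K)^3 = s ξ (ev A^2).
(4) ev with ev(E_2) = 1, ev(E_1) = 0, ev(U_1) = (x, y), ev(P) = q given by the equations at (v0, a),
(v0, a') of two of the three pairs; the third equation is a quadratic equation in (x, y) whose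
quadratic part is not 0, solved on a line through the origin; ev(U_0) is determined by
ev(B v0) = ev(C v0) = 0.
-/

namespace Pool.Agent.Lib.D9

open Matrix Pool.Agent.Lib.Q5dc Pool.Agent.Lib.D7

namespace E1IIIAux

section General

variable {k n : Type*} [Field k] [Fintype n] [DecidableEq n] {ρ : ℕ → ℕ}

theorem nil_add {M K : Matrix n n k} (t : k) (hMK : M * K = 0) (hKK : K * K = 0)
    (hM : M * M * M = 0) : IsNilpotent (M + t • K) := by
  have h2 : (M + t • K) * (M + t • K) = M * M + t • (K * M) := by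
    rw [add_mul, mul_add, mul_add, mul_smul_comm, hMK, smul_zero, add_zero, smul_mul_assoc,
      smul_mul_assoc, mul_smul_comm, hKK, smul_zero, smul_zero, add_zero]
  have h3 : (M * M + t • (K * M)) * (M + t • K) = t • (K * M * M) := by
    rw [add_mul, mul_add, mul_add, hM, mul_smul_comm, mul_assoc M M K, hMK, mul_zero, smul_zero,
      add_zero, zero_add, smul_mul_assoc, smul_mul_assoc, mul_smul_comm, mul_assoc K M K, hMK,
      mul_zero, smul_zero, smul_zero, add_zero]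
  have h4 : (t • (K * M * M)) * (M + t • K) = 0 := by
    rw [smul_mul_assoc, mul_add, mul_smul_comm, mul_assoc (K * M) M K, hMK, mul_zero, smul_zero,
      add_zero, mul_assoc K M M, mul_assoc K (M * M) M, hM, mul_zero, smul_zero]
  refine ⟨4, ?_⟩
  rw [pow_succ, pow_succ, pow_two, h2, h3, h4]

/-- a raise lemma -/
theorem raiseV [CharZero k] {A B C : Matrix n n k} (hT : MaxR ρ ![A, B, C]) (h3 : ρ 3 = 0)
    (ξ ev : n → k) (x y : k) (hA : A *ᵥ ξ = 0) (hB : B *ᵥ ξ = 0) (hC : C *ᵥ ξ = 0)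
    (hev : ev ⬝ᵥ ξ = 0) (h1 : ev ᵥ* B = x • (ev ᵥ* A)) (h2 : ev ᵥ* C = y • (ev ᵥ* A))
    (h : vecMulVec ξ (ev ᵥ* (A * A)) ≠ 0) : False := by
  obtain ⟨K, hK⟩ : ∃ K, K = vecMulVec ξ ev := ⟨_, rfl⟩
  have hAK : A * K = 0 := by rw [hK, mul_vecMulVec, hA, zero_vecMulVec]
  have hBK : B * K = 0 := by rw [hK, mul_vecMulVec, hB, zero_vecMulVec]
  have hCK : C * K = 0 := by rw [hK, mul_vecMulVec, hC, zero_vecMulVec]
  have hKK : K * K = 0 := by
    rw [hK, vecMulVec_mul, vecMul_vecMulVec, hev, zero_smul, vecMulVec_zero]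
  have hKB : K * B = x • (K * A) := by
    rw [hK, vecMulVec_mul, vecMulVec_mul, h1, vecMulVec_smul]
  have hKC : K * C = y • (K * A) := by
    rw [hK, vecMulVec_mul, vecMulVec_mul, h2, vecMulVec_smul]
  have hKA : K * (A * A) ≠ 0 := by
    rw [hK, vecMulVec_mul]
    exact h
  have hAA : A * A * A = 0 := D8.mul3 hT h3 (D8.mem0 A B C) (D8.mem0 A B C) (D8.mem0 A B C)
  have hBB : B * B * B = 0 := D8.mul3 hT h3 (D8.mem1 A B C) (D8.mem1 A B C) (D8.mem1 A B C)
  have hCC : C * C * C = 0 := D8.mul3 hT h3 (D8.mem2 A B C) (D8.mem2 A B C) (D8.mem2 A B C)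
  have hAB : A * B = B * A := hT.cn.1 0 1
  have hAC : A * C = C * A := hT.cn.1 0 2
  have hBC : B * C = C * B := hT.cn.1 1 2
  have expand : ∀ {M M' : Matrix n n k} (t t' : k), M * K = 0 →
      (M + t • K) * (M' + t' • K) = M * M' + t • (K * M') := by
    intro M M' t t' hM
    rw [add_mul, mul_add, mul_add, mul_smul_comm, hM, smul_zero, add_zero, smul_mul_assoc,
      smul_mul_assoc, mul_smul_comm, hKK, smul_zero, smul_zero, add_zero]
  refine D8.MaxR.raise0 hT K (x • K) (y • K) (fun s => ?_) 3 h3 1 0 0 ?_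
  · rw [smul_smul, smul_smul]
    refine D8.cn3 ?_ ?_ ?_ (nil_add _ hAK hKK hAA) (nil_add _ hBK hKK hBB)
      (nil_add _ hCK hKK hCC)
    · rw [expand _ _ hAK, expand _ _ hBK, hKB, hAB, smul_smul]
    · rw [expand _ _ hAK, expand _ _ hCK, hKC, hAC, smul_smul]
    · rw [expand _ _ hBK, expand _ _ hCK, hKC, hKB, hBC, smul_smul, smul_smul]
      congr 2
      ring
  · refine ((Set.finite_singleton (0 : k)).infinite_compl).mono fun s hs => ?_
    show ((1 : k) • (A + s • K) + (0 : k) • (B + s • (x • K)) + (0 : k) • (C + s • (y • K))) ^ 3 ≠ 0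
    rw [one_smul, zero_smul, zero_smul, add_zero, add_zero, pow_succ, pow_two, expand _ _ hAK]
    have e : (A * A + s • (K * A)) * (A + s • K) = s • (K * (A * A)) := by
      rw [add_mul, mul_add, mul_add, hAA, mul_smul_comm, mul_assoc A A K, hAK, mul_zero, smul_zero,
        add_zero, zero_add, smul_mul_assoc, smul_mul_assoc, mul_smul_comm, mul_assoc K A K, hAK,
        mul_zero, smul_zero, smul_zero, add_zero, mul_assoc]
    rw [e]
    exact smul_ne_zero hs hKA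

end General

variable {k : Type*} [Field k] {ρ : ℕ → ℕ}

theorem exists_m [CharZero k] (al ga de : k) (h : de ≠ 0) : ∃ m : k, al + ga * m ^ 2 - de * m ≠ 0 := by
  by_contra hne
  push Not at hne
  have h0 := hne 0
  have h1 := hne 1
  have h2 := hne (-1)
  apply h
  linear_combination (1 / 2 : k) * (h2 - h1)

/-- the quadratic equation -/
theorem exists_xy [IsAlgClosed k] [CharZero k] (al ga de p1 q1 r1 p2 q2 r2 p3 q3 r3 : k)
    (h : de ≠ 0) : ∃ x y : k, al * (x ^ 2 - p1 - x * q1 - y * r1) +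
      ga * (y ^ 2 - p3 - x * q3 - y * r3) - de * (x * y - p2 - x * q2 - y * r2) = 0 := by
  obtain ⟨m, hm⟩ := exists_m al ga de h
  obtain ⟨s, hs⟩ := IsAlgClosed.exists_eq_mul_self (discrim (al + ga * m ^ 2 - de * m)
    (-(al * (q1 + m * r1)) - ga * (q3 + m * r3) + de * (q2 + m * r2))
    (-(al * p1) - ga * p3 + de * p2))
  obtain ⟨t, ht⟩ := exists_quadratic_eq_zero hm ⟨s, hs⟩
  refine ⟨t, m * t, ?_⟩
  linear_combination ht

/-- final step -/
theorem final [IsAlgClosed k] [CharZero k] (h3 : ρ 3 = 0)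
    {c c' w w' : Matrix (Fin 2) (Fin 1) k} {d d' : Matrix (Fin 1) (Fin 2) k}
    {nu nu' pi pi' : Matrix (Fin 2) (Fin 2) k}
    (hT : MaxR ρ ![JX k 1 2 2, BX 0 0 !![1; 0] c w 0 d nu pi 0 0,
      BX 0 0 !![0; 1] c' w' 0 d' nu' pi' 0 0])
    (hδ : pi 0 0 * pi' 1 1 - pi 1 0 * pi' 0 1 ≠ 0) : False := by
  obtain ⟨-, r1, r2, r3, -, -, -⟩ := (BX_comm ..).1 (hT.cn.1 1 2)
  have e1 : d 0 1 = d' 0 0 := by
    have := congrFun (congrFun r1 0) 0
    simpa [Matrix.mul_apply, Fin.sum_univ_two] using this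
  have e20 : nu 0 1 = nu' 0 0 := by
    have := congrFun (congrFun r2 0) 0
    simpa [Matrix.mul_apply, Fin.sum_univ_two] using this
  have e21 : nu 1 1 = nu' 1 0 := by
    have := congrFun (congrFun r2 1) 0
    simpa [Matrix.mul_apply, Fin.sum_univ_two] using this
  have e30 : pi 0 1 = pi' 0 0 := by
    have := congrFun (congrFun r3 0) 0
    simpa [Matrix.mul_apply, Fin.sum_univ_two] using this
  have e31 : pi 1 1 = pi' 1 0 := by
    have := congrFun (congrFun r3 1) 0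
    simpa [Matrix.mul_apply, Fin.sum_univ_two] using this
  obtain ⟨x, y, hxy⟩ := exists_xy (pi' 1 1 * pi 0 1 - pi' 0 1 * pi 1 1)
    (pi 0 0 * pi 1 1 - pi 1 0 * pi 0 1) (pi 0 0 * pi' 1 1 - pi 1 0 * pi' 0 1)
    (d 0 0) (nu 0 0) (nu 1 0) (d 0 1) (nu 0 1) (nu 1 1) (d' 0 1) (nu' 0 1) (nu' 1 1) hδ
  obtain ⟨R1, hR1⟩ : ∃ R, R = x ^ 2 - d 0 0 - x * nu 0 0 - y * nu 1 0 := ⟨_, rfl⟩
  obtain ⟨R2, hR2⟩ : ∃ R, R = x * y - d 0 1 - x * nu 0 1 - y * nu 1 1 := ⟨_, rfl⟩
  obtain ⟨R3, hR3⟩ : ∃ R, R = y ^ 2 - d' 0 1 - x * nu' 0 1 - y * nu' 1 1 := ⟨_, rfl⟩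
  rw [← hR1, ← hR2, ← hR3] at hxy
  obtain ⟨δ, hd⟩ : ∃ δ, δ = pi 0 0 * pi' 1 1 - pi 1 0 * pi' 0 1 := ⟨_, rfl⟩
  rw [← hd] at hδ hxy
  obtain ⟨q0, hq0⟩ : ∃ q, q = (R1 * pi' 1 1 - R3 * pi 1 0) / δ := ⟨_, rfl⟩
  obtain ⟨q1, hq1⟩ : ∃ q, q = (pi 0 0 * R3 - pi' 0 1 * R1) / δ := ⟨_, rfl⟩
  have E1 : q0 * pi 0 0 + q1 * pi 1 0 = R1 := by
    rw [hq0, hq1]
    field_simp
    rw [hd]
    ring
  have E3 : q0 * pi' 0 1 + q1 * pi' 1 1 = R3 := by
    rw [hq0, hq1]
    field_simp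
    rw [hd]
    ring
  have E2 : q0 * pi 0 1 + q1 * pi 1 1 = R2 := by
    rw [hq0, hq1]
    field_simp
    linear_combination hxy
  let ev : Ix 1 2 2 → k := fun i => match i with
    | .inl (.inl _) => 0
    | .inl (.inr (.inl _)) => 0
    | .inl (.inr (.inr _)) => 1
    | .inr (.inl (.inl i)) => ![-(x * c 0 0 + y * c 1 0 + q0 * w 0 0 + q1 * w 1 0),
        -(x * c' 0 0 + y * c' 1 0 + q0 * w' 0 0 + q1 * w' 1 0)] i
    | .inr (.inl (.inr i)) => ![x, y] i
    | .inr (.inr i) => ![q0, q1] i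
  let ξ : Ix 1 2 2 → k := fun i => match i with
    | .inl (.inl _) => 0
    | .inl (.inr (.inl _)) => 0
    | .inl (.inr (.inr _)) => -x
    | .inr (.inl (.inl _)) => 0
    | .inr (.inl (.inr i)) => ![1, 0] i
    | .inr (.inr _) => 0
  have hA : ev ᵥ* JX k 1 2 2 = fun i => match i with
    | .inl (.inl _) => 0
    | .inl (.inr (.inl _)) => 1
    | .inl (.inr (.inr _)) => 0
    | .inr (.inl (.inl i)) => ![x, y] i
    | .inr (.inl (.inr _)) => 0
    | .inr (.inr _) => 0 := by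
    funext i
    rcases i with (i | i | i) | ((i | i) | i) <;> fin_cases i <;>
      simp [ev, JX, BX, vecMul, dotProduct, Fintype.sum_sum_type, Fin.sum_univ_two]
  refine raiseV hT h3 ξ ev x y ?_ ?_ ?_ ?_ ?_ ?_ ?_
  · funext i
    rcases i with (i | i | i) | ((i | i) | i) <;> fin_cases i <;>
      simp [ξ, JX, BX, mulVec, dotProduct, Fintype.sum_sum_type, Fin.sum_univ_two]
  · funext i
    rcases i with (i | i | i) | ((i | i) | i) <;> fin_cases i <;>
      simp [ξ, BX, mulVec, dotProduct, Fintype.sum_sum_type, Fin.sum_univ_two]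
  · funext i
    rcases i with (i | i | i) | ((i | i) | i) <;> fin_cases i <;>
      simp [ξ, BX, mulVec, dotProduct, Fintype.sum_sum_type, Fin.sum_univ_two]
  · simp [ξ, ev, dotProduct, Fintype.sum_sum_type, Fin.sum_univ_two]
  · rw [hA]
    funext i
    rcases i with (i | i | i) | ((i | i) | i) <;> fin_cases i <;>
      simp [ev, BX, vecMul, dotProduct, Fintype.sum_sum_type, Fin.sum_univ_two]
    · ring
    · linear_combination E1 + hR1
    · linear_combination E2 + hR2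
  · rw [hA]
    funext i
    rcases i with (i | i | i) | ((i | i) | i) <;> fin_cases i <;>
      simp [ev, BX, vecMul, dotProduct, Fintype.sum_sum_type, Fin.sum_univ_two]
    · ring
    · rw [← e1, ← e20, ← e21, ← e30, ← e31]
      linear_combination E2 + hR2
    · linear_combination E3 + hR3
  · intro h
    have h1 := congrFun (congrFun h (.inr (.inl (.inr 0)))) (.inl (.inl 0))
    rw [← vecMul_vecMul, hA] at h1
    simp [ξ, JX, BX, vecMulVec_apply, vecMul, dotProduct, Fintype.sum_sum_type,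
      Fin.sum_univ_two] at h1

/-- deformation of `pi`, `pi'` -/
theorem step3 [IsAlgClosed k] [CharZero k] (h3 : ρ 3 = 0)
    {c c' w w' : Matrix (Fin 2) (Fin 1) k} {d d' : Matrix (Fin 1) (Fin 2) k}
    {nu nu' pi pi' : Matrix (Fin 2) (Fin 2) k}
    (hT : MaxR ρ ![JX k 1 2 2, BX 0 0 !![1; 0] c w 0 d nu pi 0 0,
      BX 0 0 !![0; 1] c' w' 0 d' nu' pi' 0 0]) : False := by
  obtain ⟨-, r1, r2, r3, -, -, -⟩ := (BX_comm ..).1 (hT.cn.1 1 2)
  simp only [Matrix.zero_mul, Matrix.mul_zero, zero_add, add_zero] at r1 r2 r3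
  have kB : ∀ s : k, BX 0 0 !![1; 0] c w 0 d nu pi 0 0 +
      s • (BX 0 0 0 0 0 0 0 0 !![1, 0; 0, 0] 0 0 : Matrix (Ix 1 2 2) (Ix 1 2 2) k) =
      BX 0 0 !![1; 0] c w 0 d nu (pi + s • !![1, 0; 0, 0]) 0 0 := by
    intro s
    rw [BX_smul, BX_add]
    simp only [smul_zero, add_zero]
  have kC : ∀ s : k, BX 0 0 !![0; 1] c' w' 0 d' nu' pi' 0 0 +
      s • (BX 0 0 0 0 0 0 0 0 !![0, 0; 0, 1] 0 0 : Matrix (Ix 1 2 2) (Ix 1 2 2) k) =
      BX 0 0 !![0; 1] c' w' 0 d' nu' (pi' + s • !![0, 0; 0, 1]) 0 0 := by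
    intro s
    rw [BX_smul, BX_add]
    simp only [smul_zero, add_zero]
  have z1 : (!![1, 0; 0, 0] : Matrix (Fin 2) (Fin 2) k) * (!![0; 1] : Matrix (Fin 2) (Fin 1) k) = 0 := by
    ext i j
    fin_cases i <;> fin_cases j <;> simp [Matrix.mul_apply, Fin.sum_univ_two]
  have z2 : (!![0, 0; 0, 1] : Matrix (Fin 2) (Fin 2) k) * (!![1; 0] : Matrix (Fin 2) (Fin 1) k) = 0 := by
    ext i j
    fin_cases i <;> fin_cases j <;> simp [Matrix.mul_apply, Fin.sum_univ_two]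
  obtain ⟨s, hs, h1⟩ := D8.MaxR.line2 hT (BX 0 0 0 0 0 0 0 0 !![1, 0; 0, 0] 0 0)
    (BX 0 0 0 0 0 0 0 0 !![0, 0; 0, 1] 0 0) (fun s => by
      rw [kB, kC]
      refine cnX _ _ _ _ _ _ _ _ _ _ _ _ _ _ _ _ _ _ _ _ _ _ ?_ ?_ ?_ ?_ ?_ ?_ ?_
      · simp
      · simp only [Matrix.zero_mul, zero_add, add_zero]
        exact r1
      · simp only [Matrix.zero_mul, Matrix.mul_zero, zero_add, add_zero]
        exact r2
      · rw [Matrix.add_mul, Matrix.add_mul, Matrix.smul_mul, Matrix.smul_mul, z1, z2, r3,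
          smul_zero]
      · simp
      · simp
      · simp)
    (D8.finite_quad (a := pi 0 0 * pi' 1 1 - pi 1 0 * pi' 0 1) (b := pi 0 0 + pi' 1 1) (c := (1 : k))
      (Or.inr (Or.inr one_ne_zero)))
  rw [kB, kC] at h1
  rw [Set.mem_ofPred_eq] at hs
  refine final h3 h1 ?_
  intro h
  apply hs
  simp at h
  linear_combination h

/-- change of basis -/
theorem step2 [IsAlgClosed k] [CharZero k] (h3 : ρ 3 = 0)
    {a c a' c' w w' : Matrix (Fin 2) (Fin 1) k} {d d' : Matrix (Fin 1) (Fin 2) k}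
    {nu nu' pi pi' : Matrix (Fin 2) (Fin 2) k}
    (hT : MaxR ρ ![JX k 1 2 2, BX 0 0 a c w 0 d nu pi 0 0, BX 0 0 a' c' w' 0 d' nu' pi' 0 0])
    (hdet : a 0 0 * a' 1 0 - a' 0 0 * a 1 0 ≠ 0) : False := by
  obtain ⟨G, hG⟩ : ∃ G : Matrix (Fin 2) (Fin 2) k, G = !![a 0 0, a' 0 0; a 1 0, a' 1 0] := ⟨_, rfl⟩
  have hu : IsUnit G.det := by
    rw [hG, Matrix.det_fin_two_of]
    exact isUnit_iff_ne_zero.2 hdet
  have ea : G⁻¹ * a = (!![1; 0] : Matrix (Fin 2) (Fin 1) k) := by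
    have : a = G * (!![1; 0] : Matrix (Fin 2) (Fin 1) k) := by
      rw [hG]
      ext i j
      fin_cases i <;> fin_cases j <;> simp [Matrix.mul_apply, Fin.sum_univ_two]
    rw [this, ← Matrix.mul_assoc, Matrix.nonsing_inv_mul G hu, Matrix.one_mul]
  have ea' : G⁻¹ * a' = (!![0; 1] : Matrix (Fin 2) (Fin 1) k) := by
    have : a' = G * (!![0; 1] : Matrix (Fin 2) (Fin 1) k) := by
      rw [hG]
      ext i j
      fin_cases i <;> fin_cases j <;> simp [Matrix.mul_apply, Fin.sum_univ_two]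
    rw [this, ← Matrix.mul_assoc, Matrix.nonsing_inv_mul G hu, Matrix.one_mul]
  have h1 := MaxR.conjX (g := 1) (g' := 1) (h := G⁻¹) (h' := G) (l := 1) (l' := 1) hT (mul_one 1)
    (Matrix.nonsing_inv_mul G hu) (mul_one 1)
  simp only [Matrix.mul_one, Matrix.one_mul, Matrix.mul_zero, Matrix.zero_mul] at h1
  rw [ea, ea'] at h1
  exact step3 h3 h1

/-- deformation of `a` -/
theorem step1 [IsAlgClosed k] [CharZero k] (h3 : ρ 3 = 0)
    {a c a' c' w w' : Matrix (Fin 2) (Fin 1) k} {d d' : Matrix (Fin 1) (Fin 2) k}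
    {nu nu' pi pi' : Matrix (Fin 2) (Fin 2) k}
    (hT : MaxR ρ ![JX k 1 2 2, BX 0 0 a c w 0 d nu pi 0 0, BX 0 0 a' c' w' 0 d' nu' pi' 0 0])
    {x : Matrix (Fin 2) (Fin 1) k} {φ : Matrix (Fin 1) (Fin 2) k} (hφ : φ * a' = 1)
    (hx : x 0 0 * a' 1 0 - a' 0 0 * x 1 0 ≠ 0) : False := by
  obtain ⟨-, r1, r2, r3, -, -, -⟩ := (BX_comm ..).1 (hT.cn.1 1 2)
  simp only [Matrix.zero_mul, Matrix.mul_zero, zero_add, add_zero] at r1 r2 r3
  have kB : ∀ s : k, BX 0 0 a c w 0 d nu pi 0 0 +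
      s • (BX 0 0 x 0 0 0 (d' * x * φ) (nu' * x * φ) (pi' * x * φ) 0 0 :
        Matrix (Ix 1 2 2) (Ix 1 2 2) k) =
      BX 0 0 (a + s • x) c w 0 (d + s • (d' * x * φ)) (nu + s • (nu' * x * φ))
        (pi + s • (pi' * x * φ)) 0 0 := by
    intro s
    rw [BX_smul, BX_add]
    simp only [smul_zero, add_zero]
  have key : ∀ {m : ℕ} (s : k) (D D' : Matrix (Fin m) (Fin 2) k), D * a' = D' * a →
      (D + s • (D' * x * φ)) * a' = D' * (a + s • x) := by
    intro m s D D' h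
    rw [Matrix.add_mul, Matrix.smul_mul, Matrix.mul_assoc (D' * x), hφ, Matrix.mul_one, h,
      Matrix.mul_add, Matrix.mul_smul]
  obtain ⟨s, hs, h1⟩ := D8.MaxR.line2 hT
    (BX 0 0 x 0 0 0 (d' * x * φ) (nu' * x * φ) (pi' * x * φ) 0 0) 0 (fun s => by
      rw [kB, smul_zero, add_zero]
      refine cnX _ _ _ _ _ _ _ _ _ _ _ _ _ _ _ _ _ _ _ _ _ _ ?_ ?_ ?_ ?_ ?_ ?_ ?_
      · simp
      · simp only [Matrix.zero_mul, Matrix.mul_zero, zero_add, add_zero]
        exact key s _ _ r1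
      · simp only [Matrix.zero_mul, Matrix.mul_zero, zero_add, add_zero]
        exact key s _ _ r2
      · exact key s _ _ r3
      · simp
      · simp
      · simp)
    (D8.finite_quad (a := a 0 0 * a' 1 0 - a' 0 0 * a 1 0) (b := x 0 0 * a' 1 0 - a' 0 0 * x 1 0)
      (c := (0 : k)) (Or.inr (Or.inl hx)))
  rw [kB, smul_zero, add_zero] at h1
  rw [Set.mem_ofPred_eq] at hs
  refine step2 h3 h1 ?_
  intro h
  apply hs
  simp at h
  linear_combination h

/-- choice of `x` and `φ` -/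
theorem step0 [IsAlgClosed k] [CharZero k] (h3 : ρ 3 = 0)
    {a c a' c' w w' : Matrix (Fin 2) (Fin 1) k} {d d' : Matrix (Fin 1) (Fin 2) k}
    {nu nu' pi pi' : Matrix (Fin 2) (Fin 2) k}
    (hT : MaxR ρ ![JX k 1 2 2, BX 0 0 a c w 0 d nu pi 0 0, BX 0 0 a' c' w' 0 d' nu' pi' 0 0])
    (ha : a' ≠ 0) : False := by
  by_cases h0 : a' 0 0 = 0
  · have h1 : a' 1 0 ≠ 0 := by
      intro h1
      apply ha
      ext i j
      fin_cases i <;> fin_cases j
      · exact h0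
      · exact h1
    refine step1 (x := !![1; 0]) (φ := !![0, (a' 1 0)⁻¹]) h3 hT ?_ ?_
    · ext i j
      fin_cases i <;> fin_cases j
      simp [Matrix.mul_apply, Fin.sum_univ_two, h1]
    · simpa using h1
  · refine step1 (x := !![0; 1]) (φ := !![(a' 0 0)⁻¹, 0]) h3 hT ?_ ?_
    · ext i j
      fin_cases i <;> fin_cases j
      simp [Matrix.mul_apply, Fin.sum_univ_two, h0]
    · simpa using h0

end E1IIIAux

open E1IIIAux

theorem no_135 {k : Type*} [Field k] [IsAlgClosed k] [CharZero k] {ρ : ℕ → ℕ} (h3 : ρ 3 = 0)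
    {a c a' c' : Matrix (Fin 2) (Fin 1) k} {w w' : Matrix (Fin 2) (Fin 1) k}
    {d d' : Matrix (Fin 1) (Fin 2) k} {nu nu' pi pi' : Matrix (Fin 2) (Fin 2) k}
    (hT : MaxR ρ ![JX k 1 2 2, BX 0 0 a c w 0 d nu pi 0 0, BX 0 0 a' c' w' 0 d' nu' pi' 0 0])
    (ha : a ≠ 0 ∨ a' ≠ 0) : False := by
  rcases ha with ha | ha
  · exact step0 h3 (D8.MaxR.swap hT) ha
  · exact step0 h3 hT ha

end Pool.Agent.Lib.D9
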