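import Pool.Agent.Lib.D9.E1mix
import Pool.Agent.Lib.D9.E1b

/-!
Module E1red (1h; black boxes shapeX, mix1, caseA1, case01). e = 1, u, p arbitrary.
PROOF. shapeX; N, M, N', M' are 1 x 1: subtract N 0 0 * A + M 0 0 * A^2 (MaxR.lin, JX_sq, BX_add, BX_smul) so that N = M = N' = M' = 0 (nu changes). mix1: a = a' = 0 or b = b' = 0; in the first case apply MaxR.dualX (exchanges a and b, pi and et, th and w, transposed): WLOG b = b' = 0.
If (a, a') <> 0: caseA1. If a = a' = 0: case01: pi = pi' = 0 (done), or et = et' = 0: then MaxR.dualX gives a triple with a = a' = b = b' = 0 and pi = pi' = 0 (done).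
ρ 1 <= 2 + u, ρ 2 <= 1 from hρ, JX_rank, JX_rank_sq.
-/

namespace Pool.Agent.Lib.D9

open Matrix Pool.Agent.Lib.Q5dc Pool.Agent.Lib.D7

namespace E1redAux

variable {k : Type*} [Field k] [CharZero k] {u p : ℕ} {ρ : ℕ → ℕ}

omit [CharZero k] in
theorem one_by_one (N : Matrix (Fin 1) (Fin 1) k) : N = N 0 0 • (1 : Matrix (Fin 1) (Fin 1) k) := by
  ext i j
  fin_cases i
  fin_cases j
  simp

theorem clean (N M : Matrix (Fin 1) (Fin 1) k) (a c : Matrix (Fin u) (Fin 1) k)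
    (w : Matrix (Fin p) (Fin 1) k) (b d : Matrix (Fin 1) (Fin u) k)
    (nu : Matrix (Fin u) (Fin u) k) (pi : Matrix (Fin p) (Fin u) k)
    (th : Matrix (Fin 1) (Fin p) k) (et : Matrix (Fin u) (Fin p) k) :
    BX N M a c w b d nu pi th et + (-N 0 0) • JX k 1 u p +
      (-M 0 0) • (JX k 1 u p * JX k 1 u p) =
      BX 0 0 a c w b d (nu + (-N 0 0) • 1) pi th et := by
  have hN := one_by_one N
  have hM := one_by_one M
  have e1 : N + (-N 0 0) • (1 : Matrix (Fin 1) (Fin 1) k) = 0 := by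
    nth_rewrite 1 [hN]
    rw [neg_smul, add_neg_cancel]
  have e2 : M + (-M 0 0) • (1 : Matrix (Fin 1) (Fin 1) k) = 0 := by
    nth_rewrite 1 [hM]
    rw [neg_smul, add_neg_cancel]
  rw [JX_sq, JX, BX_smul, BX_smul, BX_add, BX_add]
  simp only [smul_zero, add_zero, e1, e2]

theorem redb {a c a' c' : Matrix (Fin u) (Fin 1) k}
    {w w' : Matrix (Fin p) (Fin 1) k} {d d' : Matrix (Fin 1) (Fin u) k}
    {nu nu' : Matrix (Fin u) (Fin u) k} {pi pi' : Matrix (Fin p) (Fin u) k}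
    {th th' : Matrix (Fin 1) (Fin p) k} {et et' : Matrix (Fin u) (Fin p) k}
    (h1 : ρ 1 ≤ 2 + u) (h2 : ρ 2 ≤ 1)
    (hT : MaxR ρ ![JX k 1 u p, BX 0 0 a c w 0 d nu pi th et,
      BX 0 0 a' c' w' 0 d' nu' pi' th' et']) :
    ∃ (a c : Matrix (Fin u) (Fin 1) k) (w : Matrix (Fin p) (Fin 1) k)
      (d : Matrix (Fin 1) (Fin u) k) (nu : Matrix (Fin u) (Fin u) k)
      (pi : Matrix (Fin p) (Fin u) k) (th : Matrix (Fin 1) (Fin p) k)
      (et : Matrix (Fin u) (Fin p) k)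
      (a' c' : Matrix (Fin u) (Fin 1) k) (w' : Matrix (Fin p) (Fin 1) k)
      (d' : Matrix (Fin 1) (Fin u) k) (nu' : Matrix (Fin u) (Fin u) k)
      (pi' : Matrix (Fin p) (Fin u) k) (th' : Matrix (Fin 1) (Fin p) k)
      (et' : Matrix (Fin u) (Fin p) k),
      MaxR ρ ![JX k 1 u p, BX 0 0 a c w 0 d nu pi th et, BX 0 0 a' c' w' 0 d' nu' pi' th' et'] ∧
      ((pi = 0 ∧ pi' = 0) ∨
        ((a ≠ 0 ∨ a' ≠ 0) ∧ th = 0 ∧ th' = 0 ∧ et = 0 ∧ et' = 0)) := by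
  by_cases ha : a = 0 ∧ a' = 0
  · obtain ⟨rfl, rfl⟩ := ha
    rcases case01 h1 hT with h | ⟨rfl, rfl⟩
    · exact ⟨_, _, _, _, _, _, _, _, _, _, _, _, _, _, _, _, hT, Or.inl h⟩
    · have hD := MaxR.dualX hT
      simp only [transpose_zero] at hD
      exact ⟨_, _, _, _, _, _, _, _, _, _, _, _, _, _, _, _, hD, Or.inl ⟨rfl, rfl⟩⟩
  · have ha' : a ≠ 0 ∨ a' ≠ 0 := by
      by_cases h : a = 0
      · exact Or.inr fun h' => ha ⟨h, h'⟩
      · exact Or.inl h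
    rcases caseA1 h1 h2 hT ha' with h | h
    · exact ⟨_, _, _, _, _, _, _, _, _, _, _, _, _, _, _, _, hT, Or.inl h⟩
    · exact ⟨_, _, _, _, _, _, _, _, _, _, _, _, _, _, _, _, hT, Or.inr ⟨ha', h⟩⟩

end E1redAux

open E1redAux in
theorem red1 {k : Type*} [Field k] [CharZero k] {u p : ℕ} {ρ : ℕ → ℕ}
    {T : Fin 3 → Matrix (Ix 1 u p) (Ix 1 u p) k} (hT : MaxR ρ T)
    (hρ : ∀ i, ρ i = (JX k 1 u p ^ i).rank) (h0 : T 0 = JX k 1 u p) :
    ∃ (a c : Matrix (Fin u) (Fin 1) k) (w : Matrix (Fin p) (Fin 1) k)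
      (d : Matrix (Fin 1) (Fin u) k) (nu : Matrix (Fin u) (Fin u) k)
      (pi : Matrix (Fin p) (Fin u) k) (th : Matrix (Fin 1) (Fin p) k)
      (et : Matrix (Fin u) (Fin p) k)
      (a' c' : Matrix (Fin u) (Fin 1) k) (w' : Matrix (Fin p) (Fin 1) k)
      (d' : Matrix (Fin 1) (Fin u) k) (nu' : Matrix (Fin u) (Fin u) k)
      (pi' : Matrix (Fin p) (Fin u) k) (th' : Matrix (Fin 1) (Fin p) k)
      (et' : Matrix (Fin u) (Fin p) k),
      MaxR ρ ![JX k 1 u p, BX 0 0 a c w 0 d nu pi th et, BX 0 0 a' c' w' 0 d' nu' pi' th' et'] ∧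
      ((pi = 0 ∧ pi' = 0) ∨
        ((a ≠ 0 ∨ a' ≠ 0) ∧ th = 0 ∧ th' = 0 ∧ et = 0 ∧ et' = 0)) := by

  have h1 : ρ 1 ≤ 2 + u := by
    rw [hρ 1, pow_one]
    exact JX_rank
  have h2 : ρ 2 ≤ 1 := by
    rw [hρ 2]
    exact JX_rank_sq
  obtain ⟨N, M, a, c, w, b, d, nu, pi, th, et, N', M', a', c', w', b', d', nu', pi', th', et',
    hS⟩ := shapeX hT hρ h0
  have hL := D8.MaxR.lin hS 1 0 0 1 (-N 0 0) (-M 0 0) (-N' 0 0) (-M' 0 0) (by simp)
  simp only [one_smul, zero_smul, add_zero, zero_add, clean] at hL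
  rcases mix1 h2 hL with ⟨rfl, rfl⟩ | ⟨rfl, rfl⟩
  · have hD := MaxR.dualX hL
    simp only [transpose_zero] at hD
    exact redb h1 h2 hD
  · exact redb h1 h2 hL

end Pool.Agent.Lib.D9
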