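import Pool.Agent.Lib.D9.BlkMap
import Pool.Agent.Lib.D9.E1red
import Pool.Agent.Lib.D9.E1I
import Pool.Agent.Lib.D9.E1III

/-!
Module T32211 (0.8h; black boxes toX32211, red1, no_I1, no_135). Type (3, 2, 2, 1, 1): e = 1, u = 2, p = 2, q = 2.
PROOF. toX32211, red1; first case: no_I1 with q = 2; second case: no_135 (ρ 3 = 0 by JX_cube).
-/

namespace Pool.Agent.Lib.D9

open Matrix Pool.Agent.Lib.Q5dc Pool.Agent.Lib.D7

theorem no_32211 {k : Type*} [Field k] [IsAlgClosed k] [CharZero k] {ρ : ℕ → ℕ}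
    (hcl : ∀ (r : Fin 6 × Fin 3 → k) (g : Fin 3 × Fin 2 × Fin 3 → k), Cl (T1X 2 3 r g))
    {T : Fin 3 → Matrix (Fin 9) (Fin 9) k} (hT : MaxR ρ T)
    (hρ : ∀ i, ρ i = (J32211 k ^ i).rank) (h0 : T 0 = J32211 k) : False := by
  haveI : Infinite k := inferInstance
  obtain ⟨hρ', T', hT', h0'⟩ := toX32211 hT hρ h0
  obtain ⟨a, c, w, d, nu, pi, th, et, a', c', w', d', nu', pi', th', et', hM, h⟩ :=
    red1 hT' hρ' h0'
  rcases h with ⟨rfl, rfl⟩ | ⟨ha, rfl, rfl, rfl, rfl⟩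
  · exact no_I1 (q := 2) rfl hcl hM
  · refine no_135 ?_ hM ha
    rw [hρ' 3, JX_cube, Matrix.rank_zero]

end Pool.Agent.Lib.D9
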