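import Pool.Agent.Lib.D9.BlkMap
import Pool.Agent.Lib.D9.E1red
import Pool.Agent.Lib.D9.E1I

/-!
Module T3222 (0.8h; black boxes toX3222, red1, no_I1). Type (3, 2, 2, 2): e = 1, u = 3, p = 0, q = 1.
PROOF. toX3222, red1 (u = 3, p = 0): pi, pi' are 0 x 3 matrices, so pi = pi' = 0 in every case (Subsingleton / Matrix.of_isEmpty); no_I1 with q = 1 (hq : 3 + 0 = 1 + 2).
-/

namespace Pool.Agent.Lib.D9

open Matrix Pool.Agent.Lib.Q5dc Pool.Agent.Lib.D7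

theorem no_3222 {k : Type*} [Field k] [IsAlgClosed k] [CharZero k] {ρ : ℕ → ℕ}
    (hcl : ∀ (r : Fin 6 × Fin 4 → k) (g : Fin 3 × Fin 1 × Fin 4 → k), Cl (T1X 1 4 r g))
    {T : Fin 3 → Matrix (Fin 9) (Fin 9) k} (hT : MaxR ρ T)
    (hρ : ∀ i, ρ i = (J3222 k ^ i).rank) (h0 : T 0 = J3222 k) : False := by
  obtain ⟨hρ', T', hT', h0'⟩ := toX3222 hT hρ h0
  obtain ⟨a, c, w, d, nu, pi, th, et, a', c', w', d', nu', pi', th', et', hM, -⟩ :=
    red1 hT' hρ' h0'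
  obtain rfl : pi = 0 := Subsingleton.elim _ _
  obtain rfl : pi' = 0 := Subsingleton.elim _ _
  exact no_I1 (u := 3) (p := 0) (q := 1) rfl hcl hM

end Pool.Agent.Lib.D9
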