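import Pool.Agent.Lib.D9.T441D

/-!
# MP_5dcbc3_ag: Jordan type `(4, 4, 1)`
-/

namespace Pool.Agent.Lib.D9

open Matrix Polynomial Pool.Agent.Lib.Q5dc Pool.Agent.Lib.D7 Pool.Agent.Lib.D8

variable {k : Type*} [Field k]

namespace T441

theorem cn_three {n : Type*} [Fintype n] [DecidableEq n] {A B C : Matrix n n k}
    (hAB : A * B = B * A) (hAC : A * C = C * A) (hBC : B * C = C * B) (hA : IsNilpotent A)
    (hB : IsNilpotent B) (hC : IsNilpotent C) : CN ![A, B, C] := by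
  refine ⟨fun i j => ?_, fun i => ?_⟩
  · fin_cases i <;> fin_cases j
    · rfl
    · exact hAB
    · exact hAC
    · exact hAB.symm
    · rfl
    · exact hBC
    · exact hAC.symm
    · exact hBC.symm
    · rfl
  · fin_cases i
    · exact hA
    · exact hB
    · exact hC

theorem conj_eq {g gi : Matrix (Fin 2) (Fin 2) k} (K0 K1 K2 K3 : Matrix (Fin 2) (Fin 2) k)
    (ρ κ : Fin 2 → k) (r : k) :
    Φ gi 0 0 0 0 0 1 * Φ K0 K1 K2 K3 ρ κ r * Φ g 0 0 0 0 0 1 =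
      Φ (gi * K0 * g) (gi * K1 * g) (gi * K2 * g) (gi * K3 * g) (ρ ᵥ* g) (gi *ᵥ κ) r := by
  rw [Φ_mul, Φ_mul]
  have z1 : ∀ w : Fin 2 → k, vecMulVec w (0 : Fin 2 → k) = 0 := by
    intro w; ext i j; simp [vecMulVec]
  have z2 : ∀ w : Fin 2 → k, vecMulVec (0 : Fin 2 → k) w = 0 := by
    intro w; ext i j; simp [vecMulVec]
  congr 1 <;> simp [z1, z2]

/-- elimination of the first column -/
theorem elim_col {c : k} (hc : c ≠ 0) (a1 a2 a3 b1 b2 b3 c' a1' a2' a3' b1' b2' b3' : k) :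
    ∃ l0 l1 l2 l3 m1 m2 m3 : k, c' = l0 * c ∧ b1' = l0 * b1 + l1 * c ∧
      b2' = l0 * b2 + l1 * b1 + l2 * c ∧ b3' = l0 * b3 + l1 * b2 + l2 * b1 + l3 * c ∧
      a1' = l0 * a1 + m1 ∧ a2' = l0 * a2 + l1 * a1 + m2 ∧
      a3' = l0 * a3 + l1 * a2 + l2 * a1 + m3 := by
  have h : ∀ x : k, ∃ l, x = l * c := fun x => ⟨x / c, by field_simp⟩
  obtain ⟨l0, h0⟩ := h c'
  obtain ⟨l1, h1⟩ := h (b1' - l0 * b1)
  obtain ⟨l2, h2⟩ := h (b2' - l0 * b2 - l1 * b1)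
  obtain ⟨l3, h3⟩ := h (b3' - l0 * b3 - l1 * b2 - l2 * b1)
  exact ⟨l0, l1, l2, l3, a1' - l0 * a1, a2' - l0 * a2 - l1 * a1,
    a3' - l0 * a3 - l1 * a2 - l2 * a1, h0, by linear_combination h1, by linear_combination h2,
    by linear_combination h3, by ring, by ring, by ring⟩

theorem J_mul (K0 K1 K2 K3 : Matrix (Fin 2) (Fin 2) k) (ρ κ : Fin 2 → k) :
    J441 k * Φ K0 K1 K2 K3 ρ κ 0 = Φ 0 K0 K1 K2 0 0 0 := by
  rw [Φ_J, Φ_mul]
  congr 1 <;> simp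

/-- the deformation has corank at most two -/
theorem rank_ge {K0 : Matrix (Fin 2) (Fin 2) k} (h00 : K0 0 0 = 0) (h01 : K0 0 1 = 0)
    (h11 : K0 1 1 = 0) (h10 : K0 1 0 ≠ 0) {K1 : Matrix (Fin 2) (Fin 2) k} (hf : K1 0 1 ≠ 0)
    (K2 K3 : Matrix (Fin 2) (Fin 2) k) (ρ κ : Fin 2 → k) : 9 ≤ (Φ K0 K1 K2 K3 ρ κ 0).rank + 2 := by
  have h : 7 ≤ (Φ K0 K1 K2 K3 ρ κ 0).rank := by
    refine le_rank_of_minor _ ![4, 1, 5, 2, 6, 3, 7] ![0, 4, 1, 5, 2, 6, 3] ?_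
    rw [Matrix.det_of_isLowerTriangular]
    · rw [Fin.prod_univ_succ, Fin.prod_univ_succ, Fin.prod_univ_succ, Fin.prod_univ_succ,
        Fin.prod_univ_succ, Fin.prod_univ_succ, Fin.prod_univ_succ, Fin.prod_univ_zero]
      simp [Φ, h10, hf]
    · intro i j hij
      fin_cases i <;> fin_cases j <;> first | (exfalso; revert hij; decide) | simp [Φ, h00, h01, h11]
  omega

/-- first case, after the elimination -/
theorem cl_caseI_aux [IsAlgClosed k] [CharZero k] {K0 K1 K2 K3 M0 M1 M2 M3 :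
    Matrix (Fin 2) (Fin 2) k} {ρ κ σ τ : Fin 2 → k}
    (hT : CN ![J441 k, Φ K0 K1 K2 K3 ρ κ 0, Φ M0 M1 M2 M3 σ τ 0])
    (h00 : K0 0 0 = 0) (h01 : K0 0 1 = 0) (h11 : K0 1 1 = 0) (h10 : K0 1 0 ≠ 0)
    (g00 : M0 0 0 = 0) (g01 : M0 0 1 = 0) (g10 : M0 1 0 = 0) (g11 : M0 1 1 = 0)
    (p1 : M1 0 0 = 0) (q1 : M1 1 0 = 0) (p2 : M2 0 0 = 0) (q2 : M2 1 0 = 0)
    (p3 : M3 0 0 = 0) (q3 : M3 1 0 = 0) :
    Cl ![J441 k, Φ K0 K1 K2 K3 ρ κ 0, Φ M0 M1 M2 M3 σ τ 0] := by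
  have hinf : Infinite k := IsAlgClosed.instInfinite
  have hM0 : M0 = 0 := by
    ext i j
    fin_cases i <;> fin_cases j
    · exact g00
    · exact g01
    · exact g10
    · exact g11
  subst hM0
  have hK0 : K0 = !![0, 0; K0 1 0, 0] := by
    ext i j
    fin_cases i <;> fin_cases j
    · exact h00
    · exact h01
    · rfl
    · exact h11
  have hc : Φ K0 K1 K2 K3 ρ κ 0 * Φ 0 M1 M2 M3 σ τ 0 =
      Φ 0 M1 M2 M3 σ τ 0 * Φ K0 K1 K2 K3 ρ κ 0 := hT.1 1 2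
  rw [Φ_mul, Φ_mul] at hc
  obtain ⟨-, r1, r2, r3, r4, r5, -⟩ := Φ_inj hc
  simp only [zero_mul, mul_zero, zero_add, add_zero, zero_smul] at r1 r2 r3 r4 r5
  have key : ∀ M : Matrix (Fin 2) (Fin 2) k, M 0 0 = 0 → M 1 0 = 0 → K0 * M = M * K0 →
      M = 0 := by
    intro M m1 m2 hM
    have e := fun i j => congrFun (congrFun hM i) j
    have e00 := e 0 0
    have e10 := e 1 0
    rw [Matrix.mul_apply, Matrix.mul_apply, Fin.sum_univ_two, Fin.sum_univ_two, m1, m2, h00]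
      at e00
    rw [Matrix.mul_apply, Matrix.mul_apply, Fin.sum_univ_two, Fin.sum_univ_two, m1, m2, h00]
      at e10
    simp only [mul_zero, add_zero, zero_add, zero_mul] at e00 e10
    have e1 : M 0 1 = 0 := (mul_eq_zero.1 e00.symm).resolve_right h10
    have e2 : M 1 1 = 0 := (mul_eq_zero.1 e10.symm).resolve_right h10
    ext i j
    fin_cases i <;> fin_cases j
    · exact m1
    · exact e1
    · exact m2
    · exact e2
  have hM1 : M1 = 0 := key M1 p1 q1 r1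
  subst hM1
  simp only [mul_zero, zero_mul, add_zero, zero_add] at r2
  have hM2 : M2 = 0 := key M2 p2 q2 r2
  subst hM2
  have hτ : τ 0 = 0 := by
    have h1 := congrFun r5 1
    rw [hK0] at h1
    simp [Matrix.mulVec, dotProduct, Fin.sum_univ_two] at h1
    exact h1.resolve_left h10
  have hσ : σ 1 = 0 := by
    have h1 := congrFun r4 0
    rw [hK0] at h1
    simp [Matrix.vecMul, dotProduct, Fin.sum_univ_two] at h1
    exact h1.resolve_right h10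
  -- the deformation
  refine cl_of_line (D := Φ 0 !![0, 1; 0, 0] 0 0 0 0 0) (E := 0)
    (F := {t | K1 0 1 + t = 0}) ?_ fun t ht => ?_
  · refine (Set.finite_singleton (-(K1 0 1))).subset fun t ht => ?_
    rw [Set.mem_singleton_iff]
    have h2 : K1 0 1 + t = 0 := ht
    linear_combination h2
  · have e1 : Φ K0 K1 K2 K3 ρ κ 0 + t • Φ 0 !![0, 1; 0, 0] 0 0 0 0 0 =
        Φ K0 (K1 + t • !![0, 1; 0, 0]) K2 K3 ρ κ 0 := by
      rw [Φ_smul, Φ_add]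
      congr 1 <;> simp
    rw [smul_zero, add_zero]
    have hN : Φ 0 !![0, 1; 0, 0] 0 0 0 0 0 * Φ 0 0 0 M3 σ τ 0 =
        Φ 0 0 0 M3 σ τ 0 * Φ 0 !![0, 1; 0, 0] 0 0 0 0 0 := by
      rw [mul0_eq_zero, mul0_eq_zero]
      · simp
      · ext i j
        simp [vecMulVec]
      · simp
      · ext i j
        simp [vecMulVec]
    have hcn : CN ![J441 k, Φ K0 K1 K2 K3 ρ κ 0 + t • Φ 0 !![0, 1; 0, 0] 0 0 0 0 0,
        Φ 0 0 0 M3 σ τ 0] := by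
      refine cn_three ?_ ?_ ?_ (hT.2 0) ?_ (hT.2 2)
      · rw [e1]; exact J_comm _ _ _ _ _ _ _
      · exact J_comm _ _ _ _ _ _ _
      · have h1 : Φ K0 K1 K2 K3 ρ κ 0 * Φ 0 0 0 M3 σ τ 0 =
          Φ 0 0 0 M3 σ τ 0 * Φ K0 K1 K2 K3 ρ κ 0 := hT.1 1 2
        rw [add_mul, mul_add, smul_mul_assoc, mul_smul_comm, hN, h1]
      · rw [e1]
        refine nil_sq ?_ _ _ _ _ _
        rw [hK0]
        ext i j
        fin_cases i <;> fin_cases j <;> simp [Matrix.mul_apply, Fin.sum_univ_two]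
    refine cl_corank (by norm_num) hcn (M := Φ K0 K1 K2 K3 ρ κ 0 +
      t • Φ 0 !![0, 1; 0, 0] 0 0 0 0 0) (mem_adj ![J441 k, Φ K0 K1 K2 K3 ρ κ 0 +
      t • Φ 0 !![0, 1; 0, 0] 0 0 0 0 0, Φ 0 0 0 M3 σ τ 0] 1) ?_
    rw [e1]
    refine rank_ge h00 h01 h11 h10 ?_ _ _ _ _
    intro h2
    apply ht
    rw [Set.mem_ofPred_eq]
    simpa using h2

/-- first case -/
theorem cl_caseI [IsAlgClosed k] [CharZero k] {K0 K1 K2 K3 L0 L1 L2 L3 :
    Matrix (Fin 2) (Fin 2) k} {ρ κ σ τ : Fin 2 → k}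
    (hT : CN ![J441 k, Φ K0 K1 K2 K3 ρ κ 0, Φ L0 L1 L2 L3 σ τ 0])
    (h00 : K0 0 0 = 0) (h01 : K0 0 1 = 0) (h11 : K0 1 1 = 0) (h10 : K0 1 0 ≠ 0)
    (g00 : L0 0 0 = 0) (g01 : L0 0 1 = 0) (g11 : L0 1 1 = 0) :
    Cl ![J441 k, Φ K0 K1 K2 K3 ρ κ 0, Φ L0 L1 L2 L3 σ τ 0] := by
  obtain ⟨l0, l1, l2, l3, m1, m2, m3, f1, f2, f3, f4, f5, f6, f7⟩ := elim_col h10 (K1 0 0)
    (K2 0 0) (K3 0 0) (K1 1 0) (K2 1 0) (K3 1 0) (L0 1 0) (L1 0 0) (L2 0 0) (L3 0 0)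
    (L1 1 0) (L2 1 0) (L3 1 0)
  obtain ⟨A, hA⟩ : ∃ A, A = J441 k := ⟨_, rfl⟩
  obtain ⟨B, hB⟩ : ∃ B, B = Φ K0 K1 K2 K3 ρ κ 0 := ⟨_, rfl⟩
  obtain ⟨C, hC⟩ : ∃ C, C = Φ L0 L1 L2 L3 σ τ 0 := ⟨_, rfl⟩
  obtain ⟨R, hR⟩ : ∃ R, R = l0 • B + l1 • (A * B) + l2 • (A * (A * B)) +
    l3 • (A * (A * (A * B))) + m1 • A + m2 • (A * A) + m3 • (A * (A * A)) := ⟨_, rfl⟩
  have hRm : ∀ T : Fin 3 → Matrix (Fin 9) (Fin 9) k, A ∈ adj T → B ∈ adj T → R ∈ adj T := by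
    intro T a b
    have ab := mul_mem a b
    have aab := mul_mem a ab
    have aaab := mul_mem a aab
    have aa := mul_mem a a
    rw [hR]
    exact add_mem (add_mem (add_mem (add_mem (add_mem (add_mem (SMulMemClass.smul_mem l0 b)
      (SMulMemClass.smul_mem l1 ab)) (SMulMemClass.smul_mem l2 aab))
      (SMulMemClass.smul_mem l3 aaab)) (SMulMemClass.smul_mem m1 a))
      (SMulMemClass.smul_mem m2 aa)) (SMulMemClass.smul_mem m3 (mul_mem a aa))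
  have hRe : C - R = Φ (L0 - l0 • K0) (L1 - (l0 • K1 + l1 • K0 + m1 • 1))
      (L2 - (l0 • K2 + l1 • K1 + l2 • K0 + m2 • 1))
      (L3 - (l0 • K3 + l1 • K2 + l2 • K1 + l3 • K0 + m3 • 1)) (σ - l0 • ρ) (τ - l0 • κ) 0 := by
    rw [hR, hB, hC, hA, J_mul, J_mul, J_mul]
    have e2 : J441 k * J441 k = Φ 0 0 1 0 0 0 0 := by
      have h := J_mul (k := k) 0 1 0 0 0 0
      rwa [← Φ_J] at h
    have e3 : J441 k * (J441 k * J441 k) = Φ 0 0 0 1 0 0 0 := by rw [e2, J_mul]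
    rw [e3, e2]
    have e1 : m1 • J441 k = m1 • Φ 0 1 0 0 0 0 0 := by rw [Φ_J]
    rw [e1]
    simp only [Φ_smul, Φ_add, Φ_sub]
    congr 1 <;> simp
  rw [← hA, ← hB, ← hC]
  have mA : A ∈ adj ![A, B, C] := mem_adj ![A, B, C] 0
  have mB : B ∈ adj ![A, B, C] := mem_adj ![A, B, C] 1
  have mC : C ∈ adj ![A, B, C] := mem_adj ![A, B, C] 2
  have nA : A ∈ adj ![A, B, C - R] := mem_adj ![A, B, C - R] 0
  have nB : B ∈ adj ![A, B, C - R] := mem_adj ![A, B, C - R] 1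
  have nC : C - R ∈ adj ![A, B, C - R] := mem_adj ![A, B, C - R] 2
  rw [← hA, ← hB, ← hC] at hT
  have hT' : CN ![A, B, C - R] := CN.of_adj hT (fun i => by
    fin_cases i
    · exact mA
    · exact mB
    · exact sub_mem mC (hRm _ mA mB))
  have h1 : Cl ![A, B, C - R] := by
    rw [hRe, hB, hA] at hT' ⊢
    refine cl_caseI_aux hT' h00 h01 h11 h10 ?_ ?_ ?_ ?_ ?_ ?_ ?_ ?_ ?_ ?_
    · simp [g00, h00]
    · simp [g01, h01]
    · simp
      linear_combination f1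
    · simp [g11, h11]
    · simp [h00]
      linear_combination f5
    · simp
      linear_combination f2
    · simp [h00]
      linear_combination f6
    · simp
      linear_combination f3
    · simp [h00]
      linear_combination f7
    · simp
      linear_combination f4
  refine cl_adj3 h1 nA nB ?_
  have h2 := add_mem nC (hRm _ nA nB)
  rwa [sub_add_cancel] at h2

/-- a triple with strictly lower triangular leading terms -/
theorem cl_low [IsAlgClosed k] [CharZero k] {K0 K1 K2 K3 L0 L1 L2 L3 :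
    Matrix (Fin 2) (Fin 2) k} {ρ κ σ τ : Fin 2 → k}
    (hT : CN ![J441 k, Φ K0 K1 K2 K3 ρ κ 0, Φ L0 L1 L2 L3 σ τ 0])
    (h00 : K0 0 0 = 0) (h01 : K0 0 1 = 0) (h11 : K0 1 1 = 0)
    (g00 : L0 0 0 = 0) (g01 : L0 0 1 = 0) (g11 : L0 1 1 = 0) :
    Cl ![J441 k, Φ K0 K1 K2 K3 ρ κ 0, Φ L0 L1 L2 L3 σ τ 0] := by
  by_cases h10 : K0 1 0 = 0
  · by_cases g10 : L0 1 0 = 0
    · have hK0 : K0 = 0 := by
        ext i j
        fin_cases i <;> fin_cases j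
        · exact h00
        · exact h01
        · exact h10
        · exact h11
      have hL0 : L0 = 0 := by
        ext i j
        fin_cases i <;> fin_cases j
        · exact g00
        · exact g01
        · exact g10
        · exact g11
      subst hK0 hL0
      have hc : Φ 0 K1 K2 K3 ρ κ 0 * Φ 0 L1 L2 L3 σ τ 0 =
        Φ 0 L1 L2 L3 σ τ 0 * Φ 0 K1 K2 K3 ρ κ 0 := hT.1 1 2
      rw [mul0, mul0] at hc
      obtain ⟨-, -, r2, r3, -, -, -⟩ := Φ_inj hc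
      -- the family `W`
      have key : ∀ (K1 K2 K3 L1 L2 L3 : Matrix (Fin 2) (Fin 2) k) (ρ κ σ τ : Fin 2 → k)
          (α β : k), L1 = α • 1 + β • K1 →
          K1 * L2 + K2 * L1 + vecMulVec κ σ = L1 * K2 + L2 * K1 + vecMulVec τ ρ →
          Cl ![J441 k, Φ 0 K1 K2 K3 ρ κ 0, Φ 0 L1 L2 L3 σ τ 0] := by
        intro K1 K2 K3 L1 L2 L3 ρ κ σ τ α β h1 h2
        have h3 : W K1 ρ κ (L2 - β • K2) (σ - β • ρ) (τ - β • κ) := by
          unfold W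
          rw [h1] at h2
          simp only [Matrix.mul_sub, Matrix.sub_mul, Matrix.mul_smul, Matrix.smul_mul,
            Matrix.mul_add, Matrix.add_mul, Matrix.mul_one, Matrix.one_mul,
            Matrix.sub_vecMulVec, Matrix.vecMulVec_sub, Matrix.smul_vecMulVec,
            Matrix.vecMulVec_smul] at h2 ⊢
          rw [← sub_eq_zero] at h2 ⊢
          rw [← h2]
          abel
        refine cl_adjc (G_all h3 K2 K3 (L3 - β • K3)) (a0 := 0) (b0 := 1) (c0 := 0) (d0 := 0)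
          (e0 := 0) (a1 := α) (b1 := β) (c1 := 1) (d1 := 0) (e1 := 0) ?_ ?_
        · rw [comb]
          congr 1 <;> simp
        · rw [comb]
          congr 1
          · simp
          · simp
          · simp
          · simp
      rcases comm_cases r2 with ⟨α, β, h1⟩ | ⟨α, h1⟩
      · exact key K1 K2 K3 L1 L2 L3 ρ κ σ τ α β h1 r3
      · exact Two.cl_swap (key L1 L2 L3 K1 K2 K3 σ τ ρ κ α 0 (by rw [h1]; simp) r3.symm)
    · refine Two.cl_swap (cl_caseI ?_ g00 g01 g11 g10 h00 h01 h11)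
      exact cn_three (hT.1 0 2) (hT.1 0 1) (hT.1 2 1) (hT.2 0) (hT.2 2) (hT.2 1)
  · exact cl_caseI hT h00 h01 h11 h10 g00 g01 g11

theorem cl_441 [IsAlgClosed k] [CharZero k] {T : Fin 3 → Matrix (Fin 9) (Fin 9) k} (hT : CN T)
    (h0 : T 0 = J441 k) : Cl T := by
  have hB : J441 k * T 1 = T 1 * J441 k := by rw [← h0]; exact hT.1 0 1
  have hC : J441 k * T 2 = T 2 * J441 k := by rw [← h0]; exact hT.1 0 2
  obtain ⟨K0, K1, K2, K3, ρ, κ, r, h1⟩ := shape hB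
  obtain ⟨L0, L1, L2, L3, σ, τ, s, h2⟩ := shape hC
  obtain ⟨n1, rfl⟩ := of_nil (h1 ▸ hT.2 1)
  obtain ⟨n2, rfl⟩ := of_nil (h2 ▸ hT.2 2)
  have hT3 : T = ![J441 k, Φ K0 K1 K2 K3 ρ κ 0, Φ L0 L1 L2 L3 σ τ 0] := by
    funext i
    fin_cases i
    · exact h0
    · exact h1
    · exact h2
  rw [hT3] at hT ⊢
  have hc : Φ K0 K1 K2 K3 ρ κ 0 * Φ L0 L1 L2 L3 σ τ 0 =
      Φ L0 L1 L2 L3 σ τ 0 * Φ K0 K1 K2 K3 ρ κ 0 := hT.1 1 2
  rw [Φ_mul, Φ_mul] at hc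
  obtain ⟨g, gi, g1, g2, g3, g4⟩ := Two.exists_g n1 n2 (Φ_inj hc).1
  have hsq : ∀ M : Matrix (Fin 2) (Fin 2) k, M * M = 0 → gi * M * g * (gi * M * g) = 0 := by
    intro M hM
    calc gi * M * g * (gi * M * g) = gi * (M * (g * gi) * M) * g := by simp only [mul_assoc]
      _ = 0 := by rw [g1, mul_one, hM, mul_zero, zero_mul]
  have m1 := hsq K0 n1
  have m2 := hsq L0 n2
  obtain ⟨a1, a2⟩ := Two.lt_of_sq m1 g3
  obtain ⟨b1, b2⟩ := Two.lt_of_sq m2 g4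
  refine conj_E g1 g2 (cl_low ?_ a1 g3 a2 b1 g4 b2)
  have hgg : Φ g 0 0 0 0 0 1 * Φ gi 0 0 0 0 0 1 = 1 := by
    rw [Φ_mul, g1, ← Φ_one]
    congr 1 <;> simp [vecMulVec]
    ext i j
    simp
  have hcomm : ∀ M M' : Matrix (Fin 9) (Fin 9) k, M * M' = M' * M →
      Φ gi 0 0 0 0 0 1 * M * Φ g 0 0 0 0 0 1 * (Φ gi 0 0 0 0 0 1 * M' * Φ g 0 0 0 0 0 1) =
      Φ gi 0 0 0 0 0 1 * M' * Φ g 0 0 0 0 0 1 * (Φ gi 0 0 0 0 0 1 * M * Φ g 0 0 0 0 0 1) := by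
    intro M M' h
    have e : ∀ M M' : Matrix (Fin 9) (Fin 9) k,
        Φ gi 0 0 0 0 0 1 * M * Φ g 0 0 0 0 0 1 * (Φ gi 0 0 0 0 0 1 * M' * Φ g 0 0 0 0 0 1) =
        Φ gi 0 0 0 0 0 1 * (M * M') * Φ g 0 0 0 0 0 1 := by
      intro M M'
      calc _ = Φ gi 0 0 0 0 0 1 * (M * (Φ g 0 0 0 0 0 1 * Φ gi 0 0 0 0 0 1) * M') *
            Φ g 0 0 0 0 0 1 := by simp only [mul_assoc]
        _ = _ := by rw [hgg, mul_one]
    rw [e, e, h]
  refine cn_three (J_comm _ _ _ _ _ _ _) (J_comm _ _ _ _ _ _ _) ?_ (hT.2 0)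
    (nil_sq m1 _ _ _ _ _) (nil_sq m2 _ _ _ _ _)
  rw [← conj_eq, ← conj_eq]
  exact hcomm _ _ (hT.1 1 2)

end T441

/-- there is no maximal bad triple with first matrix `J441` -/
theorem no_441 [IsAlgClosed k] [CharZero k] {ρ : ℕ → ℕ}
    {T : Fin 3 → Matrix (Fin 9) (Fin 9) k} (hT : MaxR ρ T) (h0 : T 0 = J441 k) : False :=
  hT.ncl (T441.cl_441 hT.cn h0)

end Pool.Agent.Lib.D9
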