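import Pool.Agent.Lib.D9.T5211C

/-!
# MP_5dcbc3_ag: type (5, 2, 1, 1)

The matrices commuting with `A = J5211` are `B5211 al al1 w be be1 ga pi th e N` modulo the powers of
`A`. The rank of `A + s X` is at most 5: `N = 0`, and `pi = pi' = 0` or `e = e' = 0`.
-/

namespace Pool.Agent.Lib.D9

open Matrix Pool.Agent.Lib.Q5dc Pool.Agent.Lib.D7

namespace T5211Aux

variable {k : Type*} [Field k]

theorem dual {ρ : ℕ → ℕ} {al al1 : k} {w : Fin 2 → k} {be be1 ga : k} {pi th e : Fin 2 → k}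
    {N : Matrix (Fin 2) (Fin 2) k} {al' al1' : k} {w' : Fin 2 → k} {be' be1' ga' : k}
    {pi' th' e' : Fin 2 → k} {N' : Matrix (Fin 2) (Fin 2) k}
    (hT : MaxR ρ ![J5211 k, B5211 al al1 w be be1 ga pi th e N,
      B5211 al' al1' w' be' be1' ga' pi' th' e' N']) :
    MaxR ρ ![J5211 k, B5211 be be1 th al al1 ga e w pi Nᵀ,
      B5211 be' be1' th' al' al1' ga' e' w' pi' N'ᵀ] := by
  have key : ∀ {T T' : Fin 3 → Matrix (Fin 9) (Fin 9) k}, MaxR ρ T →
      (∀ i, Pm5211 k * (T i)ᵀ * Pm5211 k = T' i) → MaxR ρ T' := by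
    intro T T' hT h
    have h1 := hT.transpose.conj (Pm5211 k) (Pm5211 k) P_sq P_sq
    have h2 : (fun i => Pm5211 k * (T i)ᵀ * Pm5211 k) = T' := by
      funext i
      exact h i
    rwa [h2] at h1
  refine key hT ?_
  intro i
  fin_cases i
  · exact J_dual
  · exact B_dual _ _ _ _ _ _ _ _ _ _
  · exact B_dual _ _ _ _ _ _ _ _ _ _

/-! ### conditions -/

theorem condR [CharZero k] {ρ : ℕ → ℕ} (hρ : ρ 1 ≤ 5) {T : Fin 3 → Matrix (Fin 9) (Fin 9) k}
    (hT : MaxR ρ T) (hJ : J5211 k ∈ adj T)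
    {al al1 : k} {w : Fin 2 → k} {be be1 ga : k} {pi th e : Fin 2 → k}
    {N : Matrix (Fin 2) (Fin 2) k}
    (hX : B5211 al al1 w be be1 ga pi th e N ∈ adj T) (s : k) (i j : Fin 2) :
    (1 + s * ga) * (s * N i j) - (s * e j) * (s * pi i) = 0 := by
  have : Infinite k := CharZero.infinite k
  have h1 := hT.rank_le ((adj T).add_mem hJ (SMulMemClass.smul_mem s hX)) 1
  rw [pow_one] at h1
  by_contra h
  have h2 : 6 ≤ (J5211 k + s • B5211 al al1 w be be1 ga pi th e N).rank := by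
    refine rankm (P i) (P j) ?_ ?_ ?_ ?_ ?_ ?_ ?_ ?_ ?_ ?_ ?_ ?_ ?_ ?_ ?_ ?_ ?_ ?_ ?_ ?_ ?_ ?_ ?_ ?_ ?_ ?_ ?_
    · simp [J5211, B5211]
    · simp [J5211, B5211]
    · simp [J5211, B5211]
    · simp [J5211, B5211]
    · simp [J5211, B5211]
    · simp [J5211, B5211]
    · simp [J5211, B5211]
    · simp [J5211, B5211]
    · simp [J5211, B5211]
    · simp [J5211, B5211]
    · simp [J5211, B5211]
    · simp [J5211, B5211]
    · simp [J5211, B5211]
    · simp [J5211, B5211]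
    · simp [J5211, B5211]
    · simp [J5211, B5211]
    · simp [J5211, B5211]
    · simp [J5211, B5211]
    · rw [Matrix.add_apply, Matrix.smul_apply, J_zP, B_1P]
      simp
    · rw [Matrix.add_apply, Matrix.smul_apply, J_zP, B_2P]
      simp
    · rw [Matrix.add_apply, Matrix.smul_apply, J_zP, B_3P]
      simp
    · simp [J5211, B5211]
    · simp [J5211, B5211]
    · rw [Matrix.add_apply, Matrix.smul_apply, J_P, B_P1]
      simp
    · rw [Matrix.add_apply, Matrix.smul_apply, J_P, B_P2]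
      simp
    · rw [Matrix.add_apply, Matrix.smul_apply, J_P, B_P3]
      simp
    · intro h3
      apply h
      rw [← h3]
      simp only [Matrix.add_apply, Matrix.smul_apply, J_P, J_zP, B_N, B_e, B_pi]
      simp [J5211, B5211]
  omega

theorem condN [CharZero k] {ρ : ℕ → ℕ} (hρ : ρ 1 ≤ 5) {T : Fin 3 → Matrix (Fin 9) (Fin 9) k}
    (hT : MaxR ρ T) (hJ : J5211 k ∈ adj T)
    {al al1 : k} {w : Fin 2 → k} {be be1 ga : k} {pi th e : Fin 2 → k}
    {N : Matrix (Fin 2) (Fin 2) k}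
    (hX : B5211 al al1 w be be1 ga pi th e N ∈ adj T) : N = 0 := by
  ext i j
  have h1 := condR hρ hT hJ hX 1 i j
  have h2 := condR hρ hT hJ hX (-1) i j
  have h3 := condR hρ hT hJ hX 2 i j
  have h4 := condR hρ hT hJ hX (-2) i j
  have h5 : (12 : k) * N i j = 0 := by
    linear_combination 8 * h1 - 8 * h2 - h3 + h4
  exact (mul_eq_zero.mp h5).resolve_left (by norm_num)

theorem condB [CharZero k] {ρ : ℕ → ℕ} (hρ : ρ 1 ≤ 5) {T : Fin 3 → Matrix (Fin 9) (Fin 9) k}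
    (hT : MaxR ρ T) (hJ : J5211 k ∈ adj T)
    {al al1 : k} {w : Fin 2 → k} {be be1 ga : k} {pi th e : Fin 2 → k}
    (hX : B5211 al al1 w be be1 ga pi th e 0 ∈ adj T) (i j : Fin 2) :
    pi i * e j = 0 := by
  have h1 := condR hρ hT hJ hX 1 i j
  rw [Matrix.zero_apply] at h1
  linear_combination -h1

/-- case (1) -/
theorem caseA_mid [CharZero k] {ρ : ℕ → ℕ} (hρ : ρ 1 ≤ 5)
    {al1 : k} {w : Fin 2 → k} {be be1 ga : k} {pi th : Fin 2 → k}
    {al1' : k} {w' : Fin 2 → k} {be' be1' ga' : k} {pi' th' : Fin 2 → k}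
    (hT : MaxR ρ ![J5211 k, B5211 1 al1 w be be1 ga pi th 0 0,
      B5211 0 al1' w' be' be1' ga' pi' th' 0 0]) : False := by
  have : Infinite k := CharZero.infinite k
  obtain ⟨hbe, hga, hpi, r1, r2⟩ := comm1' (hT.cn.1 1 2)
  subst hbe hga hpi
  obtain ⟨x, ⟨i, hxi⟩, hx⟩ := exists_perp th'
  have key : ∀ s : k, B5211 1 al1 w be be1 ga pi th 0 0 + s • B5211 0 0 0 0 0 0 x 0 0 0 =
      B5211 1 al1 w be be1 ga (pi + s • x) th 0 0 := by
    intro s
    have h := B_lin 1 s 1 al1 w be be1 ga pi th 0 0 0 0 0 0 0 0 x 0 0 0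
    simpa using h
  obtain ⟨s, hs, h3⟩ := Pool.Agent.Lib.D8.MaxR.line2 hT
    (B5211 0 0 0 0 0 0 x 0 0 0) 0 (by
      intro s
      rw [smul_zero, add_zero, key]
      refine Pool.Agent.Lib.D8.cn3 (comm_J _ _ _ _ _ _ _ _ _ _) (comm_J _ _ _ _ _ _ _ _ _ _)
        (comm1 r1 (by simp) ?_) J_nil (B_nil _ _ _ _ _ _ _ _ _) (B_nil _ _ _ _ _ _ _ _ _)
      rw [dotProduct_add, dotProduct_smul, r2, hx]
      simp) (Set.finite_singleton (-(pi i / x i)))
  rw [key, smul_zero, add_zero] at h3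
  have hpi : (pi + s • x) i ≠ 0 := by
    intro h
    apply hs
    rw [Set.mem_singleton_iff]
    simp only [Pi.add_apply, Pi.smul_apply, smul_eq_mul] at h
    field_simp
    linear_combination h
  have r2' : th' ⬝ᵥ (pi + s • x) = 0 := by
    rw [dotProduct_add, dotProduct_smul, r2, hx]
    simp
  obtain ⟨p, hp⟩ : ∃ p, p = pi + s • x := ⟨_, rfl⟩
  rw [← hp] at h3 hpi r2'
  obtain ⟨y, ⟨j, hyj⟩, hy⟩ := exists_perp w'
  have key2 : ∀ s : k, B5211 1 al1 w be be1 ga p th 0 0 + s • B5211 0 0 0 0 0 0 0 0 y 0 =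
      B5211 1 al1 w be be1 ga p th (s • y) 0 := by
    intro s
    have h := B_lin 1 s 1 al1 w be be1 ga p th 0 0 0 0 0 0 0 0 0 0 y 0
    simpa using h
  obtain ⟨t, ht, h4⟩ := Pool.Agent.Lib.D8.MaxR.line2 h3
    (B5211 0 0 0 0 0 0 0 0 y 0) 0 (by
      intro s
      rw [smul_zero, add_zero, key2]
      refine Pool.Agent.Lib.D8.cn3 (comm_J _ _ _ _ _ _ _ _ _ _) (comm_J _ _ _ _ _ _ _ _ _ _)
        (comm1 r1 ?_ r2') J_nil (B_nil _ _ _ _ _ _ _ _ _) (B_nil _ _ _ _ _ _ _ _ _)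
      rw [smul_dotProduct, dotProduct_comm, hy]
      simp) (Set.finite_singleton (0 : k))
  rw [key2, smul_zero, add_zero] at h4
  have ht : t ≠ 0 := by simpa using ht
  have h5 := condB hρ h4 (Pool.Agent.Lib.D8.mem0 _ _ _) (Pool.Agent.Lib.D8.mem1 _ _ _) i j
  refine mul_ne_zero hpi ?_ h5
  simp only [Pi.smul_apply, smul_eq_mul]
  exact mul_ne_zero ht hyj

theorem caseA [CharZero k] {ρ : ℕ → ℕ} (hρ : ρ 1 ≤ 5)
    {al al1 : k} {w : Fin 2 → k} {be be1 ga : k} {pi th : Fin 2 → k}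
    {al' al1' : k} {w' : Fin 2 → k} {be' be1' ga' : k} {pi' th' : Fin 2 → k}
    (hT : MaxR ρ ![J5211 k, B5211 al al1 w be be1 ga pi th 0 0,
      B5211 al' al1' w' be' be1' ga' pi' th' 0 0])
    (hal : al ≠ 0) : False := by
  have h1 := Pool.Agent.Lib.D8.MaxR.lin hT al⁻¹ 0 (-(al' / al)) 1 0 0 0 0 (by simp [hal])
  have h2 := B_lin al⁻¹ 0 al al1 w be be1 ga pi th 0 0 al' al1' w' be' be1' ga' pi' th' 0 0
  have h3 := B_lin (-(al' / al)) 1 al al1 w be be1 ga pi th 0 0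
    al' al1' w' be' be1' ga' pi' th' 0 0
  rw [h2, h3] at h1
  have e1 : al⁻¹ * al + 0 * al' = 1 := by simp [hal]
  have e2 : -(al' / al) * al + 1 * al' = 0 := by
    field_simp
    ring
  have e4 : ∀ c d : k, c • (0 : Fin 2 → k) + d • (0 : Fin 2 → k) = 0 := by
    intro c d
    simp
  have e5 : ∀ c d : k, c • (0 : Matrix (Fin 2) (Fin 2) k) + d • (0 : Matrix (Fin 2) (Fin 2) k)
      = 0 := by
    intro c d
    simp
  rw [e1, e2] at h1
  simp only [e4, e5] at h1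
  rw [zero_smul k (J5211 k), zero_smul k (J5211 k * J5211 k), add_zero, add_zero, add_zero,
    add_zero] at h1
  exact caseA_mid hρ h1

theorem case_e0 [CharZero k] {ρ : ℕ → ℕ} (hρ : ρ 1 ≤ 5)
    {al al1 : k} {w : Fin 2 → k} {be be1 ga : k} {pi th : Fin 2 → k}
    {al' al1' : k} {w' : Fin 2 → k} {be' be1' ga' : k} {pi' th' : Fin 2 → k}
    (hT : MaxR ρ ![J5211 k, B5211 al al1 w be be1 ga pi th 0 0,
      B5211 al' al1' w' be' be1' ga' pi' th' 0 0]) : False := by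
  by_cases hal : al = 0 ∧ al' = 0
  · obtain ⟨rfl, rfl⟩ := hal
    have h4 := dual hT
    rw [Matrix.transpose_zero] at h4
    exact caseI hρ h4
  · by_cases hal1 : al = 0
    · exact caseA hρ (Pool.Agent.Lib.D8.MaxR.swap hT) fun h => hal ⟨hal1, h⟩
    · exact caseA hρ hT hal1

theorem case_gen [CharZero k] {ρ : ℕ → ℕ} (hρ : ρ 1 ≤ 5)
    {al al1 : k} {w : Fin 2 → k} {be be1 ga : k} {pi th e : Fin 2 → k}
    {N : Matrix (Fin 2) (Fin 2) k} {al' al1' : k} {w' : Fin 2 → k} {be' be1' ga' : k}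
    {pi' th' e' : Fin 2 → k} {N' : Matrix (Fin 2) (Fin 2) k}
    (hT : MaxR ρ ![J5211 k, B5211 al al1 w be be1 ga pi th e N,
      B5211 al' al1' w' be' be1' ga' pi' th' e' N']) : False := by
  have : Infinite k := CharZero.infinite k
  have hN := condN hρ hT (Pool.Agent.Lib.D8.mem0 _ _ _) (Pool.Agent.Lib.D8.mem1 _ _ _)
  have hN' := condN hρ hT (Pool.Agent.Lib.D8.mem0 _ _ _) (Pool.Agent.Lib.D8.mem2 _ _ _)
  subst hN hN'
  have key : ∀ (c : k) (i j : Fin 2), (pi i + c * pi' i) * (e j + c * e' j) = 0 := by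
    intro c i j
    have h := (adj _).add_mem (Pool.Agent.Lib.D8.mem1 (J5211 k)
      (B5211 al al1 w be be1 ga pi th e 0) (B5211 al' al1' w' be' be1' ga' pi' th' e' 0))
      (SMulMemClass.smul_mem c (Pool.Agent.Lib.D8.mem2 (J5211 k)
      (B5211 al al1 w be be1 ga pi th e 0) (B5211 al' al1' w' be' be1' ga' pi' th' e' 0)))
    have h2 := B_lin 1 c al al1 w be be1 ga pi th e 0 al' al1' w' be' be1' ga' pi' th' e' 0
    simp only [one_mul, one_smul, smul_zero, add_zero] at h2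
    have h3 := condB hρ hT (Pool.Agent.Lib.D8.mem0 _ _ _) (h2 ▸ h) i j
    simpa using h3
  by_cases hp : pi = 0 ∧ pi' = 0
  · obtain ⟨rfl, rfl⟩ := hp
    have h4 := dual hT
    rw [Matrix.transpose_zero] at h4
    exact case_e0 hρ h4
  · obtain ⟨i, hi⟩ : ∃ i, ¬ (pi i = 0 ∧ pi' i = 0) := by
      by_contra h
      push Not at h
      exact hp ⟨funext fun i => (h i).1, funext fun i => (h i).2⟩
    have he : ∀ j, e j = 0 ∧ e' j = 0 := fun j =>
      (T3211Aux.lin2 fun c => key c i j).resolve_left hi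
    obtain ⟨rfl, rfl⟩ : e = 0 ∧ e' = 0 := ⟨funext fun j => (he j).1, funext fun j => (he j).2⟩
    exact case_e0 hρ hT

end T5211Aux

theorem no_5211 {k : Type*} [Field k] [IsAlgClosed k] [CharZero k] {ρ : ℕ → ℕ}
    {T : Fin 3 → Matrix (Fin 9) (Fin 9) k} (hT : MaxR ρ T)
    (hρ : ∀ i, ρ i = (J5211 k ^ i).rank) (h0 : T 0 = J5211 k) : False := by
  have hρ1 : ρ 1 ≤ 5 := by
    rw [hρ, pow_one]
    exact T5211Aux.J_rank
  have hTe : T = ![J5211 k, T 1, T 2] := by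
    funext i
    fin_cases i
    · exact h0
    · rfl
    · rfl
  have hcB : J5211 k * T 1 = T 1 * J5211 k := by
    rw [← h0]
    exact hT.cn.1 0 1
  have hcC : J5211 k * T 2 = T 2 * J5211 k := by
    rw [← h0]
    exact hT.cn.1 0 2
  have hB := T5211Aux.shape hcB (hT.cn.2 1)
  have hC := T5211Aux.shape hcC (hT.cn.2 2)
  rw [hTe] at hT
  have key : ∀ {B C B' C' : Matrix (Fin 9) (Fin 9) k} {b1 b2 b3 b4 c1 c2 c3 c4 : k},
      B = B' + b1 • J5211 k + b2 • (J5211 k * J5211 k) + b3 • ((J5211 k * J5211 k) * J5211 k) + b4 • (((J5211 k * J5211 k) * J5211 k) * J5211 k) →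
      C = C' + c1 • J5211 k + c2 • (J5211 k * J5211 k) + c3 • ((J5211 k * J5211 k) * J5211 k) + c4 • (((J5211 k * J5211 k) * J5211 k) * J5211 k) →
      MaxR ρ ![J5211 k, B, C] → MaxR ρ ![J5211 k, B', C'] := by
    intro B C B' C' b1 b2 b3 b4 c1 c2 c3 c4 hB hC hT
    have pw : ∀ {X Y : Matrix (Fin 9) (Fin 9) k} (b1 b2 b3 b4 : k),
        b1 • J5211 k + b2 • (J5211 k * J5211 k) + b3 • ((J5211 k * J5211 k) * J5211 k) + b4 • (((J5211 k * J5211 k) * J5211 k) * J5211 k) ∈ adj ![J5211 k, X, Y] := by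
      intro X Y b1 b2 b3 b4
      have h1 := Pool.Agent.Lib.D8.mem0 (J5211 k) X Y
      have h2 := mul_mem h1 h1
      have h3 := mul_mem h2 h1
      have h4 := mul_mem h3 h1
      exact add_mem (add_mem (add_mem (SMulMemClass.smul_mem b1 h1) (SMulMemClass.smul_mem b2 h2)) (SMulMemClass.smul_mem b3 h3)) (SMulMemClass.smul_mem b4 h4)
    refine Pool.Agent.Lib.D8.MaxR.change3 hT ?_ ?_ ?_ ?_
    · have h2 : B' = B - (b1 • J5211 k + b2 • (J5211 k * J5211 k) + b3 • ((J5211 k * J5211 k) * J5211 k) + b4 • (((J5211 k * J5211 k) * J5211 k) * J5211 k)) := by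
        rw [hB]
        abel
      rw [h2]
      exact sub_mem (Pool.Agent.Lib.D8.mem1 _ _ _) (pw b1 b2 b3 b4)
    · have h2 : C' = C - (c1 • J5211 k + c2 • (J5211 k * J5211 k) + c3 • ((J5211 k * J5211 k) * J5211 k) + c4 • (((J5211 k * J5211 k) * J5211 k) * J5211 k)) := by
        rw [hC]
        abel
      rw [h2]
      exact sub_mem (Pool.Agent.Lib.D8.mem2 _ _ _) (pw c1 c2 c3 c4)
    · have h2 : B = B' + (b1 • J5211 k + b2 • (J5211 k * J5211 k) + b3 • ((J5211 k * J5211 k) * J5211 k) + b4 • (((J5211 k * J5211 k) * J5211 k) * J5211 k)) := by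
        rw [hB]
        abel
      rw [h2]
      exact add_mem (Pool.Agent.Lib.D8.mem1 _ _ _) (pw b1 b2 b3 b4)
    · have h2 : C = C' + (c1 • J5211 k + c2 • (J5211 k * J5211 k) + c3 • ((J5211 k * J5211 k) * J5211 k) + c4 • (((J5211 k * J5211 k) * J5211 k) * J5211 k)) := by
        rw [hC]
        abel
      rw [h2]
      exact add_mem (Pool.Agent.Lib.D8.mem2 _ _ _) (pw c1 c2 c3 c4)
  exact T5211Aux.case_gen hρ1 (key hB hC hT)

end Pool.Agent.Lib.D9
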