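import Pool.Agent.Lib.D9.ClTG3B
import Pool.Agent.Lib.Q5dc.Tan

/-!
# MP_5dcbc3_ag: all triples `TG3 g` are limits of curvilinear triples
-/

namespace Pool.Agent.Lib.D9

open Matrix Pool.Agent.Lib.Q5dc Pool.Agent.Lib.D7

variable {k : Type*} [Field k]

namespace ClTG3Aux

/-- index type with blocks of sizes `2, 4, 3` -/
abbrev N9 := Fin 2 ⊕ (Fin 4 ⊕ Fin 3)

/-- multiplication by `s^2, s t, t^2` from linear forms to cubics -/
def Am (k : Type*) [Field k] : Fin 3 → Matrix (Fin 4) (Fin 2) k :=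
  ![!![1, 0; 0, 1; 0, 0; 0, 0], !![0, 0; 1, 0; 0, 1; 0, 0], !![0, 0; 0, 0; 1, 0; 0, 1]]

/-- sum of the indices -/
def ij (i : Fin 3) (j : Fin 4) : Fin 6 := ![![0, 1, 2, 3], ![1, 2, 3, 4], ![2, 3, 4, 5]] i j

/-- multiplication by `s^2, s t, t^2` from cubics to the net of quintics -/
def Bm {R : Type*} (g : Fin 6 × Fin 3 → R) (i : Fin 3) : Matrix (Fin 3) (Fin 4) R :=
  Matrix.of fun l j => g (ij i j, l)

/-- the triple in block form -/
def Tb (g : Fin 6 × Fin 3 → k) (i : Fin 3) : Matrix N9 N9 k :=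
  fromBlocks 0 0 (fromRows (Am k i) 0) (fromBlocks 0 0 (Bm g i) 0)

theorem TG3_eq (g : Fin 6 × Fin 3 → k) : TG3 g = Tb g := by
  funext i
  ext x y
  rcases x with x | x | x <;> rcases y with y | y | y <;> fin_cases i <;> fin_cases x <;>
    fin_cases y <;> rfl

/-- block diagonal matrix -/
def Dg (P : Matrix (Fin 2) (Fin 2) k) (Q : Matrix (Fin 4) (Fin 4) k) (H : Matrix (Fin 3) (Fin 3) k) :
    Matrix N9 N9 k := fromBlocks P 0 0 (fromBlocks Q 0 0 H)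

theorem Dg_mul {P P' : Matrix (Fin 2) (Fin 2) k} {H H' : Matrix (Fin 3) (Fin 3) k}
    {Q Q' : Matrix (Fin 4) (Fin 4) k}
    (hP : P * P' = 1) (hQ : Q * Q' = 1) (hH : H * H' = 1) : Dg P Q H * Dg P' Q' H' = 1 := by
  simp [Dg, fromBlocks_multiply, hP, hQ, hH]

theorem sum_Tb (c : Fin 3 → k) (g : Fin 6 × Fin 3 → k) :
    ∑ j, c j • Tb g j = fromBlocks 0 0 (fromRows (∑ j, c j • Am k j) 0)
      (fromBlocks 0 0 (∑ j, c j • Bm g j) 0) := by
  ext x y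
  simp only [Matrix.sum_apply, Matrix.smul_apply, smul_eq_mul]
  rcases x with x | x | x <;> rcases y with y | y | y <;>
    simp [Tb, Matrix.sum_apply]

theorem cl_blk {c : Fin 3 → Fin 3 → k} {P P' : Matrix (Fin 2) (Fin 2) k}
    {H H' : Matrix (Fin 3) (Fin 3) k}
    {Q Q' : Matrix (Fin 4) (Fin 4) k} (hP : P' * P = 1) (hQ : Q' * Q = 1) (hH : H * H' = 1)
    (hA : ∀ i, (∑ j, c i j • Am k j) * P = Q * Am k i) {g g' : Fin 6 × Fin 3 → k}
    (hB : ∀ i, H * (∑ j, c i j • Bm g j) * Q = Bm g' i) (hcl : Cl (Tb g)) : Cl (Tb g') := by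
  have h1 : Cl (fun i => ∑ j, c i j • Tb g j) :=
    cl_of_adj (fun i => sum_mem fun j _ => SMulMemClass.smul_mem _ (mem_adj _ j)) hcl
  have hD : Dg P' Q' H * Dg P Q H' = 1 := Dg_mul hP hQ hH
  have h2 := Cl.conj _ _ hD (mul_eq_one_comm.1 hD) h1
  have h3 : (fun i => Dg P' Q' H * (∑ j, c i j • Tb g j) * Dg P Q H') = Tb g' := by
    funext i
    have h4 : Q' * (∑ j, c i j • Am k j) * P = Am k i := by
      rw [Matrix.mul_assoc, hA, ← Matrix.mul_assoc, hQ, Matrix.one_mul]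
    rw [sum_Tb, Dg, Dg, Tb]
    simp only [fromBlocks_multiply, Matrix.mul_zero, Matrix.zero_mul, add_zero, zero_add,
      fromBlocks_mul_fromRows, fromRows_mul, h4, hB]
  rwa [h3] at h2

section steps

variable {R : Type*} [CommRing R]

/-- change of basis of the target -/
def gH (H : Matrix (Fin 3) (Fin 3) R) (g : Fin 6 × Fin 3 → R) (x : Fin 6 × Fin 3) : R :=
  H x.2 0 * g (x.1, 0) + H x.2 1 * g (x.1, 1) + H x.2 2 * g (x.1, 2)

/-- substitution `s ↦ s + b t` -/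
def gb (b : R) (g : Fin 6 × Fin 3 → R) (x : Fin 6 × Fin 3) : R :=
  ![g (0, x.2) + 5 * b * g (1, x.2) + 10 * b ^ 2 * g (2, x.2) + 10 * b ^ 3 * g (3, x.2) +
      5 * b ^ 4 * g (4, x.2) + b ^ 5 * g (5, x.2),
    g (1, x.2) + 4 * b * g (2, x.2) + 6 * b ^ 2 * g (3, x.2) + 4 * b ^ 3 * g (4, x.2) +
      b ^ 4 * g (5, x.2),
    g (2, x.2) + 3 * b * g (3, x.2) + 3 * b ^ 2 * g (4, x.2) + b ^ 3 * g (5, x.2),
    g (3, x.2) + 2 * b * g (4, x.2) + b ^ 2 * g (5, x.2),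
    g (4, x.2) + b * g (5, x.2),
    g (5, x.2)] x.1

/-- substitution `t ↦ t + c s` -/
def gc (c : R) (g : Fin 6 × Fin 3 → R) (x : Fin 6 × Fin 3) : R :=
  ![g (0, x.2),
    g (1, x.2) + c * g (0, x.2),
    g (2, x.2) + 2 * c * g (1, x.2) + c ^ 2 * g (0, x.2),
    g (3, x.2) + 3 * c * g (2, x.2) + 3 * c ^ 2 * g (1, x.2) + c ^ 3 * g (0, x.2),
    g (4, x.2) + 4 * c * g (3, x.2) + 6 * c ^ 2 * g (2, x.2) + 4 * c ^ 3 * g (1, x.2) +
      c ^ 4 * g (0, x.2),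
    g (5, x.2) + 5 * c * g (4, x.2) + 10 * c ^ 2 * g (3, x.2) + 10 * c ^ 3 * g (2, x.2) +
      5 * c ^ 4 * g (1, x.2) + c ^ 5 * g (0, x.2)] x.1

/-- substitution `s ↦ a s` -/
def ga (a : R) (g : Fin 6 × Fin 3 → R) (x : Fin 6 × Fin 3) : R :=
  ![a ^ 5 * g (0, x.2), a ^ 4 * g (1, x.2), a ^ 3 * g (2, x.2), a ^ 2 * g (3, x.2),
    a * g (4, x.2), g (5, x.2)] x.1

end steps

theorem cl_gH {H : Matrix (Fin 3) (Fin 3) k} (h0 : H.det ≠ 0) {g : Fin 6 × Fin 3 → k}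
    (hcl : Cl (Tb g)) : Cl (Tb (gH H g)) := by
  refine cl_blk (c := fun i j => if i = j then 1 else 0) (P := 1) (P' := 1) (Q := 1) (Q' := 1)
    (H := H) (H' := H⁻¹)
    (Matrix.one_mul 1) (Matrix.one_mul 1)
    (Matrix.mul_nonsing_inv _ (isUnit_iff_ne_zero.2 h0)) (fun i => ?_) (fun i => ?_) hcl
  · simp
  · simp only [ite_smul, one_smul, zero_smul, Finset.sum_ite_eq, Finset.mem_univ, if_true,
      Matrix.mul_one]
    ext x y
    simp [Bm, gH, Matrix.mul_apply, Fin.sum_univ_three]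

theorem cl_gb (b : k) {g : Fin 6 × Fin 3 → k} (hcl : Cl (Tb g)) : Cl (Tb (gb b g)) := by
  refine cl_blk (c := ![![1, 2 * b, b ^ 2], ![0, 1, b], ![0, 0, 1]])
    (P := !![1, 0; b, 1]) (P' := !![1, 0; -b, 1])
    (Q := !![1, 0, 0, 0; 3 * b, 1, 0, 0; 3 * b ^ 2, 2 * b, 1, 0; b ^ 3, b ^ 2, b, 1])
    (Q' := !![1, 0, 0, 0; -(3 * b), 1, 0, 0; 3 * b ^ 2, -(2 * b), 1, 0; -b ^ 3, b ^ 2, -b, 1])
    (H := 1) (H' := 1) ?_ ?_ (Matrix.one_mul 1) (fun i => ?_) (fun i => ?_) hcl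
  · ext x y
    fin_cases x <;> fin_cases y <;> simp [Matrix.mul_apply, Fin.sum_univ_two]
  · ext x y
    fin_cases x <;> fin_cases y <;> simp [Matrix.mul_apply, Fin.sum_univ_four] <;> ring
  · ext x y
    rw [Fin.sum_univ_three]
    fin_cases i <;> fin_cases x <;> fin_cases y <;>
      simp [Am, Matrix.mul_apply, Fin.sum_univ_four, Fin.sum_univ_two] <;> ring
  · ext x y
    rw [Fin.sum_univ_three, Matrix.one_mul]
    fin_cases i <;> fin_cases y <;>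
      simp [Bm, ij, gb, Matrix.mul_apply, Fin.sum_univ_four] <;> ring

theorem cl_gc (b : k) {g : Fin 6 × Fin 3 → k} (hcl : Cl (Tb g)) : Cl (Tb (gc b g)) := by
  refine cl_blk (c := ![![1, 0, 0], ![b, 1, 0], ![b ^ 2, 2 * b, 1]])
    (P := !![1, b; 0, 1]) (P' := !![1, -b; 0, 1])
    (Q := !![1, b, b ^ 2, b ^ 3; 0, 1, 2 * b, 3 * b ^ 2; 0, 0, 1, 3 * b; 0, 0, 0, 1])
    (Q' := !![1, -b, b ^ 2, -b ^ 3; 0, 1, -(2 * b), 3 * b ^ 2; 0, 0, 1, -(3 * b); 0, 0, 0, 1])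
    (H := 1) (H' := 1) ?_ ?_ (Matrix.one_mul 1) (fun i => ?_) (fun i => ?_) hcl
  · ext x y
    fin_cases x <;> fin_cases y <;> simp [Matrix.mul_apply, Fin.sum_univ_two]
  · ext x y
    fin_cases x <;> fin_cases y <;> simp [Matrix.mul_apply, Fin.sum_univ_four] <;> ring
  · ext x y
    rw [Fin.sum_univ_three]
    fin_cases i <;> fin_cases x <;> fin_cases y <;>
      simp [Am, Matrix.mul_apply, Fin.sum_univ_four, Fin.sum_univ_two] <;> ring
  · ext x y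
    rw [Fin.sum_univ_three, Matrix.one_mul]
    fin_cases i <;> fin_cases y <;>
      simp [Bm, ij, gc, Matrix.mul_apply, Fin.sum_univ_four] <;> ring

theorem cl_ga {a : k} (ha : a ≠ 0) {g : Fin 6 × Fin 3 → k} (hcl : Cl (Tb g)) :
    Cl (Tb (ga a g)) := by
  refine cl_blk (c := ![![a ^ 2, 0, 0], ![0, a, 0], ![0, 0, 1]])
    (P := !![a, 0; 0, 1]) (P' := !![a⁻¹, 0; 0, 1])
    (Q := !![a ^ 3, 0, 0, 0; 0, a ^ 2, 0, 0; 0, 0, a, 0; 0, 0, 0, 1])
    (Q' := !![(a ^ 3)⁻¹, 0, 0, 0; 0, (a ^ 2)⁻¹, 0, 0; 0, 0, a⁻¹, 0; 0, 0, 0, 1])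
    (H := 1) (H' := 1) ?_ ?_ (Matrix.one_mul 1) (fun i => ?_) (fun i => ?_) hcl
  · ext x y
    fin_cases x <;> fin_cases y <;> simp [Matrix.mul_apply, Fin.sum_univ_two, ha]
  · ext x y
    fin_cases x <;> fin_cases y <;> simp [Matrix.mul_apply, Fin.sum_univ_four, ha]
  · ext x y
    rw [Fin.sum_univ_three]
    fin_cases i <;> fin_cases x <;> fin_cases y <;>
      simp [Am, Matrix.mul_apply, Fin.sum_univ_four, Fin.sum_univ_two] <;> ring
  · ext x y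
    rw [Fin.sum_univ_three, Matrix.one_mul]
    fin_cases i <;> fin_cases y <;>
      simp [Bm, ij, ga, Matrix.mul_apply, Fin.sum_univ_four] <;> ring

section jets

open Polynomial

/-- value and derivative at `0` -/
def Jt (p : k[X]) (a v : k) : Prop := p.coeff 0 = a ∧ p.coeff 1 = v

theorem Jt.neg {p : k[X]} {a v : k} (h : Jt p a v) : Jt (-p) (-a) (-v) :=
  ⟨by rw [coeff_neg, h.1], by rw [coeff_neg, h.2]⟩

theorem Jt.add {p q : k[X]} {a v b w : k} (h : Jt p a v) (h' : Jt q b w) :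
    Jt (p + q) (a + b) (v + w) :=
  ⟨by rw [coeff_add, h.1, h'.1], by rw [coeff_add, h.2, h'.2]⟩

theorem Jt.mul {p q : k[X]} {a v b w : k} (h : Jt p a v) (h' : Jt q b w) :
    Jt (p * q) (a * b) (a * w + b * v) :=
  ⟨by rw [mul_coeff_zero, h.1, h'.1], by rw [mul_coeff_one, h.1, h'.1, h.2, h'.2, mul_comm v]⟩

theorem jt_gB {p1 p2 p3 p4 p5 p6 q1 q2 q3 q4 : k[X]} {a1 a2 a3 a4 a5 a6 b1 b2 b3 b4 : k}
    (h1 : Jt p1 0 a1) (h2 : Jt p2 0 a2) (h3 : Jt p3 0 a3) (h4 : Jt p4 0 a4) (h5 : Jt p5 0 a5)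
    (h6 : Jt p6 0 a6) (k1 : Jt q1 0 b1) (k2 : Jt q2 0 b2) (k3 : Jt q3 0 b3) (k4 : Jt q4 0 b4)
    (x : Fin 6 × Fin 3) :
    Jt (gB p1 p2 p3 p4 p5 p6 q1 q2 q3 q4 x) (gB 0 0 0 0 0 0 0 0 0 0 x)
      (![![b2, b3, b4], ![b1 - a4, b2 - a5, b3 - a6], ![a3, b1, b2], ![0, a3, b1],
        ![-a4, -a5, a3 - a6], ![3 * a3, a4, a5]] x.1 x.2) := by
  obtain ⟨j, l⟩ := x
  obtain ⟨c1, d1⟩ := h1
  obtain ⟨c2, d2⟩ := h2
  obtain ⟨c3, d3⟩ := h3
  obtain ⟨c4, d4⟩ := h4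
  obtain ⟨c5, d5⟩ := h5
  obtain ⟨c6, d6⟩ := h6
  obtain ⟨x1, y1⟩ := k1
  obtain ⟨x2, y2⟩ := k2
  obtain ⟨x3, y3⟩ := k3
  obtain ⟨x4, y4⟩ := k4
  constructor
  · fin_cases j <;> fin_cases l <;>
      simp [gB, mul_coeff_zero, coeff_one, c1, c2, c3, c4, c5, c6, x1, x2, x3, x4]
  · fin_cases j <;> fin_cases l <;>
      simp [gB, mul_coeff_zero, mul_coeff_one, coeff_one, c1, c2, c3, c4, c5, c6, x1, x2, x3, x4,
        d1, d2, d3, d4, d5, d6, y1, y2, y3, y4] <;> ring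

theorem jt_pow {p : k[X]} {b : k} (hp : Jt p 0 b) (n : ℕ) : Jt (p ^ (n + 2)) 0 0 := by
  constructor
  · rw [pow_succ, mul_coeff_zero, hp.1, mul_zero]
  · rw [pow_succ, mul_coeff_one, hp.1, mul_zero, add_zero, pow_succ, mul_coeff_zero, hp.1, mul_zero,
      zero_mul]

theorem jt_pow' {p : k[X]} {b : k} (hp : Jt p 1 b) (n : ℕ) : Jt (p ^ n) 1 (n * b) := by
  induction n with
  | zero => constructor <;> simp [coeff_one]
  | succ n ih =>
    constructor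
    · rw [pow_succ, mul_coeff_zero, ih.1, hp.1, mul_one]
    · rw [pow_succ, mul_coeff_one, ih.1, ih.2, hp.1, hp.2]
      push_cast
      ring

theorem jt_gb {p : k[X]} {b : k} (hp : Jt p 0 b) {g : Fin 6 × Fin 3 → k[X]}
    {A v : Fin 6 × Fin 3 → k} (h : ∀ x, Jt (g x) (A x) (v x)) (x : Fin 6 × Fin 3) :
    Jt (gb p g x) (A x) (v x + b * ![5 * A (1, x.2), 4 * A (2, x.2), 3 * A (3, x.2),
      2 * A (4, x.2), A (5, x.2), 0] x.1) := by
  obtain ⟨j, l⟩ := x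
  obtain ⟨e0, e1⟩ := jt_pow hp 0
  obtain ⟨e2, e3⟩ := jt_pow hp 1
  obtain ⟨e4, e5⟩ := jt_pow hp 2
  obtain ⟨e6, e7⟩ := jt_pow hp 3
  simp only [zero_add, Nat.reduceAdd] at e0 e1 e2 e3 e4 e5 e6 e7
  obtain ⟨h1, h2⟩ := forall_and.1 h
  obtain ⟨h3, h4⟩ := hp
  constructor
  · fin_cases j <;> simp [gb, mul_coeff_zero, h1, h3, e0, e2, e4, e6]
  · fin_cases j <;> simp [gb, mul_coeff_one, h1, h2, h3, h4, e0, e1, e2, e3, e4, e5,
      e6, e7] <;> ring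

theorem jt_gc {p : k[X]} {b : k} (hp : Jt p 0 b) {g : Fin 6 × Fin 3 → k[X]}
    {A v : Fin 6 × Fin 3 → k} (h : ∀ x, Jt (g x) (A x) (v x)) (x : Fin 6 × Fin 3) :
    Jt (gc p g x) (A x) (v x + b * ![0, A (0, x.2), 2 * A (1, x.2), 3 * A (2, x.2),
      4 * A (3, x.2), 5 * A (4, x.2)] x.1) := by
  obtain ⟨j, l⟩ := x
  obtain ⟨e0, e1⟩ := jt_pow hp 0
  obtain ⟨e2, e3⟩ := jt_pow hp 1
  obtain ⟨e4, e5⟩ := jt_pow hp 2
  obtain ⟨e6, e7⟩ := jt_pow hp 3
  simp only [zero_add, Nat.reduceAdd] at e0 e1 e2 e3 e4 e5 e6 e7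
  obtain ⟨h1, h2⟩ := forall_and.1 h
  obtain ⟨h3, h4⟩ := hp
  constructor
  · fin_cases j <;> simp [gc, mul_coeff_zero, h1, h3, e0, e2, e4, e6]
  · fin_cases j <;> simp [gc, mul_coeff_one, h1, h2, h3, h4, e0, e1, e2, e3, e4, e5,
      e6, e7] <;> ring

theorem jt_ga {p : k[X]} {b : k} (hp : Jt p 1 b) {g : Fin 6 × Fin 3 → k[X]}
    {A v : Fin 6 × Fin 3 → k} (h : ∀ x, Jt (g x) (A x) (v x)) (x : Fin 6 × Fin 3) :
    Jt (ga p g x) (A x) (v x + b * ![5 * A (0, x.2), 4 * A (1, x.2), 3 * A (2, x.2),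
      2 * A (3, x.2), A (4, x.2), 0] x.1) := by
  obtain ⟨j, l⟩ := x
  obtain ⟨e0, e1⟩ := jt_pow' hp 2
  obtain ⟨e2, e3⟩ := jt_pow' hp 3
  obtain ⟨e4, e5⟩ := jt_pow' hp 4
  obtain ⟨e6, e7⟩ := jt_pow' hp 5
  obtain ⟨h1, h2⟩ := forall_and.1 h
  obtain ⟨h3, h4⟩ := hp
  constructor
  · fin_cases j <;> simp [ga, mul_coeff_zero, h1, h3, e0, e2, e4, e6]
  · fin_cases j <;> simp [ga, mul_coeff_one, h1, h2, h3, h4, e0, e1, e2, e3, e4, e5,
      e6, e7] <;> ring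

/-- the matrix `1 + s B` -/
noncomputable def Hp (B : Matrix (Fin 3) (Fin 3) k) : Matrix (Fin 3) (Fin 3) k[X] :=
  Matrix.of fun l m => (if l = m then 1 else 0) + X * C (B l m)

theorem jt_gH (B : Matrix (Fin 3) (Fin 3) k) {g : Fin 6 × Fin 3 → k[X]} {A v : Fin 6 × Fin 3 → k}
    (h : ∀ x, Jt (g x) (A x) (v x)) (x : Fin 6 × Fin 3) :
    Jt (gH (Hp B) g x) (A x)
      (v x + (B x.2 0 * A (x.1, 0) + B x.2 1 * A (x.1, 1) + B x.2 2 * A (x.1, 2))) := by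
  obtain ⟨j, l⟩ := x
  obtain ⟨h1, h2⟩ := forall_and.1 h
  constructor
  · fin_cases l <;> simp [gH, Hp, mul_coeff_zero, h1]
  · fin_cases l <;> simp [gH, Hp, mul_coeff_zero, mul_coeff_one, h1, h2, coeff_one] <;> ring

theorem eval_gB (g1 g2 g3 g4 g5 g6 f1 f2 f3 f4 : k[X]) (s : k) (x : Fin 6 × Fin 3) :
    (gB g1 g2 g3 g4 g5 g6 f1 f2 f3 f4 x).eval s = gB (g1.eval s) (g2.eval s) (g3.eval s)
      (g4.eval s) (g5.eval s) (g6.eval s) (f1.eval s) (f2.eval s) (f3.eval s) (f4.eval s) x := by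
  obtain ⟨j, l⟩ := x
  fin_cases j <;> fin_cases l <;> simp [gB]

theorem eval_gb (p : k[X]) (g : Fin 6 × Fin 3 → k[X]) (s : k) (x : Fin 6 × Fin 3) :
    (gb p g x).eval s = gb (p.eval s) (fun y => (g y).eval s) x := by
  obtain ⟨j, l⟩ := x
  fin_cases j <;> simp [gb]

theorem eval_gc (p : k[X]) (g : Fin 6 × Fin 3 → k[X]) (s : k) (x : Fin 6 × Fin 3) :
    (gc p g x).eval s = gc (p.eval s) (fun y => (g y).eval s) x := by
  obtain ⟨j, l⟩ := x
  fin_cases j <;> simp [gc]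

theorem eval_ga (p : k[X]) (g : Fin 6 × Fin 3 → k[X]) (s : k) (x : Fin 6 × Fin 3) :
    (ga p g x).eval s = ga (p.eval s) (fun y => (g y).eval s) x := by
  obtain ⟨j, l⟩ := x
  fin_cases j <;> simp [ga]

theorem eval_gH (H : Matrix (Fin 3) (Fin 3) k[X]) (g : Fin 6 × Fin 3 → k[X]) (s : k)
    (x : Fin 6 × Fin 3) :
    (gH H g x).eval s = gH (H.map (eval s)) (fun y => (g y).eval s) x := by
  simp [gH]

theorem det_finite [Infinite k] (B : Matrix (Fin 3) (Fin 3) k) :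
    {s : k | ((Hp B).map (eval s)).det = 0}.Finite := by
  have h1 : ∀ s : k, ((Hp B).map (eval s)).det = ((Hp B).det).eval s := by
    intro s
    have h2 := RingHom.map_det (evalRingHom s) (Hp B)
    rw [RingHom.mapMatrix_apply, coe_evalRingHom] at h2
    exact h2.symm
  refine D7.IsPoly.finite (f := fun s => ((Hp B).map (eval s)).det) ⟨(Hp B).det, h1⟩ (s₁ := 0) ?_
  have h3 : (Hp B).map (eval 0) = 1 := by
    ext l m
    rw [Matrix.map_apply, Matrix.one_apply]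
    simp only [Hp, Matrix.of_apply, eval_add, eval_mul, eval_X, eval_C, zero_mul, add_zero]
    split_ifs <;> simp
  show ((Hp B).map (eval 0)).det ≠ 0
  rw [h3, Matrix.det_one]
  exact one_ne_zero

end jets

section curve

open Polynomial

theorem curve_of_poly {ι : Type*} {S : Set (ι → k)} {A v : ι → k} (r : ι → k[X])
    (h : ∀ x, Jt (r x) (A x) (v x)) (hS : {s : k | (fun x => (r x).eval s) ∈ S}.Infinite) :
    ∃ u : ι → k[X], (∀ x, (u x).eval 0 = v x) ∧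
      {s : k | (fun x => A x + s * (u x).eval s) ∈ S}.Infinite := by
  refine ⟨fun x => (r x).divX, fun x => ?_, hS.mono fun s hs => ?_⟩
  · rw [← coeff_zero_eq_eval_zero, coeff_divX, (h x).2]
  · have h1 : (fun x => A x + s * ((r x).divX).eval s) = fun x => (r x).eval s := by
      funext x
      conv_rhs => rw [← divX_mul_X_add (r x)]
      rw [eval_add, eval_mul, eval_X, eval_C, (h x).1]
      ring
    show (fun x => A x + s * ((r x).divX).eval s) ∈ S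
    rw [h1]
    exact hs

theorem curve [CharZero k] (v : Fin 6 × Fin 3 → k) : ∃ u : Fin 6 × Fin 3 → k[X],
    (∀ x, (u x).eval 0 = v x) ∧
      {s : k | (fun x => gB 0 0 0 0 0 0 0 0 0 0 x + s * (u x).eval s) ∈
        {g : Fin 6 × Fin 3 → k | Cl (TG3 g)}}.Infinite := by
  have hinf : Infinite k := inferInstance
  obtain ⟨a2, ha2⟩ : ∃ x : k, x = -v (0, 0) := ⟨_, rfl⟩
  obtain ⟨a3, ha3⟩ : ∃ x : k, x = -v (0, 1) := ⟨_, rfl⟩
  obtain ⟨a4, ha4⟩ : ∃ x : k, x = -v (0, 2) := ⟨_, rfl⟩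
  obtain ⟨a5, ha5⟩ : ∃ x : k, x = -a2 - v (1, 1) := ⟨_, rfl⟩
  obtain ⟨a6, ha6⟩ : ∃ x : k, x = -a3 - v (1, 2) := ⟨_, rfl⟩
  obtain ⟨al, hal⟩ : ∃ x : k, x = (a3 + 2 * v (2, 0) - v (5, 0)) / 6 := ⟨_, rfl⟩
  obtain ⟨be, hbe⟩ : ∃ x : k, x = (v (5, 1) + a4) / 2 - v (2, 1) + v (1, 0) := ⟨_, rfl⟩
  obtain ⟨a1, ha1⟩ : ∃ x : k, x = 4 * be - a4 - v (1, 0) := ⟨_, rfl⟩
  obtain ⟨ce, hce⟩ : ∃ x : k, x = (v (5, 2) - a5 - 2 * v (2, 2) - 2 * a2) / 5 := ⟨_, rfl⟩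
  obtain ⟨B, hB⟩ : ∃ B : Matrix (Fin 3) (Fin 3) k, B =
    !![v (2, 0) - (a3 + 3 * al), v (3, 0) - 3 * ce, v (4, 0) - (-a4 + 2 * be);
       v (2, 1) - (-a1 + 3 * be), v (3, 1) - (a3 + 2 * al), v (4, 1) - (-a5 + 4 * ce);
       v (2, 2) + a2, v (3, 2) - (-a1 + 2 * be), v (4, 2) - (a3 - a6 + al)] := ⟨_, rfl⟩
  have hX : ∀ b : k, Jt (X * C b) 0 b := fun b => by constructor <;> simp
  have hX' : ∀ b : k, Jt (1 + X * C b) 1 b := fun b => by constructor <;> simp [coeff_one]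
  obtain ⟨q1, hq1⟩ : ∃ q : k[X], q = -(X * C a1) := ⟨_, rfl⟩
  obtain ⟨q2, hq2⟩ : ∃ q : k[X], q = -(X * C a1 * q1 + X * C a2) := ⟨_, rfl⟩
  obtain ⟨q3, hq3⟩ : ∃ q : k[X], q = -(X * C a1 * q2 + X * C a2 * q1 + X * C a3) := ⟨_, rfl⟩
  obtain ⟨q4, hq4⟩ : ∃ q : k[X], q =
    -(X * C a1 * q3 + X * C a2 * q2 + X * C a3 * q1 + X * C a4) := ⟨_, rfl⟩
  have j1 : Jt q1 0 (-a1) := by
    have := (hX a1).neg
    rw [← hq1, neg_zero] at this
    exact this
  have j2 : Jt q2 0 (-a2) := by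
    have := (((hX a1).mul j1).add (hX a2)).neg
    rw [← hq2] at this
    simpa using this
  have j3 : Jt q3 0 (-a3) := by
    have := ((((hX a1).mul j2).add ((hX a2).mul j1)).add (hX a3)).neg
    rw [← hq3] at this
    simpa using this
  have j4 : Jt q4 0 (-a4) := by
    have := (((((hX a1).mul j3).add ((hX a2).mul j2)).add ((hX a3).mul j1)).add (hX a4)).neg
    rw [← hq4] at this
    simpa using this
  have hj := jt_gH B (jt_ga (hX' al) (jt_gc (hX ce) (jt_gb (hX be)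
    (jt_gB (hX a1) (hX a2) (hX a3) (hX a4) (hX a5) (hX a6) j1 j2 j3 j4))))
  obtain ⟨r, hr⟩ : ∃ r : Fin 6 × Fin 3 → k[X], r =
      gH (Hp B) (ga (1 + X * C al) (gc (X * C ce) (gb (X * C be)
        (gB (X * C a1) (X * C a2) (X * C a3) (X * C a4) (X * C a5) (X * C a6) q1 q2 q3 q4)))) :=
    ⟨_, rfl⟩
  rw [← hr] at hj
  have hev : ∀ s : k, (fun x => (r x).eval s) =
      gH ((Hp B).map (eval s)) (ga (1 + s * al) (gc (s * ce) (gb (s * be)
        (gB (s * a1) (s * a2) (s * a3) (s * a4) (s * a5) (s * a6) (q1.eval s) (q2.eval s)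
          (q3.eval s) (q4.eval s))))) := by
    intro s
    funext x
    rw [hr, eval_gH]
    simp only [eval_ga]
    simp only [eval_gc]
    simp only [eval_gb]
    simp only [eval_gB, eval_add, eval_mul, eval_X, eval_C, eval_one]
  refine curve_of_poly (v := v) r (fun x => ?_) ?_
  · have h1 := hj x
    refine ⟨h1.1, h1.2.trans ?_⟩
    obtain ⟨j, l⟩ := x
    have e6 : 6 * al = a3 + 2 * v (2, 0) - v (5, 0) := by rw [hal]; field_simp
    have e2 : 2 * be = v (5, 1) + a4 - 2 * v (2, 1) + 2 * v (1, 0) := by rw [hbe]; ring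
    have e5 : 5 * ce = v (5, 2) - a5 - 2 * v (2, 2) - 2 * a2 := by rw [hce]; field_simp
    rw [ha3] at e6
    rw [ha4] at e2
    rw [ha5, ha2] at e5
    fin_cases j <;> fin_cases l <;>
      simp [gB, hB, ha2, ha3, ha4, ha5, ha6, ha1] <;>
      first
        | ring1
        | linear_combination e6
        | linear_combination -e6
        | linear_combination e5
        | linear_combination e2
  · have hf1 : {s : k | 1 + s * al = 0}.Finite :=
      ((D7.IsPoly.const 1).add (D7.IsPoly.id.mul (D7.IsPoly.const al))).finite (s₁ := 0) (by simp)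
    have hf2 : {s : k | 1 + s * a3 = 0}.Finite :=
      ((D7.IsPoly.const 1).add (D7.IsPoly.id.mul (D7.IsPoly.const a3))).finite (s₁ := 0) (by simp)
    refine ((hf1.union hf2).union (det_finite B)).infinite_compl.mono fun s hs => ?_
    simp only [Set.mem_compl_iff, Set.mem_union, Set.mem_ofPred_eq, not_or] at hs
    obtain ⟨⟨hs1, hs2⟩, hs3⟩ := hs
    obtain ⟨f5, hf5⟩ : ∃ f : k, f + (s * a1) * q4.eval s + (s * a2) * q3.eval s +
      (s * a3) * q2.eval s + (s * a4) * q1.eval s + s * a5 = 0 :=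
      ⟨-((s * a1) * q4.eval s + (s * a2) * q3.eval s +
      (s * a3) * q2.eval s + (s * a4) * q1.eval s + s * a5), by ring⟩
    obtain ⟨f6, hf6⟩ : ∃ f : k, f + (s * a1) * f5 + (s * a2) * q4.eval s +
      (s * a3) * q3.eval s + (s * a4) * q2.eval s + (s * a5) * q1.eval s + s * a6 = 0 :=
      ⟨-((s * a1) * f5 + (s * a2) * q4.eval s +
      (s * a3) * q3.eval s + (s * a4) * q2.eval s + (s * a5) * q1.eval s + s * a6), by ring⟩
    have hb := cl_base (g1 := s * a1) (g2 := s * a2) (g3 := s * a3) (g4 := s * a4)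
      (g5 := s * a5) (g6 := s * a6) (f1 := q1.eval s) (f2 := q2.eval s) (f3 := q3.eval s)
      (f4 := q4.eval s) (f5 := f5) (f6 := f6) hs2
      (by
        rw [hq1]
        simp only [eval_neg, eval_mul, eval_X, eval_C]
        ring)
      (by
        rw [hq2]
        simp only [eval_neg, eval_add, eval_mul, eval_X, eval_C]
        ring)
      (by
        rw [hq3]
        simp only [eval_neg, eval_add, eval_mul, eval_X, eval_C]
        ring)
      (by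
        rw [hq4]
        simp only [eval_neg, eval_add, eval_mul, eval_X, eval_C]
        ring)
      hf5 hf6
    rw [TG3_eq] at hb
    have h1 := cl_gH hs3 (cl_ga hs1 (cl_gc (s * ce) (cl_gb (s * be) hb)))
    rw [← hev s, ← TG3_eq] at h1
    exact h1

end curve

/-- polynomial functions of several variables -/
def IsP {ι : Type*} (f : (ι → k) → k) : Prop := ∃ p : MvPolynomial ι k, ∀ r, f r = MvPolynomial.eval r p

theorem IsP.const {ι : Type*} (a : k) : IsP fun _ : ι → k => a :=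
  ⟨MvPolynomial.C a, fun r => by rw [MvPolynomial.eval_C]⟩

theorem IsP.var {ι : Type*} (x : ι) : IsP fun r : ι → k => r x :=
  ⟨MvPolynomial.X x, fun r => by rw [MvPolynomial.eval_X]⟩

theorem isP_TG3 (z : Fin 3 × N9 × N9) :
    IsP fun r : Fin 6 × Fin 3 → k => TG3 r z.1 z.2.1 z.2.2 := by
  obtain ⟨i, x, y⟩ := z
  rcases x with x | x | x <;> rcases y with y | y | y <;> first
    | exact IsP.const _
    | exact IsP.var _

end ClTG3Aux

open ClTG3Aux MvPolynomial in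
/-- all triples `TG3 g` are limits of curvilinear triples -/
theorem cl_TG3 [IsAlgClosed k] [CharZero k] (G : Fin 6 × Fin 3 → k) : Cl (TG3 G) := by
  have hinf : Infinite k := inferInstance
  intro F hF
  choose p hp using isP_TG3 (k := k)
  have hev : ∀ r : Fin 6 × Fin 3 → k, eval r (aeval p F) = eval (co (TG3 r)) F := by
    intro r
    have h1 : ((aeval r : MvPolynomial (Fin 6 × Fin 3) k →ₐ[k] k).comp (aeval p)) =
        (aeval (co (TG3 r)) : MvPolynomial (Fin 3 × N9 × N9) k →ₐ[k] k) := by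
      apply MvPolynomial.algHom_ext
      intro z
      simp only [AlgHom.comp_apply, aeval_X]
      exact (hp z r).symm
    exact congrArg (fun f => f F) h1
  have h0 : aeval p F = 0 := by
    refine eq_zero_of_curves {r : Fin 6 × Fin 3 → k | Cl (TG3 r)} (gB 0 0 0 0 0 0 0 0 0 0) curve _ ?_
    intro r hr
    rw [hev]
    exact hr F hF
  rw [← hev, h0, map_zero]

end Pool.Agent.Lib.D9
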