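import Pool.Agent.Lib.D9.Ta31K

/-!
# MP_5dcbc3_ag: Jordan type `(a, 3, 1)`, `a ≥ 5`: the theorems
-/

namespace Pool.Agent.Lib.D9

open Matrix Polynomial Pool.Agent.Lib.Q5dc Pool.Agent.Lib.D7 Pool.Agent.Lib.D8

universe u

variable {k : Type u} [Field k]

namespace Ta31

variable {m : ℕ}

theorem fin_line [Infinite k] (a : k) : {s : k | a + s = 0}.Finite :=
  (Set.finite_singleton (-a)).subset fun s hs => by
    have h1 : a + s = 0 := hs
    exact Set.mem_singleton_iff.2 (by linear_combination h1)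

theorem poly_line (a : k) : D7.IsPoly fun s : k => a + s :=
  (D7.IsPoly.const a).add D7.IsPoly.id

/-- limits of planar triples -/
theorem planar_limit [Infinite k] {x : k → P k} (hx : PP x) {E : Set k} (hE : E.Finite)
    (h : ∀ s ∉ E, Cl ![(J : Matrix (Fin (m + 9)) (Fin (m + 9)) k), mk (x s), 0]) :
    Cl ![(J : Matrix (Fin (m + 9)) (Fin (m + 9)) k), mk (x 0), 0] := by
  have h1 := G_limit (m := m) hx (PP.const (0 : P k)) hE (fun s hs => by
    show Cl ![J, mk (x s), mk 0]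
    rw [mk_zero]
    exact h s hs)
  have h2 : Cl ![(J : Matrix (Fin (m + 9)) (Fin (m + 9)) k), mk (x 0), mk 0] := h1
  rwa [mk_zero] at h2

theorem planar_big' [IsAlgClosed k] [CharZero k] {j : ℕ} (f0 f1 f2 q1 q2 pi th et : k) :
    Cl ![(J : Matrix (Fin (j + 1 + 9)) (Fin (j + 1 + 9)) k),
      mk (aB f0 f1 f2 q1 q2 pi th et), 0] := by
  have hk : Infinite k := IsAlgClosed.instInfinite
  have hc : ∀ a : k, D7.IsPoly fun _ : k => a := D7.IsPoly.const
  have hP : D7.IsPoly fun s : k => q1 ^ 2 + (pi + s) * (et + s) :=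
    (hc _).add ((poly_line pi).mul (poly_line et))
  have hfin : {s : k | q1 ^ 2 + (pi + s) * (et + s) = 0}.Finite := by
    by_contra hinf
    have hz : ∀ s : k, q1 ^ 2 + (pi + s) * (et + s) = 0 := by
      intro s
      by_contra hs
      exact hinf (hP.finite hs)
    have h0 := hz 0
    have h1 := hz 1
    have h2 := hz (-1)
    have h3 : (2 : k) = 0 := by linear_combination h1 + h2 - 2 * h0
    exact absurd h3 (by norm_num)
  have h := planar_limit (m := j + 1) (x := fun s => aB f0 f1 f2 q1 q2 (pi + s) th (et + s))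
    ⟨hc _, hc _, hc _, hc _, hc _, hc _, hc _, hc _, hc _, poly_line _, hc _, poly_line _⟩
    (((fin_line pi).union (fin_line et)).union hfin) (by
      intro s hs
      simp only [Set.mem_union, Set.mem_ofPred_eq, not_or] at hs
      exact planar_big hs.1.1 hs.1.2 hs.2)
  simpa only [add_zero] using h

/-- the quartic equation -/
theorem exists_param [IsAlgClosed k] {f0 q1 E : k} (hf : f0 ≠ 0) (hd : q1 ^ 2 + 4 * f0 ≠ 0)
    (hE1 : E ≠ q1 ^ 2) (hE2 : E ≠ q1 ^ 2 + f0)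
    (hw : ∀ r : k, r ^ 3 + 3 * f0 * r - f0 * q1 = 0 → E ≠ 3 * r * (q1 - r)) :
    ∃ μ n r : k, f0 = n * r ^ 2 ∧ q1 = μ + μ * n + 2 * r ∧
      E = 2 * r * μ * (1 + n) + 3 * r ^ 2 + μ ^ 2 * n * (1 + n) ∧ r ≠ 0 ∧ 1 + n ≠ 0 ∧
      r + μ ≠ 0 ∧ r - μ * n ≠ 0 := by
  obtain ⟨r, hr⟩ : ∃ r : k, (E - 2 * r * q1 + r ^ 2) * (r ^ 2 + f0) = f0 * (q1 - 2 * r) ^ 2 := by
    obtain ⟨r, hr⟩ := IsAlgClosed.exists_root
      (X ^ 4 + (C (-(2 * q1)) * X ^ 3 + C (E - 3 * f0) * X ^ 2 + C (2 * q1 * f0) * X +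
        C (f0 * (E - q1 ^ 2))) : k[X]) (by
        have h1 : (C (-(2 * q1)) * X ^ 3 + C (E - 3 * f0) * X ^ 2 + C (2 * q1 * f0) * X +
            C (f0 * (E - q1 ^ 2)) : k[X]).degree < 4 := lt_of_le_of_lt degree_cubic_le (by
          exact_mod_cast (by norm_num : (3 : ℕ) < 4))
        have h2 : (X ^ 4 + (C (-(2 * q1)) * X ^ 3 + C (E - 3 * f0) * X ^ 2 + C (2 * q1 * f0) * X +
            C (f0 * (E - q1 ^ 2))) : k[X]).degree = 4 := by
          rw [degree_add_eq_left_of_degree_lt]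
          · rw [degree_X_pow]; rfl
          · rw [degree_X_pow]; exact h1
        rw [h2]
        norm_num)
    have hr' : r ^ 4 + (-(2 * q1) * r ^ 3 + (E - 3 * f0) * r ^ 2 + 2 * q1 * f0 * r +
        f0 * (E - q1 ^ 2)) = 0 := by
      have := hr
      simpa only [IsRoot.def, eval_add, eval_mul, eval_C, eval_pow, eval_X] using this
    exact ⟨r, by linear_combination hr'⟩
  have hr0 : r ≠ 0 := by
    rintro rfl
    apply hE1
    have : f0 * (E - q1 ^ 2) = 0 := by linear_combination hr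
    linear_combination (mul_eq_zero.1 this).resolve_left hf
  have hrf : r ^ 2 + f0 ≠ 0 := by
    intro h
    apply hd
    have h1 : f0 * (q1 - 2 * r) ^ 2 = 0 := by
      rw [← hr, h, mul_zero]
    have h2 : q1 - 2 * r = 0 := by
      have := (mul_eq_zero.1 h1).resolve_left hf
      exact pow_eq_zero_iff (n := 2) (by norm_num) |>.1 this
    linear_combination (q1 + 2 * r) * h2 + 4 * h
  have hr2 : r ^ 2 ≠ 0 := pow_ne_zero 2 hr0
  obtain ⟨n, hn⟩ : ∃ n, n * r ^ 2 = f0 := ⟨_, div_mul_cancel₀ _ hr2⟩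
  have hn1 : 1 + n ≠ 0 := by
    intro h
    apply hrf
    linear_combination r ^ 2 * h - hn
  obtain ⟨μ, hμ⟩ : ∃ μ, μ * (1 + n) = q1 - 2 * r := ⟨_, div_mul_cancel₀ _ hn1⟩
  have hE : E = 2 * r * μ * (1 + n) + 3 * r ^ 2 + μ ^ 2 * n * (1 + n) := by
    have h1 : (r ^ 2 + f0) * (E - (2 * r * μ * (1 + n) + 3 * r ^ 2 + μ ^ 2 * n * (1 + n))) = 0 := by
      rw [← hn] at hr ⊢
      have h2 : q1 = μ * (1 + n) + 2 * r := by linear_combination -hμ
      rw [h2] at hr
      linear_combination hr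
    exact sub_eq_zero.1 ((mul_eq_zero.1 h1).resolve_left hrf)
  refine ⟨μ, n, r, hn.symm, by linear_combination -hμ, hE, hr0, hn1, ?_, ?_⟩
  · intro h
    apply hE2
    have h1 : μ = -r := by linear_combination h
    subst h1
    have h2 : q1 = 2 * r - r * (1 + n) := by linear_combination -hμ
    rw [hE, ← hn, h2]
    ring
  · intro h
    have h1 : r = μ * n := by linear_combination h
    refine hw r ?_ ?_
    · rw [← hn]
      linear_combination n * r ^ 2 * hμ + (1 + n) * r ^ 2 * h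
    · rw [hE]
      linear_combination (2 * r + r) * hμ - μ * (1 + n) * h

theorem planar_s1 [IsAlgClosed k] [CharZero k] {f0 f1 f2 q1 q2 pi th et : k} (hpi : pi ≠ 0)
    (hf : f0 ≠ 0) (hd : q1 ^ 2 + 4 * f0 ≠ 0) :
    Cl ![(J : Matrix (Fin (0 + 9)) (Fin (0 + 9)) k), mk (aB f0 f1 f2 q1 q2 pi th et), 0] := by
  have hk : Infinite k := IsAlgClosed.instInfinite
  have hc : ∀ a : k, D7.IsPoly fun _ : k => a := D7.IsPoly.const
  -- the exceptional values
  have hfin : ∀ v : k, {s : k | q1 ^ 2 + pi * (et + s) + f0 = v}.Finite := fun v =>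
    (Set.finite_singleton ((v - q1 ^ 2 - f0 - pi * et) / pi)).subset fun s hs => by
      have h1 : q1 ^ 2 + pi * (et + s) + f0 = v := hs
      rw [Set.mem_singleton_iff, eq_div_iff hpi]
      linear_combination h1
  have hroots : {r : k | r ^ 3 + 3 * f0 * r - f0 * q1 = 0}.Finite := by
    have hP : D7.IsPoly fun r : k => r ^ 3 + 3 * f0 * r - f0 * q1 := by
      have h1 := (((D7.IsPoly.id (k := k)).mul (D7.IsPoly.id.mul D7.IsPoly.id)).add
        ((hc (3 * f0)).mul D7.IsPoly.id)).sub (hc (f0 * q1))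
      convert h1 using 2
      ring
    by_contra hinf
    have hz : ∀ r : k, r ^ 3 + 3 * f0 * r - f0 * q1 = 0 := by
      intro s
      by_contra hs
      exact hinf (hP.finite hs)
    have h0 := hz 0
    have h1 := hz 1
    have h2 := hz 2
    have h3 : (6 : k) = 0 := by linear_combination h2 - 2 * h1 + h0
    exact absurd h3 (by norm_num)
  have hbad : (⋃ r ∈ {r : k | r ^ 3 + 3 * f0 * r - f0 * q1 = 0},
      {s : k | q1 ^ 2 + pi * (et + s) + f0 = 3 * r * (q1 - r)}).Finite :=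
    hroots.biUnion fun r _ => hfin _
  have h := planar_limit (m := 0) (x := fun s => aB f0 f1 f2 q1 q2 pi th (et + s))
    ⟨hc _, hc _, hc _, hc _, hc _, hc _, hc _, hc _, hc _, hc _, hc _, poly_line _⟩
    (((hfin (q1 ^ 2)).union (hfin (q1 ^ 2 + f0))).union hbad) (by
      intro s hs
      simp only [Set.mem_union, Set.mem_iUnion, Set.mem_ofPred_eq, not_or, not_exists] at hs
      obtain ⟨⟨n1, n2⟩, n3⟩ := hs
      obtain ⟨μ, n, r, h1, h2, h3, h4, h5, h6, h7⟩ := exists_param hf hd n1 n2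
        (fun r hr => n3 r hr)
      exact planar_small hpi h1 h2 h3 h4 h5 h6 h7)
  simpa only [add_zero] using h

theorem planar_small' [IsAlgClosed k] [CharZero k] (f0 f1 f2 q1 q2 pi th et : k) :
    Cl ![(J : Matrix (Fin (0 + 9)) (Fin (0 + 9)) k), mk (aB f0 f1 f2 q1 q2 pi th et), 0] := by
  have hk : Infinite k := IsAlgClosed.instInfinite
  have hc : ∀ a : k, D7.IsPoly fun _ : k => a := D7.IsPoly.const
  have hfin : {s : k | q1 ^ 2 + 4 * (f0 + s) = 0}.Finite :=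
    (Set.finite_singleton (-(q1 ^ 2 + 4 * f0) / 4)).subset fun s hs => by
      have h1 : q1 ^ 2 + 4 * (f0 + s) = 0 := hs
      rw [Set.mem_singleton_iff, eq_div_iff (by norm_num)]
      linear_combination h1
  have h := planar_limit (m := 0) (x := fun s => aB (f0 + s) f1 f2 q1 q2 (pi + s) th et)
    ⟨hc _, hc _, hc _, poly_line _, hc _, hc _, hc _, hc _, hc _, poly_line _, hc _, hc _⟩
    (((fin_line pi).union (fin_line f0)).union hfin) (by
      intro s hs
      simp only [Set.mem_union, Set.mem_ofPred_eq, not_or] at hs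
      exact planar_s1 hs.1.1 hs.1.2 hs.2)
  simpa only [add_zero] using h

theorem planar_aB [IsAlgClosed k] [CharZero k] (f0 f1 f2 q1 q2 pi th et : k) :
    Cl ![(J : Matrix (Fin (m + 9)) (Fin (m + 9)) k), mk (aB f0 f1 f2 q1 q2 pi th et), 0] := by
  cases m with
  | zero => exact planar_small' f0 f1 f2 q1 q2 pi th et
  | succ j => exact planar_big' f0 f1 f2 q1 q2 pi th et

/-- all planar triples -/
theorem planar_all [IsAlgClosed k] [CharZero k] (x : P k) : G m x 0 := by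
  have hk : Infinite k := IsAlgClosed.instInfinite
  have hc : ∀ a : k, D7.IsPoly fun _ : k => a := D7.IsPoly.const
  have h1 : ∀ x : P k, x.c0 ≠ 0 → Cl ![(J : Matrix (Fin (m + 9)) (Fin (m + 9)) k), mk x, 0] := by
    intro x hx
    have h2 : G m ⟨1, x.c0⁻¹ * x.c1, x.c0⁻¹ * x.c2, x.c0⁻¹ * x.f0, x.c0⁻¹ * x.f1,
        x.c0⁻¹ * x.f2, x.c0⁻¹ * x.q1, x.c0⁻¹ * x.q2, x.c0⁻¹ * x.om, x.c0⁻¹ * x.pi, x.c0⁻¹ * x.th,
        x.c0⁻¹ * x.et⟩ 0 := by
      refine G.conjN (conj3 _ _ _ _ _ _ _ _ _ _ _) (y' := 0) (a' := 0) (b' := 0) (c' := 0) ?_ ?_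
      · rw [mk_zero, zero_mul, zero_smul, zero_smul, zero_smul, add_zero, add_zero, add_zero,
          mul_zero]
      · show Cl ![J, mk _, mk 0]
        rw [mk_zero]
        exact planar_aB _ _ _ _ _ _ _ _
    have h3 : Cl ![(J : Matrix (Fin (m + 9)) (Fin (m + 9)) k), mk (x.c0⁻¹ • x), 0] := by
      have h4 : (x.c0⁻¹ • x : P k) = ⟨1, x.c0⁻¹ * x.c1, x.c0⁻¹ * x.c2, x.c0⁻¹ * x.f0,
          x.c0⁻¹ * x.f1, x.c0⁻¹ * x.f2, x.c0⁻¹ * x.q1, x.c0⁻¹ * x.q2, x.c0⁻¹ * x.om,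
          x.c0⁻¹ * x.pi, x.c0⁻¹ * x.th, x.c0⁻¹ * x.et⟩ := by
        show (⟨x.c0⁻¹ * x.c0, _, _, _, _, _, _, _, _, _, _, _⟩ : P k) = _
        rw [inv_mul_cancel₀ hx]
      rw [h4]
      have h5 : Cl ![(J : Matrix (Fin (m + 9)) (Fin (m + 9)) k), mk _, mk 0] := h2
      rwa [mk_zero] at h5
    refine cl_of_adj (fun i => ?_) h3
    fin_cases i
    · exact mem_adj ![J, mk (x.c0⁻¹ • x), 0] 0
    · show mk x ∈ _
      have e1 : (mk x : Matrix (Fin (m + 9)) (Fin (m + 9)) k) = x.c0 • mk (x.c0⁻¹ • x) := by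
        rw [mk_smul, smul_smul, mul_inv_cancel₀ hx, one_smul]
      rw [e1]
      exact SMulMemClass.smul_mem _ (mem_adj ![J, mk (x.c0⁻¹ • x), 0] 1)
    · exact mem_adj ![J, mk (x.c0⁻¹ • x), 0] 2
  have h2 := planar_limit (m := m) (x := fun s => (⟨x.c0 + s, x.c1, x.c2, x.f0, x.f1, x.f2, x.q1,
    x.q2, x.om, x.pi, x.th, x.et⟩ : P k))
    ⟨poly_line _, hc _, hc _, hc _, hc _, hc _, hc _, hc _, hc _, hc _, hc _, hc _⟩
    (fin_line x.c0) (fun s hs => h1 _ hs)
  simp only [add_zero] at h2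
  show Cl ![J, mk x, mk 0]
  rw [mk_zero]
  exact h2

end Ta31

/-- commuting nilpotent triples whose first matrix is the Jordan matrix of type
`(m + 5, 3, 1)` -/
theorem cl_a31 [IsAlgClosed k] [CharZero k] {m : ℕ}
    {T : Fin 3 → Matrix (Fin (m + 9)) (Fin (m + 9)) k} (hT : CN T) (h0 : T 0 = Ta31.J) : Cl T :=
  Ta31.cl_T Ta31.planar_all hT h0

theorem no_a31 [IsAlgClosed k] [CharZero k] {ρ : ℕ → ℕ} {m : ℕ}
    {T : Fin 3 → Matrix (Fin (m + 9)) (Fin (m + 9)) k} (hT : MaxR ρ T) (h0 : T 0 = Ta31.J) :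
    False :=
  hT.ncl (cl_a31 hT.cn h0)

theorem J531_eq : J531 k = (Ta31.J : Matrix (Fin (0 + 9)) (Fin (0 + 9)) k) := by
  ext i j
  fin_cases i <;> fin_cases j <;> simp [J531, Ta31.J]

/-- no maximal bad triple of type `(5, 3, 1)` -/
theorem no_531 [IsAlgClosed k] [CharZero k] {ρ : ℕ → ℕ} {T : Fin 3 → Matrix (Fin 9) (Fin 9) k}
    (hT : MaxR ρ T) (h0 : T 0 = J531 k) : False :=
  no_a31 (m := 0) hT (h0.trans J531_eq)

end Pool.Agent.Lib.D9
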