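import Pool.Agent.Lib.D7.Api
import Pool.Agent.Lib.D8.UtilB

/-!
# MP_5dcbc3_ag: block matrices commuting with a Jordan matrix of type `(3^e, 2^u, 1^p)`

Basis: `E_0, E_1, E_2` (three copies of `k^e`), `U_0, U_1` (two copies of `k^u`), `P = k^p`.
The Jordan matrix `A = JX` maps `E_0 -> E_1 -> E_2 -> 0`, `U_0 -> U_1 -> 0`, `P -> 0`.
-/

namespace Pool.Agent.Lib.D9

open Matrix Pool.Agent.Lib.Q5dc Pool.Agent.Lib.D7

/-- indices: `((E_0, E_1, E_2), (U_0, U_1), P)` -/
abbrev Ix (e u p : ℕ) : Type := (Fin e ⊕ Fin e ⊕ Fin e) ⊕ ((Fin u ⊕ Fin u) ⊕ Fin p)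

variable {k : Type*} [Field k] {e u p : ℕ}

/-- `x` in `E_0`: `x -> N x (E_1) + M x (E_2) + a x (U_0) + c x (U_1) + w x (P)`,
`E_1`: `x -> N x (E_2) + a x (U_1)`, `U_0`: `x -> b x (E_1) + d x (E_2) + nu x (U_1) + pi x (P)`,
`U_1`: `x -> b x (E_2)`, `P`: `x -> th x (E_2) + et x (U_1)`. -/
def BX (N M : Matrix (Fin e) (Fin e) k) (a c : Matrix (Fin u) (Fin e) k)
    (w : Matrix (Fin p) (Fin e) k) (b d : Matrix (Fin e) (Fin u) k)
    (nu : Matrix (Fin u) (Fin u) k) (pi : Matrix (Fin p) (Fin u) k)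
    (th : Matrix (Fin e) (Fin p) k) (et : Matrix (Fin u) (Fin p) k) :
    Matrix (Ix e u p) (Ix e u p) k :=
  Matrix.of fun i j => match i, j with
    | .inl (.inr (.inl i)), .inl (.inl j) => N i j
    | .inl (.inr (.inr i)), .inl (.inl j) => M i j
    | .inr (.inl (.inl i)), .inl (.inl j) => a i j
    | .inr (.inl (.inr i)), .inl (.inl j) => c i j
    | .inr (.inr i), .inl (.inl j) => w i j
    | .inl (.inr (.inr i)), .inl (.inr (.inl j)) => N i j
    | .inr (.inl (.inr i)), .inl (.inr (.inl j)) => a i j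
    | .inl (.inr (.inl i)), .inr (.inl (.inl j)) => b i j
    | .inl (.inr (.inr i)), .inr (.inl (.inl j)) => d i j
    | .inr (.inl (.inr i)), .inr (.inl (.inl j)) => nu i j
    | .inr (.inr i), .inr (.inl (.inl j)) => pi i j
    | .inl (.inr (.inr i)), .inr (.inl (.inr j)) => b i j
    | .inl (.inr (.inr i)), .inr (.inr j) => th i j
    | .inr (.inl (.inr i)), .inr (.inr j) => et i j
    | _, _ => 0

/-- the Jordan matrix -/
def JX (k : Type*) [Field k] (e u p : ℕ) : Matrix (Ix e u p) (Ix e u p) k :=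
  BX 1 0 0 0 0 0 0 1 0 0 0

section

variable (N M N' M' : Matrix (Fin e) (Fin e) k) (a c a' c' : Matrix (Fin u) (Fin e) k)
    (w w' : Matrix (Fin p) (Fin e) k) (b d b' d' : Matrix (Fin e) (Fin u) k)
    (nu nu' : Matrix (Fin u) (Fin u) k) (pi pi' : Matrix (Fin p) (Fin u) k)
    (th th' : Matrix (Fin e) (Fin p) k) (et et' : Matrix (Fin u) (Fin p) k) (s : k)

theorem BX_mul :
    BX N M a c w b d nu pi th et * BX N' M' a' c' w' b' d' nu' pi' th' et' =
      BX (b * a') (N * N' + d * a' + b * c' + th * w') 0 (a * N' + nu * a' + et * w') (pi * a')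
        0 (N * b' + b * nu' + th * pi') (a * b' + et * pi') 0 (b * et') 0 := by
  ext i j
  rcases i with (i | i | i) | ((i | i) | i) <;> rcases j with (j | j | j) | ((j | j) | j) <;>
    simp [BX, Matrix.mul_apply, Fintype.sum_sum_type, add_assoc]

theorem BX_add :
    BX N M a c w b d nu pi th et + BX N' M' a' c' w' b' d' nu' pi' th' et' =
      BX (N + N') (M + M') (a + a') (c + c') (w + w') (b + b') (d + d') (nu + nu') (pi + pi')
        (th + th') (et + et') := by
  ext i j
  rcases i with (i | i | i) | ((i | i) | i) <;> rcases j with (j | j | j) | ((j | j) | j) <;>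
    simp [BX]

theorem BX_smul :
    s • BX N M a c w b d nu pi th et =
      BX (s • N) (s • M) (s • a) (s • c) (s • w) (s • b) (s • d) (s • nu) (s • pi) (s • th)
        (s • et) := by
  ext i j
  rcases i with (i | i | i) | ((i | i) | i) <;> rcases j with (j | j | j) | ((j | j) | j) <;>
    simp [BX]

theorem BX_zero : (BX 0 0 0 0 0 0 0 0 0 0 0 : Matrix (Ix e u p) (Ix e u p) k) = 0 := by
  ext i j
  rcases i with (i | i | i) | ((i | i) | i) <;> rcases j with (j | j | j) | ((j | j) | j) <;>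
    simp [BX]

theorem BX_inj :
    BX N M a c w b d nu pi th et = BX N' M' a' c' w' b' d' nu' pi' th' et' ↔
      N = N' ∧ M = M' ∧ a = a' ∧ c = c' ∧ w = w' ∧ b = b' ∧ d = d' ∧ nu = nu' ∧ pi = pi' ∧
        th = th' ∧ et = et' := by
  constructor
  · intro h
    have H := fun i j => congrFun (congrFun h i) j
    refine ⟨?_, ?_, ?_, ?_, ?_, ?_, ?_, ?_, ?_, ?_, ?_⟩
    · ext i j
      exact H (.inl (.inr (.inl i))) (.inl (.inl j))
    · ext i j
      exact H (.inl (.inr (.inr i))) (.inl (.inl j))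
    · ext i j
      exact H (.inr (.inl (.inl i))) (.inl (.inl j))
    · ext i j
      exact H (.inr (.inl (.inr i))) (.inl (.inl j))
    · ext i j
      exact H (.inr (.inr i)) (.inl (.inl j))
    · ext i j
      exact H (.inl (.inr (.inl i))) (.inr (.inl (.inl j)))
    · ext i j
      exact H (.inl (.inr (.inr i))) (.inr (.inl (.inl j)))
    · ext i j
      exact H (.inr (.inl (.inr i))) (.inr (.inl (.inl j)))
    · ext i j
      exact H (.inr (.inr i)) (.inr (.inl (.inl j)))
    · ext i j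
      exact H (.inl (.inr (.inr i))) (.inr (.inr j))
    · ext i j
      exact H (.inr (.inl (.inr i))) (.inr (.inr j))
  · rintro ⟨rfl, rfl, rfl, rfl, rfl, rfl, rfl, rfl, rfl, rfl, rfl⟩
    rfl

theorem JX_mul_BX :
    JX k e u p * BX N M a c w b d nu pi th et = BX 0 N 0 a 0 0 b 0 0 0 0 := by
  rw [JX, BX_mul]
  simp

theorem BX_mul_JX :
    BX N M a c w b d nu pi th et * JX k e u p = BX 0 N 0 a 0 0 b 0 0 0 0 := by
  rw [JX, BX_mul]
  simp

theorem JX_comm :
    JX k e u p * BX N M a c w b d nu pi th et = BX N M a c w b d nu pi th et * JX k e u p := by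
  rw [JX_mul_BX, BX_mul_JX]

theorem JX_sq : JX k e u p * JX k e u p = BX 0 1 0 0 0 0 0 0 0 0 0 := by
  nth_rewrite 2 [JX]
  rw [JX_mul_BX]

theorem JX_cube : JX k e u p ^ 3 = 0 := by
  rw [pow_succ, pow_two, JX_sq, BX_mul_JX, BX_zero]

theorem JX_nil : IsNilpotent (JX k e u p) := ⟨3, JX_cube⟩

/-- `BX` commutes with `BX'` iff seven relations hold -/
theorem BX_comm :
    BX N M a c w b d nu pi th et * BX N' M' a' c' w' b' d' nu' pi' th' et' =
      BX N' M' a' c' w' b' d' nu' pi' th' et' * BX N M a c w b d nu pi th et ↔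
      b * a' = b' * a ∧
      N * N' + d * a' + b * c' + th * w' = N' * N + d' * a + b' * c + th' * w ∧
      a * N' + nu * a' + et * w' = a' * N + nu' * a + et' * w ∧
      pi * a' = pi' * a ∧
      N * b' + b * nu' + th * pi' = N' * b + b' * nu + th' * pi ∧
      a * b' + et * pi' = a' * b + et' * pi ∧
      b * et' = b' * et := by
  rw [BX_mul, BX_mul, BX_inj]
  simp

theorem BX_nil : IsNilpotent (BX N M a c w b d nu pi th et) := by
  refine isNilpotent_of_weight _ (fun i => match i with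
    | .inl (.inl _) => 0
    | .inl (.inr (.inl _)) => 2
    | .inl (.inr (.inr _)) => 4
    | .inr (.inl (.inl _)) => 1
    | .inr (.inl (.inr _)) => 3
    | .inr (.inr _) => 2) ?_
  intro i j h
  rcases i with (i | i | i) | ((i | i) | i) <;> rcases j with (j | j | j) | ((j | j) | j) <;>
    simp [BX] at h ⊢

/-- commuting nilpotent triples `(A, BX, BX')` -/
theorem cnX
    (h1 : b * a' = b' * a)
    (h2 : N * N' + d * a' + b * c' + th * w' = N' * N + d' * a + b' * c + th' * w)
    (h3 : a * N' + nu * a' + et * w' = a' * N + nu' * a + et' * w)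
    (h4 : pi * a' = pi' * a)
    (h5 : N * b' + b * nu' + th * pi' = N' * b + b' * nu + th' * pi)
    (h6 : a * b' + et * pi' = a' * b + et' * pi)
    (h7 : b * et' = b' * et) :
    CN ![JX k e u p, BX N M a c w b d nu pi th et, BX N' M' a' c' w' b' d' nu' pi' th' et'] :=
  D8.cn3 (JX_comm ..) (JX_comm ..) ((BX_comm ..).2 ⟨h1, h2, h3, h4, h5, h6, h7⟩) JX_nil
    (BX_nil ..) (BX_nil ..)

end

/-! ### changes of bases -/

section

/-- block diagonal matrix `(g, g, g, h, h, l)` -/
def GX (g : Matrix (Fin e) (Fin e) k) (h : Matrix (Fin u) (Fin u) k)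
    (l : Matrix (Fin p) (Fin p) k) : Matrix (Ix e u p) (Ix e u p) k :=
  Matrix.of fun i j => match i, j with
    | .inl (.inl i), .inl (.inl j) => g i j
    | .inl (.inr (.inl i)), .inl (.inr (.inl j)) => g i j
    | .inl (.inr (.inr i)), .inl (.inr (.inr j)) => g i j
    | .inr (.inl (.inl i)), .inr (.inl (.inl j)) => h i j
    | .inr (.inl (.inr i)), .inr (.inl (.inr j)) => h i j
    | .inr (.inr i), .inr (.inr j) => l i j
    | _, _ => 0

theorem GX_mul (g g' : Matrix (Fin e) (Fin e) k) (h h' : Matrix (Fin u) (Fin u) k)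
    (l l' : Matrix (Fin p) (Fin p) k) : GX g h l * GX g' h' l' = GX (g * g') (h * h') (l * l') := by
  ext i j
  rcases i with (i | i | i) | ((i | i) | i) <;> rcases j with (j | j | j) | ((j | j) | j) <;>
    simp [GX, Matrix.mul_apply, Fintype.sum_sum_type]

theorem GX_one : GX (1 : Matrix (Fin e) (Fin e) k) (1 : Matrix (Fin u) (Fin u) k)
    (1 : Matrix (Fin p) (Fin p) k) = 1 := by
  ext i j
  rcases i with (i | i | i) | ((i | i) | i) <;> rcases j with (j | j | j) | ((j | j) | j) <;>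
    simp [GX, Matrix.one_apply]

variable (N M : Matrix (Fin e) (Fin e) k) (a c : Matrix (Fin u) (Fin e) k)
    (w : Matrix (Fin p) (Fin e) k) (b d : Matrix (Fin e) (Fin u) k)
    (nu : Matrix (Fin u) (Fin u) k) (pi : Matrix (Fin p) (Fin u) k)
    (th : Matrix (Fin e) (Fin p) k) (et : Matrix (Fin u) (Fin p) k)
    (g g' : Matrix (Fin e) (Fin e) k) (h h' : Matrix (Fin u) (Fin u) k)
    (l l' : Matrix (Fin p) (Fin p) k)

theorem GX_mul_BX : GX g h l * BX N M a c w b d nu pi th et =
    BX (g * N) (g * M) (h * a) (h * c) (l * w) (g * b) (g * d) (h * nu) (l * pi) (g * th)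
      (h * et) := by
  ext i j
  rcases i with (i | i | i) | ((i | i) | i) <;> rcases j with (j | j | j) | ((j | j) | j) <;>
    simp [GX, BX, Matrix.mul_apply, Fintype.sum_sum_type]

theorem BX_mul_GX : BX N M a c w b d nu pi th et * GX g h l =
    BX (N * g) (M * g) (a * g) (c * g) (w * g) (b * h) (d * h) (nu * h) (pi * h) (th * l)
      (et * l) := by
  ext i j
  rcases i with (i | i | i) | ((i | i) | i) <;> rcases j with (j | j | j) | ((j | j) | j) <;>
    simp [GX, BX, Matrix.mul_apply, Fintype.sum_sum_type]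

theorem GX_conj : GX g h l * BX N M a c w b d nu pi th et * GX g' h' l' =
    BX (g * N * g') (g * M * g') (h * a * g') (h * c * g') (l * w * g') (g * b * h')
      (g * d * h') (h * nu * h') (l * pi * h') (g * th * l') (h * et * l') := by
  rw [GX_mul_BX, BX_mul_GX]

theorem GX_JX (hg : g * g' = 1) (hh : h * h' = 1) :
    GX g h l * JX k e u p * GX g' h' l' = JX k e u p := by
  rw [JX, GX_conj]
  simp [hg, hh]

/-- change of the bases of `E`, `U`, `P` in a maximal bad triple -/
theorem MaxR.conjX {ρ : ℕ → ℕ} {N M N' M' : Matrix (Fin e) (Fin e) k}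
    {a c a' c' : Matrix (Fin u) (Fin e) k}
    {w w' : Matrix (Fin p) (Fin e) k} {b d b' d' : Matrix (Fin e) (Fin u) k}
    {nu nu' : Matrix (Fin u) (Fin u) k} {pi pi' : Matrix (Fin p) (Fin u) k}
    {th th' : Matrix (Fin e) (Fin p) k} {et et' : Matrix (Fin u) (Fin p) k}
    (hT : MaxR ρ ![JX k e u p, BX N M a c w b d nu pi th et,
      BX N' M' a' c' w' b' d' nu' pi' th' et'])
    (hg : g * g' = 1) (hh : h * h' = 1) (hl : l * l' = 1) :
    MaxR ρ ![JX k e u p,
      BX (g * N * g') (g * M * g') (h * a * g') (h * c * g') (l * w * g') (g * b * h')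
        (g * d * h') (h * nu * h') (l * pi * h') (g * th * l') (h * et * l'),
      BX (g * N' * g') (g * M' * g') (h * a' * g') (h * c' * g') (l * w' * g') (g * b' * h')
        (g * d' * h') (h * nu' * h') (l * pi' * h') (g * th' * l') (h * et' * l')] := by
  have e1 : GX g h l * GX g' h' l' = 1 := by rw [GX_mul, hg, hh, hl, GX_one]
  have e2 : GX g' h' l' * GX g h l = 1 := by
    rw [GX_mul, mul_eq_one_comm.1 hg, mul_eq_one_comm.1 hh, mul_eq_one_comm.1 hl, GX_one]
  have h1 := hT.conj _ _ e1 e2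
  have h2 : (fun i => GX g h l * (![JX k e u p, BX N M a c w b d nu pi th et,
      BX N' M' a' c' w' b' d' nu' pi' th' et'] : Fin 3 → Matrix (Ix e u p) (Ix e u p) k) i *
      GX g' h' l') = ![JX k e u p,
      BX (g * N * g') (g * M * g') (h * a * g') (h * c * g') (l * w * g') (g * b * h')
        (g * d * h') (h * nu * h') (l * pi * h') (g * th * l') (h * et * l'),
      BX (g * N' * g') (g * M' * g') (h * a' * g') (h * c' * g') (l * w' * g') (g * b' * h')
        (g * d' * h') (h * nu' * h') (l * pi' * h') (g * th' * l') (h * et' * l')] := by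
    funext i
    fin_cases i
    · exact GX_JX g g' h h' l l' hg hh
    · exact GX_conj ..
    · exact GX_conj ..
  rwa [h2] at h1

/-! ### duality -/

/-- the involution exchanging `E_0, E_2` and `U_0, U_1` -/
def sg : Ix e u p → Ix e u p
  | .inl (.inl i) => .inl (.inr (.inr i))
  | .inl (.inr (.inl i)) => .inl (.inr (.inl i))
  | .inl (.inr (.inr i)) => .inl (.inl i)
  | .inr (.inl (.inl i)) => .inr (.inl (.inr i))
  | .inr (.inl (.inr i)) => .inr (.inl (.inl i))
  | .inr (.inr i) => .inr (.inr i)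

/-- its permutation matrix -/
def PX (k : Type*) [Field k] (e u p : ℕ) : Matrix (Ix e u p) (Ix e u p) k :=
  Matrix.of fun i j => if i = sg j then 1 else 0

theorem PX_mul_PX : PX k e u p * PX k e u p = 1 := by
  ext i j
  rcases i with (i | i | i) | ((i | i) | i) <;> rcases j with (j | j | j) | ((j | j) | j) <;>
    simp [PX, sg, Matrix.mul_apply, Matrix.one_apply]

theorem PX_BX : PX k e u p * (BX N M a c w b d nu pi th et)ᵀ * PX k e u p =
    BX Nᵀ Mᵀ bᵀ dᵀ thᵀ aᵀ cᵀ nuᵀ etᵀ wᵀ piᵀ := by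
  have h : PX k e u p * (BX N M a c w b d nu pi th et)ᵀ =
      BX Nᵀ Mᵀ bᵀ dᵀ thᵀ aᵀ cᵀ nuᵀ etᵀ wᵀ piᵀ * PX k e u p := by
    ext i j
    rcases i with (i | i | i) | ((i | i) | i) <;> rcases j with (j | j | j) | ((j | j) | j) <;>
      simp [PX, sg, BX, Matrix.mul_apply, Fintype.sum_sum_type]
  rw [h, mul_assoc, PX_mul_PX, mul_one]

theorem MaxR.dualX {ρ : ℕ → ℕ} {N M N' M' : Matrix (Fin e) (Fin e) k}
    {a c a' c' : Matrix (Fin u) (Fin e) k}
    {w w' : Matrix (Fin p) (Fin e) k} {b d b' d' : Matrix (Fin e) (Fin u) k}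
    {nu nu' : Matrix (Fin u) (Fin u) k} {pi pi' : Matrix (Fin p) (Fin u) k}
    {th th' : Matrix (Fin e) (Fin p) k} {et et' : Matrix (Fin u) (Fin p) k}
    (hT : MaxR ρ ![JX k e u p, BX N M a c w b d nu pi th et,
      BX N' M' a' c' w' b' d' nu' pi' th' et']) :
    MaxR ρ ![JX k e u p, BX Nᵀ Mᵀ bᵀ dᵀ thᵀ aᵀ cᵀ nuᵀ etᵀ wᵀ piᵀ,
      BX N'ᵀ M'ᵀ b'ᵀ d'ᵀ th'ᵀ a'ᵀ c'ᵀ nu'ᵀ et'ᵀ w'ᵀ pi'ᵀ] := by
  have h1 := hT.transpose.conj _ _ PX_mul_PX PX_mul_PX
  have h2 : (fun i => PX k e u p * ((![JX k e u p, BX N M a c w b d nu pi th et,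
      BX N' M' a' c' w' b' d' nu' pi' th' et'] : Fin 3 → Matrix (Ix e u p) (Ix e u p) k) i)ᵀ *
      PX k e u p) = ![JX k e u p, BX Nᵀ Mᵀ bᵀ dᵀ thᵀ aᵀ cᵀ nuᵀ etᵀ wᵀ piᵀ,
      BX N'ᵀ M'ᵀ b'ᵀ d'ᵀ th'ᵀ a'ᵀ c'ᵀ nu'ᵀ et'ᵀ w'ᵀ pi'ᵀ] := by
    funext i
    fin_cases i
    · simp only [JX]
      refine (PX_BX ..).trans ?_
      simp
    · exact PX_BX ..
    · exact PX_BX ..
  rwa [h2] at h1

end

/-! ### ranks of the Jordan matrix -/

theorem JX_rank_sq : (JX k e u p ^ 2).rank ≤ e := by
  have h : JX k e u p ^ 2 = (Matrix.of fun (i : Ix e u p) (j : Fin e) => match i with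
      | .inl (.inr (.inr i)) => if i = j then (1 : k) else 0
      | _ => 0) * (Matrix.of fun (i : Fin e) (j : Ix e u p) => match j with
      | .inl (.inl j) => if i = j then (1 : k) else 0
      | _ => 0) := by
    rw [pow_two, JX_sq]
    ext i j
    rcases i with (i | i | i) | ((i | i) | i) <;> rcases j with (j | j | j) | ((j | j) | j) <;>
      simp [BX, Matrix.mul_apply, Matrix.one_apply]
  rw [h]
  refine (Matrix.rank_mul_le_left _ _).trans ?_
  refine (Matrix.rank_le_card_width _).trans ?_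
  simp

theorem JX_rank : (JX k e u p).rank ≤ 2 * e + u := by
  have h : JX k e u p = (Matrix.of fun (i : Ix e u p) (j : (Fin e ⊕ Fin e) ⊕ Fin u) =>
      match i, j with
      | .inl (.inr (.inl i)), .inl (.inl j) => if i = j then (1 : k) else 0
      | .inl (.inr (.inr i)), .inl (.inr j) => if i = j then (1 : k) else 0
      | .inr (.inl (.inr i)), .inr j => if i = j then (1 : k) else 0
      | _, _ => 0) * (Matrix.of fun (i : (Fin e ⊕ Fin e) ⊕ Fin u) (j : Ix e u p) =>
      match i, j with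
      | .inl (.inl i), .inl (.inl j) => if i = j then (1 : k) else 0
      | .inl (.inr i), .inl (.inr (.inl j)) => if i = j then (1 : k) else 0
      | .inr i, .inr (.inl (.inl j)) => if i = j then (1 : k) else 0
      | _, _ => 0) := by
    ext i j
    rcases i with (i | i | i) | ((i | i) | i) <;> rcases j with (j | j | j) | ((j | j) | j) <;>
      simp [JX, BX, Matrix.mul_apply, Matrix.one_apply, Fintype.sum_sum_type]
  rw [h]
  refine (Matrix.rank_mul_le_left _ _).trans ?_
  refine (Matrix.rank_le_card_width _).trans ?_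
  simp only [Fintype.card_sum, Fintype.card_fin]
  omega

end Pool.Agent.Lib.D9
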