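import Pool.Agent.Lib.D9.FamsB
import Pool.Agent.Lib.D10.ClBasis

/-!
# MP_5dcbc3_ag: the normal form of type `(3, 3, 2, 1)` is conjugate to `TG3`

`X_0 = B / n01`, `X_1 = A`, `X_2 = C / n10'`, `s = e1`, `t = e2`: `X_0 t = X_1 s`, `X_1 t = X_2 s`;
`s, t, X_0 s, X_1 s, X_2 s, X_2 t` and `A^2 e1, A^2 e2, u_1` are a basis.
-/

namespace Pool.Agent.Lib.D9

open Matrix Pool.Agent.Lib.Q5dc Pool.Agent.Lib.D7

namespace C3321Aux

variable {k : Type*} [Field k] {n : Type*} [Fintype n] [DecidableEq n]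

/-- the four vectors `E_j` of `TG3` -/
def fv (x y z : Matrix n n k) (s t : n → k) : Fin 4 → n → k :=
  ![x *ᵥ s, y *ᵥ s, z *ᵥ s, z *ᵥ t]

/-- the six products -/
def gv (x y z : Matrix n n k) (s t : n → k) : Fin 6 → n → k :=
  ![x *ᵥ (x *ᵥ s), x *ᵥ (y *ᵥ s), x *ᵥ (z *ᵥ s), y *ᵥ (z *ᵥ s), z *ᵥ (z *ᵥ s), z *ᵥ (z *ᵥ t)]

theorem fv_mul {x y z : Matrix n n k} {s t : n → k} (hxy : x * y = y * x) (hxz : x * z = z * x)
    (hyz : y * z = z * y) (h1 : x *ᵥ t = y *ᵥ s) (h2 : y *ᵥ t = z *ᵥ s) (i : Fin 3) (j : Fin 4) :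
    (![x, y, z] : Fin 3 → Matrix n n k) i *ᵥ fv x y z s t j =
      gv x y z s t ⟨(i : ℕ) + j, by omega⟩ := by
  have c1 : ∀ v, y *ᵥ (x *ᵥ v) = x *ᵥ (y *ᵥ v) := by
    intro v
    rw [Matrix.mulVec_mulVec, Matrix.mulVec_mulVec, hxy]
  have c2 : ∀ v, z *ᵥ (x *ᵥ v) = x *ᵥ (z *ᵥ v) := by
    intro v
    rw [Matrix.mulVec_mulVec, Matrix.mulVec_mulVec, hxz]
  have c3 : ∀ v, z *ᵥ (y *ᵥ v) = y *ᵥ (z *ᵥ v) := by
    intro v
    rw [Matrix.mulVec_mulVec, Matrix.mulVec_mulVec, hyz]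
  fin_cases i <;> fin_cases j
  · rfl
  · rfl
  · rfl
  · exact (c2 t).symm.trans ((congrArg _ h1).trans (c3 s))
  · exact c1 s
  · exact (congrArg _ h1.symm).trans ((c1 t).trans (congrArg _ h2))
  · rfl
  · exact (c3 t).symm.trans (congrArg _ h2)
  · exact c2 s
  · exact c3 s
  · rfl
  · rfl

theorem cl_of_TG3 (hcl : ∀ G : Fin 6 × Fin 3 → k, Cl (TG3 G)) (hcard : Fintype.card n = 9)
    {x y z : Matrix n n k} (hxy : x * y = y * x) (hxz : x * z = z * x) (hyz : y * z = z * y)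
    {s t : n → k} (h1 : x *ᵥ t = y *ᵥ s) (h2 : y *ᵥ t = z *ᵥ s) (e : Fin 3 → n → k)
    (hex : ∀ m, x *ᵥ e m = 0) (hey : ∀ m, y *ᵥ e m = 0) (hez : ∀ m, z *ᵥ e m = 0)
    (hR : ∀ j, ∃ r : Fin 3 → k, gv x y z s t j = ∑ m, r m • e m)
    (hinj : ∀ (a : Fin 2 → k) (b : Fin 4 → k) (g : Fin 3 → k),
      a 0 • s + a 1 • t + ∑ j, b j • fv x y z s t j + ∑ m, g m • e m = 0 →
        a = 0 ∧ b = 0 ∧ g = 0) : Cl ![x, y, z] := by
  choose R hR using hR
  set P : Matrix n (Fin 2 ⊕ (Fin 4 ⊕ Fin 3)) k := Matrix.of fun i j => match j with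
    | .inl l => ![s, t] l i
    | .inr (.inl j) => fv x y z s t j i
    | .inr (.inr m) => e m i with hP
  have hPv : ∀ q, P *ᵥ q = q (.inl 0) • s + q (.inl 1) • t +
      ∑ j, q (.inr (.inl j)) • fv x y z s t j + ∑ m, q (.inr (.inr m)) • e m := by
    intro q
    funext i
    simp only [Matrix.mulVec, dotProduct, Fintype.sum_sum_type, Pi.add_apply, Pi.smul_apply,
      Finset.sum_apply, smul_eq_mul, hP, Matrix.of_apply, Fin.sum_univ_two]
    have e1 : ∀ j, fv x y z s t j i * q (.inr (.inl j)) =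
        q (.inr (.inl j)) * fv x y z s t j i := fun j => mul_comm _ _
    have e2 : ∀ m, e m i * q (.inr (.inr m)) = q (.inr (.inr m)) * e m i :=
      fun m => mul_comm _ _
    simp only [e1, e2]
    have e3 : (![s, t] : Fin 2 → n → k) 0 i = s i := rfl
    have e4 : (![s, t] : Fin 2 → n → k) 1 i = t i := rfl
    rw [e3, e4]
    ring
  refine D10.cl_of_basis (S := TG3 fun p => R p.1 p.2) ?_ P ?_ ?_ (hcl _)
  · rw [hcard]
    simp only [Fintype.card_sum, Fintype.card_fin]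
  · intro q hq
    rw [hPv] at hq
    obtain ⟨h1, h2, h3⟩ := hinj (fun l => q (.inl l)) (fun j => q (.inr (.inl j)))
      (fun m => q (.inr (.inr m))) hq
    funext j
    rcases j with j | (j | j)
    · exact congrFun h1 j
    · exact congrFun h2 j
    · exact congrFun h3 j
  · intro i
    ext r c
    rcases c with l | (j | mm)
    · have e1 : ((![x, y, z] : Fin 3 → Matrix n n k) i * P) r (.inl l) =
          ((![x, y, z] : Fin 3 → Matrix n n k) i *ᵥ (![s, t] l)) r := rfl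
      have e2 : (P * TG3 (fun p => R p.1 p.2) i) r (.inl l) =
          fv x y z s t ⟨(l : ℕ) + i, by omega⟩ r := by
        rw [Matrix.mul_apply]
        simp only [Fintype.sum_sum_type, TG3, Matrix.of_apply, mul_zero, Finset.sum_const_zero,
          zero_add, add_zero, hP]
        rw [Finset.sum_eq_single (⟨(l : ℕ) + i, by omega⟩ : Fin 4)]
        · simp
        · intro b _ hb
          rw [if_neg fun h => hb (Fin.ext h), mul_zero]
        · intro h
          exact absurd (Finset.mem_univ _) h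
      rw [e1, e2]
      fin_cases i <;> fin_cases l
      · rfl
      · exact congrFun h1 r
      · rfl
      · exact congrFun h2 r
      · rfl
      · rfl
    · have e1 : ((![x, y, z] : Fin 3 → Matrix n n k) i * P) r (.inr (.inl j)) =
          ((![x, y, z] : Fin 3 → Matrix n n k) i *ᵥ fv x y z s t j) r := rfl
      have e2 : (P * TG3 (fun p => R p.1 p.2) i) r (.inr (.inl j)) =
          (∑ m, R ⟨(i : ℕ) + j, by omega⟩ m • e m) r := by
        rw [Matrix.mul_apply]
        simp only [Fintype.sum_sum_type, TG3, Matrix.of_apply, mul_zero, Finset.sum_const_zero,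
          zero_add, hP, Finset.sum_apply, Pi.smul_apply, smul_eq_mul]
        exact Finset.sum_congr rfl fun _ _ => mul_comm _ _
      rw [e1, e2, fv_mul hxy hxz hyz h1 h2, hR]
    · have e1 : ((![x, y, z] : Fin 3 → Matrix n n k) i * P) r (.inr (.inr mm)) =
          ((![x, y, z] : Fin 3 → Matrix n n k) i *ᵥ e mm) r := rfl
      have e2 : (P * TG3 (fun p => R p.1 p.2) i) r (.inr (.inr mm)) = 0 := by
        rw [Matrix.mul_apply]
        simp only [Fintype.sum_sum_type, TG3, Matrix.of_apply, mul_zero, Finset.sum_const_zero,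
          add_zero]
      rw [e1, e2]
      fin_cases i
      · exact congrFun (hex mm) r
      · exact congrFun (hey mm) r
      · exact congrFun (hez mm) r

/-- the basis of `V3` -/
def ev (k : Type*) [Field k] : Fin 3 → Ix 2 1 1 → k :=
  ![Pi.single (.inl (.inr (.inr 0))) 1, Pi.single (.inl (.inr (.inr 1))) 1,
    Pi.single (.inr (.inl (.inr 0))) 1]

theorem span3 (v : Ix 2 1 1 → k) (h0 : ∀ i, v (.inl (.inl i)) = 0)
    (h1 : ∀ i, v (.inl (.inr (.inl i))) = 0) (h2 : ∀ i, v (.inr (.inl (.inl i))) = 0)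
    (h3 : ∀ i, v (.inr (.inr i)) = 0) : ∃ r : Fin 3 → k, v = ∑ m, r m • ev k m := by
  refine ⟨![v (.inl (.inr (.inr 0))), v (.inl (.inr (.inr 1))), v (.inr (.inl (.inr 0)))], ?_⟩
  funext i
  rcases i with (i | i | i) | ((i | i) | i) <;> fin_cases i <;>
    simp [Fin.sum_univ_three, ev, h0, h1, h2, h3]

/-- matrices `BX` with `b = 0`, `pi = 0` -/
def Gd (M : Matrix (Ix 2 1 1) (Ix 2 1 1) k) : Prop :=
  ∃ N L a c w d nu th et, M = BX N L a c w 0 d nu 0 th et

theorem Gd.smul {M : Matrix (Ix 2 1 1) (Ix 2 1 1) k} (h : Gd M) (s : k) : Gd (s • M) := by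
  obtain ⟨N, L, a, c, w, d, nu, th, et, rfl⟩ := h
  exact ⟨s • N, s • L, s • a, s • c, s • w, s • d, s • nu, s • th, s • et, by
    rw [BX_smul, smul_zero, smul_zero]⟩

theorem Gd.kill {M : Matrix (Ix 2 1 1) (Ix 2 1 1) k} (h : Gd M) (m : Fin 3) :
    M *ᵥ ev k m = 0 := by
  obtain ⟨N, L, a, c, w, d, nu, th, et, rfl⟩ := h
  funext i
  fin_cases m <;> rcases i with (i | i | i) | ((i | i) | i) <;>
    simp [ev, BX]

theorem Gd.prod {M M' : Matrix (Ix 2 1 1) (Ix 2 1 1) k} (h : Gd M) (h' : Gd M')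
    (v : Ix 2 1 1 → k) : ∃ r : Fin 3 → k, M *ᵥ (M' *ᵥ v) = ∑ m, r m • ev k m := by
  obtain ⟨N, L, a, c, w, d, nu, th, et, rfl⟩ := h
  obtain ⟨N', L', a', c', w', d', nu', th', et', rfl⟩ := h'
  rw [Matrix.mulVec_mulVec, BX_mul]
  apply span3 <;> intro i <;>
    simp [Matrix.mulVec, dotProduct, BX, Fintype.sum_sum_type]

end C3321Aux

open C3321Aux in
theorem cl_3321N {k : Type*} [Field k] [CharZero k] (hcl : ∀ G : Fin 6 × Fin 3 → k, Cl (TG3 G))
    {n00 n01 n10 m00 m10 x c0 n01' n10' n11' m01' m11' y c1' : k} (hn : n01 ≠ 0) (hn' : n10' ≠ 0)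
    (hxy : x ≠ y) {d d' th th' : Matrix (Fin 2) (Fin 1) k} {nu nu' et et' : Matrix (Fin 1) (Fin 1) k}
    (h : BX !![n00, n01; n10, 0] !![m00, 0; m10, 0] !![x, 0] !![c0, 0] !![1, 0] 0 d nu 0 th et *
        BX !![0, n01'; n10', n11'] !![0, m01'; 0, m11'] !![0, y] !![0, c1'] !![0, 1] 0 d' nu' 0
          th' et' =
      BX !![0, n01'; n10', n11'] !![0, m01'; 0, m11'] !![0, y] !![0, c1'] !![0, 1] 0 d' nu' 0
          th' et' *
        BX !![n00, n01; n10, 0] !![m00, 0; m10, 0] !![x, 0] !![c0, 0] !![1, 0] 0 d nu 0 th et) :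
    Cl ![JX k 2 1 1,
      BX !![n00, n01; n10, 0] !![m00, 0; m10, 0] !![x, 0] !![c0, 0] !![1, 0] 0 d nu 0 th et,
      BX !![0, n01'; n10', n11'] !![0, m01'; 0, m11'] !![0, y] !![0, c1'] !![0, 1] 0 d' nu' 0
        th' et'] := by
  set B : Matrix (Ix 2 1 1) (Ix 2 1 1) k :=
    BX !![n00, n01; n10, 0] !![m00, 0; m10, 0] !![x, 0] !![c0, 0] !![1, 0] 0 d nu 0 th et with hB
  set C : Matrix (Ix 2 1 1) (Ix 2 1 1) k :=
    BX !![0, n01'; n10', n11'] !![0, m01'; 0, m11'] !![0, y] !![0, c1'] !![0, 1] 0 d' nu' 0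
      th' et' with hC
  have hAB : JX k 2 1 1 * B = B * JX k 2 1 1 := JX_comm ..
  have hAC : JX k 2 1 1 * C = C * JX k 2 1 1 := JX_comm ..
  have gA : Gd (JX k 2 1 1) := ⟨1, 0, 0, 0, 0, 0, 1, 0, 0, rfl⟩
  have gB : Gd B := ⟨_, _, _, _, _, _, _, _, _, rfl⟩
  have gC : Gd C := ⟨_, _, _, _, _, _, _, _, _, rfl⟩
  have key : Cl ![n01⁻¹ • B, JX k 2 1 1, n10'⁻¹ • C] := by
    refine cl_of_TG3 hcl (by simp [Ix]) ?_ ?_ ?_ (s := Pi.single (.inl (.inl 0)) 1)
      (t := Pi.single (.inl (.inl 1)) 1) ?_ ?_ (ev k) (gB.smul _).kill gA.kill (gC.smul _).kill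
      ?_ ?_
    · rw [smul_mul_assoc, mul_smul_comm, hAB]
    · rw [smul_mul_assoc, mul_smul_comm, smul_mul_assoc, mul_smul_comm, h, smul_comm]
    · rw [smul_mul_assoc, mul_smul_comm, hAC]
    · funext i
      rcases i with (i | i | i) | ((i | i) | i) <;> fin_cases i <;>
        simp [hB, BX, JX, hn]
    · funext i
      rcases i with (i | i | i) | ((i | i) | i) <;> fin_cases i <;>
        simp [hC, BX, JX, hn']
    · intro j
      fin_cases j
      · exact (gB.smul _).prod (gB.smul _) _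
      · exact (gB.smul _).prod gA _
      · exact (gB.smul _).prod (gC.smul _) _
      · exact gA.prod (gC.smul _) _
      · exact (gC.smul _).prod (gC.smul _) _
      · exact (gC.smul _).prod (gC.smul _) _
    · intro a b g hz
      have H := fun i => congrFun hz i
      have h00 := H (.inl (.inl 0))
      have h01 := H (.inl (.inl 1))
      have h10 := H (.inl (.inr (.inl 0)))
      have h11 := H (.inl (.inr (.inl 1)))
      have h20 := H (.inl (.inr (.inr 0)))
      have h21 := H (.inl (.inr (.inr 1)))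
      have hu0 := H (.inr (.inl (.inl 0)))
      have hu1 := H (.inr (.inl (.inr 0)))
      have hp := H (.inr (.inr 0))
      clear H hz
      simp [Fin.sum_univ_three, Fin.sum_univ_four, fv, ev, hB, hC, BX, JX] at h00 h01 h10 h11 h20 h21 hu0 hu1 hp
      have hb0 : b 0 = 0 := by
        have e1 : (x - y) * (b 0 * n01⁻¹) = 0 := by linear_combination hu0 - y * hp
        rcases mul_eq_zero.1 e1 with e2 | e2
        · exact absurd (sub_eq_zero.1 e2) hxy
        · rcases mul_eq_zero.1 e2 with e3 | e3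
          · exact e3
          · exact absurd e3 (inv_ne_zero hn)
      have hb3 : b 3 = 0 := by
        rw [hb0, zero_mul, zero_add] at hp
        rcases mul_eq_zero.1 hp with e3 | e3
        · exact e3
        · exact absurd e3 (inv_ne_zero hn')
      simp [hb0, hb3] at h10 h11 h20 h21 hu1
      refine ⟨?_, ?_, ?_⟩
      · funext i
        fin_cases i
        · exact h00
        · exact h01
      · funext i
        fin_cases i
        · exact hb0
        · exact h10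
        · exact h11.resolve_right hn'
        · exact hb3
      · funext i
        fin_cases i
        · exact h20
        · exact h21
        · exact hu1
  refine cl_of_adj (fun i => ?_) key
  fin_cases i
  · exact D8.mem1 _ _ _
  · have e1 := (adj ![n01⁻¹ • B, JX k 2 1 1, n10'⁻¹ • C]).smul_mem n01
      (D8.mem0 (n01⁻¹ • B) (JX k 2 1 1) (n10'⁻¹ • C))
    have e2 : n01 • (n01⁻¹ • B) = B := by rw [smul_smul, mul_inv_cancel₀ hn, one_smul]
    rw [e2] at e1
    exact e1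
  · have e1 := (adj ![n01⁻¹ • B, JX k 2 1 1, n10'⁻¹ • C]).smul_mem n10'
      (D8.mem2 (n01⁻¹ • B) (JX k 2 1 1) (n10'⁻¹ • C))
    have e2 : n10' • (n10'⁻¹ • C) = C := by rw [smul_smul, mul_inv_cancel₀ hn', one_smul]
    rw [e2] at e1
    exact e1

end Pool.Agent.Lib.D9
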