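import Pool.Agent.Lib.D8.Degen
import Pool.Agent.Lib.D9.FamsB
import Pool.Agent.Lib.TSQ.Toep

/-!
# MP_5dcbc3_ag: a family of triples `TG3 G` which are limits of curvilinear triples

In `k[t] / t^9` put `u = t^2 + u4 t^4 + u6 t^6 + u8 t^8`, `f = t + f2 t^2 + f4 t^4 + f6 t^6`, and let `X_0 = f`, `X_1 = u f`,
`X_2 = u^2 f + u`. The basis `1, u; e_0 = f, e_1 = u f, e_2 = u^2 f, e_3 = u^3 f + u^2; t^4, t^6, t^8` with the levels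
`0, 0, 1, 1, 1, 1, 2, 2, 2` shows that the graded part of the three multiplications is `TG3 (gB u4 u6 u8 f2 f4 f6)`.
-/

namespace Pool.Agent.Lib.D9

open Matrix Pool.Agent.Lib.Q5dc Pool.Agent.Lib.D7 Pool.Agent.Lib.TSQ

variable {k : Type*} [Field k]

namespace ClTG3Aux

/-- coefficients of the base family -/
def gB {R : Type*} [CommRing R] (u4 u6 u8 f2 f4 f6 : R) (x : Fin 6 × Fin 3) : R :=
  ![![-u4 - 2 * f6 + 4 * u4 * f4 + 2 * u6 * f2 - f2 ^ 2 - 4 * u4 ^ 2 * f2, -u6 - 4 * u4 * f6 - 2 * f2 * f4 + 8 * u4 ^ 2 * f4 + 4 * u4 * u6 * f2 - 8 * u4 ^ 3 * f2, -u8 - 4 * u6 * f6 - 2 * f2 * f6 - f4 ^ 2 - 2 * u4 ^ 2 * f6 + 8 * u4 * u6 * f4 + 4 * u6 ^ 2 * f2 + 4 * u4 ^ 3 * f4 - 6 * u4 ^ 2 * u6 * f2 - 4 * u4 ^ 4 * f2],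
    ![1 - 2 * f4 + 2 * u4 * f2, u4 - 4 * u4 * f4 - f2 ^ 2 + 4 * u4 ^ 2 * f2, u6 - 4 * u6 * f4 - 2 * f2 * f4 - 2 * u4 ^ 2 * f4 + 4 * u4 * u6 * f2 - u4 * f2 ^ 2 + 2 * u4 ^ 3 * f2],
    ![-2 * f2, 1 - 4 * u4 * f2, 2 * u4 - 4 * u6 * f2 - f2 ^ 2 - 2 * u4 ^ 2 * f2],
    ![0, 0, 1],
    ![-1, -2 * u4, -2 * u6 - u4 ^ 2],
    ![0, 1, 3 * u4]] x.1 x.2

/-- the basis (columns) in terms of the powers of `t` -/
def PP (u4 u6 u8 f2 f4 f6 : k) : Matrix (Fin 9) (Fin 9) k :=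
  !![1, 0, 0, 0, 0, 0, 0, 0, 0;
     0, 0, 1, 0, 0, 0, 0, 0, 0;
     0, 1, f2, 0, 0, 0, 0, 0, 0;
     0, 0, 0, 1, 0, 0, 0, 0, 0;
     0, u4, f4, f2, 0, 1, 1, 0, 0;
     0, 0, 0, u4, 1, 0, 0, 0, 0;
     0, u6, f6, f4 + u4 * f2, f2, 2 * u4, 0, 1, 0;
     0, 0, 0, u6, 2 * u4, 1, 0, 0, 0;
     0, u8, 0, f6 + u4 * f4 + u6 * f2, f4 + 2 * u4 * f2, 2 * u6 + f2 + u4 ^ 2, 0, 0, 1]

/-- the three functionals vanishing on the elements of level `0` and `1` -/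
def PH (u4 u6 u8 f2 f4 f6 : k) : Matrix (Fin 3) (Fin 9) k :=
  !![0, -f4 + u4 * f2, -u4, u6 - f2 - 2 * u4 ^ 2, 1, 2 * u4, 0, -1, 0;
     0, -f6 + u6 * f2, -u6, -f4 + 2 * u4 * u6 - 4 * u4 ^ 3, 0, -f2 + 4 * u4 ^ 2, 1, -2 * u4, 0;
     0, u8 * f2, -u8, -f6 + 2 * u6 ^ 2 - 3 * u4 ^ 2 * u6 - 2 * u4 ^ 4, 0, -f4 + 4 * u4 * u6 + 2 * u4 ^ 3, 0, -2 * u6 - f2 - u4 ^ 2, 1]

/-- the elements `X_0, X_1, X_2` -/
def XV (u4 u6 u8 f2 f4 f6 : k) (c : Fin 3) : Fin 9 → k :=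
  ![![1, f2, 0, f4, 0, f6, 0, 0, 0],
    ![0, 0, 1, f2, u4, f4 + u4 * f2, u6, f6 + u4 * f4 + u6 * f2, 0],
    ![0, 1, 0, u4, 1, u6 + f2, 2 * u4, u8 + f4 + 2 * u4 * f2, 0]] c

/-- products of the basis with `X_0` -/
def Q0 (u4 u6 u8 f2 f4 f6 : k) : Matrix (Fin 9) (Fin 9) k :=
  !![0, 0, 0, 0, 0, 0, 0, 0, 0;
     1, 0, 0, 0, 0, 0, 0, 0, 0;
     f2, 0, 1, 0, 0, 0, 0, 0, 0;
     0, 1, 2 * f2, 0, 0, 0, 0, 0, 0;
     f4, f2, f2 ^ 2, 1, 0, 0, 0, 0, 0;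
     0, u4, 2 * f4, 2 * f2, 0, 1, 1, 0, 0;
     f6, f4 + u4 * f2, 2 * f2 * f4, u4 + f2 ^ 2, 1, f2, f2, 0, 0;
     0, u6, 2 * f6, 2 * f4 + 2 * u4 * f2, 2 * f2, 2 * u4, 0, 1, 0;
     0, f6 + u4 * f4 + u6 * f2, 2 * f2 * f6 + f4 ^ 2, u6 + 2 * f2 * f4 + u4 * f2 ^ 2, 2 * u4 + f2 ^ 2, 1 + f4 + 2 * u4 * f2, f4, f2, 0]

/-- products of the basis with `X_1` -/
def Q1 (u4 u6 u8 f2 f4 f6 : k) : Matrix (Fin 9) (Fin 9) k :=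
  !![0, 0, 0, 0, 0, 0, 0, 0, 0;
     0, 0, 0, 0, 0, 0, 0, 0, 0;
     0, 0, 0, 0, 0, 0, 0, 0, 0;
     1, 0, 0, 0, 0, 0, 0, 0, 0;
     f2, 0, 1, 0, 0, 0, 0, 0, 0;
     u4, 1, 2 * f2, 0, 0, 0, 0, 0, 0;
     f4 + u4 * f2, f2, u4 + f2 ^ 2, 1, 0, 0, 0, 0, 0;
     u6, 2 * u4, 2 * f4 + 2 * u4 * f2, 2 * f2, 0, 1, 1, 0, 0;
     f6 + u4 * f4 + u6 * f2, f4 + 2 * u4 * f2, u6 + 2 * f2 * f4 + u4 * f2 ^ 2, 2 * u4 + f2 ^ 2, 1, f2, f2, 0, 0]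

/-- products of the basis with `X_2` -/
def Q2 (u4 u6 u8 f2 f4 f6 : k) : Matrix (Fin 9) (Fin 9) k :=
  !![0, 0, 0, 0, 0, 0, 0, 0, 0;
     0, 0, 0, 0, 0, 0, 0, 0, 0;
     1, 0, 0, 0, 0, 0, 0, 0, 0;
     0, 0, 1, 0, 0, 0, 0, 0, 0;
     u4, 1, f2, 0, 0, 0, 0, 0, 0;
     1, 0, u4, 1, 0, 0, 0, 0, 0;
     u6 + f2, 2 * u4, 1 + f4 + u4 * f2, f2, 0, 1, 1, 0, 0;
     2 * u4, 1, u6 + 2 * f2, 2 * u4, 1, 0, 0, 0, 0;
     u8 + f4 + 2 * u4 * f2, 2 * u6 + f2 + u4 ^ 2, 2 * u4 + f6 + u4 * f4 + u6 * f2 + f2 ^ 2, 1 + f4 + 2 * u4 * f2, f2, 3 * u4, u4, 1, 0]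

/-- selects the last three rows -/
def EE : Matrix (Fin 3) (Fin 9) k := Matrix.of fun a b => if b = ![6, 7, 8] a then 1 else 0

/-- selects the first two columns -/
def SS : Matrix (Fin 9) (Fin 2) k := Matrix.of fun a b => if a = ![0, 1] b then 1 else 0

theorem EE_mul {n : Type*} [Fintype n] (M : Matrix (Fin 9) n k) (a : Fin 3) (b : n) :
    ((EE : Matrix (Fin 3) (Fin 9) k) * M) a b = M (![6, 7, 8] a) b := by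
  simp [EE, Matrix.mul_apply]

theorem mul_SS {n : Type*} [Fintype n] (M : Matrix n (Fin 9) k) (a : n) (b : Fin 2) :
    (M * (SS : Matrix (Fin 9) (Fin 2) k)) a b = M a (![0, 1] b) := by
  simp [SS, Matrix.mul_apply]

/-- coordinates of the products of the first two basis elements with `X_0, X_1, X_2` -/
def YY : Fin 3 → Matrix (Fin 9) (Fin 2) k :=
  ![!![0, 0; 0, 0; 1, 0; 0, 1; 0, 0; 0, 0; 0, 0; 0, 0; 0, 0],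
    !![0, 0; 0, 0; 0, 0; 1, 0; 0, 1; 0, 0; 0, 0; 0, 0; 0, 0],
    !![0, 0; 1, 0; 0, 0; 0, 0; 1, 0; 0, 1; 0, 0; 0, 0; 0, 0]]

theorem toep9 (v : Fin 9 → k) : toep v =
    !![0, 0, 0, 0, 0, 0, 0, 0, 0;
       v 0, 0, 0, 0, 0, 0, 0, 0, 0;
       v 1, v 0, 0, 0, 0, 0, 0, 0, 0;
       v 2, v 1, v 0, 0, 0, 0, 0, 0, 0;
       v 3, v 2, v 1, v 0, 0, 0, 0, 0, 0;
       v 4, v 3, v 2, v 1, v 0, 0, 0, 0, 0;
       v 5, v 4, v 3, v 2, v 1, v 0, 0, 0, 0;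
       v 6, v 5, v 4, v 3, v 2, v 1, v 0, 0, 0;
       v 7, v 6, v 5, v 4, v 3, v 2, v 1, v 0, 0] := by
  ext i j
  rw [ToepAux.toep_apply]
  fin_cases i <;> fin_cases j <;> simp [Fin.sum_univ_succ]

section

variable (u4 u6 u8 f2 f4 f6 : k)

theorem hQ0 : toep (XV u4 u6 u8 f2 f4 f6 0) * PP u4 u6 u8 f2 f4 f6 = Q0 u4 u6 u8 f2 f4 f6 := by
  rw [toep9]
  ext i j
  fin_cases i <;> fin_cases j <;>
    simp [XV, PP, Q0, Matrix.mul_apply, Fin.sum_univ_succ] <;> ring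

theorem hQ1 : toep (XV u4 u6 u8 f2 f4 f6 1) * PP u4 u6 u8 f2 f4 f6 = Q1 u4 u6 u8 f2 f4 f6 := by
  rw [toep9]
  ext i j
  fin_cases i <;> fin_cases j <;>
    simp [XV, PP, Q1, Matrix.mul_apply, Fin.sum_univ_succ] <;> ring

theorem hQ2 : toep (XV u4 u6 u8 f2 f4 f6 2) * PP u4 u6 u8 f2 f4 f6 = Q2 u4 u6 u8 f2 f4 f6 := by
  rw [toep9]
  ext i j
  fin_cases i <;> fin_cases j <;>
    simp [XV, PP, Q2, Matrix.mul_apply, Fin.sum_univ_succ] <;> ring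

theorem hPP : PH u4 u6 u8 f2 f4 f6 * PP u4 u6 u8 f2 f4 f6 = (EE : Matrix (Fin 3) (Fin 9) k) := by
  ext i j
  fin_cases i <;> fin_cases j <;>
    simp [PH, PP, EE, Matrix.mul_apply, Fin.sum_univ_succ] <;> ring

theorem hF0 : PH u4 u6 u8 f2 f4 f6 * Q0 u4 u6 u8 f2 f4 f6 =
    !![0, 0, -u4 - 2 * f6 + 4 * u4 * f4 + 2 * u6 * f2 - f2 ^ 2 - 4 * u4 ^ 2 * f2, 1 - 2 * f4 + 2 * u4 * f2, -2 * f2, 0, 2 * u4, -1, 0;
     0, 0, -u6 - 4 * u4 * f6 - 2 * f2 * f4 + 8 * u4 ^ 2 * f4 + 4 * u4 * u6 * f2 - 8 * u4 ^ 3 * f2, u4 - 4 * u4 * f4 - f2 ^ 2 + 4 * u4 ^ 2 * f2, 1 - 4 * u4 * f2, 0, 4 * u4 ^ 2, -2 * u4, 0;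
     0, 0, -u8 - 4 * u6 * f6 - 2 * f2 * f6 - f4 ^ 2 - 2 * u4 ^ 2 * f6 + 8 * u4 * u6 * f4 + 4 * u6 ^ 2 * f2 + 4 * u4 ^ 3 * f4 - 6 * u4 ^ 2 * u6 * f2 - 4 * u4 ^ 4 * f2, u6 - 4 * u6 * f4 - 2 * f2 * f4 - 2 * u4 ^ 2 * f4 + 4 * u4 * u6 * f2 - u4 * f2 ^ 2 + 2 * u4 ^ 3 * f2, 2 * u4 - 4 * u6 * f2 - f2 ^ 2 - 2 * u4 ^ 2 * f2, 1, 4 * u4 * u6 + 2 * u4 ^ 3, -2 * u6 - u4 ^ 2, 0] := by
  ext i j
  fin_cases i <;> fin_cases j <;>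
    simp [PH, Q0, Matrix.mul_apply, Fin.sum_univ_succ] <;> ring

theorem hF1 : PH u4 u6 u8 f2 f4 f6 * Q1 u4 u6 u8 f2 f4 f6 =
    !![0, 0, 1 - 2 * f4 + 2 * u4 * f2, -2 * f2, 0, -1, -1, 0, 0;
     0, 0, u4 - 4 * u4 * f4 - f2 ^ 2 + 4 * u4 ^ 2 * f2, 1 - 4 * u4 * f2, 0, -2 * u4, -2 * u4, 0, 0;
     0, 0, u6 - 4 * u6 * f4 - 2 * f2 * f4 - 2 * u4 ^ 2 * f4 + 4 * u4 * u6 * f2 - u4 * f2 ^ 2 + 2 * u4 ^ 3 * f2, 2 * u4 - 4 * u6 * f2 - f2 ^ 2 - 2 * u4 ^ 2 * f2, 1, -2 * u6 - u4 ^ 2, -2 * u6 - u4 ^ 2, 0, 0] := by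
  ext i j
  fin_cases i <;> fin_cases j <;>
    simp [PH, Q1, Matrix.mul_apply, Fin.sum_univ_succ] <;> ring

theorem hF2 : PH u4 u6 u8 f2 f4 f6 * Q2 u4 u6 u8 f2 f4 f6 =
    !![0, 0, -2 * f2, 0, -1, 0, 0, 0, 0;
     0, 0, 1 - 4 * u4 * f2, 0, -2 * u4, 1, 1, 0, 0;
     0, 0, 2 * u4 - 4 * u6 * f2 - f2 ^ 2 - 2 * u4 ^ 2 * f2, 1, -2 * u6 - u4 ^ 2, 3 * u4, u4, 1, 0] := by
  ext i j
  fin_cases i <;> fin_cases j <;>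
    simp [PH, Q2, Matrix.mul_apply, Fin.sum_univ_succ] <;> ring

theorem hY0 : Q0 u4 u6 u8 f2 f4 f6 * (SS : Matrix (Fin 9) (Fin 2) k) = PP u4 u6 u8 f2 f4 f6 * (YY 0 : Matrix (Fin 9) (Fin 2) k) := by
  ext i j
  rw [mul_SS]
  fin_cases i <;> fin_cases j <;>
    simp [Q0, PP, YY, Matrix.mul_apply, Fin.sum_univ_succ] <;> ring

theorem hY1 : Q1 u4 u6 u8 f2 f4 f6 * (SS : Matrix (Fin 9) (Fin 2) k) = PP u4 u6 u8 f2 f4 f6 * (YY 1 : Matrix (Fin 9) (Fin 2) k) := by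
  ext i j
  rw [mul_SS]
  fin_cases i <;> fin_cases j <;>
    simp [Q1, PP, YY, Matrix.mul_apply, Fin.sum_univ_succ] <;> ring

theorem hY2 : Q2 u4 u6 u8 f2 f4 f6 * (SS : Matrix (Fin 9) (Fin 2) k) = PP u4 u6 u8 f2 f4 f6 * (YY 2 : Matrix (Fin 9) (Fin 2) k) := by
  ext i j
  rw [mul_SS]
  fin_cases i <;> fin_cases j <;>
    simp [Q2, PP, YY, Matrix.mul_apply, Fin.sum_univ_succ] <;> ring

theorem inj {v : Fin 9 → k} (hv : PP u4 u6 u8 f2 f4 f6 *ᵥ v = 0) : v = 0 := by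
  obtain ⟨a0, a1, a2, a3, a4, a5, a6, a7, a8, rfl⟩ : ∃ a0 a1 a2 a3 a4 a5 a6 a7 a8 : k,
      v = ![a0, a1, a2, a3, a4, a5, a6, a7, a8] := by
    refine ⟨v 0, v 1, v 2, v 3, v 4, v 5, v 6, v 7, v 8, ?_⟩
    funext i
    fin_cases i <;> rfl
  have r0 := congrFun hv 0
  have r1 := congrFun hv 1
  have r2 := congrFun hv 2
  have r3 := congrFun hv 3
  have r4 := congrFun hv 4
  have r5 := congrFun hv 5
  have r6 := congrFun hv 6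
  have r7 := congrFun hv 7
  have r8 := congrFun hv 8
  simp [PP, Matrix.mulVec, dotProduct, Fin.sum_univ_succ] at r0 r1 r2 r3 r4 r5 r6 r7 r8
  have h2 : a2 = 0 := r1
  subst h2
  have h1 : a1 = 0 := by linear_combination r2
  subst h1
  have h3 : a3 = 0 := r3
  subst h3
  have h4 : a4 = 0 := by linear_combination r5
  subst h4
  have h5 : a5 = 0 := by linear_combination r7
  subst h5
  have h6 : a6 = 0 := by linear_combination r4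
  subst h6
  have h7 : a7 = 0 := by linear_combination r6
  subst h7
  have h8 : a8 = 0 := by linear_combination r8
  subst h8
  rw [r0]
  funext i
  fin_cases i <;> rfl

theorem det_ne : (PP u4 u6 u8 f2 f4 f6).det ≠ 0 := by
  intro h
  obtain ⟨v, hv0, hv⟩ := Matrix.exists_mulVec_eq_zero_iff.2 h
  exact hv0 (inj _ _ _ _ _ _ hv)

/-- the matrices of the three multiplications in the basis -/
noncomputable def LL (c : Fin 3) : Matrix (Fin 9) (Fin 9) k :=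
  (PP u4 u6 u8 f2 f4 f6)⁻¹ * toep (XV u4 u6 u8 f2 f4 f6 c) * PP u4 u6 u8 f2 f4 f6

/-- the products -/
def QA : Fin 3 → Matrix (Fin 9) (Fin 9) k := ![Q0 u4 u6 u8 f2 f4 f6, Q1 u4 u6 u8 f2 f4 f6, Q2 u4 u6 u8 f2 f4 f6]

theorem hQ (c : Fin 3) : toep (XV u4 u6 u8 f2 f4 f6 c) * PP u4 u6 u8 f2 f4 f6 = QA u4 u6 u8 f2 f4 f6 c := by
  fin_cases c
  · exact hQ0 u4 u6 u8 f2 f4 f6
  · exact hQ1 u4 u6 u8 f2 f4 f6
  · exact hQ2 u4 u6 u8 f2 f4 f6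

theorem hY (c : Fin 3) : QA u4 u6 u8 f2 f4 f6 c * (SS : Matrix (Fin 9) (Fin 2) k) =
    PP u4 u6 u8 f2 f4 f6 * (YY c : Matrix (Fin 9) (Fin 2) k) := by
  fin_cases c
  · exact hY0 u4 u6 u8 f2 f4 f6
  · exact hY1 u4 u6 u8 f2 f4 f6
  · exact hY2 u4 u6 u8 f2 f4 f6

theorem Lrow (c a : Fin 3) (b : Fin 9) :
    LL u4 u6 u8 f2 f4 f6 c (![6, 7, 8] a) b = (PH u4 u6 u8 f2 f4 f6 * QA u4 u6 u8 f2 f4 f6 c) a b := by
  have hd := isUnit_iff_ne_zero.2 (det_ne u4 u6 u8 f2 f4 f6)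
  have h1 : PH u4 u6 u8 f2 f4 f6 = (EE : Matrix (Fin 3) (Fin 9) k) * (PP u4 u6 u8 f2 f4 f6)⁻¹ := by
    rw [← hPP u4 u6 u8 f2 f4 f6, Matrix.mul_assoc, Matrix.mul_nonsing_inv _ hd, Matrix.mul_one]
  rw [← EE_mul (LL u4 u6 u8 f2 f4 f6 c) a b, h1, ← hQ, LL, Matrix.mul_assoc,
    Matrix.mul_assoc]

theorem Lcol (c : Fin 3) (a : Fin 9) (b : Fin 2) :
    LL u4 u6 u8 f2 f4 f6 c a (![0, 1] b) = YY c a b := by
  have hd := isUnit_iff_ne_zero.2 (det_ne u4 u6 u8 f2 f4 f6)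
  rw [← mul_SS (LL u4 u6 u8 f2 f4 f6 c) a b, LL, Matrix.mul_assoc (PP u4 u6 u8 f2 f4 f6)⁻¹, hQ, Matrix.mul_assoc, hY, ← Matrix.mul_assoc,
    Matrix.nonsing_inv_mul _ hd, Matrix.one_mul]

end

/-- the levels -/
def wt : Fin 9 → ℕ := ![0, 0, 1, 1, 1, 1, 2, 2, 2]

theorem wt_lt : ∀ a b : Fin 9, ¬ (wt a ≤ 1 + wt b) →
    ∃ (a' : Fin 3) (b' : Fin 2), a = ![6, 7, 8] a' ∧ b = ![0, 1] b' := by decide

theorem Jp_pow (m : ℕ) : Jp k 9 1 ^ m = Jp k 9 m := by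
  induction m with
  | zero => rw [pow_zero, Jp_zero]
  | succ m ih => rw [pow_succ, ih, Jp_mul]

theorem toep_aeval (v : Fin 9 → k) : ∃ p : Polynomial k, p.coeff 0 = 0 ∧
    toep v = Polynomial.aeval (Jp k 9 1) p := by
  refine ⟨∑ m : Fin 9, Polynomial.C (v m) * Polynomial.X ^ ((m : ℕ) + 1), ?_, ?_⟩
  · rw [Polynomial.finsetSum_coeff]
    refine Finset.sum_eq_zero fun m _ => ?_
    rw [Polynomial.coeff_C_mul, Polynomial.coeff_X_pow, if_neg (by omega), mul_zero]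
  · rw [map_sum, toep]
    refine Finset.sum_congr rfl fun m _ => ?_
    rw [map_mul, Polynomial.aeval_C, map_pow, Polynomial.aeval_X, Jp_pow, Algebra.smul_def]

variable (u4 u6 u8 f2 f4 f6 : k)

theorem cl_graded [Infinite k] : Cl fun i : Fin 3 => (Matrix.of fun a b : Fin 9 =>
    if wt a = 1 + wt b then LL u4 u6 u8 f2 f4 f6 i a b else 0 : Matrix (Fin 9) (Fin 9) k) := by
  have hd := isUnit_iff_ne_zero.2 (det_ne u4 u6 u8 f2 f4 f6)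
  obtain ⟨P, hP⟩ : ∃ P, P = PP u4 u6 u8 f2 f4 f6 := ⟨_, rfl⟩
  have h1 : P⁻¹ * P = 1 := by rw [hP]; exact Matrix.nonsing_inv_mul _ hd
  have h2 : P * P⁻¹ = 1 := by rw [hP]; exact Matrix.mul_nonsing_inv _ hd
  have h3 := D8.cl_initial (κ := Fin 3) (P⁻¹ * Jp k 9 1 * P) ?_ ?_
    (LL u4 u6 u8 f2 f4 f6) ?_ (fun _ => 1) wt ?_ (fun i c => if i = c then 1 else 0)
  · have h4 : (fun i : Fin 3 => ∑ c : Fin 3, (if i = c then (1 : k) else 0) •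
        (Matrix.of fun a b : Fin 9 => if wt a = 1 + wt b then LL u4 u6 u8 f2 f4 f6 c a b else 0 :
          Matrix (Fin 9) (Fin 9) k)) = fun i : Fin 3 => (Matrix.of fun a b : Fin 9 =>
        if wt a = 1 + wt b then LL u4 u6 u8 f2 f4 f6 i a b else 0 : Matrix (Fin 9) (Fin 9) k) := by
      funext i
      simp only [ite_smul, one_smul, zero_smul, Finset.sum_ite_eq, Finset.mem_univ, if_true]
    rw [← h4]
    exact h3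
  · rw [Fintype.card_fin, conj_pow' _ _ h1 h2, Jp_pow, Jp_eq_zero 9 le_rfl, mul_zero, zero_mul]
  · rw [Fintype.card_fin, conj_pow' _ _ h1 h2, Jp_pow]
    intro h
    have h4 : P * (P⁻¹ * Jp k 9 (9 - 1) * P) * P⁻¹ = Jp k 9 (9 - 1) := by
      calc P * (P⁻¹ * Jp k 9 (9 - 1) * P) * P⁻¹ = (P * P⁻¹) * Jp k 9 (9 - 1) * (P * P⁻¹) := by
            simp only [Matrix.mul_assoc]
        _ = _ := by rw [h2, one_mul, mul_one]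
    rw [h, mul_zero, zero_mul] at h4
    have h5 := congrFun (congrFun h4 8) 0
    simp [Jp] at h5
  · intro c
    obtain ⟨p, hp, hp'⟩ := toep_aeval (XV u4 u6 u8 f2 f4 f6 c)
    refine ⟨p, hp, ?_⟩
    rw [LL, ← hP, hp']
    exact (Polynomial.aeval_algHom_apply (conjHom P⁻¹ P h1 h2) (Jp k 9 1) p).symm
  · intro c a b h
    by_contra hlt
    have key : ∀ (a : Fin 3) (b : Fin 2), LL u4 u6 u8 f2 f4 f6 c (![6, 7, 8] a) (![0, 1] b) = 0 := by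
      intro a b
      rw [Lcol]
      fin_cases c <;> fin_cases a <;> fin_cases b <;> rfl
    obtain ⟨a', b', ha, hb⟩ := wt_lt a b hlt
    rw [ha, hb] at h
    exact h (key a' b')

/-- numbering of the blocks -/
def e9 : Fin 2 ⊕ (Fin 4 ⊕ Fin 3) ≃ Fin 9 :=
  (Equiv.sumCongr (Equiv.refl _) finSumFinEquiv).trans finSumFinEquiv

theorem hA (i : Fin 3) (x : Fin 4) (y : Fin 2) :
    LL u4 u6 u8 f2 f4 f6 i (e9 (.inr (.inl x))) (e9 (.inl y)) = if (x : ℕ) = (y : ℕ) + i then 1 else 0 := by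
  have h : e9 (.inl y) = ![0, 1] y := by fin_cases y <;> rfl
  rw [h, Lcol]
  fin_cases i <;> fin_cases x <;> fin_cases y <;> rfl

theorem hB (i : Fin 3) (x : Fin 3) (y : Fin 4) :
    LL u4 u6 u8 f2 f4 f6 i (e9 (.inr (.inr x))) (e9 (.inr (.inl y))) =
      gB u4 u6 u8 f2 f4 f6 (⟨(i : ℕ) + y, by omega⟩, x) := by
  have h : e9 (.inr (.inr x)) = ![6, 7, 8] x := by fin_cases x <;> rfl
  rw [h, Lrow]
  fin_cases i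
  · show (PH u4 u6 u8 f2 f4 f6 * Q0 u4 u6 u8 f2 f4 f6) x _ = _
    rw [hF0]
    fin_cases x <;> fin_cases y <;> rfl
  · show (PH u4 u6 u8 f2 f4 f6 * Q1 u4 u6 u8 f2 f4 f6) x _ = _
    rw [hF1]
    fin_cases x <;> fin_cases y <;> rfl
  · show (PH u4 u6 u8 f2 f4 f6 * Q2 u4 u6 u8 f2 f4 f6) x _ = _
    rw [hF2]
    fin_cases x <;> fin_cases y <;> rfl

theorem cl_base [Infinite k] : Cl (TG3 (gB u4 u6 u8 f2 f4 f6)) := by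
  have h1 := Cl.mapEquiv (Matrix.reindexAlgEquiv k k e9).symm (by simp) (cl_graded u4 u6 u8 f2 f4 f6)
  have h2 : (fun i : Fin 3 => (Matrix.reindexAlgEquiv k k e9).symm (Matrix.of fun a b : Fin 9 =>
      if wt a = 1 + wt b then LL u4 u6 u8 f2 f4 f6 i a b else 0 : Matrix (Fin 9) (Fin 9) k)) =
      TG3 (gB u4 u6 u8 f2 f4 f6) := by
    funext i
    ext x y
    have w0 : ∀ x : Fin 2, wt (e9 (.inl x)) = 0 := fun x => by fin_cases x <;> rfl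
    have w1 : ∀ x : Fin 4, wt (e9 (.inr (.inl x))) = 1 := fun x => by fin_cases x <;> rfl
    have w2 : ∀ x : Fin 3, wt (e9 (.inr (.inr x))) = 2 := fun x => by fin_cases x <;> rfl
    show (if wt (e9 x) = 1 + wt (e9 y) then LL u4 u6 u8 f2 f4 f6 i (e9 x) (e9 y) else 0) =
      TG3 (gB u4 u6 u8 f2 f4 f6) i x y
    rcases x with x | x | x <;> rcases y with y | y | y
    · rw [w0, w0]; rfl
    · rw [w0, w1]; rfl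
    · rw [w0, w2]; rfl
    · rw [w1, w0, if_pos rfl]
      exact hA u4 u6 u8 f2 f4 f6 i x y
    · rw [w1, w1]; rfl
    · rw [w1, w2]; rfl
    · rw [w2, w0]; rfl
    · rw [w2, w1, if_pos rfl]
      exact hB u4 u6 u8 f2 f4 f6 i x y
    · rw [w2, w2]; rfl
  rwa [h2] at h1

end ClTG3Aux

end Pool.Agent.Lib.D9
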