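import Pool.Agent.Lib.D7.Api
import Pool.Agent.Lib.D9.FamsB
import Pool.Agent.Lib.Q5dc.Sum2
import Pool.Agent.Lib.TSQ.Bridge

/-!
# MP_5dcbc3_ag: the base family for the density of the triples `TG3 G`

`X_0 = t^2 f`, `X_1 = t^3 f`, `X_2 = t^4 f + t` in `k[t]/(t^9)` with `f * g = 1`, in the basis
`g, t g, t^2, t^3, t^4, t^2 g + t^5, t^6, t^7, t^8`, and the degeneration along the grading.
-/

namespace Pool.Agent.Lib.D9

open Matrix Pool.Agent.Lib.Q5dc Pool.Agent.Lib.D7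

variable {k : Type*} [Field k]

namespace ClTG3Aux

/-- the part of degree one of a triple of matrices which raise the degree by at most one -/
theorem cl_grade {n : Type*} [Fintype n] [DecidableEq n] [Infinite k] (deg : n → ℕ)
    {T : Fin 3 → Matrix n n k} (hT : Cl T) (h : ∀ i a b, deg b + 1 < deg a → T i a b = 0) :
    Cl fun i => Matrix.of fun a b => if deg a = deg b + 1 then T i a b else 0 := by
  obtain ⟨c, hc⟩ : ∃ c : k → Fin 3 → Matrix n n k, c = fun s i => Matrix.of fun a b =>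
      s ^ (deg b + 1 - deg a) * T i a b := ⟨_, rfl⟩
  have hp : PolyFam c := by
    intro i a b
    rw [hc]
    exact (D7.IsPoly.id.pow (deg b + 1 - deg a)).mul (D7.IsPoly.const (T i a b))
  have h0 : c 0 = fun i => Matrix.of fun a b => if deg a = deg b + 1 then T i a b else 0 := by
    rw [hc]
    funext i
    ext a b
    simp only [Matrix.of_apply]
    by_cases h1 : deg a = deg b + 1
    · rw [if_pos h1, h1, Nat.sub_self, pow_zero, one_mul]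
    · rw [if_neg h1]
      rcases lt_or_gt_of_ne h1 with h2 | h2
      · rw [zero_pow (by omega), zero_mul]
      · rw [h i a b h2, mul_zero]
  have hs : ∀ s : k, s ≠ 0 → Cl (c s) := by
    intro s hs
    have h1 : Cl fun i => s • T i := cl_of_adj (fun i => SMulMemClass.smul_mem _ (mem_adj _ i)) hT
    have e1 : (Matrix.diagonal fun a => (s ^ deg a)⁻¹) * (Matrix.diagonal fun a : n => s ^ deg a) = 1 := by
      rw [Matrix.diagonal_mul_diagonal, ← Matrix.diagonal_one]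
      congr 1
      funext a
      exact inv_mul_cancel₀ (pow_ne_zero _ hs)
    have h2 := Cl.conj _ _ e1 (mul_eq_one_comm.1 e1) h1
    have h3 : c s = fun i => (Matrix.diagonal fun a => (s ^ deg a)⁻¹) * (s • T i) *
        (Matrix.diagonal fun a : n => s ^ deg a) := by
      rw [hc]
      funext i
      ext a b
      rw [Matrix.mul_diagonal, Matrix.diagonal_mul, Matrix.smul_apply, smul_eq_mul]
      simp only [Matrix.of_apply]
      by_cases h4 : deg b + 1 < deg a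
      · rw [h i a b h4]
        ring
      · have h5 : s ^ (deg b + 1 - deg a) * s ^ deg a = s * s ^ deg b := by
          rw [← pow_add, ← pow_succ']
          congr 1
          omega
        have h6 : s ^ deg a ≠ 0 := pow_ne_zero _ hs
        field_simp
        linear_combination (T i a b) * h5
    rw [h3]
    exact h2
  rw [← h0]
  by_contra hcl
  have h2 := finite_cl c hp hcl
  exact (Set.finite_singleton (0 : k)).infinite_compl (h2.subset fun s h3 => hs s h3)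


/-- lower triangular Toeplitz matrix -/
def TM (c : Fin 9 → k) : Matrix (Fin 9) (Fin 9) k :=
  !![0, 0, 0, 0, 0, 0, 0, 0, 0;
     c 0, 0, 0, 0, 0, 0, 0, 0, 0;
     c 1, c 0, 0, 0, 0, 0, 0, 0, 0;
     c 2, c 1, c 0, 0, 0, 0, 0, 0, 0;
     c 3, c 2, c 1, c 0, 0, 0, 0, 0, 0;
     c 4, c 3, c 2, c 1, c 0, 0, 0, 0, 0;
     c 5, c 4, c 3, c 2, c 1, c 0, 0, 0, 0;
     c 6, c 5, c 4, c 3, c 2, c 1, c 0, 0, 0;
     c 7, c 6, c 5, c 4, c 3, c 2, c 1, c 0, 0]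

theorem toep_eq (c : Fin 9 → k) : TSQ.toep c = TM c := by
  ext x y
  rw [TSQ.ToepAux.toep_apply]
  fin_cases x <;> fin_cases y <;> simp [TM, Fin.sum_univ_succ]

theorem cl_TM (c : Fin 3 → Fin 9 → k) : Cl fun i => TM (c i) := by
  have h1 := Cl.of_curv (TSQ.curv_toep (by norm_num) c)
  simpa only [toep_eq] using h1

/-- the basis -/
def Pm (g1 g2 g3 g4 g5 g6 d : k) : Matrix (Fin 9) (Fin 9) k :=
  !![1, 0, 0, 0, 0, 0, 0, 0, 0;
     g1, 1, 0, 0, 0, 0, 0, 0, 0;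
     g2, g1, 1, 0, 0, 1, 0, 0, 0;
     g3, g2, 0, 1, 0, g1, 0, 0, 0;
     g4, g3, 0, 0, 1, g2, 0, 0, 0;
     g5, g4, 0, 0, 0, 1 + g3, 0, 0, 0;
     g6, g5, 0, 0, 0, g4, d, 0, 0;
     0, g6, 0, 0, 0, g5, 0, d, 0;
     0, 0, 0, 0, 0, g6, 0, 0, d]

/-- the inverse of the matrix of the basis -/
def Qm (g1 g2 g3 g4 g5 g6 d : k) : Matrix (Fin 9) (Fin 9) k :=
  !![1, 0, 0, 0, 0, 0, 0, 0, 0;
     -g1, 1, 0, 0, 0, 0, 0, 0, 0;
     -g2 + d * g5 + g1 ^ 2 - d * g1 * g4, -g1 + d * g4, 1, 0, 0, -d, 0, 0, 0;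
     -g3 + g1 * g2 + d * g1 * g5 - d * g1 ^ 2 * g4, -g2 + d * g1 * g4, 0, 1, 0, -d * g1, 0, 0, 0;
     -g4 + g1 * g3 + d * g2 * g5 - d * g1 * g2 * g4, -g3 + d * g2 * g4, 0, 0, 1, -d * g2, 0, 0, 0;
     -d * g5 + d * g1 * g4, -d * g4, 0, 0, 0, d, 0, 0, 0;
     -g6 + g1 * g5 - g3 * g6 + g4 * g5 + g1 * g3 * g5 - g1 * g4 ^ 2, -g5 - g3 * g5 + g4 ^ 2, 0, 0, 0, -g4, 1 + g3, 0, 0;
     g1 * g6 + g5 ^ 2 + g1 * g3 * g6 - g1 * g4 * g5, -g6 - g3 * g6 + g4 * g5, 0, 0, 0, -g5, 0, 1 + g3, 0;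
     g5 * g6 - g1 * g4 * g6, g4 * g6, 0, 0, 0, -g6, 0, 0, 1 + g3]

/-- the products of the basis and `X_0` -/
def V0 (f1 f2 f3 f4 d : k) : Matrix (Fin 9) (Fin 9) k :=
  !![0, 0, 0, 0, 0, 0, 0, 0, 0;
     0, 0, 0, 0, 0, 0, 0, 0, 0;
     1, 0, 0, 0, 0, 0, 0, 0, 0;
     0, 1, 0, 0, 0, 0, 0, 0, 0;
     0, 0, 1, 0, 0, 1, 0, 0, 0;
     0, 0, f1, 1, 0, 0, 0, 0, 0;
     0, 0, f2, f1, 1, 0, 0, 0, 0;
     0, 0, f3, f2, f1, 1, 0, 0, 0;
     0, 0, f4, f3, f2, f1, d, 0, 0]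

/-- the products of the basis and `X_1` -/
def V1 (f1 f2 f3 : k) : Matrix (Fin 9) (Fin 9) k :=
  !![0, 0, 0, 0, 0, 0, 0, 0, 0;
     0, 0, 0, 0, 0, 0, 0, 0, 0;
     0, 0, 0, 0, 0, 0, 0, 0, 0;
     1, 0, 0, 0, 0, 0, 0, 0, 0;
     0, 1, 0, 0, 0, 0, 0, 0, 0;
     0, 0, 1, 0, 0, 1, 0, 0, 0;
     0, 0, f1, 1, 0, 0, 0, 0, 0;
     0, 0, f2, f1, 1, 0, 0, 0, 0;
     0, 0, f3, f2, f1, 1, 0, 0, 0]

/-- the products of the basis and `X_2` -/
def V2 (f1 f2 d g1 g2 g3 g4 g5 g6 : k) : Matrix (Fin 9) (Fin 9) k :=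
  !![0, 0, 0, 0, 0, 0, 0, 0, 0;
     1, 0, 0, 0, 0, 0, 0, 0, 0;
     g1, 1, 0, 0, 0, 0, 0, 0, 0;
     g2, g1, 1, 0, 0, 1, 0, 0, 0;
     1 + g3, g2, 0, 1, 0, g1, 0, 0, 0;
     g4, 1 + g3, 0, 0, 1, g2, 0, 0, 0;
     g5, g4, 1, 0, 0, 2 + g3, 0, 0, 0;
     g6, g5, f1, 1, 0, g4, d, 0, 0;
     0, g6, f2, f1, 1, g5, 0, d, 0]

theorem Qm_mul {g1 g2 g3 g4 g5 g6 d : k} (hd : d * (1 + g3) = 1) :
    Qm g1 g2 g3 g4 g5 g6 d * Pm g1 g2 g3 g4 g5 g6 d = 1 := by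
  ext x y
  fin_cases x <;> fin_cases y <;>
    simp [Qm, Pm, Matrix.mul_apply, Fin.sum_univ_succ, -mul_eq_zero] <;>
    first
      | ring1
      | linear_combination hd
      | linear_combination -hd
      | linear_combination -g1 * hd
      | linear_combination -g2 * hd

/-- the coefficients of the three elements -/
def cf (f1 f2 f3 f4 f5 f6 : k) : Fin 3 → Fin 9 → k :=
  ![![0, 1, f1, f2, f3, f4, f5, f6, 0], ![0, 0, 1, f1, f2, f3, f4, f5, 0],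
    ![1, 0, 0, 1, f1, f2, f3, f4, 0]]

theorem TM_mul0 {g1 g2 g3 g4 g5 g6 d f1 f2 f3 f4 f5 f6 : k}
    (h1 : f1 + g1 = 0) (h2 : f2 + g1 * f1 + g2 = 0) (h3 : f3 + g1 * f2 + g2 * f1 + g3 = 0)
    (h4 : f4 + g1 * f3 + g2 * f2 + g3 * f1 + g4 = 0)
    (h5 : f5 + g1 * f4 + g2 * f3 + g3 * f2 + g4 * f1 + g5 = 0)
    (h6 : f6 + g1 * f5 + g2 * f4 + g3 * f3 + g4 * f2 + g5 * f1 + g6 = 0) :
    TM (cf f1 f2 f3 f4 f5 f6 0) * Pm g1 g2 g3 g4 g5 g6 d = V0 f1 f2 f3 f4 d := by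
  ext x y
  fin_cases x <;> fin_cases y <;>
    simp [TM, cf, Pm, V0, Matrix.mul_apply, Fin.sum_univ_succ, -mul_eq_zero] <;>
    first
      | ring1
      | linear_combination h1
      | linear_combination h2
      | linear_combination h3
      | linear_combination h4
      | linear_combination h5
      | linear_combination h6

theorem TM_mul1 {g1 g2 g3 g4 g5 g6 d f1 f2 f3 f4 f5 f6 : k}
    (h1 : f1 + g1 = 0) (h2 : f2 + g1 * f1 + g2 = 0) (h3 : f3 + g1 * f2 + g2 * f1 + g3 = 0)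
    (h4 : f4 + g1 * f3 + g2 * f2 + g3 * f1 + g4 = 0)
    (h5 : f5 + g1 * f4 + g2 * f3 + g3 * f2 + g4 * f1 + g5 = 0) :
    TM (cf f1 f2 f3 f4 f5 f6 1) * Pm g1 g2 g3 g4 g5 g6 d = V1 f1 f2 f3 := by
  ext x y
  fin_cases x <;> fin_cases y <;>
    simp [TM, cf, Pm, V1, Matrix.mul_apply, Fin.sum_univ_succ, -mul_eq_zero] <;>
    first
      | ring1
      | linear_combination h1
      | linear_combination h2
      | linear_combination h3
      | linear_combination h4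
      | linear_combination h5

theorem TM_mul2 {g1 g2 g3 g4 g5 g6 d f1 f2 f3 f4 f5 f6 : k}
    (h1 : f1 + g1 = 0) (h2 : f2 + g1 * f1 + g2 = 0) (h3 : f3 + g1 * f2 + g2 * f1 + g3 = 0)
    (h4 : f4 + g1 * f3 + g2 * f2 + g3 * f1 + g4 = 0) :
    TM (cf f1 f2 f3 f4 f5 f6 2) * Pm g1 g2 g3 g4 g5 g6 d = V2 f1 f2 d g1 g2 g3 g4 g5 g6 := by
  ext x y
  fin_cases x <;> fin_cases y <;>
    simp [TM, cf, Pm, V2, Matrix.mul_apply, Fin.sum_univ_succ, -mul_eq_zero] <;>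
    first
      | ring1
      | linear_combination h1
      | linear_combination h2
      | linear_combination h3
      | linear_combination h4

/-- degrees of the elements of the basis -/
def dg : Fin 9 → ℕ := ![0, 0, 1, 1, 1, 1, 2, 2, 2]

/-- coefficients of the base family -/
def gB {R : Type*} [CommRing R] (g1 g2 g3 g4 g5 g6 f1 f2 f3 f4 : R) (x : Fin 6 × Fin 3) : R :=
  ![![(1 + g3) * f2 - f1 * g4, (1 + g3) * f3 - f1 * g5, (1 + g3) * f4 - f1 * g6],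
    ![(1 + g3) * f1 - g4, (1 + g3) * f2 - g5, (1 + g3) * f3 - g6],
    ![1 + g3, (1 + g3) * f1, (1 + g3) * f2],
    ![0, 1 + g3, (1 + g3) * f1],
    ![-g4, -g5, 1 + g3 - g6],
    ![(1 + g3) * (g3 + 2) - g2 * g4, (1 + g3) * g4 - g2 * g5, (1 + g3) * g5 - g2 * g6]] x.1 x.2

/-- numbering of the blocks -/
def e9 : (Fin 2 ⊕ (Fin 4 ⊕ Fin 3)) ≃ Fin 9 :=
  (Equiv.sumCongr (Equiv.refl _) finSumFinEquiv).trans finSumFinEquiv

/-- the matrices in the new basis -/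
def Tq (g1 g2 g3 g4 g5 g6 d f1 f2 f3 f4 : k) (i : Fin 3) : Matrix (Fin 9) (Fin 9) k :=
  Qm g1 g2 g3 g4 g5 g6 d *
    ![V0 f1 f2 f3 f4 d, V1 f1 f2 f3, V2 f1 f2 d g1 g2 g3 g4 g5 g6] i

theorem Tq_low {g1 g2 g3 g4 g5 g6 d f1 f2 f3 f4 : k} (i : Fin 3) (a b : Fin 9)
    (h : dg b + 1 < dg a) : Tq g1 g2 g3 g4 g5 g6 d f1 f2 f3 f4 i a b = 0 := by
  fin_cases a <;> fin_cases b <;> first
    | exact absurd h (by decide)
    | (fin_cases i <;>
        simp [Tq, Qm, V0, V1, V2, Matrix.mul_apply, Fin.sum_univ_succ, -mul_eq_zero] <;> ring1)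

theorem Tq_top {g1 g2 g3 g4 g5 g6 d f1 f2 f3 f4 : k} (hd : d * (1 + g3) = 1) (i : Fin 3)
    (a b : Fin 2 ⊕ (Fin 4 ⊕ Fin 3)) (h : dg (e9 a) = dg (e9 b) + 1) :
    Tq g1 g2 g3 g4 g5 g6 d f1 f2 f3 f4 i (e9 a) (e9 b) =
      TG3 (gB g1 g2 g3 g4 g5 g6 f1 f2 f3 f4) i a b := by
  rcases a with a | a | a <;> rcases b with b | b | b <;> fin_cases a <;> fin_cases b <;> first
    | exact absurd h (by decide)
    | (fin_cases i <;>
        simp [e9, finSumFinEquiv, Tq, Qm, V0, V1, V2, TG3, gB, Matrix.mul_apply,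
          Fin.sum_univ_succ, -mul_eq_zero] <;>
        first
          | ring1
          | linear_combination hd
          | linear_combination -hd
          | linear_combination -g1 * hd
          | linear_combination -g2 * hd)

theorem TG3_low (G : Fin 6 × Fin 3 → k) (i : Fin 3) (a b : Fin 2 ⊕ (Fin 4 ⊕ Fin 3))
    (h : ¬ dg (e9 a) = dg (e9 b) + 1) : TG3 G i a b = 0 := by
  rcases a with a | a | a <;> rcases b with b | b | b <;> fin_cases a <;> fin_cases b <;> first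
    | rfl
    | exact absurd (by decide) h

theorem cl_base [Infinite k] {g1 g2 g3 g4 g5 g6 f1 f2 f3 f4 f5 f6 : k} (hg : 1 + g3 ≠ 0)
    (h1 : f1 + g1 = 0) (h2 : f2 + g1 * f1 + g2 = 0) (h3 : f3 + g1 * f2 + g2 * f1 + g3 = 0)
    (h4 : f4 + g1 * f3 + g2 * f2 + g3 * f1 + g4 = 0)
    (h5 : f5 + g1 * f4 + g2 * f3 + g3 * f2 + g4 * f1 + g5 = 0)
    (h6 : f6 + g1 * f5 + g2 * f4 + g3 * f3 + g4 * f2 + g5 * f1 + g6 = 0) :
    Cl (TG3 (gB g1 g2 g3 g4 g5 g6 f1 f2 f3 f4)) := by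
  obtain ⟨d, hd⟩ : ∃ d : k, d * (1 + g3) = 1 := ⟨(1 + g3)⁻¹, inv_mul_cancel₀ hg⟩
  have e1 := Qm_mul (g1 := g1) (g2 := g2) (g4 := g4) (g5 := g5) (g6 := g6) hd
  have e2 := Cl.conj _ _ e1 (mul_eq_one_comm.1 e1) (cl_TM (cf f1 f2 f3 f4 f5 f6))
  have e3 : (fun i => Qm g1 g2 g3 g4 g5 g6 d * TM (cf f1 f2 f3 f4 f5 f6 i) *
      Pm g1 g2 g3 g4 g5 g6 d) = Tq g1 g2 g3 g4 g5 g6 d f1 f2 f3 f4 := by
    funext i
    rw [Matrix.mul_assoc, Tq]
    congr 1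
    fin_cases i
    · exact TM_mul0 h1 h2 h3 h4 h5 h6
    · exact TM_mul1 h1 h2 h3 h4 h5
    · exact TM_mul2 h1 h2 h3 h4
  rw [e3] at e2
  have e4 := cl_grade dg e2 Tq_low
  have e5 := Cl.mapEquiv (Matrix.reindexAlgEquiv k k e9.symm) (by simp) e4
  have e6 : (fun i => Matrix.reindexAlgEquiv k k e9.symm (Matrix.of fun a b =>
      if dg a = dg b + 1 then Tq g1 g2 g3 g4 g5 g6 d f1 f2 f3 f4 i a b else 0)) =
      TG3 (gB g1 g2 g3 g4 g5 g6 f1 f2 f3 f4) := by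
    funext i
    ext a b
    show (if dg (e9 a) = dg (e9 b) + 1 then
      Tq g1 g2 g3 g4 g5 g6 d f1 f2 f3 f4 i (e9 a) (e9 b) else 0) = _
    split_ifs with h
    · exact Tq_top hd i a b h
    · exact (TG3_low _ i a b h).symm
  rwa [e6] at e5

end ClTG3Aux

end Pool.Agent.Lib.D9
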