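import Pool.Agent.Lib.D9.DensX

/-!
# MP_5dcbc3_ag: the criterion of `DensX` with a base point that is not monomial

The basis vector `t ^ v` is replaced by `t ^ v + τ t ^ u` (`u ≠ v`, `v ≠ 0`, `u ≠ 0`).
-/

namespace Pool.Agent.Lib.D9

open Matrix Pool.Agent.Lib.Q5dc Pool.Agent.Lib.D7

variable {k : Type*} [Field k]

namespace DensY

open DensX

variable {n : ℕ}

/-- the elementary matrix `1 + τ E_{u v}` -/
def El (u v : Fin (n + 1)) (τ : k) : Matrix (Fin (n + 1)) (Fin (n + 1)) k :=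
  1 + Matrix.of fun x y => if x = u ∧ y = v then τ else 0

theorem El_mul_El {u v : Fin (n + 1)} (h : u ≠ v) (τ σ : k) : El u v τ * El u v σ = El u v (τ + σ) := by
  have h1 : (Matrix.of fun (x y : Fin (n + 1)) => if x = u ∧ y = v then τ else 0) *
      (Matrix.of fun (x y : Fin (n + 1)) => if x = u ∧ y = v then σ else 0) = 0 := by
    ext x y
    rw [Matrix.mul_apply, Matrix.zero_apply]
    refine Finset.sum_eq_zero fun z _ => ?_
    simp only [Matrix.of_apply]
    by_cases hz : z = v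
    · subst hz
      simp [h.symm]
    · simp [hz]
  have h2 : (Matrix.of fun (x y : Fin (n + 1)) => if x = u ∧ y = v then (τ + σ) else 0) =
      (Matrix.of fun (x y : Fin (n + 1)) => if x = u ∧ y = v then τ else 0) +
      (Matrix.of fun (x y : Fin (n + 1)) => if x = u ∧ y = v then σ else 0) := by
    ext x y
    simp only [Matrix.add_apply, Matrix.of_apply]
    split_ifs
    · rfl
    · rw [add_zero]
  rw [El, El, El, h2]
  generalize (Matrix.of fun (x y : Fin (n + 1)) => if x = u ∧ y = v then τ else 0) = A at *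
  generalize (Matrix.of fun (x y : Fin (n + 1)) => if x = u ∧ y = v then σ else 0) = B at *
  rw [add_mul, mul_add, mul_add, h1, one_mul, one_mul, mul_one]
  abel

theorem El_mul_apply (u v : Fin (n + 1)) (τ : k) (A : Matrix (Fin (n + 1)) (Fin (n + 1)) k)
    (c a : Fin (n + 1)) : (El u v τ * A) c a = A c a + if c = u then τ * A v a else 0 := by
  rw [El, Matrix.add_mul, Matrix.one_mul, Matrix.add_apply]
  congr 1
  rw [Matrix.mul_apply]
  by_cases h : c = u
  · rw [if_pos h, Finset.sum_eq_single v]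
    · simp [h]
    · intro b _ hb
      simp [hb]
    · simp
  · rw [if_neg h]
    refine Finset.sum_eq_zero fun b _ => ?_
    simp [h]

theorem mul_El_apply (u v : Fin (n + 1)) (τ : k) (A : Matrix (Fin (n + 1)) (Fin (n + 1)) k)
    (c a : Fin (n + 1)) : (A * El u v τ) c a = A c a + if a = v then τ * A c u else 0 := by
  rw [El, Matrix.mul_add, Matrix.mul_one, Matrix.add_apply]
  congr 1
  rw [Matrix.mul_apply]
  by_cases h : a = v
  · rw [if_pos h, Finset.sum_eq_single u]
    · simp [h]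
      ring
    · intro b _ hb
      simp [hb]
    · simp
  · rw [if_neg h]
    refine Finset.sum_eq_zero fun b _ => ?_
    simp [h]

section

variable (N : Matrix (Fin (n + 1)) (Fin (n + 1)) k) (u v : Fin (n + 1)) (τ : k)
  (p : Fin 3 → Fin (n + 1))

/-- the basis vector number `p` -/
def bv (p x : Fin (n + 1)) : k := El u v τ x p

/-- the triple with parameter `s`, in the monomial basis -/
def Md (s : k) (i : Fin 3) : Matrix (Fin (n + 1)) (Fin (n + 1)) k :=
  adjugate (1 + s • N) * mu ((1 + s • N) *ᵥ bv u v τ (p i)) * (1 + s • N)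

/-- the triple with parameter `s` -/
def Me (s : k) (i : Fin 3) : Matrix (Fin (n + 1)) (Fin (n + 1)) k :=
  El u v (-τ) * Md N u v τ p s i * El u v τ

variable {N u v τ p}

theorem El_inv (h : u ≠ v) : El u v (-τ) * El u v τ = 1 := by
  rw [El_mul_El h, neg_add_cancel, El]
  ext x y
  simp

theorem El_inv' (h : u ≠ v) : El u v τ * El u v (-τ) = 1 := by
  rw [El_mul_El h, add_neg_cancel, El]
  ext x y
  simp

theorem bv_zero (hu : u ≠ 0) {p : Fin (n + 1)} (hp : p ≠ 0) : bv u v τ p 0 = 0 := by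
  simp [bv, El, hu.symm, hp.symm]

theorem Md_cl (hrow : ∀ x, N 0 x = 0) (hu : u ≠ 0) (hp : ∀ i, p i ≠ 0) {s : k}
    (hs : (1 + s • N).det ≠ 0) : Cl (Md N u v τ p s) := by
  have h1 : Cl fun i => mu ((1 + s • N) *ᵥ bv u v τ (p i)) := by
    refine Cl.of_curv (curv_mu _ fun i => ?_)
    rw [Matrix.add_mulVec, Matrix.one_mulVec, Pi.add_apply, bv_zero hu (hp i), zero_add,
      Matrix.smul_mulVec, Pi.smul_apply]
    have h2 : (N *ᵥ bv u v τ (p i)) 0 = 0 := by
      rw [Matrix.mulVec, dotProduct]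
      refine Finset.sum_eq_zero fun x _ => ?_
      rw [hrow, zero_mul]
    rw [h2, smul_zero]
  have e1 : ((1 + s • N).det⁻¹ • adjugate (1 + s • N)) * (1 + s • N) = 1 := by
    rw [Matrix.smul_mul, Matrix.adjugate_mul, smul_smul, inv_mul_cancel₀ hs, one_smul]
  have h2 := D8.cl_smul3 (Cl.conj _ _ e1 (mul_eq_one_comm.1 e1) h1) fun _ => (1 + s • N).det
  have h3 : (fun i => (1 + s • N).det • (((1 + s • N).det⁻¹ • adjugate (1 + s • N)) *
      mu ((1 + s • N) *ᵥ bv u v τ (p i)) * (1 + s • N))) = Md N u v τ p s := by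
    funext i
    rw [Matrix.smul_mul, Matrix.smul_mul, smul_smul, mul_inv_cancel₀ hs, one_smul, Md]
  rw [h3] at h2
  exact h2

theorem Me_cl (hrow : ∀ x, N 0 x = 0) (hu : u ≠ 0) (huv : u ≠ v) (hp : ∀ i, p i ≠ 0) {s : k}
    (hs : (1 + s • N).det ≠ 0) : Cl (Me N u v τ p s) :=
  Cl.conj _ _ (El_inv huv) (El_inv' huv) (Md_cl hrow hu hp hs)

theorem Md_col (hcol : ∀ x, N x 0 = 0) (s : k) (i : Fin 3) (x : Fin (n + 1)) :
    Md N u v τ p s i x 0 = (1 + s • N).det * bv u v τ (p i) x := by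
  have h1 : ∀ (A : Matrix (Fin (n + 1)) (Fin (n + 1)) k), (A * (1 + s • N)) x 0 = A x 0 := by
    intro A
    rw [Matrix.mul_apply, Finset.sum_eq_single 0]
    · rw [Matrix.add_apply, Matrix.smul_apply, hcol, smul_zero, add_zero, Matrix.one_apply_eq,
        mul_one]
    · intro b _ hb
      rw [Matrix.add_apply, Matrix.smul_apply, hcol, smul_zero, add_zero, Matrix.one_apply_ne hb,
        mul_zero]
    · simp
  rw [Md, h1, Matrix.mul_apply]
  simp only [mu_col]
  have h2 : ∑ j, adjugate (1 + s • N) x j * ((1 + s • N) *ᵥ bv u v τ (p i)) j =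
      (adjugate (1 + s • N) *ᵥ ((1 + s • N) *ᵥ bv u v τ (p i))) x := rfl
  rw [h2, Matrix.mulVec_mulVec, Matrix.adjugate_mul, Matrix.smul_mulVec, Matrix.one_mulVec]
  rfl

theorem Me_col (hcol : ∀ x, N x 0 = 0) (hv : v ≠ 0) (huv : u ≠ v) (s : k) (i : Fin 3)
    (x : Fin (n + 1)) : Me N u v τ p s i x 0 = if x = p i then (1 + s • N).det else 0 := by
  rw [Me, mul_El_apply, if_neg hv.symm, add_zero, El_mul_apply, Md_col hcol, Md_col hcol]
  have h1 : ∀ y, (El u v (-τ) * El u v τ) y (p i) = bv u v τ (p i) y +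
      if y = u then -τ * bv u v τ (p i) v else 0 := by
    intro y
    rw [El_mul_apply]
    rfl
  have h2 := h1 x
  rw [El_inv huv, Matrix.one_apply] at h2
  have h3 : (1 + s • N).det * bv u v τ (p i) x +
      (if x = u then -τ * ((1 + s • N).det * bv u v τ (p i) v) else 0) =
      (1 + s • N).det * (bv u v τ (p i) x + if x = u then -τ * bv u v τ (p i) v else 0) := by
    split_ifs <;> ring
  rw [h3, ← h2]
  simp

theorem Md_comm (s : k) (i j : Fin 3) :
    Md N u v τ p s i * Md N u v τ p s j = Md N u v τ p s j * Md N u v τ p s i := by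
  have h1 : ∀ i j : Fin 3, Md N u v τ p s i * Md N u v τ p s j = (1 + s • N).det •
      (adjugate (1 + s • N) * (mu ((1 + s • N) *ᵥ bv u v τ (p i)) *
        mu ((1 + s • N) *ᵥ bv u v τ (p j))) * (1 + s • N)) := by
    intro i j
    have h2 : Md N u v τ p s i * Md N u v τ p s j =
        adjugate (1 + s • N) * mu ((1 + s • N) *ᵥ bv u v τ (p i)) *
        ((1 + s • N) * adjugate (1 + s • N)) * mu ((1 + s • N) *ᵥ bv u v τ (p j)) *
        (1 + s • N) := by
      simp only [Md, Matrix.mul_assoc]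
    rw [h2, Matrix.mul_adjugate, Matrix.mul_smul, Matrix.mul_one, Matrix.smul_mul, Matrix.smul_mul]
    simp only [Matrix.mul_assoc]
  rw [h1, h1, mu_comm]

theorem Me_comm (huv : u ≠ v) (s : k) (i j : Fin 3) :
    Me N u v τ p s i * Me N u v τ p s j = Me N u v τ p s j * Me N u v τ p s i := by
  have h1 : ∀ i j : Fin 3, Me N u v τ p s i * Me N u v τ p s j =
      El u v (-τ) * (Md N u v τ p s i * Md N u v τ p s j) * El u v τ := by
    intro i j
    have h2 : Me N u v τ p s i * Me N u v τ p s j = El u v (-τ) * Md N u v τ p s i *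
        (El u v τ * El u v (-τ)) * Md N u v τ p s j * El u v τ := by
      simp only [Me, Matrix.mul_assoc]
    rw [h2, El_inv' huv, Matrix.mul_one]
    simp only [Matrix.mul_assoc]
  rw [h1, h1, Md_comm]

theorem Me_sym (hcol : ∀ x, N x 0 = 0) (hv : v ≠ 0) (huv : u ≠ v) {s : k}
    (hs : (1 + s • N).det ≠ 0) (i j : Fin 3)
    (x : Fin (n + 1)) : Me N u v τ p s i x (p j) = Me N u v τ p s j x (p i) := by
  have h1 : ∀ i j : Fin 3, (Me N u v τ p s i * Me N u v τ p s j) x 0 =
      Me N u v τ p s i x (p j) * (1 + s • N).det := by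
    intro i j
    rw [Matrix.mul_apply, Finset.sum_eq_single (p j)]
    · rw [Me_col hcol hv huv, if_pos rfl]
    · intro b _ hb
      rw [Me_col hcol hv huv, if_neg hb, mul_zero]
    · simp
  have h2 := h1 i j
  rw [Me_comm huv, h1 j i] at h2
  exact (mul_right_cancel₀ hs h2).symm

/-- derivative in the monomial basis -/
def Dw (N : Matrix (Fin (n + 1)) (Fin (n + 1)) k) (u v : Fin (n + 1)) (τ : k)
    (p a c : Fin (n + 1)) : k := Dv N p a c + if p = v then τ * Dv N u a c else 0

/-- the value at `0` in the monomial basis -/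
def Bw (u v : Fin (n + 1)) (τ : k) (p a c : Fin (n + 1)) : k :=
  (if (c : ℕ) = (a : ℕ) + p then 1 else 0) +
    if p = v then τ * (if (c : ℕ) = (a : ℕ) + u then 1 else 0) else 0

/-- the derivative -/
def Dz (N : Matrix (Fin (n + 1)) (Fin (n + 1)) k) (u v : Fin (n + 1)) (τ : k)
    (p a c : Fin (n + 1)) : k :=
  (Dw N u v τ p a c + if c = u then -τ * Dw N u v τ p a v else 0) +
    if a = v then τ * (Dw N u v τ p u c + if c = u then -τ * Dw N u v τ p u v else 0) else 0

/-- the value at `0` -/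
def Bz (u v : Fin (n + 1)) (τ : k) (p a c : Fin (n + 1)) : k :=
  (Bw u v τ p a c + if c = u then -τ * Bw u v τ p a v else 0) +
    if a = v then τ * (Bw u v τ p u c + if c = u then -τ * Bw u v τ p u v else 0) else 0

theorem mulVec_bv (A : Matrix (Fin (n + 1)) (Fin (n + 1)) k) (p x : Fin (n + 1)) :
    (A *ᵥ bv u v τ p) x = A x p + τ * (if p = v then A x u else 0) := by
  have h1 : (A *ᵥ bv u v τ p) x = (A * El u v τ) x p := rfl
  rw [h1, mul_El_apply]
  split_ifs
  · rfl
  · rw [mul_zero]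

theorem Md_jet (htr : N.trace = 0) (i : Fin 3) (c a : Fin (n + 1)) :
    J (fun s => Md N u v τ p s i c a) (Bw u v τ (p i) a c) (Dw N u v τ (p i) a c) := by
  have key : ∀ s : k, Md N u v τ p s i c a = Mc N (fun _ => p i) s 0 c a +
      τ * (if p i = v then Mc N (fun _ => u) s 0 c a else 0) := by
    intro s
    have h1 : mu ((1 + s • N) *ᵥ bv u v τ (p i)) = mu (fun x => (1 + s • N) x (p i)) +
        (τ * if p i = v then 1 else 0) • mu (fun x => (1 + s • N) x u) := by
      rw [← mu_line]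
      congr 1
      funext x
      rw [mulVec_bv]
      split_ifs <;> ring
    have h2 : ∀ (A P Q B : Matrix (Fin (n + 1)) (Fin (n + 1)) k) (t : k),
        A * (P + t • Q) * B = A * P * B + t • (A * Q * B) := by
      intro A P Q B t
      rw [Matrix.mul_add, Matrix.add_mul, Matrix.mul_smul, Matrix.smul_mul]
    rw [Md, h1, h2, Matrix.add_apply, Matrix.smul_apply, smul_eq_mul, Mc, Mc]
    split_ifs <;> ring
  have j1 := Mc_jet (N := N) (p := fun _ => p i) htr 0 c a
  have j2 := Mc_jet (N := N) (p := fun _ => u) htr 0 c a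
  by_cases h : p i = v
  · refine (j1.add ((J.const τ).mul j2)).congr' (fun s => ?_) ?_ ?_
    · rw [key, if_pos h]
    · rw [Bw, if_pos h]
    · rw [Dw, if_pos h, zero_mul, add_zero]
  · refine j1.congr' (fun s => ?_) ?_ ?_
    · rw [key, if_neg h, mul_zero, add_zero]
    · rw [Bw, if_neg h, add_zero]
    · rw [Dw, if_neg h, add_zero]

theorem Me_jet (htr : N.trace = 0) (i : Fin 3) (c a : Fin (n + 1)) :
    J (fun s => Me N u v τ p s i c a) (Bz u v τ (p i) a c) (Dz N u v τ (p i) a c) := by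
  have h1 : ∀ a : Fin (n + 1), J (fun s => (El u v (-τ) * Md N u v τ p s i) c a)
      (Bw u v τ (p i) a c + if c = u then -τ * Bw u v τ (p i) a v else 0)
      (Dw N u v τ (p i) a c + if c = u then -τ * Dw N u v τ (p i) a v else 0) := by
    intro a
    have j1 := Md_jet (u := u) (v := v) (τ := τ) (p := p) htr i c a
    have j2 := Md_jet (u := u) (v := v) (τ := τ) (p := p) htr i v a
    by_cases h : c = u
    · refine (j1.add ((J.const (-τ)).mul j2)).congr' (fun s => ?_) ?_ ?_
      · rw [El_mul_apply, if_pos h]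
      · rw [if_pos h]
      · rw [if_pos h, zero_mul, add_zero]
    · refine j1.congr' (fun s => ?_) ?_ ?_
      · rw [El_mul_apply, if_neg h, add_zero]
      · rw [if_neg h, add_zero]
      · rw [if_neg h, add_zero]
  by_cases h : a = v
  · refine ((h1 a).add ((J.const τ).mul (h1 u))).congr' (fun s => ?_) ?_ ?_
    · rw [Me, mul_El_apply, if_pos h]
    · rw [Bz, if_pos h]
    · rw [Dz, if_pos h, zero_mul, add_zero]
  · refine (h1 a).congr' (fun s => ?_) ?_ ?_
    · rw [Me, mul_El_apply, if_neg h, add_zero]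
    · rw [Bz, if_neg h, add_zero]
    · rw [Dz, if_neg h, add_zero]

end

open MvPolynomial in
/-- a polynomial family of triples with enough curves of members of `Cl` -/
theorem cl_of_curves {ι κ : Type} [Fintype ι] [DecidableEq ι] [Fintype κ] [DecidableEq κ]
    [Infinite k] (T : (ι → k) → Fin 3 → Matrix κ κ k)
    (hpol : ∀ z : Fin 3 × κ × κ, ∃ P : MvPolynomial ι k, ∀ y, T y z.1 z.2.1 z.2.2 = eval y P)
    (y0 : ι → k) (curve : ∀ v : ι → k, ∃ u : ι → Polynomial k, (∀ x, (u x).eval 0 = v x) ∧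
      {s : k | Cl (T fun x => y0 x + s * (u x).eval s)}.Infinite) (y : ι → k) : Cl (T y) := by
  choose P hP using hpol
  intro F hF
  have hev : ∀ y : ι → k, eval y (aeval P F) = eval (co (T y)) F := by
    intro y
    have h1 : ((aeval y : MvPolynomial ι k →ₐ[k] k).comp (aeval P)) =
        (aeval (co (T y)) : MvPolynomial (Fin 3 × κ × κ) k →ₐ[k] k) := by
      apply MvPolynomial.algHom_ext
      intro z
      simp only [AlgHom.comp_apply, aeval_X]
      exact (hP z y).symm
    exact congrArg (fun f => f F) h1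
  have h3 : aeval P F = 0 := by
    refine eq_zero_of_curves {y | Cl (T y)} y0 curve _ ?_
    intro y hy
    rw [hev]
    exact hy F hF
  rw [← hev, h3, map_zero]

theorem T1X_poly {q c : ℕ} (z : Fin 3 × (Fin 1 ⊕ ((Fin 3 ⊕ Fin q) ⊕ Fin c)) ×
    (Fin 1 ⊕ ((Fin 3 ⊕ Fin q) ⊕ Fin c))) :
    ∃ P : MvPolynomial ((Fin 6 × Fin c) ⊕ (Fin 3 × Fin q × Fin c)) k,
      ∀ y : (Fin 6 × Fin c) ⊕ (Fin 3 × Fin q × Fin c) → k,
        T1X q c (fun z => y (.inl z)) (fun z => y (.inr z)) z.1 z.2.1 z.2.2 =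
          MvPolynomial.eval y P := by
  obtain ⟨i, x, y⟩ := z
  rcases x with x | ((x | x) | x) <;> rcases y with y | ((y | y) | y)
  · exact ⟨0, fun v => by simp [T1X]⟩
  · exact ⟨0, fun v => by simp [T1X]⟩
  · exact ⟨0, fun v => by simp [T1X]⟩
  · exact ⟨0, fun v => by simp [T1X]⟩
  · refine ⟨MvPolynomial.C (if x = i then 1 else 0), fun v => ?_⟩
    rw [MvPolynomial.eval_C]
    rfl
  · exact ⟨0, fun v => by simp [T1X]⟩
  · exact ⟨0, fun v => by simp [T1X]⟩
  · exact ⟨0, fun v => by simp [T1X]⟩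
  · exact ⟨0, fun v => by simp [T1X]⟩
  · exact ⟨0, fun v => by simp [T1X]⟩
  · exact ⟨0, fun v => by simp [T1X]⟩
  · exact ⟨0, fun v => by simp [T1X]⟩
  · exact ⟨0, fun v => by simp [T1X]⟩
  · refine ⟨MvPolynomial.X (.inl (ix i y, x)), fun v => ?_⟩
    rw [MvPolynomial.eval_X]
    rfl
  · refine ⟨MvPolynomial.X (.inr (i, y, x)), fun v => ?_⟩
    rw [MvPolynomial.eval_X]
    rfl
  · exact ⟨0, fun v => by simp [T1X]⟩

end DensY

open DensX DensY in
/-- criterion: all triples `T1X q c r g` are limits of curvilinear triples -/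
theorem cl_T1X_of_cert2 [CharZero k] {n q c : ℕ}
    (ex : Fin 1 ⊕ ((Fin 3 ⊕ Fin q) ⊕ Fin c) ≃ Fin (n + 1)) (h0 : ex (.inl 0) = 0)
    (u v : Fin (n + 1)) (τ : k) (hu : u ≠ 0) (hv : v ≠ 0) (huv : u ≠ v)
    (N : ((Fin 6 × Fin c) ⊕ (Fin 3 × Fin q × Fin c) → k) →
      Matrix (Fin (n + 1)) (Fin (n + 1)) k)
    (hcol : ∀ v x, N v x 0 = 0) (hrow : ∀ v x, N v 0 x = 0) (htr : ∀ v, (N v).trace = 0)
    (hr : ∀ y a m, Dz (N y) u v τ (Pe ex (ri a)) (Pe ex (ci a)) (Pf ex m) = y (.inl (a, m)))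
    (hg : ∀ y i l m, Dz (N y) u v τ (Pe ex i) (Pq ex l) (Pf ex m) = y (.inr (i, l, m)))
    (r : Fin 6 × Fin c → k) (g : Fin 3 × Fin q × Fin c → k) : Cl (T1X q c r g) := by
  have hinf : Infinite k := inferInstance
  have hp0 : ∀ i, Pe ex i ≠ 0 := by
    intro i h
    rw [← h0] at h
    have h1 := ex.injective h
    simp at h1
  set y0 : (Fin 6 × Fin c) ⊕ (Fin 3 × Fin q × Fin c) → k := fun z => match z with
    | .inl (a, m) => Bz u v τ (Pe ex (ri a)) (Pe ex (ci a)) (Pf ex m)
    | .inr (i, l, m) => Bz u v τ (Pe ex i) (Pq ex l) (Pf ex m) with hy0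
  set S : Set ((Fin 6 × Fin c) ⊕ (Fin 3 × Fin q × Fin c) → k) :=
    {y | Cl (T1X q c (fun z => y (.inl z)) (fun z => y (.inr z)))} with hS
  have hcurve : ∀ w : (Fin 6 × Fin c) ⊕ (Fin 3 × Fin q × Fin c) → k,
      ∃ u : (Fin 6 × Fin c) ⊕ (Fin 3 × Fin q × Fin c) → Polynomial k,
      (∀ x, (u x).eval 0 = w x) ∧ {s : k | (fun x => y0 x + s * (u x).eval s) ∈ S}.Infinite := by
    intro w
    have hj : ∀ x : (Fin 6 × Fin c) ⊕ (Fin 3 × Fin q × Fin c), J (fun s => match x with
        | .inl (a, m) => Me (N w) u v τ (Pe ex) s (ri a) (Pf ex m) (Pe ex (ci a))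
        | .inr (i, l, m) => Me (N w) u v τ (Pe ex) s i (Pf ex m) (Pq ex l)) (y0 x) (w x) := by
      intro x
      rcases x with ⟨a, m⟩ | ⟨i, l, m⟩
      · exact (Me_jet (N := N w) (u := u) (v := v) (τ := τ) (p := Pe ex) (htr w) (ri a) (Pf ex m)
          (Pe ex (ci a))).congr rfl (hr w a m)
      · exact (Me_jet (N := N w) (u := u) (v := v) (τ := τ) (p := Pe ex) (htr w) i (Pf ex m)
          (Pq ex l)).congr rfl (hg w i l m)
    choose z hz using hj
    refine ⟨fun x => Polynomial.C (w x) + Polynomial.X * z x, fun x => by simp, ?_⟩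
    refine (finite_det (N w)).infinite_compl.mono ?_
    intro s hs
    have hs' : (1 + s • N w).det ≠ 0 := hs
    have g1 : Cl (Me (N w) u v τ (Pe ex) s) := Me_cl (hrow w) hu huv hp0 hs'
    have g2 : ∀ (i : Fin 3) (x : Fin (n + 1)),
        Me (N w) u v τ (Pe ex) s i x 0 = if x = Pe ex i then (1 + s • N w).det else 0 :=
      fun i x => Me_col (hcol w) hv huv s i x
    have g3 : ∀ (i j : Fin 3) (x : Fin (n + 1)),
        Me (N w) u v τ (Pe ex) s i x (Pe ex j) = Me (N w) u v τ (Pe ex) s j x (Pe ex i) :=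
      fun i j x => Me_sym (hcol w) hv huv hs' i j x
    have h1 := cl_block ex h0 g1 hs' g2 g3
    have h2 : (fun x => y0 x + s * (Polynomial.C (w x) + Polynomial.X * z x).eval s) =
        fun x : (Fin 6 × Fin c) ⊕ (Fin 3 × Fin q × Fin c) => match x with
        | .inl (a, m) => Me (N w) u v τ (Pe ex) s (ri a) (Pf ex m) (Pe ex (ci a))
        | .inr (i, l, m) => Me (N w) u v τ (Pe ex) s i (Pf ex m) (Pq ex l) := by
      funext x
      refine Eq.trans ?_ (hz x s).symm
      simp only [Polynomial.eval_add, Polynomial.eval_mul, Polynomial.eval_C, Polynomial.eval_X]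
      ring
    have h3 : (fun x => y0 x + s * (Polynomial.C (w x) + Polynomial.X * z x).eval s) ∈ S := by
      rw [h2]
      exact h1
    exact h3
  have main := cl_of_curves (ι := (Fin 6 × Fin c) ⊕ (Fin 3 × Fin q × Fin c))
    (κ := Fin 1 ⊕ ((Fin 3 ⊕ Fin q) ⊕ Fin c))
    (fun y => T1X q c (fun z => y (.inl z)) (fun z => y (.inr z))) T1X_poly y0 hcurve
  exact main (Sum.elim r g)

end Pool.Agent.Lib.D9
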