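import Pool.Agent.Lib.D9.Blk

/-!
# MP_5dcbc3_ag: type (3,3,1,1,1), normal form `w = (1; 0)`

`P = k^3` contains `E = k^2` as the first two coordinates. The relation is
`N N' + th w' = N' N + th' w`; `th' w` consists of the first two columns of `th'`. So
`N, M, N', M', th, w'` and the last column of `th'` can be moved freely.
-/

namespace Pool.Agent.Lib.D9

open Matrix Pool.Agent.Lib.Q5dc Pool.Agent.Lib.D7

namespace N33111Aux

section Kernel

variable {k : Type*} [Field k]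

/-- four linear equations in five unknowns -/
theorem exists_ker (r : Fin 4 → Fin 2 → k) (t : Fin 4 → Fin 3 → k) :
    ∃ (x : Fin 2 → k) (y : Fin 3 → k), (x ≠ 0 ∨ y ≠ 0) ∧ ∀ i, r i ⬝ᵥ x + t i ⬝ᵥ y = 0 := by
  let L : (Fin 2 ⊕ Fin 3 → k) →ₗ[k] (Fin 4 → k) :=
    Matrix.mulVecLin (Matrix.of fun i => Sum.elim (r i) (t i))
  have h : LinearMap.ker L ≠ ⊥ := L.ker_ne_bot_of_finrank_lt (by simp)
  obtain ⟨v, hv, h0⟩ := (Submodule.ne_bot_iff _).1 h
  refine ⟨fun i => v (.inl i), fun i => v (.inr i), ?_, fun i => ?_⟩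
  · by_contra hc
    rw [not_or, not_not, not_not] at hc
    refine h0 (funext fun i => ?_)
    rcases i with i | i
    · exact congrFun hc.1 i
    · exact congrFun hc.2 i
  · have h1 : L v = 0 := hv
    have h2 := congrFun h1 i
    simp only [L, Matrix.mulVecLin_apply, Matrix.mulVec, dotProduct, Matrix.of_apply,
      Fintype.sum_sum_type, Sum.elim_inl, Sum.elim_inr, Pi.zero_apply] at h2
    exact h2

variable {e u p : ℕ}

/-- vectors in `E_1 + P` -/
def cv (x : Fin e → k) (y : Fin p → k) : Ix e u p → k := fun i => match i with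
  | .inl (.inr (.inl i)) => x i
  | .inr (.inr i) => y i
  | _ => 0

/-- vectors in `E_2` -/
def v2 (x : Fin e → k) : Ix e u p → k := fun i => match i with
  | .inl (.inr (.inr i)) => x i
  | _ => 0

/-- vectors in `E_0` -/
def v0 (x : Fin e → k) : Ix e u p → k := fun i => match i with
  | .inl (.inl i) => x i
  | _ => 0

variable (N M : Matrix (Fin e) (Fin e) k) (w : Matrix (Fin p) (Fin e) k)
    (th : Matrix (Fin e) (Fin p) k) (x : Fin e → k) (y : Fin p → k)

theorem BX_mulVec (nu : Matrix (Fin 0) (Fin 0) k) :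
    (BX N M 0 0 w 0 0 nu 0 th 0 : Matrix (Ix e 0 p) (Ix e 0 p) k) *ᵥ cv x y =
    v2 (N *ᵥ x + th *ᵥ y) := by
  funext i
  rcases i with (i | i | i) | ((i | i) | i) <;>
    simp [BX, cv, v2, Matrix.mulVec, dotProduct, Fintype.sum_sum_type]

theorem BX_vecMul (nu : Matrix (Fin 0) (Fin 0) k) :
    cv x y ᵥ* (BX N M 0 0 w 0 0 nu 0 th 0 : Matrix (Ix e 0 p) (Ix e 0 p) k) =
    v0 (x ᵥ* N + y ᵥ* w) := by
  funext i
  rcases i with (i | i | i) | ((i | i) | i) <;>
    simp [BX, cv, v0, Matrix.vecMul, dotProduct, Fintype.sum_sum_type]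

theorem v2_zero : (v2 (0 : Fin e → k) : Ix e u p → k) = 0 := by
  funext i
  rcases i with (i | i | i) | ((i | i) | i) <;> simp [v2]

theorem v0_zero : (v0 (0 : Fin e → k) : Ix e u p → k) = 0 := by
  funext i
  rcases i with (i | i | i) | ((i | i) | i) <;> simp [v0]

theorem v2_ne {x : Fin e → k} (h : x ≠ 0) : (v2 x : Ix e u p → k) ≠ 0 := by
  intro h0
  exact h (funext fun i => congrFun h0 (.inl (.inr (.inr i))))

theorem v0_ne {x : Fin e → k} (h : x ≠ 0) : (v0 x : Ix e u p → k) ≠ 0 := by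
  intro h0
  exact h (funext fun i => congrFun h0 (.inl (.inl i)))

end Kernel

section Main

/-- two vectors with nonzero determinant span the plane -/
theorem eq_zero_of_two {k : Type*} [Field k] {f g r : Fin 2 → k} (hfg : f 0 * g 1 - f 1 * g 0 ≠ 0)
    (h1 : r ⬝ᵥ f = 0) (h2 : r ⬝ᵥ g = 0) : r = 0 := by
  simp only [dotProduct, Fin.sum_univ_two] at h1 h2
  have e0 : r 0 * (f 0 * g 1 - f 1 * g 0) = 0 := by linear_combination g 1 * h1 - f 1 * h2
  have e1 : r 1 * (f 0 * g 1 - f 1 * g 0) = 0 := by linear_combination f 0 * h2 - g 0 * h1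
  funext i
  fin_cases i
  · exact (mul_eq_zero.1 e0).resolve_right hfg
  · exact (mul_eq_zero.1 e1).resolve_right hfg

variable {k : Type*} [Field k] [CharZero k]

theorem main {ρ : ℕ → ℕ} (h3 : ρ 3 = 0)
    {N M N' M' : Matrix (Fin 2) (Fin 2) k} {w w' : Matrix (Fin 3) (Fin 2) k}
    {th th' : Matrix (Fin 2) (Fin 3) k}
    (hT : MaxR ρ ![JX k 2 0 3, BX N M 0 0 w 0 0 0 0 th 0, BX N' M' 0 0 w' 0 0 0 0 th' 0])
    (f g : Fin 2 → k) (hfg : f 0 * g 1 - f 1 * g 0 ≠ 0) (hw : w' *ᵥ f = w *ᵥ g)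
    (hd : ∀ y : Fin 3 → k, th *ᵥ y = 0 → th' *ᵥ y = 0 → y = 0)
    (hp : ∀ y : Fin 3 → k, y ᵥ* w = 0 → y ᵥ* w' = 0 → y = 0) : False := by
  -- the coefficients of `h = N' f - N g`
  obtain ⟨h1, h2, hh⟩ : ∃ h1 h2 : k, N' *ᵥ f - N *ᵥ g = h1 • f + h2 • g := by
    set h := N' *ᵥ f - N *ᵥ g with hh
    refine ⟨(h 0 * g 1 - h 1 * g 0) / (f 0 * g 1 - f 1 * g 0),
      (f 0 * h 1 - f 1 * h 0) / (f 0 * g 1 - f 1 * g 0), ?_⟩
    funext i
    fin_cases i
    · show h 0 = _ * f 0 + _ * g 0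
      rw [div_mul_eq_mul_div, div_mul_eq_mul_div, ← add_div, eq_div_iff hfg]
      ring
    · show h 1 = _ * f 1 + _ * g 1
      rw [div_mul_eq_mul_div, div_mul_eq_mul_div, ← add_div, eq_div_iff hfg]
      ring
  have hz : ∀ a : k, a • (1 : Matrix (Fin 0) (Fin 0) k) = 0 := fun a => Subsingleton.elim _ _
  have hL := D8.MaxR.lin hT 1 0 0 1 h2 0 (-h1) 0 (by norm_num)
  have hY : (1 : k) • BX N M 0 0 w 0 0 0 0 th 0 + (0 : k) • BX N' M' 0 0 w' 0 0 0 0 th' 0 +
      h2 • JX k 2 0 3 + (0 : k) • (JX k 2 0 3 * JX k 2 0 3) =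
      BX (N + h2 • 1) M 0 0 w 0 0 0 0 th 0 := by
    rw [one_smul, zero_smul, zero_smul, add_zero, add_zero, JX, BX_smul, BX_add]
    simp [hz]
  have hX : (0 : k) • BX N M 0 0 w 0 0 0 0 th 0 + (1 : k) • BX N' M' 0 0 w' 0 0 0 0 th' 0 +
      (-h1) • JX k 2 0 3 + (0 : k) • (JX k 2 0 3 * JX k 2 0 3) =
      BX (N' - h1 • 1) M' 0 0 w' 0 0 0 0 th' 0 := by
    rw [one_smul, zero_smul, zero_smul, add_zero, zero_add, JX, BX_smul, BX_add]
    simp [sub_eq_add_neg, hz]
  rw [hY, hX] at hL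
  set NY := N + h2 • (1 : Matrix (Fin 2) (Fin 2) k) with hNY
  set NX := N' - h1 • (1 : Matrix (Fin 2) (Fin 2) k) with hNX
  have hXY : NX *ᵥ f = NY *ᵥ g := by
    rw [hNX, hNY, Matrix.sub_mulVec, Matrix.add_mulVec, Matrix.smul_mulVec, Matrix.smul_mulVec,
      Matrix.one_mulVec, Matrix.one_mulVec]
    rw [sub_eq_iff_eq_add] at hh
    rw [hh]
    abel
  -- the vector
  obtain ⟨x, y, hxy, hE⟩ := exists_ker ![NX 0, NX 1, NY 0, NY 1] ![th' 0, th' 1, th 0, th 1]
  have hEX : NX *ᵥ x + th' *ᵥ y = 0 := by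
    funext i
    fin_cases i
    · exact hE 0
    · exact hE 1
  have hEY : NY *ᵥ x + th *ᵥ y = 0 := by
    funext i
    fin_cases i
    · exact hE 2
    · exact hE 3
  have hx : x ≠ 0 := by
    rintro rfl
    rw [Matrix.mulVec_zero, zero_add] at hEX hEY
    exact hxy.elim (fun h => h rfl) (fun h => h (hd y hEY hEX))
  -- the functional
  obtain ⟨φ, ψ, hphi, hF⟩ := exists_ker ![NX *ᵥ f, NX *ᵥ g, NY *ᵥ f, x]
    ![w' *ᵥ f, w' *ᵥ g, w *ᵥ f, y]
  have c0 : NX *ᵥ f ⬝ᵥ φ + w' *ᵥ f ⬝ᵥ ψ = 0 := hF 0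
  have c1 : NX *ᵥ g ⬝ᵥ φ + w' *ᵥ g ⬝ᵥ ψ = 0 := hF 1
  have c2 : NY *ᵥ f ⬝ᵥ φ + w *ᵥ f ⬝ᵥ ψ = 0 := hF 2
  have c3 : x ⬝ᵥ φ + y ⬝ᵥ ψ = 0 := hF 3
  have tr : ∀ (S : Matrix (Fin 2) (Fin 2) k) (v : Matrix (Fin 3) (Fin 2) k) (f : Fin 2 → k),
      (φ ᵥ* S + ψ ᵥ* v) ⬝ᵥ f = S *ᵥ f ⬝ᵥ φ + v *ᵥ f ⬝ᵥ ψ := by
    intro S v f
    rw [add_dotProduct, ← Matrix.dotProduct_mulVec, ← Matrix.dotProduct_mulVec,
      dotProduct_comm φ, dotProduct_comm ψ]
  have hFX : φ ᵥ* NX + ψ ᵥ* w' = 0 :=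
    eq_zero_of_two hfg ((tr _ _ _).trans c0) ((tr _ _ _).trans c1)
  have hFY : φ ᵥ* NY + ψ ᵥ* w = 0 := by
    refine eq_zero_of_two hfg ((tr _ _ _).trans c2) ((tr _ _ _).trans ?_)
    rw [← hXY, ← hw]
    exact c0
  have hφ : φ ≠ 0 := by
    rintro rfl
    rw [Matrix.zero_vecMul, zero_add] at hFX hFY
    exact hphi.elim (fun h => h rfl) (fun h => h (hp ψ hFY hFX))
  -- the square zero matrix
  set K : Matrix (Ix 2 0 3) (Ix 2 0 3) k := vecMulVec (cv x y) (cv φ ψ) with hK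
  set A := JX k 2 0 3 with hA
  set Y := (BX NY M 0 0 w 0 0 0 0 th 0 : Matrix (Ix 2 0 3) (Ix 2 0 3) k) with hYd
  set X := (BX NX M' 0 0 w' 0 0 0 0 th' 0 : Matrix (Ix 2 0 3) (Ix 2 0 3) k) with hXd
  have kXK : X * K = 0 := by
    rw [hK, hXd, Matrix.mul_vecMulVec, BX_mulVec, hEX, v2_zero, Matrix.zero_vecMulVec]
  have kYK : Y * K = 0 := by
    rw [hK, hYd, Matrix.mul_vecMulVec, BX_mulVec, hEY, v2_zero, Matrix.zero_vecMulVec]
  have kKX : K * X = 0 := by
    rw [hK, hXd, Matrix.vecMulVec_mul, BX_vecMul, hFX, v0_zero, Matrix.vecMulVec_zero]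
  have kKY : K * Y = 0 := by
    rw [hK, hYd, Matrix.vecMulVec_mul, BX_vecMul, hFY, v0_zero, Matrix.vecMulVec_zero]
  have kKK : K * K = 0 := by
    have e : (cv φ ψ : Ix 2 0 3 → k) ⬝ᵥ cv x y = 0 := by
      have : (cv φ ψ : Ix 2 0 3 → k) ⬝ᵥ cv x y = x ⬝ᵥ φ + y ⬝ᵥ ψ := by
        rw [dotProduct_comm]
        simp [cv, dotProduct, Fintype.sum_sum_type]
      rw [this, c3]
    rw [hK, Matrix.vecMulVec_mul_vecMulVec, e]
    simp
  have kAK : A * K = vecMulVec (v2 x) (cv φ ψ) := by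
    rw [hK, hA, JX, Matrix.mul_vecMulVec, BX_mulVec, Matrix.one_mulVec, Matrix.zero_mulVec,
      add_zero]
  have kKA : K * A = vecMulVec (cv x y) (v0 φ) := by
    rw [hK, hA, JX, Matrix.vecMulVec_mul, BX_vecMul, Matrix.vecMul_one, Matrix.vecMul_zero,
      add_zero]
  have kAKA : A * K * A = vecMulVec (v2 x) (v0 φ) := by
    rw [kAK, hA, JX, Matrix.vecMulVec_mul, BX_vecMul, Matrix.vecMul_one, Matrix.vecMul_zero,
      add_zero]
  have z1 : A * (A * K) = 0 := by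
    have e : (JX k 2 0 3) *ᵥ (v2 x : Ix 2 0 3 → k) = 0 := by
      funext i
      rcases i with (i | i | i) | ((i | i) | i) <;>
        simp [JX, BX, v2, Matrix.mulVec, dotProduct, Fintype.sum_sum_type]
    rw [kAK, Matrix.mul_vecMulVec, hA, e, Matrix.zero_vecMulVec]
  have z2 : K * A * A = 0 := by
    have e : (v0 φ : Ix 2 0 3 → k) ᵥ* (JX k 2 0 3) = 0 := by
      funext i
      rcases i with (i | i | i) | ((i | i) | i) <;>
        simp [JX, BX, v0, Matrix.vecMul, dotProduct, Fintype.sum_sum_type]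
    rw [kKA, Matrix.vecMulVec_mul, hA, e, Matrix.vecMulVec_zero]
  have z3 : K * A * K = 0 := by
    have e : (v0 φ : Ix 2 0 3 → k) ⬝ᵥ cv x y = 0 := by
      simp [v0, cv, dotProduct, Fintype.sum_sum_type]
    rw [kKA, hK, Matrix.vecMulVec_mul_vecMulVec, e]
    simp
  have z4 : A * A * A = 0 := by
    have := JX_cube (k := k) (e := 2) (u := 0) (p := 3)
    rwa [pow_succ, pow_two, ← hA] at this
  have cube : ∀ s : k, (A + s • K) ^ 3 = s • (A * K * A) := by
    intro s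
    have e : (A + s • K) ^ 3 = A * A * A + s • (A * (A * K)) + s • (A * K * A) +
        s • (K * A * A) + (s * s) • (A * (K * K)) + (s * s) • (K * A * K) +
        (s * s) • ((K * K) * A) + (s * s * s) • (K * K * K) := by
      simp only [pow_succ, pow_zero, one_mul, mul_add, add_mul, smul_mul_assoc, mul_smul_comm,
        smul_smul, smul_add, mul_assoc]
      abel
    rw [e, z1, z2, z3, z4, kKK]
    simp
  refine D8.MaxR.raise0 (D8.MaxR.swap hL) K 0 0 ?_ 3 h3 1 0 0 ?_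
  · intro s
    rw [smul_zero, add_zero, add_zero]
    refine D8.cn3 ?_ ?_ ?_ ?_ ?_ ?_
    · rw [add_mul, mul_add, smul_mul_assoc, mul_smul_comm, kKX, kXK, hA, hXd, JX_comm]
    · rw [add_mul, mul_add, smul_mul_assoc, mul_smul_comm, kKY, kYK, hA, hYd, JX_comm]
    · exact hL.cn.1 2 1
    · refine ⟨4, ?_⟩
      have e : A * K * A * A = 0 := by rw [mul_assoc, mul_assoc, ← mul_assoc K, z2, mul_zero]
      have e' : A * K * A * K = 0 := by rw [mul_assoc, mul_assoc, ← mul_assoc K, z3, mul_zero]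
      rw [pow_succ, cube, mul_add, smul_mul_assoc, e, smul_mul_assoc, mul_smul_comm, e']
      simp
    · exact BX_nil ..
    · exact BX_nil ..
  · refine Set.Infinite.mono (s := {0}ᶜ) (fun s hs => ?_)
      (Set.finite_singleton (0 : k)).infinite_compl
    rw [Set.mem_compl_singleton_iff] at hs
    show (_ : Matrix (Ix 2 0 3) (Ix 2 0 3) k) ^ 3 ≠ 0
    rw [one_smul, zero_smul, zero_smul, add_zero, add_zero, cube, kAKA]
    rw [Ne, smul_eq_zero, not_or]
    refine ⟨hs, fun h => ?_⟩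
    obtain ⟨i, hi⟩ := Function.ne_iff.1 (v2_ne (u := 0) (p := 3) hx)
    obtain ⟨j, hj⟩ := Function.ne_iff.1 (v0_ne (u := 0) (p := 3) hφ)
    have h5 := congrFun (congrFun h i) j
    rw [Matrix.vecMulVec_apply] at h5
    exact (mul_ne_zero hi hj) h5

end Main

section Poly

variable {k : Type*} [Field k]

theorem poly_mul {a b c : Type*} [Fintype b] {M : k → Matrix a b k} {N : k → Matrix b c k}
    (hM : ∀ x y, D7.IsPoly fun s => M s x y) (hN : ∀ x y, D7.IsPoly fun s => N s x y) :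
    ∀ x y, D7.IsPoly fun s => (M s * N s) x y := by
  intro x y
  choose p hp using hM
  choose q hq using hN
  refine ⟨∑ j, p x j * q j y, fun s => ?_⟩
  show (M s * N s) x y = _
  rw [Matrix.mul_apply, Polynomial.eval_finsetSum]
  refine Finset.sum_congr rfl fun j _ => ?_
  rw [Polynomial.eval_mul, ← hp, ← hq]

theorem poly_add {a b : Type*} {M N : k → Matrix a b k}
    (hM : ∀ x y, D7.IsPoly fun s => M s x y) (hN : ∀ x y, D7.IsPoly fun s => N s x y) :
    ∀ x y, D7.IsPoly fun s => (M s + N s) x y := fun x y => (hM x y).add (hN x y)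

theorem poly_sub {a b : Type*} {M N : k → Matrix a b k}
    (hM : ∀ x y, D7.IsPoly fun s => M s x y) (hN : ∀ x y, D7.IsPoly fun s => N s x y) :
    ∀ x y, D7.IsPoly fun s => (M s - N s) x y := fun x y => (hM x y).sub (hN x y)

theorem poly_const {a b : Type*} (M : Matrix a b k) : ∀ x y, D7.IsPoly fun _ : k => M x y :=
  fun x y => D7.IsPoly.const (M x y)

/-- the segment from `M` to `N` -/
theorem poly_seg {a b : Type*} (M N : Matrix a b k) :
    ∀ x y, D7.IsPoly fun s : k => ((1 - s) • M + s • N) x y := fun x y =>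
  (((D7.IsPoly.const 1).sub D7.IsPoly.id).mul (D7.IsPoly.const (M x y))).add
    (D7.IsPoly.id.mul (D7.IsPoly.const (N x y)))

theorem poly_BX {e p : ℕ} {N M : k → Matrix (Fin e) (Fin e) k} {w : k → Matrix (Fin p) (Fin e) k}
    {th : k → Matrix (Fin e) (Fin p) k}
    (hN : ∀ x y, D7.IsPoly fun s => N s x y) (hM : ∀ x y, D7.IsPoly fun s => M s x y)
    (hw : ∀ x y, D7.IsPoly fun s => w s x y) (hth : ∀ x y, D7.IsPoly fun s => th s x y) :
    ∀ x y, D7.IsPoly fun s =>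
      (BX (N s) (M s) 0 0 (w s) 0 0 0 0 (th s) 0 : Matrix (Ix e 0 p) (Ix e 0 p) k) x y := by
  intro x y
  rcases x with (i | i | i) | ((i | i) | i) <;> rcases y with (j | j | j) | ((j | j) | j) <;>
    first
      | exact hN i j
      | exact hM i j
      | exact hw i j
      | exact hth i j
      | exact D7.IsPoly.const 0

end Poly

/-- `E -> P`, the first two coordinates -/
def w1 (k : Type*) [Field k] : Matrix (Fin 3) (Fin 2) k := !![1, 0; 0, 1; 0, 0]

/-- `P -> E`, the first two coordinates -/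
def q1 (k : Type*) [Field k] : Matrix (Fin 2) (Fin 3) k := !![1, 0, 0; 0, 1, 0]

/-- the third coordinate of `P` -/
def d3 (k : Type*) [Field k] : Matrix (Fin 3) (Fin 3) k := !![0, 0, 0; 0, 0, 0; 0, 0, 1]

theorem q1_w1 (k : Type*) [Field k] : q1 k * w1 k = 1 := by
  ext i j
  fin_cases i <;> fin_cases j <;> simp [q1, w1, Matrix.mul_apply, Fin.sum_univ_three]

theorem d3_w1 (k : Type*) [Field k] : d3 k * w1 k = 0 := by
  ext i j
  fin_cases i <;> fin_cases j <;> simp [d3, w1, Matrix.mul_apply, Fin.sum_univ_three]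

theorem w1_q1 (k : Type*) [Field k] : w1 k * q1 k + d3 k = 1 := by
  ext i j
  fin_cases i <;> fin_cases j <;> simp [q1, d3, w1]

end N33111Aux

open N33111Aux in
theorem no_33111N {k : Type*} [Field k] [IsAlgClosed k] [CharZero k] {ρ : ℕ → ℕ} (h3 : ρ 3 = 0)
    {N M N' M' : Matrix (Fin 2) (Fin 2) k} {w' : Matrix (Fin 3) (Fin 2) k}
    {th th' : Matrix (Fin 2) (Fin 3) k}
    (hT : MaxR ρ ![JX k 2 0 3, BX N M 0 0 !![1, 0; 0, 1; 0, 0] 0 0 0 0 th 0,
      BX N' M' 0 0 w' 0 0 0 0 th' 0]) : False := by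
  have hT1 : MaxR ρ ![JX k 2 0 3, BX N M 0 0 (w1 k) 0 0 0 0 th 0,
      BX N' M' 0 0 w' 0 0 0 0 th' 0] := hT
  have rel : N * N' + th * w' = N' * N + th' * w1 k := by
    have h := ((BX_comm ..).1 (hT1.cn.1 1 2)).2.1
    simpa using h
  -- the family
  set Nf : k → Matrix (Fin 2) (Fin 2) k := fun s => (1 - s) • N + s • 0 with hNf
  set Mf : k → Matrix (Fin 2) (Fin 2) k := fun s => (1 - s) • M + s • 0 with hMf
  set Nf' : k → Matrix (Fin 2) (Fin 2) k := fun s => (1 - s) • N' + s • 0 with hNf'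
  set Mf' : k → Matrix (Fin 2) (Fin 2) k := fun s => (1 - s) • M' + s • 0 with hMf'
  set thf : k → Matrix (Fin 2) (Fin 3) k := fun s => (1 - s) • th + s • q1 k with hthf
  set wf : k → Matrix (Fin 3) (Fin 2) k := fun s => (1 - s) • w' + s • !![0, 0; 1, 0; 0, 1]
    with hwf
  set Rf : k → Matrix (Fin 2) (Fin 2) k := fun s => Nf s * Nf' s - Nf' s * Nf s + thf s * wf s
    with hRf
  set thf' : k → Matrix (Fin 2) (Fin 3) k := fun s =>
    Rf s * q1 k + ((1 - s) • th' + s • !![0, 0, 1; 0, 0, 0]) * d3 k with hthf'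
  have pN := poly_seg N 0
  have pM := poly_seg M 0
  have pN' := poly_seg N' 0
  have pM' := poly_seg M' 0
  have pth := poly_seg th (q1 k)
  have pw := poly_seg w' !![0, 0; 1, 0; 0, 1]
  have pR : ∀ x y, D7.IsPoly fun s => Rf s x y :=
    poly_add (poly_sub (poly_mul pN pN') (poly_mul pN' pN)) (poly_mul pth pw)
  have pth' : ∀ x y, D7.IsPoly fun s => thf' s x y :=
    poly_add (poly_mul pR (poly_const (q1 k)))
      (poly_mul (poly_seg th' !![0, 0, 1; 0, 0, 0]) (poly_const (d3 k)))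
  have hw1 : ∀ s, thf' s * w1 k = Rf s := by
    intro s
    rw [hthf']
    show (Rf s * q1 k + _ * d3 k) * w1 k = _
    rw [Matrix.add_mul, Matrix.mul_assoc, Matrix.mul_assoc, q1_w1, d3_w1, Matrix.mul_one,
      Matrix.mul_zero, add_zero]
  obtain ⟨E', hE', hgood⟩ := hT1.deform (fun s => ![JX k 2 0 3,
    BX (Nf s) (Mf s) 0 0 (w1 k) 0 0 0 0 (thf s) 0,
    BX (Nf' s) (Mf' s) 0 0 (wf s) 0 0 0 0 (thf' s) 0]) (by
      intro i
      fin_cases i
      · exact fun x y => D7.IsPoly.const _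
      · exact poly_BX pN pM (poly_const _) pth
      · exact poly_BX pN' pM' pw pth') (by
      have e1 : thf' 0 = th' := by
        rw [hthf']
        show Rf 0 * q1 k + ((1 - 0 : k) • th' + (0 : k) • _) * d3 k = th'
        have e2 : Rf 0 = th' * w1 k := by
          rw [hRf]
          simp only [hNf, hNf', hthf, hwf, sub_zero, one_smul, zero_smul, add_zero]
          rw [sub_add_eq_add_sub, rel]
          abel
        rw [e2, sub_zero, one_smul, zero_smul, add_zero, Matrix.mul_assoc, ← Matrix.mul_add,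
          w1_q1, Matrix.mul_one]
      have e3 : Nf 0 = N := by simp only [hNf, sub_zero, one_smul, zero_smul, add_zero]
      have e4 : Mf 0 = M := by simp only [hMf, sub_zero, one_smul, zero_smul, add_zero]
      have e5 : Nf' 0 = N' := by simp only [hNf', sub_zero, one_smul, zero_smul, add_zero]
      have e6 : Mf' 0 = M' := by simp only [hMf', sub_zero, one_smul, zero_smul, add_zero]
      have e7 : thf 0 = th := by simp only [hthf, sub_zero, one_smul, zero_smul, add_zero]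
      have e8 : wf 0 = w' := by simp only [hwf, sub_zero, one_smul, zero_smul, add_zero]
      show ![_, BX (Nf 0) (Mf 0) 0 0 (w1 k) 0 0 0 0 (thf 0) 0,
        BX (Nf' 0) (Mf' 0) 0 0 (wf 0) 0 0 0 0 (thf' 0) 0] = _
      rw [e1, e3, e4, e5, e6, e7, e8]) Set.finite_empty (by
      intro s _
      have e2 : Nf s * Nf' s + thf s * wf s = Nf' s * Nf s + thf' s * w1 k := by
        rw [hw1, hRf]
        show Nf s * Nf' s + thf s * wf s =
          Nf' s * Nf s + (Nf s * Nf' s - Nf' s * Nf s + thf s * wf s)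
        abel
      refine cnX _ _ _ _ _ _ _ _ _ _ _ _ _ _ _ _ _ _ _ _ _ _ (by simp) ?_ (by simp) (by simp)
        (by simp) (by simp) (by simp)
      rw [Matrix.zero_mul, add_zero, add_zero, add_zero, add_zero]
      exact e2)
  -- the three conditions
  have f1 : D7.IsPoly fun s => wf s 2 1 := pw 2 1
  have f2 : D7.IsPoly fun s => wf s 2 1 * (wf s 1 0 * wf s 2 1 + wf s 1 1 * -wf s 2 0) -
      -wf s 2 0 * (wf s 0 0 * wf s 2 1 + wf s 0 1 * -wf s 2 0) :=
    ((pw 2 1).mul (((pw 1 0).mul (pw 2 1)).add ((pw 1 1).mul (pw 2 0).neg))).sub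
      ((pw 2 0).neg.mul (((pw 0 0).mul (pw 2 1)).add ((pw 0 1).mul (pw 2 0).neg)))
  have f3 : D7.IsPoly fun s => thf s 0 0 * (thf s 1 1 * thf' s 0 2 - thf s 1 2 * thf' s 0 1) -
      thf s 0 1 * (thf s 1 0 * thf' s 0 2 - thf s 1 2 * thf' s 0 0) +
      thf s 0 2 * (thf s 1 0 * thf' s 0 1 - thf s 1 1 * thf' s 0 0) :=
    (((pth 0 0).mul (((pth 1 1).mul (pth' 0 2)).sub ((pth 1 2).mul (pth' 0 1)))).sub
      ((pth 0 1).mul (((pth 1 0).mul (pth' 0 2)).sub ((pth 1 2).mul (pth' 0 0))))).add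
      ((pth 0 2).mul (((pth 1 0).mul (pth' 0 1)).sub ((pth 1 1).mul (pth' 0 0))))
  have g1 := f1.finite (s₁ := 1) (by simp [hwf])
  have g2 := f2.finite (s₁ := 1) (by simp [hwf])
  have g3 := f3.finite (s₁ := 1) (by
    simp [hthf, hthf', hRf, hwf, hNf, hNf', q1, d3, Matrix.mul_apply, Fin.sum_univ_three,
      Fin.sum_univ_two])
  obtain ⟨s, hs⟩ := (((hE'.union g1).union g2).union g3).infinite_compl.nonempty
  simp only [Set.mem_compl_iff, Set.mem_union, not_or, Set.mem_ofPred_eq] at hs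
  obtain ⟨⟨⟨hs0, hs1⟩, hs2⟩, hs3⟩ := hs
  refine main h3 (hgood s hs0) ![wf s 2 1, -wf s 2 0]
    ![wf s 0 0 * wf s 2 1 + wf s 0 1 * -wf s 2 0, wf s 1 0 * wf s 2 1 + wf s 1 1 * -wf s 2 0]
    hs2 ?_ ?_ ?_
  · funext i
    fin_cases i
    · simp [w1, Matrix.mulVec, dotProduct, Fin.sum_univ_two]
    · simp [w1, Matrix.mulVec, dotProduct, Fin.sum_univ_two]
    · simp [w1, Matrix.mulVec, dotProduct, Fin.sum_univ_two]
      ring
  · intro y hy hy'
    have e0 := congrFun hy 0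
    have e1 := congrFun hy 1
    have e2 := congrFun hy' 0
    simp only [Matrix.mulVec, dotProduct, Fin.sum_univ_three, Pi.zero_apply] at e0 e1 e2
    funext i
    refine (mul_eq_zero.1 (?_ : _ * y i = 0)).resolve_left hs3
    fin_cases i
    · show _ * y 0 = 0
      linear_combination (thf s 1 1 * thf' s 0 2 - thf s 1 2 * thf' s 0 1) * e0 -
        (thf s 0 1 * thf' s 0 2 - thf s 0 2 * thf' s 0 1) * e1 +
        (thf s 0 1 * thf s 1 2 - thf s 0 2 * thf s 1 1) * e2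
    · show _ * y 1 = 0
      linear_combination -(thf s 1 0 * thf' s 0 2 - thf s 1 2 * thf' s 0 0) * e0 +
        (thf s 0 0 * thf' s 0 2 - thf s 0 2 * thf' s 0 0) * e1 -
        (thf s 0 0 * thf s 1 2 - thf s 0 2 * thf s 1 0) * e2
    · show _ * y 2 = 0
      linear_combination (thf s 1 0 * thf' s 0 1 - thf s 1 1 * thf' s 0 0) * e0 -
        (thf s 0 0 * thf' s 0 1 - thf s 0 1 * thf' s 0 0) * e1 +
        (thf s 0 0 * thf s 1 1 - thf s 0 1 * thf s 1 0) * e2
  · intro y hy hy'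
    have e0 := congrFun hy 0
    have e1 := congrFun hy 1
    have e2 := congrFun hy' 1
    simp only [w1, Matrix.vecMul, dotProduct, Fin.sum_univ_three, Pi.zero_apply] at e0 e1 e2
    have y0 : y 0 = 0 := by simpa using e0
    have y1 : y 1 = 0 := by simpa using e1
    rw [y0, y1, zero_mul, zero_mul, zero_add, zero_add] at e2
    have y2 : y 2 = 0 := (mul_eq_zero.1 e2).resolve_right hs1
    funext i
    fin_cases i
    exacts [y0, y1, y2]

end Pool.Agent.Lib.D9
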