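import Pool.Agent.Lib.D8.Degen
import Pool.Agent.Lib.D9.FamsB
import Pool.Agent.Lib.Q5dc.Tan
import Pool.Agent.Lib.TSQ.Toep

/-!
# MP_5dcbc3_ag: tools for the density theorems of the families `T1X q c` (9 x 9 matrices)

* `cl_base`: the base families are degenerations of curvilinear triples;
* `cl_act`: the group acting on `(r, g)`;
* `jet_r`, `jet_g`: first order terms of the curves;
* `cl_all`: the final tangent cone argument.
-/

namespace Pool.Agent.Lib.D9

open Matrix Pool.Agent.Lib.Q5dc Pool.Agent.Lib.D7 Pool.Agent.Lib.D8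

variable {k : Type*} [Field k] {q c : ℕ}

namespace T1XG

/-- index type -/
abbrev NX (q c : ℕ) := Fin 1 ⊕ ((Fin 3 ⊕ Fin q) ⊕ Fin c)

/-- the unit vector `1 = t^0` -/
def e0 : Fin 9 → k := Pi.single 0 1

/-- vectors of weight at most one -/
def low (x : Fin 3 → Fin 9 → k) (y : Fin q → Fin 9 → k) : Fin 1 ⊕ (Fin 3 ⊕ Fin q) → Fin 9 → k :=
  Sum.elim (fun _ => e0) (Sum.elim x y)

/-- all basis vectors -/
def bV (x : Fin 3 → Fin 9 → k) (y : Fin q → Fin 9 → k) (t : Fin c → Fin 9 → k) :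
    NX q c → Fin 9 → k :=
  Sum.elim (fun _ => e0) (Sum.elim (Sum.elim x y) t)

/-- weights -/
def wX : NX q c → ℕ := Sum.elim (fun _ => 0) (Sum.elim (fun _ => 1) (fun _ => 2))

/-- Toeplitz matrices are polynomials in the shift -/
theorem toep_poly (u : Fin 9 → k) : ∃ p : Polynomial k, p.coeff 0 = 0 ∧
    Matrix.toLinAlgEquiv' (TSQ.toep u) =
      Polynomial.aeval (Matrix.toLinAlgEquiv' (TSQ.Jp k 9 1) : Module.End k (Fin 9 → k)) p := by
  refine ⟨∑ m : Fin 9, Polynomial.C (u m) * Polynomial.X ^ ((m : ℕ) + 1), ?_, ?_⟩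
  · rw [Polynomial.finsetSum_coeff]
    refine Finset.sum_eq_zero fun m _ => ?_
    rw [Polynomial.coeff_C_mul, Polynomial.coeff_X_pow, if_neg (by omega), mul_zero]
  · have hJ : ∀ n : ℕ, TSQ.Jp k 9 1 ^ n = TSQ.Jp k 9 n := by
      intro n
      induction n with
      | zero => rw [pow_zero, TSQ.Jp_zero]
      | succ n ih => rw [pow_succ, ih, TSQ.Jp_mul]
    rw [map_sum]
    simp only [TSQ.toep, map_sum, map_smul, map_mul, Polynomial.aeval_C, map_pow,
      Polynomial.aeval_X, Algebra.algebraMap_eq_smul_one, smul_mul_assoc, one_mul]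
    refine Finset.sum_congr rfl fun m _ => ?_
    rw [← map_pow, hJ]

theorem cl_base [Infinite k] (hc : 4 + q + c = 9) (cx : Fin 3 → Fin 9 → k)
    (x : Fin 3 → Fin 9 → k) (y : Fin q → Fin 9 → k) (t : Fin c → Fin 9 → k)
    (hx : ∀ i, TSQ.toep (cx i) *ᵥ e0 = x i)
    (hs : ⊤ ≤ Submodule.span k (Set.range (bV x y t)))
    (r : Fin 6 × Fin c → k) (g : Fin 3 × Fin q × Fin c → k)
    (h1 : ∀ i j, TSQ.toep (cx i) *ᵥ x j - ∑ m, r (ix i j, m) • t m ∈
      Submodule.span k (Set.range (low x y)))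
    (h2 : ∀ i l, TSQ.toep (cx i) *ᵥ y l - ∑ m, g (i, l, m) • t m ∈
      Submodule.span k (Set.range (low x y))) :
    Cl (T1X q c r g) := by
  classical
  have hcard : Fintype.card (NX q c) = 9 := by
    simp only [NX, Fintype.card_sum, Fintype.card_fin]
    omega
  have hlow : ∀ v ∈ Submodule.span k (Set.range (low x y)),
      ((v, 0) : (Fin 9 → k) × (NX q c → k)) ∈
        Dm (k := k) (bV x y t) (fun a => Pi.single a (1 : k)) wX 2 := by
    intro v hv
    have h3 : Submodule.span k (Set.range (low x y)) ≤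
        (Dm (k := k) (bV x y t) (fun a : NX q c => Pi.single a (1 : k)) wX 2).comap
          (LinearMap.inl k _ _) := by
      refine Submodule.span_le.2 ?_
      rintro _ ⟨a, rfl⟩
      rcases a with a | a | a
      · exact Dm_lt (w := wX) (a := (Sum.inl a : NX q c)) (bV x y t) _ (by simp [wX])
      · exact Dm_lt (w := wX) (a := (Sum.inr (Sum.inl (Sum.inl a)) : NX q c)) (bV x y t) _
          (by simp [wX])
      · exact Dm_lt (w := wX) (a := (Sum.inr (Sum.inl (Sum.inr a)) : NX q c)) (bV x y t) _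
          (by simp [wX])
    exact h3 hv
  have hall : ∀ v : Fin 9 → k, ((v, 0) : (Fin 9 → k) × (NX q c → k)) ∈
      Dm (k := k) (bV x y t) (fun a => Pi.single a (1 : k)) wX 3 := by
    intro v
    have h3 : Submodule.span k (Set.range (bV x y t)) ≤
        (Dm (k := k) (bV x y t) (fun a : NX q c => Pi.single a (1 : k)) wX 3).comap
          (LinearMap.inl k _ _) := by
      refine Submodule.span_le.2 ?_
      rintro _ ⟨a, rfl⟩
      refine Dm_lt (w := wX) (a := a) (bV x y t) _ ?_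
      rcases a with a | a | a <;> simp [wX]
    exact h3 (hs (Submodule.mem_top))
  have hmid : ∀ (v : Fin 9 → k) (z : Fin c → k),
      v - ∑ m, z m • t m ∈ Submodule.span k (Set.range (low x y)) →
      ((v, ∑ m, z m • Pi.single (Sum.inr (Sum.inr m)) (1 : k)) :
        (Fin 9 → k) × (NX q c → k)) ∈
        Dm (k := k) (bV x y t) (fun a => Pi.single a (1 : k)) wX 2 := by
    intro v z hv
    have h4 := add_mem (hlow _ hv) (Submodule.sum_mem _ fun m (_ : m ∈ Finset.univ) =>
      Submodule.smul_mem _ (z m) (Dm_eq (k := k) (w := wX) (m := 2)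
        (a := (Sum.inr (Sum.inr m) : NX q c)) (bV x y t) (fun a => Pi.single a (1 : k))
        (by simp [wX])))
    have h5 : ((v - ∑ m, z m • t m, 0) : (Fin 9 → k) × (NX q c → k)) +
        ∑ m, z m • ((bV x y t (Sum.inr (Sum.inr m)), Pi.single (Sum.inr (Sum.inr m)) (1 : k)) :
          (Fin 9 → k) × (NX q c → k)) =
        (v, ∑ m, z m • Pi.single (Sum.inr (Sum.inr m)) (1 : k)) := by
      refine Prod.ext ?_ ?_
      · rw [Prod.fst_add, Prod.fst_sum]
        simp only [Prod.smul_fst]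
        exact sub_add_cancel _ _
      · rw [Prod.snd_add, Prod.snd_sum]
        simp only [Prod.smul_snd]
        rw [zero_add]
    rw [h5] at h4
    exact h4
  have key := cl_deg (κ := Fin 3) (n := NX q c) (ι := NX q c) (V := Fin 9 → k)
    (Matrix.toLinAlgEquiv' (TSQ.Jp k 9 1))
    (by
      rw [hcard, ← map_pow]
      have h3 : TSQ.Jp k 9 1 ^ 9 = 0 := by
        have h4 := TSQ.toep_nilp (k := k) (d := 9) (Pi.single 0 1)
        have h5 : TSQ.toep (Pi.single 0 1 : Fin 9 → k) = TSQ.Jp k 9 1 := by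
          rw [TSQ.toep, Finset.sum_eq_single 0]
          · simp
          · intro b _ hb
            rw [Pi.single_eq_of_ne hb, zero_smul]
          · intro h; exact absurd (Finset.mem_univ _) h
        rwa [h5] at h4
      rw [h3, map_zero])
    (by
      rw [hcard, ← map_pow]
      intro h
      have h3 : TSQ.Jp k 9 1 ^ 8 = 0 :=
        Matrix.toLinAlgEquiv'.injective (by rw [map_zero]; exact h)
      have h5 : TSQ.toep (Pi.single 0 1 : Fin 9 → k) = TSQ.Jp k 9 1 := by
        rw [TSQ.toep, Finset.sum_eq_single 0]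
        · simp
        · intro b _ hb
          rw [Pi.single_eq_of_ne hb, zero_smul]
        · intro h; exact absurd (Finset.mem_univ _) h
      refine TSQ.toep_pow_ne (k := k) (d := 9) (by norm_num) (Pi.single 0 1) (by simp) ?_
      rw [h5]
      exact h3)
    (by rw [Module.finrank_fintype_fun_eq_card, hcard, Fintype.card_fin])
    (bV x y t) hs rfl (fun a => Pi.single a (1 : k)) ?_
    (fun i => Matrix.toLinAlgEquiv' (TSQ.toep (cx i))) (fun i => toep_poly (cx i))
    (fun _ => 1) wX (T1X q c r g) ?_ (fun i j => if i = j then 1 else 0)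
  · have h3 : (fun i => ∑ j, (if i = j then (1 : k) else 0) • T1X q c r g j) = T1X q c r g := by
      funext i
      simp
    rw [h3] at key
    exact key
  · intro v _
    have h3 : v = ∑ a, v a • (Pi.single a (1 : k) : NX q c → k) := by
      funext a
      simp [Finset.sum_apply, Pi.single_apply]
    rw [h3]
    exact Submodule.sum_mem _ fun a _ => Submodule.smul_mem _ _ (Submodule.subset_span ⟨a, rfl⟩)
  · rintro i (j | (j | j) | j)
    · have h3 : T1X q c r g i *ᵥ Pi.single (Sum.inl j) 1 =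
          Pi.single (Sum.inr (Sum.inl (Sum.inl i))) 1 := by
        rw [Matrix.mulVec_single_one]
        funext a
        rcases a with a | (a | a) | a <;> simp [T1X, Matrix.col, Pi.single_apply]
      show ((TSQ.toep (cx i) *ᵥ e0, T1X q c r g i *ᵥ Pi.single (Sum.inl j) 1) :
        (Fin 9 → k) × (NX q c → k)) ∈ _
      rw [h3, hx]
      exact Dm_eq (k := k) (w := wX) (m := 1) (a := (Sum.inr (Sum.inl (Sum.inl i)) : NX q c))
        (bV x y t) (fun a => Pi.single a (1 : k)) (by simp [wX])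
    · have h3 : T1X q c r g i *ᵥ Pi.single (Sum.inr (Sum.inl (Sum.inl j))) 1 =
          ∑ m, r (ix i j, m) • Pi.single (Sum.inr (Sum.inr m)) (1 : k) := by
        rw [Matrix.mulVec_single_one]
        funext a
        rcases a with a | (a | a) | a <;> simp [T1X, Matrix.col, Finset.sum_apply, Pi.single_apply]
      show ((TSQ.toep (cx i) *ᵥ x j,
        T1X q c r g i *ᵥ Pi.single (Sum.inr (Sum.inl (Sum.inl j))) 1) :
        (Fin 9 → k) × (NX q c → k)) ∈ _
      rw [h3]
      exact hmid _ _ (h1 i j)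
    · have h3 : T1X q c r g i *ᵥ Pi.single (Sum.inr (Sum.inl (Sum.inr j))) 1 =
          ∑ m, g (i, j, m) • Pi.single (Sum.inr (Sum.inr m)) (1 : k) := by
        rw [Matrix.mulVec_single_one]
        funext a
        rcases a with a | (a | a) | a <;> simp [T1X, Matrix.col, Finset.sum_apply, Pi.single_apply]
      show ((TSQ.toep (cx i) *ᵥ y j,
        T1X q c r g i *ᵥ Pi.single (Sum.inr (Sum.inl (Sum.inr j))) 1) :
        (Fin 9 → k) × (NX q c → k)) ∈ _
      rw [h3]
      exact hmid _ _ (h2 i j)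
    · have h3 : T1X q c r g i *ᵥ Pi.single (Sum.inr (Sum.inr j)) 1 = 0 := by
        rw [Matrix.mulVec_single_one]
        funext a
        rcases a with a | (a | a) | a <;> simp [T1X, Matrix.col]
      show ((TSQ.toep (cx i) *ᵥ t j, T1X q c r g i *ᵥ Pi.single (Sum.inr (Sum.inr j)) 1) :
        (Fin 9 → k) × (NX q c → k)) ∈ _
      rw [h3]
      exact hall _

/-! ### the group -/

/-- first index of a pair -/
def i1 : Fin 6 → Fin 3 := ![0, 0, 0, 1, 1, 2]

/-- second index of a pair -/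
def i2 : Fin 6 → Fin 3 := ![0, 1, 2, 1, 2, 2]

theorem ix_i (p : Fin 6) : ix (i1 p) (i2 p) = p := by
  fin_cases p <;> rfl

theorem ix_comm (i j : Fin 3) : ix i j = ix j i := by
  fin_cases i <;> fin_cases j <;> rfl

theorem i_ix (i j : Fin 3) : (i1 (ix i j) = i ∧ i2 (ix i j) = j) ∨ (i1 (ix i j) = j ∧ i2 (ix i j) = i) := by
  fin_cases i <;> fin_cases j <;> simp [ix, i1, i2]

/-- action on `r` -/
def ar (h : Matrix (Fin 3) (Fin 3) k) (m : Matrix (Fin c) (Fin c) k) (r : Fin 6 × Fin c → k)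
    (p : Fin 6 × Fin c) : k :=
  ∑ m', m p.2 m' * ∑ a, ∑ b, h a (i1 p.1) * h b (i2 p.1) * r (ix a b, m')

/-- action on `g` -/
def ag (h : Matrix (Fin 3) (Fin 3) k) (u : Matrix (Fin 3) (Fin q) k) (l : Matrix (Fin q) (Fin q) k)
    (m : Matrix (Fin c) (Fin c) k) (r : Fin 6 × Fin c → k) (g : Fin 3 × Fin q × Fin c → k)
    (p : Fin 3 × Fin q × Fin c) : k :=
  ∑ m', m p.2.2 m' * ∑ a, h a p.1 *
    ((∑ b, r (ix a b, m') * u b p.2.1) + ∑ b, g (a, b, m') * l b p.2.1)

/-- unit column -/
def dl (i : Fin 3) : Matrix (Fin 3) (Fin 1) k := Matrix.of fun a _ => if a = i then 1 else 0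

/-- the matrix `e_j ↦ X_i e_j` -/
def Rm (r : Fin 6 × Fin c → k) (i : Fin 3) : Matrix (Fin c) (Fin 3) k :=
  Matrix.of fun m j => r (ix i j, m)

/-- the matrix `q_l ↦ X_i q_l` -/
def Gm (g : Fin 3 × Fin q × Fin c → k) (i : Fin 3) : Matrix (Fin c) (Fin q) k :=
  Matrix.of fun m l => g (i, l, m)

theorem T1X_eq (r : Fin 6 × Fin c → k) (g : Fin 3 × Fin q × Fin c → k) (i : Fin 3) :
    T1X q c r g i = fromBlocks 0 0 (fromRows (fromRows (dl i) 0) 0)
      (fromBlocks 0 0 (fromCols (Rm r i) (Gm g i)) 0) := by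
  ext x y
  rcases x with x | (x | x) | x <;> rcases y with y | (y | y) | y <;>
    simp [T1X, dl, Rm, Gm]

theorem sum_T1X (z : Fin 3 → k) (r : Fin 6 × Fin c → k) (g : Fin 3 × Fin q × Fin c → k) :
    ∑ a, z a • T1X q c r g a = fromBlocks 0 0
      (fromRows (fromRows (Matrix.of fun a _ => z a) 0) 0)
      (fromBlocks 0 0 (fromCols (∑ a, z a • Rm r a) (∑ a, z a • Gm g a)) 0) := by
  ext x y
  simp only [Matrix.sum_apply, Matrix.smul_apply, smul_eq_mul]
  rcases x with x | (x | x) | x <;> rcases y with y | (y | y) | y <;>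
    simp [T1X, Rm, Gm, Matrix.sum_apply]

/-- block matrix of the change of basis -/
def Db (h : Matrix (Fin 3) (Fin 3) k) (u : Matrix (Fin 3) (Fin q) k) (l : Matrix (Fin q) (Fin q) k)
    (m : Matrix (Fin c) (Fin c) k) : Matrix (NX q c) (NX q c) k :=
  fromBlocks 1 0 0 (fromBlocks (fromBlocks h u 0 l) 0 0 m)

theorem Db_mul {h h' : Matrix (Fin 3) (Fin 3) k} {u u' : Matrix (Fin 3) (Fin q) k}
    {l l' : Matrix (Fin q) (Fin q) k} {m m' : Matrix (Fin c) (Fin c) k}
    (hh : h * h' = 1) (hl : l * l' = 1) (hm : m * m' = 1) (hu : h * u' + u * l' = 0) :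
    Db h u l m * Db h' u' l' m' = 1 := by
  simp only [Db, fromBlocks_multiply, Matrix.mul_zero, Matrix.zero_mul, add_zero, zero_add,
    Matrix.mul_one, hh, hl, hm, hu]
  simp only [fromBlocks_one]

theorem mul_dl (h : Matrix (Fin 3) (Fin 3) k) (i : Fin 3) :
    h * (dl i : Matrix (Fin 3) (Fin 1) k) = Matrix.of fun a _ => h a i := by
  ext a b
  rw [Matrix.mul_apply]
  simp [dl]

theorem Rm_ar (h : Matrix (Fin 3) (Fin 3) k) (m : Matrix (Fin c) (Fin c) k)
    (r : Fin 6 × Fin c → k) (i : Fin 3) :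
    Rm (ar h m r) i = m * ((∑ a, h a i • Rm r a) * h) := by
  have hsym : ∀ (i j : Fin 3) (m' : Fin c), (∑ a, ∑ b, h a i * h b j * r (ix a b, m')) =
      ∑ a, ∑ b, h a j * h b i * r (ix a b, m') := by
    intro i j m'
    rw [Finset.sum_comm]
    refine Finset.sum_congr rfl fun a _ => Finset.sum_congr rfl fun b _ => ?_
    rw [ix_comm b a]
    ring
  ext m1 j
  rw [Matrix.mul_apply]
  show ar h m r (ix i j, m1) = _
  rw [ar]
  refine Finset.sum_congr rfl fun m' _ => ?_
  congr 1
  have h1 : (∑ a, ∑ b, h a (i1 (ix i j)) * h b (i2 (ix i j)) * r (ix a b, m')) =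
      ∑ a, ∑ b, h a i * h b j * r (ix a b, m') := by
    rcases i_ix i j with ⟨h1, h2⟩ | ⟨h1, h2⟩
    · rw [h1, h2]
    · rw [h1, h2, hsym]
  show (∑ a, ∑ b, h a (i1 (ix i j)) * h b (i2 (ix i j)) * r (ix a b, m')) = _
  rw [h1, Matrix.mul_apply, Finset.sum_comm]
  refine Finset.sum_congr rfl fun b _ => ?_
  rw [Matrix.sum_apply, Finset.sum_mul]
  refine Finset.sum_congr rfl fun a _ => ?_
  simp only [Matrix.smul_apply, Rm, Matrix.of_apply, smul_eq_mul]
  ring

theorem Gm_ag (h : Matrix (Fin 3) (Fin 3) k) (u : Matrix (Fin 3) (Fin q) k)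
    (l : Matrix (Fin q) (Fin q) k) (m : Matrix (Fin c) (Fin c) k)
    (r : Fin 6 × Fin c → k) (g : Fin 3 × Fin q × Fin c → k) (i : Fin 3) :
    Gm (ag h u l m r g) i = m * ((∑ a, h a i • Rm r a) * u + (∑ a, h a i • Gm g a) * l) := by
  ext m1 j
  rw [Matrix.mul_apply]
  show ag h u l m r g (i, j, m1) = _
  rw [ag]
  refine Finset.sum_congr rfl fun m' _ => ?_
  congr 1
  rw [Matrix.add_apply, Matrix.mul_apply, Matrix.mul_apply]
  simp only [Matrix.sum_apply, Matrix.smul_apply, Rm, Gm, Matrix.of_apply, smul_eq_mul,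
    Finset.sum_mul, mul_add, Finset.sum_add_distrib, Finset.mul_sum]
  congr 1
  · rw [Finset.sum_comm]
    refine Finset.sum_congr rfl fun a _ => Finset.sum_congr rfl fun b _ => ?_
    ring
  · rw [Finset.sum_comm]
    refine Finset.sum_congr rfl fun a _ => Finset.sum_congr rfl fun b _ => ?_
    ring

theorem cl_act {r : Fin 6 × Fin c → k} {g : Fin 3 × Fin q × Fin c → k}
    (hT : Cl (T1X q c r g)) (h : Matrix (Fin 3) (Fin 3) k) (u : Matrix (Fin 3) (Fin q) k)
    (l : Matrix (Fin q) (Fin q) k) (m : Matrix (Fin c) (Fin c) k)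
    (hh : h.det ≠ 0) (hl : l.det ≠ 0) (hm : m.det ≠ 0) :
    Cl (T1X q c (ar h m r) (ag h u l m r g)) := by
  have h1 : Cl (fun i => ∑ j, h j i • T1X q c r g j) :=
    cl_of_adj (fun i => sum_mem fun j _ => SMulMemClass.smul_mem _ (mem_adj _ j)) hT
  have hh1 : h * h⁻¹ = 1 := Matrix.mul_nonsing_inv _ (isUnit_iff_ne_zero.2 hh)
  have hl1 : l * l⁻¹ = 1 := Matrix.mul_nonsing_inv _ (isUnit_iff_ne_zero.2 hl)
  have hm1 : m * m⁻¹ = 1 := Matrix.mul_nonsing_inv _ (isUnit_iff_ne_zero.2 hm)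
  have hm2 : m⁻¹ * m = 1 := Matrix.nonsing_inv_mul _ (isUnit_iff_ne_zero.2 hm)
  have hD : Db h u l m⁻¹ * Db h⁻¹ (-(h⁻¹ * u * l⁻¹)) l⁻¹ m = 1 := by
    refine Db_mul hh1 hl1 hm2 ?_
    rw [Matrix.mul_neg, ← Matrix.mul_assoc, ← Matrix.mul_assoc, hh1, Matrix.one_mul,
      neg_add_cancel]
  have hD' := mul_eq_one_comm.1 hD
  have h2 := Cl.conj _ _ hD' hD h1
  have h3 : (fun i => Db h⁻¹ (-(h⁻¹ * u * l⁻¹)) l⁻¹ m * (∑ j, h j i • T1X q c r g j) *
      Db h u l m⁻¹) = T1X q c (ar h m r) (ag h u l m r g) := by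
    funext i
    have h4 : Db h u l m⁻¹ * T1X q c (ar h m r) (ag h u l m r g) i =
        (∑ j, h j i • T1X q c r g j) * Db h u l m⁻¹ := by
      rw [sum_T1X, T1X_eq, Db, Rm_ar, Gm_ag]
      simp only [fromBlocks_multiply, Matrix.mul_zero, Matrix.zero_mul, add_zero, zero_add,
        Matrix.mul_one, fromBlocks_mul_fromRows, fromCols_mul_fromBlocks, mul_fromCols, mul_dl,
        ← Matrix.mul_assoc, hm2, Matrix.one_mul]
    rw [Matrix.mul_assoc, ← h4, ← Matrix.mul_assoc, hD', Matrix.one_mul]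
  rwa [h3] at h2

/-! ### jets -/

/-- `f s = a + b s + O(s ^ 2)` -/
def J (f : k → k) (a b : k) : Prop :=
  ∃ w : Polynomial k, ∀ s, f s = a + s * b + s ^ 2 * w.eval s

theorem J.line (a b : k) : J (fun s => a + s * b) a b := ⟨0, fun s => by simp⟩

theorem J.const (a : k) : J (fun _ => a) a 0 := ⟨0, fun s => by simp⟩

theorem J.lin (b : k) : J (fun s => s * b) 0 b := ⟨0, fun s => by simp⟩

theorem J.add {f g : k → k} {a b a' b' : k} (hf : J f a b) (hg : J g a' b') :
    J (fun s => f s + g s) (a + a') (b + b') := by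
  obtain ⟨w, hw⟩ := hf
  obtain ⟨w', hw'⟩ := hg
  exact ⟨w + w', fun s => by dsimp only; rw [hw, hw', Polynomial.eval_add]; ring⟩

theorem J.neg {f : k → k} {a b : k} (hf : J f a b) : J (fun s => -f s) (-a) (-b) := by
  obtain ⟨w, hw⟩ := hf
  exact ⟨-w, fun s => by dsimp only; rw [hw, Polynomial.eval_neg]; ring⟩

theorem J.sub {f g : k → k} {a b a' b' : k} (hf : J f a b) (hg : J g a' b') :
    J (fun s => f s - g s) (a - a') (b - b') := by
  obtain ⟨w, hw⟩ := hf
  obtain ⟨w', hw'⟩ := hg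
  exact ⟨w - w', fun s => by dsimp only; rw [hw, hw', Polynomial.eval_sub]; ring⟩

theorem J.mul {f g : k → k} {a b a' b' : k} (hf : J f a b) (hg : J g a' b') :
    J (fun s => f s * g s) (a * a') (a * b' + b * a') := by
  obtain ⟨w, hw⟩ := hf
  obtain ⟨w', hw'⟩ := hg
  refine ⟨Polynomial.C (b * b') + (Polynomial.C a + Polynomial.X * Polynomial.C b) * w' +
    (Polynomial.C a' + Polynomial.X * Polynomial.C b') * w + Polynomial.X ^ 2 * w * w',
    fun s => ?_⟩
  dsimp only
  rw [hw, hw']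
  simp only [Polynomial.eval_add, Polynomial.eval_mul, Polynomial.eval_C, Polynomial.eval_X,
    Polynomial.eval_pow]
  ring

theorem J.congr {f : k → k} {a b a' b' : k} (hf : J f a b) (ha : a = a') (hb : b = b') :
    J f a' b' := by
  subst ha hb
  exact hf

theorem J.congr' {f g : k → k} {a b a' b' : k} (hf : J f a b) (h : ∀ s, g s = f s) (ha : a = a')
    (hb : b = b') : J g a' b' := by
  subst ha hb
  have h1 : g = f := funext h
  rwa [h1]

/-- products of two lines, with a constant and a linear term -/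
theorem J.quad (a b d : k) : J (fun s => a + s * b + s ^ 2 * d) a b :=
  ⟨Polynomial.C d, fun s => by rw [Polynomial.eval_C]⟩

/-- the general form -/
theorem J.quad' {f : k → k} (a b : k) (w : Polynomial k)
    (h : ∀ s, f s = a + s * b + s ^ 2 * w.eval s) : J f a b := ⟨w, h⟩

theorem J.sum {ι : Type*} (t : Finset ι) {f : ι → k → k} {a b : ι → k}
    (h : ∀ i, J (f i) (a i) (b i)) :
    J (fun s => ∑ i ∈ t, f i s) (∑ i ∈ t, a i) (∑ i ∈ t, b i) := by
  classical
  induction t using Finset.induction_on with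
  | empty => exact (J.const 0).congr' (fun s => by simp) (by simp) (by simp)
  | insert x t hx ih =>
    exact ((h x).add ih).congr' (fun s => by rw [Finset.sum_insert hx])
      (by rw [Finset.sum_insert hx]) (by rw [Finset.sum_insert hx])

theorem J.one {n : Type*} [DecidableEq n] (A : Matrix n n k) (i j : n) :
    J (fun s => (1 + s • A) i j) (if i = j then 1 else 0) (A i j) :=
  (J.line (if i = j then 1 else 0) (A i j)).congr'
    (fun s => by rw [Matrix.add_apply, Matrix.smul_apply, Matrix.one_apply, smul_eq_mul]) rfl rfl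

theorem J.smat {m n : Type*} (A : Matrix m n k) (i : m) (j : n) :
    J (fun s => (s • A) i j) 0 (A i j) :=
  (J.lin (A i j)).congr' (fun s => by rw [Matrix.smul_apply, smul_eq_mul]) rfl rfl

theorem jet_r {r : k → Fin 6 × Fin c → k} {r0 dr : Fin 6 × Fin c → k}
    (hr : ∀ x, J (fun s => r s x) (r0 x) (dr x)) (A : Matrix (Fin 3) (Fin 3) k)
    (H : Matrix (Fin c) (Fin c) k) (p : Fin 6 × Fin c) :
    J (fun s => ar (1 + s • A) (1 + s • H) (r s) p) (r0 p)
      (dr p + ∑ m', H p.2 m' * r0 (p.1, m') + ∑ a, A a (i1 p.1) * r0 (ix a (i2 p.1), p.2) +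
        ∑ b, A b (i2 p.1) * r0 (ix (i1 p.1) b, p.2)) := by
  have h1 := J.sum Finset.univ fun m' : Fin c => (J.one H p.2 m').mul
    (J.sum Finset.univ fun a : Fin 3 => J.sum Finset.univ fun b : Fin 3 =>
      ((J.one A a (i1 p.1)).mul (J.one A b (i2 p.1))).mul (hr (ix a b, m')))
  refine h1.congr ?_ ?_
  · simp [ix_i]
  · simp only [add_mul, mul_add, Finset.sum_add_distrib, Finset.mul_sum, ite_mul, mul_ite, one_mul,
      mul_one, zero_mul, mul_zero, Finset.sum_ite_irrel, Finset.sum_const_zero, Finset.sum_ite_eq,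
      Finset.sum_ite_eq', Finset.mem_univ, if_true, ix_i]
    ring

theorem jet_g {r : k → Fin 6 × Fin c → k} {r0 dr : Fin 6 × Fin c → k}
    (hr : ∀ x, J (fun s => r s x) (r0 x) (dr x))
    {g : k → Fin 3 × Fin q × Fin c → k} {g0 dg : Fin 3 × Fin q × Fin c → k}
    (hg : ∀ x, J (fun s => g s x) (g0 x) (dg x))
    (A : Matrix (Fin 3) (Fin 3) k) (K : Matrix (Fin 3) (Fin q) k) (Q : Matrix (Fin q) (Fin q) k)
    (H : Matrix (Fin c) (Fin c) k) (p : Fin 3 × Fin q × Fin c) :
    J (fun s => ag (1 + s • A) (s • K) (1 + s • Q) (1 + s • H) (r s) (g s) p) (g0 p)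
      (dg p + ∑ m', H p.2.2 m' * g0 (p.1, p.2.1, m') + ∑ a, A a p.1 * g0 (a, p.2.1, p.2.2) +
        ∑ b, K b p.2.1 * r0 (ix p.1 b, p.2.2) + ∑ b, Q b p.2.1 * g0 (p.1, b, p.2.2)) := by
  have h1 := J.sum Finset.univ fun m' : Fin c => (J.one H p.2.2 m').mul
    (J.sum Finset.univ fun a : Fin 3 => (J.one A a p.1).mul
      ((J.sum Finset.univ fun b : Fin 3 => (hr (ix a b, m')).mul (J.smat K b p.2.1)).add
        (J.sum Finset.univ fun b : Fin q => (hg (a, b, m')).mul (J.one Q b p.2.1))))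
  refine h1.congr ?_ ?_
  · simp
  · simp only [mul_add, Finset.sum_add_distrib, Finset.mul_sum, ite_mul, mul_ite, one_mul,
      mul_one, zero_mul, mul_zero, Finset.sum_ite_irrel, Finset.sum_const_zero, Finset.sum_ite_eq,
      Finset.sum_ite_eq', Finset.mem_univ, if_true, zero_add, add_zero]
    have e1 : ∑ b, r0 (ix p.1 b, p.2.2) * K b p.2.1 = ∑ b, K b p.2.1 * r0 (ix p.1 b, p.2.2) :=
      Finset.sum_congr rfl fun b _ => mul_comm _ _
    have e2 : ∑ b, g0 (p.1, b, p.2.2) * Q b p.2.1 = ∑ b, Q b p.2.1 * g0 (p.1, b, p.2.2) :=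
      Finset.sum_congr rfl fun b _ => mul_comm _ _
    rw [e1, e2]
    ring

/-! ### the tangent cone argument -/

/-- polynomial functions of several variables -/
def IsP {ι : Type*} (f : (ι → k) → k) : Prop :=
  ∃ p : MvPolynomial ι k, ∀ r, f r = MvPolynomial.eval r p

theorem IsP.const {ι : Type*} (a : k) : IsP fun _ : ι → k => a :=
  ⟨MvPolynomial.C a, fun r => by rw [MvPolynomial.eval_C]⟩

theorem IsP.var {ι : Type*} (x : ι) : IsP fun r : ι → k => r x :=
  ⟨MvPolynomial.X x, fun r => by rw [MvPolynomial.eval_X]⟩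

/-- parameters of the family -/
abbrev PX (q c : ℕ) := (Fin 6 × Fin c) ⊕ (Fin 3 × Fin q × Fin c)

/-- the family, in one variable -/
def TV (v : PX q c → k) : Fin 3 → Matrix (NX q c) (NX q c) k :=
  T1X q c (fun p => v (Sum.inl p)) (fun p => v (Sum.inr p))

theorem isP_TV (z : Fin 3 × NX q c × NX q c) :
    IsP fun v : PX q c → k => TV v z.1 z.2.1 z.2.2 := by
  obtain ⟨i, x, y⟩ := z
  rcases x with x | (x | x) | x <;> rcases y with y | (y | y) | y <;>
    first
      | exact IsP.const 0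
      | exact IsP.const (if x = i then 1 else 0)
      | exact IsP.var (Sum.inl (ix i y, x))
      | exact IsP.var (Sum.inr (i, y, x))

theorem det_fin [Infinite k] {n : ℕ} (A : Matrix (Fin n) (Fin n) k) :
    {s : k | (1 + s • A).det = 0}.Finite := by
  have h1 : D7.IsPoly fun s : k => (1 + s • A).det := by
    refine ⟨Matrix.det (Matrix.of fun i j : Fin n =>
      Polynomial.C ((1 : Matrix (Fin n) (Fin n) k) i j) + Polynomial.X * Polynomial.C (A i j)),
      fun s => ?_⟩
    rw [← Polynomial.coe_evalRingHom, RingHom.map_det]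
    refine congrArg Matrix.det (Matrix.ext fun i j => ?_)
    show (1 + s • A) i j = (Polynomial.C ((1 : Matrix (Fin n) (Fin n) k) i j) +
      Polynomial.X * Polynomial.C (A i j)).eval s
    rw [Matrix.add_apply, Matrix.smul_apply, smul_eq_mul]
    simp only [Polynomial.eval_add, Polynomial.eval_mul, Polynomial.eval_C, Polynomial.eval_X]
  refine h1.finite (s₁ := 0) ?_
  simp

theorem cl_all [Infinite k] (r0 : Fin 6 × Fin c → k) (g0 : Fin 3 × Fin q × Fin c → k)
    (hb : ∀ (vr : Fin 6 × Fin c → k) (vg : Fin 3 × Fin q × Fin c → k),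
      ∃ (rb : k → Fin 6 × Fin c → k) (gb : k → Fin 3 × Fin q × Fin c → k)
        (dr : Fin 6 × Fin c → k) (dg : Fin 3 × Fin q × Fin c → k) (A : Matrix (Fin 3) (Fin 3) k)
        (K : Matrix (Fin 3) (Fin q) k) (Q : Matrix (Fin q) (Fin q) k)
        (H : Matrix (Fin c) (Fin c) k),
        (∀ s, Cl (T1X q c (rb s) (gb s))) ∧
        (∀ x, J (fun s => rb s x) (r0 x) (dr x)) ∧
        (∀ x, J (fun s => gb s x) (g0 x) (dg x)) ∧
        (∀ p, vr p = dr p + ∑ m', H p.2 m' * r0 (p.1, m') +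
          ∑ a, A a (i1 p.1) * r0 (ix a (i2 p.1), p.2) +
          ∑ b, A b (i2 p.1) * r0 (ix (i1 p.1) b, p.2)) ∧
        (∀ p, vg p = dg p + ∑ m', H p.2.2 m' * g0 (p.1, p.2.1, m') +
          ∑ a, A a p.1 * g0 (a, p.2.1, p.2.2) +
          ∑ b, K b p.2.1 * r0 (ix p.1 b, p.2.2) + ∑ b, Q b p.2.1 * g0 (p.1, b, p.2.2)))
    (r : Fin 6 × Fin c → k) (g : Fin 3 × Fin q × Fin c → k) : Cl (T1X q c r g) := by
  have hcurve : ∀ v : PX q c → k, ∃ u : PX q c → Polynomial k,
      (∀ x, (u x).eval 0 = v x) ∧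
      {s : k | (fun x => (Sum.elim r0 g0 : PX q c → k) x + s * (u x).eval s) ∈
        {v : PX q c → k | Cl (TV v)}}.Infinite := by
    intro v
    obtain ⟨rb, gb, dr, dg, A, K, Q, H, hcl, hr, hg, evr, evg⟩ :=
      hb (fun p => v (Sum.inl p)) (fun p => v (Sum.inr p))
    have jr : ∀ p : Fin 6 × Fin c, ∃ w : Polynomial k, ∀ s,
        ar (1 + s • A) (1 + s • H) (rb s) p = r0 p + s * v (Sum.inl p) + s ^ 2 * w.eval s := by
      intro p
      exact (jet_r hr A H p).congr rfl (evr p).symm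
    have jg : ∀ p : Fin 3 × Fin q × Fin c, ∃ w : Polynomial k, ∀ s,
        ag (1 + s • A) (s • K) (1 + s • Q) (1 + s • H) (rb s) (gb s) p =
          g0 p + s * v (Sum.inr p) + s ^ 2 * w.eval s := by
      intro p
      exact (jet_g hr hg A K Q H p).congr rfl (evg p).symm
    choose wr hwr using jr
    choose wg hwg using jg
    refine ⟨fun x => Polynomial.C (v x) + Polynomial.X *
      (Sum.elim wr wg : PX q c → Polynomial k) x, fun x => by simp, ?_⟩
    refine (((det_fin A).union (det_fin Q)).union (det_fin H)).infinite_compl.mono fun s hs => ?_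
    simp only [Set.mem_compl_iff, Set.mem_union, Set.mem_ofPred_eq, not_or] at hs
    obtain ⟨⟨hA, hQ⟩, hH⟩ := hs
    have h1 := cl_act (hcl s) (1 + s • A) (s • K) (1 + s • Q) (1 + s • H) hA hQ hH
    have h2 : Cl (TV (Sum.elim (ar (1 + s • A) (1 + s • H) (rb s))
        (ag (1 + s • A) (s • K) (1 + s • Q) (1 + s • H) (rb s) (gb s)) : PX q c → k)) := h1
    have e1 : (fun x => (Sum.elim r0 g0 : PX q c → k) x + s * (Polynomial.C (v x) +
        Polynomial.X * (Sum.elim wr wg : PX q c → Polynomial k) x).eval s) =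
        (Sum.elim (ar (1 + s • A) (1 + s • H) (rb s))
          (ag (1 + s • A) (s • K) (1 + s • Q) (1 + s • H) (rb s) (gb s)) : PX q c → k) := by
      funext x
      rcases x with p | p
      · rw [Sum.elim_inl, Sum.elim_inl, Sum.elim_inl, hwr p s]
        simp only [Polynomial.eval_add, Polynomial.eval_mul, Polynomial.eval_C, Polynomial.eval_X]
        ring
      · rw [Sum.elim_inr, Sum.elim_inr, Sum.elim_inr, hwg p s]
        simp only [Polynomial.eval_add, Polynomial.eval_mul, Polynomial.eval_C, Polynomial.eval_X]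
        ring
    rw [← e1] at h2
    exact h2
  have hfin : Cl (TV (Sum.elim r g : PX q c → k)) := by
    intro F hF
    choose p hp using isP_TV (k := k) (q := q) (c := c)
    have hev : ∀ v : PX q c → k, MvPolynomial.eval v (MvPolynomial.aeval p F) =
        MvPolynomial.eval (co (TV v)) F := by
      intro v
      have h1 : ((MvPolynomial.aeval v : MvPolynomial (PX q c) k →ₐ[k] k).comp
          (MvPolynomial.aeval p)) =
          (MvPolynomial.aeval (co (TV v)) :
            MvPolynomial (Fin 3 × NX q c × NX q c) k →ₐ[k] k) := by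
        apply MvPolynomial.algHom_ext
        intro z
        simp only [AlgHom.comp_apply, MvPolynomial.aeval_X]
        exact (hp z v).symm
      exact congrArg (fun f => f F) h1
    have h0 : MvPolynomial.aeval p F = 0 := by
      refine eq_zero_of_curves {v : PX q c → k | Cl (TV v)} (Sum.elim r0 g0) hcurve _ ?_
      intro v hv
      rw [hev]
      exact hv F hF
    rw [← hev, h0, map_zero]
  exact hfin

end T1XG

end Pool.Agent.Lib.D9
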