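import Pool.Agent.Lib.D9.T321111C

/-!
# MP_5dcbc3_ag: type (3, 2, 1, 1, 1, 1), case (III)
-/

namespace Pool.Agent.Lib.D9

open Matrix Pool.Agent.Lib.Q5dc Pool.Agent.Lib.D7

namespace T321111Aux

variable {k : Type*} [Field k]

/-- case III, raising -/
theorem caseIII_fin [CharZero k] {ρ : ℕ → ℕ} (hρ : ρ 3 = 0)
    {al1 : k} {w : Fin 4 → k} {be1 ga : k} {pi w' : Fin 4 → k}
    (hT : MaxR ρ ![J321111 k, B321111 1 al1 w 0 be1 ga pi 0 0 0,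
      B321111 0 0 w' 0 0 0 0 0 0 0])
    (hw : w' ≠ 0) : False := by
  have : Infinite k := CharZero.infinite k
  obtain ⟨i0, hi0⟩ : ∃ i, w' i ≠ 0 := by
    by_contra h
    push Not at h
    exact hw (funext h)
  obtain ⟨A', hA'⟩ : ∃ A' : Matrix (Fin 9) (Fin 9) k, A' =
      !![0, 0, 0, 0, 0, 0, 0, 0, 0; 0, 0, 0, 0, 0, 0, 0, 0, 0; 0, 0, 0, 0, 0, 0, 0, 0, 0;
        0, 0, 0, 0, 0, 0, 0, 0, 0; 0, 0, 0, 0, 0, 0, 0, 0, 0; 0, 0, w' 0, 0, 0, 0, 0, 0, 0;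
        0, 0, w' 1, 0, 0, 0, 0, 0, 0; 0, 0, w' 2, 0, 0, 0, 0, 0, 0;
        0, 0, w' 3, 0, 0, 0, 0, 0, 0] := ⟨_, rfl⟩
  obtain ⟨B', hB'⟩ : ∃ B' : Matrix (Fin 9) (Fin 9) k, B' =
      !![0, 0, 0, 0, 0, 0, 0, 0, 0; 0, 0, 0, 0, 0, 0, 0, 0, 0; 0, 0, 0, 0, 0, 0, 0, 0, 0;
        0, 0, 0, 0, 0, 0, 0, 0, 0; 0, 0, 0, 0, 0, 0, 0, 0, 0;
        0, 0, 0, 0, be1 * w' 0, 0, 0, 0, 0; 0, 0, 0, 0, be1 * w' 1, 0, 0, 0, 0;
        0, 0, 0, 0, be1 * w' 2, 0, 0, 0, 0; 0, 0, 0, 0, be1 * w' 3, 0, 0, 0, 0] := ⟨_, rfl⟩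
  have hA : ∀ s : k, J321111 k + s • A' =
      !![0, 0, 0, 0, 0, 0, 0, 0, 0; 1, 0, 0, 0, 0, 0, 0, 0, 0; 0, 1, 0, 0, 0, 0, 0, 0, 0;
        0, 0, 0, 0, 0, 0, 0, 0, 0; 0, 0, 0, 1, 0, 0, 0, 0, 0; 0, 0, s * w' 0, 0, 0, 0, 0, 0, 0;
        0, 0, s * w' 1, 0, 0, 0, 0, 0, 0; 0, 0, s * w' 2, 0, 0, 0, 0, 0, 0;
        0, 0, s * w' 3, 0, 0, 0, 0, 0, 0] := by
    intro s
    rw [hA']
    ext i j
    fin_cases i <;> fin_cases j <;> simp [J321111]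
  have hB : ∀ s : k, B321111 1 al1 w 0 be1 ga pi 0 0 0 + s • B' =
      !![0, 0, 0, 0, 0, 0, 0, 0, 0; 0, 0, 0, 0, 0, 0, 0, 0, 0; 0, 0, 0, be1, 0, 0, 0, 0, 0;
        1, 0, 0, 0, 0, 0, 0, 0, 0; al1, 1, 0, ga, 0, 0, 0, 0, 0;
        w 0, 0, 0, pi 0, s * (be1 * w' 0), 0, 0, 0, 0;
        w 1, 0, 0, pi 1, s * (be1 * w' 1), 0, 0, 0, 0;
        w 2, 0, 0, pi 2, s * (be1 * w' 2), 0, 0, 0, 0;
        w 3, 0, 0, pi 3, s * (be1 * w' 3), 0, 0, 0, 0] := by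
    intro s
    rw [hB']
    ext i j
    fin_cases i <;> fin_cases j <;> simp [B321111]
  have hC : B321111 0 0 w' 0 0 0 0 0 0 0 =
      !![0, 0, 0, 0, 0, 0, 0, 0, 0; 0, 0, 0, 0, 0, 0, 0, 0, 0; 0, 0, 0, 0, 0, 0, 0, 0, 0;
        0, 0, 0, 0, 0, 0, 0, 0, 0; 0, 0, 0, 0, 0, 0, 0, 0, 0;
        w' 0, 0, 0, 0, 0, 0, 0, 0, 0; w' 1, 0, 0, 0, 0, 0, 0, 0, 0;
        w' 2, 0, 0, 0, 0, 0, 0, 0, 0; w' 3, 0, 0, 0, 0, 0, 0, 0, 0] := by
    ext i j
    fin_cases i <;> fin_cases j <;> simp [B321111]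
  refine Pool.Agent.Lib.D8.MaxR.raise0 hT A' B' 0 ?_ 3 hρ 1 0 0 ?_
  · intro s
    rw [smul_zero, add_zero, hA, hB, hC]
    refine Pool.Agent.Lib.D8.cn3 ?_ ?_ ?_ ?_ ?_ ?_
    · ext i j
      fin_cases i <;> fin_cases j <;> simp [Matrix.mul_apply, Fin.sum_univ_succ] <;> ring
    · ext i j
      fin_cases i <;> fin_cases j <;> simp [Matrix.mul_apply, Fin.sum_univ_succ]
    · ext i j
      fin_cases i <;> fin_cases j <;> simp [Matrix.mul_apply, Fin.sum_univ_succ]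
    · refine isNilpotent_of_weight _ ![0, 1, 2, 0, 1, 3, 3, 3, 3] ?_
      intro i j h
      fin_cases i <;> fin_cases j <;> first | (simp at h; done) | simp
    · refine isNilpotent_of_weight _ ![0, 0, 2, 1, 2, 3, 3, 3, 3] ?_
      intro i j h
      fin_cases i <;> fin_cases j <;> first | (simp at h; done) | simp
    · refine isNilpotent_of_weight _ ![0, 0, 0, 0, 0, 1, 1, 1, 1] ?_
      intro i j h
      fin_cases i <;> fin_cases j <;> first | (simp at h; done) | simp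
  · refine Set.Infinite.mono ?_ (Set.finite_singleton (0 : k)).infinite_compl
    intro s hs
    have hs : s ≠ 0 := by simpa using hs
    rw [Set.mem_ofPred_eq, one_smul, zero_smul, zero_smul, add_zero, add_zero, hA]
    intro h
    have hx : ∀ i : Fin 4, s * w' i = 0 := by
      intro i
      have h1 := congrFun (congrFun h (P i)) 0
      rw [pow_succ, pow_two] at h1
      fin_cases i <;> simpa [P, Matrix.mul_apply, Fin.sum_univ_succ] using h1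
    exact mul_ne_zero hs hi0 (hx i0)

theorem caseIII_def [CharZero k] {ρ : ℕ → ℕ} (hρ : ρ 3 = 0)
    {al1 : k} {w : Fin 4 → k} {be1 ga : k} {pi w' : Fin 4 → k}
    (hT : MaxR ρ ![J321111 k, B321111 1 al1 w 0 be1 ga pi 0 0 0,
      B321111 0 0 w' 0 0 0 0 0 0 0]) : False := by
  have : Infinite k := CharZero.infinite k
  have key : ∀ s : k, B321111 0 0 w' 0 0 0 0 0 0 0 + s • B321111 0 0 (Pi.single 0 1) 0 0 0 0 0 0 0 =
      B321111 0 0 (w' + s • Pi.single 0 1) 0 0 0 0 0 0 0 := by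
    intro s
    have h := B_lin 1 s 0 0 w' 0 0 0 0 0 0 0 0 0 (Pi.single 0 1) 0 0 0 0 0 0 0
    simpa using h
  obtain ⟨s, hs, h3⟩ := Pool.Agent.Lib.D8.MaxR.line2 hT 0
    (B321111 0 0 (Pi.single 0 1) 0 0 0 0 0 0 0) (by
      intro s
      rw [smul_zero, add_zero, key]
      refine Pool.Agent.Lib.D8.cn3 (comm_J _ _ _ _ _ _ _ _ _ _) (comm_J _ _ _ _ _ _ _ _ _ _)
        ?_ J_nil (B_nil _ _ _ _ _ _ _ _ _) (B_nil _ _ _ _ _ _ _ _ _)
      ext i j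
      fin_cases i <;> fin_cases j <;> simp [B321111, Matrix.mul_apply, Fin.sum_univ_succ])
    (Set.finite_singleton (-(w' 0)))
  rw [key, smul_zero, add_zero] at h3
  refine caseIII_fin hρ h3 ?_
  intro h
  apply hs
  have h4 := congrFun h 0
  simp at h4
  rw [Set.mem_singleton_iff]
  linear_combination h4

theorem caseIII_mid [CharZero k] {ρ : ℕ → ℕ} (hρ : ρ 3 = 0)
    {al1 : k} {w : Fin 4 → k} {be1 ga : k} {pi : Fin 4 → k}
    {al1' : k} {w' : Fin 4 → k} {be1' ga' : k} {pi' : Fin 4 → k}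
    (hT : MaxR ρ ![J321111 k, B321111 1 al1 w 0 be1 ga pi 0 0 0,
      B321111 0 al1' w' 0 be1' ga' pi' 0 0 0]) : False := by
  obtain ⟨h1, h2, h3⟩ : be1' = 0 ∧ ga' = 0 ∧ pi' = 0 := by
    have h := hT.cn.1 1 2
    have h20 := congrFun (congrFun h 2) 0
    have h40 := congrFun (congrFun h 4) 0
    have h50 := congrFun (congrFun h 5) 0
    have h60 := congrFun (congrFun h 6) 0
    have h70 := congrFun (congrFun h 7) 0
    have h80 := congrFun (congrFun h 8) 0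
    simp [B321111, Matrix.mul_apply, Fin.sum_univ_succ] at h20 h40 h50 h60 h70 h80
    refine ⟨h20.symm, h40.symm, ?_⟩
    funext i
    fin_cases i
    · exact h50.symm
    · exact h60.symm
    · exact h70.symm
    · exact h80.symm
  subst h1 h2 h3
  obtain ⟨B, hB⟩ : ∃ B, B = B321111 1 al1 w 0 be1 ga pi 0 0 0 := ⟨_, rfl⟩
  have h5 : J321111 k * B = B321111 0 1 0 0 0 0 0 0 0 0 := by
    rw [hB]
    ext i j
    fin_cases i <;> fin_cases j <;> simp [J321111, B321111, Matrix.mul_apply, Fin.sum_univ_succ]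
  refine caseIII_def (al1 := al1) (w := w) (be1 := be1) (ga := ga) (pi := pi) (w' := w') hρ ?_
  rw [← hB] at hT ⊢
  have h6 : B321111 0 al1' w' 0 0 0 0 0 0 0 =
      B321111 0 0 w' 0 0 0 0 0 0 0 + al1' • (J321111 k * B) := by
    rw [h5]
    have h := B_lin 1 al1' 0 0 w' 0 0 0 0 0 0 0 0 1 0 0 0 0 0 0 0 0
    simpa using h.symm
  rw [h6] at hT
  obtain ⟨C, hC⟩ : ∃ C, C = B321111 0 0 w' 0 0 0 0 0 0 0 := ⟨_, rfl⟩
  rw [← hC] at hT ⊢
  refine Pool.Agent.Lib.D8.MaxR.change3 hT (Pool.Agent.Lib.D8.mem1 _ _ _) ?_ (Pool.Agent.Lib.D8.mem1 _ _ _) ?_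
  · have h7 := Pool.Agent.Lib.D8.mem0 (J321111 k) B (C + al1' • (J321111 k * B))
    have h8 := Pool.Agent.Lib.D8.mem1 (J321111 k) B (C + al1' • (J321111 k * B))
    have h9 := Pool.Agent.Lib.D8.mem2 (J321111 k) B (C + al1' • (J321111 k * B))
    have h10 := (adj _).add_mem h9 (SMulMemClass.smul_mem (-al1') ((adj _).mul_mem h7 h8))
    simpa using h10
  · have h7 := Pool.Agent.Lib.D8.mem0 (J321111 k) B C
    have h8 := Pool.Agent.Lib.D8.mem1 (J321111 k) B C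
    have h9 := Pool.Agent.Lib.D8.mem2 (J321111 k) B C
    exact (adj _).add_mem h9 (SMulMemClass.smul_mem al1' ((adj _).mul_mem h7 h8))

theorem caseIII [CharZero k] {ρ : ℕ → ℕ} (hρ : ρ 3 = 0)
    {al al1 : k} {w : Fin 4 → k} {be1 ga : k} {pi : Fin 4 → k}
    {al' al1' : k} {w' : Fin 4 → k} {be1' ga' : k} {pi' : Fin 4 → k}
    (hT : MaxR ρ ![J321111 k, B321111 al al1 w 0 be1 ga pi 0 0 0,
      B321111 al' al1' w' 0 be1' ga' pi' 0 0 0])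
    (hal : al ≠ 0) : False := by
  have h1 := Pool.Agent.Lib.D8.MaxR.lin hT al⁻¹ 0 (-(al' / al)) 1 0 0 0 0 (by simp [hal])
  have h2 := B_lin al⁻¹ 0 al al1 w 0 be1 ga pi 0 0 0 al' al1' w' 0 be1' ga' pi' 0 0 0
  have h3 := B_lin (-(al' / al)) 1 al al1 w 0 be1 ga pi 0 0 0 al' al1' w' 0 be1' ga' pi' 0 0 0
  rw [h2, h3] at h1
  have e1 : al⁻¹ * al + 0 * al' = 1 := by simp [hal]
  have e2 : -(al' / al) * al + 1 * al' = 0 := by
    field_simp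
    ring
  have e3 : ∀ c d : k, c * 0 + d * 0 = 0 := by
    intro c d
    ring
  have e4 : ∀ c d : k, c • (0 : Fin 4 → k) + d • (0 : Fin 4 → k) = 0 := by
    intro c d
    simp
  have e5 : ∀ c d : k, c • (0 : Matrix (Fin 4) (Fin 4) k) + d • (0 : Matrix (Fin 4) (Fin 4) k)
      = 0 := by
    intro c d
    simp
  rw [e1, e2] at h1
  simp only [e3, e4, e5] at h1
  rw [zero_smul k (J321111 k), zero_smul k (J321111 k * J321111 k), add_zero, add_zero, add_zero,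
    add_zero] at h1
  exact caseIII_mid hρ h1

end T321111Aux

end Pool.Agent.Lib.D9
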