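import Pool.Agent.Lib.D9.BlkMap
import Pool.Agent.Lib.D9.BlkShape
import Pool.Agent.Lib.D9.N33111

/-!
# MP_5dcbc3_ag: commuting nilpotent triples of 9 x 9 matrices, type (3, 3, 1, 1, 1)

`T = (A, BX N M 0 0 w 0 0 0 0 th 0, BX N' M' 0 0 w' 0 0 0 0 th' 0)`, relation `N N' + th w' = N' N + th' w`.
If some `x w + y w'` is injective, the module `N33111` applies. If all `x w + y w'` have rank at most `1`, but `(w, w')` is
jointly injective, the images of `w`, `w'` are equal lines, and a deformation makes `w` injective. Finally, if `(w, w')` is not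
jointly injective, it is deformed by `(x, x') ⊗ φ` with `th x' = th' x`.
-/

namespace Pool.Agent.Lib.D9

open Matrix Pool.Agent.Lib.Q5dc Pool.Agent.Lib.D7

namespace T33111Aux

variable {k : Type*} [Field k]

/-- the matrix `(u | e)` -/
def aug (u : Matrix (Fin 3) (Fin 2) k) (e : Fin 3 → k) : Matrix (Fin 3) (Fin 3) k :=
  Matrix.of fun i j => ![u i 0, u i 1, e i] j

theorem det_aug (u : Matrix (Fin 3) (Fin 2) k) (e : Fin 3 → k) : (aug u e).det =
    (u 0 0 * u 1 1 - u 0 1 * u 1 0) * e 2 - (u 0 0 * u 2 1 - u 0 1 * u 2 0) * e 1 +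
      (u 1 0 * u 2 1 - u 1 1 * u 2 0) * e 0 := by
  rw [Matrix.det_fin_three]
  simp [aug]
  ring

theorem ex_aug {u : Matrix (Fin 3) (Fin 2) k} (i j : Fin 3)
    (h : u i 0 * u j 1 - u i 1 * u j 0 ≠ 0) : ∃ e, (aug u e).det ≠ 0 := by
  by_contra hc
  push Not at hc
  have e0 := hc ![1, 0, 0]
  have e1 := hc ![0, 1, 0]
  have e2 := hc ![0, 0, 1]
  rw [det_aug] at e0 e1 e2
  simp at e0 e1 e2
  apply h
  fin_cases i <;> fin_cases j
  · show u 0 0 * u 0 1 - u 0 1 * u 0 0 = 0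
    ring
  · show u 0 0 * u 1 1 - u 0 1 * u 1 0 = 0
    linear_combination e2
  · show u 0 0 * u 2 1 - u 0 1 * u 2 0 = 0
    linear_combination -e1
  · show u 1 0 * u 0 1 - u 1 1 * u 0 0 = 0
    linear_combination -e2
  · show u 1 0 * u 1 1 - u 1 1 * u 1 0 = 0
    ring
  · show u 1 0 * u 2 1 - u 1 1 * u 2 0 = 0
    linear_combination e0
  · show u 2 0 * u 0 1 - u 2 1 * u 0 0 = 0
    linear_combination e1
  · show u 2 0 * u 1 1 - u 2 1 * u 1 0 = 0
    linear_combination -e0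
  · show u 2 0 * u 2 1 - u 2 1 * u 2 0 = 0
    ring

variable {ρ : ℕ → ℕ} {N M N' M' : Matrix (Fin 2) (Fin 2) k} {w w' : Matrix (Fin 3) (Fin 2) k}
  {th th' : Matrix (Fin 2) (Fin 3) k}

/-- the relation -/
theorem rel (hT : MaxR ρ ![JX k 2 0 3, BX N M 0 0 w 0 0 0 0 th 0,
    BX N' M' 0 0 w' 0 0 0 0 th' 0]) : N * N' + th * w' = N' * N + th' * w := by
  have h := ((BX_comm ..).1 (hT.cn.1 1 2)).2.1
  simpa using h

/-- triples of this shape -/
theorem cn (h : N * N' + th * w' = N' * N + th' * w) :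
    CN ![JX k 2 0 3, BX N M 0 0 w 0 0 0 0 th 0, BX N' M' 0 0 w' 0 0 0 0 th' 0] := by
  apply cnX
  · simp
  · simpa using h
  all_goals first | exact Subsingleton.elim _ _ | simp

variable [IsAlgClosed k] [CharZero k]

/-- `w` injective -/
theorem inj (h3 : ρ 3 = 0) (hT : MaxR ρ ![JX k 2 0 3, BX N M 0 0 w 0 0 0 0 th 0,
    BX N' M' 0 0 w' 0 0 0 0 th' 0]) (e : Fin 3 → k) (hd : (aug w e).det ≠ 0) : False := by
  have hu : IsUnit (aug w e).det := isUnit_iff_ne_zero.2 hd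
  have h1 : (aug w e)⁻¹ * aug w e = 1 := Matrix.nonsing_inv_mul _ hu
  have h2 := MaxR.conjX (1 : Matrix (Fin 2) (Fin 2) k) 1 (1 : Matrix (Fin 0) (Fin 0) k) 1
    (aug w e)⁻¹ (aug w e) hT (mul_one 1) (mul_one 1) h1
  have h4 : (aug w e)⁻¹ * w = !![1, 0; 0, 1; 0, 0] := by
    have h5 : ∀ (i : Fin 3) (j : Fin 2), ((aug w e)⁻¹ * w) i j =
        ((aug w e)⁻¹ * aug w e) i (Fin.castSucc j) := by
      intro i j
      rw [Matrix.mul_apply, Matrix.mul_apply]
      refine Finset.sum_congr rfl fun l _ => ?_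
      congr 1
      fin_cases j <;> rfl
    ext i j
    rw [h5, h1]
    fin_cases i <;> fin_cases j <;> simp [Matrix.one_apply]
  simp only [one_mul, mul_one, Matrix.one_mul, Matrix.mul_one, Matrix.mul_zero, Matrix.zero_mul,
    h4] at h2
  exact no_33111N h3 h2

/-- some linear combination of `w, w'` is injective -/
theorem lin (h3 : ρ 3 = 0) (hT : MaxR ρ ![JX k 2 0 3, BX N M 0 0 w 0 0 0 0 th 0,
    BX N' M' 0 0 w' 0 0 0 0 th' 0]) (x y : k) (e : Fin 3 → k)
    (hd : (aug (x • w + y • w') e).det ≠ 0) : False := by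
  have key : ∀ c d : k, x * d - y * c ≠ 0 → False := by
    intro c d h
    have h1 := D8.MaxR.lin hT x y c d 0 0 0 0 h
    simp only [zero_smul, add_zero, BX_smul, BX_add, smul_zero] at h1
    exact inj h3 h1 e hd
  by_cases hx : x = 0
  · by_cases hy : y = 0
    · apply hd
      rw [hx, hy, det_aug]
      simp
    · exact key 1 0 (by simpa using hy)
  · exact key 0 1 (by simpa using hx)

/-- the `2 x 2` minors of `x w + y w'` vanish -/
theorem minors (h3 : ρ 3 = 0) (hT : MaxR ρ ![JX k 2 0 3, BX N M 0 0 w 0 0 0 0 th 0,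
    BX N' M' 0 0 w' 0 0 0 0 th' 0]) (x y : k) (i j : Fin 3) :
    (x * w i 0 + y * w' i 0) * (x * w j 1 + y * w' j 1) -
      (x * w i 1 + y * w' i 1) * (x * w j 0 + y * w' j 0) = 0 := by
  by_contra h
  obtain ⟨e, he⟩ := ex_aug (u := x • w + y • w') i j (by simpa using h)
  exact lin h3 hT x y e he

/-- common image of `w, w'` -/
theorem common (h3 : ρ 3 = 0) {om : Fin 3 → k} {ph ps : Fin 2 → k}
    (hT : MaxR ρ ![JX k 2 0 3, BX N M 0 0 (vecMulVec om ph) 0 0 0 0 th 0,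
    BX N' M' 0 0 (vecMulVec om ps) 0 0 0 0 th' 0]) (i : Fin 3) (hom : om i = 1)
    (hi : ph 0 * ps 1 - ph 1 * ps 0 ≠ 0) : False := by
  obtain ⟨nu, pi, e, h1, h2⟩ : ∃ nu pi e : Fin 3 → k, pi ⬝ᵥ om = 1 ∧
      (om 0 * nu 1 - om 1 * nu 0) * e 2 - (om 0 * nu 2 - om 2 * nu 0) * e 1 +
        (om 1 * nu 2 - om 2 * nu 1) * e 0 ≠ 0 := by
    fin_cases i
    · have h : om 0 = 1 := hom
      refine ⟨![0, 1, 0], ![1, 0, 0], ![0, 0, 1], ?_, ?_⟩ <;>
        simp [dotProduct, Fin.sum_univ_three, h]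
    · have h : om 1 = 1 := hom
      refine ⟨![1, 0, 0], ![0, 1, 0], ![0, 0, 1], ?_, ?_⟩ <;>
        simp [dotProduct, Fin.sum_univ_three, h]
    · have h : om 2 = 1 := hom
      refine ⟨![1, 0, 0], ![0, 0, 1], ![0, 1, 0], ?_, ?_⟩ <;>
        simp [dotProduct, Fin.sum_univ_three, h]
  have hr := rel hT
  obtain ⟨s, hs, h4⟩ := D8.MaxR.line2 hT
    (BX 0 0 0 0 (vecMulVec nu ps) 0 0 0 0 (vecMulVec (th' *ᵥ nu) pi) 0)
    (BX 0 0 0 0 0 0 0 0 0 0 0) (fun s => by
      rw [BX_smul, BX_add, BX_smul, BX_add]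
      simp only [smul_zero, add_zero]
      refine cn ?_
      have e1 : (s • vecMulVec (th' *ᵥ nu) pi) * vecMulVec om ps =
          th' * (s • vecMulVec nu ps) := by
        rw [Matrix.smul_mul, Matrix.mul_smul, Matrix.vecMulVec_mul_vecMulVec, h1,
          Matrix.mul_vecMulVec, one_smul]
      rw [Matrix.add_mul, Matrix.mul_add th', e1, ← add_assoc, hr, add_assoc]) (Set.finite_singleton (0 : k))
  rw [BX_smul, BX_add, BX_smul, BX_add] at h4
  simp only [smul_zero, add_zero] at h4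
  refine inj h3 h4 e ?_
  have e5 : (aug (vecMulVec om ph + s • vecMulVec nu ps) e).det =
      s * (ph 0 * ps 1 - ph 1 * ps 0) *
        ((om 0 * nu 1 - om 1 * nu 0) * e 2 - (om 0 * nu 2 - om 2 * nu 0) * e 1 +
        (om 1 * nu 2 - om 2 * nu 1) * e 0) := by
    rw [det_aug]
    simp [vecMulVec_apply]
    ring
  rw [e5]
  exact mul_ne_zero (mul_ne_zero hs hi) h2

/-- `(w, w')` jointly injective -/
theorem joint (h3 : ρ 3 = 0) (hT : MaxR ρ ![JX k 2 0 3, BX N M 0 0 w 0 0 0 0 th 0,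
    BX N' M' 0 0 w' 0 0 0 0 th' 0]) (i j : Fin 3)
    (hm : w i 0 * w' j 1 - w i 1 * w' j 0 ≠ 0) : False := by
  have e1 : ∀ l l' : Fin 3, w l 0 * w l' 1 = w l 1 * w l' 0 := by
    intro l l'
    have h := minors h3 hT 1 0 l l'
    linear_combination h
  have e2 : ∀ l l' : Fin 3, w' l 0 * w' l' 1 = w' l 1 * w' l' 0 := by
    intro l l'
    have h := minors h3 hT 0 1 l l'
    linear_combination h
  have e4 : ∀ l l' : Fin 3, w l 0 * w' l' 1 + w' l 0 * w l' 1 - w l 1 * w' l' 0 -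
      w' l 1 * w l' 0 = 0 := by
    intro l l'
    have h := minors h3 hT 1 1 l l'
    linear_combination h - e1 l l' - e2 l l'
  obtain ⟨m, hmd⟩ : ∃ m, m = w i 0 * w' j 1 - w i 1 * w' j 0 := ⟨_, rfl⟩
  rw [← hmd] at hm
  obtain ⟨om, hom⟩ : ∃ om : Fin 3 → k, ∀ l, om l = (w l 0 * w' j 1 - w l 1 * w' j 0) / m :=
    ⟨fun l => (w l 0 * w' j 1 - w l 1 * w' j 0) / m, fun l => rfl⟩
  obtain ⟨om', hom'⟩ : ∃ om' : Fin 3 → k, ∀ l, om' l = (w i 0 * w' l 1 - w i 1 * w' l 0) / m :=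
    ⟨fun l => (w i 0 * w' l 1 - w i 1 * w' l 0) / m, fun l => rfl⟩
  have hi : om i = 1 := by rw [hom, ← hmd, div_self hm]
  have hj : om' j = 1 := by rw [hom', ← hmd, div_self hm]
  have hW : ∀ l c, w l c = om l * w i c := by
    intro l c
    rw [hom, div_mul_eq_mul_div, eq_div_iff hm, hmd]
    have h := e1 l i
    fin_cases c
    · show w l 0 * (w i 0 * w' j 1 - w i 1 * w' j 0) = (w l 0 * w' j 1 - w l 1 * w' j 0) * w i 0
      linear_combination -w' j 0 * h
    · show w l 1 * (w i 0 * w' j 1 - w i 1 * w' j 0) = (w l 0 * w' j 1 - w l 1 * w' j 0) * w i 1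
      linear_combination -w' j 1 * h
  have hW' : ∀ l c, w' l c = om' l * w' j c := by
    intro l c
    rw [hom', div_mul_eq_mul_div, eq_div_iff hm, hmd]
    have h := e2 l j
    fin_cases c
    · show w' l 0 * (w i 0 * w' j 1 - w i 1 * w' j 0) =
        (w i 0 * w' l 1 - w i 1 * w' l 0) * w' j 0
      linear_combination w i 0 * h
    · show w' l 1 * (w i 0 * w' j 1 - w i 1 * w' j 0) =
        (w i 0 * w' l 1 - w i 1 * w' l 0) * w' j 1
      linear_combination w i 1 * h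
  have hpar : ∀ l l', om l * om' l' = om l' * om' l := by
    intro l l'
    have h : (om l * om' l' - om l' * om' l) * m = 0 := by
      have h := e4 l l'
      rw [hW l 0, hW l 1, hW l' 0, hW l' 1, hW' l 0, hW' l 1, hW' l' 0, hW' l' 1] at h
      rw [hmd]
      linear_combination h
    exact sub_eq_zero.1 ((mul_eq_zero.1 h).resolve_right hm)
  have hc : ∀ l, om' l = om' i * om l := by
    intro l
    have h := hpar i l
    rw [hi, one_mul] at h
    rw [h, mul_comm]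
  have hci : om' i ≠ 0 := by
    intro h
    have h1 := hc j
    rw [hj, h, zero_mul] at h1
    exact one_ne_zero h1
  have f1 : w = vecMulVec om (w i) := by
    ext l c
    rw [vecMulVec_apply, ← hW]
  have f2 : w' = vecMulVec om (om' i • w' j) := by
    ext l c
    rw [vecMulVec_apply, Pi.smul_apply, smul_eq_mul, hW' l c, hc l]
    ring
  have e : w i 0 * (om' i • w' j) 1 - w i 1 * (om' i • w' j) 0 = om' i * m := by
    rw [hmd, Pi.smul_apply, Pi.smul_apply, smul_eq_mul, smul_eq_mul]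
    ring
  rw [f1, f2] at hT
  refine common h3 hT i hi ?_
  rw [e]
  exact mul_ne_zero hci hm

/-- `(w, w')` is not jointly injective -/
theorem notinj (h3 : ρ 3 = 0) (hT : MaxR ρ ![JX k 2 0 3, BX N M 0 0 w 0 0 0 0 th 0,
    BX N' M' 0 0 w' 0 0 0 0 th' 0]) : ∃ f : Fin 2 → k, f ≠ 0 ∧ w *ᵥ f = 0 ∧ w' *ᵥ f = 0 := by
  have e1 : ∀ l l' : Fin 3, w l 0 * w l' 1 = w l 1 * w l' 0 := by
    intro l l'
    have h := minors h3 hT 1 0 l l'
    linear_combination h
  have e2 : ∀ l l' : Fin 3, w' l 0 * w' l' 1 = w' l 1 * w' l' 0 := by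
    intro l l'
    have h := minors h3 hT 0 1 l l'
    linear_combination h
  have e3 : ∀ i j : Fin 3, w i 0 * w' j 1 = w i 1 * w' j 0 := by
    intro i j
    by_contra h
    exact joint h3 hT i j (sub_ne_zero.2 h)
  have key : ∀ a b : k, (a ≠ 0 ∨ b ≠ 0) → (∀ l, w l 0 * b = w l 1 * a) →
      (∀ l, w' l 0 * b = w' l 1 * a) →
      ∃ f : Fin 2 → k, f ≠ 0 ∧ w *ᵥ f = 0 ∧ w' *ᵥ f = 0 := by
    intro a b hab h1 h2
    refine ⟨![b, -a], ?_, ?_, ?_⟩
    · intro h
      have g0 := congrFun h 0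
      have g1 := congrFun h 1
      simp at g0 g1
      rcases hab with h | h
      · exact h g1
      · exact h g0
    · ext l
      simp [Matrix.mulVec, dotProduct, Fin.sum_univ_two]
      linear_combination h1 l
    · ext l
      simp [Matrix.mulVec, dotProduct, Fin.sum_univ_two]
      linear_combination h2 l
  by_cases hw : ∃ i c, w i c ≠ 0
  · obtain ⟨i, c, hic⟩ := hw
    refine key (w i 0) (w i 1) ?_ (fun l => e1 l i) (fun l => ?_)
    · fin_cases c
      · exact Or.inl hic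
      · exact Or.inr hic
    · linear_combination -e3 i l
  by_cases hw' : ∃ i c, w' i c ≠ 0
  · obtain ⟨i, c, hic⟩ := hw'
    refine key (w' i 0) (w' i 1) ?_ (fun l => e3 l i) (fun l => e2 l i)
    fin_cases c
    · exact Or.inl hic
    · exact Or.inr hic
  push Not at hw hw'
  exact key 1 0 (Or.inl one_ne_zero) (fun l => by rw [hw, hw]; ring)
    (fun l => by rw [hw', hw']; ring)

/-- solutions of `th x' = th' x` with one more linear condition -/
theorem sol (th th' : Matrix (Fin 2) (Fin 3) k) (r r' : Fin 3 → k) :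
    ∃ x x' : Fin 3 → k, (x ≠ 0 ∨ x' ≠ 0) ∧ th *ᵥ x' = th' *ᵥ x ∧ r ⬝ᵥ x + r' ⬝ᵥ x' = 0 := by
  set F : ((Fin 3 → k) × (Fin 3 → k)) →ₗ[k] ((Fin 2 → k) × k) :=
    { toFun := fun v => (th *ᵥ v.2 - th' *ᵥ v.1, r ⬝ᵥ v.1 + r' ⬝ᵥ v.2)
      map_add' := fun v v' => by
        ext1
        · simp only [Prod.fst_add, Prod.snd_add, Matrix.mulVec_add]
          abel
        · simp only [Prod.fst_add, Prod.snd_add, dotProduct_add]
          ring
      map_smul' := fun c v => by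
        ext1
        · simp only [Prod.smul_fst, Prod.smul_snd, Matrix.mulVec_smul, RingHom.id_apply, smul_sub]
        · simp only [Prod.smul_fst, Prod.smul_snd, dotProduct_smul, RingHom.id_apply, smul_eq_mul]
          ring } with hF
  have h1 : LinearMap.ker F ≠ ⊥ := by
    refine LinearMap.ker_ne_bot_of_finrank_lt ?_
    simp
  obtain ⟨v, hv, hv0⟩ := (Submodule.ne_bot_iff _).1 h1
  rw [LinearMap.mem_ker] at hv
  have hv1 : th *ᵥ v.2 - th' *ᵥ v.1 = 0 := congrArg Prod.fst hv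
  have hv2 : r ⬝ᵥ v.1 + r' ⬝ᵥ v.2 = 0 := congrArg Prod.snd hv
  refine ⟨v.1, v.2, ?_, sub_eq_zero.1 hv1, hv2⟩
  by_contra hc
  push Not at hc
  exact hv0 (Prod.ext hc.1 hc.2)

/-- the deformation by `(x, x') ⊗ φ` -/
theorem deform (hT : MaxR ρ ![JX k 2 0 3, BX N M 0 0 w 0 0 0 0 th 0,
    BX N' M' 0 0 w' 0 0 0 0 th' 0]) {x x' : Fin 3 → k} (h : th *ᵥ x' = th' *ᵥ x)
    (φ : Fin 2 → k) : ∃ s : k, s ≠ 0 ∧ MaxR ρ ![JX k 2 0 3,
      BX N M 0 0 (w + s • vecMulVec x φ) 0 0 0 0 th 0,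
      BX N' M' 0 0 (w' + s • vecMulVec x' φ) 0 0 0 0 th' 0] := by
  have hr := rel hT
  obtain ⟨s, hs, h4⟩ := D8.MaxR.line2 hT
    (BX 0 0 0 0 (vecMulVec x φ) 0 0 0 0 0 0)
    (BX 0 0 0 0 (vecMulVec x' φ) 0 0 0 0 0 0) (fun s => by
      rw [BX_smul, BX_add, BX_smul, BX_add]
      simp only [smul_zero, add_zero]
      refine cn ?_
      rw [Matrix.mul_add, Matrix.mul_add, Matrix.mul_smul, Matrix.mul_smul,
        Matrix.mul_vecMulVec, Matrix.mul_vecMulVec, h, ← add_assoc, hr, add_assoc]) (Set.finite_singleton (0 : k))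
  rw [BX_smul, BX_add, BX_smul, BX_add] at h4
  simp only [smul_zero, add_zero] at h4
  exact ⟨s, hs, h4⟩

/-- `(w, w') ≠ 0` -/
theorem nz (h3 : ρ 3 = 0) (hT : MaxR ρ ![JX k 2 0 3, BX N M 0 0 w 0 0 0 0 th 0,
    BX N' M' 0 0 w' 0 0 0 0 th' 0]) (r r' : Fin 3 → k)
    (hw : r ᵥ* w + r' ᵥ* w' ≠ 0) : False := by
  obtain ⟨f, hf0, hf1, hf2⟩ := notinj h3 hT
  obtain ⟨c0, hc0⟩ := Function.ne_iff.1 hf0
  obtain ⟨x, x', hx, hx1, hx2⟩ := sol th th' r r'
  obtain ⟨s, hs, hT'⟩ := deform hT hx1 (Pi.single c0 (f c0)⁻¹)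
  obtain ⟨g, hg0, hg1, hg2⟩ := notinj h3 hT'
  set al : k := Pi.single c0 (f c0)⁻¹ ⬝ᵥ g with hal
  have hal' : al = (f c0)⁻¹ * g c0 := by
    rw [hal, single_dotProduct]
  have g1 : w *ᵥ g = - (s * al) • x := by
    rw [Matrix.add_mulVec, Matrix.smul_mulVec, Matrix.vecMulVec_mulVec] at hg1
    rw [eq_comm, ← sub_eq_zero, ← neg_eq_zero, ← hg1]
    ext l
    simp [hal, mul_assoc, mul_comm]
    try ring
  have g2 : w' *ᵥ g = - (s * al) • x' := by
    rw [Matrix.add_mulVec, Matrix.smul_mulVec, Matrix.vecMulVec_mulVec] at hg2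
    rw [eq_comm, ← sub_eq_zero, ← neg_eq_zero, ← hg2]
    ext l
    simp [hal, mul_assoc, mul_comm]
    try ring
  -- the row `q = r w + r' w'` kills `f` and `g`
  have q1 : (r ᵥ* w + r' ᵥ* w') ⬝ᵥ f = 0 := by
    rw [add_dotProduct, ← Matrix.dotProduct_mulVec, ← Matrix.dotProduct_mulVec, hf1, hf2]
    simp
  have q2 : (r ᵥ* w + r' ᵥ* w') ⬝ᵥ g = 0 := by
    rw [add_dotProduct, ← Matrix.dotProduct_mulVec, ← Matrix.dotProduct_mulVec, g1, g2,
      dotProduct_smul, dotProduct_smul, ← smul_add, hx2, smul_zero]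
  set q : Fin 2 → k := r ᵥ* w + r' ᵥ* w' with hq
  have hdet : f 0 * g 1 = f 1 * g 0 := by
    rw [dotProduct, Fin.sum_univ_two] at q1 q2
    obtain ⟨c, hc⟩ := Function.ne_iff.1 hw
    fin_cases c
    · have hc' : q 0 ≠ 0 := hc
      refine mul_left_cancel₀ hc' ?_
      linear_combination g 1 * q1 - f 1 * q2
    · have hc' : q 1 ≠ 0 := hc
      refine mul_left_cancel₀ hc' ?_
      linear_combination f 0 * q2 - g 0 * q1
  have hfc0 : f c0 ≠ 0 := hc0
  have hg1 : ∀ c, f c0 * g c = g c0 * f c := by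
    intro c
    have hd : ∀ c0 c : Fin 2, f c0 * g c = g c0 * f c := by
      rw [Fin.forall_fin_two]
      constructor <;> rw [Fin.forall_fin_two] <;> constructor
      · ring
      · linear_combination hdet
      · linear_combination -hdet
      · ring
    exact hd c0 c
  have hg : g = al • f := by
    ext c
    rw [Pi.smul_apply, smul_eq_mul, hal', inv_mul_eq_div, div_mul_eq_mul_div, eq_div_iff hfc0,
      mul_comm]
    exact hg1 c
  have hal0 : al = 0 := by
    have k1 : - (s * al) • x = 0 := by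
      rw [← g1, hg, Matrix.mulVec_smul, hf1, smul_zero]
    have k2 : - (s * al) • x' = 0 := by
      rw [← g2, hg, Matrix.mulVec_smul, hf2, smul_zero]
    rcases hx with h | h
    · have k3 := (smul_eq_zero.1 k1).resolve_right h
      rw [neg_eq_zero] at k3
      exact (mul_eq_zero.1 k3).resolve_left hs
    · have k3 := (smul_eq_zero.1 k2).resolve_right h
      rw [neg_eq_zero] at k3
      exact (mul_eq_zero.1 k3).resolve_left hs
  apply hg0
  rw [hg, hal0, zero_smul]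

/-- all triples of the shape -/
theorem gen (h3 : ρ 3 = 0) (hT : MaxR ρ ![JX k 2 0 3, BX N M 0 0 w 0 0 0 0 th 0,
    BX N' M' 0 0 w' 0 0 0 0 th' 0]) : False := by
  by_cases h : ∃ r r' : Fin 3 → k, r ᵥ* w + r' ᵥ* w' ≠ 0
  · obtain ⟨r, r', h⟩ := h
    exact nz h3 hT r r' h
  push Not at h
  obtain ⟨x, x', hx, hx1, -⟩ := sol th th' 0 0
  obtain ⟨s, hs, hT'⟩ := deform hT hx1 ![1, 0]
  have hne : ∃ r r' : Fin 3 → k, r ⬝ᵥ x + r' ⬝ᵥ x' ≠ 0 := by
    rcases hx with hx | hx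
    · obtain ⟨i, hi⟩ := Function.ne_iff.1 hx
      refine ⟨Pi.single i 1, 0, ?_⟩
      rw [zero_dotProduct, add_zero, single_dotProduct, one_mul]
      exact hi
    · obtain ⟨i, hi⟩ := Function.ne_iff.1 hx
      refine ⟨0, Pi.single i 1, ?_⟩
      rw [zero_dotProduct, zero_add, single_dotProduct, one_mul]
      exact hi
  obtain ⟨r, r', hr⟩ := hne
  refine nz h3 hT' r r' ?_
  intro h0
  have h1 := congrFun h0 0
  have h2 := congrFun (h r r') 0
  rw [Pi.add_apply, Pi.zero_apply] at h2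
  rw [Matrix.vecMul_add, Matrix.vecMul_add, Pi.add_apply, Pi.add_apply, Pi.add_apply,
    Matrix.vecMul_smul, Matrix.vecMul_smul, Matrix.vecMul_vecMulVec, Matrix.vecMul_vecMulVec,
    Pi.zero_apply] at h1
  simp at h1
  apply hr
  have h4 : s * (r ⬝ᵥ x + r' ⬝ᵥ x') = 0 := by
    linear_combination h1 - h2
  exact (mul_eq_zero.1 h4).resolve_left hs

end T33111Aux

theorem no_33111 {k : Type*} [Field k] [IsAlgClosed k] [CharZero k] {ρ : ℕ → ℕ}
    {T : Fin 3 → Matrix (Fin 9) (Fin 9) k} (hT : MaxR ρ T)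
    (hρ : ∀ i, ρ i = (J33111 k ^ i).rank) (h0 : T 0 = J33111 k) : False := by
  obtain ⟨h1, T', h2, h3⟩ := toX33111 hT hρ h0
  obtain ⟨N, M, a, c, w, b, d, nu, pi, th, et, N', M', a', c', w', b', d', nu', pi', th', et',
    h4⟩ := shapeX h2 h1 h3
  have h5 : ρ 3 = 0 := by
    rw [h1, JX_cube, Matrix.rank_zero]
  rw [Subsingleton.elim a 0, Subsingleton.elim c 0, Subsingleton.elim b 0,
    Subsingleton.elim d 0, Subsingleton.elim nu 0, Subsingleton.elim pi 0,
    Subsingleton.elim et 0, Subsingleton.elim a' 0, Subsingleton.elim c' 0,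
    Subsingleton.elim b' 0, Subsingleton.elim d' 0, Subsingleton.elim nu' 0,
    Subsingleton.elim pi' 0, Subsingleton.elim et' 0] at h4
  exact T33111Aux.gen h5 h4

end Pool.Agent.Lib.D9
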