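import Pool.Agent.Lib.D9.C3321

/-!
Module T3321W (2.5h; black box cl_3321N). Type (3,3,2,1), b = pi = 0 for both, w = (1, 0), w' = (0, 1).
Put Y = [[N, d], [a, nu]] (3 x 3 on F = E + U), Θ = (th; et) in F, the same for C. Relations (BX_comm 2, 3): [Y, Y'] e + Θ w'(e) - Θ' w(e) = 0 for e in E, i.e. Θ' = [Y, Y'] e1, Θ = - [Y, Y'] e2. So N, d, a, nu, N', d', a', nu', M, c, M', c' are free parameters (18 + 12),
Θ, Θ' are quadratic polynomials in them: every polynomial family of the free parameters (with Θ, Θ' computed by the formula) is CN.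
PROOF. (1) deform a -> a + s (1, 0): the 2 x 2 matrix α = (a; a') gets eigenvalues x <> y, both <> 0 (trace^2 - 4 det and det are polynomials in s; if det α = 0 identically in s also move a' -> a' + s^2 (0, 1): e.g. a -> a + s (1, 0), a' -> a' + 2 s (0, 1): det ~ 2 s^2, tr^2 - 4 det ~ s^2).
(2) For g in GL_2: change B -> g00 B + g01 C, C -> g10 B + g11 C (MaxR.lin) followed by conjX with g on E: w, w' are again (1, 0), (0, 1), α becomes g α g^-1. So WLOG a = (x, 0), a' = (0, y), x <> y, x, y <> 0.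
(3) B - N 1 1 A: N 1 1 = 0; C - N' 0 0 A: N' 0 0 = 0 (a, a', w, w' do not change). (4) deform N 0 1 -> + s, N' 1 0 -> + s: both <> 0.
(5) kill the V3-parts of B e2 and C e1: B -> B - λ A^2 - μ A B - κ A C with A^2 e2 = e2'', A B e2 = N 0 1 e1'', A C e2 = A^2 N' e2 + y u_1: choose κ = c 0 1 / y, then μ, λ: column 1 of M and of c become 0 (nothing else changes, because A^2, A B, A C are of the form BX 0 * 0 * 0 0 * 0 0 0 0: they change M, c, d only; d is free).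
 C -> C - λ' A^2 - μ' A C - κ' A B: A C e1 = N' 1 0 e2'', A B e1 = A^2 N e1 + x u_1. (MaxR.change3: the inverse change: A B and A C are the same for the new matrices because A A B = BX 0 0 0 .. hmm: A * A * B = 0, A * A^2 = 0, so A B_new = A B, A C_new = A C.)
(6) Now the triple has the form of cl_3321N (BC = CB from hT.cn): Cl, contradiction with hT.ncl.
-/

namespace Pool.Agent.Lib.D9

open Matrix Pool.Agent.Lib.Q5dc Pool.Agent.Lib.D7

namespace T3321WAux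

variable {k : Type*} [Field k] {ρ : ℕ → ℕ}

/-- the triples of this file -/
abbrev Tr (N M : Matrix (Fin 2) (Fin 2) k) (a c : Matrix (Fin 1) (Fin 2) k)
    (d : Matrix (Fin 2) (Fin 1) k) (nu : Matrix (Fin 1) (Fin 1) k)
    (th : Matrix (Fin 2) (Fin 1) k) (et : Matrix (Fin 1) (Fin 1) k)
    (N' M' : Matrix (Fin 2) (Fin 2) k) (a' c' : Matrix (Fin 1) (Fin 2) k)
    (d' : Matrix (Fin 2) (Fin 1) k) (nu' : Matrix (Fin 1) (Fin 1) k)
    (th' : Matrix (Fin 2) (Fin 1) k) (et' : Matrix (Fin 1) (Fin 1) k) :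
    Fin 3 → Matrix (Ix 2 1 1) (Ix 2 1 1) k :=
  ![JX k 2 1 1, BX N M a c !![1, 0] 0 d nu 0 th et, BX N' M' a' c' !![0, 1] 0 d' nu' 0 th' et']

variable {N M N' M' : Matrix (Fin 2) (Fin 2) k} {a c a' c' : Matrix (Fin 1) (Fin 2) k}
    {d d' th th' : Matrix (Fin 2) (Fin 1) k} {nu nu' et et' : Matrix (Fin 1) (Fin 1) k}

theorem rel (hT : MaxR ρ (Tr N M a c d nu th et N' M' a' c' d' nu' th' et')) :
    N * N' + d * a' + th * (!![0, 1] : Matrix (Fin 1) (Fin 2) k) = N' * N + d' * a + th' * (!![1, 0] : Matrix (Fin 1) (Fin 2) k) ∧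
    a * N' + nu * a' + et * (!![0, 1] : Matrix (Fin 1) (Fin 2) k) = a' * N + nu' * a + et' * (!![1, 0] : Matrix (Fin 1) (Fin 2) k) := by
  have h := (BX_comm ..).1 (hT.cn.comm (D8.mem1 _ _ _) (D8.mem2 _ _ _))
  obtain ⟨-, h2, h3, -⟩ := h
  refine ⟨?_, h3⟩
  simpa using h2

theorem cn (h2 : N * N' + d * a' + th * (!![0, 1] : Matrix (Fin 1) (Fin 2) k) = N' * N + d' * a + th' * (!![1, 0] : Matrix (Fin 1) (Fin 2) k))
    (h3 : a * N' + nu * a' + et * (!![0, 1] : Matrix (Fin 1) (Fin 2) k) = a' * N + nu' * a + et' * (!![1, 0] : Matrix (Fin 1) (Fin 2) k)) :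
    CN (Tr N M a c d nu th et N' M' a' c' d' nu' th' et') :=
  cnX _ _ _ _ _ _ _ _ _ _ _ _ _ _ _ _ _ _ _ _ _ _ (by simp) (by simpa using h2) h3 (by simp)
    (by simp) (by simp) (by simp)

/-- deformation of `N, a, N', a'` -/
theorem deform [CharZero k] (hT : MaxR ρ (Tr N M a c d nu th et N' M' a' c' d' nu' th' et'))
    (N1 N1' : Matrix (Fin 2) (Fin 2) k) (a1 a1' : Matrix (Fin 1) (Fin 2) k)
    (hN : N1 * N1' = N1' * N1) (ha : a1 * N1' = a1' * N1) {F : Set k} (hF : F.Finite) :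
    ∃ s, s ∉ F ∧ ∃ (th2 th2' : Matrix (Fin 2) (Fin 1) k) (et2 et2' : Matrix (Fin 1) (Fin 1) k),
      MaxR ρ (Tr (N + s • N1) M (a + s • a1) c d nu th2 et2
        (N' + s • N1') M' (a' + s • a1') c' d' nu' th2' et2') := by
  obtain ⟨h2, h3⟩ := rel hT
  obtain ⟨K1, hK1⟩ : ∃ K1, K1 = N1 * N' + N * N1' + d * a1' - N1' * N - N' * N1 - d' * a1 :=
    ⟨_, rfl⟩
  obtain ⟨L1, hL1⟩ : ∃ L1, L1 = a1 * N' + a * N1' + nu * a1' - a1' * N - a' * N1 - nu' * a1 :=
    ⟨_, rfl⟩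
  obtain ⟨th1, hth1⟩ : ∃ th1 : Matrix (Fin 2) (Fin 1) k, th1 = Matrix.of fun i _ => -K1 i 1 :=
    ⟨_, rfl⟩
  obtain ⟨th1', hth1'⟩ : ∃ th1' : Matrix (Fin 2) (Fin 1) k, th1' = Matrix.of fun i _ => K1 i 0 :=
    ⟨_, rfl⟩
  obtain ⟨et1, het1⟩ : ∃ et1 : Matrix (Fin 1) (Fin 1) k, et1 = Matrix.of fun i _ => -L1 i 1 :=
    ⟨_, rfl⟩
  obtain ⟨et1', het1'⟩ : ∃ et1' : Matrix (Fin 1) (Fin 1) k, et1' = Matrix.of fun i _ => L1 i 0 :=
    ⟨_, rfl⟩
  have hK : K1 + th1 * (!![0, 1] : Matrix (Fin 1) (Fin 2) k) - th1' * (!![1, 0] : Matrix (Fin 1) (Fin 2) k) = 0 := by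
    ext i j
    fin_cases j <;> simp [hth1, hth1', Matrix.mul_apply]
  have hL : L1 + et1 * (!![0, 1] : Matrix (Fin 1) (Fin 2) k) - et1' * (!![1, 0] : Matrix (Fin 1) (Fin 2) k) = 0 := by
    ext i j
    fin_cases j <;> simp [het1, het1', Matrix.mul_apply]
  obtain ⟨s, hs, h⟩ := D8.MaxR.line2 hT (BX N1 0 a1 0 0 0 0 0 0 th1 et1)
    (BX N1' 0 a1' 0 0 0 0 0 0 th1' et1') (fun s => by
      rw [BX_smul, BX_smul, BX_add, BX_add]
      simp only [smul_zero, add_zero]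
      refine cn ?_ ?_
      · ext i j
        have b := congrFun (congrFun h2 i) j
        have q := congrFun (congrFun hK i) j
        have n := congrFun (congrFun hN i) j
        rw [hK1] at q
        simp only [Matrix.add_apply, Matrix.sub_apply, Matrix.smul_apply, Matrix.mul_apply,
          Fin.sum_univ_two, Fin.sum_univ_one, smul_eq_mul, Matrix.zero_apply] at b q n ⊢
        linear_combination b + s * q + s ^ 2 * n
      · ext i j
        have b := congrFun (congrFun h3 i) j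
        have q := congrFun (congrFun hL i) j
        have n := congrFun (congrFun ha i) j
        rw [hL1] at q
        simp only [Matrix.add_apply, Matrix.sub_apply, Matrix.smul_apply, Matrix.mul_apply,
          Fin.sum_univ_two, Fin.sum_univ_one, smul_eq_mul, Matrix.zero_apply] at b q n ⊢
        linear_combination b + s * q + s ^ 2 * n) hF
  rw [BX_smul, BX_smul, BX_add, BX_add] at h
  simp only [smul_zero, add_zero] at h
  exact ⟨s, hs, _, _, _, _, h⟩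

/-- linear changes -/
theorem lin (hT : MaxR ρ (Tr N M a c d nu th et N' M' a' c' d' nu' th' et')) (x z : k) :
    MaxR ρ (Tr (N + x • 1) M a c d (nu + x • 1) th et
      (N' + z • 1) M' a' c' d' (nu' + z • 1) th' et') := by
  have h := D8.MaxR.lin hT 1 0 0 1 x 0 z 0 (by simp)
  simp only [one_smul, zero_smul, add_zero, zero_add] at h
  rw [JX, BX_smul, BX_smul, BX_add, BX_add] at h
  simp only [smul_zero, add_zero] at h
  exact h

/-- general linear changes with a change of basis of `E` -/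
theorem norm (hT : MaxR ρ (Tr N M a c d nu th et N' M' a' c' d' nu' th' et'))
    {g h : Matrix (Fin 2) (Fin 2) k} (hgh : g * h = 1) {x y : k}
    (hα : g * !![a 0 0, a 0 1; a' 0 0, a' 0 1] * h = !![x, 0; 0, y]) :
    ∃ (N2 M2 : Matrix (Fin 2) (Fin 2) k) (c2 : Matrix (Fin 1) (Fin 2) k)
      (d2 : Matrix (Fin 2) (Fin 1) k) (nu2 : Matrix (Fin 1) (Fin 1) k)
      (th2 : Matrix (Fin 2) (Fin 1) k) (et2 : Matrix (Fin 1) (Fin 1) k)
      (N2' M2' : Matrix (Fin 2) (Fin 2) k) (c2' : Matrix (Fin 1) (Fin 2) k)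
      (d2' : Matrix (Fin 2) (Fin 1) k) (nu2' : Matrix (Fin 1) (Fin 1) k)
      (th2' : Matrix (Fin 2) (Fin 1) k) (et2' : Matrix (Fin 1) (Fin 1) k),
      MaxR ρ (Tr N2 M2 !![x, 0] c2 d2 nu2 th2 et2 N2' M2' !![0, y] c2' d2' nu2' th2' et2') := by
  have hdet : g 0 0 * g 1 1 - g 0 1 * g 1 0 ≠ 0 := by
    have h1 := congrArg Matrix.det hgh
    rw [Matrix.det_mul, Matrix.det_one, Matrix.det_fin_two g] at h1
    exact left_ne_zero_of_mul (by rw [h1]; exact one_ne_zero)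
  have h1 := D8.MaxR.lin hT (g 0 0) (g 0 1) (g 1 0) (g 1 1) 0 0 0 0 hdet
  simp only [zero_smul, add_zero] at h1
  rw [BX_smul, BX_smul, BX_smul, BX_smul, BX_add, BX_add] at h1
  have h2 := MaxR.conjX g h 1 1 1 1 h1 hgh (one_mul 1) (one_mul 1)
  have q00 := congrFun (congrFun hgh 0) 0
  have q01 := congrFun (congrFun hgh 0) 1
  have q10 := congrFun (congrFun hgh 1) 0
  have q11 := congrFun (congrFun hgh 1) 1
  have p00 := congrFun (congrFun hα 0) 0
  have p01 := congrFun (congrFun hα 0) 1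
  have p10 := congrFun (congrFun hα 1) 0
  have p11 := congrFun (congrFun hα 1) 1
  simp [Matrix.mul_apply, Fin.sum_univ_two] at q00 q01 q10 q11 p00 p01 p10 p11
  have ea : (1 : Matrix (Fin 1) (Fin 1) k) * (g 0 0 • a + g 0 1 • a') * h = !![x, 0] := by
    rw [Matrix.one_mul]
    ext i j
    fin_cases i
    fin_cases j <;> simp [Matrix.mul_apply, Fin.sum_univ_two]
    · linear_combination p00
    · linear_combination p01
  have ea' : (1 : Matrix (Fin 1) (Fin 1) k) * (g 1 0 • a + g 1 1 • a') * h = !![0, y] := by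
    rw [Matrix.one_mul]
    ext i j
    fin_cases i
    fin_cases j <;> simp [Matrix.mul_apply, Fin.sum_univ_two]
    · linear_combination p10
    · linear_combination p11
  have ew : (1 : Matrix (Fin 1) (Fin 1) k) * (g 0 0 • (!![1, 0] : Matrix (Fin 1) (Fin 2) k) +
      g 0 1 • (!![0, 1] : Matrix (Fin 1) (Fin 2) k)) * h = !![1, 0] := by
    rw [Matrix.one_mul]
    ext i j
    fin_cases i
    fin_cases j <;> simp [Matrix.mul_apply, Fin.sum_univ_two]
    · linear_combination q00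
    · linear_combination q01
  have ew' : (1 : Matrix (Fin 1) (Fin 1) k) * (g 1 0 • (!![1, 0] : Matrix (Fin 1) (Fin 2) k) +
      g 1 1 • (!![0, 1] : Matrix (Fin 1) (Fin 2) k)) * h = !![0, 1] := by
    rw [Matrix.one_mul]
    ext i j
    fin_cases i
    fin_cases j <;> simp [Matrix.mul_apply, Fin.sum_univ_two]
    · linear_combination q10
    · linear_combination q11
  rw [ea, ea', ew, ew'] at h2
  simp only [smul_zero, add_zero, Matrix.mul_zero, Matrix.zero_mul] at h2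
  exact ⟨_, _, _, _, _, _, _, _, _, _, _, _, _, _, h2⟩

/-- adding combinations of `A ^ 2, A B, A C` -/
theorem kill (hT : MaxR ρ (Tr N M a c d nu th et N' M' a' c' d' nu' th' et'))
    (l m n l' m' n' : k) :
    MaxR ρ (Tr N (M - l • 1 - m • N - n • N') a (c - m • a - n • a') d nu th et
      N' (M' - l' • 1 - m' • N' - n' • N) a' (c' - m' • a' - n' • a) d' nu' th' et') := by
  have sm : ∀ {T : Fin 3 → Matrix (Ix 2 1 1) (Ix 2 1 1) k} {X : Matrix (Ix 2 1 1) (Ix 2 1 1) k}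
      (s : k), X ∈ adj T → s • X ∈ adj T := fun s hX => SMulMemClass.smul_mem s hX
  obtain ⟨B, hB⟩ : ∃ B, B = BX N M a c !![1, 0] 0 d nu 0 th et := ⟨_, rfl⟩
  obtain ⟨C, hC⟩ : ∃ C, C = BX N' M' a' c' !![0, 1] 0 d' nu' 0 th' et' := ⟨_, rfl⟩
  obtain ⟨B2, hB2⟩ : ∃ B2, B2 = BX N (M - l • 1 - m • N - n • N') a (c - m • a - n • a')
      !![1, 0] 0 d nu 0 th et := ⟨_, rfl⟩
  obtain ⟨C2, hC2⟩ : ∃ C2, C2 = BX N' (M' - l' • 1 - m' • N' - n' • N) a'
      (c' - m' • a' - n' • a) !![0, 1] 0 d' nu' 0 th' et' := ⟨_, rfl⟩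
  have e1 : JX k 2 1 1 * B = BX 0 N 0 a 0 0 0 0 0 0 0 := by rw [hB, JX_mul_BX]
  have e2 : JX k 2 1 1 * C = BX 0 N' 0 a' 0 0 0 0 0 0 0 := by rw [hC, JX_mul_BX]
  have e3 : JX k 2 1 1 * B2 = BX 0 N 0 a 0 0 0 0 0 0 0 := by rw [hB2, JX_mul_BX]
  have e4 : JX k 2 1 1 * C2 = BX 0 N' 0 a' 0 0 0 0 0 0 0 := by rw [hC2, JX_mul_BX]
  have fB : B = B2 + (l • (JX k 2 1 1 * JX k 2 1 1) + m • (JX k 2 1 1 * B) +
      n • (JX k 2 1 1 * C)) := by
    rw [e1, e2, JX_sq, hB, hB2, BX_smul, BX_smul, BX_smul, BX_add, BX_add, BX_add, BX_inj]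
    simp only [smul_zero, add_zero, zero_add, true_and, and_true]
    constructor <;> abel
  have fC : C = C2 + (l' • (JX k 2 1 1 * JX k 2 1 1) + m' • (JX k 2 1 1 * C) +
      n' • (JX k 2 1 1 * B)) := by
    rw [e1, e2, JX_sq, hC, hC2, BX_smul, BX_smul, BX_smul, BX_add, BX_add, BX_add, BX_inj]
    simp only [smul_zero, add_zero, zero_add, true_and, and_true]
    constructor <;> abel
  have gB : B2 = B - (l • (JX k 2 1 1 * JX k 2 1 1) + m • (JX k 2 1 1 * B) +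
      n • (JX k 2 1 1 * C)) := eq_sub_of_add_eq fB.symm
  have gC : C2 = C - (l' • (JX k 2 1 1 * JX k 2 1 1) + m' • (JX k 2 1 1 * C) +
      n' • (JX k 2 1 1 * B)) := eq_sub_of_add_eq fC.symm
  have hT' : MaxR ρ ![JX k 2 1 1, B, C] := by
    rw [hB, hC]
    exact hT
  have hr : MaxR ρ ![JX k 2 1 1, B2, C2] := by
    have m0 := D8.mem0 (JX k 2 1 1) B C
    have m1 := D8.mem1 (JX k 2 1 1) B C
    have m2 := D8.mem2 (JX k 2 1 1) B C
    have n0 := D8.mem0 (JX k 2 1 1) B2 C2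
    have n1 := D8.mem1 (JX k 2 1 1) B2 C2
    have n2 := D8.mem2 (JX k 2 1 1) B2 C2
    refine D8.MaxR.change3 hT' ?_ ?_ ?_ ?_
    · rw [gB]
      exact sub_mem m1 (add_mem (add_mem (sm _ (mul_mem m0 m0)) (sm _ (mul_mem m0 m1)))
        (sm _ (mul_mem m0 m2)))
    · rw [gC]
      exact sub_mem m2 (add_mem (add_mem (sm _ (mul_mem m0 m0)) (sm _ (mul_mem m0 m2)))
        (sm _ (mul_mem m0 m1)))
    · rw [fB, e1, e2, ← e3, ← e4]
      exact add_mem n1 (add_mem (add_mem (sm _ (mul_mem n0 n0)) (sm _ (mul_mem n0 n1)))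
        (sm _ (mul_mem n0 n2)))
    · rw [fC, e1, e2, ← e3, ← e4]
      exact add_mem n2 (add_mem (add_mem (sm _ (mul_mem n0 n0)) (sm _ (mul_mem n0 n2)))
        (sm _ (mul_mem n0 n1)))
  rw [hB2, hC2] at hr
  exact hr

/-- diagonalisation -/
theorem diag_two [IsAlgClosed k] [CharZero k] {N : Matrix (Fin 2) (Fin 2) k} (h01 : N 0 1 ≠ 0)
    (hd : (N 0 0 - N 1 1) ^ 2 + 4 * N 0 1 * N 1 0 ≠ 0) :
    ∃ (g h : Matrix (Fin 2) (Fin 2) k) (x y : k), g * h = 1 ∧ h * g = 1 ∧ x ≠ y ∧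
      g * N * h = !![x, 0; 0, y] := by
  obtain ⟨t, ht⟩ := IsAlgClosed.exists_pow_nat_eq
    ((N 0 0 - N 1 1) ^ 2 + 4 * N 0 1 * N 1 0) (n := 2) (by norm_num)
  have ht0 : t ≠ 0 := by
    rintro rfl
    apply hd
    rw [← ht]
    ring
  have two : (2 : k) ≠ 0 := two_ne_zero
  obtain ⟨x, hx⟩ : ∃ x, x = (N 0 0 + N 1 1 + t) / 2 := ⟨_, rfl⟩
  obtain ⟨y, hy⟩ : ∃ y, y = (N 0 0 + N 1 1 - t) / 2 := ⟨_, rfl⟩
  have hxy : x - y = t := by
    rw [hx, hy]
    ring
  have hne : x ≠ y := by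
    intro h
    apply ht0
    rw [← hxy, h, sub_self]
  have cx : (x - N 0 0) * (x - N 1 1) = N 0 1 * N 1 0 := by
    rw [hx]
    linear_combination (1 / 4 : k) * ht
  have cy : (y - N 0 0) * (y - N 1 1) = N 0 1 * N 1 0 := by
    rw [hy]
    linear_combination (1 / 4 : k) * ht
  obtain ⟨h, hh⟩ : ∃ h : Matrix (Fin 2) (Fin 2) k,
      h = !![N 0 1, N 0 1; x - N 0 0, y - N 0 0] := ⟨_, rfl⟩
  have hdet : h.det ≠ 0 := by
    rw [hh, Matrix.det_fin_two_of]
    have : N 0 1 * (y - N 0 0) - N 0 1 * (x - N 0 0) = -(N 0 1 * (x - y)) := by ring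
    rw [this]
    exact neg_ne_zero.2 (mul_ne_zero h01 (sub_ne_zero.2 hne))
  have hu : IsUnit h.det := isUnit_iff_ne_zero.2 hdet
  have e1 : N * h = h * !![x, 0; 0, y] := by
    rw [hh]
    ext i j
    fin_cases i <;> fin_cases j <;> simp [Matrix.mul_apply, Fin.sum_univ_two]
    · ring
    · ring
    · linear_combination -cx
    · linear_combination -cy
  refine ⟨h⁻¹, h, x, y, Matrix.nonsing_inv_mul h hu, Matrix.mul_nonsing_inv h hu, hne, ?_⟩
  rw [Matrix.mul_assoc, e1, ← Matrix.mul_assoc, Matrix.nonsing_inv_mul h hu, Matrix.one_mul]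

/-- steps (5) and (6) -/
theorem stepB [CharZero k] (hcl : ∀ G : Fin 6 × Fin 3 → k, Cl (TG3 G)) {x y : k}
    (hT : MaxR ρ (Tr N M !![x, 0] c d nu th et N' M' !![0, y] c' d' nu' th' et'))
    (hx : x ≠ 0) (hy : y ≠ 0) (hxy : x ≠ y) (hN : N 0 1 ≠ 0) (hN' : N' 1 0 ≠ 0)
    (h11 : N 1 1 = 0) (h00 : N' 0 0 = 0) : False := by
  obtain ⟨n, hn⟩ : ∃ n, n = c 0 1 / y := ⟨_, rfl⟩
  obtain ⟨m, hm⟩ : ∃ m, m = (M 0 1 - n * N' 0 1) / N 0 1 := ⟨_, rfl⟩
  obtain ⟨l, hl⟩ : ∃ l, l = M 1 1 - n * N' 1 1 := ⟨_, rfl⟩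
  obtain ⟨n', hn'⟩ : ∃ n', n' = c' 0 0 / x := ⟨_, rfl⟩
  obtain ⟨m', hm'⟩ : ∃ m', m' = (M' 1 0 - n' * N 1 0) / N' 1 0 := ⟨_, rfl⟩
  obtain ⟨l', hl'⟩ : ∃ l', l' = M' 0 0 - n' * N 0 0 := ⟨_, rfl⟩
  have h := kill hT l m n l' m' n'
  obtain ⟨Mn, hMn⟩ : ∃ Mn, Mn = M - l • 1 - m • N - n • N' := ⟨_, rfl⟩
  obtain ⟨Mn', hMn'⟩ : ∃ Mn', Mn' = M' - l' • 1 - m' • N' - n' • N := ⟨_, rfl⟩
  obtain ⟨cn, hcn⟩ : ∃ cn, cn = c - m • !![x, 0] - n • !![0, y] := ⟨_, rfl⟩
  obtain ⟨cn', hcn'⟩ : ∃ cn', cn' = c' - m' • !![0, y] - n' • !![x, 0] := ⟨_, rfl⟩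
  rw [← hMn, ← hMn', ← hcn, ← hcn'] at h
  have kn : n * y = c 0 1 := by rw [hn]; field_simp
  have km : m * N 0 1 = M 0 1 - n * N' 0 1 := by rw [hm]; field_simp
  have kn' : n' * x = c' 0 0 := by rw [hn']; field_simp
  have km' : m' * N' 1 0 = M' 1 0 - n' * N 1 0 := by rw [hm']; field_simp
  have eM : Mn = !![Mn 0 0, 0; Mn 1 0, 0] := by
    have a1 : Mn 0 1 = 0 := by
      rw [hMn]
      simp
      linear_combination -km
    have a2 : Mn 1 1 = 0 := by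
      rw [hMn]
      simp [h11]
      linear_combination -hl
    conv_lhs => rw [Matrix.eta_fin_two Mn]
    rw [a1, a2]
  have eM' : Mn' = !![0, Mn' 0 1; 0, Mn' 1 1] := by
    have a1 : Mn' 1 0 = 0 := by
      rw [hMn']
      simp
      linear_combination -km'
    have a2 : Mn' 0 0 = 0 := by
      rw [hMn']
      simp [h00]
      linear_combination -hl'
    conv_lhs => rw [Matrix.eta_fin_two Mn']
    rw [a1, a2]
  have ec : cn = !![cn 0 0, 0] := by
    have a1 : cn 0 1 = 0 := by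
      rw [hcn]
      simp
      linear_combination -kn
    ext i j
    fin_cases i
    fin_cases j
    · rfl
    · exact a1
  have ec' : cn' = !![0, cn' 0 1] := by
    have a1 : cn' 0 0 = 0 := by
      rw [hcn']
      simp
      linear_combination -kn'
    ext i j
    fin_cases i
    fin_cases j
    · exact a1
    · rfl
  have eN : N = !![N 0 0, N 0 1; N 1 0, 0] := by
    conv_lhs => rw [Matrix.eta_fin_two N]
    rw [h11]
  have eN' : N' = !![0, N' 0 1; N' 1 0, N' 1 1] := by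
    conv_lhs => rw [Matrix.eta_fin_two N']
    rw [h00]
  rw [eM, eM', ec, ec', eN, eN'] at h
  exact h.ncl (cl_3321N hcl hN hN' hxy (h.cn.comm (D8.mem1 _ _ _) (D8.mem2 _ _ _)))

/-- steps (3) and (4) -/
theorem stepA [CharZero k] (hcl : ∀ G : Fin 6 × Fin 3 → k, Cl (TG3 G)) {x y : k}
    (hT : MaxR ρ (Tr N M !![x, 0] c d nu th et N' M' !![0, y] c' d' nu' th' et'))
    (hx : x ≠ 0) (hy : y ≠ 0) (hxy : x ≠ y) : False := by
  have h1 := lin hT (-N 1 1) (-N' 0 0)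
  obtain ⟨N3, hN3⟩ : ∃ N3, N3 = N + (-N 1 1) • 1 := ⟨_, rfl⟩
  obtain ⟨N3', hN3'⟩ : ∃ N3', N3' = N' + (-N' 0 0) • 1 := ⟨_, rfl⟩
  rw [← hN3, ← hN3'] at h1
  have h11 : N3 1 1 = 0 := by
    rw [hN3]
    simp
  have h00 : N3' 0 0 = 0 := by
    rw [hN3']
    simp
  obtain ⟨s, hs, _, _, _, _, h2⟩ := deform h1 !![0, 1; 0, 0] 0 0 0 (by simp) (by simp)
    (D8.finite_quad (a := N3 0 1) (b := 1) (c := 0) (Or.inr (Or.inl one_ne_zero)))
  simp only [smul_zero, add_zero] at h2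
  obtain ⟨t, ht, _, _, _, _, h3⟩ := deform h2 0 !![0, 0; 1, 0] 0 0 (by simp) (by simp)
    (D8.finite_quad (a := N3' 1 0) (b := 1) (c := 0) (Or.inr (Or.inl one_ne_zero)))
  simp only [smul_zero, add_zero] at h3
  refine stepB hcl h3 hx hy hxy ?_ ?_ ?_ ?_
  · intro h
    apply hs
    simp at h
    show N3 0 1 + 1 * s + 0 * s ^ 2 = 0
    linear_combination h
  · intro h
    apply ht
    simp at h
    show N3' 1 0 + 1 * t + 0 * t ^ 2 = 0
    linear_combination h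
  · simp [h11]
  · simp [h00]

end T3321WAux

theorem no_3321W {k : Type*} [Field k] [IsAlgClosed k] [CharZero k] {ρ : ℕ → ℕ}
    (hcl : ∀ G : Fin 6 × Fin 3 → k, Cl (TG3 G))
    {N M N' M' : Matrix (Fin 2) (Fin 2) k} {a c a' c' : Matrix (Fin 1) (Fin 2) k}
    {d d' th th' : Matrix (Fin 2) (Fin 1) k} {nu nu' et et' : Matrix (Fin 1) (Fin 1) k}
    (hT : MaxR ρ ![JX k 2 1 1, BX N M a c !![1, 0] 0 d nu 0 th et,
      BX N' M' a' c' !![0, 1] 0 d' nu' 0 th' et']) : False := by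
  obtain ⟨s, hs, _, _, _, _, h1⟩ := T3321WAux.deform hT 0 0 !![1, 1] !![0, 2] (by simp) (by simp)
    (((D8.finite_quad (a := a 0 1) (b := 1) (c := 0) (Or.inr (Or.inl one_ne_zero))).union
      (D8.finite_quad (a := a 0 0 * a' 0 1 - a 0 1 * a' 0 0)
        (b := 2 * a 0 0 + a' 0 1 - a' 0 0) (c := 2) (Or.inr (Or.inr two_ne_zero)))).union
      (D8.finite_quad (a := (a 0 0 - a' 0 1) ^ 2 + 4 * a 0 1 * a' 0 0)
        (b := -(2 * (a 0 0 - a' 0 1)) + 4 * a' 0 0) (c := 1) (Or.inr (Or.inr one_ne_zero))))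
  simp only [Set.mem_union, not_or, Set.mem_ofPred_eq] at hs
  obtain ⟨⟨hs1, hs2⟩, hs3⟩ := hs
  obtain ⟨α, hα⟩ : ∃ α : Matrix (Fin 2) (Fin 2) k,
      α = !![a 0 0 + s, a 0 1 + s; a' 0 0, a' 0 1 + s * 2] := ⟨_, rfl⟩
  obtain ⟨g, h, x, y, hgh, hhg, hxy, hd⟩ := T3321WAux.diag_two (N := α)
    (by
      intro h
      apply hs1
      rw [hα] at h
      simp at h
      linear_combination h)
    (by
      intro h
      apply hs3
      rw [hα] at h
      simp at h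
      linear_combination h)
  have hdet : x * y = α.det := by
    have e1 := congrArg Matrix.det hd
    have e2 := congrArg Matrix.det hgh
    rw [Matrix.det_mul, Matrix.det_mul, Matrix.det_fin_two_of] at e1
    rw [Matrix.det_mul, Matrix.det_one] at e2
    linear_combination -e1 + α.det * e2
  have hne : x * y ≠ 0 := by
    rw [hdet, hα, Matrix.det_fin_two_of]
    intro h
    apply hs2
    linear_combination h
  obtain ⟨a2, ha2⟩ : ∃ a2, a2 = a + s • (!![1, 1] : Matrix (Fin 1) (Fin 2) k) := ⟨_, rfl⟩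
  obtain ⟨a2', ha2'⟩ : ∃ a2', a2' = a' + s • (!![0, 2] : Matrix (Fin 1) (Fin 2) k) := ⟨_, rfl⟩
  rw [← ha2, ← ha2'] at h1
  have e3 : !![a2 0 0, a2 0 1; a2' 0 0, a2' 0 1] = α := by
    rw [hα, ha2, ha2']
    ext i j
    fin_cases i <;> fin_cases j <;> simp
  obtain ⟨N2, M2, c2, d2, nu2, th2, et2, N2', M2', c2', d2', nu2', th2', et2', h2⟩ :=
    T3321WAux.norm h1 hgh (by rw [e3]; exact hd)
  exact T3321WAux.stepA hcl h2 (left_ne_zero_of_mul hne) (right_ne_zero_of_mul hne) hxy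

end Pool.Agent.Lib.D9
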