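import Pool.Agent.Lib.D9.T3321W

/-!
Module T3321b (2h; black box no_3321W). Type (3,3,2,1), b = pi = 0 for both, w = (1, 0), w' = 0, and e2 is killed by Y = [[N, d], [a, nu]] and Y' (notation of T3321W). e1, e2, u = basis of F = E + U = k^3.
Y = (y1, 0, y3), Y' = (y1', 0, y3') (columns), y1 = (n0, n1, a0), y3 = (d, nu). Relations: on e2: nothing (both sides 0); on e1: Θ' = [Y, Y'] e1. So y1, y3, y1', y3', Θ, M, c, M', c' are free, Θ' = [Y, Y'] e1.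
PROOF. (1) deform (polynomial family of the free parameters, Θ' by the formula) so that y1, y1', Y y1' are linearly independent: Y y1' = n0' y1 + a0' y3, so it is enough that a0' <> 0 and det (y1, y1', y3) <> 0 (e.g. y1 + s e1.. choose y1 -> + s e1, y1' -> + s u, y3 -> + s e2).
(2) write Y y1 + Θ = c1 y1 + c2 y1' + c3 Y y1'. β := y1 - c1 e1 - c3 y1' with the e2-coordinate replaced by 0 (Y e2 = 0, so Y β = Y y1 - c1 y1 - c3 Y y1'). f* := e2-coordinate functional on F.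
 Family (s in k): Y_s = Y + s c2 e1 f*, Y'_s = Y' + s β f*, w_s = w = (1, 0), w'_s = (0, s), Θ_s = Θ, Θ'_s = Θ' + s ((y1')_e2 c2 e1 - (y1)_e2 β). CN for all s: relation on e2: [Y_s, Y'_s] e2 + s Θ = s (Y β + s c2 e1 f*(β)) - s (Y' + s β f*) (c2 e1) + s Θ = s (Y y1 - c1 y1 - c3 Y y1' - c2 y1' + Θ) = 0
 (f*(β) = 0, f*(e1) = 0); relation on e1: [Y_s, Y'_s] e1 + Θ w'_s(e1) - Θ'_s = [Y, Y'] e1 + s (c2 e1 f*(y1') - β f*(y1)) - Θ'_s = 0.
 (in terms of blocks: Y_s: N 0 1 += s c2; Y'_s: N' 0 1 += s β_0, N' 1 1 += 0, a' 0 1 += s β_2.)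
(3) take a MaxR member with s <> 0 (MaxR.line2), scale C by 1/s (MaxR.lin): w = (1, 0), w' = (0, 1): no_3321W.
-/

namespace Pool.Agent.Lib.D9

open Matrix Pool.Agent.Lib.Q5dc Pool.Agent.Lib.D7

namespace T3321bAux

theorem fam {k n : Type*} [Field k] [Infinite k] [Fintype n] [DecidableEq n] {ρ : ℕ → ℕ}
    {A B C : Matrix n n k} (hT : MaxR ρ ![A, B, C]) (B' C' : Matrix n n k)
    (f g : k → Matrix n n k) (hf : ∀ s, B + s • B' = f s) (hg : ∀ s, C + s • C' = g s)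
    (h : ∀ s : k, CN ![A, f s, g s]) {F : Set k} (hF : F.Finite) :
    ∃ s, s ∉ F ∧ MaxR ρ ![A, f s, g s] := by
  obtain ⟨s, hs, h1⟩ := D8.MaxR.line2 hT B' C' (fun s => by rw [hf, hg]; exact h s) hF
  rw [hf, hg] at h1
  exact ⟨s, hs, h1⟩

section

variable {k : Type*} [Field k]

theorem cnE {n0 n1 a0 x n0' n1' a0' x' z' s d0 d1 nu th0 th1 et d0' d1' nu' th0' th1' et' : k}
    {M M' : Matrix (Fin 2) (Fin 2) k} {c c' : Matrix (Fin 1) (Fin 2) k}
    (h1 : x' * n0 + z' * d0 + s * th0 = x * n0')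
    (h2 : x' * n1 + z' * d1 + s * th1 = x * n1')
    (h3 : a0 * x' + nu * z' + s * et = a0' * x)
    (h4 : n0' * n0 + n1' * x + d0 * a0' = n0 * n0' + n1 * x' + d0' * a0 + th0')
    (h5 : n0' * n1 + d1 * a0' = n0 * n1' + d1' * a0 + th1')
    (h6 : a0 * n0' + nu * a0' = a0' * n0 + z' * n1 + nu' * a0 + et') :
    CN ![JX k 2 1 1, BX !![n0, x; n1, 0] M !![a0, 0] c !![1, 0] 0 !![d0; d1] !![nu] 0
        !![th0; th1] !![et],
      BX !![n0', x'; n1', 0] M' !![a0', z'] c' !![0, s] 0 !![d0'; d1'] !![nu'] 0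
        !![th0'; th1'] !![et']] := by
  refine cnX _ _ _ _ _ _ _ _ _ _ _ _ _ _ _ _ _ _ _ _ _ _ ?_ ?_ ?_ ?_ ?_ ?_ ?_
  · simp
  · ext i j
    fin_cases i <;> fin_cases j <;> simp [Matrix.mul_apply, Fin.sum_univ_succ]
    · linear_combination h4
    · linear_combination h1
    · linear_combination h5
    · linear_combination h2
  · ext i j
    fin_cases i <;> fin_cases j <;> simp [Matrix.mul_apply, Fin.sum_univ_succ]
    · linear_combination h6
    · linear_combination h3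
  · simp
  · simp
  · simp
  · simp

theorem relE {n0 n1 a0 n0' n1' a0' d0 d1 nu th0 th1 et d0' d1' nu' th0' th1' et' : k}
    {M M' : Matrix (Fin 2) (Fin 2) k} {c c' : Matrix (Fin 1) (Fin 2) k}
    (h : CN ![JX k 2 1 1, BX !![n0, 0; n1, 0] M !![a0, 0] c !![1, 0] 0 !![d0; d1] !![nu] 0
        !![th0; th1] !![et],
      BX !![n0', 0; n1', 0] M' !![a0', 0] c' !![0, 0] 0 !![d0'; d1'] !![nu'] 0
        !![th0'; th1'] !![et']]) :
    n0' * n0 + d0 * a0' = n0 * n0' + d0' * a0 + th0' ∧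
    n0' * n1 + d1 * a0' = n0 * n1' + d1' * a0 + th1' ∧
    a0 * n0' + nu * a0' = a0' * n0 + nu' * a0 + et' := by
  have h1 := h.1 1 2
  have h2 := (BX_comm _ _ _ _ _ _ _ _ _ _ _ _ _ _ _ _ _ _ _ _ _ _).1 h1
  obtain ⟨-, h3, h4, -⟩ := h2
  have e1 := congrFun (congrFun h3 0) 0
  have e2 := congrFun (congrFun h3 1) 0
  have e3 := congrFun (congrFun h4 0) 0
  simp [Matrix.mul_apply, Fin.sum_univ_succ] at e1 e2 e3
  exact ⟨by linear_combination e1, by linear_combination e2, by linear_combination e3⟩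

theorem s1 [Infinite k] {ρ : ℕ → ℕ}
    {n0 n1 a0 n0' n1' a0' d0 d1 nu th0 th1 et d0' d1' nu' th0' th1' et' : k}
    {M M' : Matrix (Fin 2) (Fin 2) k} {c c' : Matrix (Fin 1) (Fin 2) k}
    (h : MaxR ρ ![JX k 2 1 1, BX !![n0, 0; n1, 0] M !![a0, 0] c !![1, 0] 0 !![d0; d1] !![nu] 0
        !![th0; th1] !![et],
      BX !![n0', 0; n1', 0] M' !![a0', 0] c' !![0, 0] 0 !![d0'; d1'] !![nu'] 0
        !![th0'; th1'] !![et']]) :
    ∃ m0 t1 e : k, m0 ≠ 0 ∧ MaxR ρ ![JX k 2 1 1,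
      BX !![m0, 0; n1, 0] M !![a0, 0] c !![1, 0] 0 !![d0; d1] !![nu] 0 !![th0; th1] !![et],
      BX !![n0', 0; n1', 0] M' !![a0', 0] c' !![0, 0] 0 !![d0'; d1'] !![nu'] 0
        !![th0'; t1] !![e]] := by
  obtain ⟨h4, h5, h6⟩ := relE h.cn
  obtain ⟨s, hs, h'⟩ := fam h (BX !![1, 0; 0, 0] 0 0 0 0 0 0 0 0 0 0)
    (BX 0 0 0 0 0 0 0 0 0 !![0; -n1'] !![-a0'])
    (fun s => BX !![n0 + s, 0; n1, 0] M !![a0, 0] c !![1, 0] 0 !![d0; d1] !![nu] 0
      !![th0; th1] !![et])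
    (fun s => BX !![n0', 0; n1', 0] M' !![a0', 0] c' !![0, 0] 0 !![d0'; d1'] !![nu'] 0
      !![th0'; th1' - s * n1'] !![et' - s * a0'])
    (by
      intro s
      rw [BX_smul, BX_add, BX_inj]
      refine ⟨?_, ?_, ?_, ?_, ?_, ?_, ?_, ?_, ?_, ?_, ?_⟩ <;>
        (ext i j; fin_cases i <;> fin_cases j <;> simp))
    (by
      intro s
      rw [BX_smul, BX_add, BX_inj]
      refine ⟨?_, ?_, ?_, ?_, ?_, ?_, ?_, ?_, ?_, ?_, ?_⟩ <;>
        (ext i j; fin_cases i <;> fin_cases j <;> simp [sub_eq_add_neg]))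
    (by
      intro s
      refine cnE ?_ ?_ ?_ ?_ ?_ ?_
      · ring
      · ring
      · ring
      · linear_combination h4
      · linear_combination h5
      · linear_combination h6)
    (Set.finite_singleton (-n0))
  exact ⟨_, _, _, fun h0 => hs (by rw [Set.mem_singleton_iff]; linear_combination h0), h'⟩

theorem s2 [Infinite k] {ρ : ℕ → ℕ}
    {n0 n1 a0 n0' n1' a0' d0 d1 nu th0 th1 et d0' d1' nu' th0' th1' et' : k}
    {M M' : Matrix (Fin 2) (Fin 2) k} {c c' : Matrix (Fin 1) (Fin 2) k}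
    (h : MaxR ρ ![JX k 2 1 1, BX !![n0, 0; n1, 0] M !![a0, 0] c !![1, 0] 0 !![d0; d1] !![nu] 0
        !![th0; th1] !![et],
      BX !![n0', 0; n1', 0] M' !![a0', 0] c' !![0, 0] 0 !![d0'; d1'] !![nu'] 0
        !![th0'; th1'] !![et']]) (hn : n0 ≠ 0) :
    ∃ b0 t0 t1 e : k, b0 ≠ 0 ∧ n0 * b0 - a0 * n0' ≠ 0 ∧ MaxR ρ ![JX k 2 1 1,
      BX !![n0, 0; n1, 0] M !![a0, 0] c !![1, 0] 0 !![d0; d1] !![nu] 0 !![th0; th1] !![et],
      BX !![n0', 0; n1', 0] M' !![b0, 0] c' !![0, 0] 0 !![d0'; d1'] !![nu'] 0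
        !![t0; t1] !![e]] := by
  obtain ⟨h4, h5, h6⟩ := relE h.cn
  obtain ⟨s, hs, h'⟩ := fam h (BX 0 0 0 0 0 0 0 0 0 0 0)
    (BX 0 0 !![1, 0] 0 0 0 0 0 0 !![d0; d1] !![nu - n0])
    (fun s => BX !![n0, 0; n1, 0] M !![a0, 0] c !![1, 0] 0 !![d0; d1] !![nu] 0
      !![th0; th1] !![et])
    (fun s => BX !![n0', 0; n1', 0] M' !![a0' + s, 0] c' !![0, 0] 0 !![d0'; d1'] !![nu'] 0
      !![th0' + s * d0; th1' + s * d1] !![et' + s * (nu - n0)])
    (by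
      intro s
      rw [BX_smul, BX_add, BX_inj]
      refine ⟨?_, ?_, ?_, ?_, ?_, ?_, ?_, ?_, ?_, ?_, ?_⟩ <;>
        (ext i j; fin_cases i <;> fin_cases j <;> simp))
    (by
      intro s
      rw [BX_smul, BX_add, BX_inj]
      refine ⟨?_, ?_, ?_, ?_, ?_, ?_, ?_, ?_, ?_, ?_, ?_⟩ <;>
        (ext i j; fin_cases i <;> fin_cases j <;> simp))
    (by
      intro s
      refine cnE ?_ ?_ ?_ ?_ ?_ ?_
      · ring
      · ring
      · ring
      · linear_combination h4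
      · linear_combination h5
      · linear_combination h6)
    (F := {-a0', (a0 * n0' - n0 * a0') / n0})
    ((Set.finite_singleton _).insert _)
  rw [Set.mem_insert_iff, Set.mem_singleton_iff, not_or] at hs
  refine ⟨_, _, _, _, fun h0 => hs.1 (by linear_combination h0), fun h0 => hs.2 ?_, h'⟩
  rw [eq_div_iff hn]
  linear_combination h0

theorem s3 [Infinite k] {ρ : ℕ → ℕ}
    {n0 n1 a0 n0' n1' a0' d0 d1 nu th0 th1 et d0' d1' nu' th0' th1' et' : k}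
    {M M' : Matrix (Fin 2) (Fin 2) k} {c c' : Matrix (Fin 1) (Fin 2) k}
    (h : MaxR ρ ![JX k 2 1 1, BX !![n0, 0; n1, 0] M !![a0, 0] c !![1, 0] 0 !![d0; d1] !![nu] 0
        !![th0; th1] !![et],
      BX !![n0', 0; n1', 0] M' !![a0', 0] c' !![0, 0] 0 !![d0'; d1'] !![nu'] 0
        !![th0'; th1'] !![et']]) (hn : n0 * a0' - a0 * n0' ≠ 0) :
    ∃ d1 t1 : k, n0 * (n1' * nu - d1 * a0') - n0' * (n1 * nu - d1 * a0) +
        d0 * (n1 * a0' - n1' * a0) ≠ 0 ∧ MaxR ρ ![JX k 2 1 1,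
      BX !![n0, 0; n1, 0] M !![a0, 0] c !![1, 0] 0 !![d0; d1] !![nu] 0 !![th0; th1] !![et],
      BX !![n0', 0; n1', 0] M' !![a0', 0] c' !![0, 0] 0 !![d0'; d1'] !![nu'] 0
        !![th0'; t1] !![et']] := by
  obtain ⟨h4, h5, h6⟩ := relE h.cn
  obtain ⟨s, hs, h'⟩ := fam h (BX 0 0 0 0 0 0 !![0; 1] 0 0 0 0)
    (BX 0 0 0 0 0 0 0 0 0 !![0; a0'] 0)
    (fun s => BX !![n0, 0; n1, 0] M !![a0, 0] c !![1, 0] 0 !![d0; d1 + s] !![nu] 0
      !![th0; th1] !![et])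
    (fun s => BX !![n0', 0; n1', 0] M' !![a0', 0] c' !![0, 0] 0 !![d0'; d1'] !![nu'] 0
      !![th0'; th1' + s * a0'] !![et'])
    (by
      intro s
      rw [BX_smul, BX_add, BX_inj]
      refine ⟨?_, ?_, ?_, ?_, ?_, ?_, ?_, ?_, ?_, ?_, ?_⟩ <;>
        (ext i j; fin_cases i <;> fin_cases j <;> simp))
    (by
      intro s
      rw [BX_smul, BX_add, BX_inj]
      refine ⟨?_, ?_, ?_, ?_, ?_, ?_, ?_, ?_, ?_, ?_, ?_⟩ <;>
        (ext i j; fin_cases i <;> fin_cases j <;> simp))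
    (by
      intro s
      refine cnE ?_ ?_ ?_ ?_ ?_ ?_
      · ring
      · ring
      · ring
      · linear_combination h4
      · linear_combination h5
      · linear_combination h6)
    (F := {(n0 * (n1' * nu - d1 * a0') - n0' * (n1 * nu - d1 * a0) +
        d0 * (n1 * a0' - n1' * a0)) / (n0 * a0' - a0 * n0')})
    (Set.finite_singleton _)
  refine ⟨_, _, fun h0 => hs ?_, h'⟩
  rw [Set.mem_singleton_iff, eq_div_iff hn]
  linear_combination -h0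

/-- coordinates with respect to a basis -/
theorem basis3 {n0 n1 a0 n0' n1' a0' d0 d1 nu : k}
    (h : n0 * (n1' * nu - d1 * a0') - n0' * (n1 * nu - d1 * a0) +
      d0 * (n1 * a0' - n1' * a0) ≠ 0) (x y z : k) :
    ∃ p q r : k, p * n0 + q * n0' + r * d0 = x ∧ p * n1 + q * n1' + r * d1 = y ∧
      p * a0 + q * a0' + r * nu = z := by
  set D := n0 * (n1' * nu - d1 * a0') - n0' * (n1 * nu - d1 * a0) +
      d0 * (n1 * a0' - n1' * a0) with hD
  refine ⟨(x * (n1' * nu - d1 * a0') - n0' * (y * nu - d1 * z) + d0 * (y * a0' - n1' * z)) / D,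
    (n0 * (y * nu - d1 * z) - x * (n1 * nu - d1 * a0) + d0 * (n1 * z - y * a0)) / D,
    (n0 * (n1' * z - y * a0') - n0' * (n1 * z - y * a0) + x * (n1 * a0' - n1' * a0)) / D,
    ?_, ?_, ?_⟩
  · field_simp
    rw [hD]
    ring
  · field_simp
    rw [hD]
    ring
  · field_simp
    rw [hD]
    ring

theorem s4 [IsAlgClosed k] [CharZero k] {ρ : ℕ → ℕ}
    (hcl : ∀ G : Fin 6 × Fin 3 → k, Cl (TG3 G))
    {n0 n1 a0 n0' n1' a0' d0 d1 nu th0 th1 et d0' d1' nu' th0' th1' et' : k}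
    {M M' : Matrix (Fin 2) (Fin 2) k} {c c' : Matrix (Fin 1) (Fin 2) k}
    (h : MaxR ρ ![JX k 2 1 1, BX !![n0, 0; n1, 0] M !![a0, 0] c !![1, 0] 0 !![d0; d1] !![nu] 0
        !![th0; th1] !![et],
      BX !![n0', 0; n1', 0] M' !![a0', 0] c' !![0, 0] 0 !![d0'; d1'] !![nu'] 0
        !![th0'; th1'] !![et']]) (ha : a0' ≠ 0)
    (hD : n0 * (n1' * nu - d1 * a0') - n0' * (n1 * nu - d1 * a0) +
      d0 * (n1 * a0' - n1' * a0) ≠ 0) : False := by
  have hinf : Infinite k := IsAlgClosed.instInfinite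
  obtain ⟨h4, h5, h6⟩ := relE h.cn
  obtain ⟨p, q, r, e1, e2, e3⟩ := basis3 hD th0 th1 et
  -- `c1, c2, c3` and `β`
  obtain ⟨c3, hc3⟩ : ∃ c3, c3 * a0' = a0 + r := ⟨(a0 + r) / a0', by field_simp⟩
  obtain ⟨c1, hc1⟩ : ∃ c1, c1 = n0 + p - c3 * n0' := ⟨_, rfl⟩
  obtain ⟨u, hu⟩ : ∃ u, u = n0 - c1 - c3 * n0' := ⟨_, rfl⟩
  obtain ⟨v, hv⟩ : ∃ v, v = a0 - c3 * a0' := ⟨_, rfl⟩
  have hu' : u = -p := by rw [hu, hc1]; ring
  have hv' : v = -r := by rw [hv, hc3]; ring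
  obtain ⟨s, hs, h'⟩ := fam h (BX !![0, q; 0, 0] 0 0 0 0 0 0 0 0 0 0)
    (BX !![0, u; 0, 0] 0 !![0, v] 0 !![0, 1] 0 0 0 0 !![q * n1' - n1 * u; 0] !![-(n1 * v)])
    (fun s => BX !![n0, s * q; n1, 0] M !![a0, 0] c !![1, 0] 0 !![d0; d1] !![nu] 0
      !![th0; th1] !![et])
    (fun s => BX !![n0', s * u; n1', 0] M' !![a0', s * v] c' !![0, s] 0 !![d0'; d1'] !![nu'] 0
      !![th0' + s * (q * n1' - n1 * u); th1'] !![et' + s * -(n1 * v)])
    (by
      intro s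
      rw [BX_smul, BX_add, BX_inj]
      refine ⟨?_, ?_, ?_, ?_, ?_, ?_, ?_, ?_, ?_, ?_, ?_⟩ <;>
        (ext i j; fin_cases i <;> fin_cases j <;> simp))
    (by
      intro s
      rw [BX_smul, BX_add, BX_inj]
      refine ⟨?_, ?_, ?_, ?_, ?_, ?_, ?_, ?_, ?_, ?_, ?_⟩ <;>
        (ext i j; fin_cases i <;> fin_cases j <;> simp))
    (by
      intro s
      refine cnE ?_ ?_ ?_ ?_ ?_ ?_
      · rw [hu', hv']; linear_combination (-s) * e1
      · rw [hu', hv']; linear_combination (-s) * e2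
      · rw [hu', hv']; linear_combination (-s) * e3
      · linear_combination h4
      · linear_combination h5
      · linear_combination h6)
    (Set.finite_singleton 0)
  rw [Set.mem_singleton_iff] at hs
  have h2 := D8.MaxR.lin h' 1 0 0 s⁻¹ 0 0 0 0 (by simpa using inv_ne_zero hs)
  simp only [one_smul, zero_smul, add_zero, zero_add] at h2
  rw [BX_smul] at h2
  have e : s⁻¹ • (!![0, s] : Matrix (Fin 1) (Fin 2) k) = !![0, 1] := by
    ext i j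
    fin_cases i
    fin_cases j
    · simp
    · simp [hs]
  rw [e, smul_zero, smul_zero] at h2
  exact no_3321W hcl h2

end

end T3321bAux

open T3321bAux

theorem no_3321b {k : Type*} [Field k] [IsAlgClosed k] [CharZero k] {ρ : ℕ → ℕ}
    (hcl : ∀ G : Fin 6 × Fin 3 → k, Cl (TG3 G))
    {n0 n1 a0 n0' n1' a0' : k} {M M' : Matrix (Fin 2) (Fin 2) k} {c c' : Matrix (Fin 1) (Fin 2) k}
    {d d' th th' : Matrix (Fin 2) (Fin 1) k} {nu nu' et et' : Matrix (Fin 1) (Fin 1) k}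
    (hT : MaxR ρ ![JX k 2 1 1, BX !![n0, 0; n1, 0] M !![a0, 0] c !![1, 0] 0 d nu 0 th et,
      BX !![n0', 0; n1', 0] M' !![a0', 0] c' 0 0 d' nu' 0 th' et']) : False := by
  have hinf : Infinite k := IsAlgClosed.instInfinite
  have h21 : ∀ x : Matrix (Fin 2) (Fin 1) k, x = !![x 0 0; x 1 0] := by
    intro x
    ext i j
    fin_cases i <;> fin_cases j <;> simp
  have h11 : ∀ x : Matrix (Fin 1) (Fin 1) k, x = !![x 0 0] := by
    intro x
    ext i j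
    fin_cases i
    fin_cases j
    simp
  have h12 : (0 : Matrix (Fin 1) (Fin 2) k) = !![0, 0] := by
    ext i j
    fin_cases i
    fin_cases j <;> simp
  rw [h21 d, h21 d', h21 th, h21 th', h11 nu, h11 nu', h11 et, h11 et', h12] at hT
  obtain ⟨m0, t1, e, hm, h1⟩ := s1 hT
  obtain ⟨b0, t0, t1', e', hb, hb', h2⟩ := s2 h1 hm
  obtain ⟨d1, t1'', hD, h3⟩ := s3 h2 hb'
  exact s4 hcl h3 hb hD

end Pool.Agent.Lib.D9
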