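import Pool.Agent.Lib.D9.Blk

/-!
# MP_5dcbc3_ag: 3 x 3 matrices commute with a matrix that has a cyclic vector
-/

set_option autoImplicit false

namespace Pool.Agent.Lib.D9

namespace T333Aux

open Matrix

variable {k : Type*} [Field k]

/-- determinant of three vectors -/
def D3 (a b c : Fin 3 → k) : k :=
  a 0 * (b 1 * c 2 - b 2 * c 1) - a 1 * (b 0 * c 2 - b 2 * c 0) + a 2 * (b 0 * c 1 - b 1 * c 0)

/-- `v` is a cyclic vector of `R` -/
def Cyc (R : Matrix (Fin 3) (Fin 3) k) (v : Fin 3 → k) : Prop :=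
  D3 v (R *ᵥ v) (R *ᵥ (R *ᵥ v)) ≠ 0

/-- `N` commutes with a matrix that has a cyclic vector -/
def Good (N : Matrix (Fin 3) (Fin 3) k) : Prop :=
  ∃ (R : Matrix (Fin 3) (Fin 3) k) (v : Fin 3 → k), N * R = R * N ∧ Cyc R v

theorem D3_mulVec (g : Matrix (Fin 3) (Fin 3) k) (a b c : Fin 3 → k) :
    D3 (g *ᵥ a) (g *ᵥ b) (g *ᵥ c) = g.det * D3 a b c := by
  simp only [D3, Matrix.mulVec, dotProduct, Fin.sum_univ_three, Matrix.det_fin_three]
  ring

theorem good_conj {N g g' : Matrix (Fin 3) (Fin 3) k} (h : g * g' = 1)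
    (hN : Good (g * N * g')) : Good N := by
  have h' : g' * g = 1 := mul_eq_one_comm.1 h
  obtain ⟨R, v, hc, hv⟩ := hN
  refine ⟨g' * R * g, g' *ᵥ v, ?_, ?_⟩
  · have e1 : N * (g' * R * g) = g' * (g * N * g' * R) * g := by
      calc N * (g' * R * g) = (g' * g) * N * (g' * R * g) := by rw [h', one_mul]
        _ = g' * (g * N * g' * R) * g := by noncomm_ring
    have e2 : g' * R * g * N = g' * (R * (g * N * g')) * g := by
      calc g' * R * g * N = g' * R * g * N * (g' * g) := by rw [h', mul_one]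
        _ = g' * (R * (g * N * g')) * g := by noncomm_ring
    rw [e1, e2, hc]
  · have e1 : ∀ w : Fin 3 → k, (g' * R * g) *ᵥ (g' *ᵥ w) = g' *ᵥ (R *ᵥ w) := by
      intro w
      rw [Matrix.mulVec_mulVec, Matrix.mulVec_mulVec, mul_assoc, h, mul_one]
    unfold Cyc
    rw [e1, e1, D3_mulVec]
    refine mul_ne_zero ?_ hv
    intro h0
    have h1 := congrArg Matrix.det h
    rw [Matrix.det_mul, h0, mul_zero, Matrix.det_one] at h1
    exact zero_ne_one h1

theorem good_add {N : Matrix (Fin 3) (Fin 3) k} (l : k) (hN : Good (N - l • 1)) : Good N := by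
  obtain ⟨R, v, hc, hv⟩ := hN
  refine ⟨R, v, ?_, hv⟩
  rw [sub_mul, mul_sub, smul_mul_assoc, mul_smul_comm, one_mul, mul_one] at hc
  exact sub_left_inj.1 hc

theorem exists_row {y : Fin 3 → k} (hy : y ≠ 0) :
    ∃ g g' : Matrix (Fin 3) (Fin 3) k, g * g' = 1 ∧ ∀ j, g 0 j = y j := by
  have key : ∀ g : Matrix (Fin 3) (Fin 3) k, g.det ≠ 0 → (∀ j, g 0 j = y j) →
      ∃ g g' : Matrix (Fin 3) (Fin 3) k, g * g' = 1 ∧ ∀ j, g 0 j = y j := fun g hg hj =>
    ⟨g, g⁻¹, Matrix.mul_nonsing_inv _ (isUnit_iff_ne_zero.2 hg), hj⟩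
  obtain ⟨j, hj⟩ : ∃ j, y j ≠ 0 := by
    by_contra h
    push Not at h
    exact hy (funext h)
  fin_cases j
  · refine key !![y 0, y 1, y 2; 0, 1, 0; 0, 0, 1] ?_ ?_
    · simpa [Matrix.det_fin_three] using hj
    · intro j; fin_cases j <;> rfl
  · refine key !![y 0, y 1, y 2; 1, 0, 0; 0, 0, 1] ?_ ?_
    · simpa [Matrix.det_fin_three] using hj
    · intro j; fin_cases j <;> rfl
  · refine key !![y 0, y 1, y 2; 1, 0, 0; 0, 1, 0] ?_ ?_
    · simpa [Matrix.det_fin_three] using hj
    · intro j; fin_cases j <;> rfl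

theorem good_zero : Good (0 : Matrix (Fin 3) (Fin 3) k) := by
  refine ⟨!![0, 0, 0; 1, 0, 0; 0, 1, 0], ![1, 0, 0], by rw [zero_mul, mul_zero], ?_⟩
  simp [Cyc, D3, Matrix.mulVec, dotProduct, Fin.sum_univ_three]

theorem good_col [CharZero k] (x : Fin 3 → k) :
    Good (!![x 0, 0, 0; x 1, 0, 0; x 2, 0, 0] : Matrix (Fin 3) (Fin 3) k) := by
  by_cases h0 : x 0 = 0
  · by_cases h1 : x 1 = 0
    · by_cases h2 : x 2 = 0
      · have : (!![x 0, 0, 0; x 1, 0, 0; x 2, 0, 0] : Matrix (Fin 3) (Fin 3) k) = 0 := by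
          rw [h0, h1, h2]
          ext i j
          fin_cases i <;> fin_cases j <;> rfl
        rw [this]
        exact good_zero
      · refine ⟨!![0, 0, 0; 1, 0, 0; 0, -x 2 * x 2, 0], ![1, 0, 0], ?_, ?_⟩
        · ext i j
          fin_cases i <;> fin_cases j <;> simp [Matrix.mul_apply, Fin.sum_univ_three, h0, h1]
        · simp [Cyc, D3, Matrix.mulVec, dotProduct, Fin.sum_univ_three, h2]
    · refine ⟨!![0, 0, 0; 0, -x 2 * x 1, x 1 * x 1; 1, -x 2 * x 2, x 1 * x 2],
        ![1, 0, 0], ?_, ?_⟩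
      · ext i j
        fin_cases i <;> fin_cases j <;> simp [Matrix.mul_apply, Fin.sum_univ_three, h0] <;> ring
      · simp [Cyc, D3, Matrix.mulVec, dotProduct, Fin.sum_univ_three, h1]
  · refine ⟨!![0, 0, 0; -x 1 / x 0, 1, 0; x 2 / x 0, 0, -1],
      ![1, 1 + x 1 / x 0, -1 + x 2 / x 0], ?_, ?_⟩
    · ext i j
      fin_cases i <;> fin_cases j <;> simp [Matrix.mul_apply, Fin.sum_univ_three] <;>
        field_simp <;> ring
    · have e : D3 ![1, 1 + x 1 / x 0, -1 + x 2 / x 0]
          (!![0, 0, 0; -x 1 / x 0, 1, 0; x 2 / x 0, 0, -1] *ᵥ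
            ![1, 1 + x 1 / x 0, -1 + x 2 / x 0])
          (!![0, 0, 0; -x 1 / x 0, 1, 0; x 2 / x 0, 0, -1] *ᵥ
            (!![0, 0, 0; -x 1 / x 0, 1, 0; x 2 / x 0, 0, -1] *ᵥ
              ![1, 1 + x 1 / x 0, -1 + x 2 / x 0])) = -2 := by
        simp [D3, Matrix.mulVec, dotProduct, Fin.sum_univ_three]
        field_simp
        ring
      unfold Cyc
      rw [e]
      norm_num

theorem good_vec [CharZero k] (x y : Fin 3 → k) : Good (vecMulVec x y) := by
  by_cases hy : y = 0
  · rw [hy]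
    have : vecMulVec x (0 : Fin 3 → k) = 0 := by
      ext i j
      simp [vecMulVec_apply]
    rw [this]
    exact good_zero
  obtain ⟨g, g', hg, hr⟩ := exists_row hy
  refine good_conj hg ?_
  have hrow : y ᵥ* g' = fun j => (1 : Matrix (Fin 3) (Fin 3) k) 0 j := by
    funext j
    rw [← hg, Matrix.mul_apply]
    simp [Matrix.vecMul, dotProduct, hr]
  have e : g * vecMulVec x y * g' = !![(g *ᵥ x) 0, 0, 0; (g *ᵥ x) 1, 0, 0; (g *ᵥ x) 2, 0, 0] := by
    rw [Matrix.mul_vecMulVec, Matrix.vecMulVec_mul, hrow]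
    ext i j
    fin_cases i <;> fin_cases j <;> simp [vecMulVec_apply]
  rw [e]
  exact good_col _

/-- a matrix with vanishing first row -/
theorem good_row [CharZero k] (r1 r2 a b c d : k) :
    Good (!![0, 0, 0; r1, a, b; r2, c, d] : Matrix (Fin 3) (Fin 3) k) := by
  -- the determinant of `v, N v, N ^ 2 v` for `v = (1, v1, v2)`
  have key : ∀ v1 v2 : k, D3 ![1, v1, v2] (!![0, 0, 0; r1, a, b; r2, c, d] *ᵥ ![1, v1, v2])
      (!![0, 0, 0; r1, a, b; r2, c, d] *ᵥ
        (!![0, 0, 0; r1, a, b; r2, c, d] *ᵥ ![1, v1, v2])) =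
      c * (r1 + a * v1 + b * v2) ^ 2 + (d - a) * (r1 + a * v1 + b * v2) *
        (r2 + c * v1 + d * v2) - b * (r2 + c * v1 + d * v2) ^ 2 := by
    intro v1 v2
    simp [D3, Matrix.mulVec, dotProduct, Fin.sum_univ_three]
    ring
  have self : ∀ v1 v2 : k, c * (r1 + a * v1 + b * v2) ^ 2 + (d - a) * (r1 + a * v1 + b * v2) *
        (r2 + c * v1 + d * v2) - b * (r2 + c * v1 + d * v2) ^ 2 ≠ 0 →
      Good (!![0, 0, 0; r1, a, b; r2, c, d] : Matrix (Fin 3) (Fin 3) k) := by
    intro v1 v2 h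
    refine ⟨_, ![1, v1, v2], rfl, ?_⟩
    unfold Cyc
    rw [key]
    exact h
  by_cases hs : b = 0 ∧ c = 0 ∧ a = d
  · obtain ⟨rfl, rfl, rfl⟩ := hs
    refine good_add a ?_
    have e : !![0, 0, 0; r1, a, 0; r2, 0, a] - a • (1 : Matrix (Fin 3) (Fin 3) k) =
        !![(![-a, r1, r2] : Fin 3 → k) 0, 0, 0; (![-a, r1, r2] : Fin 3 → k) 1, 0, 0;
          (![-a, r1, r2] : Fin 3 → k) 2, 0, 0] := by
      ext i j
      fin_cases i <;> fin_cases j <;> simp
    rw [e]
    exact good_col _
  by_cases hd : a * d - b * c = 0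
  · -- `N` is cyclic or of rank one
    by_contra hN
    have hq : ∀ v1 v2 : k, c * (r1 + a * v1 + b * v2) ^ 2 + (d - a) * (r1 + a * v1 + b * v2) *
        (r2 + c * v1 + d * v2) - b * (r2 + c * v1 + d * v2) ^ 2 = 0 := by
      intro v1 v2
      by_contra h
      exact hN (self v1 v2 h)
    have q0 := hq 0 0
    have q1 := hq 1 0
    have q2 := hq 0 1
    simp only [mul_zero, add_zero, mul_one] at q0 q1 q2
    have hA' : (r1 * c - r2 * a) * (a + d) = 0 := by
      linear_combination q1 - q0 - (2 * r2 + c) * hd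
    have hB' : (r1 * d - r2 * b) * (a + d) = 0 := by
      linear_combination q2 - q0 + (2 * r1 + b) * hd
    have hA : r1 * c - r2 * a = 0 := by
      have h : (r1 * c - r2 * a) * (r1 * c - r2 * a) = 0 := by
        linear_combination c * q0 - r2 * hA' - r2 ^ 2 * hd
      exact mul_self_eq_zero.1 h
    have hB : r1 * d - r2 * b = 0 := by
      have h : (r1 * d - r2 * b) * (r1 * d - r2 * b) = 0 := by
        linear_combination r1 * hB' - r1 ^ 2 * hd - b * q0
      exact mul_self_eq_zero.1 h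
    have fin : ∀ x y : Fin 3 → k, (!![0, 0, 0; r1, a, b; r2, c, d] : Matrix (Fin 3) (Fin 3) k) =
        vecMulVec x y → False := by
      intro x y h
      rw [h] at hN
      exact hN (good_vec x y)
    by_cases ha : a = 0
    · by_cases hb : b = 0
      · by_cases hr : r1 = 0
        · refine fin ![0, 0, 1] ![r2, c, d] ?_
          ext i j
          fin_cases i <;> fin_cases j <;> simp [vecMulVec_apply, ha, hb, hr]
        · refine fin ![0, 1, r2 / r1] ![r1, a, b] ?_
          have e1 : r2 / r1 * r1 = r2 := div_mul_cancel₀ _ hr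
          have e2 : r2 / r1 * a = c := by
            rw [div_mul_eq_mul_div, div_eq_iff hr]
            linear_combination -hA
          have e3 : r2 / r1 * b = d := by
            rw [div_mul_eq_mul_div, div_eq_iff hr]
            linear_combination -hB
          ext i j
          fin_cases i <;> fin_cases j <;> simp [vecMulVec_apply, e1, e2, e3]
      · refine fin ![0, 1, d / b] ![r1, a, b] ?_
        have e1 : d / b * r1 = r2 := by
          rw [div_mul_eq_mul_div, div_eq_iff hb]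
          linear_combination hB
        have e2 : d / b * a = c := by
          rw [div_mul_eq_mul_div, div_eq_iff hb]
          linear_combination hd
        have e3 : d / b * b = d := div_mul_cancel₀ _ hb
        ext i j
        fin_cases i <;> fin_cases j <;> simp [vecMulVec_apply, e1, e2, e3]
    · refine fin ![0, 1, c / a] ![r1, a, b] ?_
      have e1 : c / a * r1 = r2 := by
        rw [div_mul_eq_mul_div, div_eq_iff ha]
        linear_combination hA
      have e2 : c / a * a = c := div_mul_cancel₀ _ ha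
      have e3 : c / a * b = d := by
        rw [div_mul_eq_mul_div, div_eq_iff ha]
        linear_combination -hd
      ext i j
      fin_cases i <;> fin_cases j <;> simp [vecMulVec_apply, e1, e2, e3]
  · -- the lower block is invertible and not scalar
    have hz : ∃ z1 z2 : k, c * z1 ^ 2 + (d - a) * z1 * z2 - b * z2 ^ 2 ≠ 0 := by
      by_contra h
      push Not at h
      have h1 := h 1 0
      have h2 := h 0 1
      have h3 := h 1 1
      simp at h1 h2 h3
      refine hs ⟨h2, h1, ?_⟩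
      rw [h1, h2] at h3
      linear_combination -h3
    obtain ⟨z1, z2, hz⟩ := hz
    refine self ((d * (z1 - r1) - b * (z2 - r2)) / (a * d - b * c))
      ((a * (z2 - r2) - c * (z1 - r1)) / (a * d - b * c)) ?_
    have e1 : r1 + a * ((d * (z1 - r1) - b * (z2 - r2)) / (a * d - b * c)) +
        b * ((a * (z2 - r2) - c * (z1 - r1)) / (a * d - b * c)) = z1 := by
      have e : r1 + a * ((d * (z1 - r1) - b * (z2 - r2)) / (a * d - b * c)) +
        b * ((a * (z2 - r2) - c * (z1 - r1)) / (a * d - b * c)) =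
          r1 + (a * d - b * c) * (z1 - r1) / (a * d - b * c) := by ring
      rw [e, mul_div_cancel_left₀ _ hd]
      ring
    have e2 : r2 + c * ((d * (z1 - r1) - b * (z2 - r2)) / (a * d - b * c)) +
        d * ((a * (z2 - r2) - c * (z1 - r1)) / (a * d - b * c)) = z2 := by
      have e : r2 + c * ((d * (z1 - r1) - b * (z2 - r2)) / (a * d - b * c)) +
        d * ((a * (z2 - r2) - c * (z1 - r1)) / (a * d - b * c)) =
          r2 + (a * d - b * c) * (z2 - r2) / (a * d - b * c) := by ring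
      rw [e, mul_div_cancel_left₀ _ hd]
      ring
    rw [e1, e2]
    exact hz

/-- every matrix commutes with a matrix that has a cyclic vector -/
theorem good_all [CharZero k] [IsAlgClosed k] (N : Matrix (Fin 3) (Fin 3) k) : Good N := by
  obtain ⟨l, hl⟩ : ∃ l : k, (N - l • (1 : Matrix (Fin 3) (Fin 3) k)).det = 0 := by
    obtain ⟨l, hl⟩ := IsAlgClosed.exists_root N.charpoly (by
      rw [Matrix.charpoly_degree_eq_dim]
      simp)
    refine ⟨l, ?_⟩
    rw [Polynomial.IsRoot.def, Matrix.eval_charpoly] at hl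
    have e : N - l • (1 : Matrix (Fin 3) (Fin 3) k) = -(Matrix.scalar (Fin 3) l - N) := by
      rw [neg_sub]
      congr 1
      ext i j
      fin_cases i <;> fin_cases j <;> simp
    rw [e, Matrix.det_neg, hl, mul_zero]
  refine good_add l ?_
  obtain ⟨y, hy, hy'⟩ := Matrix.exists_vecMul_eq_zero_iff.2 hl
  obtain ⟨g, g', hg, hr⟩ := exists_row hy
  refine good_conj hg ?_
  have h0 : ∀ j, (g * (N - l • 1) * g') 0 j = 0 := by
    intro j
    rw [mul_assoc, Matrix.mul_apply]
    have e : ∑ i, g 0 i * ((N - l • 1) * g') i j = (y ᵥ* ((N - l • 1) * g')) j := by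
      simp [Matrix.vecMul, dotProduct, hr]
    rw [e, ← Matrix.vecMul_vecMul, hy', Matrix.zero_vecMul]
    rfl
  have e : g * (N - l • 1) * g' = !![0, 0, 0;
      (g * (N - l • 1) * g') 1 0, (g * (N - l • 1) * g') 1 1, (g * (N - l • 1) * g') 1 2;
      (g * (N - l • 1) * g') 2 0, (g * (N - l • 1) * g') 2 1, (g * (N - l • 1) * g') 2 2] := by
    ext i j
    fin_cases i
    · rw [show ((⟨0, by decide⟩ : Fin 3)) = 0 from rfl, h0]
      fin_cases j <;> rfl
    · fin_cases j <;> rfl
    · fin_cases j <;> rfl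
  rw [e]
  exact good_row ..

end T333Aux

end Pool.Agent.Lib.D9
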