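import Pool.Agent.Lib.D8.UtilB
import Pool.Agent.Lib.D9.Defs
import Pool.Agent.Lib.D7.T3211

/-!
# MP_5dcbc3_ag: type (4, 2, 1, 1, 1), the matrices, their shape and ranks
-/

namespace Pool.Agent.Lib.D9

open Matrix Pool.Agent.Lib.Q5dc Pool.Agent.Lib.D7

/-- `v0, .., v3`, `u0, u1 = 4, 5`, `P = <e6, e7, e8>`:
`v0 -> al u0 + al1 u1 + w`, `v1 -> al u1`, `u0 -> be v2 + be1 v3 + ga u1 + pi`, `u1 -> be v3`,
`p -> th(p) v3 + e(p) u1 + N p`. -/
def B42111 {k : Type*} [Field k] (al al1 : k) (w : Fin 3 → k) (be be1 ga : k)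
    (pi th e : Fin 3 → k) (N : Matrix (Fin 3) (Fin 3) k) : Matrix (Fin 9) (Fin 9) k :=
  !![0, 0, 0, 0, 0, 0, 0, 0, 0;
     0, 0, 0, 0, 0, 0, 0, 0, 0;
     0, 0, 0, 0, be, 0, 0, 0, 0;
     0, 0, 0, 0, be1, be, th 0, th 1, th 2;
     al, 0, 0, 0, 0, 0, 0, 0, 0;
     al1, al, 0, 0, ga, 0, e 0, e 1, e 2;
     w 0, 0, 0, 0, pi 0, 0, N 0 0, N 0 1, N 0 2;
     w 1, 0, 0, 0, pi 1, 0, N 1 0, N 1 1, N 1 2;
     w 2, 0, 0, 0, pi 2, 0, N 2 0, N 2 1, N 2 2]

/-- the permutation reversing `v0, .., v3` and `u0, u1` -/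
def Pm42111 (k : Type*) [Field k] : Matrix (Fin 9) (Fin 9) k :=
  !![0, 0, 0, 1, 0, 0, 0, 0, 0;
     0, 0, 1, 0, 0, 0, 0, 0, 0;
     0, 1, 0, 0, 0, 0, 0, 0, 0;
     1, 0, 0, 0, 0, 0, 0, 0, 0;
     0, 0, 0, 0, 0, 1, 0, 0, 0;
     0, 0, 0, 0, 1, 0, 0, 0, 0;
     0, 0, 0, 0, 0, 0, 1, 0, 0;
     0, 0, 0, 0, 0, 0, 0, 1, 0;
     0, 0, 0, 0, 0, 0, 0, 0, 1]

namespace T42111Aux

variable {k : Type*} [Field k]

theorem P_perm (X : Matrix (Fin 9) (Fin 9) k) (i j : Fin 9) :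
    (Pm42111 k * X * Pm42111 k) i j =
      X (![3, 2, 1, 0, 5, 4, 6, 7, 8] i) (![3, 2, 1, 0, 5, 4, 6, 7, 8] j) := by
  have h1 : ∀ i j, (Pm42111 k * X) i j = X (![3, 2, 1, 0, 5, 4, 6, 7, 8] i) j := by
    intro i j
    fin_cases i <;> simp [Pm42111, Matrix.mul_apply, Fin.sum_univ_succ]
  have h2 : ∀ (Y : Matrix (Fin 9) (Fin 9) k) (i j : Fin 9),
      (Y * Pm42111 k) i j = Y i (![3, 2, 1, 0, 5, 4, 6, 7, 8] j) := by
    intro Y i j
    fin_cases j <;> simp [Pm42111, Matrix.mul_apply, Fin.sum_univ_succ]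
  rw [h2, h1]

theorem P_sq : Pm42111 k * Pm42111 k = 1 := by
  ext i j
  fin_cases i <;> fin_cases j <;> simp [Pm42111, Matrix.mul_apply, Fin.sum_univ_succ]

theorem B_dual (al al1 : k) (w : Fin 3 → k) (be be1 ga : k)
    (pi th e : Fin 3 → k) (N : Matrix (Fin 3) (Fin 3) k) :
    Pm42111 k * (B42111 al al1 w be be1 ga pi th e N)ᵀ * Pm42111 k =
      B42111 be be1 th al al1 ga e w pi Nᵀ := by
  ext i j
  rw [P_perm, Matrix.transpose_apply]
  fin_cases i <;> fin_cases j <;> simp [B42111]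

theorem J_dual : Pm42111 k * (J42111 k)ᵀ * Pm42111 k = J42111 k := by
  ext i j
  rw [P_perm, Matrix.transpose_apply]
  fin_cases i <;> fin_cases j <;> simp [J42111]

theorem J_rank : (J42111 k).rank ≤ 4 := by
  refine rank_le_of_factor _ !![0, 0, 0, 0; 1, 0, 0, 0; 0, 1, 0, 0; 0, 0, 1, 0; 0, 0, 0, 0; 0, 0, 0, 1; 0, 0, 0, 0; 0, 0, 0, 0; 0, 0, 0, 0]
    !![1, 0, 0, 0, 0, 0, 0, 0, 0; 0, 1, 0, 0, 0, 0, 0, 0, 0; 0, 0, 1, 0, 0, 0, 0, 0, 0; 0, 0, 0, 0, 1, 0, 0, 0, 0] ?_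
  ext i j
  fin_cases i <;> fin_cases j <;> simp [J42111, Matrix.mul_apply, Fin.sum_univ_succ]

theorem J_nil : IsNilpotent (J42111 k) := by
  refine isNilpotent_of_weight _ ![0, 1, 2, 3, 0, 1, 0, 0, 0] ?_
  intro i j h
  fin_cases i <;> fin_cases j <;> simp [J42111] at h ⊢

theorem B_nil (al al1 : k) (w : Fin 3 → k) (be be1 ga : k) (pi th e : Fin 3 → k) :
    IsNilpotent (B42111 al al1 w be be1 ga pi th e 0) := by
  refine isNilpotent_of_weight _ ![0, 1, 5, 6, 1, 3, 2, 2, 2] ?_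
  intro i j h
  fin_cases i <;> fin_cases j <;> simp [B42111] at h ⊢

theorem shape {M : Matrix (Fin 9) (Fin 9) k} (hc : J42111 k * M = M * J42111 k)
    (hM : IsNilpotent M) :
    M = B42111 (M 4 0) (M 5 0) ![M 6 0, M 7 0, M 8 0] (M 2 4) (M 3 4) (M 5 4 - M 1 0)
      ![M 6 4, M 7 4, M 8 4] ![M 3 6, M 3 7, M 3 8] ![M 5 6, M 5 7, M 5 8]
      !![M 6 6, M 6 7, M 6 8; M 7 6, M 7 7, M 7 8; M 8 6, M 8 7, M 8 8] +
      M 1 0 • J42111 k + M 2 0 • (J42111 k * J42111 k) + M 3 0 • ((J42111 k * J42111 k) * J42111 k) := by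
  have e (i j : Fin 9) : (J42111 k * M) i j = (M * J42111 k) i j := by rw [hc]
  have e_0_0 := e 0 0
  have e_0_1 := e 0 1
  have e_0_2 := e 0 2
  have e_0_4 := e 0 4
  have e_1_0 := e 1 0
  have e_1_1 := e 1 1
  have e_1_2 := e 1 2
  have e_1_3 := e 1 3
  have e_1_4 := e 1 4
  have e_1_5 := e 1 5
  have e_1_6 := e 1 6
  have e_1_7 := e 1 7
  have e_1_8 := e 1 8
  have e_2_0 := e 2 0
  have e_2_1 := e 2 1
  have e_2_2 := e 2 2
  have e_2_3 := e 2 3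
  have e_2_4 := e 2 4
  have e_2_5 := e 2 5
  have e_2_6 := e 2 6
  have e_2_7 := e 2 7
  have e_2_8 := e 2 8
  have e_3_0 := e 3 0
  have e_3_1 := e 3 1
  have e_3_2 := e 3 2
  have e_3_3 := e 3 3
  have e_3_4 := e 3 4
  have e_3_5 := e 3 5
  have e_3_6 := e 3 6
  have e_3_7 := e 3 7
  have e_3_8 := e 3 8
  have e_4_0 := e 4 0
  have e_4_1 := e 4 1
  have e_4_2 := e 4 2
  have e_4_4 := e 4 4
  have e_5_0 := e 5 0
  have e_5_1 := e 5 1
  have e_5_2 := e 5 2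
  have e_5_3 := e 5 3
  have e_5_4 := e 5 4
  have e_5_5 := e 5 5
  have e_5_6 := e 5 6
  have e_5_7 := e 5 7
  have e_5_8 := e 5 8
  have e_6_0 := e 6 0
  have e_6_1 := e 6 1
  have e_6_2 := e 6 2
  have e_6_4 := e 6 4
  have e_7_0 := e 7 0
  have e_7_1 := e 7 1
  have e_7_2 := e 7 2
  have e_7_4 := e 7 4
  have e_8_0 := e 8 0
  have e_8_1 := e 8 1
  have e_8_2 := e 8 2
  have e_8_4 := e 8 4
  clear e
  simp [J42111, Matrix.mul_apply, Fin.sum_univ_succ] at e_0_0 e_0_1 e_0_2 e_0_4 e_1_0 e_1_1 e_1_2 e_1_3 e_1_4 e_1_5 e_1_6 e_1_7 e_1_8 e_2_0 e_2_1 e_2_2 e_2_3 e_2_4 e_2_5 e_2_6 e_2_7 e_2_8 e_3_0 e_3_1 e_3_2 e_3_3 e_3_4 e_3_5 e_3_6 e_3_7 e_3_8 e_4_0 e_4_1 e_4_2 e_4_4 e_5_0 e_5_1 e_5_2 e_5_3 e_5_4 e_5_5 e_5_6 e_5_7 e_5_8 e_6_0 e_6_1 e_6_2 e_6_4 e_7_0 e_7_1 e_7_2 e_7_4 e_8_0 e_8_1 e_8_2 e_8_4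
  have z_0_1 : M 0 1 = 0 := by
    first | exact e_0_0 | exact e_0_0.symm
  have z_0_2 : M 0 2 = 0 := by
    first | exact e_0_1 | exact e_0_1.symm
  have z_0_3 : M 0 3 = 0 := by
    first | exact e_0_2 | exact e_0_2.symm
  have z_0_5 : M 0 5 = 0 := by
    first | exact e_0_4 | exact e_0_4.symm
  have z_0_6 : M 0 6 = 0 := by
    first | exact e_1_6 | exact e_1_6.symm
  have z_0_7 : M 0 7 = 0 := by
    first | exact e_1_7 | exact e_1_7.symm
  have z_0_8 : M 0 8 = 0 := by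
    first | exact e_1_8 | exact e_1_8.symm
  have z_1_3 : M 1 3 = 0 := by
    first | exact e_2_3 | exact e_2_3.symm
  have z_1_5 : M 1 5 = 0 := by
    first | exact e_2_5 | exact e_2_5.symm
  have z_1_6 : M 1 6 = 0 := by
    first | exact e_2_6 | exact e_2_6.symm
  have z_1_7 : M 1 7 = 0 := by
    first | exact e_2_7 | exact e_2_7.symm
  have z_1_8 : M 1 8 = 0 := by
    first | exact e_2_8 | exact e_2_8.symm
  have z_2_3 : M 2 3 = 0 := by
    first | exact e_3_3 | exact e_3_3.symm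
  have z_2_5 : M 2 5 = 0 := by
    first | exact e_3_5 | exact e_3_5.symm
  have z_2_6 : M 2 6 = 0 := by
    first | exact e_3_6 | exact e_3_6.symm
  have z_2_7 : M 2 7 = 0 := by
    first | exact e_3_7 | exact e_3_7.symm
  have z_2_8 : M 2 8 = 0 := by
    first | exact e_3_8 | exact e_3_8.symm
  have z_4_1 : M 4 1 = 0 := by
    first | exact e_4_0 | exact e_4_0.symm
  have z_4_2 : M 4 2 = 0 := by
    first | exact e_4_1 | exact e_4_1.symm
  have z_4_3 : M 4 3 = 0 := by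
    first | exact e_4_2 | exact e_4_2.symm
  have z_4_5 : M 4 5 = 0 := by
    first | exact e_4_4 | exact e_4_4.symm
  have z_4_6 : M 4 6 = 0 := by
    first | exact e_5_6 | exact e_5_6.symm
  have z_4_7 : M 4 7 = 0 := by
    first | exact e_5_7 | exact e_5_7.symm
  have z_4_8 : M 4 8 = 0 := by
    first | exact e_5_8 | exact e_5_8.symm
  have z_6_1 : M 6 1 = 0 := by
    first | exact e_6_0 | exact e_6_0.symm
  have z_6_2 : M 6 2 = 0 := by
    first | exact e_6_1 | exact e_6_1.symm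
  have z_6_3 : M 6 3 = 0 := by
    first | exact e_6_2 | exact e_6_2.symm
  have z_6_5 : M 6 5 = 0 := by
    first | exact e_6_4 | exact e_6_4.symm
  have z_7_1 : M 7 1 = 0 := by
    first | exact e_7_0 | exact e_7_0.symm
  have z_7_2 : M 7 2 = 0 := by
    first | exact e_7_1 | exact e_7_1.symm
  have z_7_3 : M 7 3 = 0 := by
    first | exact e_7_2 | exact e_7_2.symm
  have z_7_5 : M 7 5 = 0 := by
    first | exact e_7_4 | exact e_7_4.symm
  have z_8_1 : M 8 1 = 0 := by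
    first | exact e_8_0 | exact e_8_0.symm
  have z_8_2 : M 8 2 = 0 := by
    first | exact e_8_1 | exact e_8_1.symm
  have z_8_3 : M 8 3 = 0 := by
    first | exact e_8_2 | exact e_8_2.symm
  have z_8_5 : M 8 5 = 0 := by
    first | exact e_8_4 | exact e_8_4.symm
  have z_1_2 : M 1 2 = 0 := by
    first | exact e_1_1.trans z_0_1 | exact e_1_1.symm.trans z_0_1
  have z_0_4 : M 0 4 = 0 := by
    first | exact e_1_4.trans z_1_5 | exact e_1_4.symm.trans z_1_5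
  have z_1_4 : M 1 4 = 0 := by
    first | exact e_2_4.trans z_2_5 | exact e_2_4.symm.trans z_2_5
  have z_5_2 : M 5 2 = 0 := by
    first | exact e_5_1.trans z_4_1 | exact e_5_1.symm.trans z_4_1
  have z_5_3 : M 5 3 = 0 := by
    first | exact e_5_2.trans z_4_2 | exact e_5_2.symm.trans z_4_2
  have h00 : M 0 0 = 0 := by
    refine T3211Aux.nilp_row hM (w := fun j => if j = 0 then 1 else 0) (c := M 0 0) ?_ ?_
    · funext j
      fin_cases j <;> simp [Matrix.vecMul, dotProduct, z_0_1, z_0_2, z_0_3, z_0_4, z_0_5, z_0_6, z_0_7, z_0_8]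
    · intro h
      simpa using congrFun h 0
  have hu : M 4 4 = 0 := by
    by_contra h
    refine h (T3211Aux.nilp_row hM
      (w := fun j => if j = 0 then M 4 0 else if j = 4 then M 4 4 else 0)
      (c := M 4 4) ?_ ?_)
    · funext j
      fin_cases j <;> simp [Matrix.vecMul, dotProduct, Fin.sum_univ_succ, h00, z_0_1, z_0_2, z_0_3, z_0_4, z_0_5, z_0_6, z_0_7, z_0_8, z_4_1, z_4_2, z_4_3, z_4_5, z_4_6, z_4_7, z_4_8, mul_comm]
    · intro h2
      exact h (by simpa using congrFun h2 4)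
  have d_1_1 : M 1 1 = 0 := by
    first | exact e_1_0.trans h00 | exact e_1_0.symm.trans h00
  have d_2_2 : M 2 2 = 0 := by
    first | exact e_2_1.trans d_1_1 | exact e_2_1.symm.trans d_1_1
  have d_3_3 : M 3 3 = 0 := by
    first | exact e_3_2.trans d_2_2 | exact e_3_2.symm.trans d_2_2
  have d_5_5 : M 5 5 = 0 := by
    first | exact e_5_4.trans hu | exact e_5_4.symm.trans hu
  have q_2_1 : M 2 1 = M 1 0 := by
    first | exact e_2_0 | exact e_2_0.symm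
  have q_3_2 : M 3 2 = M 1 0 := by
    first | exact e_3_1.trans q_2_1 | exact e_3_1.symm.trans q_2_1
  have q_3_1 : M 3 1 = M 2 0 := by
    first | exact e_3_0 | exact e_3_0.symm
  have q_3_5 : M 3 5 = M 2 4 := by
    first | exact e_3_4 | exact e_3_4.symm
  have q_5_1 : M 5 1 = M 4 0 := by
    first | exact e_5_0 | exact e_5_0.symm
  ext i j
  fin_cases i <;> fin_cases j <;> simp [B42111, J42111, Matrix.mul_apply, Fin.sum_univ_succ] <;>
    first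
    | assumption
    | (simp only [z_0_1, z_0_2, z_0_3, z_0_5, z_0_6, z_0_7, z_0_8, z_1_3, z_1_5, z_1_6, z_1_7, z_1_8, z_2_3, z_2_5, z_2_6, z_2_7, z_2_8, z_4_1, z_4_2, z_4_3, z_4_5, z_4_6, z_4_7, z_4_8, z_6_1, z_6_2, z_6_3, z_6_5, z_7_1, z_7_2, z_7_3, z_7_5, z_8_1, z_8_2, z_8_3, z_8_5, z_1_2, z_0_4, z_1_4, z_5_2, z_5_3, h00, d_1_1, d_2_2, d_3_3, hu, d_5_5, q_2_1, q_3_2, q_3_1, q_3_5, q_5_1]; done)
    | simp [z_0_1, z_0_2, z_0_3, z_0_5, z_0_6, z_0_7, z_0_8, z_1_3, z_1_5, z_1_6, z_1_7, z_1_8, z_2_3, z_2_5, z_2_6, z_2_7, z_2_8, z_4_1, z_4_2, z_4_3, z_4_5, z_4_6, z_4_7, z_4_8, z_6_1, z_6_2, z_6_3, z_6_5, z_7_1, z_7_2, z_7_3, z_7_5, z_8_1, z_8_2, z_8_3, z_8_5, z_1_2, z_0_4, z_1_4, z_5_2, z_5_3, h00, d_1_1, d_2_2, d_3_3, hu, d_5_5, q_2_1, q_3_2, q_3_1, q_3_5, q_5_1]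

theorem detm (b c d e f g h x y z : k) :
    (!![1, 0, 0, 0, 0; 0, 1, 0, b, 0; 0, 0, 1, c, d; e, f, 0, g, h; x, 0, 0, y, z] : Matrix (Fin 5) (Fin 5) k).det =
      (g - f * b) * z - h * y := by
  simp [Matrix.det_succ_row_zero, Fin.sum_univ_succ, Fin.succAbove]
  ring

theorem rankm {M : Matrix (Fin 9) (Fin 9) k} (i j : Fin 9)
    (h10 : M 1 0 = 1)
    (h11 : M 1 1 = 0)
    (h12 : M 1 2 = 0)
    (h20 : M 2 0 = 0)
    (h21 : M 2 1 = 1)
    (h22 : M 2 2 = 0)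
    (h30 : M 3 0 = 0)
    (h31 : M 3 1 = 0)
    (h32 : M 3 2 = 1)
    (h1u : M 1 4 = 0)
    (h1j : M 1 j = 0)
    (h2j : M 2 j = 0)
    (hu2 : M 5 2 = 0)
    (hi1 : M i 1 = 0)
    (hi2 : M i 2 = 0)
    (h : (M 5 4 - M 5 1 * M 2 4) * M i j - M 5 j * M i 4 ≠ 0) : 5 ≤ M.rank := by
  refine le_rank_of_minor M ![1, 2, 3, 5, i] ![0, 1, 2, 4, j] ?_
  have : M.submatrix ![1, 2, 3, 5, i] ![0, 1, 2, 4, j] =
      !![1, 0, 0, 0, 0; 0, 1, 0, M 2 4, 0; 0, 0, 1, M 3 4, M 3 j; M 5 0, M 5 1, 0, M 5 4, M 5 j; M i 0, 0, 0, M i 4, M i j] := by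
    ext a b
    fin_cases a <;> fin_cases b <;> simp [h10, h11, h12, h20, h21, h22, h30, h31, h32, h1u, h1j, h2j, hu2, hi1, hi2]
  rw [this, detm]
  exact h

/-- the indices of `P` -/
def P (i : Fin 3) : Fin 9 := ![6, 7, 8] i

section entries

variable (al al1 : k) (w : Fin 3 → k) (be be1 ga : k) (pi th e : Fin 3 → k)
  (N : Matrix (Fin 3) (Fin 3) k)

theorem B_w (i : Fin 3) : B42111 al al1 w be be1 ga pi th e N (P i) 0 = w i := by
  fin_cases i <;> rfl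

theorem B_pi (i : Fin 3) : B42111 al al1 w be be1 ga pi th e N (P i) 4 = pi i := by
  fin_cases i <;> rfl

theorem B_th (i : Fin 3) : B42111 al al1 w be be1 ga pi th e N 3 (P i) = th i := by
  fin_cases i <;> rfl

theorem B_e (i : Fin 3) : B42111 al al1 w be be1 ga pi th e N 5 (P i) = e i := by
  fin_cases i <;> rfl

theorem B_N (i j : Fin 3) : B42111 al al1 w be be1 ga pi th e N (P i) (P j) = N i j := by
  fin_cases i <;> fin_cases j <;> rfl

theorem B_0P (i : Fin 3) : B42111 al al1 w be be1 ga pi th e N 0 (P i) = 0 := by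
  fin_cases i <;> rfl

theorem B_1P (i : Fin 3) : B42111 al al1 w be be1 ga pi th e N 1 (P i) = 0 := by
  fin_cases i <;> rfl

theorem B_2P (i : Fin 3) : B42111 al al1 w be be1 ga pi th e N 2 (P i) = 0 := by
  fin_cases i <;> rfl

theorem B_4P (i : Fin 3) : B42111 al al1 w be be1 ga pi th e N 4 (P i) = 0 := by
  fin_cases i <;> rfl

theorem B_P1 (i : Fin 3) : B42111 al al1 w be be1 ga pi th e N (P i) 1 = 0 := by
  fin_cases i <;> rfl

theorem B_P2 (i : Fin 3) : B42111 al al1 w be be1 ga pi th e N (P i) 2 = 0 := by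
  fin_cases i <;> rfl

theorem B_P3 (i : Fin 3) : B42111 al al1 w be be1 ga pi th e N (P i) 3 = 0 := by
  fin_cases i <;> rfl

theorem B_P5 (i : Fin 3) : B42111 al al1 w be be1 ga pi th e N (P i) 5 = 0 := by
  fin_cases i <;> rfl

theorem J_zP (i : Fin 3) (r : Fin 9) : J42111 k r (P i) = 0 := by
  fin_cases i <;> fin_cases r <;> rfl

theorem J_P (i : Fin 3) (j : Fin 9) : J42111 k (P i) j = 0 := by
  fin_cases i <;> fin_cases j <;> rfl

end entries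

theorem comm_J (al al1 : k) (w : Fin 3 → k) (be be1 ga : k) (pi th e : Fin 3 → k)
    (N : Matrix (Fin 3) (Fin 3) k) :
    J42111 k * B42111 al al1 w be be1 ga pi th e N =
      B42111 al al1 w be be1 ga pi th e N * J42111 k := by
  ext i j
  fin_cases i <;> fin_cases j <;> simp [J42111, B42111, Matrix.mul_apply, Fin.sum_univ_succ]

theorem B_lin (c d : k) (al al1 : k) (w : Fin 3 → k) (be be1 ga : k) (pi th e : Fin 3 → k)
    (N : Matrix (Fin 3) (Fin 3) k) (al' al1' : k) (w' : Fin 3 → k) (be' be1' ga' : k)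
    (pi' th' e' : Fin 3 → k) (N' : Matrix (Fin 3) (Fin 3) k) :
    c • B42111 al al1 w be be1 ga pi th e N +
      d • B42111 al' al1' w' be' be1' ga' pi' th' e' N' =
    B42111 (c * al + d * al') (c * al1 + d * al1') (c • w + d • w')
      (c * be + d * be') (c * be1 + d * be1') (c * ga + d * ga') (c • pi + d • pi')
      (c • th + d • th') (c • e + d • e') (c • N + d • N') := by
  ext i j
  fin_cases i <;> fin_cases j <;> simp [B42111]

theorem comm_BI {al al1 : k} {w : Fin 3 → k} {be1 ga : k} {th e : Fin 3 → k}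
    {al' al1' : k} {w' : Fin 3 → k} {be1' ga' : k} {th' e' : Fin 3 → k}
    (h1 : al' * be1 + th ⬝ᵥ w' = al * be1' + th' ⬝ᵥ w)
    (h2 : al' * ga + e ⬝ᵥ w' = al * ga' + e' ⬝ᵥ w) :
    B42111 al al1 w 0 be1 ga 0 th e 0 * B42111 al' al1' w' 0 be1' ga' 0 th' e' 0 =
    B42111 al' al1' w' 0 be1' ga' 0 th' e' 0 * B42111 al al1 w 0 be1 ga 0 th e 0 := by
  simp only [dotProduct, Fin.sum_univ_three] at h1 h2
  ext i j
  fin_cases i <;> fin_cases j <;> simp [B42111, Matrix.mul_apply, Fin.sum_univ_succ]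
  · linear_combination h1
  · linear_combination h2

theorem comm_BI' {al al1 : k} {w : Fin 3 → k} {be1 ga : k} {th e : Fin 3 → k}
    {al' al1' : k} {w' : Fin 3 → k} {be1' ga' : k} {th' e' : Fin 3 → k}
    (h : B42111 al al1 w 0 be1 ga 0 th e 0 * B42111 al' al1' w' 0 be1' ga' 0 th' e' 0 =
    B42111 al' al1' w' 0 be1' ga' 0 th' e' 0 * B42111 al al1 w 0 be1 ga 0 th e 0) :
    al' * be1 + th ⬝ᵥ w' = al * be1' + th' ⬝ᵥ w ∧
    al' * ga + e ⬝ᵥ w' = al * ga' + e' ⬝ᵥ w := by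
  have h20 := congrFun (congrFun h 3) 0
  have h40 := congrFun (congrFun h 5) 0
  simp [B42111, Matrix.mul_apply, Fin.sum_univ_succ] at h20 h40
  simp only [dotProduct, Fin.sum_univ_three]
  constructor
  · linear_combination h20
  · linear_combination h40

/-- the relations for `al = 1, al' = 0`, `be' = ga' = 0, pi' = 0, e' = 0` -/
theorem comm1 {al1 : k} {w : Fin 3 → k} {be be1 ga : k} {pi th e : Fin 3 → k}
    {al1' : k} {w' : Fin 3 → k} {be1' : k} {th' : Fin 3 → k}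
    (h1 : al1' * be + th ⬝ᵥ w' = be1' + th' ⬝ᵥ w)
    (h2 : e ⬝ᵥ w' = 0) (h3 : th' ⬝ᵥ pi = 0) :
    B42111 1 al1 w be be1 ga pi th e 0 * B42111 0 al1' w' 0 be1' 0 0 th' 0 0 =
    B42111 0 al1' w' 0 be1' 0 0 th' 0 0 * B42111 1 al1 w be be1 ga pi th e 0 := by
  simp only [dotProduct, Fin.sum_univ_three] at h1 h2 h3
  ext i j
  fin_cases i <;> fin_cases j <;> simp [B42111, Matrix.mul_apply, Fin.sum_univ_succ]
  · linear_combination h1
  · linear_combination -h3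
  · linear_combination h2

/-- the relations for `al = 1, al' = 0`, `e = e' = 0` -/
theorem comm1' {al1 : k} {w : Fin 3 → k} {be be1 ga : k} {pi th : Fin 3 → k}
    {al1' : k} {w' : Fin 3 → k} {be' be1' ga' : k} {pi' th' : Fin 3 → k}
    (h : B42111 1 al1 w be be1 ga pi th 0 0 * B42111 0 al1' w' be' be1' ga' pi' th' 0 0 =
    B42111 0 al1' w' be' be1' ga' pi' th' 0 0 * B42111 1 al1 w be be1 ga pi th 0 0) :
    be' = 0 ∧ ga' = 0 ∧ pi' = 0 ∧ al1' * be + th ⬝ᵥ w' = be1' + th' ⬝ᵥ w ∧ th' ⬝ᵥ pi = 0 := by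
  have r1 := congrFun (congrFun h 2) 0
  have r2 := congrFun (congrFun h 3) 0
  have r3 := congrFun (congrFun h 5) 0
  have r4 := congrFun (congrFun h 3) 4
  have s6 := congrFun (congrFun h 6) 0
  have s7 := congrFun (congrFun h 7) 0
  have s8 := congrFun (congrFun h 8) 0
  simp [B42111, Matrix.mul_apply, Fin.sum_univ_succ] at r1 r2 r3 r4 s6 s7 s8
  have hpi : pi' = 0 := by
    funext i
    fin_cases i
    · exact s6.symm
    · exact s7.symm
    · exact s8.symm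
  have hbe : be' = 0 := r1.symm
  have hga : ga' = 0 := r3.symm
  subst hpi hbe hga
  refine ⟨rfl, rfl, rfl, ?_, ?_⟩
  · simp only [dotProduct, Fin.sum_univ_three]
    simp at r2
    linear_combination r2
  · simp only [dotProduct, Fin.sum_univ_three]
    simp at r4
    linear_combination -r4

theorem exists_perp (v : Fin 3 → k) : ∃ x : Fin 3 → k, (∃ i, x i ≠ 0) ∧ v ⬝ᵥ x = 0 := by
  obtain ⟨x, y, z, h0, h1, h2⟩ := T3211Aux.ker23 (v 0) (v 1) (v 2) 0 0 0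
  refine ⟨![x, y, z], ?_, ?_⟩
  · rcases h0 with h | h | h
    · exact ⟨0, h⟩
    · exact ⟨1, h⟩
    · exact ⟨2, h⟩
  · simp [dotProduct, Fin.sum_univ_three]
    linear_combination h1

end T42111Aux

end Pool.Agent.Lib.D9
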