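import Pool.Agent.Lib.D9.T42111A

/-!
# MP_5dcbc3_ag: type (4, 2, 1, 1, 1), case (2), the raising
-/

namespace Pool.Agent.Lib.D9

open Matrix Pool.Agent.Lib.Q5dc Pool.Agent.Lib.D7

namespace T42111Aux

variable {k : Type*} [Field k]

/-- case (2), last step -/
theorem caseI_fin [CharZero k] {ρ : ℕ → ℕ} (hρ : ρ 1 ≤ 4)
    {al1 : k} {w : Fin 3 → k} {be1 ga : k} {th e : Fin 3 → k}
    {al1' : k} {w' : Fin 3 → k} {be1' ga' : k} {th' e' : Fin 3 → k}
    (hT : MaxR ρ ![J42111 k, B42111 1 al1 w 0 be1 ga 0 th e 0,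
      B42111 0 al1' w' 0 be1' ga' 0 th' e' 0])
    (hw : w' ≠ 0) : False := by
  have : Infinite k := CharZero.infinite k
  obtain ⟨i0, hi0⟩ : ∃ i, w' i ≠ 0 := by
    by_contra h
    push Not at h
    exact hw (funext h)
  -- the functional
  obtain ⟨φ, hφ, hφw⟩ : ∃ φ : Fin 3 → k, (∃ j, φ j ≠ 0) ∧ φ 0 * w' 0 + φ 1 * w' 1 + φ 2 * w' 2 = 0 := by
    obtain ⟨x, y, z, h0, h1, -⟩ := T3211Aux.ker23 (w' 0) (w' 1) (w' 2) 0 0 0
    refine ⟨![x, y, z], ?_, ?_⟩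
    · rcases h0 with h | h | h
      · exact ⟨0, h⟩
      · exact ⟨1, h⟩
      · exact ⟨2, h⟩
    · simp
      linear_combination h1
  obtain ⟨j, hj⟩ := hφ
  -- the linear system
  obtain ⟨a1, ha1⟩ : ∃ x, x = be1 + (th 0 * w 0 + th 1 * w 1 + th 2 * w 2) := ⟨_, rfl⟩
  obtain ⟨a2, ha2⟩ : ∃ x, x = th 0 * w' 0 + th 1 * w' 1 + th 2 * w' 2 := ⟨_, rfl⟩
  obtain ⟨b1, hb1⟩ : ∃ x, x = ga + (e 0 * w 0 + e 1 * w 1 + e 2 * w 2) := ⟨_, rfl⟩
  obtain ⟨b2, hb2⟩ : ∃ x, x = e 0 * w' 0 + e 1 * w' 1 + e 2 * w' 2 := ⟨_, rfl⟩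
  obtain ⟨a1', ha1'⟩ : ∃ x, x = be1' + (th' 0 * w 0 + th' 1 * w 1 + th' 2 * w 2) := ⟨_, rfl⟩
  obtain ⟨a2', ha2'⟩ : ∃ x, x = th' 0 * w' 0 + th' 1 * w' 1 + th' 2 * w' 2 := ⟨_, rfl⟩
  obtain ⟨b1', hb1'⟩ : ∃ x, x = ga' + (e' 0 * w 0 + e' 1 * w 1 + e' 2 * w 2) := ⟨_, rfl⟩
  obtain ⟨b2', hb2'⟩ : ∃ x, x = e' 0 * w' 0 + e' 1 * w' 1 + e' 2 * w' 2 := ⟨_, rfl⟩
  obtain ⟨x1, x2, y2, hne, hE5, hE6⟩ := T3211Aux.ker23 (a1 * b1' - a1' * b1)
    (a1 * b2' - a1' * b2) (-a2') (b1 * b1' - b1' * b1) (b1 * b2' - b1' * b2) (-b2')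
  obtain ⟨y0, hy0⟩ : ∃ y0, y0 = a1 * x1 + a2 * x2 := ⟨_, rfl⟩
  obtain ⟨y1, hy1⟩ : ∃ y1, y1 = b1 * x1 + b2 * x2 := ⟨_, rfl⟩
  obtain ⟨z0, hz0⟩ : ∃ z0, z0 = a1' * x1 + a2' * x2 := ⟨_, rfl⟩
  obtain ⟨z1, hz1⟩ : ∃ z1, z1 = b1' * x1 + b2' * x2 := ⟨_, rfl⟩
  have hE5' : a1 * z1 - a1' * y1 - a2' * y2 = 0 := by
    rw [hy1, hz1]
    linear_combination hE5
  have hE6' : b1 * z1 - b1' * y1 - b2' * y2 = 0 := by
    rw [hy1, hz1]
    linear_combination hE6
  let ψ : Fin 9 → k :=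
    ![0, 0, 0, 0, -(φ 0 * w 0 + φ 1 * w 1 + φ 2 * w 2), 0, φ 0, φ 1, φ 2]
  let f : Fin 3 → Fin 9 → k :=
    ![![0, 0, 0, 0, x1, 0, x1 * w 0 + x2 * w' 0, x1 * w 1 + x2 * w' 1, x1 * w 2 + x2 * w' 2],
      ![0, 0, y0, 0, y1, 0, y1 * w 0 + y2 * w' 0, y1 * w 1 + y2 * w' 1, y1 * w 2 + y2 * w' 2],
      ![0, 0, z0, 0, z1, 0, z1 * w 0, z1 * w 1, z1 * w 2]]
  obtain ⟨B, hB⟩ : ∃ B, B = B42111 1 al1 w 0 be1 ga 0 th e 0 := ⟨_, rfl⟩
  obtain ⟨C, hC⟩ : ∃ C, C = B42111 0 al1' w' 0 be1' ga' 0 th' e' 0 := ⟨_, rfl⟩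
  have h1 : ∀ i, ψ ᵥ* ((![J42111 k, B, C] : Fin 3 → Matrix (Fin 9) (Fin 9) k) i) = 0 := by
    intro i
    rw [hB, hC]
    funext l
    fin_cases i <;> fin_cases l <;>
      simp [ψ, Matrix.vecMul, dotProduct, Fin.sum_univ_succ, J42111, B42111]
    · ring
    · linear_combination hφw
  have h2 : ∀ i, ψ ⬝ᵥ f i = 0 := by
    intro i
    fin_cases i <;> simp [ψ, f, dotProduct, Fin.sum_univ_succ]
    · linear_combination x2 * hφw
    · linear_combination y2 * hφw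
    · ring
  have a01 : J42111 k *ᵥ f 1 = B *ᵥ f 0 := by
    rw [hB]
    funext l
    fin_cases l <;> simp [f, Matrix.mulVec, dotProduct, Fin.sum_univ_succ, J42111, B42111]
    · rw [hy0, ha1, ha2]; ring
    · rw [hy1, hb1, hb2]; ring
  have a02 : J42111 k *ᵥ f 2 = C *ᵥ f 0 := by
    rw [hC]
    funext l
    fin_cases l <;> simp [f, Matrix.mulVec, dotProduct, Fin.sum_univ_succ, J42111, B42111]
    · rw [hz0, ha1', ha2']; ring
    · rw [hz1, hb1', hb2']; ring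
  have a12 : B *ᵥ f 2 = C *ᵥ f 1 := by
    rw [hB, hC]
    funext l
    fin_cases l <;> simp [f, Matrix.mulVec, dotProduct, Fin.sum_univ_succ, B42111]
    · rw [ha1, ha1', ha2'] at hE5'
      linear_combination hE5'
    · rw [hb1, hb1', hb2'] at hE6'
      linear_combination hE6'
  have h3 : ∀ i j, ((![J42111 k, B, C] : Fin 3 → Matrix (Fin 9) (Fin 9) k) i) *ᵥ f j =
      ((![J42111 k, B, C] : Fin 3 → Matrix (Fin 9) (Fin 9) k) j) *ᵥ f i := by
    intro i j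
    fin_cases i <;> fin_cases j <;> simp [a01, a02, a12]
  rw [← hB, ← hC] at hT
  have hcn := T3211Aux.cn_rankone hT.cn ψ f h1 h2 h3
  have hent : ∀ (s : k) (l : Fin 3) (a b : Fin 9),
      ((![J42111 k, B, C] + s • fun i => vecMulVec (f i) ψ) l) a b =
      (![J42111 k, B, C] : Fin 3 → Matrix (Fin 9) (Fin 9) k) l a b + s * (f l a * ψ b) :=
    fun _ _ _ _ => rfl
  have hψ : ∀ j, ψ (P j) = φ j := by
    intro j
    fin_cases j <;> rfl
  have hψ0 : ψ 0 = 0 := rfl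
  have hψ1 : ψ 1 = 0 := rfl
  have hψ2 : ψ 2 = 0 := rfl
  have hψ3 : ψ 3 = 0 := rfl
  have hψj : ψ (P j) ≠ 0 := by rw [hψ]; exact hj
  by_cases hf : f 0 = 0
  · have hx1 : x1 = 0 := by simpa [f] using congrFun hf 4
    have hx2 : x2 = 0 := by
      have t6 := congrFun hf 6
      have t7 := congrFun hf 7
      have t8 := congrFun hf 8
      simp [f, hx1] at t6 t7 t8
      fin_cases i0
      · exact t6.resolve_right hi0
      · exact t7.resolve_right hi0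
      · exact t8.resolve_right hi0
    have hy2 : y2 ≠ 0 := by simpa [hx1, hx2] using hne
    have hy0' : y0 = 0 := by rw [hy0, hx1, hx2]; ring
    have hy1' : y1 = 0 := by rw [hy1, hx1, hx2]; ring
    have hf1 : ∀ i, f 1 (P i) = y2 * w' i := by
      intro i
      fin_cases i <;> simp [f, P, hy1']
    have hf1_1 : f 1 1 = 0 := by simp [f]
    have hf1_2 : f 1 2 = 0 := by simp [f, hy0']
    have hf1_3 : f 1 3 = 0 := by simp [f]
    have hf1u : f 1 5 = 0 := by simp [f]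
    have hf1v : f 1 4 = 0 := by simp [f, hy1']
    have hi' : f 1 (P i0) ≠ 0 := by
      rw [hf1]
      exact mul_ne_zero hy2 hi0
    refine hT.raise (fun s => ![J42111 k, B, C] + s • fun i => vecMulVec (f i) ψ)
        (PolyFam.line _ _) (by simp) Set.finite_empty
        (fun s _ => hcn s) 1 (fun s => (![J42111 k, B, C] + s • fun i => vecMulVec (f i) ψ) 0 +
          s • (![J42111 k, B, C] + s • fun i => vecMulVec (f i) ψ) 1)
        (fun s => (adj _).add_mem (mem_adj _ 0) (SMulMemClass.smul_mem s (mem_adj _ 1))) ?_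
    have hfin : {s : k | (1 + s * ga) * φ j - s * e j * ψ 4 = 0}.Finite := by
      refine D7.IsPoly.finite (f := fun s => (1 + s * ga) * φ j -
        s * e j * ψ 4) (s₁ := 0) ?_ ?_
      · exact (((D7.IsPoly.const _).add (D7.IsPoly.id.mul (D7.IsPoly.const _))).mul
          (D7.IsPoly.const _)).sub
          ((D7.IsPoly.id.mul (D7.IsPoly.const _)).mul (D7.IsPoly.const _))
      · simpa using hj
    refine Set.Infinite.mono ?_ ((Set.finite_singleton (0 : k)).union hfin).infinite_compl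
    intro s hs
    have hs0 : s ≠ 0 := by
      intro h
      exact hs (Or.inl h)
    have hs1 : (1 + s * ga) * φ j - s * e j * ψ 4 ≠ 0 := by
      intro h
      exact hs (Or.inr h)
    rw [Set.mem_ofPred_eq, pow_one]
    refine lt_of_le_of_lt hρ ?_
    have hb : ∀ a b : Fin 9, ((![J42111 k, B, C] + s • fun i => vecMulVec (f i) ψ) 0 +
          s • (![J42111 k, B, C] + s • fun i => vecMulVec (f i) ψ) 1) a b =
        J42111 k a b + s * B a b + s * s * (f 1 a * ψ b) := by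
      intro a b
      simp only [Matrix.add_apply, Matrix.smul_apply, hent, hf]
      simp
      ring
    refine Nat.lt_of_succ_le (rankm (P i0) (P j) ?_ ?_ ?_ ?_ ?_ ?_ ?_ ?_ ?_ ?_ ?_ ?_ ?_ ?_ ?_ ?_)
    · rw [hb, hψ0, hB]
      simp [J42111, B42111]
    · rw [hb, hψ1, hB]
      simp [J42111, B42111]
    · rw [hb, hψ2, hB]
      simp [J42111, B42111]
    · rw [hb, hψ0, hB]
      simp [J42111, B42111]
    · rw [hb, hψ1, hB]
      simp [J42111, B42111]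
    · rw [hb, hψ2, hB]
      simp [J42111, B42111]
    · rw [hb, hψ0, hB]
      simp [J42111, B42111]
    · rw [hb, hψ1, hB]
      simp [J42111, B42111]
    · rw [hb, hψ2, hB]
      simp [J42111, B42111]
    · rw [hb, hf1_1, hB]
      simp [J42111, B42111]
    · rw [hb, hf1_1, hB, J_zP, B_1P]
      simp
    · rw [hb, hf1_2, hB, J_zP, B_2P]
      simp
    · rw [hb, hψ2, hB]
      simp [J42111, B42111]
    · rw [hb, hψ1, hB, J_P, B_P1]
      simp
    · rw [hb, hψ2, hB, J_P, B_P2]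
      simp
    · have h4 : s * s * (f 1 (P i0) * ((1 + s * ga) * φ j - s * e j * ψ 4)) ≠ 0 :=
        mul_ne_zero (mul_ne_zero hs0 hs0) (mul_ne_zero hi' hs1)
      intro h5
      apply h4
      rw [← h5]
      simp only [hb]
      simp only [hB, J_P, J_zP, B_N, B_e, B_th, B_pi, B_w, hψ, hψ1, hf1_1, hf1_2, hf1_3, hf1u, hf1v]
      simp [J42111, B42111]
      ring
  · obtain ⟨i, hi⟩ : ∃ i, f 0 i ≠ 0 := by
      by_contra h
      push Not at h
      exact hf (funext h)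
    have hi' : i = 4 ∨ i = 6 ∨ i = 7 ∨ i = 8 := by
      fin_cases i <;> simp [f] at hi ⊢
    refine hT.raise (fun s => ![J42111 k, B, C] + s • fun i => vecMulVec (f i) ψ)
        (PolyFam.line _ _) (by simp) Set.finite_empty
        (fun s _ => hcn s) 1 (fun s => (![J42111 k, B, C] + s • fun i => vecMulVec (f i) ψ) 0)
        (fun s => mem_adj _ 0) ?_
    refine Set.Infinite.mono ?_ (Set.finite_singleton (0 : k)).infinite_compl
    intro s hs
    have hs : s ≠ 0 := by simpa using hs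
    rw [Set.mem_ofPred_eq, pow_one]
    refine lt_of_le_of_lt hρ ?_
    have hb : ∀ a b : Fin 9, ((![J42111 k, B, C] + s • fun i => vecMulVec (f i) ψ) 0) a b =
        J42111 k a b + s * (f 0 a * ψ b) := by
      intro a b
      simp only [hent]
      simp
    have hJi : ∀ b, J42111 k i b = 0 := by
      intro b
      rcases hi' with rfl | rfl | rfl | rfl <;> fin_cases b <;> simp [J42111]
    have hf0_1 : f 0 1 = 0 := rfl
    have hf0_2 : f 0 2 = 0 := rfl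
    have hf0_3 : f 0 3 = 0 := rfl
    have hf0u : f 0 5 = 0 := rfl
    refine Nat.lt_of_succ_le (rankm i (P j) ?_ ?_ ?_ ?_ ?_ ?_ ?_ ?_ ?_ ?_ ?_ ?_ ?_ ?_ ?_ ?_)
    · rw [hb, hψ0]
      simp [J42111]
    · rw [hb, hψ1]
      simp [J42111]
    · rw [hb, hψ2]
      simp [J42111]
    · rw [hb, hψ0]
      simp [J42111]
    · rw [hb, hψ1]
      simp [J42111]
    · rw [hb, hψ2]
      simp [J42111]
    · rw [hb, hψ0]
      simp [J42111]
    · rw [hb, hψ1]
      simp [J42111]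
    · rw [hb, hψ2]
      simp [J42111]
    · rw [hb, hf0_1]
      simp [J42111]
    · rw [hb, hf0_1, J_zP]
      simp
    · rw [hb, hf0_2, J_zP]
      simp
    · rw [hb, hψ2]
      simp [J42111]
    · rw [hb, hψ1, hJi]
      simp
    · rw [hb, hψ2, hJi]
      simp
    · have h4 : s * (f 0 i * ψ (P j)) ≠ 0 := mul_ne_zero hs (mul_ne_zero hi hψj)
      intro h5
      apply h4
      rw [← h5]
      simp only [hb]
      simp only [hJi, J_zP, hψ1, hf0_1, hf0_2, hf0_3, hf0u]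
      simp [J42111]

end T42111Aux

end Pool.Agent.Lib.D9
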