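import Pool.Agent.Lib.D9.T42111B

/-!
# MP_5dcbc3_ag: type (4, 2, 1, 1, 1), case (2)
-/

namespace Pool.Agent.Lib.D9

open Matrix Pool.Agent.Lib.Q5dc Pool.Agent.Lib.D7

namespace T42111Aux

variable {k : Type*} [Field k]

/-- case I, normalization -/
theorem caseI_c [CharZero k] {ρ : ℕ → ℕ} (hρ : ρ 1 ≤ 4)
    {al al1 : k} {w : Fin 3 → k} {be1 ga : k} {th e : Fin 3 → k}
    {al' al1' : k} {w' : Fin 3 → k} {be1' ga' : k} {th' e' : Fin 3 → k}
    (hT : MaxR ρ ![J42111 k, B42111 al al1 w 0 be1 ga 0 th e 0,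
      B42111 al' al1' w' 0 be1' ga' 0 th' e' 0])
    (hal : al ≠ 0) (hw : w' - (al' / al) • w ≠ 0) : False := by
  have h1 := Pool.Agent.Lib.D8.MaxR.lin hT al⁻¹ 0 (-(al' / al)) 1 0 0 0 0 (by simp [hal])
  have h2 := B_lin al⁻¹ 0 al al1 w 0 be1 ga 0 th e 0 al' al1' w' 0 be1' ga' 0 th' e' 0
  have h3 := B_lin (-(al' / al)) 1 al al1 w 0 be1 ga 0 th e 0 al' al1' w' 0 be1' ga' 0 th' e' 0
  rw [h2, h3] at h1
  have e1 : al⁻¹ * al + 0 * al' = 1 := by simp [hal]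
  have e2 : -(al' / al) * al + 1 * al' = 0 := by
    field_simp
    ring
  have e3 : ∀ c d : k, c * 0 + d * 0 = 0 := by
    intro c d
    ring
  have e4 : ∀ c d : k, c • (0 : Fin 3 → k) + d • (0 : Fin 3 → k) = 0 := by
    intro c d
    simp
  have e5 : ∀ c d : k, c • (0 : Matrix (Fin 3) (Fin 3) k) + d • (0 : Matrix (Fin 3) (Fin 3) k)
      = 0 := by
    intro c d
    simp
  rw [e1, e2] at h1
  simp only [e3, e4, e5] at h1
  rw [zero_smul k (J42111 k), zero_smul k (J42111 k * J42111 k), add_zero, add_zero, add_zero,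
    add_zero] at h1
  refine caseI_fin hρ h1 ?_
  intro h
  apply hw
  rw [← h]
  module

/-- case I, moving `a_B` -/
theorem caseI_move [Infinite k] {ρ : ℕ → ℕ}
    {al al1 : k} {w : Fin 3 → k} {be1 ga : k} {th e : Fin 3 → k}
    {al' al1' : k} {w' : Fin 3 → k} {be1' ga' : k} {th' e' : Fin 3 → k}
    (hT : MaxR ρ ![J42111 k, B42111 al al1 w 0 be1 ga 0 th e 0,
      B42111 al' al1' w' 0 be1' ga' 0 th' e' 0])
    {f3 : k} {f : Fin 3 → k} (hf : f3 * al' + f ⬝ᵥ w' = 1) (x : k) (y : Fin 3 → k)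
    {F : Set k} (hF : F.Finite) :
    ∃ s ∉ F, ∃ (be1s gas : k) (ths es : Fin 3 → k),
      MaxR ρ ![J42111 k, B42111 (al + s * x) al1 (w + s • y) 0 be1s gas 0 ths es 0,
      B42111 al' al1' w' 0 be1' ga' 0 th' e' 0] := by
  obtain ⟨h1, h2⟩ := comm_BI' (hT.cn.1 1 2)
  obtain ⟨gv, hgv⟩ : ∃ gv, gv = x * be1' + th' ⬝ᵥ y := ⟨_, rfl⟩
  obtain ⟨gu, hgu⟩ : ∃ gu, gu = x * ga' + e' ⬝ᵥ y := ⟨_, rfl⟩
  have key : ∀ s : k, B42111 al al1 w 0 be1 ga 0 th e 0 + s • B42111 x 0 y 0 (f3 * gv) (f3 * gu)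
      0 (gv • f) (gu • f) 0 = B42111 (al + s * x) al1 (w + s • y) 0 (be1 + s * (f3 * gv))
        (ga + s * (f3 * gu)) 0 (th + s • gv • f) (e + s • gu • f) 0 := by
    intro s
    have h := B_lin 1 s al al1 w 0 be1 ga 0 th e 0 x 0 y 0 (f3 * gv) (f3 * gu)
      0 (gv • f) (gu • f) 0
    simpa using h
  obtain ⟨s, hs, h3⟩ := Pool.Agent.Lib.D8.MaxR.line2 hT (B42111 x 0 y 0 (f3 * gv) (f3 * gu)
      0 (gv • f) (gu • f) 0) 0 (by
      intro s
      rw [smul_zero, add_zero, key]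
      refine Pool.Agent.Lib.D8.cn3 (comm_J _ _ _ _ _ _ _ _ _ _) (comm_J _ _ _ _ _ _ _ _ _ _)
        (comm_BI ?_ ?_) J_nil (B_nil _ _ _ _ _ _ _ _ _) (B_nil _ _ _ _ _ _ _ _ _)
      · rw [hgv]
        simp only [add_dotProduct, smul_dotProduct, dotProduct_add, dotProduct_smul, smul_eq_mul]
        linear_combination h1 + s * (x * be1' + th' ⬝ᵥ y) * hf
      · rw [hgu]
        simp only [add_dotProduct, smul_dotProduct, dotProduct_add, dotProduct_smul, smul_eq_mul]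
        linear_combination h2 + s * (x * ga' + e' ⬝ᵥ y) * hf) hF
  rw [key, smul_zero, add_zero] at h3
  exact ⟨s, hs, _, _, _, _, h3⟩

theorem caseI_b [CharZero k] {ρ : ℕ → ℕ} (hρ : ρ 1 ≤ 4)
    {al al1 : k} {w : Fin 3 → k} {be1 ga : k} {th e : Fin 3 → k}
    {al' al1' : k} {w' : Fin 3 → k} {be1' ga' : k} {th' e' : Fin 3 → k}
    (hT : MaxR ρ ![J42111 k, B42111 al al1 w 0 be1 ga 0 th e 0,
      B42111 al' al1' w' 0 be1' ga' 0 th' e' 0])
    (hw : al' ≠ 0 ∨ w' ≠ 0) : False := by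
  have : Infinite k := CharZero.infinite k
  by_cases hal : al' = 0
  · subst hal
    have hw' : w' ≠ 0 := hw.resolve_left (by simp)
    obtain ⟨f, hf⟩ : ∃ f : Fin 3 → k, (0 : k) * 0 + f ⬝ᵥ w' = 1 := by
      obtain ⟨i, hi⟩ : ∃ i, w' i ≠ 0 := by
        by_contra h
        push Not at h
        exact hw' (funext h)
      refine ⟨Pi.single i (w' i)⁻¹, ?_⟩
      simp [hi]
    obtain ⟨s, hs, be1s, gas, ths, es, h2⟩ := caseI_move hT hf 1 0
      (Set.finite_singleton (-al))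
    refine caseI_c hρ h2 ?_ ?_
    · intro h
      apply hs
      rw [Set.mem_singleton_iff]
      linear_combination h
    · simpa using hw'
  · obtain ⟨s, hs, be1s, gas, ths, es, h2⟩ := caseI_move hT (f3 := al'⁻¹) (f := 0)
      (by simp [hal]) 0 (Pi.single 0 1) (Set.finite_singleton (-(w 0 - al / al' * w' 0)))
    refine caseI_c hρ (Pool.Agent.Lib.D8.MaxR.swap h2) hal ?_
    intro h3
    apply hs
    have h4 := congrFun h3 0
    simp at h4
    rw [Set.mem_singleton_iff]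
    linear_combination h4

theorem caseI [CharZero k] {ρ : ℕ → ℕ} (hρ : ρ 1 ≤ 4)
    {al al1 : k} {w : Fin 3 → k} {be1 ga : k} {th e : Fin 3 → k}
    {al' al1' : k} {w' : Fin 3 → k} {be1' ga' : k} {th' e' : Fin 3 → k}
    (hT : MaxR ρ ![J42111 k, B42111 al al1 w 0 be1 ga 0 th e 0,
      B42111 al' al1' w' 0 be1' ga' 0 th' e' 0]) : False := by
  have : Infinite k := CharZero.infinite k
  by_cases hC : al' ≠ 0 ∨ w' ≠ 0
  · exact caseI_b hρ hT hC
  by_cases hB : al ≠ 0 ∨ w ≠ 0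
  · exact caseI_b hρ (Pool.Agent.Lib.D8.MaxR.swap hT) hB
  push Not at hB hC
  obtain ⟨rfl, rfl⟩ := hB
  obtain ⟨rfl, rfl⟩ := hC
  obtain ⟨x, y, z, hxyz, h1, h2⟩ := T3211Aux.ker23 be1 (th 0) (th 1) ga (e 0) (e 1)
  have key : ∀ s : k, B42111 0 al1' 0 0 be1' ga' 0 th' e' 0 +
      s • B42111 x 0 ![y, z, 0] 0 0 0 0 0 0 0 =
      B42111 (s * x) al1' (s • ![y, z, 0]) 0 be1' ga' 0 th' e' 0 := by
    intro s
    have h := B_lin 1 s 0 al1' 0 0 be1' ga' 0 th' e' 0 x 0 ![y, z, 0] 0 0 0 0 0 0 0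
    simpa using h
  obtain ⟨s, hs, h3⟩ := Pool.Agent.Lib.D8.MaxR.line2 hT 0 (B42111 x 0 ![y, z, 0] 0 0 0 0 0 0 0)
    (by
      intro s
      rw [smul_zero, add_zero, key]
      refine Pool.Agent.Lib.D8.cn3 (comm_J _ _ _ _ _ _ _ _ _ _) (comm_J _ _ _ _ _ _ _ _ _ _)
        (comm_BI ?_ ?_) J_nil (B_nil _ _ _ _ _ _ _ _ _) (B_nil _ _ _ _ _ _ _ _ _)
      · simp [dotProduct, Fin.sum_univ_three]
        linear_combination s * h1
      · simp [dotProduct, Fin.sum_univ_three]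
        linear_combination s * h2) (Set.finite_singleton (0 : k))
  rw [key, smul_zero, add_zero] at h3
  have hs : s ≠ 0 := by simpa using hs
  refine caseI_b hρ h3 ?_
  rcases hxyz with h | h | h
  · exact Or.inl (mul_ne_zero hs h)
  · right
    intro h4
    exact mul_ne_zero hs h (by simpa using congrFun h4 0)
  · right
    intro h4
    exact mul_ne_zero hs h (by simpa using congrFun h4 1)

end T42111Aux

end Pool.Agent.Lib.D9
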