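import Pool.Agent.Lib.D9.T432P

/-!
# MP_5dcbc3_ag: type `(4, 3, 2)`: the triples with `a0 = b1 = g1 = 0` and `e0 ≠ 0`
-/

namespace Pool.Agent.Lib.D9

open Matrix Pool.Agent.Lib.Q5dc Pool.Agent.Lib.D7

variable {k : Type*} [Field k] [CharZero k] {ρ : ℕ → ℕ}

namespace T432

theorem b1i {a1 a2 c0 c1 b2 b3 q1 q2 e1 f2 f3 g2 r1 a2' b2' b3' q2' e1' : k}
    (hρ : ∀ i, ρ i = (J432 k ^ i).rank)
    (hT : MaxR ρ ![J432 k, B432 0 a1 a2 c0 c1 0 b2 b3 q1 q2 1 e1 f2 f3 0 g2 r1,
      B432 0 0 a2' 0 (c0 * e1' + (a1 - c0 * q1) * b2' / f2) 0 b2' b3' 0 q2' 0 e1' 0 (e1' * f2 - q1 * b2') 0 0 0])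
    (hf : f2 ≠ 0) (hb : b2' ≠ 0) : False := by
  obtain ⟨s, hs, hT'⟩ := deform (B := _) (C := _)
      (a0 := fun _ => 0) (a1 := fun _ => a1) (a2 := fun _ => a2) (c0 := fun _ => c0)
      (c1 := fun _ => c1) (b1 := fun _ => 0) (b2 := fun _ => b2) (b3 := fun _ => b3)
      (q1 := fun _ => q1) (q2 := fun _ => q2) (e0 := fun _ => 1) (e1 := fun _ => e1)
      (f2 := fun _ => f2) (f3 := fun _ => f3) (g1 := fun s => s * (f2 / b2'))
      (g2 := fun _ => g2) (r1 := fun _ => r1) (a0' := fun _ => 0) (a1' := fun s => c0 * s)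
      (a2' := fun _ => a2') (c0' := fun _ => 0)
      (c1' := fun _ => c0 * e1' + (a1 - c0 * q1) * b2' / f2) (b1' := fun _ => 0)
      (b2' := fun _ => b2') (b3' := fun _ => b3') (q1' := fun s => s) (q2' := fun _ => q2')
      (e0' := fun _ => 0) (e1' := fun _ => e1') (f2' := fun _ => 0)
      (f3' := fun s => e1' * f2 - q1 * b2' + s * b2) (g1' := fun _ => 0)
      (g2' := fun s => e1' * (s * (f2 / b2'))) (r1' := fun s => s)
      hT (by
        congr 1; ring) (by
        congr 1 <;> ring) (by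
        refine polyB ?_ ?_ ?_ ?_ ?_ ?_ ?_ ?_ ?_ ?_ ?_ ?_ ?_ ?_ ?_ ?_ ?_ <;>
        repeat' first
          | exact D7.IsPoly.const _
          | exact D7.IsPoly.id
          | apply D7.IsPoly.add
          | apply D7.IsPoly.sub
          | apply D7.IsPoly.mul
          | apply D7.IsPoly.neg
          | apply D7.IsPoly.pow
          | apply divc) (by
        refine polyB ?_ ?_ ?_ ?_ ?_ ?_ ?_ ?_ ?_ ?_ ?_ ?_ ?_ ?_ ?_ ?_ ?_ <;>
        repeat' first
          | exact D7.IsPoly.const _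
          | exact D7.IsPoly.id
          | apply D7.IsPoly.add
          | apply D7.IsPoly.sub
          | apply D7.IsPoly.mul
          | apply D7.IsPoly.neg
          | apply D7.IsPoly.pow
          | apply divc)
      (by
      intro s
      refine ⟨?_, ?_, ?_, ?_, ?_, ?_, ?_, ?_, ?_, ?_, ?_, ?_, ?_, ?_, ?_, ?_⟩ <;>
        beta_reduce <;> field_simp <;> ring)
      (Set.finite_singleton (0 : k))
  have h := (half hρ hT' (m0 _ _ _) (m1 _ _ _)).2
  have hs0 : s ≠ 0 := hs
  rw [one_mul] at h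
  exact mul_ne_zero hs0 (div_ne_zero hf hb) h

theorem b1i' {a1 a2 c0 c1 b2 b3 q1 q2 e1 f2 f3 g2 r1 a2' b2' b3' q2' e1' : k}
    (hρ : ∀ i, ρ i = (J432 k ^ i).rank)
    (hT : MaxR ρ ![J432 k, B432 0 a1 a2 c0 c1 0 b2 b3 q1 q2 1 e1 f2 f3 0 g2 r1,
      B432 0 0 a2' 0 (c0 * e1' + (a1 - c0 * q1) * b2' / f2) 0 b2' b3' 0 q2' 0 e1' 0 (e1' * f2 - q1 * b2') 0 0 0])
    (hf : f2 ≠ 0) : False := by
  obtain ⟨s, hs, hT'⟩ := deform (B := _) (C := _)
      (a0 := fun _ => 0) (a1 := fun _ => a1) (a2 := fun _ => a2) (c0 := fun _ => c0)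
      (c1 := fun _ => c1) (b1 := fun _ => 0) (b2 := fun _ => b2) (b3 := fun _ => b3)
      (q1 := fun _ => q1) (q2 := fun _ => q2) (e0 := fun _ => 1) (e1 := fun _ => e1)
      (f2 := fun _ => f2) (f3 := fun _ => f3) (g1 := fun _ => 0) (g2 := fun _ => g2)
      (r1 := fun _ => r1) (a0' := fun _ => 0) (a1' := fun _ => 0) (a2' := fun _ => a2')
      (c0' := fun _ => 0) (c1' := fun s => c0 * e1' + (a1 - c0 * q1) * (b2' + s) / f2)
      (b1' := fun _ => 0) (b2' := fun s => b2' + s) (b3' := fun _ => b3') (q1' := fun _ => 0)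
      (q2' := fun _ => q2') (e0' := fun _ => 0) (e1' := fun _ => e1') (f2' := fun _ => 0)
      (f3' := fun s => e1' * f2 - q1 * (b2' + s)) (g1' := fun _ => 0) (g2' := fun _ => 0)
      (r1' := fun _ => 0)
      hT (by
        rfl) (by
        beta_reduce; congr 1 <;> ring) (by
        refine polyB ?_ ?_ ?_ ?_ ?_ ?_ ?_ ?_ ?_ ?_ ?_ ?_ ?_ ?_ ?_ ?_ ?_ <;>
        repeat' first
          | exact D7.IsPoly.const _
          | exact D7.IsPoly.id
          | apply D7.IsPoly.add
          | apply D7.IsPoly.sub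
          | apply D7.IsPoly.mul
          | apply D7.IsPoly.neg
          | apply D7.IsPoly.pow
          | apply divc) (by
        refine polyB ?_ ?_ ?_ ?_ ?_ ?_ ?_ ?_ ?_ ?_ ?_ ?_ ?_ ?_ ?_ ?_ ?_ <;>
        repeat' first
          | exact D7.IsPoly.const _
          | exact D7.IsPoly.id
          | apply D7.IsPoly.add
          | apply D7.IsPoly.sub
          | apply D7.IsPoly.mul
          | apply D7.IsPoly.neg
          | apply D7.IsPoly.pow
          | apply divc)
      (by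
      intro s
      refine ⟨?_, ?_, ?_, ?_, ?_, ?_, ?_, ?_, ?_, ?_, ?_, ?_, ?_, ?_, ?_, ?_⟩ <;>
        beta_reduce <;> field_simp <;> ring)
      (Set.finite_singleton (-b2'))
  exact b1i hρ hT' hf (fun h => hs (eq_neg_of_add_eq_zero_right h))

theorem b1ii {a1 a2 c0 c1 b2 b3 q1 q2 e1 f3 g2 r1 a2' c0' c1' b2' b3' x q2' e1' : k}
    (hρ : ∀ i, ρ i = (J432 k ^ i).rank)
    (hT : MaxR ρ ![J432 k, B432 0 a1 a2 c0 c1 0 b2 b3 q1 q2 1 e1 0 f3 0 g2 r1,
      B432 0 (c0 * x - c0' * r1) a2' c0' c1' 0 b2' b3' x q2' 0 e1' 0 (x * b2 - q1 * b2') 0 0 x])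
    (h5 : x * (a1 - c0 * q1) = c0' * (g2 - r1 * q1))
    (h3 : b2' * (a1 - c0 * q1) = c0' * (f3 - r1 * b2)) (hx : x ≠ 0) : False := by
  obtain ⟨K1, hK1⟩ : ∃ K1, K1 = (c0' / x * (q2' - q1 * e1' + c0 * b2') + c0 * e1' - c1') := ⟨_, rfl⟩
  obtain ⟨K2, hK2⟩ : ∃ K2, K2 = ((b3' - b2 * e1' - b2' / x * (q2' - q1 * e1' + c0 * b2')) / x) := ⟨_, rfl⟩
  obtain ⟨s, hs, hT'⟩ := deform (B := _) (C := _)
      (a0 := fun s => s * (c0' / x)) (a1 := fun s => a1 - s * (K1 / x)) (a2 := fun _ => a2)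
      (c0 := fun _ => c0) (c1 := fun _ => c1) (b1 := fun _ => 0) (b2 := fun _ => b2)
      (b3 := fun _ => b3) (q1 := fun _ => q1) (q2 := fun _ => q2) (e0 := fun _ => 1)
      (e1 := fun _ => e1) (f2 := fun s => s * (b2' / x)) (f3 := fun s => f3 + s * K2)
      (g1 := fun s => s) (g2 := fun _ => g2) (r1 := fun _ => r1) (a0' := fun _ => 0)
      (a1' := fun s => s * (c0' / x) * e1' + (c0 * x - c0' * r1)) (a2' := fun _ => a2')
      (c0' := fun _ => c0') (c1' := fun _ => c1') (b1' := fun _ => 0) (b2' := fun _ => b2')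
      (b3' := fun _ => b3') (q1' := fun _ => x) (q2' := fun _ => q2') (e0' := fun _ => 0)
      (e1' := fun _ => e1') (f2' := fun _ => 0)
      (f3' := fun s => x * b2 - q1 * b2' + e1' * (s * (b2' / x))) (g1' := fun _ => 0)
      (g2' := fun s => b2' * (s * (c0' / x)) + e1' * s) (r1' := fun _ => x)
      hT (by
        beta_reduce; congr 1 <;> ring) (by
        beta_reduce; congr 1 <;> ring) (by
        refine polyB ?_ ?_ ?_ ?_ ?_ ?_ ?_ ?_ ?_ ?_ ?_ ?_ ?_ ?_ ?_ ?_ ?_ <;>
        repeat' first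
          | exact D7.IsPoly.const _
          | exact D7.IsPoly.id
          | apply D7.IsPoly.add
          | apply D7.IsPoly.sub
          | apply D7.IsPoly.mul
          | apply D7.IsPoly.neg
          | apply D7.IsPoly.pow
          | apply divc) (by
        refine polyB ?_ ?_ ?_ ?_ ?_ ?_ ?_ ?_ ?_ ?_ ?_ ?_ ?_ ?_ ?_ ?_ ?_ <;>
        repeat' first
          | exact D7.IsPoly.const _
          | exact D7.IsPoly.id
          | apply D7.IsPoly.add
          | apply D7.IsPoly.sub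
          | apply D7.IsPoly.mul
          | apply D7.IsPoly.neg
          | apply D7.IsPoly.pow
          | apply divc)
      (by
      intro s
      subst hK1 hK2
      refine ⟨?_, ?_, ?_, ?_, ?_, ?_, ?_, ?_, ?_, ?_, ?_, ?_, ?_, ?_, ?_, ?_⟩ <;>
        beta_reduce
      all_goals first | ring1 | (field_simp; ring1) | skip
      · linear_combination (norm := skip) h3
        field_simp
        ring1
      · linear_combination (norm := skip) h5
        field_simp
        ring1)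
      (Set.finite_singleton (0 : k))
  have h := (half hρ hT' (m0 _ _ _) (m1 _ _ _)).2
  have hs0 : s ≠ 0 := hs
  rw [one_mul] at h
  exact hs0 h

theorem b1a {a1 a2 c0 c1 b2 b3 q1 q2 e1 f3 r1 a2' c0' c1' b2' b3' q2' e1' : k}
    (hρ : ∀ i, ρ i = (J432 k ^ i).rank)
    (hT : MaxR ρ ![J432 k, B432 0 a1 a2 c0 c1 0 b2 b3 q1 q2 1 e1 0 f3 0 (r1 * q1) r1,
      B432 0 (-(c0' * r1)) a2' c0' c1' 0 b2' b3' 0 q2' 0 e1' 0 (-(q1 * b2')) 0 0 0])
    (h3 : b2' * (a1 - c0 * q1) = c0' * (f3 - r1 * b2)) (hc : c0' ≠ 0) : False := by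
  obtain ⟨s, hs, hT'⟩ := deform (B := _) (C := _)
      (a0 := fun _ => 0) (a1 := fun _ => a1) (a2 := fun _ => a2) (c0 := fun _ => c0)
      (c1 := fun _ => c1) (b1 := fun _ => 0) (b2 := fun _ => b2) (b3 := fun _ => b3)
      (q1 := fun _ => q1) (q2 := fun _ => q2) (e0 := fun _ => 1) (e1 := fun _ => e1)
      (f2 := fun _ => 0) (f3 := fun _ => f3) (g1 := fun _ => 0)
      (g2 := fun s => r1 * q1 + s * ((a1 - c0 * q1) / c0')) (r1 := fun _ => r1)
      (a0' := fun _ => 0) (a1' := fun s => c0 * s - c0' * r1) (a2' := fun _ => a2')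
      (c0' := fun _ => c0') (c1' := fun _ => c1') (b1' := fun _ => 0) (b2' := fun _ => b2')
      (b3' := fun _ => b3') (q1' := fun s => s) (q2' := fun _ => q2') (e0' := fun _ => 0)
      (e1' := fun _ => e1') (f2' := fun _ => 0) (f3' := fun s => s * b2 - q1 * b2')
      (g1' := fun _ => 0) (g2' := fun _ => 0) (r1' := fun s => s)
      hT (by
        beta_reduce; congr 1; ring) (by
        beta_reduce; congr 1 <;> ring) (by
        refine polyB ?_ ?_ ?_ ?_ ?_ ?_ ?_ ?_ ?_ ?_ ?_ ?_ ?_ ?_ ?_ ?_ ?_ <;>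
        repeat' first
          | exact D7.IsPoly.const _
          | exact D7.IsPoly.id
          | apply D7.IsPoly.add
          | apply D7.IsPoly.sub
          | apply D7.IsPoly.mul
          | apply D7.IsPoly.neg
          | apply D7.IsPoly.pow
          | apply divc) (by
        refine polyB ?_ ?_ ?_ ?_ ?_ ?_ ?_ ?_ ?_ ?_ ?_ ?_ ?_ ?_ ?_ ?_ ?_ <;>
        repeat' first
          | exact D7.IsPoly.const _
          | exact D7.IsPoly.id
          | apply D7.IsPoly.add
          | apply D7.IsPoly.sub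
          | apply D7.IsPoly.mul
          | apply D7.IsPoly.neg
          | apply D7.IsPoly.pow
          | apply divc)
      (by
      intro s
      refine ⟨?_, ?_, ?_, ?_, ?_, ?_, ?_, ?_, ?_, ?_, ?_, ?_, ?_, ?_, ?_, ?_⟩ <;>
        beta_reduce
      all_goals first | ring1 | (field_simp; ring1) | linear_combination h3 | skip)
      (Set.finite_singleton (0 : k))
  exact b1ii hρ hT' (by field_simp; ring) h3 hs

theorem b1b {a2 c0 c1 b2 b3 q1 q2 e1 f3 g2 r1 a2' c1' b2' b3' q2' e1' : k}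
    (hρ : ∀ i, ρ i = (J432 k ^ i).rank)
    (hT : MaxR ρ ![J432 k, B432 0 (c0 * q1) a2 c0 c1 0 b2 b3 q1 q2 1 e1 0 f3 0 g2 r1,
      B432 0 0 a2' 0 c1' 0 b2' b3' 0 q2' 0 e1' 0 (-(q1 * b2')) 0 0 0]) : False := by
  obtain ⟨s, hs, hT'⟩ := deform (B := _) (C := _)
      (a0 := fun _ => 0) (a1 := fun _ => c0 * q1) (a2 := fun _ => a2) (c0 := fun _ => c0)
      (c1 := fun _ => c1) (b1 := fun _ => 0) (b2 := fun _ => b2) (b3 := fun _ => b3)
      (q1 := fun _ => q1) (q2 := fun _ => q2) (e0 := fun _ => 1) (e1 := fun _ => e1)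
      (f2 := fun _ => 0) (f3 := fun _ => f3) (g1 := fun _ => 0) (g2 := fun _ => g2)
      (r1 := fun _ => r1) (a0' := fun _ => 0) (a1' := fun s => c0 * s - 0 * r1)
      (a2' := fun _ => a2') (c0' := fun _ => 0) (c1' := fun _ => c1') (b1' := fun _ => 0)
      (b2' := fun _ => b2') (b3' := fun _ => b3') (q1' := fun s => s) (q2' := fun _ => q2')
      (e0' := fun _ => 0) (e1' := fun _ => e1') (f2' := fun _ => 0)
      (f3' := fun s => s * b2 - q1 * b2') (g1' := fun _ => 0) (g2' := fun _ => 0)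
      (r1' := fun s => s)
      hT (by
        rfl) (by
        beta_reduce; congr 1 <;> ring) (by
        refine polyB ?_ ?_ ?_ ?_ ?_ ?_ ?_ ?_ ?_ ?_ ?_ ?_ ?_ ?_ ?_ ?_ ?_ <;>
        repeat' first
          | exact D7.IsPoly.const _
          | exact D7.IsPoly.id
          | apply D7.IsPoly.add
          | apply D7.IsPoly.sub
          | apply D7.IsPoly.mul
          | apply D7.IsPoly.neg
          | apply D7.IsPoly.pow
          | apply divc) (by
        refine polyB ?_ ?_ ?_ ?_ ?_ ?_ ?_ ?_ ?_ ?_ ?_ ?_ ?_ ?_ ?_ ?_ ?_ <;>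
        repeat' first
          | exact D7.IsPoly.const _
          | exact D7.IsPoly.id
          | apply D7.IsPoly.add
          | apply D7.IsPoly.sub
          | apply D7.IsPoly.mul
          | apply D7.IsPoly.neg
          | apply D7.IsPoly.pow
          | apply divc)
      (by
      intro s
      refine ⟨?_, ?_, ?_, ?_, ?_, ?_, ?_, ?_, ?_, ?_, ?_, ?_, ?_, ?_, ?_, ?_⟩ <;>
        beta_reduce
      all_goals first | ring1 | (field_simp; ring1) | linear_combination h3 | skip)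
      (Set.finite_singleton (0 : k))
  exact b1ii hρ hT' (by ring) (by ring) hs

theorem b1c {om a2 c0 c1 b2 b3 q1 q2 e1 f3 g2 r1 a2' c1' b3' q2' e1' : k}
    (hρ : ∀ i, ρ i = (J432 k ^ i).rank)
    (hT : MaxR ρ ![J432 k, B432 0 (c0 * q1 + om) a2 c0 c1 0 b2 b3 q1 q2 1 e1 0 f3 0 g2 r1,
      B432 0 0 a2' 0 c1' 0 0 b3' 0 q2' 0 e1' 0 0 0 0 0])
    (ho : om ≠ 0) : False := by
  obtain ⟨s, hs, hT'⟩ := deform (B := _) (C := _)
      (a0 := fun _ => 0) (a1 := fun _ => c0 * q1 + om) (a2 := fun _ => a2) (c0 := fun _ => c0)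
      (c1 := fun _ => c1) (b1 := fun _ => 0) (b2 := fun _ => b2) (b3 := fun _ => b3)
      (q1 := fun _ => q1) (q2 := fun _ => q2) (e0 := fun _ => 1) (e1 := fun _ => e1)
      (f2 := fun _ => 0) (f3 := fun _ => f3) (g1 := fun _ => 0) (g2 := fun s => g2 + s)
      (r1 := fun _ => r1) (a0' := fun _ => 0)
      (a1' := fun s => c0 * (s * (g2 + s - r1 * q1) / om) - s * r1) (a2' := fun _ => a2')
      (c0' := fun s => s) (c1' := fun _ => c1') (b1' := fun _ => 0)
      (b2' := fun s => s * (f3 - r1 * b2) / om) (b3' := fun _ => b3')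
      (q1' := fun s => s * (g2 + s - r1 * q1) / om) (q2' := fun _ => q2') (e0' := fun _ => 0)
      (e1' := fun _ => e1') (f2' := fun _ => 0)
      (f3' := fun s => s * (g2 + s - r1 * q1) / om * b2 - q1 * (s * (f3 - r1 * b2) / om))
      (g1' := fun _ => 0) (g2' := fun _ => 0) (r1' := fun s => s * (g2 + s - r1 * q1) / om)
      hT (by
        beta_reduce; congr 1; ring) (by
        beta_reduce; congr 1 <;> ring) (by
        refine polyB ?_ ?_ ?_ ?_ ?_ ?_ ?_ ?_ ?_ ?_ ?_ ?_ ?_ ?_ ?_ ?_ ?_ <;>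
        repeat' first
          | exact D7.IsPoly.const _
          | exact D7.IsPoly.id
          | apply D7.IsPoly.add
          | apply D7.IsPoly.sub
          | apply D7.IsPoly.mul
          | apply D7.IsPoly.neg
          | apply D7.IsPoly.pow
          | apply divc) (by
        refine polyB ?_ ?_ ?_ ?_ ?_ ?_ ?_ ?_ ?_ ?_ ?_ ?_ ?_ ?_ ?_ ?_ ?_ <;>
        repeat' first
          | exact D7.IsPoly.const _
          | exact D7.IsPoly.id
          | apply D7.IsPoly.add
          | apply D7.IsPoly.sub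
          | apply D7.IsPoly.mul
          | apply D7.IsPoly.neg
          | apply D7.IsPoly.pow
          | apply divc)
      (by
      intro s
      refine ⟨?_, ?_, ?_, ?_, ?_, ?_, ?_, ?_, ?_, ?_, ?_, ?_, ?_, ?_, ?_, ?_⟩ <;>
        beta_reduce
      all_goals first | ring1 | (field_simp; ring1) | linear_combination h3 | skip)
      (Set.toFinite ({0, r1 * q1 - g2} : Set k))
  refine b1ii hρ hT' (by field_simp; ring) (by field_simp; ring) ?_
  refine div_ne_zero (mul_ne_zero (fun h => hs (Or.inl h)) fun h => hs (Or.inr ?_)) ho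
  show s = r1 * q1 - g2
  linear_combination h

theorem caseB1 {a1 a2 c0 c1 b2 b3 q1 q2 e1 f2 f3 g2 r1 a1' a2' c0' c1' b2' b3' q1' q2' e1' f2' f3' g2' r1' : k}
    (hρ : ∀ i, ρ i = (J432 k ^ i).rank)
    (hT : MaxR ρ ![J432 k, B432 0 a1 a2 c0 c1 0 b2 b3 q1 q2 1 e1 f2 f3 0 g2 r1,
      B432 0 a1' a2' c0' c1' 0 b2' b3' q1' q2' 0 e1' f2' f3' 0 g2' r1']) : False := by
  obtain ⟨-, r2, r3, -, r5, -, r7, r8, r9, -, r11, r12, -, r14, -, -⟩ := rel_of_cn hT.cn
  have e1_ : f2' = 0 := by linear_combination r8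
  have e2 : g2' = 0 := by linear_combination r11
  have e3 : q1' = r1' := by linear_combination -r12
  have e4 : a1' = c0 * q1' - c0' * r1 := by subst e3; linear_combination -r7
  subst e1_ e2 e3 e4
  have e5 : f3' = q1' * b2 - q1 * b2' + e1' * f2 := by linear_combination r9
  subst e5
  have e6 : q1' * f2 = 0 := by linear_combination -r14
  have e7 : c0' * f2 = 0 := by linear_combination -r2
  by_cases hf : f2 = 0
  · subst hf
    have h5 : q1' * (a1 - c0 * q1) = c0' * (g2 - r1 * q1) := by linear_combination r5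
    have h3 : b2' * (a1 - c0 * q1) = c0' * (f3 - r1 * b2) := by linear_combination r3
    simp only [mul_zero, add_zero] at hT
    by_cases hx : q1' = 0
    · subst hx
      simp only [mul_zero, zero_mul, zero_sub] at hT h5
      by_cases hc : c0' = 0
      · subst hc
        simp only [zero_mul, neg_zero] at hT h5 h3
        by_cases ho : a1 - c0 * q1 = 0
        · have ho' : a1 = c0 * q1 := sub_eq_zero.1 ho
          subst ho'
          exact b1b hρ hT
        · have hb : b2' = 0 := (mul_eq_zero.1 h3).resolve_right ho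
          subst hb
          simp only [mul_zero, neg_zero] at hT
          have e9 : a1 = c0 * q1 + (a1 - c0 * q1) := by ring
          rw [e9] at hT
          exact b1c hρ hT ho
      · have hg : g2 = r1 * q1 := sub_eq_zero.1 ((mul_eq_zero.1 h5.symm).resolve_left hc)
        subst hg
        exact b1a hρ hT h3 hc
    · exact b1ii hρ hT h5 h3 hx
  · have hx : q1' = 0 := (mul_eq_zero.1 e6).resolve_right hf
    have hc : c0' = 0 := (mul_eq_zero.1 e7).resolve_right hf
    subst hx hc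
    have e8 : c1' = c0 * e1' + (a1 - c0 * q1) * b2' / f2 := by
      field_simp
      linear_combination -r3
    subst e8
    simp only [mul_zero, zero_mul, zero_sub, neg_zero, sub_zero] at hT
    have e9 : -(q1 * b2') + e1' * f2 = e1' * f2 - q1 * b2' := by ring
    rw [e9] at hT
    exact b1i' hρ hT hf

end T432

end Pool.Agent.Lib.D9
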