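import Pool.Agent.Lib.D9.T432A
import Pool.Agent.Lib.D9.T432B1

/-!
# MP_5dcbc3_ag: no maximal bad triple with Jordan type `(4, 3, 2)`
-/

namespace Pool.Agent.Lib.D9

open Matrix Pool.Agent.Lib.Q5dc Pool.Agent.Lib.D7

variable {k : Type*} [Field k] [CharZero k] {ρ : ℕ → ℕ}

namespace T432

/-- the products of the four half entries vanish on the whole pencil -/
theorem halves (hρ : ∀ i, ρ i = (J432 k ^ i).rank) {a0 a1 a2 c0 c1 b1 b2 b3 q1 q2 e0 e1 f2 f3 g1 g2 r1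
      a0' a1' a2' c0' c1' b1' b2' b3' q1' q2' e0' e1' f2' f3' g1' g2' r1' : k}
    (hT : MaxR ρ ![J432 k, B432 a0 a1 a2 c0 c1 b1 b2 b3 q1 q2 e0 e1 f2 f3 g1 g2 r1,
      B432 a0' a1' a2' c0' c1' b1' b2' b3' q1' q2' e0' e1' f2' f3' g1' g2' r1']) :
    (a0 * b1 = 0 ∧ a0' * b1' = 0 ∧ a0 * b1' = 0 ∧ a0' * b1 = 0) ∧
      e0 * g1 = 0 ∧ e0' * g1' = 0 ∧ e0 * g1' = 0 ∧ e0' * g1 = 0 := by
  have p1 := half hρ hT (m0 _ _ _) (m1 _ _ _)
  have p2 := half hρ hT (m0 _ _ _) (m2 _ _ _)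
  have p3 := add_mem (m1 (J432 k) (B432 a0 a1 a2 c0 c1 b1 b2 b3 q1 q2 e0 e1 f2 f3 g1 g2 r1)
    (B432 a0' a1' a2' c0' c1' b1' b2' b3' q1' q2' e0' e1' f2' f3' g1' g2' r1'))
    (m2 (J432 k) (B432 a0 a1 a2 c0 c1 b1 b2 b3 q1 q2 e0 e1 f2 f3 g1 g2 r1)
    (B432 a0' a1' a2' c0' c1' b1' b2' b3' q1' q2' e0' e1' f2' f3' g1' g2' r1'))
  rw [addB] at p3
  have p4 := half hρ hT (m0 _ _ _) p3
  obtain ⟨r1_, -, -, -, -, -, -, -, -, -, -, -, -, -, -, r16⟩ := rel_of_cn hT.cn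
  have h2 : (2 : k) ≠ 0 := two_ne_zero
  have k1 : a0 * b1' = 0 := by
    have : (2 : k) * (a0 * b1') = 0 := by linear_combination p4.1 - p1.1 - p2.1 + r1_
    exact (mul_eq_zero.1 this).resolve_left h2
  have k2 : e0 * g1' = 0 := by
    have : (2 : k) * (e0 * g1') = 0 := by linear_combination p4.2 - p1.2 - p2.2 - r16
    exact (mul_eq_zero.1 this).resolve_left h2
  exact ⟨⟨p1.1, p2.1, k1, by linear_combination k1 - r1_⟩,
    p1.2, p2.2, k2, by linear_combination k2 + r16⟩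

/-- normalisation: `x0 ≠ 0` becomes `1` and `0` -/
theorem norm {B C : Matrix (Fin 9) (Fin 9) k} (hT : MaxR ρ ![J432 k, B, C]) {x x' : k}
    (h : x ≠ 0) : MaxR ρ ![J432 k, x⁻¹ • B, C - (x' / x) • B] := by
  have h1 := gl2 hT (x := x⁻¹) (y := 0) (z := -(x' / x)) (t := 1) (by
    rw [zero_mul, sub_zero, mul_one]
    exact inv_ne_zero h)
  have e1 : x⁻¹ • B + (0 : k) • C = x⁻¹ • B := by rw [zero_smul, add_zero]
  have e2 : -(x' / x) • B + (1 : k) • C = C - (x' / x) • B := by module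
  rwa [e1, e2] at h1

theorem caseA' [IsAlgClosed k] (hρ : ∀ i, ρ i = (J432 k ^ i).rank) {a0 a1 a2 c0 c1 b1 b2 b3 q1 q2 e0 e1 f2 f3 g1 g2 r1
      a0' a1' a2' c0' c1' b1' b2' b3' q1' q2' e0' e1' f2' f3' g1' g2' r1' : k}
    (hT : MaxR ρ ![J432 k, B432 a0 a1 a2 c0 c1 b1 b2 b3 q1 q2 e0 e1 f2 f3 g1 g2 r1,
      B432 a0' a1' a2' c0' c1' b1' b2' b3' q1' q2' e0' e1' f2' f3' g1' g2' r1']) (h : a0 ≠ 0) : False := by
  have h1 := norm hT (x' := a0') h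
  rw [smulB, smulB, subB, inv_mul_cancel₀ h, div_mul_cancel₀ _ h, sub_self] at h1
  exact caseA hρ h1

theorem caseB1' (hρ : ∀ i, ρ i = (J432 k ^ i).rank) {a1 a2 c0 c1 b2 b3 q1 q2 e0 e1 f2 f3 g2 r1
      a1' a2' c0' c1' b2' b3' q1' q2' e0' e1' f2' f3' g2' r1' : k}
    (hT : MaxR ρ ![J432 k, B432 0 a1 a2 c0 c1 0 b2 b3 q1 q2 e0 e1 f2 f3 0 g2 r1,
      B432 0 a1' a2' c0' c1' 0 b2' b3' q1' q2' e0' e1' f2' f3' 0 g2' r1']) (h : e0 ≠ 0) : False := by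
  have h1 := norm hT (x' := e0') h
  rw [smulB, smulB, subB, inv_mul_cancel₀ h, div_mul_cancel₀ _ h, sub_self] at h1
  simp only [mul_zero, sub_zero] at h1
  exact caseB1 hρ h1

/-- one of the half entries is not zero -/
theorem caseH [IsAlgClosed k] (hρ : ∀ i, ρ i = (J432 k ^ i).rank) {a0 a1 a2 c0 c1 b1 b2 b3 q1 q2 e0 e1 f2 f3 g1 g2 r1
      a0' a1' a2' c0' c1' b1' b2' b3' q1' q2' e0' e1' f2' f3' g1' g2' r1' : k}
    (hT : MaxR ρ ![J432 k, B432 a0 a1 a2 c0 c1 b1 b2 b3 q1 q2 e0 e1 f2 f3 g1 g2 r1,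
      B432 a0' a1' a2' c0' c1' b1' b2' b3' q1' q2' e0' e1' f2' f3' g1' g2' r1'])
    (h : a0 ≠ 0 ∨ b1 ≠ 0 ∨ e0 ≠ 0 ∨ g1 ≠ 0) : False := by
  obtain ⟨⟨p1, p2, p3, p4⟩, s1, s2, s3, s4⟩ := halves hρ hT
  by_cases h1 : a0 = 0
  · by_cases h1' : a0' = 0
    · by_cases h2 : b1 = 0
      · by_cases h2' : b1' = 0
        · subst h1 h1' h2 h2'
          rcases h with h | h | h | h
          · exact h rfl
          · exact h rfl
          · have k1 : g1 = 0 := (mul_eq_zero.1 s1).resolve_left h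
            have k2 : g1' = 0 := (mul_eq_zero.1 s3).resolve_left h
            subst k1 k2
            exact caseB1' hρ hT h
          · have k1 : e0 = 0 := (mul_eq_zero.1 s1).resolve_right h
            have k2 : e0' = 0 := (mul_eq_zero.1 s4).resolve_right h
            subst k1 k2
            exact caseB1' hρ (dual hT) h
        · exact caseA' hρ (dual (swap hT)) h2'
      · exact caseA' hρ (dual hT) h2
    · exact caseA' hρ (swap hT) h1'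
  · exact caseA' hρ hT h1

theorem caseAll [IsAlgClosed k] (hρ : ∀ i, ρ i = (J432 k ^ i).rank) {a0 a1 a2 c0 c1 b1 b2 b3 q1 q2 e0 e1 f2 f3 g1 g2 r1
      a0' a1' a2' c0' c1' b1' b2' b3' q1' q2' e0' e1' f2' f3' g1' g2' r1' : k}
    (hT : MaxR ρ ![J432 k, B432 a0 a1 a2 c0 c1 b1 b2 b3 q1 q2 e0 e1 f2 f3 g1 g2 r1,
      B432 a0' a1' a2' c0' c1' b1' b2' b3' q1' q2' e0' e1' f2' f3' g1' g2' r1']) : False := by
  have hH : ∀ {a0 a1 a2 c0 c1 b1 b2 b3 q1 q2 e0 e1 f2 f3 g1 g2 r1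
      a0' a1' a2' c0' c1' b1' b2' b3' q1' q2' e0' e1' f2' f3' g1' g2' r1' : k},
      MaxR ρ ![J432 k, B432 a0 a1 a2 c0 c1 b1 b2 b3 q1 q2 e0 e1 f2 f3 g1 g2 r1,
        B432 a0' a1' a2' c0' c1' b1' b2' b3' q1' q2' e0' e1' f2' f3' g1' g2' r1'] →
      a0 ≠ 0 ∨ b1 ≠ 0 ∨ e0 ≠ 0 ∨ g1 ≠ 0 → False := fun h h' => caseH hρ h h'
  by_cases h1 : a0 ≠ 0 ∨ b1 ≠ 0 ∨ e0 ≠ 0 ∨ g1 ≠ 0
  · exact hH hT h1
  · by_cases h2 : a0' ≠ 0 ∨ b1' ≠ 0 ∨ e0' ≠ 0 ∨ g1' ≠ 0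
    · exact hH (swap hT) h2
    · push Not at h1 h2
      obtain ⟨rfl, rfl, rfl, rfl⟩ := h1
      obtain ⟨rfl, rfl, rfl, rfl⟩ := h2
      exact caseB0 hH hT

end T432

open T432

theorem no_432 [IsAlgClosed k] {T : Fin 3 → Matrix (Fin 9) (Fin 9) k} (hT : MaxR ρ T)
    (hρ : ∀ i, ρ i = (J432 k ^ i).rank) (h0 : T 0 = J432 k) : False := by
  have hT' : MaxR ρ ![J432 k, T 1, T 2] := by
    have e : T = ![J432 k, T 1, T 2] := by
      funext i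
      fin_cases i
      exacts [h0, rfl, rfl]
    rwa [← e]
  obtain ⟨x1, x2, x3, a0, a1, a2, c0, c1, b1, b2, b3, q1, q2, e0, e1, f2, f3, g1, g2, r1, hB⟩ :=
    shape (hT'.cn.1 0 1) (hT'.cn.2 1)
  obtain ⟨y1, y2, y3, a0', a1', a2', c0', c1', b1', b2', b3', q1', q2', e0', e1', f2', f3', g1',
    g2', r1', hC⟩ := shape (hT'.cn.1 0 2) (hT'.cn.2 2)
  have key : ∀ (B C : Matrix (Fin 9) (Fin 9) k) (a b c : k),
      a • J432 k + b • (J432 k * J432 k) + c • (J432 k * J432 k * J432 k) ∈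
        adj ![J432 k, B, C] := fun B C a b c =>
    add_mem (add_mem (SMulMemClass.smul_mem _ (m0 _ _ _))
      (SMulMemClass.smul_mem _ (mul_mem (m0 _ _ _) (m0 _ _ _))))
      (SMulMemClass.smul_mem _ (mul_mem (mul_mem (m0 _ _ _) (m0 _ _ _)) (m0 _ _ _)))
  have hB' : B432 a0 a1 a2 c0 c1 b1 b2 b3 q1 q2 e0 e1 f2 f3 g1 g2 r1 ∈
      adj ![J432 k, T 1, T 2] := by
    have h := sub_mem (m1 (J432 k) (T 1) (T 2)) (key (T 1) (T 2) x1 x2 x3)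
    have e : T 1 - (x1 • J432 k + x2 • (J432 k * J432 k) + x3 • (J432 k * J432 k * J432 k)) =
        B432 a0 a1 a2 c0 c1 b1 b2 b3 q1 q2 e0 e1 f2 f3 g1 g2 r1 := by
      rw [sub_eq_iff_eq_add, add_comm]
      exact hB
    rwa [e] at h
  have hC' : B432 a0' a1' a2' c0' c1' b1' b2' b3' q1' q2' e0' e1' f2' f3' g1' g2' r1' ∈
      adj ![J432 k, T 1, T 2] := by
    have h := sub_mem (m2 (J432 k) (T 1) (T 2)) (key (T 1) (T 2) y1 y2 y3)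
    have e : T 2 - (y1 • J432 k + y2 • (J432 k * J432 k) + y3 • (J432 k * J432 k * J432 k)) =
        B432 a0' a1' a2' c0' c1' b1' b2' b3' q1' q2' e0' e1' f2' f3' g1' g2' r1' := by
      rw [sub_eq_iff_eq_add, add_comm]
      exact hC
    rwa [e] at h
  refine caseAll hρ (change3 hT' hB' hC' ?_ ?_)
  · have h := add_mem (key (B432 a0 a1 a2 c0 c1 b1 b2 b3 q1 q2 e0 e1 f2 f3 g1 g2 r1)
      (B432 a0' a1' a2' c0' c1' b1' b2' b3' q1' q2' e0' e1' f2' f3' g1' g2' r1') x1 x2 x3)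
      (m1 _ _ _)
    rw [← hB] at h
    exact h
  · have h := add_mem (key (B432 a0 a1 a2 c0 c1 b1 b2 b3 q1 q2 e0 e1 f2 f3 g1 g2 r1)
      (B432 a0' a1' a2' c0' c1' b1' b2' b3' q1' q2' e0' e1' f2' f3' g1' g2' r1') y1 y2 y3)
      (m2 _ _ _)
    rw [← hC] at h
    exact h

end Pool.Agent.Lib.D9
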