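import Pool.Agent.Lib.D9.T432CA

/-!
# MP_5dcbc3_ag: Jordan type `(4, 3, 2)`, case (alpha): the cyclic family with three axes
-/

namespace Pool.Agent.Lib.D9

open Matrix Polynomial Pool.Agent.Lib.Q5dc Pool.Agent.Lib.D7 Pool.Agent.Lib.D8

namespace T432C

/-! ### the generic point -/

section alg

variable {k R : Type*} [Field k] [CommRing R] [Algebra k R]

/-- linear forms -/
def Lr (a b c : R) (e1 r1 q1 g1 y : k) : R :=
  algebraMap k R e1 * c + algebraMap k R (y - r1) * b +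
    algebraMap k R ((y - q1) * (y - r1) - e1 * g1) * a

/-- coefficients of the products -/
def SE (e1 r1 F3 f3 b3 y y' : k) : k :=
  e1 ^ 2 * F3 + e1 * ((y - r1) + (y' - r1)) * f3 + (y - r1) * (y' - r1) * b3

/-- the relations -/
structure Rels (a b c : R) (r1 g1 q1 e1 G1 R1 b3 q2 f3 g2 F3 G2 : k) : Prop where
  bb : b * b = algebraMap k R (r1 * (r1 - q1) + e1 * (g1 - R1)) * a ^ 2 +
    algebraMap k R b3 * a ^ 3 + algebraMap k R q1 * (a * b) +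
      algebraMap k R q2 * (a ^ 2 * b) + algebraMap k R e1 * (a * c)
  bc : b * c = algebraMap k R (e1 * G1 - r1 * g1) * a ^ 2 +
    algebraMap k R f3 * a ^ 3 + algebraMap k R g1 * (a * b) +
      algebraMap k R g2 * (a ^ 2 * b) + algebraMap k R r1 * (a * c)
  cc : c * c = algebraMap k R (g1 ^ 2 + r1 * G1 - q1 * G1 - R1 * g1) * a ^ 2 +
    algebraMap k R F3 * a ^ 3 + algebraMap k R G1 * (a * b) +
      algebraMap k R G2 * (a ^ 2 * b) + algebraMap k R R1 * (a * c)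
  a4 : a ^ 4 = 0
  ab : a ^ 3 * b = 0
  ac : a ^ 2 * c = 0

variable {a b c : R} {r1 g1 q1 e1 G1 R1 b3 q2 f3 g2 F3 G2 : k}

theorem Rels.prod_ne (h : Rels a b c r1 g1 q1 e1 G1 R1 b3 q2 f3 g2 F3 G2) {y1 y2 y3 : k}
    (hq : q1 = y1 + y2 + y3 - r1) (hG : e1 ^ 2 * G1 = (y1 - r1) * (y2 - r1) * (y3 - r1))
    (hR : e1 * R1 = r1 ^ 2 - 2 * r1 * q1 + 2 * e1 * g1 + (y1 * y2 + y1 * y3 + y2 * y3)) :
    Lr a b c e1 r1 q1 g1 y1 * Lr a b c e1 r1 q1 g1 y2 =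
      algebraMap k R (SE e1 r1 F3 f3 b3 y1 y2) * a ^ 3 +
        algebraMap k R (SE e1 r1 G2 g2 q2 y1 y2) * (a ^ 2 * b) := by
  obtain ⟨hbb, hbc, hcc, -, -, -⟩ := h
  have hq' := congrArg (algebraMap k R) hq
  have hG' := congrArg (algebraMap k R) hG
  have hR' := congrArg (algebraMap k R) hR
  simp only [map_add, map_sub, map_mul, map_pow, map_ofNat] at hbb hbc hcc hq' hG' hR'
  have h1 := T432C.prod_ne hbb hbc hcc hq' hG' hR'
  unfold Lr SE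
  simp only [map_add, map_sub, map_mul, map_pow, map_ofNat]
  exact h1

theorem Rels.prod_eq (h : Rels a b c r1 g1 q1 e1 G1 R1 b3 q2 f3 g2 F3 G2) {y1 y2 y3 : k}
    (hq : q1 = y1 + y2 + y3 - r1) (hG : e1 ^ 2 * G1 = (y1 - r1) * (y2 - r1) * (y3 - r1))
    (hR : e1 * R1 = r1 ^ 2 - 2 * r1 * q1 + 2 * e1 * g1 + (y1 * y2 + y1 * y3 + y2 * y3)) :
    Lr a b c e1 r1 q1 g1 y1 * Lr a b c e1 r1 q1 g1 y1 =
      algebraMap k R (SE e1 r1 F3 f3 b3 y1 y1) * a ^ 3 +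
        algebraMap k R (SE e1 r1 G2 g2 q2 y1 y1) * (a ^ 2 * b) +
        algebraMap k R ((y1 - y2) * (y1 - y3)) * (a * Lr a b c e1 r1 q1 g1 y1) := by
  obtain ⟨hbb, hbc, hcc, -, -, -⟩ := h
  have hq' := congrArg (algebraMap k R) hq
  have hG' := congrArg (algebraMap k R) hG
  have hR' := congrArg (algebraMap k R) hR
  simp only [map_add, map_sub, map_mul, map_pow, map_ofNat] at hbb hbc hcc hq' hG' hR'
  have h1 := T432C.prod_eq hbb hbc hcc hq' hG' hR'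
  unfold Lr SE
  simp only [map_add, map_sub, map_mul, map_pow, map_ofNat]
  exact h1

theorem Rels.sq_mul (h : Rels a b c r1 g1 q1 e1 G1 R1 b3 q2 f3 g2 F3 G2) (y : k) :
    a ^ 2 * Lr a b c e1 r1 q1 g1 y = algebraMap k R ((y - q1) * (y - r1) - e1 * g1) * a ^ 3 +
      algebraMap k R (y - r1) * (a ^ 2 * b) := by
  unfold Lr
  linear_combination algebraMap k R e1 * h.ac

theorem Rels.mul_E (h : Rels a b c r1 g1 q1 e1 G1 R1 b3 q2 f3 g2 F3 G2) (y : k) :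
    Lr a b c e1 r1 q1 g1 y * a ^ 3 = 0 := by
  unfold Lr
  linear_combination algebraMap k R e1 * a * h.ac + algebraMap k R (y - r1) * h.ab +
    algebraMap k R ((y - q1) * (y - r1) - e1 * g1) * h.a4

theorem Rels.mul_H (h : Rels a b c r1 g1 q1 e1 G1 R1 b3 q2 f3 g2 F3 G2) (y : k) :
    Lr a b c e1 r1 q1 g1 y * (a ^ 2 * b) = 0 := by
  have h1 : a ^ 2 * (b * b) = 0 := by
    rw [h.bb]
    linear_combination algebraMap k R (r1 * (r1 - q1) + e1 * (g1 - R1)) * h.a4 +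
      algebraMap k R b3 * a * h.a4 + algebraMap k R q1 * h.ab + algebraMap k R q2 * a * h.ab +
      algebraMap k R e1 * a * h.ac
  unfold Lr
  linear_combination algebraMap k R e1 * b * h.ac + algebraMap k R (y - r1) * h1 +
    algebraMap k R ((y - q1) * (y - r1) - e1 * g1) * h.ab

theorem Rels.a_E (h : Rels a b c r1 g1 q1 e1 G1 R1 b3 q2 f3 g2 F3 G2) : a * a ^ 3 = 0 := by
  linear_combination h.a4

theorem Rels.a_H (h : Rels a b c r1 g1 q1 e1 G1 R1 b3 q2 f3 g2 F3 G2) : a * (a ^ 2 * b) = 0 := by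
  linear_combination h.ab

/-- three axes -/
theorem Rels.axes (h : Rels a b c r1 g1 q1 e1 G1 R1 b3 q2 f3 g2 F3 G2) {y1 y2 y3 : k}
    (hq : q1 = y1 + y2 + y3 - r1) (hG : e1 ^ 2 * G1 = (y1 - r1) * (y2 - r1) * (y3 - r1))
    (hR : e1 * R1 = r1 ^ 2 - 2 * r1 * q1 + 2 * e1 * g1 + (y1 * y2 + y1 * y3 + y2 * y3))
    (h12 : y1 - y2 ≠ 0) (h13 : y1 - y3 ≠ 0) (h23 : y2 - y3 ≠ 0)
    (z1 : (y2 - r1) * (y3 - r1) + e1 * g1 ≠ 0) (z2 : (y1 - r1) * (y3 - r1) + e1 * g1 ≠ 0)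
    (z3 : (y1 - r1) * (y2 - r1) + e1 * g1 ≠ 0) :
    ∃ k12 k13 k21 k23 k31 k32 A' B' : k, A' ≠ 0 ∧ B' ≠ 0 ∧
      (Lr a b c e1 r1 q1 g1 y1 + algebraMap k R k12 * (a * Lr a b c e1 r1 q1 g1 y2) +
        algebraMap k R k13 * (a * Lr a b c e1 r1 q1 g1 y3)) *
      (Lr a b c e1 r1 q1 g1 y2 + algebraMap k R k21 * (a * Lr a b c e1 r1 q1 g1 y1) +
        algebraMap k R k23 * (a * Lr a b c e1 r1 q1 g1 y3)) = 0 ∧
      (Lr a b c e1 r1 q1 g1 y1 + algebraMap k R k12 * (a * Lr a b c e1 r1 q1 g1 y2) +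
        algebraMap k R k13 * (a * Lr a b c e1 r1 q1 g1 y3)) *
      (Lr a b c e1 r1 q1 g1 y3 + algebraMap k R k31 * (a * Lr a b c e1 r1 q1 g1 y1) +
        algebraMap k R k32 * (a * Lr a b c e1 r1 q1 g1 y2)) = 0 ∧
      (Lr a b c e1 r1 q1 g1 y2 + algebraMap k R k21 * (a * Lr a b c e1 r1 q1 g1 y1) +
        algebraMap k R k23 * (a * Lr a b c e1 r1 q1 g1 y3)) *
      (Lr a b c e1 r1 q1 g1 y3 + algebraMap k R k31 * (a * Lr a b c e1 r1 q1 g1 y1) +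
        algebraMap k R k32 * (a * Lr a b c e1 r1 q1 g1 y2)) = 0 ∧
      (Lr a b c e1 r1 q1 g1 y1 + algebraMap k R k12 * (a * Lr a b c e1 r1 q1 g1 y2) +
        algebraMap k R k13 * (a * Lr a b c e1 r1 q1 g1 y3)) ^ 3 =
      algebraMap k R A' *
      (Lr a b c e1 r1 q1 g1 y2 + algebraMap k R k21 * (a * Lr a b c e1 r1 q1 g1 y1) +
        algebraMap k R k23 * (a * Lr a b c e1 r1 q1 g1 y3)) ^ 3 +
      algebraMap k R B' *
      (Lr a b c e1 r1 q1 g1 y3 + algebraMap k R k31 * (a * Lr a b c e1 r1 q1 g1 y1) +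
        algebraMap k R k32 * (a * Lr a b c e1 r1 q1 g1 y2)) ^ 3 := by
  have p12 := h.prod_ne hq hG hR
  have p13 := h.prod_ne (y1 := y1) (y2 := y3) (y3 := y2) (by linear_combination hq)
    (by linear_combination hG) (by linear_combination hR)
  have p23 := h.prod_ne (y1 := y2) (y2 := y3) (y3 := y1) (by linear_combination hq)
    (by linear_combination hG) (by linear_combination hR)
  have p11 := h.prod_eq hq hG hR
  have p22 := h.prod_eq (y1 := y2) (y2 := y1) (y3 := y3) (by linear_combination hq)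
    (by linear_combination hG) (by linear_combination hR)
  have p33 := h.prod_eq (y1 := y3) (y2 := y1) (y3 := y2) (by linear_combination hq)
    (by linear_combination hG) (by linear_combination hR)
  have p21 := p12
  rw [mul_comm] at p21
  have p31 := p13
  rw [mul_comm] at p31
  have p32 := p23
  rw [mul_comm] at p32
  have d1 : (y1 - y2) * (y1 - y3) ≠ 0 := mul_ne_zero h12 h13
  have d2 : (y2 - y1) * (y2 - y3) ≠ 0 :=
    mul_ne_zero (fun h0 => h12 (by linear_combination -h0)) h23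
  have d3 : (y3 - y1) * (y3 - y2) ≠ 0 :=
    mul_ne_zero (fun h0 => h13 (by linear_combination -h0)) (fun h0 => h23 (by linear_combination -h0))
  have w3 : ((y1 - q1) * (y1 - r1) - e1 * g1) * (y2 - r1) -
      ((y2 - q1) * (y2 - r1) - e1 * g1) * (y1 - r1) ≠ 0 := by
    have e : ((y1 - q1) * (y1 - r1) - e1 * g1) * (y2 - r1) -
      ((y2 - q1) * (y2 - r1) - e1 * g1) * (y1 - r1) =
      (y1 - y2) * ((y1 - r1) * (y2 - r1) + e1 * g1) := by ring
    rw [e]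
    exact mul_ne_zero h12 z3
  have w2 : ((y1 - q1) * (y1 - r1) - e1 * g1) * (y3 - r1) -
      ((y3 - q1) * (y3 - r1) - e1 * g1) * (y1 - r1) ≠ 0 := by
    have e : ((y1 - q1) * (y1 - r1) - e1 * g1) * (y3 - r1) -
      ((y3 - q1) * (y3 - r1) - e1 * g1) * (y1 - r1) =
      (y1 - y3) * ((y1 - r1) * (y3 - r1) + e1 * g1) := by ring
    rw [e]
    exact mul_ne_zero h13 z2
  have w1 : ((y2 - q1) * (y2 - r1) - e1 * g1) * (y3 - r1) -
      ((y3 - q1) * (y3 - r1) - e1 * g1) * (y2 - r1) ≠ 0 := by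
    have e : ((y2 - q1) * (y2 - r1) - e1 * g1) * (y3 - r1) -
      ((y3 - q1) * (y3 - r1) - e1 * g1) * (y2 - r1) =
      (y2 - y3) * ((y2 - r1) * (y3 - r1) + e1 * g1) := by ring
    rw [e]
    exact mul_ne_zero h23 z1
  obtain ⟨m21, m12, a12, b12⟩ := solve2 w3 (SE e1 r1 F3 f3 b3 y1 y2) (SE e1 r1 G2 g2 q2 y1 y2)
  obtain ⟨m31, m13, a13, b13⟩ := solve2 w2 (SE e1 r1 F3 f3 b3 y1 y3) (SE e1 r1 G2 g2 q2 y1 y3)
  obtain ⟨m32, m23, a23, b23⟩ := solve2 w1 (SE e1 r1 F3 f3 b3 y2 y3) (SE e1 r1 G2 g2 q2 y2 y3)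
  obtain ⟨k21, rfl⟩ : ∃ x, m21 = x * ((y1 - y2) * (y1 - y3)) := ⟨_, (div_mul_cancel₀ _ d1).symm⟩
  obtain ⟨k12, rfl⟩ : ∃ x, m12 = x * ((y2 - y1) * (y2 - y3)) := ⟨_, (div_mul_cancel₀ _ d2).symm⟩
  obtain ⟨k31, rfl⟩ : ∃ x, m31 = x * ((y1 - y2) * (y1 - y3)) := ⟨_, (div_mul_cancel₀ _ d1).symm⟩
  obtain ⟨k13, rfl⟩ : ∃ x, m13 = x * ((y3 - y1) * (y3 - y2)) := ⟨_, (div_mul_cancel₀ _ d3).symm⟩
  obtain ⟨k32, rfl⟩ : ∃ x, m32 = x * ((y2 - y1) * (y2 - y3)) := ⟨_, (div_mul_cancel₀ _ d2).symm⟩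
  obtain ⟨k23, rfl⟩ : ∃ x, m23 = x * ((y3 - y1) * (y3 - y2)) := ⟨_, (div_mul_cancel₀ _ d3).symm⟩
  have s1 := h.sq_mul y1
  have s2 := h.sq_mul y2
  have s3 := h.sq_mul y3
  have al : ∀ {x y z w u v t : k}, x * y * z + w * u * v = -t →
      algebraMap k R x * algebraMap k R y * algebraMap k R z +
        algebraMap k R w * algebraMap k R u * algebraMap k R v = -algebraMap k R t := by
    intro x y z w u v t h0
    rw [← map_mul, ← map_mul, ← map_mul, ← map_mul, ← map_add, h0, map_neg]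
  have X12 := mul_axes (k13 := algebraMap k R k13) (k23 := algebraMap k R k23) s1 s2 s3 p11 p22 p33
    p12 p13 p23 h.a_E h.a_H (al a12) (al b12)
  have X13 := mul_axes (k13 := algebraMap k R k12) (k23 := algebraMap k R k32) s1 s3 s2 p11 p33 p22
    p13 p12 p32 h.a_E h.a_H (al a13) (al b13)
  have X23 := mul_axes (k13 := algebraMap k R k21) (k23 := algebraMap k R k31) s2 s3 s1 p22 p33 p11
    p23 p21 p31 h.a_E h.a_H (al a23) (al b23)
  have C1 := cube_axes (k12 := algebraMap k R k12) (k13 := algebraMap k R k13) s1 s2 s3 p11 p22 p33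
    p12 p13 p23 h.a_E h.a_H (h.mul_E y1) (h.mul_H y1)
  have C2 := cube_axes (k12 := algebraMap k R k21) (k13 := algebraMap k R k23) s2 s1 s3 p22 p11 p33
    p21 p23 p13 h.a_E h.a_H (h.mul_E y2) (h.mul_H y2)
  have C3 := cube_axes (k12 := algebraMap k R k31) (k13 := algebraMap k R k32) s3 s1 s2 p33 p11 p22
    p31 p32 p12 h.a_E h.a_H (h.mul_E y3) (h.mul_H y3)
  obtain ⟨A', hA'⟩ : ∃ x, x * (((y2 - y1) * (y2 - y3)) ^ 2 *
      (((y2 - q1) * (y2 - r1) - e1 * g1) * (y3 - r1) -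
      ((y3 - q1) * (y3 - r1) - e1 * g1) * (y2 - r1))) =
      (((y1 - q1) * (y1 - r1) - e1 * g1) * (y3 - r1) -
      ((y3 - q1) * (y3 - r1) - e1 * g1) * (y1 - r1)) * ((y1 - y2) * (y1 - y3)) ^ 2 :=
    ⟨_, div_mul_cancel₀ _ (mul_ne_zero (pow_ne_zero 2 d2) w1)⟩
  obtain ⟨B', hB'⟩ : ∃ x, x * (((y3 - y1) * (y3 - y2)) ^ 2 *
      (((y2 - q1) * (y2 - r1) - e1 * g1) * (y3 - r1) -
      ((y3 - q1) * (y3 - r1) - e1 * g1) * (y2 - r1))) =
      -(((y1 - q1) * (y1 - r1) - e1 * g1) * (y2 - r1) -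
      ((y2 - q1) * (y2 - r1) - e1 * g1) * (y1 - r1)) * ((y1 - y2) * (y1 - y3)) ^ 2 :=
    ⟨_, div_mul_cancel₀ _ (mul_ne_zero (pow_ne_zero 2 d3) w1)⟩
  have hAne : A' ≠ 0 := by
    rintro rfl
    rw [zero_mul] at hA'
    exact mul_ne_zero w2 (pow_ne_zero 2 d1) hA'.symm
  have hBne : B' ≠ 0 := by
    rintro rfl
    rw [zero_mul] at hB'
    exact mul_ne_zero (neg_ne_zero.2 w3) (pow_ne_zero 2 d1) hB'.symm
  have eE : ((y1 - y2) * (y1 - y3)) ^ 2 * ((y1 - q1) * (y1 - r1) - e1 * g1) =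
      A' * (((y2 - y1) * (y2 - y3)) ^ 2 * ((y2 - q1) * (y2 - r1) - e1 * g1)) +
      B' * (((y3 - y1) * (y3 - y2)) ^ 2 * ((y3 - q1) * (y3 - r1) - e1 * g1)) := by
    refine mul_right_cancel₀ w1 ?_
    linear_combination -((y2 - q1) * (y2 - r1) - e1 * g1) * hA' -
      ((y3 - q1) * (y3 - r1) - e1 * g1) * hB'
  have eH : ((y1 - y2) * (y1 - y3)) ^ 2 * (y1 - r1) =
      A' * (((y2 - y1) * (y2 - y3)) ^ 2 * (y2 - r1)) +
      B' * (((y3 - y1) * (y3 - y2)) ^ 2 * (y3 - r1)) := by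
    refine mul_right_cancel₀ w1 ?_
    linear_combination -(y2 - r1) * hA' - (y3 - r1) * hB'
  refine ⟨k12, k13, k21, k23, k31, k32, A', B', hAne, hBne, X12, ?_, ?_, ?_⟩
  · linear_combination X13
  · linear_combination X23
  · have e3 : (Lr a b c e1 r1 q1 g1 y3 + algebraMap k R k31 * (a * Lr a b c e1 r1 q1 g1 y1) +
        algebraMap k R k32 * (a * Lr a b c e1 r1 q1 g1 y2)) ^ 3 =
        algebraMap k R ((y3 - y1) * (y3 - y2)) ^ 2 *
        (algebraMap k R ((y3 - q1) * (y3 - r1) - e1 * g1) * a ^ 3 +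
          algebraMap k R (y3 - r1) * (a ^ 2 * b)) := C3
    rw [C1, C2, e3]
    have eE' := congrArg (algebraMap k R) eE
    have eH' := congrArg (algebraMap k R) eH
    rw [map_add, map_mul, map_mul, map_mul, map_mul, map_mul, map_pow, map_pow, map_pow]
      at eE' eH'
    linear_combination a ^ 3 * eE' + a ^ 2 * b * eH'

end alg

theorem solve3 {k : Type*} [Field k] {x1 x2 x3 y1 y2 y3 z1 z2 z3 : k}
    (h : x1 * (y2 * z3 - y3 * z2) - x2 * (y1 * z3 - y3 * z1) + x3 * (y1 * z2 - y2 * z1) ≠ 0)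
    (u v w : k) : ∃ m1 m2 m3 : k, m1 * x1 + m2 * x2 + m3 * x3 = u ∧
      m1 * y1 + m2 * y2 + m3 * y3 = v ∧ m1 * z1 + m2 * z2 + m3 * z3 = w := by
  have hdet : (!![x1, x2, x3; y1, y2, y3; z1, z2, z3] : Matrix (Fin 3) (Fin 3) k).det ≠ 0 := by
    rw [Matrix.det_fin_three]
    simp
    intro h0
    apply h
    linear_combination h0
  have h1 := Matrix.mul_nonsing_inv _ (isUnit_iff_ne_zero.2 hdet)
  obtain ⟨m, hm⟩ : ∃ m : Fin 3 → k, !![x1, x2, x3; y1, y2, y3; z1, z2, z3] *ᵥ m = ![u, v, w] :=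
    ⟨(!![x1, x2, x3; y1, y2, y3; z1, z2, z3] : Matrix (Fin 3) (Fin 3) k)⁻¹ *ᵥ ![u, v, w], by
      rw [Matrix.mulVec_mulVec, h1, Matrix.one_mulVec]⟩
  have e0 := congrFun hm 0
  have e1 := congrFun hm 1
  have e2 := congrFun hm 2
  simp [Matrix.mulVec, dotProduct, Fin.sum_univ_three] at e0 e1 e2
  exact ⟨m 0, m 1, m 2, by linear_combination e0, by linear_combination e1,
    by linear_combination e2⟩

theorem gen {k : Type*} [Field k] [IsAlgClosed k] (b3 q2 f3 g2 F3 G2 : k)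
    {r1 g1 q1 e1 G1 R1 y1 y2 y3 : k} (he : e1 ≠ 0)
    (hq : q1 = y1 + y2 + y3 - r1) (hG : e1 ^ 2 * G1 = (y1 - r1) * (y2 - r1) * (y3 - r1))
    (hR : e1 * R1 = r1 ^ 2 - 2 * r1 * q1 + 2 * e1 * g1 + (y1 * y2 + y1 * y3 + y2 * y3))
    (h12 : y1 - y2 ≠ 0) (h13 : y1 - y3 ≠ 0) (h23 : y2 - y3 ≠ 0)
    (z1 : (y2 - r1) * (y3 - r1) + e1 * g1 ≠ 0) (z2 : (y1 - r1) * (y3 - r1) + e1 * g1 ≠ 0)
    (z3 : (y1 - r1) * (y2 - r1) + e1 * g1 ≠ 0) :
    Cl ![J432 k, Bm r1 g1 q1 e1 G1 R1 b3 q2 f3 g2, Cm r1 g1 q1 e1 G1 R1 f3 g2 F3 G2] := by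
  obtain ⟨A, hA⟩ : ∃ A, A = J432 k := ⟨_, rfl⟩
  obtain ⟨B, hB⟩ : ∃ B, B = Bm r1 g1 q1 e1 G1 R1 b3 q2 f3 g2 := ⟨_, rfl⟩
  obtain ⟨C, hC⟩ : ∃ C, C = Cm r1 g1 q1 e1 G1 R1 f3 g2 F3 G2 := ⟨_, rfl⟩
  have hT := cn r1 g1 q1 e1 G1 R1 b3 q2 f3 g2 F3 G2
  have rBB := relBB r1 g1 q1 e1 G1 R1 b3 q2 f3 g2 F3 G2
  have rBC := relBC r1 g1 q1 e1 G1 R1 b3 q2 f3 g2 F3 G2
  have rCC := relCC r1 g1 q1 e1 G1 R1 b3 q2 f3 g2 F3 G2
  have rJ := relJ r1 g1 q1 e1 G1 R1 b3 q2 f3 g2 F3 G2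
  have rv := cyc r1 g1 q1 e1 G1 R1 b3 q2 f3 g2 F3 G2
  have r4 : J432 k ^ 4 = 0 := T432.J4
  rw [← hA, ← hB, ← hC] at hT rv ⊢
  rw [← hA, ← hB, ← hC] at rBB rBC rCC rJ
  rw [← hA] at r4
  clear hA hB hC
  obtain ⟨R, _, _, ρ, a, b, c, hinj, ha, hb, hc⟩ := exists_ring hT
  have hρ : ∀ (s : k) (y : R), ρ (algebraMap k R s * y) = s • ρ y := by
    intro s y
    rw [← Algebra.smul_def, map_smul]
  have h : Rels a b c r1 g1 q1 e1 G1 R1 b3 q2 f3 g2 F3 G2 := by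
    refine ⟨?_, ?_, ?_, ?_, ?_, ?_⟩ <;> apply hinj
    · simp only [map_add ρ, map_mul ρ b, hρ, map_mul ρ (a ^ 2), map_mul ρ a, map_pow, ha, hb, hc]
      exact rBB
    · simp only [map_add ρ, map_mul ρ b, hρ, map_mul ρ (a ^ 2), map_mul ρ a, map_pow, ha, hb, hc]
      exact rBC
    · simp only [map_add ρ, map_mul ρ c, hρ, map_mul ρ (a ^ 2), map_mul ρ a, map_pow, ha, hb, hc]
      exact rCC
    · rw [map_pow, ha, r4, map_zero]
    · rw [map_mul, map_pow, ha, hb, rJ.1, map_zero]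
    · rw [map_mul, map_pow, ha, hc, rJ.2, map_zero]
  obtain ⟨k12, k13, k21, k23, k31, k32, A', B', hA', hB', X12, X13, X23, hcube⟩ :=
    h.axes hq hG hR h12 h13 h23 z1 z2 z3
  obtain ⟨L, hL⟩ : ∃ L : k → R, L = fun y => Lr a b c e1 r1 q1 g1 y := ⟨_, rfl⟩
  have hLe : ∀ y, Lr a b c e1 r1 q1 g1 y = L y := fun y => by rw [hL]
  simp only [hLe] at X12 X13 X23 hcube
  have mA : A ∈ adj ![A, B, C] := mem_adj ![A, B, C] 0
  have mB : B ∈ adj ![A, B, C] := mem_adj ![A, B, C] 1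
  have mC : C ∈ adj ![A, B, C] := mem_adj ![A, B, C] 2
  have rL : ∀ y, ρ (L y) = e1 • C + (y - r1) • B + ((y - q1) * (y - r1) - e1 * g1) • A := by
    intro y
    rw [hL]
    simp only [Lr, map_add ρ, hρ, ha, hb, hc]
  have mL : ∀ y, ρ (L y) ∈ adj ![A, B, C] := by
    intro y
    rw [rL]
    exact add_mem (add_mem (SMulMemClass.smul_mem _ mC) (SMulMemClass.smul_mem _ mB))
      (SMulMemClass.smul_mem _ mA)
  have rX : ∀ (s t x y z : k), ρ (L x + algebraMap k R s * (a * L y) + algebraMap k R t * (a * L z)) =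
      ρ (L x) + s • (A * ρ (L y)) + t • (A * ρ (L z)) := by
    intro s t x y z
    simp only [map_add ρ, hρ, map_mul ρ a, ha]
  have mX : ∀ (s t x y z : k), ρ (L x + algebraMap k R s * (a * L y) +
      algebraMap k R t * (a * L z)) ∈ adj ![A, B, C] := by
    intro s t x y z
    rw [rX]
    exact add_mem (add_mem (mL x) (SMulMemClass.smul_mem _ (mul_mem mA (mL y))))
      (SMulMemClass.smul_mem _ (mul_mem mA (mL z)))
  refine cl_axes3_cyc (p := 3) (q := 3) (r := 3) (by norm_num) (by norm_num) (by norm_num)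
    (by simp) hT (mX k12 k13 y1 y2 y3) (mX k21 k23 y2 y1 y3) (mX k31 k32 y3 y1 y2) ?_ ?_ ?_
    (v := v0 k) hA' hB' ?_ ?_ rv
  · rw [← map_mul, X12, map_zero]
  · rw [← map_mul, X13, map_zero]
  · rw [← map_mul, X23, map_zero]
  · rw [← map_pow, hcube, map_add, hρ, hρ, Matrix.add_mulVec, Matrix.smul_mulVec,
      Matrix.smul_mulVec, map_pow, map_pow]
  · have hdet : e1 * ((y2 - r1) * ((y3 - q1) * (y3 - r1) - e1 * g1) -
        (y3 - r1) * ((y2 - q1) * (y2 - r1) - e1 * g1)) -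
        e1 * ((y1 - r1) * ((y3 - q1) * (y3 - r1) - e1 * g1) -
        (y3 - r1) * ((y1 - q1) * (y1 - r1) - e1 * g1)) +
        e1 * ((y1 - r1) * ((y2 - q1) * (y2 - r1) - e1 * g1) -
        (y2 - r1) * ((y1 - q1) * (y1 - r1) - e1 * g1)) ≠ 0 := by
      have e : e1 * ((y2 - r1) * ((y3 - q1) * (y3 - r1) - e1 * g1) -
        (y3 - r1) * ((y2 - q1) * (y2 - r1) - e1 * g1)) -
        e1 * ((y1 - r1) * ((y3 - q1) * (y3 - r1) - e1 * g1) -
        (y3 - r1) * ((y1 - q1) * (y1 - r1) - e1 * g1)) +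
        e1 * ((y1 - r1) * ((y2 - q1) * (y2 - r1) - e1 * g1) -
        (y2 - r1) * ((y1 - q1) * (y1 - r1) - e1 * g1)) =
        -(e1 * ((y1 - y2) * ((y1 - y3) * (y2 - y3)))) := by ring
      rw [e]
      exact neg_ne_zero.2 (mul_ne_zero he (mul_ne_zero h12 (mul_ne_zero h13 h23)))
    have key : ∀ u v w : k, ∃ N ∈ adj ![ρ (L y1 + algebraMap k R k12 * (a * L y2) +
        algebraMap k R k13 * (a * L y3)), ρ (L y2 + algebraMap k R k21 * (a * L y1) +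
        algebraMap k R k23 * (a * L y3)), ρ (L y3 + algebraMap k R k31 * (a * L y1) +
        algebraMap k R k32 * (a * L y2))], (u • C + v • B + w • A) - N ∈
        Submodule.span k {M : Matrix (Fin 9) (Fin 9) k | ∃ P ∈ adj ![A, B, C],
          ∃ Q ∈ adj ![A, B, C], M = P * Q} := by
      intro u v w
      obtain ⟨m1, m2, m3, e1', e2', e3'⟩ := solve3 hdet u v w
      refine ⟨_, add_mem (add_mem (SMulMemClass.smul_mem m1 (mem_adj _ 0))
        (SMulMemClass.smul_mem m2 (mem_adj _ 1))) (SMulMemClass.smul_mem m3 (mem_adj _ 2)), ?_⟩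
      have hsum : u • C + v • B + w • A = m1 • ρ (L y1) + m2 • ρ (L y2) + m3 • ρ (L y3) := by
        rw [rL, rL, rL, ← e1', ← e2', ← e3']
        module
      have hP : ∀ (s y : k), s • (A * ρ (L y)) ∈
          Submodule.span k {M : Matrix (Fin 9) (Fin 9) k | ∃ P ∈ adj ![A, B, C],
          ∃ Q ∈ adj ![A, B, C], M = P * Q} := by
        intro s y
        exact Submodule.smul_mem _ _ (Submodule.subset_span ⟨A, mA, _, mL y, rfl⟩)
      have hfin : u • C + v • B + w • A - (m1 • ρ (L y1 + algebraMap k R k12 * (a * L y2) +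
        algebraMap k R k13 * (a * L y3)) + m2 • ρ (L y2 + algebraMap k R k21 * (a * L y1) +
        algebraMap k R k23 * (a * L y3)) + m3 • ρ (L y3 + algebraMap k R k31 * (a * L y1) +
        algebraMap k R k32 * (a * L y2))) = -(((m1 * k12) • (A * ρ (L y2)) +
          (m1 * k13) • (A * ρ (L y3))) + ((m2 * k21) • (A * ρ (L y1)) +
          (m2 * k23) • (A * ρ (L y3))) + ((m3 * k31) • (A * ρ (L y1)) +
          (m3 * k32) • (A * ρ (L y2)))) := by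
        rw [rX, rX, rX, hsum]
        module
      have hgoal := Submodule.neg_mem _ (add_mem (add_mem (add_mem (hP (m1 * k12) y2)
        (hP (m1 * k13) y3)) (add_mem (hP (m2 * k21) y1) (hP (m2 * k23) y3)))
        (add_mem (hP (m3 * k31) y1) (hP (m3 * k32) y2)))
      rw [← hfin] at hgoal
      exact hgoal
    intro i
    fin_cases i
    · obtain ⟨N, hN, hN'⟩ := key 0 0 1
      refine ⟨N, hN, ?_⟩
      rw [zero_smul, zero_smul, zero_add, zero_add, one_smul] at hN'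
      exact hN'
    · obtain ⟨N, hN, hN'⟩ := key 0 1 0
      refine ⟨N, hN, ?_⟩
      rw [zero_smul, zero_smul, zero_add, add_zero, one_smul] at hN'
      exact hN'
    · obtain ⟨N, hN, hN'⟩ := key 1 0 0
      refine ⟨N, hN, ?_⟩
      rw [zero_smul, zero_smul, add_zero, add_zero, one_smul] at hN'
      exact hN'

/-! ### limits -/

theorem cl_family {k n : Type*} [Field k] [Infinite k] [Fintype n] [DecidableEq n]
    (c : k → Fin 3 → Matrix n n k) (hc : PolyFam c) {E : Set k} (hE : E.Finite)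
    (h : ∀ s ∉ E, Cl (c s)) : Cl (c 0) := by
  by_contra h0
  obtain ⟨s, hs⟩ := ((finite_cl c hc h0).union hE).exists_notMem
  simp only [Set.mem_union, not_or] at hs
  exact hs.1 (h s hs.2)

theorem poly_B432 {k : Type*} [Field k] {a0 a1 a2 c0 c1 b1 b2 b3 q1 q2 e0 e1 f2 f3 g1 g2 r1 : k → k}
    (ha0 : D7.IsPoly a0) (ha1 : D7.IsPoly a1) (ha2 : D7.IsPoly a2) (hc0 : D7.IsPoly c0)
    (hc1 : D7.IsPoly c1) (hb1 : D7.IsPoly b1) (hb2 : D7.IsPoly b2) (hb3 : D7.IsPoly b3)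
    (hq1 : D7.IsPoly q1) (hq2 : D7.IsPoly q2) (he0 : D7.IsPoly e0) (he1 : D7.IsPoly e1)
    (hf2 : D7.IsPoly f2) (hf3 : D7.IsPoly f3) (hg1 : D7.IsPoly g1) (hg2 : D7.IsPoly g2)
    (hr1 : D7.IsPoly r1) (i j : Fin 9) :
    D7.IsPoly fun t => B432 (a0 t) (a1 t) (a2 t) (c0 t) (c1 t) (b1 t) (b2 t) (b3 t) (q1 t) (q2 t)
      (e0 t) (e1 t) (f2 t) (f3 t) (g1 t) (g2 t) (r1 t) i j := by
  have h0 : D7.IsPoly fun _ : k => (0 : k) := D7.IsPoly.const 0
  fin_cases i <;> fin_cases j <;> simp [B432] <;> assumption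

theorem poly_fam {k : Type*} [Field k] {r1 g1 q1 e1 G1 R1 : k → k} (hr1 : D7.IsPoly r1)
    (hg1 : D7.IsPoly g1) (hq1 : D7.IsPoly q1) (he1 : D7.IsPoly e1) (hG1 : D7.IsPoly G1)
    (hR1 : D7.IsPoly R1) (b3 q2 f3 g2 F3 G2 : k) :
    PolyFam fun s => ![J432 k, Bm (r1 s) (g1 s) (q1 s) (e1 s) (G1 s) (R1 s) b3 q2 f3 g2,
      Cm (r1 s) (g1 s) (q1 s) (e1 s) (G1 s) (R1 s) f3 g2 F3 G2] := by
  have h : ∀ x : k, D7.IsPoly fun _ : k => x := fun x => D7.IsPoly.const x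
  intro l i j
  fin_cases l
  · exact D7.IsPoly.const _
  · exact poly_B432 (h _) (h _) (h _) (h _) (h _) (h _)
      ((hr1.mul (hr1.sub hq1)).add (he1.mul (hg1.sub hR1))) (h _) hq1 (h _) (h _) he1
      ((he1.mul hG1).sub (hr1.mul hg1)) (h _) hg1 (h _) hr1 i j
  · exact poly_B432 (h _) (h _) (h _) (h _) (h _) (h _)
      ((he1.mul hG1).sub (hr1.mul hg1)) (h _) hg1 (h _) (h _) hr1
      ((((hg1.pow 2).add (hr1.mul hG1)).sub (hq1.mul hG1)).sub (hR1.mul hg1)) (h _) hG1 (h _) hR1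
      i j

theorem cl_ne {k : Type*} [Field k] [IsAlgClosed k] [CharZero k]
    (r1 g1 q1 G1 R1 b3 q2 f3 g2 F3 G2 : k) {e1 : k} (he : e1 ≠ 0) :
    Cl ![J432 k, Bm r1 g1 q1 e1 G1 R1 b3 q2 f3 g2, Cm r1 g1 q1 e1 G1 R1 f3 g2 F3 G2] := by
  have hinf : Infinite k := IsAlgClosed.instInfinite
  obtain ⟨y1, y2, y3, h1, h2, h3⟩ := exists_roots3 (q1 + r1)
    (e1 * R1 - r1 ^ 2 + 2 * r1 * q1 - 2 * e1 * g1)
    (e1 ^ 2 * G1 + (e1 * R1 - r1 ^ 2 + 2 * r1 * q1 - 2 * e1 * g1) * r1 - r1 ^ 2 * q1)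
  have hh : ∀ x : k, D7.IsPoly fun _ : k => x := fun x => D7.IsPoly.const x
  have hid : D7.IsPoly fun s : k => s := D7.IsPoly.id
  have hy1 : D7.IsPoly fun s : k => y1 + s := (hh y1).add hid
  have hy2 : D7.IsPoly fun s : k => y2 + s * 2 := (hh y2).add (hid.mul (hh 2))
  have hy3 : D7.IsPoly fun s : k => y3 + s * 3 := (hh y3).add (hid.mul (hh 3))
  have hg : D7.IsPoly fun s : k => g1 + s := (hh g1).add hid
  have hq : D7.IsPoly fun s : k => (y1 + s) + (y2 + s * 2) + (y3 + s * 3) - r1 :=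
    ((hy1.add hy2).add hy3).sub (hh r1)
  have hG : D7.IsPoly fun s : k => (((y1 + s) - r1) * ((y2 + s * 2) - r1) * ((y3 + s * 3) - r1)) *
      (e1 ^ 2)⁻¹ :=
    (((hy1.sub (hh r1)).mul (hy2.sub (hh r1))).mul (hy3.sub (hh r1))).mul (hh _)
  have hR : D7.IsPoly fun s : k => (r1 ^ 2 - 2 * r1 * ((y1 + s) + (y2 + s * 2) + (y3 + s * 3) - r1) +
      2 * e1 * (g1 + s) + ((y1 + s) * (y2 + s * 2) + (y1 + s) * (y3 + s * 3) +
        (y2 + s * 2) * (y3 + s * 3))) * e1⁻¹ :=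
    ((((hh (r1 ^ 2)).sub ((hh (2 * r1)).mul hq)).add ((hh (2 * e1)).mul hg)).add
      (((hy1.mul hy2).add (hy1.mul hy3)).add (hy2.mul hy3))).mul (hh _)
  have hE := ((((((lin_finite (y1 - y2) (y := (-1 : k)) (by norm_num)).union
    (lin_finite (y1 - y3) (y := (-2 : k)) (by norm_num))).union
    (lin_finite (y2 - y3) (y := (-1 : k)) (by norm_num))).union
    (quad_finite ((y2 - r1) * (y3 - r1) + e1 * g1) (3 * (y2 - r1) + 2 * (y3 - r1) + e1)
      (z := (6 : k)) (by norm_num))).union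
    (quad_finite ((y1 - r1) * (y3 - r1) + e1 * g1) (3 * (y1 - r1) + (y3 - r1) + e1)
      (z := (3 : k)) (by norm_num))).union
    (quad_finite ((y1 - r1) * (y2 - r1) + e1 * g1) (2 * (y1 - r1) + (y2 - r1) + e1)
      (z := (2 : k)) (by norm_num)))
  have hcl := cl_family _ (poly_fam (hh r1) hg hq (hh e1) hG hR b3 q2 f3 g2 F3 G2) hE (by
    intro s hs
    simp only [Set.mem_union, Set.mem_ofPred_eq, not_or] at hs
    obtain ⟨⟨⟨⟨⟨n12, n13⟩, n23⟩, n1⟩, n2⟩, n3⟩ := hs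
    refine gen (y1 := y1 + s) (y2 := y2 + s * 2) (y3 := y3 + s * 3) b3 q2 f3 g2 F3 G2 he rfl ?_ ?_
      ?_ ?_ ?_ ?_ ?_ ?_
    · field_simp
    · field_simp
    · intro h0; exact n12 (by linear_combination h0)
    · intro h0; exact n13 (by linear_combination h0)
    · intro h0; exact n23 (by linear_combination h0)
    · intro h0; exact n1 (by linear_combination h0)
    · intro h0; exact n2 (by linear_combination h0)
    · intro h0; exact n3 (by linear_combination h0))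
  simp only [zero_mul, add_zero] at hcl
  have eq1 : y1 + y2 + y3 - r1 = q1 := by linear_combination h1
  have eG1 : (y1 - r1) * (y2 - r1) * (y3 - r1) * (e1 ^ 2)⁻¹ = G1 := by
    field_simp
    linear_combination h3 - r1 * h2 + r1 ^ 2 * h1
  have eR1 : (r1 ^ 2 - 2 * r1 * (y1 + y2 + y3 - r1) + 2 * e1 * g1 +
      (y1 * y2 + y1 * y3 + y2 * y3)) * e1⁻¹ = R1 := by
    field_simp
    linear_combination h2 - 2 * r1 * h1
  rw [eG1, eR1, eq1] at hcl
  exact hcl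

end T432C

open T432C in
/-- case (alpha) of `(4, 3, 2)` -/
theorem cl_432a {k : Type*} [Field k] [IsAlgClosed k] [CharZero k]
    (b3 q1 q2 e1 f3 g1 g2 r1 F3 G1 G2 R1 : k) :
    Cl ![J432 k,
      B432 1 0 0 0 0 0 (r1 * (r1 - q1) + e1 * (g1 - R1)) b3 q1 q2 0 e1 (e1 * G1 - r1 * g1) f3 g1 g2
        r1,
      B432 0 0 0 1 0 0 (e1 * G1 - r1 * g1) f3 g1 g2 0 r1 (g1 ^ 2 + r1 * G1 - q1 * G1 - R1 * g1)
        F3 G1 G2 R1] := by
  have hinf : Infinite k := IsAlgClosed.instInfinite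
  have hh : ∀ x : k, D7.IsPoly fun _ : k => x := fun x => D7.IsPoly.const x
  have hid : D7.IsPoly fun s : k => s := D7.IsPoly.id
  have h := cl_family _ (poly_fam (hh r1) (hh g1) (hh q1) ((hh e1).add hid) (hh G1) (hh R1) b3 q2 f3
    g2 F3 G2) (Set.finite_singleton (-e1)) (fun s hs => cl_ne r1 g1 q1 G1 R1 b3 q2 f3 g2 F3 G2 (by
      intro h0
      exact hs (by rw [Set.mem_singleton_iff]; linear_combination h0)))
  simp only [add_zero] at h
  exact h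

end Pool.Agent.Lib.D9
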