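import Pool.Agent.Lib.D9.T432B0
import Pool.Agent.Lib.D9.T432C

/-!
# MP_5dcbc3_ag: type `(4, 3, 2)`: the triples with `a0 ≠ 0`
-/

namespace Pool.Agent.Lib.D9

open Matrix Pool.Agent.Lib.Q5dc Pool.Agent.Lib.D7

variable {k : Type*} [Field k] [CharZero k] {ρ : ℕ → ℕ}

namespace T432

/-! ### `e0 ≠ 0` -/

theorem N1_eq (a1 a2 c0 c1 b2 b3 q1 q2 e0 e1 f2 f3 g2 r1 : k) :
    B432 1 a1 a2 c0 c1 0 b2 b3 q1 q2 e0 e1 f2 f3 0 g2 r1 *
      B432 1 a1 a2 c0 c1 0 b2 b3 q1 q2 e0 e1 f2 f3 0 g2 r1 -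
      (b2 + f2 * c0) • (J432 k * J432 k) -
      (b3 + b2 * a1 + f3 * c0 + f2 * c1) • (J432 k * J432 k * J432 k) =
    B432 0 q1 (q2 + q1 * a1 + g2 * c0) e0 (e1 + e0 * a1 + r1 * c0) 0 (f2 * e0)
      (b2 * q1 + f3 * e0 + f2 * e1) 0 (q1 * q1 + g2 * e0 - f2 * c0) 0 (e0 * q1 + r1 * e0) 0
      (f2 * r1) 0 f2 0 := by
  rw [mulB, J3, J2]
  ext i j
  fin_cases i <;> fin_cases j <;> simp [B432] <;> ring

theorem A1_eq {a1 a2 c0 c1 b2 b3 q1 q2 e0 e1 f2 f3 g2 r1 x y z t b2' b3' q2' e1' f3' g2' : k}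
    (he : e0 ≠ 0) (h1 : b2' = z * f2) (h2 : e1' = x * e0 + z * r1) (h3 : e0 * f3' = e1' * f2 - q1 * b2')
    (h4 : e0 * g2' = b2') (h5 : q2' = x * q1 - c0 * g2' + z * g2)
    (h6 : b3' = -(a1 * b2') + x * b2 - c0 * f3' + z * f3 + t * f2) {α β γ : k}
    (hα : α = x - z / e0 * q1)
    (hβ : β = (t - α * c0 - z / e0 * (e1 + e0 * a1 + r1 * c0)) / e0)
    (hγ : γ = y - z / e0 * (q2 + q1 * a1 + g2 * c0) - α * a1 - β * q1) :
    B432 0 x y z t 0 b2' b3' 0 q2' 0 e1' 0 f3' 0 g2' 0 =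
    (z / e0) • B432 0 q1 (q2 + q1 * a1 + g2 * c0) e0 (e1 + e0 * a1 + r1 * c0) 0 (f2 * e0)
      (b2 * q1 + f3 * e0 + f2 * e1) 0 (q1 * q1 + g2 * e0 - f2 * c0) 0 (e0 * q1 + r1 * e0) 0
      (f2 * r1) 0 f2 0 + α • B432 0 1 a1 0 c0 0 0 b2 0 q1 0 e0 0 f2 0 0 0 +
    β • B432 0 0 q1 0 e0 0 0 (f2 * e0) 0 0 0 0 0 0 0 0 0 +
    γ • B432 0 0 1 0 0 0 0 0 0 0 0 0 0 0 0 0 0 := by
  have h7 : g2' = z * f2 / e0 := by rw [← h1, ← h4]; field_simp
  have h8 : f3' = (e1' * f2 - q1 * b2') / e0 := by rw [← h3]; field_simp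
  subst h5 h6 h7 h8 h1 h2 hγ
  subst hβ
  subst hα
  rw [smulB, smulB, smulB, smulB, addB, addB, addB]
  congr 1 <;> (field_simp; try ring)

theorem caseA1 {a1 a2 c0 c1 b2 b3 q1 q2 e0 e1 f2 f3 g2 r1 x y z t b2' b3' q1' q2' e1' f2' f3' g2' r1' : k}
    (hρ : ∀ i, ρ i = (J432 k ^ i).rank)
    (hT : MaxR ρ ![J432 k, B432 1 a1 a2 c0 c1 0 b2 b3 q1 q2 e0 e1 f2 f3 0 g2 r1,
      B432 0 x y z t 0 b2' b3' q1' q2' 0 e1' f2' f3' 0 g2' r1'])
    (he : e0 ≠ 0) : False := by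
  obtain ⟨-, r2, r3, r4, r5, -, r7, r8, r9, -, r11, r12, -, -, -, -⟩ := rel_of_cn hT.cn
  have k1 : f2' = 0 := by
    have : e0 * f2' = 0 := by linear_combination r8
    exact (mul_eq_zero.1 this).resolve_left he
  have k2 : q1' = 0 := by linear_combination r4
  subst k1 k2
  have k3 : r1' = 0 := by
    have : e0 * r1' = 0 := by linear_combination r12
    exact (mul_eq_zero.1 this).resolve_left he
  subst k3
  obtain ⟨α, hα⟩ : ∃ α, α = x - z / e0 * q1 := ⟨_, rfl⟩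
  obtain ⟨β, hβ⟩ : ∃ β, β = (t - α * c0 - z / e0 * (e1 + e0 * a1 + r1 * c0)) / e0 := ⟨_, rfl⟩
  obtain ⟨γ, hγ⟩ : ∃ γ, γ = y - z / e0 * (q2 + q1 * a1 + g2 * c0) - α * a1 - β * q1 := ⟨_, rfl⟩
  have key := A1_eq (a2 := a2) (c1 := c1) (b3 := b3) (b2' := b2') (b3' := b3') (q2' := q2')
    (e1' := e1') (f3' := f3') (g2' := g2') (f3 := f3) (b2 := b2) (f2 := f2) he
    (by linear_combination r2) (by linear_combination r7) (by linear_combination r9)
    (by linear_combination r11) (by linear_combination r5) (by linear_combination r3) hα hβ hγ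
  have hN : ∀ D, B432 0 x y z t 0 b2' b3' 0 q2' 0 e1' 0 f3' 0 g2' 0 ∈
      adj ![J432 k, B432 1 a1 a2 c0 c1 0 b2 b3 q1 q2 e0 e1 f2 f3 0 g2 r1, D] := by
    intro D
    have n0 := m0 (J432 k) (B432 1 a1 a2 c0 c1 0 b2 b3 q1 q2 e0 e1 f2 f3 0 g2 r1) D
    have n1 := m1 (J432 k) (B432 1 a1 a2 c0 c1 0 b2 b3 q1 q2 e0 e1 f2 f3 0 g2 r1) D
    have n2 := sub_mem (sub_mem (mul_mem n1 n1)
      (SMulMemClass.smul_mem (b2 + f2 * c0) (mul_mem n0 n0)))
      (SMulMemClass.smul_mem (b3 + b2 * a1 + f3 * c0 + f2 * c1) (mul_mem (mul_mem n0 n0) n0))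
    rw [N1_eq] at n2
    have n3 := mul_mem n0 n1
    rw [JB] at n3
    have n4 := mul_mem n0 n2
    rw [JB] at n4
    have n5 := mul_mem n0 n3
    rw [JB] at n5
    rw [key]
    exact add_mem (add_mem (add_mem (SMulMemClass.smul_mem _ n2) (SMulMemClass.smul_mem _ n3))
      (SMulMemClass.smul_mem _ n4)) (SMulMemClass.smul_mem _ n5)
  have hT2 := sub3 hT hN
  rw [sub_self] at hT2
  exact caseP hρ hT2

/-! ### `e0 = 0`, normal form, `c0' ≠ 0` -/

theorem caseBeta1 {b2 b3 q1 q2 e1 f3 g2 r1 F3 G2 R1 : k}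
    (hρ : ∀ i, ρ i = (J432 k ^ i).rank)
    (hT : MaxR ρ ![J432 k, B432 1 0 0 0 0 0 b2 b3 q1 q2 0 e1 0 f3 0 g2 r1,
      B432 0 0 0 1 0 0 0 f3 0 g2 0 r1 0 F3 0 G2 R1])
    (hR : R1 ≠ 0) (hΨ : b2 - r1 * (r1 - q1) + e1 * R1 ≠ 0) : False := by
  obtain ⟨u, hu⟩ : ∃ u, u * (b2 - r1 * (r1 - q1) + e1 * R1) = F3 + (q1 - r1) * G2 + g2 * R1 :=
    ⟨(F3 + (q1 - r1) * G2 + g2 * R1) / (b2 - r1 * (r1 - q1) + e1 * R1), div_mul_cancel₀ _ hΨ⟩
  obtain ⟨s, hs, hT'⟩ := deform (B := _) (C := _)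
      (a0 := fun _ => 1) (a1 := fun _ => 0) (a2 := fun _ => 0) (c0 := fun _ => 0)
      (c1 := fun _ => 0) (b1 := fun s => s * (s * u - R1))
      (b2 := fun s => b2 + s * (e1 * u - g2)) (b3 := fun _ => b3) (q1 := fun _ => q1)
      (q2 := fun _ => q2) (e0 := fun s => s) (e1 := fun _ => e1)
      (f2 := fun s => s * G2 - s * r1 * u) (f3 := fun _ => f3) (g1 := fun s => s * u)
      (g2 := fun _ => g2) (r1 := fun _ => r1) (a0' := fun _ => 0) (a1' := fun _ => 0)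
      (a2' := fun _ => 0) (c0' := fun _ => 1) (c1' := fun _ => 0) (b1' := fun _ => 0)
      (b2' := fun s => s * G2 - s * r1 * u) (b3' := fun _ => f3) (q1' := fun s => s * u)
      (q2' := fun _ => g2) (e0' := fun _ => 0) (e1' := fun _ => r1)
      (f2' := fun s => s * u * (s * u - R1)) (f3' := fun _ => F3) (g1' := fun _ => 0)
      (g2' := fun _ => G2) (r1' := fun _ => R1)
      hT (by
        beta_reduce; congr 1 <;> ring) (by
        beta_reduce; congr 1 <;> ring) (by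
        refine polyB ?_ ?_ ?_ ?_ ?_ ?_ ?_ ?_ ?_ ?_ ?_ ?_ ?_ ?_ ?_ ?_ ?_ <;>
        repeat' first
          | exact D7.IsPoly.const _
          | exact D7.IsPoly.id
          | apply D7.IsPoly.add
          | apply D7.IsPoly.sub
          | apply D7.IsPoly.mul
          | apply D7.IsPoly.neg
          | apply D7.IsPoly.pow
          | apply divc) (by
        refine polyB ?_ ?_ ?_ ?_ ?_ ?_ ?_ ?_ ?_ ?_ ?_ ?_ ?_ ?_ ?_ ?_ ?_ <;>
        repeat' first
          | exact D7.IsPoly.const _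
          | exact D7.IsPoly.id
          | apply D7.IsPoly.add
          | apply D7.IsPoly.sub
          | apply D7.IsPoly.mul
          | apply D7.IsPoly.neg
          | apply D7.IsPoly.pow
          | apply divc)
      (by
      intro s
      refine ⟨?_, ?_, ?_, ?_, ?_, ?_, ?_, ?_, ?_, ?_, ?_, ?_, ?_, ?_, ?_, ?_⟩ <;>
        beta_reduce
      all_goals first | ring1 | (field_simp; ring1) | skip
      linear_combination (-s) * hu)
      (Set.toFinite ({0, R1 / u} : Set k))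
  have h := (half hρ hT' (m0 _ _ _) (m1 _ _ _)).1
  rw [one_mul] at h
  rcases mul_eq_zero.1 h with h | h
  · exact hs (Or.inl h)
  · have hu0 : u ≠ 0 := by
      rintro rfl
      rw [mul_zero, zero_sub] at h
      exact hR (neg_eq_zero.1 h)
    refine hs (Or.inr ?_)
    show s = R1 / u
    field_simp
    linear_combination h

theorem caseBeta {b2 b3 q1 q2 e1 f3 g2 r1 F3 G2 R1 : k}
    (hρ : ∀ i, ρ i = (J432 k ^ i).rank)
    (hT : MaxR ρ ![J432 k, B432 1 0 0 0 0 0 b2 b3 q1 q2 0 e1 0 f3 0 g2 r1,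
      B432 0 0 0 1 0 0 0 f3 0 g2 0 r1 0 F3 0 G2 R1])
    (hΨ : b2 - r1 * (r1 - q1) + e1 * R1 ≠ 0) : False := by
  obtain ⟨s, hs, hT'⟩ := deform (B := _) (C := _)
      (a0 := fun _ => 1) (a1 := fun _ => 0) (a2 := fun _ => 0) (c0 := fun _ => 0)
      (c1 := fun _ => 0) (b1 := fun _ => 0) (b2 := fun _ => b2) (b3 := fun _ => b3)
      (q1 := fun _ => q1) (q2 := fun _ => q2) (e0 := fun _ => 0) (e1 := fun _ => e1)
      (f2 := fun _ => 0) (f3 := fun _ => f3) (g1 := fun _ => 0) (g2 := fun _ => g2)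
      (r1 := fun _ => r1) (a0' := fun _ => 0) (a1' := fun _ => 0) (a2' := fun _ => 0)
      (c0' := fun _ => 1) (c1' := fun _ => 0) (b1' := fun _ => 0) (b2' := fun _ => 0)
      (b3' := fun _ => f3) (q1' := fun _ => 0) (q2' := fun _ => g2) (e0' := fun _ => 0)
      (e1' := fun _ => r1) (f2' := fun _ => 0) (f3' := fun _ => F3) (g1' := fun _ => 0)
      (g2' := fun _ => G2) (r1' := fun s => R1 + s)
      hT (by
        rfl) (by
        beta_reduce; rw [add_zero]) (by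
        refine polyB ?_ ?_ ?_ ?_ ?_ ?_ ?_ ?_ ?_ ?_ ?_ ?_ ?_ ?_ ?_ ?_ ?_ <;>
        repeat' first
          | exact D7.IsPoly.const _
          | exact D7.IsPoly.id
          | apply D7.IsPoly.add
          | apply D7.IsPoly.sub
          | apply D7.IsPoly.mul
          | apply D7.IsPoly.neg
          | apply D7.IsPoly.pow
          | apply divc) (by
        refine polyB ?_ ?_ ?_ ?_ ?_ ?_ ?_ ?_ ?_ ?_ ?_ ?_ ?_ ?_ ?_ ?_ ?_ <;>
        repeat' first
          | exact D7.IsPoly.const _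
          | exact D7.IsPoly.id
          | apply D7.IsPoly.add
          | apply D7.IsPoly.sub
          | apply D7.IsPoly.mul
          | apply D7.IsPoly.neg
          | apply D7.IsPoly.pow
          | apply divc)
      (by
      intro s
      refine ⟨?_, ?_, ?_, ?_, ?_, ?_, ?_, ?_, ?_, ?_, ?_, ?_, ?_, ?_, ?_, ?_⟩ <;>
        beta_reduce
      all_goals first | ring1 | (field_simp; ring1) | skip)
      (Set.toFinite ({-R1, -(b2 - r1 * (r1 - q1) + e1 * R1) / e1} : Set k))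
  refine caseBeta1 hρ hT' (fun h => hs (Or.inl (eq_neg_of_add_eq_zero_right h))) fun h => ?_
  have he : e1 ≠ 0 := by
    rintro rfl
    exact hΨ (by linear_combination h)
  refine hs (Or.inr ?_)
  show s = -(b2 - r1 * (r1 - q1) + e1 * R1) / e1
  field_simp
  linear_combination h

theorem caseA2c [IsAlgClosed k] {b2 b3 q1 q2 e1 f2 f3 g1 g2 r1 b2' b3' q1' q2' e1' F2 F3 G1 G2 R1 : k}
    (hρ : ∀ i, ρ i = (J432 k ^ i).rank)
    (hT : MaxR ρ ![J432 k, B432 1 0 0 0 0 0 b2 b3 q1 q2 0 e1 f2 f3 g1 g2 r1,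
      B432 0 0 0 1 0 0 b2' b3' q1' q2' 0 e1' F2 F3 G1 G2 R1]) : False := by
  obtain ⟨-, r2, r3, r4, r5, -, r7, -, r9, -, r11, -, -, r14, r15, -⟩ := rel_of_cn hT.cn
  have k1 : b2' = f2 := by linear_combination r2
  have k2 : b3' = f3 := by linear_combination r3
  have k3 : q1' = g1 := by linear_combination r4
  have k4 : q2' = g2 := by linear_combination r5
  have k5 : e1' = r1 := by linear_combination r7
  subst k1 k2 k3 k4 k5
  have k6 : b2' = e1 * G1 - e1' * q1' := by linear_combination -r11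
  subst k6
  have k7 : F2 = q1' ^ 2 + e1' * G1 - q1 * G1 - R1 * q1' := by linear_combination -r15
  subst k7
  have k8 : q1' * (b2 - e1' * (e1' - q1) - e1 * (q1' - R1)) = 0 := by linear_combination -r9
  have k9 : G1 * (b2 - e1' * (e1' - q1) - e1 * (q1' - R1)) = 0 := by linear_combination -r14
  by_cases hΨ : b2 - e1' * (e1' - q1) - e1 * (q1' - R1) = 0
  · have k10 : b2 = e1' * (e1' - q1) + e1 * (q1' - R1) := by linear_combination hΨ
    subst k10
    exact hT.ncl (cl_432a _ _ _ _ _ _ _ _ _ _ _ _)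
  · have k10 : q1' = 0 := (mul_eq_zero.1 k8).resolve_right hΨ
    have k11 : G1 = 0 := (mul_eq_zero.1 k9).resolve_right hΨ
    subst k10 k11
    have e1_ : e1 * 0 - e1' * 0 = (0 : k) := by ring
    have e2_ : (0 : k) ^ 2 + e1' * 0 - q1 * 0 - R1 * 0 = 0 := by ring
    rw [e1_, e2_] at hT
    exact caseBeta hρ hT (fun h => hΨ (by linear_combination h))

/-- change of basis `w0 -> w0 + t w1` -/
def Wm (t : k) : Matrix (Fin 9) (Fin 9) k :=
  !![1, 0, 0, 0, 0, 0, 0, 0, 0;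
     0, 1, 0, 0, 0, 0, 0, 0, 0;
     0, 0, 1, 0, 0, 0, 0, 0, 0;
     0, 0, 0, 1, 0, 0, 0, 0, 0;
     0, 0, 0, 0, 1, 0, 0, 0, 0;
     0, 0, 0, 0, 0, 1, 0, 0, 0;
     0, 0, 0, 0, 0, 0, 1, 0, 0;
     0, 0, 0, 0, 0, 0, 0, 1, 0;
     0, 0, 0, 0, 0, 0, 0, t, 1]

theorem Wm_mul (t : k) : Wm (-t) * Wm t = 1 := by
  ext i j
  fin_cases i <;> fin_cases j <;>
    simp [Wm, Matrix.mul_apply, Fin.sum_univ_succ]

theorem Wm_J (t : k) : J432 k * Wm t = Wm t * J432 k := by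
  ext i j
  fin_cases i <;> fin_cases j <;>
    simp [Wm, J432, Matrix.mul_apply, Fin.sum_univ_succ]

theorem Wm_B (t b2 b3 q1 q2 e1 f2 f3 g1 g2 r1 : k) :
    B432 1 0 0 0 0 0 b2 b3 q1 q2 0 e1 f2 f3 g1 g2 r1 * Wm t =
    Wm t * B432 1 0 0 0 0 0 b2 b3 q1 q2 0 e1 f2 (f3 + t * f2) g1 (g2 + t * g1) r1 := by
  ext i j
  fin_cases i <;> fin_cases j <;>
    simp [Wm, B432, Matrix.mul_apply, Fin.sum_univ_succ] <;> ring

theorem Wm_C (t b2 b3 q1 q2 e1 f2 f3 g1 g2 r1 : k) :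
    B432 0 0 0 1 t 0 b2 b3 q1 q2 0 e1 f2 f3 g1 g2 r1 * Wm t =
    Wm t * B432 0 0 0 1 0 0 b2 b3 q1 q2 0 e1 f2 (f3 + t * f2) g1 (g2 + t * g1) r1 := by
  ext i j
  fin_cases i <;> fin_cases j <;>
    simp [Wm, B432, Matrix.mul_apply, Fin.sum_univ_succ] <;> ring

theorem caseA2z [IsAlgClosed k] {b2 b3 q1 q2 e1 f2 f3 g1 g2 r1 z t b2' b3' q1' q2' e1' F2 F3 G1 G2 R1 : k}
    (hρ : ∀ i, ρ i = (J432 k ^ i).rank)
    (hT : MaxR ρ ![J432 k, B432 1 0 0 0 0 0 b2 b3 q1 q2 0 e1 f2 f3 g1 g2 r1,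
      B432 0 0 0 z t 0 b2' b3' q1' q2' 0 e1' F2 F3 G1 G2 R1])
    (hz : z ≠ 0) : False := by
  have h1 := gl2 hT (x := 1) (y := 0) (z := 0) (t := z⁻¹) (by
    rw [zero_mul, sub_zero, one_mul]
    exact inv_ne_zero hz)
  rw [one_smul, zero_smul, add_zero, zero_smul, zero_add, smulB, inv_mul_cancel₀ hz] at h1
  simp only [mul_zero] at h1
  have h2 := conj3 h1 (Wm_mul (z⁻¹ * t)) (Wm_J _) (Wm_B _ _ _ _ _ _ _ _ _ _ _)
    (Wm_C _ _ _ _ _ _ _ _ _ _ _)
  exact caseA2c hρ h2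

/-! ### `e0 = 0`, normal form, `c0' = 0` -/

theorem caseA2i [IsAlgClosed k] {b2 b3 q1 q2 e1 f2 f3 g1 g2 r1 t F3 G2 : k}
    (hρ : ∀ i, ρ i = (J432 k ^ i).rank)
    (hT : MaxR ρ ![J432 k, B432 1 0 0 0 0 0 b2 b3 q1 q2 0 e1 f2 f3 g1 g2 r1,
      B432 0 0 0 0 t 0 0 (t * f2) 0 (t * g1) 0 0 0 F3 0 G2 0])
    (he : e1 ≠ 0) : False := by
  obtain ⟨s, hs, hT'⟩ := deform (B := _) (C := _)
      (a0 := fun _ => 1) (a1 := fun _ => 0) (a2 := fun _ => 0) (c0 := fun _ => 0)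
      (c1 := fun _ => 0) (b1 := fun _ => 0) (b2 := fun _ => b2) (b3 := fun _ => b3)
      (q1 := fun _ => q1) (q2 := fun _ => q2) (e0 := fun _ => 0) (e1 := fun _ => e1)
      (f2 := fun _ => f2) (f3 := fun _ => f3) (g1 := fun _ => g1) (g2 := fun _ => g2)
      (r1 := fun _ => r1) (a0' := fun _ => 0) (a1' := fun _ => 0) (a2' := fun _ => 0)
      (c0' := fun s => s) (c1' := fun _ => t) (b1' := fun _ => 0) (b2' := fun s => s * f2)
      (b3' := fun s => s * f3 + t * f2) (q1' := fun s => s * g1)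
      (q2' := fun s => s * g2 + t * g1) (e0' := fun _ => 0) (e1' := fun s => s * r1)
      (f2' := fun s => s * ((g1 * b2 + (r1 - q1) * f2) / e1)) (f3' := fun _ => F3)
      (g1' := fun s => s * ((f2 + r1 * g1) / e1)) (g2' := fun _ => G2)
      (r1' := fun s => -(s * ((b2 + q1 * r1 - r1 * r1 - e1 * g1) / e1)))
      hT (by
        rfl) (by
        beta_reduce; congr 1 <;> ring) (by
        refine polyB ?_ ?_ ?_ ?_ ?_ ?_ ?_ ?_ ?_ ?_ ?_ ?_ ?_ ?_ ?_ ?_ ?_ <;>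
        repeat' first
          | exact D7.IsPoly.const _
          | exact D7.IsPoly.id
          | apply D7.IsPoly.add
          | apply D7.IsPoly.sub
          | apply D7.IsPoly.mul
          | apply D7.IsPoly.neg
          | apply D7.IsPoly.pow
          | apply divc) (by
        refine polyB ?_ ?_ ?_ ?_ ?_ ?_ ?_ ?_ ?_ ?_ ?_ ?_ ?_ ?_ ?_ ?_ ?_ <;>
        repeat' first
          | exact D7.IsPoly.const _
          | exact D7.IsPoly.id
          | apply D7.IsPoly.add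
          | apply D7.IsPoly.sub
          | apply D7.IsPoly.mul
          | apply D7.IsPoly.neg
          | apply D7.IsPoly.pow
          | apply divc)
      (by
      intro s
      refine ⟨?_, ?_, ?_, ?_, ?_, ?_, ?_, ?_, ?_, ?_, ?_, ?_, ?_, ?_, ?_, ?_⟩ <;>
        beta_reduce
      all_goals first | ring1 | (field_simp; ring1) | skip)
      (Set.finite_singleton (0 : k))
  exact caseA2z hρ hT' hs

theorem caseA2j [IsAlgClosed k] {b2 b3 q1 q2 e1 f3 g2 r1 t F3 G2 R1 : k}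
    (hρ : ∀ i, ρ i = (J432 k ^ i).rank)
    (hT : MaxR ρ ![J432 k, B432 1 0 0 0 0 0 b2 b3 q1 q2 0 e1 0 f3 0 g2 r1,
      B432 0 0 0 0 t 0 0 0 0 0 0 0 0 F3 0 G2 R1]) : False := by
  obtain ⟨s, hs, hT'⟩ := deform (B := _) (C := _)
      (a0 := fun _ => 1) (a1 := fun _ => 0) (a2 := fun _ => 0) (c0 := fun _ => 0)
      (c1 := fun _ => 0) (b1 := fun _ => 0) (b2 := fun _ => b2) (b3 := fun _ => b3)
      (q1 := fun _ => q1) (q2 := fun _ => q2) (e0 := fun _ => 0) (e1 := fun _ => e1)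
      (f2 := fun _ => 0) (f3 := fun _ => f3) (g1 := fun _ => 0) (g2 := fun _ => g2)
      (r1 := fun _ => r1) (a0' := fun _ => 0) (a1' := fun _ => 0) (a2' := fun _ => 0)
      (c0' := fun s => s) (c1' := fun _ => t) (b1' := fun _ => 0) (b2' := fun s => s * 0)
      (b3' := fun s => s * f3 + t * 0) (q1' := fun s => s * 0) (q2' := fun s => s * g2 + t * 0)
      (e0' := fun _ => 0) (e1' := fun s => s * r1) (f2' := fun _ => 0) (f3' := fun _ => F3)
      (g1' := fun _ => 0) (g2' := fun _ => G2) (r1' := fun _ => R1)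
      hT (by
        rfl) (by
        beta_reduce; congr 1 <;> ring) (by
        refine polyB ?_ ?_ ?_ ?_ ?_ ?_ ?_ ?_ ?_ ?_ ?_ ?_ ?_ ?_ ?_ ?_ ?_ <;>
        repeat' first
          | exact D7.IsPoly.const _
          | exact D7.IsPoly.id
          | apply D7.IsPoly.add
          | apply D7.IsPoly.sub
          | apply D7.IsPoly.mul
          | apply D7.IsPoly.neg
          | apply D7.IsPoly.pow
          | apply divc) (by
        refine polyB ?_ ?_ ?_ ?_ ?_ ?_ ?_ ?_ ?_ ?_ ?_ ?_ ?_ ?_ ?_ ?_ ?_ <;>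
        repeat' first
          | exact D7.IsPoly.const _
          | exact D7.IsPoly.id
          | apply D7.IsPoly.add
          | apply D7.IsPoly.sub
          | apply D7.IsPoly.mul
          | apply D7.IsPoly.neg
          | apply D7.IsPoly.pow
          | apply divc)
      (by
      intro s
      refine ⟨?_, ?_, ?_, ?_, ?_, ?_, ?_, ?_, ?_, ?_, ?_, ?_, ?_, ?_, ?_, ?_⟩ <;>
        beta_reduce
      all_goals first | ring1 | (field_simp; ring1) | skip)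
      (Set.finite_singleton (0 : k))
  exact caseA2z hρ hT' hs

theorem caseA2k [IsAlgClosed k] {b3 q1 q2 ep f3 g1 g2 r1 t F3 G1 G2 R1 : k}
    (hρ : ∀ i, ρ i = (J432 k ^ i).rank)
    (hT : MaxR ρ ![J432 k, B432 1 0 0 0 0 0 (r1 * (r1 - q1) - ep * R1) b3 q1 q2 0 0 (ep * G1 - r1 * g1) f3 g1 g2 r1,
      B432 0 0 0 0 t 0 0 (t * (ep * G1 - r1 * g1)) 0 (t * g1) 0 0 ((r1 - q1) * G1 - R1 * g1) F3 G1 G2 R1]) : False := by
  obtain ⟨s, hs, hT'⟩ := deform (B := _) (C := _)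
      (a0 := fun _ => 1) (a1 := fun _ => 0) (a2 := fun _ => 0) (c0 := fun _ => 0)
      (c1 := fun _ => 0) (b1 := fun _ => 0)
      (b2 := fun s => r1 * (r1 - q1) - ep * R1 + s * ep * g1) (b3 := fun _ => b3)
      (q1 := fun _ => q1) (q2 := fun _ => q2) (e0 := fun _ => 0) (e1 := fun s => s * ep)
      (f2 := fun _ => ep * G1 - r1 * g1) (f3 := fun _ => f3) (g1 := fun _ => g1)
      (g2 := fun _ => g2) (r1 := fun _ => r1) (a0' := fun _ => 0) (a1' := fun _ => 0)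
      (a2' := fun _ => 0) (c0' := fun s => s) (c1' := fun _ => t) (b1' := fun _ => 0)
      (b2' := fun s => s * (ep * G1 - r1 * g1))
      (b3' := fun s => s * f3 + t * (ep * G1 - r1 * g1)) (q1' := fun s => s * g1)
      (q2' := fun s => s * g2 + t * g1) (e0' := fun _ => 0) (e1' := fun s => s * r1)
      (f2' := fun s => (r1 - q1) * G1 - R1 * g1 + s * g1 ^ 2) (f3' := fun _ => F3)
      (g1' := fun _ => G1) (g2' := fun _ => G2) (r1' := fun _ => R1)
      hT (by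
        beta_reduce; congr 1 <;> ring) (by
        beta_reduce; congr 1 <;> ring) (by
        refine polyB ?_ ?_ ?_ ?_ ?_ ?_ ?_ ?_ ?_ ?_ ?_ ?_ ?_ ?_ ?_ ?_ ?_ <;>
        repeat' first
          | exact D7.IsPoly.const _
          | exact D7.IsPoly.id
          | apply D7.IsPoly.add
          | apply D7.IsPoly.sub
          | apply D7.IsPoly.mul
          | apply D7.IsPoly.neg
          | apply D7.IsPoly.pow
          | apply divc) (by
        refine polyB ?_ ?_ ?_ ?_ ?_ ?_ ?_ ?_ ?_ ?_ ?_ ?_ ?_ ?_ ?_ ?_ ?_ <;>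
        repeat' first
          | exact D7.IsPoly.const _
          | exact D7.IsPoly.id
          | apply D7.IsPoly.add
          | apply D7.IsPoly.sub
          | apply D7.IsPoly.mul
          | apply D7.IsPoly.neg
          | apply D7.IsPoly.pow
          | apply divc)
      (by
      intro s
      refine ⟨?_, ?_, ?_, ?_, ?_, ?_, ?_, ?_, ?_, ?_, ?_, ?_, ?_, ?_, ?_, ?_⟩ <;>
        beta_reduce
      all_goals first | ring1 | (field_simp; ring1) | skip)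
      (Set.finite_singleton (0 : k))
  exact caseA2z hρ hT' hs

theorem caseA2l [IsAlgClosed k] {b2 b3 q1 q2 f2 f3 g1 g2 r1 t F2 F3 G1 G2 R1 : k}
    (hρ : ∀ i, ρ i = (J432 k ^ i).rank)
    (hT : MaxR ρ ![J432 k, B432 1 0 0 0 0 0 b2 b3 q1 q2 0 0 f2 f3 g1 g2 r1,
      B432 0 0 0 0 t 0 0 (t * f2) 0 (t * g1) 0 0 F2 F3 G1 G2 R1])
    (h : G1 ≠ 0 ∨ R1 ≠ 0) : False := by
  obtain ⟨-, -, -, -, -, -, -, -, -, -, -, -, -, r14, r15, -⟩ := rel_of_cn hT.cn
  have k1 : F2 = (r1 - q1) * G1 - R1 * g1 := by linear_combination -r15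
  subst k1
  have k2 : G1 * (b2 - r1 * (r1 - q1)) + R1 * (f2 + r1 * g1) = 0 := by linear_combination -r14
  obtain ⟨ep, h1, h2⟩ : ∃ ep, f2 + r1 * g1 = ep * G1 ∧ b2 - r1 * (r1 - q1) = -(ep * R1) := by
    by_cases hG : G1 = 0
    · have hR : R1 ≠ 0 := h.resolve_left (fun h' => h' hG)
      subst hG
      refine ⟨-((b2 - r1 * (r1 - q1)) / R1), ?_, by field_simp⟩
      have : R1 * (f2 + r1 * g1) = 0 := by linear_combination k2
      rw [(mul_eq_zero.1 this).resolve_left hR, mul_zero]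
    · refine ⟨(f2 + r1 * g1) / G1, by field_simp, ?_⟩
      field_simp
      linear_combination k2
  have k3 : f2 = ep * G1 - r1 * g1 := by linear_combination h1
  have k4 : b2 = r1 * (r1 - q1) - ep * R1 := by linear_combination h2
  subst k3 k4
  exact caseA2k hρ hT

theorem caseA2m [IsAlgClosed k] {b2 b3 q1 q2 f2 f3 g1 g2 r1 t F3 G2 : k}
    (hρ : ∀ i, ρ i = (J432 k ^ i).rank)
    (hT : MaxR ρ ![J432 k, B432 1 0 0 0 0 0 b2 b3 q1 q2 0 0 f2 f3 g1 g2 r1,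
      B432 0 0 0 0 t 0 0 (t * f2) 0 (t * g1) 0 0 0 F3 0 G2 0]) : False := by
  obtain ⟨x, y', hxy, h1⟩ := perp (b2 - r1 * (r1 - q1)) (f2 + r1 * g1)
  obtain ⟨y, rfl⟩ : ∃ y, y' = -y := ⟨-y', by rw [neg_neg]⟩
  obtain ⟨s, hs, hT'⟩ := deform (B := _) (C := _)
      (a0 := fun _ => 1) (a1 := fun _ => 0) (a2 := fun _ => 0) (c0 := fun _ => 0)
      (c1 := fun _ => 0) (b1 := fun _ => 0) (b2 := fun _ => b2) (b3 := fun _ => b3)
      (q1 := fun _ => q1) (q2 := fun _ => q2) (e0 := fun _ => 0) (e1 := fun _ => 0)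
      (f2 := fun _ => f2) (f3 := fun _ => f3) (g1 := fun _ => g1) (g2 := fun _ => g2)
      (r1 := fun _ => r1) (a0' := fun _ => 0) (a1' := fun _ => 0) (a2' := fun _ => 0)
      (c0' := fun _ => 0) (c1' := fun _ => t) (b1' := fun _ => 0) (b2' := fun _ => 0)
      (b3' := fun _ => t * f2) (q1' := fun _ => 0) (q2' := fun _ => t * g1) (e0' := fun _ => 0)
      (e1' := fun _ => 0) (f2' := fun s => s * ((r1 - q1) * x - y * g1)) (f3' := fun _ => F3)
      (g1' := fun s => s * x) (g2' := fun _ => G2) (r1' := fun s => s * y)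
      hT (by
        rfl) (by
        beta_reduce; congr 1 <;> ring) (by
        refine polyB ?_ ?_ ?_ ?_ ?_ ?_ ?_ ?_ ?_ ?_ ?_ ?_ ?_ ?_ ?_ ?_ ?_ <;>
        repeat' first
          | exact D7.IsPoly.const _
          | exact D7.IsPoly.id
          | apply D7.IsPoly.add
          | apply D7.IsPoly.sub
          | apply D7.IsPoly.mul
          | apply D7.IsPoly.neg
          | apply D7.IsPoly.pow
          | apply divc) (by
        refine polyB ?_ ?_ ?_ ?_ ?_ ?_ ?_ ?_ ?_ ?_ ?_ ?_ ?_ ?_ ?_ ?_ ?_ <;>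
        repeat' first
          | exact D7.IsPoly.const _
          | exact D7.IsPoly.id
          | apply D7.IsPoly.add
          | apply D7.IsPoly.sub
          | apply D7.IsPoly.mul
          | apply D7.IsPoly.neg
          | apply D7.IsPoly.pow
          | apply divc)
      (by
      intro s
      refine ⟨?_, ?_, ?_, ?_, ?_, ?_, ?_, ?_, ?_, ?_, ?_, ?_, ?_, ?_, ?_, ?_⟩ <;>
        beta_reduce
      all_goals first | ring1 | (field_simp; ring1) | skip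
      linear_combination (-s) * h1)
      (Set.finite_singleton (0 : k))
  refine caseA2l hρ hT' ?_
  have hs0 : s ≠ 0 := hs
  rcases hxy with h | h
  · exact Or.inl (mul_ne_zero hs0 h)
  · exact Or.inr (mul_ne_zero hs0 (fun h' => h (by rw [h', neg_zero])))

theorem caseA2n [IsAlgClosed k] {b2 b3 q1 q2 e1 f2 f3 g1 g2 r1 z t b2' b3' q1' q2' e1' F2 F3 G1 G2 R1 : k}
    (hρ : ∀ i, ρ i = (J432 k ^ i).rank)
    (hT : MaxR ρ ![J432 k, B432 1 0 0 0 0 0 b2 b3 q1 q2 0 e1 f2 f3 g1 g2 r1,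
      B432 0 0 0 z t 0 b2' b3' q1' q2' 0 e1' F2 F3 G1 G2 R1]) : False := by
  by_cases hz : z = 0
  · subst hz
    obtain ⟨-, r2, r3, r4, r5, -, r7, -, r9, -, r11, -, -, r14, r15, -⟩ := rel_of_cn hT.cn
    have k1 : b2' = 0 := by linear_combination r2
    have k2 : b3' = t * f2 := by linear_combination r3
    have k3 : q1' = 0 := by linear_combination r4
    have k4 : q2' = t * g1 := by linear_combination r5
    have k5 : e1' = 0 := by linear_combination r7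
    subst k1 k2 k3 k4 k5
    by_cases he : e1 = 0
    · subst he
      by_cases hG : G1 ≠ 0 ∨ R1 ≠ 0
      · exact caseA2l hρ hT hG
      · push Not at hG
        obtain ⟨rfl, rfl⟩ := hG
        have k6 : F2 = 0 := by linear_combination -r15
        subst k6
        exact caseA2m hρ hT
    · have k6 : G1 = 0 := by
        have : e1 * G1 = 0 := by linear_combination r11
        exact (mul_eq_zero.1 this).resolve_left he
      have k7 : F2 = 0 := by
        have : e1 * F2 = 0 := by linear_combination r9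
        exact (mul_eq_zero.1 this).resolve_left he
      subst k6 k7
      by_cases hR : R1 = 0
      · subst hR
        exact caseA2i hρ hT he
      · have k8 : g1 = 0 := by
          have : R1 * g1 = 0 := by linear_combination -r15
          exact (mul_eq_zero.1 this).resolve_left hR
        have k9 : f2 = 0 := by
          have : R1 * f2 = 0 := by linear_combination -r14
          exact (mul_eq_zero.1 this).resolve_left hR
        subst k8 k9
        simp only [mul_zero] at hT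
        exact caseA2j hρ hT
  · exact caseA2z hρ hT hz

/-! ### change of basis `u0 -> B v0` -/

/-- change of basis `u0 -> u0 + a u1 + b u2 + c w0 + d w1` -/
def Pm (a b c d : k) : Matrix (Fin 9) (Fin 9) k :=
  !![1, 0, 0, 0, 0, 0, 0, 0, 0;
     0, 1, 0, 0, 0, 0, 0, 0, 0;
     0, 0, 1, 0, 0, 0, 0, 0, 0;
     0, 0, 0, 1, 0, 0, 0, 0, 0;
     0, 0, 0, 0, 1, 0, 0, 0, 0;
     0, 0, 0, 0, a, 1, 0, 0, 0;
     0, 0, 0, 0, b, a, 1, 0, 0;
     0, 0, 0, 0, c, 0, 0, 1, 0;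
     0, 0, 0, 0, d, c, 0, 0, 1]

theorem Pm_mul (a b c d : k) : Pm (-a) (a * a - b) (-c) (a * c - d) * Pm a b c d = 1 := by
  ext i j
  fin_cases i <;> fin_cases j <;>
    simp [Pm, Matrix.mul_apply, Fin.sum_univ_succ] <;> ring

theorem Pm_J (a b c d : k) : J432 k * Pm a b c d = Pm a b c d * J432 k := by
  ext i j
  fin_cases i <;> fin_cases j <;>
    simp [Pm, J432, Matrix.mul_apply, Fin.sum_univ_succ]

theorem Pm_B (a1 a2 c0 c1 b2 b3 q1 q2 e1 f2 f3 g1 g2 r1 : k) :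
    B432 1 a1 a2 c0 c1 0 b2 b3 q1 q2 0 e1 f2 f3 g1 g2 r1 * Pm a1 a2 c0 c1 =
    Pm a1 a2 c0 c1 * B432 1 0 0 0 0 0 (b2 + c0 * f2) (b3 + a1 * b2 + c0 * f3 + c1 * f2)
      (q1 + c0 * g1) (q2 + c0 * g2 + c1 * g1 - a1 * c0 * g1) 0
      (e1 + c0 * r1 - c0 * (q1 + c0 * g1)) f2 f3 g1 (g2 - a1 * g1) (r1 - c0 * g1) := by
  ext i j
  fin_cases i <;> fin_cases j <;>
    simp [Pm, B432, Matrix.mul_apply, Fin.sum_univ_succ] <;> ring

theorem Pm_C (a1 a2 c0 c1 z t b2 b3 q1 q2 e1 f2 f3 g1 g2 r1 : k) :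
    B432 0 0 0 z t 0 b2 b3 q1 q2 0 e1 f2 f3 g1 g2 r1 * Pm a1 a2 c0 c1 =
    Pm a1 a2 c0 c1 * B432 0 0 0 z t 0 (b2 + c0 * f2) (b3 + a1 * b2 + c0 * f3 + c1 * f2)
      (q1 + c0 * g1) (q2 + c0 * g2 + c1 * g1 - a1 * c0 * g1) 0
      (e1 + c0 * r1 - c0 * (q1 + c0 * g1)) f2 f3 g1 (g2 - a1 * g1) (r1 - c0 * g1) := by
  ext i j
  fin_cases i <;> fin_cases j <;>
    simp [Pm, B432, Matrix.mul_apply, Fin.sum_univ_succ] <;> ring

theorem caseA2 [IsAlgClosed k] {a1 a2 c0 c1 b2 b3 q1 q2 e1 f2 f3 g1 g2 r1 x y z t b2' b3' q1' q2' e1' F2 F3 G1 G2 R1 : k}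
    (hρ : ∀ i, ρ i = (J432 k ^ i).rank)
    (hT : MaxR ρ ![J432 k, B432 1 a1 a2 c0 c1 0 b2 b3 q1 q2 0 e1 f2 f3 g1 g2 r1,
      B432 0 x y z t 0 b2' b3' q1' q2' 0 e1' F2 F3 G1 G2 R1]) : False := by
  have h1 := sub3 hT (N := x • (J432 k * B432 1 a1 a2 c0 c1 0 b2 b3 q1 q2 0 e1 f2 f3 g1 g2 r1) +
    (y - x * a1) • (J432 k * (J432 k * B432 1 a1 a2 c0 c1 0 b2 b3 q1 q2 0 e1 f2 f3 g1 g2 r1))) (fun D =>
      add_mem (SMulMemClass.smul_mem _ (mul_mem (m0 _ _ _) (m1 _ _ _)))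
        (SMulMemClass.smul_mem _ (mul_mem (m0 _ _ _) (mul_mem (m0 _ _ _) (m1 _ _ _)))))
  rw [JB, JB, smulB, smulB, addB, subB] at h1
  have e1_ : x - (x * 1 + (y - x * a1) * 0) = 0 := by ring
  have e2_ : y - (x * a1 + (y - x * a1) * 1) = 0 := by ring
  simp only [mul_zero, add_zero, sub_zero] at h1 e1_ e2_
  rw [e1_, e2_] at h1
  have h2 := conj3 h1 (Pm_mul a1 a2 c0 c1) (Pm_J _ _ _ _) (Pm_B _ _ _ _ _ _ _ _ _ _ _ _ _ _)
    (Pm_C _ _ _ _ _ _ _ _ _ _ _ _ _ _ _ _)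
  exact caseA2n hρ h2

/-! ### `a0 = 1`, `a0' = 0` -/

theorem caseA [IsAlgClosed k] {a1 a2 c0 c1 b1 b2 b3 q1 q2 e0 e1 f2 f3 g1 g2 r1 x y z t b1' b2' b3' q1' q2' e0' e1' F2 F3 G1 G2 R1 : k}
    (hρ : ∀ i, ρ i = (J432 k ^ i).rank)
    (hT : MaxR ρ ![J432 k, B432 1 a1 a2 c0 c1 b1 b2 b3 q1 q2 e0 e1 f2 f3 g1 g2 r1,
      B432 0 x y z t b1' b2' b3' q1' q2' e0' e1' F2 F3 G1 G2 R1]) : False := by
  have hr := rel_of_cn hT.cn
  have p1 := half hρ hT (m0 _ _ _) (m1 _ _ _)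
  have p3 := add_mem (m1 (J432 k) (B432 1 a1 a2 c0 c1 b1 b2 b3 q1 q2 e0 e1 f2 f3 g1 g2 r1)
    (B432 0 x y z t b1' b2' b3' q1' q2' e0' e1' F2 F3 G1 G2 R1))
    (m2 (J432 k) (B432 1 a1 a2 c0 c1 b1 b2 b3 q1 q2 e0 e1 f2 f3 g1 g2 r1)
    (B432 0 x y z t b1' b2' b3' q1' q2' e0' e1' F2 F3 G1 G2 R1))
  rw [addB] at p3
  have p4 := half hρ hT (m0 _ _ _) p3
  obtain ⟨r1_, -, -, -, -, r6, -, -, -, -, -, -, -, -, -, r16⟩ := hr
  have k1 : b1 = 0 := by linear_combination p1.1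
  have k2 : b1' = 0 := by linear_combination r1_
  have k3 : e0' = 0 := by linear_combination r6
  subst k1 k2 k3
  by_cases he : e0 = 0
  · subst he
    exact caseA2 hρ hT
  · have k4 : g1 = 0 := (mul_eq_zero.1 p1.2).resolve_left he
    subst k4
    have k5 : G1 = 0 := by
      have : e0 * G1 = 0 := by linear_combination p4.2
      exact (mul_eq_zero.1 this).resolve_left he
    subst k5
    exact caseA1 hρ hT he

end T432

end Pool.Agent.Lib.D9
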