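import Pool.Agent.Lib.D9.T432P

/-!
# MP_5dcbc3_ag: type `(4, 3, 2)`: planar triples and the triples with `a0 = b1 = e0 = g1 = 0`
-/

namespace Pool.Agent.Lib.D9

open Matrix Pool.Agent.Lib.Q5dc Pool.Agent.Lib.D7

variable {k : Type*} [Field k]

namespace T432

/-! ### planar triples -/

theorem caseP [CharZero k] {ρ : ℕ → ℕ} (hρ : ∀ i, ρ i = (J432 k ^ i).rank)
    {a0 a1 a2 c0 c1 b1 b2 b3 q1 q2 e0 e1 f2 f3 g1 g2 r1 : k}
    (hT : MaxR ρ ![J432 k, B432 a0 a1 a2 c0 c1 b1 b2 b3 q1 q2 e0 e1 f2 f3 g1 g2 r1, 0]) : False := by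
  rw [← zeroB] at hT
  obtain ⟨s, hs, hT'⟩ := deform (a0 := fun s => a0 + s) (a1 := fun _ => a1) (a2 := fun _ => a2)
      (c0 := fun _ => c0) (c1 := fun _ => c1) (b1 := fun s => b1 + s) (b2 := fun _ => b2)
      (b3 := fun _ => b3) (q1 := fun _ => q1) (q2 := fun _ => q2) (e0 := fun _ => e0)
      (e1 := fun _ => e1) (f2 := fun _ => f2) (f3 := fun _ => f3) (g1 := fun _ => g1)
      (g2 := fun _ => g2) (r1 := fun _ => r1) (a0' := fun _ => 0) (a1' := fun _ => 0)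
      (a2' := fun _ => 0) (c0' := fun _ => 0) (c1' := fun _ => 0) (b1' := fun _ => 0)
      (b2' := fun _ => 0) (b3' := fun _ => 0) (q1' := fun _ => 0) (q2' := fun _ => 0)
      (e0' := fun _ => 0) (e1' := fun _ => 0) (f2' := fun _ => 0) (f3' := fun _ => 0)
      (g1' := fun _ => 0) (g2' := fun _ => 0) (r1' := fun _ => 0) hT (by
        show B432 (a0 + 0) _ _ _ _ (b1 + 0) _ _ _ _ _ _ _ _ _ _ _ = _
        rw [add_zero, add_zero]) rfl (by
        refine polyB ?_ ?_ ?_ ?_ ?_ ?_ ?_ ?_ ?_ ?_ ?_ ?_ ?_ ?_ ?_ ?_ ?_ <;>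
        repeat' first
          | exact D7.IsPoly.const _
          | exact D7.IsPoly.id
          | apply D7.IsPoly.add) (by
        refine polyB ?_ ?_ ?_ ?_ ?_ ?_ ?_ ?_ ?_ ?_ ?_ ?_ ?_ ?_ ?_ ?_ ?_ <;>
        exact D7.IsPoly.const _) (fun s => by simp [Rel])
      (Set.toFinite ({-a0, -b1} : Set k))
  have h1 : a0 + s ≠ 0 := fun h => hs (Or.inl (eq_neg_of_add_eq_zero_right h))
  have h2 : b1 + s ≠ 0 := fun h => hs (Or.inr (eq_neg_of_add_eq_zero_right h))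
  exact mul_ne_zero h1 h2 (half hρ hT' (m0 _ _ _) (m1 _ _ _)).1

/-! ### matrices commuting with a matrix with `a0 = b1 = e0 = g1 = 0` -/

/-- there is a matrix which commutes with the given one and has `a0`, `b1`, `e0` or `g1` nonzero -/
def Ex (a1 a2 c0 c1 b2 b3 q1 q2 e1 f2 f3 g2 r1 : k) : Prop :=
  ∃ n0 n1 n2 n3 n4 n5 n6 n7 n8 n9 n10 n11 n12 n13 n14 n15 n16 : k,
    Rel 0 a1 a2 c0 c1 0 b2 b3 q1 q2 0 e1 f2 f3 0 g2 r1
      n0 n1 n2 n3 n4 n5 n6 n7 n8 n9 n10 n11 n12 n13 n14 n15 n16 ∧ (n0 ≠ 0 ∨ n5 ≠ 0 ∨ n10 ≠ 0 ∨ n14 ≠ 0)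

theorem perp (p q : k) : ∃ x y : k, (x ≠ 0 ∨ y ≠ 0) ∧ x * p = y * q := by
  by_cases hq : q = 0
  · by_cases hp : p = 0
    · exact ⟨1, 0, Or.inl one_ne_zero, by rw [hp, hq, mul_zero, mul_zero]⟩
    · exact ⟨0, 1, Or.inr one_ne_zero, by rw [hq, zero_mul, mul_zero]⟩
  · exact ⟨q, p, Or.inl hq, mul_comm _ _⟩

/-- the case `c0 ≠ 0` -/
theorem ex2 {a1 a2 c0 c1 b2 b3 q1 q2 e1 f2 f3 g2 r1 : k} (hc : c0 ≠ 0)
    (hq : q1 * (q1 - r1) = c0 * f2) : Ex a1 a2 c0 c1 b2 b3 q1 q2 e1 f2 f3 g2 r1 := by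
  -- a solution with a free parameter
  have key : ∀ x y z8 z6 z11 : k,
      x * (b2 + e1 * q1 / c0) = y * (g2 + a1 * (q1 - r1) / c0) →
      q1 * z6 - z8 * b2 + q2 * ((q1 - r1) / c0 * y) - y * f3 +
        e1 * ((x * b2 - a1 * ((q1 - r1) / c0 * y)) / c0) - z11 * f2 = 0 → (x ≠ 0 ∨ y ≠ 0) →
      Ex a1 a2 c0 c1 b2 b3 q1 q2 e1 f2 f3 g2 r1 := by
    intro x y z8 z6 z11 h1 h2 h3
    refine ⟨x, 0, 0, 0, 0, (q1 - r1) / c0 * y, z6, 0, z8, 0, y, z11,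
      (x * b2 - a1 * ((q1 - r1) / c0 * y)) / c0,
      (x * b3 - a1 * z6 - a2 * ((q1 - r1) / c0 * y) -
        c1 * ((x * b2 - a1 * ((q1 - r1) / c0 * y)) / c0)) / c0, q1 / c0 * x,
      (x * q2 - a1 * z8 - c1 * (q1 / c0 * x)) / c0, (x * e1 - a1 * y) / c0, ?_, ?_⟩
    · have hf : f2 = q1 * (q1 - r1) / c0 := by rw [hq]; field_simp
      subst hf
      refine ⟨?_, ?_, ?_, ?_, ?_, ?_, ?_, ?_, ?_, ?_, ?_, ?_, ?_, ?_, ?_, ?_⟩
      · ring
      · field_simp; ring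
      · field_simp; ring
      · field_simp; ring
      · field_simp; ring
      · ring
      · field_simp; ring
      · field_simp; ring
      · linear_combination h2
      · ring
      · linear_combination h1
      · field_simp; ring
      · ring
      · linear_combination (-(q1 - r1) / c0) * h1
      · field_simp; ring
      · ring
    · rcases h3 with h3 | h3
      · exact Or.inl h3
      · exact Or.inr (Or.inr (Or.inl h3))
  obtain ⟨x, y, h0, h1⟩ := perp (b2 + e1 * q1 / c0) (g2 + a1 * (q1 - r1) / c0)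
  by_cases h2 : q1 = 0
  · by_cases h3 : b2 = 0
    · have h4 : f2 = 0 := by
        rw [h2, zero_mul] at hq
        exact (mul_eq_zero.1 hq.symm).resolve_left hc
      subst h2 h3 h4
      exact key 1 0 0 0 0 (by ring) (by ring) (Or.inl one_ne_zero)
    · refine key x y ((q1 * 0 + q2 * ((q1 - r1) / c0 * y) - y * f3 +
        e1 * ((x * b2 - a1 * ((q1 - r1) / c0 * y)) / c0)) / b2) 0 0 h1 ?_ h0
      field_simp
      ring
  · refine key x y 0 (-(q2 * ((q1 - r1) / c0 * y) - y * f3 +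
        e1 * ((x * b2 - a1 * ((q1 - r1) / c0 * y)) / c0)) / q1) 0 h1 ?_ h0
    field_simp
    ring

/-- the case `c0 = f2 = 0`, `q1 = r1 ≠ 0` -/
theorem ex3 {a1 a2 c1 b2 b3 q2 e1 f3 g2 r1 : k} (hr : r1 ≠ 0) :
    Ex a1 a2 0 c1 b2 b3 r1 q2 e1 0 f3 g2 r1 := by
  obtain ⟨x, y, h0, h1⟩ := perp g2 e1
  refine ⟨0, (c1 * y - a1 * x / r1 * g2) / r1, 0, a1 * x / r1, 0, 0,
    (x * f3 - e1 * (y * b2 / r1)) / r1, 0, 0, 0, x, 0, y * b2 / r1, 0, y, 0, 0, ?_, ?_⟩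
  · refine ⟨?_, ?_, ?_, ?_, ?_, ?_, ?_, ?_, ?_, ?_, ?_, ?_, ?_, ?_, ?_, ?_⟩
    · ring
    · ring
    · field_simp
      linear_combination (a1 * b2) * h1
    · ring
    · field_simp; ring
    · ring
    · field_simp; ring
    · ring
    · field_simp; ring
    · ring
    · linear_combination -h1
    · ring
    · ring
    · field_simp; ring
    · ring
    · ring
  · rcases h0 with h0 | h0
    · exact Or.inr (Or.inr (Or.inl h0))
    · exact Or.inr (Or.inr (Or.inr h0))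

/-- the case `c0 = f2 = q1 = r1 = 0` -/
theorem ex1 {a1 a2 c1 b2 b3 q2 e1 f3 g2 : k} : Ex a1 a2 0 c1 b2 b3 0 q2 e1 0 f3 g2 0 := by
  by_cases h : a1 ≠ 0 ∨ b2 ≠ 0 ∨ e1 ≠ 0 ∨ g2 ≠ 0
  · refine ⟨a1, a2, 0, c1, 0, b2, b3, 0, q2, 0, e1, 0, f3, 0, g2, 0, 0, ?_, h⟩
    refine ⟨?_, ?_, ?_, ?_, ?_, ?_, ?_, ?_, ?_, ?_, ?_, ?_, ?_, ?_, ?_, ?_⟩ <;> ring
  · push Not at h
    obtain ⟨rfl, rfl, rfl, rfl⟩ := h
    by_cases hq : q2 = 0
    · subst hq
      obtain ⟨x, y, h0, h1⟩ := perp b3 a2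
      refine ⟨x, 0, 0, 0, 0, y, 0, 0, 0, 0, 0, 0, 0, 0, 0, 0, 0, ?_, ?_⟩
      · refine ⟨?_, ?_, ?_, ?_, ?_, ?_, ?_, ?_, ?_, ?_, ?_, ?_, ?_, ?_, ?_, ?_⟩ <;>
          first | ring1 | linear_combination -h1
      · rcases h0 with h0 | h0
        · exact Or.inl h0
        · exact Or.inr (Or.inl h0)
    · obtain ⟨x, y, h0, h1⟩ := perp (b3 * c1) (a2 * f3)
      refine ⟨c1 * x / q2, 0, 0, 0, 0, y * f3 / q2, 0, 0, 0, 0, y, 0, 0, 0, x, 0, 0, ?_, ?_⟩
      · refine ⟨?_, ?_, ?_, ?_, ?_, ?_, ?_, ?_, ?_, ?_, ?_, ?_, ?_, ?_, ?_, ?_⟩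
        · ring
        · ring
        · field_simp
          linear_combination -h1
        · ring
        · field_simp; ring
        · ring
        · ring
        · ring
        · field_simp; ring
        · ring
        · ring
        · ring
        · ring
        · ring
        · ring
        · ring
      · rcases h0 with h0 | h0
        · exact Or.inr (Or.inr (Or.inr h0))
        · exact Or.inr (Or.inr (Or.inl h0))

/-! ### the deformation -/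

theorem rel_add {a0 a1 a2 c0 c1 b1 b2 b3 q1 q2 e0 e1 f2 f3 g1 g2 r1
      a0' a1' a2' c0' c1' b1' b2' b3' q1' q2' e0' e1' f2' f3' g1' g2' r1'
      n0 n1 n2 n3 n4 n5 n6 n7 n8 n9 n10 n11 n12 n13 n14 n15 n16 : k}
    (h : Rel a0 a1 a2 c0 c1 b1 b2 b3 q1 q2 e0 e1 f2 f3 g1 g2 r1
      a0' a1' a2' c0' c1' b1' b2' b3' q1' q2' e0' e1' f2' f3' g1' g2' r1')
    (h' : Rel a0 a1 a2 c0 c1 b1 b2 b3 q1 q2 e0 e1 f2 f3 g1 g2 r1
      n0 n1 n2 n3 n4 n5 n6 n7 n8 n9 n10 n11 n12 n13 n14 n15 n16) (s : k) :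
    Rel a0 a1 a2 c0 c1 b1 b2 b3 q1 q2 e0 e1 f2 f3 g1 g2 r1
      (a0' + s * n0) (a1' + s * n1) (a2' + s * n2) (c0' + s * n3) (c1' + s * n4) (b1' + s * n5) (b2' + s * n6) (b3' + s * n7) (q1' + s * n8) (q2' + s * n9) (e0' + s * n10) (e1' + s * n11) (f2' + s * n12) (f3' + s * n13) (g1' + s * n14) (g2' + s * n15) (r1' + s * n16) := by
  obtain ⟨h1, h2, h3, h4, h5, h6, h7, h8, h9, h10, h11, h12, h13, h14, h15, h16⟩ := h
  obtain ⟨k1, k2, k3, k4, k5, k6, k7, k8, k9, k10, k11, k12, k13, k14, k15, k16⟩ := h'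
  refine ⟨?_, ?_, ?_, ?_, ?_, ?_, ?_, ?_, ?_, ?_, ?_, ?_, ?_, ?_, ?_, ?_⟩
  · linear_combination h1 + s * k1
  · linear_combination h2 + s * k2
  · linear_combination h3 + s * k3
  · linear_combination h4 + s * k4
  · linear_combination h5 + s * k5
  · linear_combination h6 + s * k6
  · linear_combination h7 + s * k7
  · linear_combination h8 + s * k8
  · linear_combination h9 + s * k9
  · linear_combination h10 + s * k10
  · linear_combination h11 + s * k11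
  · linear_combination h12 + s * k12
  · linear_combination h13 + s * k13
  · linear_combination h14 + s * k14
  · linear_combination h15 + s * k15
  · linear_combination h16 + s * k16

/-- the triples with a matrix commuting with the second matrix and `a0`, `b1`, `e0` or `g1`
nonzero -/
theorem step [CharZero k] {ρ : ℕ → ℕ}
    (hH : ∀ {a0 a1 a2 c0 c1 b1 b2 b3 q1 q2 e0 e1 f2 f3 g1 g2 r1
      a0' a1' a2' c0' c1' b1' b2' b3' q1' q2' e0' e1' f2' f3' g1' g2' r1' : k},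
      MaxR ρ ![J432 k, B432 a0 a1 a2 c0 c1 b1 b2 b3 q1 q2 e0 e1 f2 f3 g1 g2 r1,
        B432 a0' a1' a2' c0' c1' b1' b2' b3' q1' q2' e0' e1' f2' f3' g1' g2' r1'] →
      a0 ≠ 0 ∨ b1 ≠ 0 ∨ e0 ≠ 0 ∨ g1 ≠ 0 → False)
    {a1 a2 c0 c1 b2 b3 q1 q2 e1 f2 f3 g2 r1
      a1' a2' c0' c1' b2' b3' q1' q2' e1' f2' f3' g2' r1' : k}
    (hT : MaxR ρ ![J432 k, B432 0 a1 a2 c0 c1 0 b2 b3 q1 q2 0 e1 f2 f3 0 g2 r1,
      B432 0 a1' a2' c0' c1' 0 b2' b3' q1' q2' 0 e1' f2' f3' 0 g2' r1'])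
    (h : Ex a1 a2 c0 c1 b2 b3 q1 q2 e1 f2 f3 g2 r1) : False := by
  obtain ⟨n0, n1, n2, n3, n4, n5, n6, n7, n8, n9, n10, n11, n12, n13, n14, n15, n16, hn, hn0⟩ := h
  have hr := rel_of_cn hT.cn
  obtain ⟨s, hs, hT'⟩ := deform (a0 := fun _ => 0) (a1 := fun _ => a1) (a2 := fun _ => a2)
      (c0 := fun _ => c0) (c1 := fun _ => c1) (b1 := fun _ => 0) (b2 := fun _ => b2)
      (b3 := fun _ => b3) (q1 := fun _ => q1) (q2 := fun _ => q2) (e0 := fun _ => 0)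
      (e1 := fun _ => e1) (f2 := fun _ => f2) (f3 := fun _ => f3) (g1 := fun _ => 0)
      (g2 := fun _ => g2) (r1 := fun _ => r1) (a0' := fun s => 0 + s * n0)
      (a1' := fun s => a1' + s * n1)
      (a2' := fun s => a2' + s * n2) (c0' := fun s => c0' + s * n3) (c1' := fun s => c1' + s * n4)
      (b1' := fun s => 0 + s * n5)
      (b2' := fun s => b2' + s * n6) (b3' := fun s => b3' + s * n7) (q1' := fun s => q1' + s * n8)
      (q2' := fun s => q2' + s * n9)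
      (e0' := fun s => 0 + s * n10) (e1' := fun s => e1' + s * n11) (f2' := fun s => f2' + s * n12)
      (f3' := fun s => f3' + s * n13)
      (g1' := fun s => 0 + s * n14) (g2' := fun s => g2' + s * n15) (r1' := fun s => r1' + s * n16)
      hT rfl (by simp only [zero_mul, add_zero]) (by
        refine polyB ?_ ?_ ?_ ?_ ?_ ?_ ?_ ?_ ?_ ?_ ?_ ?_ ?_ ?_ ?_ ?_ ?_ <;>
        exact D7.IsPoly.const _) (by
        refine polyB ?_ ?_ ?_ ?_ ?_ ?_ ?_ ?_ ?_ ?_ ?_ ?_ ?_ ?_ ?_ ?_ ?_ <;>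
        exact (D7.IsPoly.const _).add (D7.IsPoly.id.mul (D7.IsPoly.const _)))
      (fun s => rel_add hr hn s) (Set.finite_singleton (0 : k))
  have hs0 : s ≠ 0 := hs
  refine hH (swap hT') ?_
  rcases hn0 with h | h | h | h
  · exact Or.inl (by simpa using mul_ne_zero hs0 h)
  · exact Or.inr (Or.inl (by simpa using mul_ne_zero hs0 h))
  · exact Or.inr (Or.inr (Or.inl (by simpa using mul_ne_zero hs0 h)))
  · exact Or.inr (Or.inr (Or.inr (by simpa using mul_ne_zero hs0 h)))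

theorem quad_root [IsAlgClosed k] [CharZero k] (a b c : k) :
    ∃ x y : k, (x ≠ 0 ∨ y ≠ 0) ∧ a * x ^ 2 + b * x * y + c * y ^ 2 = 0 := by
  by_cases ha : a = 0
  · exact ⟨1, 0, Or.inl one_ne_zero, by rw [ha]; ring⟩
  · obtain ⟨z, hz⟩ := IsAlgClosed.exists_pow_nat_eq (b ^ 2 - 4 * a * c) two_pos
    refine ⟨-b + z, 2 * a, Or.inr (mul_ne_zero two_ne_zero ha), ?_⟩
    linear_combination a * hz

/-- the case where `c0` or `f2` does not vanish on the pencil -/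
theorem caseB0a [CharZero k] {ρ : ℕ → ℕ}
    (hH : ∀ {a0 a1 a2 c0 c1 b1 b2 b3 q1 q2 e0 e1 f2 f3 g1 g2 r1
      a0' a1' a2' c0' c1' b1' b2' b3' q1' q2' e0' e1' f2' f3' g1' g2' r1' : k},
      MaxR ρ ![J432 k, B432 a0 a1 a2 c0 c1 b1 b2 b3 q1 q2 e0 e1 f2 f3 g1 g2 r1,
        B432 a0' a1' a2' c0' c1' b1' b2' b3' q1' q2' e0' e1' f2' f3' g1' g2' r1'] →
      a0 ≠ 0 ∨ b1 ≠ 0 ∨ e0 ≠ 0 ∨ g1 ≠ 0 → False)
    {a1 a2 c0 c1 b2 b3 q1 q2 e1 f2 f3 g2 r1
      a1' a2' c0' c1' b2' b3' q1' q2' e1' f2' f3' g2' r1' : k}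
    (hT : MaxR ρ ![J432 k, B432 0 a1 a2 c0 c1 0 b2 b3 q1 q2 0 e1 f2 f3 0 g2 r1,
      B432 0 a1' a2' c0' c1' 0 b2' b3' q1' q2' 0 e1' f2' f3' 0 g2' r1'])
    (hq : q1 * (q1 - r1) = c0 * f2)
    (h : c0 ≠ 0 ∨ c0' ≠ 0 ∨ f2 ≠ 0 ∨ f2' ≠ 0) : False := by
  by_cases h1 : c0 = 0
  · by_cases h2 : f2 = 0
    · subst h1 h2
      obtain ⟨-, -, -, -, -, -, r7, -, -, -, -, -, -, r14, -, -⟩ := rel_of_cn hT.cn
      have h3 : r1 * c0' = 0 := by linear_combination -r7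
      have h4 : r1 * f2' = 0 := by linear_combination r14
      have h5 : r1 = 0 := by
        rcases h with h | h | h | h
        · exact absurd rfl h
        · exact (mul_eq_zero.1 h3).resolve_right h
        · exact absurd rfl h
        · exact (mul_eq_zero.1 h4).resolve_right h
      subst h5
      have h6 : q1 = 0 := by
        have : q1 ^ 2 = 0 := by linear_combination hq
        exact pow_eq_zero_iff two_ne_zero |>.1 this
      subst h6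
      exact step hH hT ex1
    · exact step hH (dual hT) (ex2 h2 (by linear_combination hq))
  · exact step hH hT (ex2 h1 hq)

/-- the triples with `a0 = b1 = e0 = g1 = 0` -/
theorem caseB0 [IsAlgClosed k] [CharZero k] {ρ : ℕ → ℕ}
    (hH : ∀ {a0 a1 a2 c0 c1 b1 b2 b3 q1 q2 e0 e1 f2 f3 g1 g2 r1
      a0' a1' a2' c0' c1' b1' b2' b3' q1' q2' e0' e1' f2' f3' g1' g2' r1' : k},
      MaxR ρ ![J432 k, B432 a0 a1 a2 c0 c1 b1 b2 b3 q1 q2 e0 e1 f2 f3 g1 g2 r1,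
        B432 a0' a1' a2' c0' c1' b1' b2' b3' q1' q2' e0' e1' f2' f3' g1' g2' r1'] →
      a0 ≠ 0 ∨ b1 ≠ 0 ∨ e0 ≠ 0 ∨ g1 ≠ 0 → False)
    {a1 a2 c0 c1 b2 b3 q1 q2 e1 f2 f3 g2 r1
      a1' a2' c0' c1' b2' b3' q1' q2' e1' f2' f3' g2' r1' : k}
    (hT : MaxR ρ ![J432 k, B432 0 a1 a2 c0 c1 0 b2 b3 q1 q2 0 e1 f2 f3 0 g2 r1,
      B432 0 a1' a2' c0' c1' 0 b2' b3' q1' q2' 0 e1' f2' f3' 0 g2' r1']) : False := by
  -- change of the pencil
  have key : ∀ x y : k, (x ≠ 0 ∨ y ≠ 0) → ∃ z t : k, x * t - y * z ≠ 0 := by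
    intro x y h
    rcases h with h | h
    · exact ⟨0, 1, by simpa using h⟩
    · exact ⟨-1, 0, by simpa using h⟩
  by_cases h : c0 ≠ 0 ∨ c0' ≠ 0 ∨ f2 ≠ 0 ∨ f2' ≠ 0
  · obtain ⟨x, y, hxy, h1⟩ := quad_root (q1 * (q1 - r1) - c0 * f2)
      (q1 * (q1' - r1') + q1' * (q1 - r1) - c0 * f2' - c0' * f2) (q1' * (q1' - r1') - c0' * f2')
    obtain ⟨z, t, hd⟩ := key x y hxy
    have hT' := gl2 hT hd
    simp only [smulB, addB, mul_zero, add_zero] at hT'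
    refine caseB0a hH hT' (by linear_combination h1) ?_
    by_contra h2
    push Not at h2
    obtain ⟨h3, h4, h5, h6⟩ := h2
    have e1 : (x * t - y * z) * c0 = 0 := by linear_combination t * h3 - y * h4
    have e2 : (x * t - y * z) * c0' = 0 := by linear_combination x * h4 - z * h3
    have e3 : (x * t - y * z) * f2 = 0 := by linear_combination t * h5 - y * h6
    have e4 : (x * t - y * z) * f2' = 0 := by linear_combination x * h6 - z * h5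
    rcases h with h | h | h | h
    · exact h ((mul_eq_zero.1 e1).resolve_left hd)
    · exact h ((mul_eq_zero.1 e2).resolve_left hd)
    · exact h ((mul_eq_zero.1 e3).resolve_left hd)
    · exact h ((mul_eq_zero.1 e4).resolve_left hd)
  · push Not at h
    obtain ⟨rfl, rfl, rfl, rfl⟩ := h
    obtain ⟨x, y', hxy, h1⟩ := perp (q1 - r1) (q1' - r1')
    obtain ⟨y, rfl⟩ : ∃ y, y' = -y := ⟨-y', by rw [neg_neg]⟩
    obtain ⟨z, t, hd⟩ := key x y (hxy.imp_right fun h h' => h (by rw [h', neg_zero]))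
    have hT' := gl2 hT hd
    simp only [smulB, addB, mul_zero, add_zero] at hT'
    have h2 : x * q1 + y * q1' = x * r1 + y * r1' := by linear_combination h1
    rw [h2] at hT'
    by_cases h3 : x * r1 + y * r1' = 0
    · rw [h3] at hT'
      exact step hH hT' ex1
    · exact step hH hT' (ex3 h3)

end T432

end Pool.Agent.Lib.D9
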