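import Pool.Agent.Lib.D9.T432S
import Pool.Agent.Lib.D9.CycAx

/-!
# MP_5dcbc3_ag: Jordan type `(4, 3, 2)`, case (alpha): identities
-/

namespace Pool.Agent.Lib.D9

open Matrix Polynomial Pool.Agent.Lib.Q5dc Pool.Agent.Lib.D7 Pool.Agent.Lib.D8

namespace T432C

/-! ### identities in a commutative ring -/

section ring

variable {R : Type*} [CommRing R]

/-- the product of two linear forms, `y3` is the third root -/
theorem prod_ne {a b c b3 q1 q2 e1 f3 g1 g2 r1 F3 G1 G2 R1 y1 y2 y3 : R}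
    (hbb : b * b = (r1 * (r1 - q1) + e1 * (g1 - R1)) * a ^ 2 + b3 * a ^ 3 + q1 * (a * b) +
      q2 * (a ^ 2 * b) + e1 * (a * c))
    (hbc : b * c = (e1 * G1 - r1 * g1) * a ^ 2 + f3 * a ^ 3 + g1 * (a * b) +
      g2 * (a ^ 2 * b) + r1 * (a * c))
    (hcc : c * c = (g1 ^ 2 + r1 * G1 - q1 * G1 - R1 * g1) * a ^ 2 + F3 * a ^ 3 + G1 * (a * b) +
      G2 * (a ^ 2 * b) + R1 * (a * c))
    (hq : q1 = y1 + y2 + y3 - r1) (hG : e1 ^ 2 * G1 = (y1 - r1) * (y2 - r1) * (y3 - r1))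
    (hR : e1 * R1 = r1 ^ 2 - 2 * r1 * q1 + 2 * e1 * g1 + (y1 * y2 + y1 * y3 + y2 * y3)) :
    (e1 * c + (y1 - r1) * b + ((y1 - q1) * (y1 - r1) - e1 * g1) * a) *
      (e1 * c + (y2 - r1) * b + ((y2 - q1) * (y2 - r1) - e1 * g1) * a) =
    (e1 ^ 2 * F3 + e1 * ((y1 - r1) + (y2 - r1)) * f3 + (y1 - r1) * (y2 - r1) * b3) * a ^ 3 +
      (e1 ^ 2 * G2 + e1 * ((y1 - r1) + (y2 - r1)) * g2 + (y1 - r1) * (y2 - r1) * q2) *
        (a ^ 2 * b) := by
  subst hq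
  linear_combination e1 ^ 2 * hcc + (e1 * ((y1 - r1) + (y2 - r1))) * hbc +
    ((y1 - r1) * (y2 - r1)) * hbb +
    ((r1 - (y1 + y2 + y3 - r1) + (y1 - r1) + (y2 - r1)) * a ^ 2 + a * b) * hG +
    ((-e1 * g1 - (y1 - r1) * (y2 - r1)) * a ^ 2 + e1 * (a * c)) * hR

theorem prod_eq {a b c b3 q1 q2 e1 f3 g1 g2 r1 F3 G1 G2 R1 y1 y2 y3 : R}
    (hbb : b * b = (r1 * (r1 - q1) + e1 * (g1 - R1)) * a ^ 2 + b3 * a ^ 3 + q1 * (a * b) +
      q2 * (a ^ 2 * b) + e1 * (a * c))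
    (hbc : b * c = (e1 * G1 - r1 * g1) * a ^ 2 + f3 * a ^ 3 + g1 * (a * b) +
      g2 * (a ^ 2 * b) + r1 * (a * c))
    (hcc : c * c = (g1 ^ 2 + r1 * G1 - q1 * G1 - R1 * g1) * a ^ 2 + F3 * a ^ 3 + G1 * (a * b) +
      G2 * (a ^ 2 * b) + R1 * (a * c))
    (hq : q1 = y1 + y2 + y3 - r1) (hG : e1 ^ 2 * G1 = (y1 - r1) * (y2 - r1) * (y3 - r1))
    (hR : e1 * R1 = r1 ^ 2 - 2 * r1 * q1 + 2 * e1 * g1 + (y1 * y2 + y1 * y3 + y2 * y3)) :
    (e1 * c + (y1 - r1) * b + ((y1 - q1) * (y1 - r1) - e1 * g1) * a) *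
      (e1 * c + (y1 - r1) * b + ((y1 - q1) * (y1 - r1) - e1 * g1) * a) =
    (e1 ^ 2 * F3 + e1 * ((y1 - r1) + (y1 - r1)) * f3 + (y1 - r1) * (y1 - r1) * b3) * a ^ 3 +
      (e1 ^ 2 * G2 + e1 * ((y1 - r1) + (y1 - r1)) * g2 + (y1 - r1) * (y1 - r1) * q2) *
        (a ^ 2 * b) +
      ((y1 - y2) * (y1 - y3)) *
        (a * (e1 * c + (y1 - r1) * b + ((y1 - q1) * (y1 - r1) - e1 * g1) * a)) := by
  subst hq
  linear_combination e1 ^ 2 * hcc + (e1 * ((y1 - r1) + (y1 - r1))) * hbc +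
    ((y1 - r1) * (y1 - r1)) * hbb +
    ((r1 - (y1 + y2 + y3 - r1) + (y1 - r1) + (y1 - r1)) * a ^ 2 + a * b) * hG +
    ((-e1 * g1 - (y1 - r1) * (y1 - r1)) * a ^ 2 + e1 * (a * c)) * hR

/-- `X_1 X_2 = 0` -/
theorem mul_axes {a E H l1 l2 l3 u1 v1 u2 v2 u3 v3 u11 v11 u22 v22 u33 v33 u12 v12 u13 v13 u23 v23
    d1 d2 d3 k12 k13 k21 k23 : R}
    (h1 : a ^ 2 * l1 = u1 * E + v1 * H) (h2 : a ^ 2 * l2 = u2 * E + v2 * H)
    (h3 : a ^ 2 * l3 = u3 * E + v3 * H)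
    (h11 : l1 * l1 = u11 * E + v11 * H + d1 * (a * l1))
    (h22 : l2 * l2 = u22 * E + v22 * H + d2 * (a * l2))
    (h33 : l3 * l3 = u33 * E + v33 * H + d3 * (a * l3))
    (h12 : l1 * l2 = u12 * E + v12 * H) (h13 : l1 * l3 = u13 * E + v13 * H)
    (h23 : l2 * l3 = u23 * E + v23 * H) (haE : a * E = 0) (haH : a * H = 0)
    (hE : k21 * d1 * u1 + k12 * d2 * u2 = -u12) (hH : k21 * d1 * v1 + k12 * d2 * v2 = -v12) :
    (l1 + k12 * (a * l2) + k13 * (a * l3)) * (l2 + k21 * (a * l1) + k23 * (a * l3)) = 0 := by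
  have z12 : a * (l1 * l2) = 0 := by rw [h12]; linear_combination u12 * haE + v12 * haH
  have z13 : a * (l1 * l3) = 0 := by rw [h13]; linear_combination u13 * haE + v13 * haH
  have z23 : a * (l2 * l3) = 0 := by rw [h23]; linear_combination u23 * haE + v23 * haH
  have q1 : a * (l1 * l1) = d1 * (u1 * E + v1 * H) := by
    rw [h11, ← h1]; linear_combination u11 * haE + v11 * haH
  have q2 : a * (l2 * l2) = d2 * (u2 * E + v2 * H) := by
    rw [h22, ← h2]; linear_combination u22 * haE + v22 * haH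
  have q3 : a * (a * (l3 * l3)) = 0 := by
    have : a * (l3 * l3) = d3 * (u3 * E + v3 * H) := by
      rw [h33, ← h3]; linear_combination u33 * haE + v33 * haH
    rw [this]; linear_combination d3 * u3 * haE + d3 * v3 * haH
  linear_combination h12 + k21 * q1 + k12 * q2 + k23 * z13 + k13 * z23 + k12 * k21 * a * z12 +
    k12 * k23 * a * z23 + k13 * k21 * a * z13 + k13 * k23 * q3 + E * hE + H * hH

/-- `X_1 ^ 3` -/
theorem cube_axes {a E H l1 l2 l3 u1 v1 u2 v2 u3 v3 u11 v11 u22 v22 u33 v33 u12 v12 u13 v13 u23 v23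
    d1 d2 d3 k12 k13 : R}
    (h1 : a ^ 2 * l1 = u1 * E + v1 * H) (h2 : a ^ 2 * l2 = u2 * E + v2 * H)
    (h3 : a ^ 2 * l3 = u3 * E + v3 * H)
    (h11 : l1 * l1 = u11 * E + v11 * H + d1 * (a * l1))
    (h22 : l2 * l2 = u22 * E + v22 * H + d2 * (a * l2))
    (h33 : l3 * l3 = u33 * E + v33 * H + d3 * (a * l3))
    (h12 : l1 * l2 = u12 * E + v12 * H) (h13 : l1 * l3 = u13 * E + v13 * H)
    (h23 : l2 * l3 = u23 * E + v23 * H) (haE : a * E = 0) (haH : a * H = 0)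
    (hlE : l1 * E = 0) (hlH : l1 * H = 0) :
    (l1 + k12 * (a * l2) + k13 * (a * l3)) ^ 3 = d1 ^ 2 * (u1 * E + v1 * H) := by
  have z12 : a * (l1 * l2) = 0 := by rw [h12]; linear_combination u12 * haE + v12 * haH
  have z13 : a * (l1 * l3) = 0 := by rw [h13]; linear_combination u13 * haE + v13 * haH
  have z23 : a * (l2 * l3) = 0 := by rw [h23]; linear_combination u23 * haE + v23 * haH
  have q1 : a * (l1 * l1) = d1 * (u1 * E + v1 * H) := by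
    rw [h11, ← h1]; linear_combination u11 * haE + v11 * haH
  have q2 : a * (a * (l2 * l2)) = 0 := by
    have : a * (l2 * l2) = d2 * (u2 * E + v2 * H) := by
      rw [h22, ← h2]; linear_combination u22 * haE + v22 * haH
    rw [this]; linear_combination d2 * u2 * haE + d2 * v2 * haH
  have q3 : a * (a * (l3 * l3)) = 0 := by
    have : a * (l3 * l3) = d3 * (u3 * E + v3 * H) := by
      rw [h33, ← h3]; linear_combination u33 * haE + v33 * haH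
    rw [this]; linear_combination d3 * u3 * haE + d3 * v3 * haH
  have sq : (l1 + k12 * (a * l2) + k13 * (a * l3)) * (l1 + k12 * (a * l2) + k13 * (a * l3)) =
      u11 * E + v11 * H + d1 * (a * l1) := by
    linear_combination h11 + 2 * k12 * z12 + 2 * k13 * z13 + k12 ^ 2 * q2 + k13 ^ 2 * q3 +
      2 * k12 * k13 * a * z23
  have e : (l1 + k12 * (a * l2) + k13 * (a * l3)) ^ 3 =
      (l1 + k12 * (a * l2) + k13 * (a * l3)) * ((l1 + k12 * (a * l2) + k13 * (a * l3)) *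
        (l1 + k12 * (a * l2) + k13 * (a * l3))) := by ring
  rw [e, sq]
  linear_combination u11 * hlE + v11 * hlH + d1 * q1 + k12 * l2 * (u11 * haE + v11 * haH) +
    k13 * l3 * (u11 * haE + v11 * haH) + k12 * d1 * a * z12 + k13 * d1 * a * z13

end ring

/-! ### scalars -/

section scalar

variable {k : Type*} [Field k]

theorem solve2 {u1 v1 u2 v2 : k} (h : u1 * v2 - u2 * v1 ≠ 0) (x y : k) :
    ∃ p q : k, p * u1 + q * u2 = -x ∧ p * v1 + q * v2 = -y := by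
  obtain ⟨w, hw⟩ : ∃ w, w = u1 * v2 - u2 * v1 := ⟨_, rfl⟩
  rw [← hw] at h
  refine ⟨-(x * v2 - y * u2) / w, (x * v1 - y * u1) / w, ?_, ?_⟩
  · field_simp
    linear_combination x * hw
  · field_simp
    linear_combination y * hw

theorem exists_cubic [IsAlgClosed k] (p q r : k) :
    ∃ a : k, a ^ 3 = r * a ^ 2 + q * a + p := by
  obtain ⟨a, ha⟩ := IsAlgClosed.exists_root
    (Polynomial.X ^ 3 - (Polynomial.C r * Polynomial.X ^ 2 + Polynomial.C q * Polynomial.X +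
      Polynomial.C p)) (by
      have : (Polynomial.X ^ 3 - (Polynomial.C r * Polynomial.X ^ 2 +
          Polynomial.C q * Polynomial.X + Polynomial.C p)).degree = 3 := by compute_degree!
      rw [this]
      norm_num)
  refine ⟨a, ?_⟩
  rw [Polynomial.IsRoot.def] at ha
  simp only [Polynomial.eval_sub, Polynomial.eval_pow, Polynomial.eval_X, Polynomial.eval_add,
    Polynomial.eval_mul, Polynomial.eval_C] at ha
  linear_combination ha

theorem exists_quad [IsAlgClosed k] (q r : k) : ∃ a : k, a ^ 2 = r * a + q := by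
  obtain ⟨a, ha⟩ := IsAlgClosed.exists_root
    (Polynomial.X ^ 2 - (Polynomial.C r * Polynomial.X + Polynomial.C q)) (by
      have : (Polynomial.X ^ 2 - (Polynomial.C r * Polynomial.X + Polynomial.C q)).degree = 2 := by
        compute_degree!
      rw [this]
      norm_num)
  refine ⟨a, ?_⟩
  rw [Polynomial.IsRoot.def] at ha
  simp only [Polynomial.eval_sub, Polynomial.eval_pow, Polynomial.eval_X, Polynomial.eval_add,
    Polynomial.eval_mul, Polynomial.eval_C] at ha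
  linear_combination ha

theorem exists_roots3 [IsAlgClosed k] (s1 s2 s3 : k) : ∃ y1 y2 y3 : k, y1 + y2 + y3 = s1 ∧
    y1 * y2 + y1 * y3 + y2 * y3 = s2 ∧ y1 * y2 * y3 = s3 := by
  obtain ⟨a, ha⟩ := exists_cubic s3 (-s2) s1
  obtain ⟨b, hb⟩ := exists_quad (-s2 + s1 * a - a ^ 2) (s1 - a)
  refine ⟨a, b, s1 - a - b, by ring, ?_, ?_⟩
  · linear_combination -hb
  · linear_combination ha - a * hb

/-- quadratic polynomials have finitely many zeros -/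
theorem quad_finite (x y : k) {z : k} (hz : z ≠ 0) :
    {s : k | x + s * y + s ^ 2 * z = 0}.Finite := by
  have hp0 : (C x + X * C y + X ^ 2 * C z : k[X]) ≠ 0 := by
    intro h
    have h2 := congrArg (fun p => coeff p 2) h
    simp at h2
    exact hz h2
  refine (Polynomial.finite_setOfPred_isRoot hp0).subset fun s hs => ?_
  have h2 : x + s * y + s ^ 2 * z = 0 := hs
  rw [Set.mem_ofPred_eq, Polynomial.IsRoot.def]
  simp only [Polynomial.eval_add, Polynomial.eval_C, Polynomial.eval_mul, Polynomial.eval_X,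
    Polynomial.eval_pow]
  exact h2

theorem lin_finite (x : k) {y : k} (hy : y ≠ 0) : {s : k | x + s * y = 0}.Finite := by
  refine (Set.finite_singleton (-x / y)).subset fun s hs => ?_
  rw [Set.mem_singleton_iff]
  have h2 : x + s * y = 0 := hs
  field_simp
  linear_combination h2

end scalar

/-! ### the relations of the algebra -/

section mat

variable {k : Type*} [Field k]

/-- the first matrix -/
def Bm (r1 g1 q1 e1 G1 R1 b3 q2 f3 g2 : k) : Matrix (Fin 9) (Fin 9) k :=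
  B432 1 0 0 0 0 0 (r1 * (r1 - q1) + e1 * (g1 - R1)) b3 q1 q2 0 e1 (e1 * G1 - r1 * g1) f3 g1 g2 r1

/-- the second matrix -/
def Cm (r1 g1 q1 e1 G1 R1 f3 g2 F3 G2 : k) : Matrix (Fin 9) (Fin 9) k :=
  B432 0 0 0 1 0 0 (e1 * G1 - r1 * g1) f3 g1 g2 0 r1 (g1 ^ 2 + r1 * G1 - q1 * G1 - R1 * g1)
    F3 G1 G2 R1

theorem cn (r1 g1 q1 e1 G1 R1 b3 q2 f3 g2 F3 G2 : k) :
    CN ![J432 k, Bm r1 g1 q1 e1 G1 R1 b3 q2 f3 g2, Cm r1 g1 q1 e1 G1 R1 f3 g2 F3 G2] := by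
  refine T432.cnB ?_
  refine ⟨?_, ?_, ?_, ?_, ?_, ?_, ?_, ?_, ?_, ?_, ?_, ?_, ?_, ?_, ?_, ?_⟩ <;> ring

theorem relBB (r1 g1 q1 e1 G1 R1 b3 q2 f3 g2 F3 G2 : k) :
    Bm r1 g1 q1 e1 G1 R1 b3 q2 f3 g2 * Bm r1 g1 q1 e1 G1 R1 b3 q2 f3 g2 =
      (r1 * (r1 - q1) + e1 * (g1 - R1)) • J432 k ^ 2 + b3 • J432 k ^ 3 +
        q1 • (J432 k * Bm r1 g1 q1 e1 G1 R1 b3 q2 f3 g2) +
        q2 • (J432 k ^ 2 * Bm r1 g1 q1 e1 G1 R1 b3 q2 f3 g2) +
        e1 • (J432 k * Cm r1 g1 q1 e1 G1 R1 f3 g2 F3 G2) := by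
  have e2 : J432 k ^ 2 = J432 k * J432 k := pow_two _
  have e3 : J432 k ^ 3 = J432 k * J432 k * J432 k := by rw [pow_succ, pow_two]
  rw [e2, e3, mul_assoc (J432 k) (J432 k) (Bm r1 g1 q1 e1 G1 R1 b3 q2 f3 g2), Bm, Cm, T432.mulB,
    T432.JB, T432.JB, T432.JB, T432.J3, T432.J2]
  ext i j
  fin_cases i <;> fin_cases j <;> simp [B432] <;> ring

theorem relBC (r1 g1 q1 e1 G1 R1 b3 q2 f3 g2 F3 G2 : k) :
    Bm r1 g1 q1 e1 G1 R1 b3 q2 f3 g2 * Cm r1 g1 q1 e1 G1 R1 f3 g2 F3 G2 =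
      (e1 * G1 - r1 * g1) • J432 k ^ 2 + f3 • J432 k ^ 3 +
        g1 • (J432 k * Bm r1 g1 q1 e1 G1 R1 b3 q2 f3 g2) +
        g2 • (J432 k ^ 2 * Bm r1 g1 q1 e1 G1 R1 b3 q2 f3 g2) +
        r1 • (J432 k * Cm r1 g1 q1 e1 G1 R1 f3 g2 F3 G2) := by
  have e2 : J432 k ^ 2 = J432 k * J432 k := pow_two _
  have e3 : J432 k ^ 3 = J432 k * J432 k * J432 k := by rw [pow_succ, pow_two]
  rw [e2, e3, mul_assoc (J432 k) (J432 k) (Bm r1 g1 q1 e1 G1 R1 b3 q2 f3 g2), Bm, Cm, T432.mulB,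
    T432.JB, T432.JB, T432.JB, T432.J3, T432.J2]
  ext i j
  fin_cases i <;> fin_cases j <;> simp [B432] <;> ring

theorem relCC (r1 g1 q1 e1 G1 R1 b3 q2 f3 g2 F3 G2 : k) :
    Cm r1 g1 q1 e1 G1 R1 f3 g2 F3 G2 * Cm r1 g1 q1 e1 G1 R1 f3 g2 F3 G2 =
      (g1 ^ 2 + r1 * G1 - q1 * G1 - R1 * g1) • J432 k ^ 2 + F3 • J432 k ^ 3 +
        G1 • (J432 k * Bm r1 g1 q1 e1 G1 R1 b3 q2 f3 g2) +
        G2 • (J432 k ^ 2 * Bm r1 g1 q1 e1 G1 R1 b3 q2 f3 g2) +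
        R1 • (J432 k * Cm r1 g1 q1 e1 G1 R1 f3 g2 F3 G2) := by
  have e2 : J432 k ^ 2 = J432 k * J432 k := pow_two _
  have e3 : J432 k ^ 3 = J432 k * J432 k * J432 k := by rw [pow_succ, pow_two]
  rw [e2, e3, mul_assoc (J432 k) (J432 k) (Bm r1 g1 q1 e1 G1 R1 b3 q2 f3 g2), Bm, Cm, T432.mulB,
    T432.JB, T432.JB, T432.JB, T432.J3, T432.J2]
  ext i j
  fin_cases i <;> fin_cases j <;> simp [B432] <;> ring

theorem relJ (r1 g1 q1 e1 G1 R1 b3 q2 f3 g2 F3 G2 : k) :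
    J432 k ^ 3 * Bm r1 g1 q1 e1 G1 R1 b3 q2 f3 g2 = 0 ∧
      J432 k ^ 2 * Cm r1 g1 q1 e1 G1 R1 f3 g2 F3 G2 = 0 := by
  have e2 : J432 k ^ 2 = J432 k * J432 k := pow_two _
  have e3 : J432 k ^ 3 = J432 k * (J432 k * J432 k) := by rw [pow_succ', pow_two]
  constructor
  · rw [e3, mul_assoc, mul_assoc, Bm, T432.JB, T432.JB, T432.JB, T432.zeroB]
  · rw [e2, mul_assoc, Cm, T432.JB, T432.JB, T432.zeroB]

/-- the first basis vector -/
def v0 (k : Type*) [Field k] : Fin 9 → k := Pi.single 0 1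

theorem cyc (r1 g1 q1 e1 G1 R1 b3 q2 f3 g2 F3 G2 : k) :
    Cyc ![J432 k, Bm r1 g1 q1 e1 G1 R1 b3 q2 f3 g2, Cm r1 g1 q1 e1 G1 R1 f3 g2 F3 G2] (v0 k) := by
  intro S hv hS
  have hJ : ∀ w ∈ S, J432 k *ᵥ w ∈ S := hS 0
  have hB : ∀ w ∈ S, Bm r1 g1 q1 e1 G1 R1 b3 q2 f3 g2 *ᵥ w ∈ S := hS 1
  have hC : ∀ w ∈ S, Cm r1 g1 q1 e1 G1 R1 f3 g2 F3 G2 *ᵥ w ∈ S := hS 2
  have h0 : (Pi.single 0 1 : Fin 9 → k) ∈ S := hv
  have step : ∀ (M : Matrix (Fin 9) (Fin 9) k) (i j : Fin 9), (∀ w ∈ S, M *ᵥ w ∈ S) →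
      (Pi.single i 1 : Fin 9 → k) ∈ S → (∀ l, M l i = (Pi.single j 1 : Fin 9 → k) l) →
      (Pi.single j 1 : Fin 9 → k) ∈ S := by
    intro M i j hM hi h
    have h1 := hM _ hi
    rw [Matrix.mulVec_single_one] at h1
    have h2 : M.col i = Pi.single j 1 := funext h
    rwa [h2] at h1
  have h1 := step _ 0 1 hJ h0 (by intro l; fin_cases l <;> simp [J432])
  have h2 := step _ 1 2 hJ h1 (by intro l; fin_cases l <;> simp [J432])
  have h3 := step _ 2 3 hJ h2 (by intro l; fin_cases l <;> simp [J432])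
  have h4 := step _ 0 4 hB h0 (by intro l; fin_cases l <;> simp [Bm, B432])
  have h5 := step _ 4 5 hJ h4 (by intro l; fin_cases l <;> simp [J432])
  have h6 := step _ 5 6 hJ h5 (by intro l; fin_cases l <;> simp [J432])
  have h7 := step _ 0 7 hC h0 (by intro l; fin_cases l <;> simp [Cm, B432])
  have h8 := step _ 7 8 hJ h7 (by intro l; fin_cases l <;> simp [J432])
  rw [eq_top_iff]
  intro w _
  have hw : w = ∑ i : Fin 9, w i • (Pi.single i 1 : Fin 9 → k) := by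
    funext j
    rw [Finset.sum_apply, Finset.sum_eq_single j]
    · simp
    · intro i _ hij
      simp [Pi.single_eq_of_ne hij.symm]
    · intro h; exact absurd (Finset.mem_univ j) h
  rw [hw]
  refine Submodule.sum_mem _ fun i _ => Submodule.smul_mem _ _ ?_
  fin_cases i
  exacts [h0, h1, h2, h3, h4, h5, h6, h7, h8]

end mat

end T432C

end Pool.Agent.Lib.D9
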