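import Pool.Agent.Lib.D9.T432S

/-!
# MP_5dcbc3_ag: type `(4, 3, 2)`: changes, deformations, duality, planar triples
-/

namespace Pool.Agent.Lib.D9

open Matrix Pool.Agent.Lib.Q5dc Pool.Agent.Lib.D7

variable {k : Type*} [Field k]

namespace T432

/-! ### membership and changes -/

theorem m0 (A B C : Matrix (Fin 9) (Fin 9) k) : A ∈ adj ![A, B, C] := mem_adj ![A, B, C] 0

theorem m1 (A B C : Matrix (Fin 9) (Fin 9) k) : B ∈ adj ![A, B, C] := mem_adj ![A, B, C] 1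

theorem m2 (A B C : Matrix (Fin 9) (Fin 9) k) : C ∈ adj ![A, B, C] := mem_adj ![A, B, C] 2

theorem change3 {ρ : ℕ → ℕ} {A B C B' C' : Matrix (Fin 9) (Fin 9) k}
    (hT : MaxR ρ ![A, B, C]) (h1 : B' ∈ adj ![A, B, C]) (h2 : C' ∈ adj ![A, B, C])
    (h3 : B ∈ adj ![A, B', C']) (h4 : C ∈ adj ![A, B', C']) : MaxR ρ ![A, B', C'] := by
  refine hT.change (hT.cn.of_adj fun i => ?_) fun i => ?_
  · fin_cases i
    exacts [m0 _ _ _, h1, h2]
  · fin_cases i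
    exacts [m0 _ _ _, h3, h4]

theorem swap {ρ : ℕ → ℕ} {A B C : Matrix (Fin 9) (Fin 9) k} (hT : MaxR ρ ![A, B, C]) :
    MaxR ρ ![A, C, B] := change3 hT (m2 _ _ _) (m1 _ _ _) (m2 _ _ _) (m1 _ _ _)

/-- linear change of the second and the third matrix -/
theorem gl2 {ρ : ℕ → ℕ} {A B C : Matrix (Fin 9) (Fin 9) k} (hT : MaxR ρ ![A, B, C])
    {x y z t : k} (hd : x * t - y * z ≠ 0) :
    MaxR ρ ![A, x • B + y • C, z • B + t • C] := by
  have n1 := m1 A (x • B + y • C) (z • B + t • C)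
  have n2 := m2 A (x • B + y • C) (z • B + t • C)
  refine change3 hT (add_mem (SMulMemClass.smul_mem _ (m1 _ _ _))
    (SMulMemClass.smul_mem _ (m2 _ _ _))) (add_mem (SMulMemClass.smul_mem _ (m1 _ _ _))
    (SMulMemClass.smul_mem _ (m2 _ _ _))) ?_ ?_
  · have h := sub_mem (SMulMemClass.smul_mem (t / (x * t - y * z)) n1)
      (SMulMemClass.smul_mem (y / (x * t - y * z)) n2)
    have e : (t / (x * t - y * z)) • (x • B + y • C) -
        (y / (x * t - y * z)) • (z • B + t • C) = B := by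
      have e1 : (t / (x * t - y * z)) • (x • B + y • C) -
        (y / (x * t - y * z)) • (z • B + t • C) =
        ((t * x - y * z) / (x * t - y * z)) • B +
          ((t * y - y * t) / (x * t - y * z)) • C := by module
      rw [e1, mul_comm t x, div_self hd, mul_comm t y, sub_self, zero_div, one_smul, zero_smul,
        add_zero]
    rwa [e] at h
  · have h := sub_mem (SMulMemClass.smul_mem (x / (x * t - y * z)) n2)
      (SMulMemClass.smul_mem (z / (x * t - y * z)) n1)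
    have e : (x / (x * t - y * z)) • (z • B + t • C) -
        (z / (x * t - y * z)) • (x • B + y • C) = C := by
      have e1 : (x / (x * t - y * z)) • (z • B + t • C) -
        (z / (x * t - y * z)) • (x • B + y • C) =
        ((x * z - z * x) / (x * t - y * z)) • B +
          ((x * t - z * y) / (x * t - y * z)) • C := by module
      rw [e1, mul_comm z y, div_self hd, mul_comm x z, sub_self, zero_div, one_smul, zero_smul,
        zero_add]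
    rwa [e] at h

/-- subtract an element of the algebra generated by the first two matrices from the third -/
theorem sub3 {ρ : ℕ → ℕ} {A B C N : Matrix (Fin 9) (Fin 9) k} (hT : MaxR ρ ![A, B, C])
    (hN : ∀ D, N ∈ adj ![A, B, D]) : MaxR ρ ![A, B, C - N] := by
  refine change3 hT (m1 _ _ _) (sub_mem (m2 _ _ _) (hN _)) (m1 _ _ _) ?_
  have h := add_mem (m2 A B (C - N)) (hN _)
  rwa [sub_add_cancel] at h

theorem cl_sub3 {A B C N : Matrix (Fin 9) (Fin 9) k} (hN : ∀ D, N ∈ adj ![A, B, D])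
    (h : Cl ![A, B, C - N]) : Cl ![A, B, C] := by
  refine cl_of_adj (fun i => ?_) h
  fin_cases i
  · exact m0 _ _ _
  · exact m1 _ _ _
  · have h := add_mem (m2 A B (C - N)) (hN _)
    rwa [sub_add_cancel] at h

theorem conj3 {ρ : ℕ → ℕ} {A B C B' C' P Q : Matrix (Fin 9) (Fin 9) k}
    (hT : MaxR ρ ![A, B, C]) (hQ : Q * P = 1) (hA : A * P = P * A) (hB : B * P = P * B')
    (hC : C * P = P * C') : MaxR ρ ![A, B', C'] := by
  have h1 := hT.conj Q P hQ (mul_eq_one_comm.1 hQ)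
  have h2 : (fun i => Q * (![A, B, C] : Fin 3 → Matrix (Fin 9) (Fin 9) k) i * P) =
      ![A, B', C'] := by
    funext i
    fin_cases i
    · show Q * A * P = A
      rw [Matrix.mul_assoc, hA, ← Matrix.mul_assoc, hQ, Matrix.one_mul]
    · show Q * B * P = B'
      rw [Matrix.mul_assoc, hB, ← Matrix.mul_assoc, hQ, Matrix.one_mul]
    · show Q * C * P = C'
      rw [Matrix.mul_assoc, hC, ← Matrix.mul_assoc, hQ, Matrix.one_mul]
  rwa [h2] at h1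

/-! ### polynomial families -/

theorem divc {f : k → k} (hf : D7.IsPoly f) (a : k) : D7.IsPoly fun s => f s / a := by
  have h := hf.mul (D7.IsPoly.const a⁻¹)
  simpa only [div_eq_mul_inv] using h

theorem polyB {a0 a1 a2 c0 c1 b1 b2 b3 q1 q2 e0 e1 f2 f3 g1 g2 r1 : k → k}
    (h_a0 : D7.IsPoly a0)
    (h_a1 : D7.IsPoly a1)
    (h_a2 : D7.IsPoly a2)
    (h_c0 : D7.IsPoly c0)
    (h_c1 : D7.IsPoly c1)
    (h_b1 : D7.IsPoly b1)
    (h_b2 : D7.IsPoly b2)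
    (h_b3 : D7.IsPoly b3)
    (h_q1 : D7.IsPoly q1)
    (h_q2 : D7.IsPoly q2)
    (h_e0 : D7.IsPoly e0)
    (h_e1 : D7.IsPoly e1)
    (h_f2 : D7.IsPoly f2)
    (h_f3 : D7.IsPoly f3)
    (h_g1 : D7.IsPoly g1)
    (h_g2 : D7.IsPoly g2)
    (h_r1 : D7.IsPoly r1) (x y : Fin 9) :
    D7.IsPoly fun s => B432 (a0 s) (a1 s) (a2 s) (c0 s) (c1 s) (b1 s) (b2 s) (b3 s) (q1 s) (q2 s) (e0 s) (e1 s) (f2 s) (f3 s) (g1 s) (g2 s) (r1 s) x y := by
  have z : D7.IsPoly fun _ : k => (0 : k) := D7.IsPoly.const 0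
  fin_cases x <;> fin_cases y <;>
    first
    | exact z | exact h_a0 | exact h_a1 | exact h_a2 | exact h_c0 | exact h_c1 | exact h_b1 | exact h_b2 | exact h_b3 | exact h_q1 | exact h_q2 | exact h_e0 | exact h_e1 | exact h_f2 | exact h_f3 | exact h_g1 | exact h_g2 | exact h_r1

theorem deform [Infinite k] {ρ : ℕ → ℕ}
    {a0 a1 a2 c0 c1 b1 b2 b3 q1 q2 e0 e1 f2 f3 g1 g2 r1
      a0' a1' a2' c0' c1' b1' b2' b3' q1' q2' e0' e1' f2' f3' g1' g2' r1' : k → k}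
    {B C : Matrix (Fin 9) (Fin 9) k} (hT : MaxR ρ ![J432 k, B, C])
    (hB : B432 (a0 0) (a1 0) (a2 0) (c0 0) (c1 0) (b1 0) (b2 0) (b3 0) (q1 0) (q2 0) (e0 0) (e1 0) (f2 0) (f3 0) (g1 0) (g2 0) (r1 0) = B)
    (hC : B432 (a0' 0) (a1' 0) (a2' 0) (c0' 0) (c1' 0) (b1' 0) (b2' 0) (b3' 0) (q1' 0) (q2' 0) (e0' 0) (e1' 0) (f2' 0) (f3' 0) (g1' 0) (g2' 0) (r1' 0) = C)
    (hp : ∀ x y, D7.IsPoly fun s => B432 (a0 s) (a1 s) (a2 s) (c0 s) (c1 s) (b1 s) (b2 s) (b3 s) (q1 s) (q2 s) (e0 s) (e1 s) (f2 s) (f3 s) (g1 s) (g2 s) (r1 s) x y)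
    (hp' : ∀ x y, D7.IsPoly fun s => B432 (a0' s) (a1' s) (a2' s) (c0' s) (c1' s) (b1' s) (b2' s) (b3' s) (q1' s) (q2' s) (e0' s) (e1' s) (f2' s) (f3' s) (g1' s) (g2' s) (r1' s) x y)
    (hrel : ∀ s, Rel (a0 s) (a1 s) (a2 s) (c0 s) (c1 s) (b1 s) (b2 s) (b3 s) (q1 s) (q2 s) (e0 s) (e1 s) (f2 s) (f3 s) (g1 s) (g2 s) (r1 s)
      (a0' s) (a1' s) (a2' s) (c0' s) (c1' s) (b1' s) (b2' s) (b3' s) (q1' s) (q2' s) (e0' s) (e1' s) (f2' s) (f3' s) (g1' s) (g2' s) (r1' s))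
    {F : Set k} (hF : F.Finite) :
    ∃ s, s ∉ F ∧ MaxR ρ ![J432 k, B432 (a0 s) (a1 s) (a2 s) (c0 s) (c1 s) (b1 s) (b2 s) (b3 s) (q1 s) (q2 s) (e0 s) (e1 s) (f2 s) (f3 s) (g1 s) (g2 s) (r1 s),
      B432 (a0' s) (a1' s) (a2' s) (c0' s) (c1' s) (b1' s) (b2' s) (b3' s) (q1' s) (q2' s) (e0' s) (e1' s) (f2' s) (f3' s) (g1' s) (g2' s) (r1' s)] := by
  obtain ⟨E', hE', h⟩ := hT.deform (fun s => ![J432 k, B432 (a0 s) (a1 s) (a2 s) (c0 s) (c1 s) (b1 s) (b2 s) (b3 s) (q1 s) (q2 s) (e0 s) (e1 s) (f2 s) (f3 s) (g1 s) (g2 s) (r1 s),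
      B432 (a0' s) (a1' s) (a2' s) (c0' s) (c1' s) (b1' s) (b2' s) (b3' s) (q1' s) (q2' s) (e0' s) (e1' s) (f2' s) (f3' s) (g1' s) (g2' s) (r1' s)]) (by
      intro i x y
      fin_cases i
      · exact D7.IsPoly.const (J432 k x y)
      · exact hp x y
      · exact hp' x y) (by
      subst hB hC
      rfl) Set.finite_empty (fun s _ => cnB (hrel s))
  obtain ⟨s, hs⟩ := (hE'.union hF).infinite_compl.nonempty
  rw [Set.mem_compl_iff, Set.mem_union, not_or] at hs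
  exact ⟨s, hs.2, h s hs.1⟩

/-! ### the fourth power -/

theorem rho4 {ρ : ℕ → ℕ} (hρ : ∀ i, ρ i = (J432 k ^ i).rank) : ρ 4 = 0 := by
  rw [hρ, J4, Matrix.rank_zero]

theorem half [CharZero k] {ρ : ℕ → ℕ} (hρ : ∀ i, ρ i = (J432 k ^ i).rank)
    {T : Fin 3 → Matrix (Fin 9) (Fin 9) k} (hT : MaxR ρ T) (hA : J432 k ∈ adj T)
    {a0 a1 a2 c0 c1 b1 b2 b3 q1 q2 e0 e1 f2 f3 g1 g2 r1 : k}
    (hX : B432 a0 a1 a2 c0 c1 b1 b2 b3 q1 q2 e0 e1 f2 f3 g1 g2 r1 ∈ adj T) : a0 * b1 = 0 ∧ e0 * g1 = 0 := by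
  have h1 := hT.pow_eq_zero hX (rho4 hρ)
  have h2 := hT.pow_eq_zero (add_mem hA hX) (rho4 hρ)
  have h3 := hT.pow_eq_zero (sub_mem hX hA) (rho4 hρ)
  have hc : Commute (J432 k) (B432 a0 a1 a2 c0 c1 b1 b2 b3 q1 q2 e0 e1 f2 f3 g1 g2 r1) := hT.cn.comm hA hX
  have h4 : (J432 k * J432 k) * (B432 a0 a1 a2 c0 c1 b1 b2 b3 q1 q2 e0 e1 f2 f3 g1 g2 r1 * B432 a0 a1 a2 c0 c1 b1 b2 b3 q1 q2 e0 e1 f2 f3 g1 g2 r1) = 0 := by
    generalize B432 a0 a1 a2 c0 c1 b1 b2 b3 q1 q2 e0 e1 f2 f3 g1 g2 r1 = X at h1 h2 h3 hc ⊢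
    have e1 : (J432 k + X) ^ 4 = J432 k ^ 4 + (4 : k) • (J432 k ^ 3 * X) +
        (6 : k) • ((J432 k * J432 k) * (X * X)) + (4 : k) • (J432 k * X ^ 3) + X ^ 4 := by
      have h5 : X * J432 k = J432 k * X := hc.symm.eq
      have h6 : ∀ M : Matrix (Fin 9) (Fin 9) k, X * (J432 k * M) = J432 k * (X * M) := by
        intro M
        rw [← Matrix.mul_assoc, h5, Matrix.mul_assoc]
      simp only [pow_succ, pow_zero, one_mul, mul_add, add_mul, Matrix.mul_assoc, h5, h6]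
      module
    have e2 : (X - J432 k) ^ 4 = J432 k ^ 4 - (4 : k) • (J432 k ^ 3 * X) +
        (6 : k) • ((J432 k * J432 k) * (X * X)) - (4 : k) • (J432 k * X ^ 3) + X ^ 4 := by
      have h5 : X * J432 k = J432 k * X := hc.symm.eq
      have h6 : ∀ M : Matrix (Fin 9) (Fin 9) k, X * (J432 k * M) = J432 k * (X * M) := by
        intro M
        rw [← Matrix.mul_assoc, h5, Matrix.mul_assoc]
      simp only [pow_succ, pow_zero, one_mul, mul_sub, sub_mul, Matrix.mul_assoc, h5, h6]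
      module
    rw [h1, J4] at e1 e2
    rw [h2] at e1
    rw [h3] at e2
    have e3 : (12 : k) • ((J432 k * J432 k) * (X * X)) = 0 := by
      have : (12 : k) • ((J432 k * J432 k) * (X * X)) =
          (0 + (4 : k) • (J432 k ^ 3 * X) +
        (6 : k) • ((J432 k * J432 k) * (X * X)) + (4 : k) • (J432 k * X ^ 3) + 0) +
          (0 - (4 : k) • (J432 k ^ 3 * X) +
        (6 : k) • ((J432 k * J432 k) * (X * X)) - (4 : k) • (J432 k * X ^ 3) + 0) := by module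
      rw [this, ← e1, ← e2, add_zero]
    exact (smul_eq_zero.1 e3).resolve_left (by norm_num)
  rw [mulB, J2] at h4
  have h5 := congrFun (congrFun h4 3) 0
  have h6 : b1 * a0 = 0 := by
    simp [Matrix.mul_apply, Fin.sum_univ_succ] at h5
    rcases h5 with h5 | h5
    · rw [h5, zero_mul]
    · rw [h5, mul_zero]
  have e : B432 a0 a1 a2 c0 c1 b1 b2 b3 q1 q2 e0 e1 f2 f3 g1 g2 r1 ^ 4 = (B432 a0 a1 a2 c0 c1 b1 b2 b3 q1 q2 e0 e1 f2 f3 g1 g2 r1 * B432 a0 a1 a2 c0 c1 b1 b2 b3 q1 q2 e0 e1 f2 f3 g1 g2 r1) *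
      (B432 a0 a1 a2 c0 c1 b1 b2 b3 q1 q2 e0 e1 f2 f3 g1 g2 r1 * B432 a0 a1 a2 c0 c1 b1 b2 b3 q1 q2 e0 e1 f2 f3 g1 g2 r1) := by
    rw [pow_succ, pow_succ, pow_succ, pow_one]
    simp only [Matrix.mul_assoc]
  rw [e, mulB] at h1
  have h7 := congrFun (congrFun h1 6) 4
  have h9 : a0 * b1 + g1 * e0 = 0 := by
    simp [Matrix.mul_apply, Fin.sum_univ_succ] at h7
    exact h7
  exact ⟨by linear_combination h6, by linear_combination h9 - h6⟩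

/-! ### duality -/

/-- permutation matrix -/
def Sg (k : Type*) [Field k] : Matrix (Fin 9) (Fin 9) k :=
  !![0, 0, 0, 1, 0, 0, 0, 0, 0;
     0, 0, 1, 0, 0, 0, 0, 0, 0;
     0, 1, 0, 0, 0, 0, 0, 0, 0;
     1, 0, 0, 0, 0, 0, 0, 0, 0;
     0, 0, 0, 0, 0, 0, 1, 0, 0;
     0, 0, 0, 0, 0, 1, 0, 0, 0;
     0, 0, 0, 0, 1, 0, 0, 0, 0;
     0, 0, 0, 0, 0, 0, 0, 0, 1;
     0, 0, 0, 0, 0, 0, 0, 1, 0]

theorem Sg_mul : Sg k * Sg k = 1 := by
  ext i j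
  fin_cases i <;> fin_cases j <;>
    simp [Sg, Matrix.mul_apply, Fin.sum_univ_succ]

theorem Sg_J : (J432 k)ᵀ * Sg k = Sg k * J432 k := by
  ext i j
  fin_cases i <;> fin_cases j <;>
    simp [Sg, J432, Matrix.mul_apply, Fin.sum_univ_succ]

theorem Sg_B (a0 a1 a2 c0 c1 b1 b2 b3 q1 q2 e0 e1 f2 f3 g1 g2 r1 : k) :
    (B432 a0 a1 a2 c0 c1 b1 b2 b3 q1 q2 e0 e1 f2 f3 g1 g2 r1)ᵀ * Sg k =
      Sg k * B432 b1 b2 b3 f2 f3 a0 a1 a2 q1 q2 g1 g2 c0 c1 e0 e1 r1 := by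
  ext i j
  fin_cases i <;> fin_cases j <;>
    simp [Sg, B432, Matrix.mul_apply, Fin.sum_univ_succ]

theorem dual {ρ : ℕ → ℕ}
    {a0 a1 a2 c0 c1 b1 b2 b3 q1 q2 e0 e1 f2 f3 g1 g2 r1
      a0' a1' a2' c0' c1' b1' b2' b3' q1' q2' e0' e1' f2' f3' g1' g2' r1' : k}
    (hT : MaxR ρ ![J432 k, B432 a0 a1 a2 c0 c1 b1 b2 b3 q1 q2 e0 e1 f2 f3 g1 g2 r1,
      B432 a0' a1' a2' c0' c1' b1' b2' b3' q1' q2' e0' e1' f2' f3' g1' g2' r1']) :
    MaxR ρ ![J432 k, B432 b1 b2 b3 f2 f3 a0 a1 a2 q1 q2 g1 g2 c0 c1 e0 e1 r1,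
      B432 b1' b2' b3' f2' f3' a0' a1' a2' q1' q2' g1' g2' c0' c1' e0' e1' r1'] := by
  have h1 := hT.transpose.conj (Sg k) (Sg k) Sg_mul Sg_mul
  have h2 : (fun i => Sg k * ((![J432 k, B432 a0 a1 a2 c0 c1 b1 b2 b3 q1 q2 e0 e1 f2 f3 g1 g2 r1,
      B432 a0' a1' a2' c0' c1' b1' b2' b3' q1' q2' e0' e1' f2' f3' g1' g2' r1'] :
        Fin 3 → Matrix (Fin 9) (Fin 9) k) i)ᵀ * Sg k) =
      ![J432 k, B432 b1 b2 b3 f2 f3 a0 a1 a2 q1 q2 g1 g2 c0 c1 e0 e1 r1,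
      B432 b1' b2' b3' f2' f3' a0' a1' a2' q1' q2' g1' g2' c0' c1' e0' e1' r1'] := by
    funext i
    fin_cases i
    · show Sg k * (J432 k)ᵀ * Sg k = J432 k
      rw [Matrix.mul_assoc, Sg_J, ← Matrix.mul_assoc, Sg_mul, Matrix.one_mul]
    · show Sg k * (B432 a0 a1 a2 c0 c1 b1 b2 b3 q1 q2 e0 e1 f2 f3 g1 g2 r1)ᵀ * Sg k = _
      rw [Matrix.mul_assoc, Sg_B, ← Matrix.mul_assoc, Sg_mul, Matrix.one_mul]
      rfl
    · show Sg k * (B432 a0' a1' a2' c0' c1' b1' b2' b3' q1' q2' e0' e1' f2' f3' g1' g2' r1')ᵀ * Sg k = _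
      rw [Matrix.mul_assoc, Sg_B, ← Matrix.mul_assoc, Sg_mul, Matrix.one_mul]
      rfl
  rwa [h2] at h1

end T432

end Pool.Agent.Lib.D9
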