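import Pool.Agent.Lib.D7.Api
import Pool.Agent.Lib.D9.Defs

/-!
# MP_5dcbc3_ag: matrices commuting with the Jordan matrix of type `(4, 3, 2)`

Basis `v0, v1, v2, v3, u0, u1, u2, w0, w1` (indices `0 .. 8`).
-/

namespace Pool.Agent.Lib.D9

open Matrix Pool.Agent.Lib.Q5dc Pool.Agent.Lib.D7

variable {k : Type*} [Field k]

/-- `v0 -> a0 u0 + a1 u1 + a2 u2 + c0 w0 + c1 w1`,
`u0 -> b1 v1 + b2 v2 + b3 v3 + q1 u1 + q2 u2 + e0 w0 + e1 w1`,
`w0 -> f2 v2 + f3 v3 + g1 u1 + g2 u2 + r1 w1`, commuting with `J432` -/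
def B432 (a0 a1 a2 c0 c1 b1 b2 b3 q1 q2 e0 e1 f2 f3 g1 g2 r1 : k) :
    Matrix (Fin 9) (Fin 9) k :=
  !![0, 0, 0, 0, 0, 0, 0, 0, 0;
     0, 0, 0, 0, b1, 0, 0, 0, 0;
     0, 0, 0, 0, b2, b1, 0, f2, 0;
     0, 0, 0, 0, b3, b2, b1, f3, f2;
     a0, 0, 0, 0, 0, 0, 0, 0, 0;
     a1, a0, 0, 0, q1, 0, 0, g1, 0;
     a2, a1, a0, 0, q2, q1, 0, g2, g1;
     c0, 0, 0, 0, e0, 0, 0, 0, 0;
     c1, c0, 0, 0, e1, e0, 0, r1, 0]

namespace T432

theorem mulB (a0 a1 a2 c0 c1 b1 b2 b3 q1 q2 e0 e1 f2 f3 g1 g2 r1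
    a0' a1' a2' c0' c1' b1' b2' b3' q1' q2' e0' e1' f2' f3' g1' g2' r1' : k) :
    B432 a0 a1 a2 c0 c1 b1 b2 b3 q1 q2 e0 e1 f2 f3 g1 g2 r1 *
      B432 a0' a1' a2' c0' c1' b1' b2' b3' q1' q2' e0' e1' f2' f3' g1' g2' r1' =
    !![0, 0, 0, 0, 0, 0, 0, 0, 0;
       b1 * a0', 0, 0, 0, 0, 0, 0, 0, 0;
       b2 * a0' + b1 * a1' + f2 * c0', b1 * a0', 0, 0, b1 * q1' + f2 * e0', 0, 0, b1 * g1', 0;
       b3 * a0' + b2 * a1' + b1 * a2' + f3 * c0' + f2 * c1', b2 * a0' + b1 * a1' + f2 * c0', b1 * a0', 0, b2 * q1' + b1 * q2' + f3 * e0' + f2 * e1', b1 * q1' + f2 * e0', 0, b2 * g1' + b1 * g2' + f2 * r1', b1 * g1';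
       0, 0, 0, 0, 0, 0, 0, 0, 0;
       q1 * a0' + g1 * c0', 0, 0, 0, a0 * b1' + g1 * e0', 0, 0, 0, 0;
       q2 * a0' + q1 * a1' + g2 * c0' + g1 * c1', q1 * a0' + g1 * c0', 0, 0, a1 * b1' + a0 * b2' + q1 * q1' + g2 * e0' + g1 * e1', a0 * b1' + g1 * e0', 0, a0 * f2' + q1 * g1' + g1 * r1', 0;
       e0 * a0', 0, 0, 0, 0, 0, 0, 0, 0;
       e1 * a0' + e0 * a1' + r1 * c0', e0 * a0', 0, 0, c0 * b1' + e0 * q1' + r1 * e0', 0, 0, e0 * g1', 0] := by
  ext i j
  fin_cases i <;> fin_cases j <;>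
    simp [B432, Matrix.mul_apply, Fin.sum_univ_succ] <;> ring

theorem JB (a0 a1 a2 c0 c1 b1 b2 b3 q1 q2 e0 e1 f2 f3 g1 g2 r1 : k) :
    J432 k * B432 a0 a1 a2 c0 c1 b1 b2 b3 q1 q2 e0 e1 f2 f3 g1 g2 r1 =
      B432 0 a0 a1 0 c0 0 b1 b2 0 q1 0 e0 0 f2 0 g1 0 := by
  ext i j
  fin_cases i <;> fin_cases j <;>
    simp [B432, J432, Matrix.mul_apply, Fin.sum_univ_succ]

theorem BJ (a0 a1 a2 c0 c1 b1 b2 b3 q1 q2 e0 e1 f2 f3 g1 g2 r1 : k) :
    B432 a0 a1 a2 c0 c1 b1 b2 b3 q1 q2 e0 e1 f2 f3 g1 g2 r1 * J432 k =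
      B432 0 a0 a1 0 c0 0 b1 b2 0 q1 0 e0 0 f2 0 g1 0 := by
  ext i j
  fin_cases i <;> fin_cases j <;>
    simp [B432, J432, Matrix.mul_apply, Fin.sum_univ_succ]

theorem addB (a0 a1 a2 c0 c1 b1 b2 b3 q1 q2 e0 e1 f2 f3 g1 g2 r1
    a0' a1' a2' c0' c1' b1' b2' b3' q1' q2' e0' e1' f2' f3' g1' g2' r1' : k) :
    B432 a0 a1 a2 c0 c1 b1 b2 b3 q1 q2 e0 e1 f2 f3 g1 g2 r1 +
      B432 a0' a1' a2' c0' c1' b1' b2' b3' q1' q2' e0' e1' f2' f3' g1' g2' r1' =
    B432 (a0 + a0') (a1 + a1') (a2 + a2') (c0 + c0') (c1 + c1') (b1 + b1') (b2 + b2') (b3 + b3') (q1 + q1') (q2 + q2') (e0 + e0') (e1 + e1') (f2 + f2') (f3 + f3') (g1 + g1') (g2 + g2') (r1 + r1') := by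
  ext i j
  fin_cases i <;> fin_cases j <;> simp [B432]

theorem subB (a0 a1 a2 c0 c1 b1 b2 b3 q1 q2 e0 e1 f2 f3 g1 g2 r1
    a0' a1' a2' c0' c1' b1' b2' b3' q1' q2' e0' e1' f2' f3' g1' g2' r1' : k) :
    B432 a0 a1 a2 c0 c1 b1 b2 b3 q1 q2 e0 e1 f2 f3 g1 g2 r1 -
      B432 a0' a1' a2' c0' c1' b1' b2' b3' q1' q2' e0' e1' f2' f3' g1' g2' r1' =
    B432 (a0 - a0') (a1 - a1') (a2 - a2') (c0 - c0') (c1 - c1') (b1 - b1') (b2 - b2') (b3 - b3') (q1 - q1') (q2 - q2') (e0 - e0') (e1 - e1') (f2 - f2') (f3 - f3') (g1 - g1') (g2 - g2') (r1 - r1') := by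
  ext i j
  fin_cases i <;> fin_cases j <;> simp [B432]

theorem smulB (c a0 a1 a2 c0 c1 b1 b2 b3 q1 q2 e0 e1 f2 f3 g1 g2 r1 : k) :
    c • B432 a0 a1 a2 c0 c1 b1 b2 b3 q1 q2 e0 e1 f2 f3 g1 g2 r1 =
    B432 (c * a0) (c * a1) (c * a2) (c * c0) (c * c1) (c * b1) (c * b2) (c * b3) (c * q1) (c * q2) (c * e0) (c * e1) (c * f2) (c * f3) (c * g1) (c * g2) (c * r1) := by
  ext i j
  fin_cases i <;> fin_cases j <;> simp [B432]

theorem zeroB : B432 (0 : k) 0 0 0 0 0 0 0 0 0 0 0 0 0 0 0 0 = 0 := by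
  ext i j
  fin_cases i <;> fin_cases j <;> simp [B432]

theorem J2 : J432 k * J432 k =
    !![0, 0, 0, 0, 0, 0, 0, 0, 0;
       0, 0, 0, 0, 0, 0, 0, 0, 0;
       1, 0, 0, 0, 0, 0, 0, 0, 0;
       0, 1, 0, 0, 0, 0, 0, 0, 0;
       0, 0, 0, 0, 0, 0, 0, 0, 0;
       0, 0, 0, 0, 0, 0, 0, 0, 0;
       0, 0, 0, 0, 1, 0, 0, 0, 0;
       0, 0, 0, 0, 0, 0, 0, 0, 0;
       0, 0, 0, 0, 0, 0, 0, 0, 0] := by
  ext i j
  fin_cases i <;> fin_cases j <;>
    simp [J432, Matrix.mul_apply, Fin.sum_univ_succ]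

theorem J3 : J432 k * J432 k * J432 k =
    !![0, 0, 0, 0, 0, 0, 0, 0, 0;
       0, 0, 0, 0, 0, 0, 0, 0, 0;
       0, 0, 0, 0, 0, 0, 0, 0, 0;
       1, 0, 0, 0, 0, 0, 0, 0, 0;
       0, 0, 0, 0, 0, 0, 0, 0, 0;
       0, 0, 0, 0, 0, 0, 0, 0, 0;
       0, 0, 0, 0, 0, 0, 0, 0, 0;
       0, 0, 0, 0, 0, 0, 0, 0, 0;
       0, 0, 0, 0, 0, 0, 0, 0, 0] := by
  rw [J2]
  ext i j
  fin_cases i <;> fin_cases j <;>
    simp [J432, Matrix.mul_apply, Fin.sum_univ_succ]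

theorem J4 : J432 k ^ 4 = 0 := by
  have e : J432 k ^ 4 = (J432 k * J432 k) * (J432 k * J432 k) := by
    rw [pow_succ, pow_succ, pow_succ, pow_one]
    simp only [Matrix.mul_assoc]
  rw [e, J2]
  ext i j
  fin_cases i <;> fin_cases j <;>
    simp [Matrix.mul_apply, Fin.sum_univ_succ]

/-! ### nilpotency and commutation -/

theorem nilJ : IsNilpotent (J432 k) := ⟨4, J4⟩

theorem nilB (a0 a1 a2 c0 c1 b1 b2 b3 q1 q2 e0 e1 f2 f3 g1 g2 r1 : k) :
    IsNilpotent (B432 a0 a1 a2 c0 c1 b1 b2 b3 q1 q2 e0 e1 f2 f3 g1 g2 r1) := by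
  refine isNilpotent_of_weight _ ![0, 3, 6, 9, 1, 4, 7, 2, 5] fun i j h => ?_
  fin_cases i <;> fin_cases j <;> first | rfl | (exfalso; revert h; decide)

/-- the 16 relations for commuting matrices -/
def Rel (a0 a1 a2 c0 c1 b1 b2 b3 q1 q2 e0 e1 f2 f3 g1 g2 r1
    a0' a1' a2' c0' c1' b1' b2' b3' q1' q2' e0' e1' f2' f3' g1' g2' r1' : k) : Prop :=
  a0 * b1' = a0' * b1 ∧
  a0 * b2' + a1 * b1' + c0 * f2' = a0' * b2 + a1' * b1 + c0' * f2 ∧
  a0 * b3' + a1 * b2' + a2 * b1' + c0 * f3' + c1 * f2' = a0' * b3 + a1' * b2 + a2' * b1 + c0' * f3 + c1' * f2 ∧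
  a0 * q1' + c0 * g1' = a0' * q1 + c0' * g1 ∧
  a0 * q2' + a1 * q1' + c0 * g2' + c1 * g1' = a0' * q2 + a1' * q1 + c0' * g2 + c1' * g1 ∧
  a0 * e0' = a0' * e0 ∧
  a0 * e1' + a1 * e0' + c0 * r1' = a0' * e1 + a1' * e0 + c0' * r1 ∧
  q1 * b1' + e0 * f2' = q1' * b1 + e0' * f2 ∧
  q1 * b2' + q2 * b1' + e0 * f3' + e1 * f2' = q1' * b2 + q2' * b1 + e0' * f3 + e1' * f2 ∧
  b1 * a0' + e0 * g1' = b1' * a0 + e0' * g1 ∧
  b1 * a1' + b2 * a0' + e0 * g2' + e1 * g1' = b1' * a1 + b2' * a0 + e0' * g2 + e1' * g1 ∧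
  b1 * c0' + q1 * e0' + e0 * r1' = b1' * c0 + q1' * e0 + e0' * r1 ∧
  g1 * b1' = g1' * b1 ∧
  g1 * b2' + g2 * b1' + r1 * f2' = g1' * b2 + g2' * b1 + r1' * f2 ∧
  f2 * a0' + g1 * q1' + r1 * g1' = f2' * a0 + g1' * q1 + r1' * g1 ∧
  g1 * e0' = g1' * e0

theorem comm_of_rel {a0 a1 a2 c0 c1 b1 b2 b3 q1 q2 e0 e1 f2 f3 g1 g2 r1
    a0' a1' a2' c0' c1' b1' b2' b3' q1' q2' e0' e1' f2' f3' g1' g2' r1' : k}
    (h : Rel a0 a1 a2 c0 c1 b1 b2 b3 q1 q2 e0 e1 f2 f3 g1 g2 r1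
      a0' a1' a2' c0' c1' b1' b2' b3' q1' q2' e0' e1' f2' f3' g1' g2' r1') :
    B432 a0 a1 a2 c0 c1 b1 b2 b3 q1 q2 e0 e1 f2 f3 g1 g2 r1 *
      B432 a0' a1' a2' c0' c1' b1' b2' b3' q1' q2' e0' e1' f2' f3' g1' g2' r1' =
    B432 a0' a1' a2' c0' c1' b1' b2' b3' q1' q2' e0' e1' f2' f3' g1' g2' r1' *
      B432 a0 a1 a2 c0 c1 b1 b2 b3 q1 q2 e0 e1 f2 f3 g1 g2 r1 := by
  obtain ⟨h1, h2, h3, h4, h5, h6, h7, h8, h9, h10, h11, h12, h13, h14, h15, h16⟩ := h
  have G3 : b3 * a0' + b2 * a1' + b1 * a2' + f3 * c0' + f2 * c1' =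
      b3' * a0 + b2' * a1 + b1' * a2 + f3' * c0 + f2' * c1 := by
    first | linear_combination h3 | linear_combination -h3
  have G11 : a1 * b1' + a0 * b2' + q1 * q1' + g2 * e0' + g1 * e1' =
      a1' * b1 + a0' * b2 + q1' * q1 + g2' * e0 + g1' * e1 := by
    first | linear_combination h11 | linear_combination -h11
  have G9 : b2 * q1' + b1 * q2' + f3 * e0' + f2 * e1' =
      b2' * q1 + b1' * q2 + f3' * e0 + f2' * e1 := by
    first | linear_combination h9 | linear_combination -h9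
  have G5 : q2 * a0' + q1 * a1' + g2 * c0' + g1 * c1' =
      q2' * a0 + q1' * a1 + g2' * c0 + g1' * c1 := by
    first | linear_combination h5 | linear_combination -h5
  have G2 : b2 * a0' + b1 * a1' + f2 * c0' =
      b2' * a0 + b1' * a1 + f2' * c0 := by
    first | linear_combination h2 | linear_combination -h2
  have G14 : b2 * g1' + b1 * g2' + f2 * r1' =
      b2' * g1 + b1' * g2 + f2' * r1 := by
    first | linear_combination h14 | linear_combination -h14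
  have G15 : a0 * f2' + q1 * g1' + g1 * r1' =
      a0' * f2 + q1' * g1 + g1' * r1 := by
    first | linear_combination h15 | linear_combination -h15
  have G7 : e1 * a0' + e0 * a1' + r1 * c0' =
      e1' * a0 + e0' * a1 + r1' * c0 := by
    first | linear_combination h7 | linear_combination -h7
  have G12 : c0 * b1' + e0 * q1' + r1 * e0' =
      c0' * b1 + e0' * q1 + r1' * e0 := by
    first | linear_combination h12 | linear_combination -h12
  have G8 : b1 * q1' + f2 * e0' =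
      b1' * q1 + f2' * e0 := by
    first | linear_combination h8 | linear_combination -h8
  have G4 : q1 * a0' + g1 * c0' =
      q1' * a0 + g1' * c0 := by
    first | linear_combination h4 | linear_combination -h4
  have G10 : a0 * b1' + g1 * e0' =
      a0' * b1 + g1' * e0 := by
    first | linear_combination h10 | linear_combination -h10
  have G1 : b1 * a0' =
      b1' * a0 := by
    first | linear_combination h1 | linear_combination -h1
  have G13 : b1 * g1' =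
      b1' * g1 := by
    first | linear_combination h13 | linear_combination -h13
  have G6 : e0 * a0' =
      e0' * a0 := by
    first | linear_combination h6 | linear_combination -h6
  have G16 : e0 * g1' =
      e0' * g1 := by
    first | linear_combination h16 | linear_combination -h16
  rw [mulB, mulB, G3, G11, G9, G5, G2, G14, G15, G7, G12, G8, G4, G10, G1, G13, G6, G16]

theorem rel_of_comm {a0 a1 a2 c0 c1 b1 b2 b3 q1 q2 e0 e1 f2 f3 g1 g2 r1
    a0' a1' a2' c0' c1' b1' b2' b3' q1' q2' e0' e1' f2' f3' g1' g2' r1' : k}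
    (h : B432 a0 a1 a2 c0 c1 b1 b2 b3 q1 q2 e0 e1 f2 f3 g1 g2 r1 *
      B432 a0' a1' a2' c0' c1' b1' b2' b3' q1' q2' e0' e1' f2' f3' g1' g2' r1' =
    B432 a0' a1' a2' c0' c1' b1' b2' b3' q1' q2' e0' e1' f2' f3' g1' g2' r1' *
      B432 a0 a1 a2 c0 c1 b1 b2 b3 q1 q2 e0 e1 f2 f3 g1 g2 r1) :
    Rel a0 a1 a2 c0 c1 b1 b2 b3 q1 q2 e0 e1 f2 f3 g1 g2 r1
      a0' a1' a2' c0' c1' b1' b2' b3' q1' q2' e0' e1' f2' f3' g1' g2' r1' := by
  rw [mulB, mulB] at h
  have e := fun i j => congrFun (congrFun h i) j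
  have E1 : b1 * a0' =
      b1' * a0 := e 1 0
  have E2 : b2 * a0' + b1 * a1' + f2 * c0' =
      b2' * a0 + b1' * a1 + f2' * c0 := e 2 0
  have E3 : b3 * a0' + b2 * a1' + b1 * a2' + f3 * c0' + f2 * c1' =
      b3' * a0 + b2' * a1 + b1' * a2 + f3' * c0 + f2' * c1 := e 3 0
  have E4 : q1 * a0' + g1 * c0' =
      q1' * a0 + g1' * c0 := e 5 0
  have E5 : q2 * a0' + q1 * a1' + g2 * c0' + g1 * c1' =
      q2' * a0 + q1' * a1 + g2' * c0 + g1' * c1 := e 6 0
  have E6 : e0 * a0' =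
      e0' * a0 := e 7 0
  have E7 : e1 * a0' + e0 * a1' + r1 * c0' =
      e1' * a0 + e0' * a1 + r1' * c0 := e 8 0
  have E8 : b1 * q1' + f2 * e0' =
      b1' * q1 + f2' * e0 := e 2 4
  have E9 : b2 * q1' + b1 * q2' + f3 * e0' + f2 * e1' =
      b2' * q1 + b1' * q2 + f3' * e0 + f2' * e1 := e 3 4
  have E10 : a0 * b1' + g1 * e0' =
      a0' * b1 + g1' * e0 := e 5 4
  have E11 : a1 * b1' + a0 * b2' + q1 * q1' + g2 * e0' + g1 * e1' =
      a1' * b1 + a0' * b2 + q1' * q1 + g2' * e0 + g1' * e1 := e 6 4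
  have E12 : c0 * b1' + e0 * q1' + r1 * e0' =
      c0' * b1 + e0' * q1 + r1' * e0 := e 8 4
  have E13 : b1 * g1' =
      b1' * g1 := e 2 7
  have E14 : b2 * g1' + b1 * g2' + f2 * r1' =
      b2' * g1 + b1' * g2 + f2' * r1 := e 3 7
  have E15 : a0 * f2' + q1 * g1' + g1 * r1' =
      a0' * f2 + q1' * g1 + g1' * r1 := e 6 7
  have E16 : e0 * g1' =
      e0' * g1 := e 8 7
  refine ⟨?_, ?_, ?_, ?_, ?_, ?_, ?_, ?_, ?_, ?_, ?_, ?_, ?_, ?_, ?_, ?_⟩
  · first | linear_combination E1 | linear_combination -E1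
  · first | linear_combination E2 | linear_combination -E2
  · first | linear_combination E3 | linear_combination -E3
  · first | linear_combination E4 | linear_combination -E4
  · first | linear_combination E5 | linear_combination -E5
  · first | linear_combination E6 | linear_combination -E6
  · first | linear_combination E7 | linear_combination -E7
  · first | linear_combination E8 | linear_combination -E8
  · first | linear_combination E9 | linear_combination -E9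
  · first | linear_combination E10 | linear_combination -E10
  · first | linear_combination E11 | linear_combination -E11
  · first | linear_combination E12 | linear_combination -E12
  · first | linear_combination E13 | linear_combination -E13
  · first | linear_combination E14 | linear_combination -E14
  · first | linear_combination E15 | linear_combination -E15
  · first | linear_combination E16 | linear_combination -E16

theorem cnB {a0 a1 a2 c0 c1 b1 b2 b3 q1 q2 e0 e1 f2 f3 g1 g2 r1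
    a0' a1' a2' c0' c1' b1' b2' b3' q1' q2' e0' e1' f2' f3' g1' g2' r1' : k}
    (h : Rel a0 a1 a2 c0 c1 b1 b2 b3 q1 q2 e0 e1 f2 f3 g1 g2 r1
      a0' a1' a2' c0' c1' b1' b2' b3' q1' q2' e0' e1' f2' f3' g1' g2' r1') :
    CN ![J432 k, B432 a0 a1 a2 c0 c1 b1 b2 b3 q1 q2 e0 e1 f2 f3 g1 g2 r1,
      B432 a0' a1' a2' c0' c1' b1' b2' b3' q1' q2' e0' e1' f2' f3' g1' g2' r1'] := by
  have h1 := comm_of_rel h
  constructor
  · intro i j
    fin_cases i <;> fin_cases j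
    · rfl
    · exact (JB ..).trans (BJ ..).symm
    · exact (JB ..).trans (BJ ..).symm
    · exact (BJ ..).trans (JB ..).symm
    · rfl
    · exact h1
    · exact (BJ ..).trans (JB ..).symm
    · exact h1.symm
    · rfl
  · intro i
    fin_cases i
    · exact nilJ
    · exact nilB ..
    · exact nilB ..

theorem rel_of_cn {a0 a1 a2 c0 c1 b1 b2 b3 q1 q2 e0 e1 f2 f3 g1 g2 r1
    a0' a1' a2' c0' c1' b1' b2' b3' q1' q2' e0' e1' f2' f3' g1' g2' r1' : k}
    (h : CN ![J432 k, B432 a0 a1 a2 c0 c1 b1 b2 b3 q1 q2 e0 e1 f2 f3 g1 g2 r1,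
      B432 a0' a1' a2' c0' c1' b1' b2' b3' q1' q2' e0' e1' f2' f3' g1' g2' r1']) :
    Rel a0 a1 a2 c0 c1 b1 b2 b3 q1 q2 e0 e1 f2 f3 g1 g2 r1
      a0' a1' a2' c0' c1' b1' b2' b3' q1' q2' e0' e1' f2' f3' g1' g2' r1' :=
  rel_of_comm (h.1 1 2)

/-! ### the shape of matrices commuting with `J432` -/

theorem eig {M : Matrix (Fin 9) (Fin 9) k} (hM : IsNilpotent M) {w : Fin 9 → k} {c : k}
    (h : w ᵥ* M = c • w) (hc : c ≠ 0) : w = 0 := by
  obtain ⟨N, hN⟩ := hM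
  have key : ∀ N : ℕ, w ᵥ* M ^ N = c ^ N • w := by
    intro N
    induction N with
    | zero => simp
    | succ N ih =>
      rw [pow_succ, ← Matrix.vecMul_vecMul, ih, Matrix.smul_vecMul, h, smul_smul, pow_succ]
  have h1 := key N
  rw [hN, Matrix.vecMul_zero] at h1
  exact (smul_eq_zero.1 h1.symm).resolve_left (pow_ne_zero _ hc)

theorem shape {B : Matrix (Fin 9) (Fin 9) k} (hc : J432 k * B = B * J432 k)
    (hn : IsNilpotent B) : ∃ x1 x2 x3 a0 a1 a2 c0 c1 b1 b2 b3 q1 q2 e0 e1 f2 f3 g1 g2 r1 : k,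
      B = x1 • J432 k + x2 • (J432 k * J432 k) + x3 • (J432 k * J432 k * J432 k) +
        B432 a0 a1 a2 c0 c1 b1 b2 b3 q1 q2 e0 e1 f2 f3 g1 g2 r1 := by
  have e : ∀ i j, (J432 k * B) i j = (B * J432 k) i j := fun i j => by rw [hc]
  have e00 : B 0 1 = 0 := by simpa [J432, Matrix.mul_apply, Fin.sum_univ_succ] using (e 0 0).symm
  have e01 : B 0 2 = 0 := by simpa [J432, Matrix.mul_apply, Fin.sum_univ_succ] using (e 0 1).symm
  have e02 : B 0 3 = 0 := by simpa [J432, Matrix.mul_apply, Fin.sum_univ_succ] using (e 0 2).symm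
  have e04 : B 0 5 = 0 := by simpa [J432, Matrix.mul_apply, Fin.sum_univ_succ] using (e 0 4).symm
  have e05 : B 0 6 = 0 := by simpa [J432, Matrix.mul_apply, Fin.sum_univ_succ] using (e 0 5).symm
  have e07 : B 0 8 = 0 := by simpa [J432, Matrix.mul_apply, Fin.sum_univ_succ] using (e 0 7).symm
  have e10 : B 1 1 = B 0 0 := by simpa [J432, Matrix.mul_apply, Fin.sum_univ_succ] using (e 1 0).symm
  have e11 : B 1 2 = B 0 1 := by simpa [J432, Matrix.mul_apply, Fin.sum_univ_succ] using (e 1 1).symm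
  have e12 : B 1 3 = B 0 2 := by simpa [J432, Matrix.mul_apply, Fin.sum_univ_succ] using (e 1 2).symm
  have e13 : B 0 3 = 0 := by simpa [J432, Matrix.mul_apply, Fin.sum_univ_succ] using e 1 3
  have e14 : B 1 5 = B 0 4 := by simpa [J432, Matrix.mul_apply, Fin.sum_univ_succ] using (e 1 4).symm
  have e15 : B 1 6 = B 0 5 := by simpa [J432, Matrix.mul_apply, Fin.sum_univ_succ] using (e 1 5).symm
  have e16 : B 0 6 = 0 := by simpa [J432, Matrix.mul_apply, Fin.sum_univ_succ] using e 1 6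
  have e17 : B 1 8 = B 0 7 := by simpa [J432, Matrix.mul_apply, Fin.sum_univ_succ] using (e 1 7).symm
  have e18 : B 0 8 = 0 := by simpa [J432, Matrix.mul_apply, Fin.sum_univ_succ] using e 1 8
  have e20 : B 2 1 = B 1 0 := by simpa [J432, Matrix.mul_apply, Fin.sum_univ_succ] using (e 2 0).symm
  have e21 : B 2 2 = B 1 1 := by simpa [J432, Matrix.mul_apply, Fin.sum_univ_succ] using (e 2 1).symm
  have e22 : B 2 3 = B 1 2 := by simpa [J432, Matrix.mul_apply, Fin.sum_univ_succ] using (e 2 2).symm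
  have e23 : B 1 3 = 0 := by simpa [J432, Matrix.mul_apply, Fin.sum_univ_succ] using e 2 3
  have e24 : B 2 5 = B 1 4 := by simpa [J432, Matrix.mul_apply, Fin.sum_univ_succ] using (e 2 4).symm
  have e25 : B 2 6 = B 1 5 := by simpa [J432, Matrix.mul_apply, Fin.sum_univ_succ] using (e 2 5).symm
  have e26 : B 1 6 = 0 := by simpa [J432, Matrix.mul_apply, Fin.sum_univ_succ] using e 2 6
  have e27 : B 2 8 = B 1 7 := by simpa [J432, Matrix.mul_apply, Fin.sum_univ_succ] using (e 2 7).symm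
  have e28 : B 1 8 = 0 := by simpa [J432, Matrix.mul_apply, Fin.sum_univ_succ] using e 2 8
  have e30 : B 3 1 = B 2 0 := by simpa [J432, Matrix.mul_apply, Fin.sum_univ_succ] using (e 3 0).symm
  have e31 : B 3 2 = B 2 1 := by simpa [J432, Matrix.mul_apply, Fin.sum_univ_succ] using (e 3 1).symm
  have e32 : B 3 3 = B 2 2 := by simpa [J432, Matrix.mul_apply, Fin.sum_univ_succ] using (e 3 2).symm
  have e33 : B 2 3 = 0 := by simpa [J432, Matrix.mul_apply, Fin.sum_univ_succ] using e 3 3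
  have e34 : B 3 5 = B 2 4 := by simpa [J432, Matrix.mul_apply, Fin.sum_univ_succ] using (e 3 4).symm
  have e35 : B 3 6 = B 2 5 := by simpa [J432, Matrix.mul_apply, Fin.sum_univ_succ] using (e 3 5).symm
  have e36 : B 2 6 = 0 := by simpa [J432, Matrix.mul_apply, Fin.sum_univ_succ] using e 3 6
  have e37 : B 3 8 = B 2 7 := by simpa [J432, Matrix.mul_apply, Fin.sum_univ_succ] using (e 3 7).symm
  have e38 : B 2 8 = 0 := by simpa [J432, Matrix.mul_apply, Fin.sum_univ_succ] using e 3 8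
  have e40 : B 4 1 = 0 := by simpa [J432, Matrix.mul_apply, Fin.sum_univ_succ] using (e 4 0).symm
  have e41 : B 4 2 = 0 := by simpa [J432, Matrix.mul_apply, Fin.sum_univ_succ] using (e 4 1).symm
  have e42 : B 4 3 = 0 := by simpa [J432, Matrix.mul_apply, Fin.sum_univ_succ] using (e 4 2).symm
  have e44 : B 4 5 = 0 := by simpa [J432, Matrix.mul_apply, Fin.sum_univ_succ] using (e 4 4).symm
  have e45 : B 4 6 = 0 := by simpa [J432, Matrix.mul_apply, Fin.sum_univ_succ] using (e 4 5).symm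
  have e47 : B 4 8 = 0 := by simpa [J432, Matrix.mul_apply, Fin.sum_univ_succ] using (e 4 7).symm
  have e50 : B 5 1 = B 4 0 := by simpa [J432, Matrix.mul_apply, Fin.sum_univ_succ] using (e 5 0).symm
  have e51 : B 5 2 = B 4 1 := by simpa [J432, Matrix.mul_apply, Fin.sum_univ_succ] using (e 5 1).symm
  have e52 : B 5 3 = B 4 2 := by simpa [J432, Matrix.mul_apply, Fin.sum_univ_succ] using (e 5 2).symm
  have e53 : B 4 3 = 0 := by simpa [J432, Matrix.mul_apply, Fin.sum_univ_succ] using e 5 3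
  have e54 : B 5 5 = B 4 4 := by simpa [J432, Matrix.mul_apply, Fin.sum_univ_succ] using (e 5 4).symm
  have e55 : B 5 6 = B 4 5 := by simpa [J432, Matrix.mul_apply, Fin.sum_univ_succ] using (e 5 5).symm
  have e56 : B 4 6 = 0 := by simpa [J432, Matrix.mul_apply, Fin.sum_univ_succ] using e 5 6
  have e57 : B 5 8 = B 4 7 := by simpa [J432, Matrix.mul_apply, Fin.sum_univ_succ] using (e 5 7).symm
  have e58 : B 4 8 = 0 := by simpa [J432, Matrix.mul_apply, Fin.sum_univ_succ] using e 5 8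
  have e60 : B 6 1 = B 5 0 := by simpa [J432, Matrix.mul_apply, Fin.sum_univ_succ] using (e 6 0).symm
  have e61 : B 6 2 = B 5 1 := by simpa [J432, Matrix.mul_apply, Fin.sum_univ_succ] using (e 6 1).symm
  have e62 : B 6 3 = B 5 2 := by simpa [J432, Matrix.mul_apply, Fin.sum_univ_succ] using (e 6 2).symm
  have e63 : B 5 3 = 0 := by simpa [J432, Matrix.mul_apply, Fin.sum_univ_succ] using e 6 3
  have e64 : B 6 5 = B 5 4 := by simpa [J432, Matrix.mul_apply, Fin.sum_univ_succ] using (e 6 4).symm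
  have e65 : B 6 6 = B 5 5 := by simpa [J432, Matrix.mul_apply, Fin.sum_univ_succ] using (e 6 5).symm
  have e66 : B 5 6 = 0 := by simpa [J432, Matrix.mul_apply, Fin.sum_univ_succ] using e 6 6
  have e67 : B 6 8 = B 5 7 := by simpa [J432, Matrix.mul_apply, Fin.sum_univ_succ] using (e 6 7).symm
  have e68 : B 5 8 = 0 := by simpa [J432, Matrix.mul_apply, Fin.sum_univ_succ] using e 6 8
  have e70 : B 7 1 = 0 := by simpa [J432, Matrix.mul_apply, Fin.sum_univ_succ] using (e 7 0).symm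
  have e71 : B 7 2 = 0 := by simpa [J432, Matrix.mul_apply, Fin.sum_univ_succ] using (e 7 1).symm
  have e72 : B 7 3 = 0 := by simpa [J432, Matrix.mul_apply, Fin.sum_univ_succ] using (e 7 2).symm
  have e74 : B 7 5 = 0 := by simpa [J432, Matrix.mul_apply, Fin.sum_univ_succ] using (e 7 4).symm
  have e75 : B 7 6 = 0 := by simpa [J432, Matrix.mul_apply, Fin.sum_univ_succ] using (e 7 5).symm
  have e77 : B 7 8 = 0 := by simpa [J432, Matrix.mul_apply, Fin.sum_univ_succ] using (e 7 7).symm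
  have e80 : B 8 1 = B 7 0 := by simpa [J432, Matrix.mul_apply, Fin.sum_univ_succ] using (e 8 0).symm
  have e81 : B 8 2 = B 7 1 := by simpa [J432, Matrix.mul_apply, Fin.sum_univ_succ] using (e 8 1).symm
  have e82 : B 8 3 = B 7 2 := by simpa [J432, Matrix.mul_apply, Fin.sum_univ_succ] using (e 8 2).symm
  have e83 : B 7 3 = 0 := by simpa [J432, Matrix.mul_apply, Fin.sum_univ_succ] using e 8 3
  have e84 : B 8 5 = B 7 4 := by simpa [J432, Matrix.mul_apply, Fin.sum_univ_succ] using (e 8 4).symm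
  have e85 : B 8 6 = B 7 5 := by simpa [J432, Matrix.mul_apply, Fin.sum_univ_succ] using (e 8 5).symm
  have e86 : B 7 6 = 0 := by simpa [J432, Matrix.mul_apply, Fin.sum_univ_succ] using e 8 6
  have e87 : B 8 8 = B 7 7 := by simpa [J432, Matrix.mul_apply, Fin.sum_univ_succ] using (e 8 7).symm
  have e88 : B 7 8 = 0 := by simpa [J432, Matrix.mul_apply, Fin.sum_univ_succ] using e 8 8
  have f01 : B 0 1 = 0 := e00
  have f02 : B 0 2 = 0 := e01
  have f03 : B 0 3 = 0 := e02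
  have f04 : B 0 4 = 0 := ((e14.symm).trans e25.symm).trans e36
  have f05 : B 0 5 = 0 := e04
  have f06 : B 0 6 = 0 := e05
  have f07 : B 0 7 = 0 := (e17.symm).trans e28
  have f08 : B 0 8 = 0 := e07
  have f11 : B 1 1 = B 0 0 := e10
  have f12 : B 1 2 = 0 := (e11).trans e00
  have f13 : B 1 3 = 0 := e23
  have f15 : B 1 5 = 0 := (e25.symm).trans e36
  have f16 : B 1 6 = 0 := e26
  have f17 : B 1 7 = 0 := (e27.symm).trans e38
  have f18 : B 1 8 = 0 := e28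
  have f21 : B 2 1 = B 1 0 := e20
  have f22 : B 2 2 = B 0 0 := (e21).trans e10
  have f23 : B 2 3 = 0 := e33
  have f25 : B 2 5 = B 1 4 := e24
  have f26 : B 2 6 = 0 := e36
  have f28 : B 2 8 = 0 := e38
  have f31 : B 3 1 = B 2 0 := e30
  have f32 : B 3 2 = B 1 0 := (e31).trans e20
  have f33 : B 3 3 = B 0 0 := ((e32).trans e21).trans e10
  have f35 : B 3 5 = B 2 4 := e34
  have f36 : B 3 6 = B 1 4 := (e35).trans e24
  have f38 : B 3 8 = B 2 7 := e37
  have f41 : B 4 1 = 0 := e40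
  have f42 : B 4 2 = 0 := e41
  have f43 : B 4 3 = 0 := e42
  have f45 : B 4 5 = 0 := e44
  have f46 : B 4 6 = 0 := e45
  have f47 : B 4 7 = 0 := (e57.symm).trans e68
  have f48 : B 4 8 = 0 := e47
  have f51 : B 5 1 = B 4 0 := e50
  have f52 : B 5 2 = 0 := (e51).trans e40
  have f53 : B 5 3 = 0 := e63
  have f55 : B 5 5 = B 4 4 := e54
  have f56 : B 5 6 = 0 := e66
  have f58 : B 5 8 = 0 := e68
  have f61 : B 6 1 = B 5 0 := e60
  have f62 : B 6 2 = B 4 0 := (e61).trans e50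
  have f63 : B 6 3 = 0 := ((e62).trans e51).trans e40
  have f65 : B 6 5 = B 5 4 := e64
  have f66 : B 6 6 = B 4 4 := (e65).trans e54
  have f68 : B 6 8 = B 5 7 := e67
  have f71 : B 7 1 = 0 := e70
  have f72 : B 7 2 = 0 := e71
  have f73 : B 7 3 = 0 := e72
  have f75 : B 7 5 = 0 := e74
  have f76 : B 7 6 = 0 := e75
  have f78 : B 7 8 = 0 := e77
  have f81 : B 8 1 = B 7 0 := e80
  have f82 : B 8 2 = 0 := (e81).trans e70
  have f83 : B 8 3 = 0 := (e82).trans e71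
  have f85 : B 8 5 = B 7 4 := e84
  have f86 : B 8 6 = 0 := (e85).trans e74
  have f88 : B 8 8 = B 7 7 := e87
  have d0 : B 0 0 = 0 := by
    by_contra h0
    have h1 := eig (w := ![1, 0, 0, 0, 0, 0, 0, 0, 0]) hn (c := B 0 0) (by
      ext j
      fin_cases j <;>
        simp [Matrix.vecMul, dotProduct, Fin.sum_univ_succ, f01, f02, f03, f04, f05, f06, f07, f08, f11, f12, f13, f15, f16, f17, f18, f21, f22, f23, f25, f26, f28, f31, f32, f33, f35, f36, f38, f41, f42, f43, f45, f46, f47, f48, f51, f52, f53, f55, f56, f58, f61, f62, f63, f65, f66, f68, f71, f72, f73, f75, f76, f78, f81, f82, f83, f85, f86, f88]) h0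
    have h2 := congrFun h1 0
    simp at h2
  have d4 : B 4 4 = 0 := by
    by_contra h0
    have h1 := eig (w := ![B 4 0, 0, 0, 0, B 4 4, 0, 0, 0, 0]) hn (c := B 4 4) (by
      ext j
      fin_cases j <;>
        simp [Matrix.vecMul, dotProduct, Fin.sum_univ_succ, d0, f01, f02, f03, f04, f05, f06, f07, f08, f11, f12, f13, f15, f16, f17, f18, f21, f22, f23, f25, f26, f28, f31, f32, f33, f35, f36, f38, f41, f42, f43, f45, f46, f47, f48, f51, f52, f53, f55, f56, f58, f61, f62, f63, f65, f66, f68, f71, f72, f73, f75, f76, f78, f81, f82, f83, f85, f86, f88]) h0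
    have h2 := congrFun h1 4
    exact h0 (by simpa using h2)
  have d7 : B 7 7 = 0 := by
    by_contra h0
    have h1 := eig (w := ![B 7 7 * B 7 0 + B 7 4 * B 4 0, 0, 0, 0, B 7 7 * B 7 4, 0, 0,
        B 7 7 * B 7 7, 0]) hn (c := B 7 7) (by
      ext j
      fin_cases j <;>
        simp [Matrix.vecMul, dotProduct, Fin.sum_univ_succ, d0, d4, f01, f02, f03, f04, f05, f06, f07, f08, f11, f12, f13, f15, f16, f17, f18, f21, f22, f23, f25, f26, f28, f31, f32, f33, f35, f36, f38, f41, f42, f43, f45, f46, f47, f48, f51, f52, f53, f55, f56, f58, f61, f62, f63, f65, f66, f68, f71, f72, f73, f75, f76, f78, f81, f82, f83, f85, f86, f88] <;> ring) h0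
    have h2 := congrFun h1 7
    exact h0 (by simpa using h2)
  refine ⟨B 1 0, B 2 0, B 3 0, B 4 0, B 5 0, B 6 0, B 7 0, B 8 0, B 1 4, B 2 4, B 3 4, B 5 4 - B 1 0,
    B 6 4 - B 2 0, B 7 4, B 8 4, B 2 7, B 3 7, B 5 7, B 6 7, B 8 7 - B 1 0, ?_⟩
  rw [J3, J2]
  ext i j
  fin_cases i <;> fin_cases j <;>
    simp [J432, B432, d0, d4, d7, f01, f02, f03, f04, f05, f06, f07, f08, f11, f12, f13, f15, f16, f17, f18, f21, f22, f23, f25, f26, f28, f31, f32, f33, f35, f36, f38, f41, f42, f43, f45, f46, f47, f48, f51, f52, f53, f55, f56, f58, f61, f62, f63, f65, f66, f68, f71, f72, f73, f75, f76, f78, f81, f82, f83, f85, f86, f88]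

end T432

end Pool.Agent.Lib.D9
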