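import Pool.Agent.Lib.D8.Ta21
import Pool.Agent.Lib.D9.Defs

/-!
# MP_5dcbc3_ag: Jordan type `(4, 4, 1)`: the algebra of matrices commuting with the Jordan matrix

Basis `x^i v = e i`, `x^i u = e (i + 4)` (`i ≤ 3`), `p = e 8`.
-/

namespace Pool.Agent.Lib.D9

open Matrix Polynomial Pool.Agent.Lib.Q5dc Pool.Agent.Lib.D7 Pool.Agent.Lib.D8

variable {k : Type*} [Field k]

namespace T441

/-- `x^l a -> x^l K0 a + x^(l+1) K1 a + ..` (`a ∈ ⟨v, u⟩`), `a -> ρ(a) p`, `p -> x^3 κ + r p` -/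
def Φ (K0 K1 K2 K3 : Matrix (Fin 2) (Fin 2) k) (ρ κ : Fin 2 → k) (r : k) :
    Matrix (Fin 9) (Fin 9) k :=
  !![K0 0 0, 0, 0, 0, K0 0 1, 0, 0, 0, 0;
     K1 0 0, K0 0 0, 0, 0, K1 0 1, K0 0 1, 0, 0, 0;
     K2 0 0, K1 0 0, K0 0 0, 0, K2 0 1, K1 0 1, K0 0 1, 0, 0;
     K3 0 0, K2 0 0, K1 0 0, K0 0 0, K3 0 1, K2 0 1, K1 0 1, K0 0 1, κ 0;
     K0 1 0, 0, 0, 0, K0 1 1, 0, 0, 0, 0;
     K1 1 0, K0 1 0, 0, 0, K1 1 1, K0 1 1, 0, 0, 0;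
     K2 1 0, K1 1 0, K0 1 0, 0, K2 1 1, K1 1 1, K0 1 1, 0, 0;
     K3 1 0, K2 1 0, K1 1 0, K0 1 0, K3 1 1, K2 1 1, K1 1 1, K0 1 1, κ 1;
     ρ 0, 0, 0, 0, ρ 1, 0, 0, 0, r]

theorem Φ_mul (K0 K1 K2 K3 L0 L1 L2 L3 : Matrix (Fin 2) (Fin 2) k) (ρ κ σ τ : Fin 2 → k)
    (r s : k) : Φ K0 K1 K2 K3 ρ κ r * Φ L0 L1 L2 L3 σ τ s =
    Φ (K0 * L0) (K0 * L1 + K1 * L0) (K0 * L2 + K1 * L1 + K2 * L0)
      (K0 * L3 + K1 * L2 + K2 * L1 + K3 * L0 + vecMulVec κ σ) (ρ ᵥ* L0 + r • σ)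
      (K0 *ᵥ τ + s • κ) (r * s) := by
  ext i j
  fin_cases i <;> fin_cases j <;>
    simp [Φ, Matrix.mul_apply, Fin.sum_univ_succ, vecMulVec, Matrix.vecMul,
      dotProduct] <;> ring

theorem Φ_add (K0 K1 K2 K3 L0 L1 L2 L3 : Matrix (Fin 2) (Fin 2) k) (ρ κ σ τ : Fin 2 → k)
    (r s : k) : Φ K0 K1 K2 K3 ρ κ r + Φ L0 L1 L2 L3 σ τ s =
    Φ (K0 + L0) (K1 + L1) (K2 + L2) (K3 + L3) (ρ + σ) (κ + τ) (r + s) := by
  ext i j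
  fin_cases i <;> fin_cases j <;> simp [Φ]

theorem Φ_smul (c : k) (K0 K1 K2 K3 : Matrix (Fin 2) (Fin 2) k) (ρ κ : Fin 2 → k)
    (r : k) : c • Φ K0 K1 K2 K3 ρ κ r =
    Φ (c • K0) (c • K1) (c • K2) (c • K3) (c • ρ) (c • κ) (c * r) := by
  ext i j
  fin_cases i <;> fin_cases j <;> simp [Φ]

theorem Φ_sub (K0 K1 K2 K3 L0 L1 L2 L3 : Matrix (Fin 2) (Fin 2) k) (ρ κ σ τ : Fin 2 → k)
    (r s : k) : Φ K0 K1 K2 K3 ρ κ r - Φ L0 L1 L2 L3 σ τ s =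
    Φ (K0 - L0) (K1 - L1) (K2 - L2) (K3 - L3) (ρ - σ) (κ - τ) (r - s) := by
  ext i j
  fin_cases i <;> fin_cases j <;> simp [Φ]

theorem Φ_zero : Φ (0 : Matrix (Fin 2) (Fin 2) k) 0 0 0 0 0 0 = 0 := by
  ext i j
  fin_cases i <;> fin_cases j <;> simp [Φ]

theorem Φ_one : Φ (1 : Matrix (Fin 2) (Fin 2) k) 0 0 0 0 0 1 = 1 := by
  ext i j
  fin_cases i <;> fin_cases j <;> simp [Φ]

theorem Φ_J : J441 k = Φ 0 1 0 0 0 0 0 := by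
  ext i j
  fin_cases i <;> fin_cases j <;> simp [Φ, J441]

theorem Φ_inj {K0 K1 K2 K3 L0 L1 L2 L3 : Matrix (Fin 2) (Fin 2) k} {ρ κ σ τ : Fin 2 → k}
    {r s : k} (h : Φ K0 K1 K2 K3 ρ κ r = Φ L0 L1 L2 L3 σ τ s) :
    K0 = L0 ∧ K1 = L1 ∧ K2 = L2 ∧ K3 = L3 ∧ ρ = σ ∧ κ = τ ∧ r = s := by
  have e := fun i j => congrFun (congrFun h i) j
  refine ⟨?_, ?_, ?_, ?_, ?_, ?_, e 8 8⟩
  · refine Matrix.ext fun i j => ?_
    fin_cases i <;> fin_cases j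
    · exact e 0 0
    · exact e 0 4
    · exact e 4 0
    · exact e 4 4
  · refine Matrix.ext fun i j => ?_
    fin_cases i <;> fin_cases j
    · exact e 1 0
    · exact e 1 4
    · exact e 5 0
    · exact e 5 4
  · refine Matrix.ext fun i j => ?_
    fin_cases i <;> fin_cases j
    · exact e 2 0
    · exact e 2 4
    · exact e 6 0
    · exact e 6 4
  · refine Matrix.ext fun i j => ?_
    fin_cases i <;> fin_cases j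
    · exact e 3 0
    · exact e 3 4
    · exact e 7 0
    · exact e 7 4
  · funext i
    fin_cases i
    · exact e 8 0
    · exact e 8 4
  · funext i
    fin_cases i
    · exact e 3 8
    · exact e 7 8

theorem J_comm (K0 K1 K2 K3 : Matrix (Fin 2) (Fin 2) k) (ρ κ : Fin 2 → k) (r : k) :
    J441 k * Φ K0 K1 K2 K3 ρ κ r = Φ K0 K1 K2 K3 ρ κ r * J441 k := by
  rw [Φ_J, Φ_mul, Φ_mul]
  congr 1 <;> simp [vecMulVec]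

/-- basis vectors -/
def e (i : ℕ) : Fin 9 → k := fun j => if (j : ℕ) = i then 1 else 0

theorem mulVec_e (M : Matrix (Fin 9) (Fin 9) k) (l : Fin 9) :
    M *ᵥ e (l : ℕ) = fun i => M i l := by
  have : (e (l : ℕ) : Fin 9 → k) = Pi.single l 1 := by
    funext j
    rw [e, Pi.single_apply]
    simp only [Fin.ext_iff]
  rw [this, Matrix.mulVec_single_one]
  rfl

theorem ext_e {M M' : Matrix (Fin 9) (Fin 9) k} (h : ∀ l, l < 9 → M *ᵥ e l = M' *ᵥ e l) :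
    M = M' := by
  ext i j
  have h1 := h j j.isLt
  rw [mulVec_e, mulVec_e] at h1
  exact congrFun h1 i

theorem vec_sum (w : Fin 9 → k) : w = ∑ i : Fin 9, w i • e (i : ℕ) := by
  funext j
  rw [Finset.sum_apply, Finset.sum_eq_single j]
  · simp [e]
  · intro i _ hij
    have : ¬ (j : ℕ) = (i : ℕ) := fun h => hij (Fin.ext h.symm)
    simp [e, this]
  · intro h; exact absurd (Finset.mem_univ j) h

section

variable (K0 K1 K2 K3 : Matrix (Fin 2) (Fin 2) k) (ρ κ : Fin 2 → k) (r : k)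

theorem Φ_e0 : Φ K0 K1 K2 K3 ρ κ r *ᵥ e 0 = K0 0 0 • e 0 + K1 0 0 • e 1 + K2 0 0 • e 2 +
    K3 0 0 • e 3 + K0 1 0 • e 4 + K1 1 0 • e 5 + K2 1 0 • e 6 + K3 1 0 • e 7 + ρ 0 • e 8 := by
  have := mulVec_e (Φ K0 K1 K2 K3 ρ κ r) (0 : Fin 9)
  refine this.trans ?_
  funext i
  fin_cases i <;> simp [Φ, e]

theorem Φ_e1 : Φ K0 K1 K2 K3 ρ κ r *ᵥ e 1 = K0 0 0 • e 1 + K1 0 0 • e 2 + K2 0 0 • e 3 +
    K0 1 0 • e 5 + K1 1 0 • e 6 + K2 1 0 • e 7 := by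
  have := mulVec_e (Φ K0 K1 K2 K3 ρ κ r) (1 : Fin 9)
  refine this.trans ?_
  funext i
  fin_cases i <;> simp [Φ, e]

theorem Φ_e2 : Φ K0 K1 K2 K3 ρ κ r *ᵥ e 2 = K0 0 0 • e 2 + K1 0 0 • e 3 +
    K0 1 0 • e 6 + K1 1 0 • e 7 := by
  have := mulVec_e (Φ K0 K1 K2 K3 ρ κ r) (2 : Fin 9)
  refine this.trans ?_
  funext i
  fin_cases i <;> simp [Φ, e]

theorem Φ_e3 : Φ K0 K1 K2 K3 ρ κ r *ᵥ e 3 = K0 0 0 • e 3 + K0 1 0 • e 7 := by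
  have := mulVec_e (Φ K0 K1 K2 K3 ρ κ r) (3 : Fin 9)
  refine this.trans ?_
  funext i
  fin_cases i <;> simp [Φ, e]

theorem Φ_e4 : Φ K0 K1 K2 K3 ρ κ r *ᵥ e 4 = K0 0 1 • e 0 + K1 0 1 • e 1 + K2 0 1 • e 2 +
    K3 0 1 • e 3 + K0 1 1 • e 4 + K1 1 1 • e 5 + K2 1 1 • e 6 + K3 1 1 • e 7 + ρ 1 • e 8 := by
  have := mulVec_e (Φ K0 K1 K2 K3 ρ κ r) (4 : Fin 9)
  refine this.trans ?_
  funext i
  fin_cases i <;> simp [Φ, e]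

theorem Φ_e5 : Φ K0 K1 K2 K3 ρ κ r *ᵥ e 5 = K0 0 1 • e 1 + K1 0 1 • e 2 + K2 0 1 • e 3 +
    K0 1 1 • e 5 + K1 1 1 • e 6 + K2 1 1 • e 7 := by
  have := mulVec_e (Φ K0 K1 K2 K3 ρ κ r) (5 : Fin 9)
  refine this.trans ?_
  funext i
  fin_cases i <;> simp [Φ, e]

theorem Φ_e6 : Φ K0 K1 K2 K3 ρ κ r *ᵥ e 6 = K0 0 1 • e 2 + K1 0 1 • e 3 +
    K0 1 1 • e 6 + K1 1 1 • e 7 := by
  have := mulVec_e (Φ K0 K1 K2 K3 ρ κ r) (6 : Fin 9)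
  refine this.trans ?_
  funext i
  fin_cases i <;> simp [Φ, e]

theorem Φ_e7 : Φ K0 K1 K2 K3 ρ κ r *ᵥ e 7 = K0 0 1 • e 3 + K0 1 1 • e 7 := by
  have := mulVec_e (Φ K0 K1 K2 K3 ρ κ r) (7 : Fin 9)
  refine this.trans ?_
  funext i
  fin_cases i <;> simp [Φ, e]

theorem Φ_e8 : Φ K0 K1 K2 K3 ρ κ r *ᵥ e 8 = κ 0 • e 3 + κ 1 • e 7 + r • e 8 := by
  have := mulVec_e (Φ K0 K1 K2 K3 ρ κ r) (8 : Fin 9)
  refine this.trans ?_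
  funext i
  fin_cases i <;> simp [Φ, e]

end

theorem J_e0 : J441 k *ᵥ e 0 = e 1 := by rw [Φ_J, Φ_e0]; simp
theorem J_e1 : J441 k *ᵥ e 1 = e 2 := by rw [Φ_J, Φ_e1]; simp
theorem J_e2 : J441 k *ᵥ e 2 = e 3 := by rw [Φ_J, Φ_e2]; simp
theorem J_e3 : J441 k *ᵥ e 3 = 0 := by rw [Φ_J, Φ_e3]; simp
theorem J_e4 : J441 k *ᵥ e 4 = e 5 := by rw [Φ_J, Φ_e4]; simp
theorem J_e5 : J441 k *ᵥ e 5 = e 6 := by rw [Φ_J, Φ_e5]; simp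
theorem J_e6 : J441 k *ᵥ e 6 = e 7 := by rw [Φ_J, Φ_e6]; simp
theorem J_e7 : J441 k *ᵥ e 7 = 0 := by rw [Φ_J, Φ_e7]; simp
theorem J_e8 : J441 k *ᵥ e 8 = 0 := by rw [Φ_J, Φ_e8]; simp

theorem comm_vec {A M : Matrix (Fin 9) (Fin 9) k} (h : A * M = M * A) (w : Fin 9 → k) :
    M *ᵥ (A *ᵥ w) = A *ᵥ (M *ᵥ w) := by
  rw [Matrix.mulVec_mulVec, Matrix.mulVec_mulVec, h]

/-- matrices commuting with `J` are determined by the images of the generators -/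
theorem ext_gen {M M' : Matrix (Fin 9) (Fin 9) k} (hM : J441 k * M = M * J441 k)
    (hM' : J441 k * M' = M' * J441 k) (h0 : M *ᵥ e 0 = M' *ᵥ e 0) (h4 : M *ᵥ e 4 = M' *ᵥ e 4)
    (h8 : M *ᵥ e 8 = M' *ᵥ e 8) : M = M' := by
  have step : ∀ w w' : Fin 9 → k, J441 k *ᵥ w = w' → M *ᵥ w = M' *ᵥ w → M *ᵥ w' = M' *ᵥ w' := by
    rintro w _ rfl h
    rw [comm_vec hM, comm_vec hM', h]
  have h1 := step _ _ J_e0 h0
  have h2 := step _ _ J_e1 h1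
  have h3 := step _ _ J_e2 h2
  have h5 := step _ _ J_e4 h4
  have h6 := step _ _ J_e5 h5
  have h7 := step _ _ J_e6 h6
  refine ext_e fun l hl => ?_
  interval_cases l
  · exact h0
  · exact h1
  · exact h2
  · exact h3
  · exact h4
  · exact h5
  · exact h6
  · exact h7
  · exact h8

/-- shape of the matrices commuting with `J` -/
theorem shape {M : Matrix (Fin 9) (Fin 9) k} (hM : J441 k * M = M * J441 k) :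
    ∃ K0 K1 K2 K3 ρ κ r, M = Φ K0 K1 K2 K3 ρ κ r := by
  have h8 : J441 k *ᵥ (M *ᵥ e 8) = 0 := by
    rw [← comm_vec hM, J_e8, Matrix.mulVec_zero]
  obtain ⟨w, hw⟩ : ∃ w, w = M *ᵥ e 8 := ⟨_, rfl⟩
  rw [← hw] at h8
  have hc := fun i => congrFun h8 i
  have c1 := hc 1
  have c2 := hc 2
  have c3 := hc 3
  have c5 := hc 5
  have c6 := hc 6
  have c7 := hc 7
  simp [J441, Matrix.mulVec, dotProduct, Fin.sum_univ_succ] at c1 c2 c3 c5 c6 c7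
  refine ⟨!![(M *ᵥ e 0) 0, (M *ᵥ e 4) 0; (M *ᵥ e 0) 4, (M *ᵥ e 4) 4],
    !![(M *ᵥ e 0) 1, (M *ᵥ e 4) 1; (M *ᵥ e 0) 5, (M *ᵥ e 4) 5],
    !![(M *ᵥ e 0) 2, (M *ᵥ e 4) 2; (M *ᵥ e 0) 6, (M *ᵥ e 4) 6],
    !![(M *ᵥ e 0) 3, (M *ᵥ e 4) 3; (M *ᵥ e 0) 7, (M *ᵥ e 4) 7],
    ![(M *ᵥ e 0) 8, (M *ᵥ e 4) 8], ![w 3, w 7], w 8,
    ext_gen hM (J_comm _ _ _ _ _ _ _) ?_ ?_ ?_⟩
  · rw [Φ_e0]
    funext i
    fin_cases i <;> simp [e]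
  · rw [Φ_e4]
    funext i
    fin_cases i <;> simp [e]
  · rw [Φ_e8, ← hw]
    funext i
    fin_cases i
    · simpa [e] using c1
    · simpa [e] using c2
    · simpa [e] using c3
    · simp [e]
    · simpa [e] using c5
    · simpa [e] using c6
    · simpa [e] using c7
    · simp [e]
    · simp [e]

/-! ### nilpotency -/

theorem nil_zero (K1 K2 K3 : Matrix (Fin 2) (Fin 2) k) (ρ κ : Fin 2 → k) :
    IsNilpotent (Φ 0 K1 K2 K3 ρ κ 0) := by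
  refine ⟨4, ?_⟩
  have h4 : ∀ M : Matrix (Fin 9) (Fin 9) k, M ^ 4 = (M * M) * (M * M) := fun M => by
    rw [pow_succ, pow_succ, pow_two, mul_assoc]
  rw [h4, Φ_mul, Φ_mul]
  rw [← Φ_zero]
  congr 1 <;> simp [vecMulVec]
  ext i j
  simp

theorem nil_sq {K0 : Matrix (Fin 2) (Fin 2) k} (h : K0 * K0 = 0)
    (K1 K2 K3 : Matrix (Fin 2) (Fin 2) k) (ρ κ : Fin 2 → k) :
    IsNilpotent (Φ K0 K1 K2 K3 ρ κ 0) := by
  have h1 : Φ K0 K1 K2 K3 ρ κ 0 ^ 2 = Φ 0 (K0 * K1 + K1 * K0) (K0 * K2 + K1 * K1 + K2 * K0)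
      (K0 * K3 + K1 * K2 + K2 * K1 + K3 * K0 + vecMulVec κ ρ) (ρ ᵥ* K0) (K0 *ᵥ κ) 0 := by
    rw [pow_two, Φ_mul, h]
    congr 1 <;> simp
  have h2 := nil_zero (K0 * K1 + K1 * K0) (K0 * K2 + K1 * K1 + K2 * K0)
      (K0 * K3 + K1 * K2 + K2 * K1 + K3 * K0 + vecMulVec κ ρ) (ρ ᵥ* K0) (K0 *ᵥ κ)
  rw [← h1] at h2
  obtain ⟨n, hn⟩ := h2
  exact ⟨2 * n, by rw [pow_mul]; exact hn⟩

theorem of_nil {K0 K1 K2 K3 : Matrix (Fin 2) (Fin 2) k} {ρ κ : Fin 2 → k} {r : k}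
    (h : IsNilpotent (Φ K0 K1 K2 K3 ρ κ r)) : K0 * K0 = 0 ∧ r = 0 := by
  obtain ⟨n, hn⟩ := h
  have key : ∀ n : ℕ, ∃ L1 L2 L3 σ τ, Φ K0 K1 K2 K3 ρ κ r ^ n = Φ (K0 ^ n) L1 L2 L3 σ τ (r ^ n) := by
    intro n
    induction n with
    | zero => exact ⟨0, 0, 0, 0, 0, by rw [pow_zero, pow_zero, pow_zero, Φ_one]⟩
    | succ n ih =>
      obtain ⟨L1, L2, L3, σ, τ, h⟩ := ih
      refine ⟨K0 ^ n * K1 + L1 * K0, K0 ^ n * K2 + L1 * K1 + L2 * K0,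
        K0 ^ n * K3 + L1 * K2 + L2 * K1 + L3 * K0 + vecMulVec τ ρ, σ ᵥ* K0 + r ^ n • ρ,
        K0 ^ n *ᵥ κ + r • τ, ?_⟩
      rw [pow_succ, h, Φ_mul, ← pow_succ, ← pow_succ]
  obtain ⟨L1, L2, L3, σ, τ, h⟩ := key n
  rw [hn, ← Φ_zero] at h
  obtain ⟨h0, -, -, -, -, -, h6⟩ := Φ_inj h
  constructor
  · have h3 := pow_card_eq_zero (M := K0) ⟨n, h0.symm⟩
    rw [Fintype.card_fin, pow_two] at h3
    exact h3
  · exact eq_zero_of_pow_eq_zero h6.symm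

/-! ### changes -/

theorem cl_conj {A B C P Q : Matrix (Fin 9) (Fin 9) k} (hPQ : P * Q = 1) (hQP : Q * P = 1)
    (hA : A * P = P * A) (h : Cl ![A, Q * B * P, Q * C * P]) : Cl ![A, B, C] := by
  have h1 := Cl.conj P Q hPQ hQP h
  convert h1 using 1
  have hx : ∀ M : Matrix (Fin 9) (Fin 9) k, P * (Q * M * P) * Q = M := by
    intro M
    calc P * (Q * M * P) * Q = (P * Q) * M * (P * Q) := by simp only [mul_assoc]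
      _ = M := by rw [hPQ, one_mul, mul_one]
  funext i
  fin_cases i
  · show A = P * A * Q
    rw [← hA, mul_assoc, hPQ, mul_one]
  · exact (hx B).symm
  · exact (hx C).symm

/-- basis changes of `⟨v, u⟩` -/
theorem conj_E {g gi : Matrix (Fin 2) (Fin 2) k} (h1 : g * gi = 1) (h2 : gi * g = 1)
    {K0 K1 K2 K3 L0 L1 L2 L3 : Matrix (Fin 2) (Fin 2) k} {ρ κ σ τ : Fin 2 → k} {r s : k}
    (h : Cl ![J441 k, Φ (gi * K0 * g) (gi * K1 * g) (gi * K2 * g) (gi * K3 * g) (ρ ᵥ* g) (gi *ᵥ κ) r,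
      Φ (gi * L0 * g) (gi * L1 * g) (gi * L2 * g) (gi * L3 * g) (σ ᵥ* g) (gi *ᵥ τ) s]) :
    Cl ![J441 k, Φ K0 K1 K2 K3 ρ κ r, Φ L0 L1 L2 L3 σ τ s] := by
  have hm : ∀ a b : Matrix (Fin 2) (Fin 2) k, a * b = 1 →
      Φ a 0 0 0 0 0 1 * Φ b 0 0 0 0 0 1 = 1 := by
    intro a b hab
    rw [Φ_mul, hab, ← Φ_one]
    congr 1 <;> simp [vecMulVec]
    ext i j
    simp
  have hc : ∀ (K0 K1 K2 K3 : Matrix (Fin 2) (Fin 2) k) (ρ κ : Fin 2 → k) (r : k),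
      Φ gi 0 0 0 0 0 1 * Φ K0 K1 K2 K3 ρ κ r * Φ g 0 0 0 0 0 1 =
      Φ (gi * K0 * g) (gi * K1 * g) (gi * K2 * g) (gi * K3 * g) (ρ ᵥ* g) (gi *ᵥ κ) r := by
    intro K0 K1 K2 K3 ρ κ r
    rw [Φ_mul, Φ_mul]
    have z1 : ∀ w : Fin 2 → k, vecMulVec w (0 : Fin 2 → k) = 0 := by
      intro w; ext i j; simp [vecMulVec]
    have z2 : ∀ w : Fin 2 → k, vecMulVec (0 : Fin 2 → k) w = 0 := by
      intro w; ext i j; simp [vecMulVec]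
    congr 1 <;> simp [z1, z2]
  refine cl_conj (hm g gi h1) (hm gi g h2) (J_comm _ _ _ _ _ _ _) ?_
  rw [hc, hc]
  exact h

end T441

end Pool.Agent.Lib.D9
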