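import Pool.Agent.Lib.D8.Axes
import Pool.Agent.Lib.D9.T441A

/-!
# MP_5dcbc3_ag: Jordan type `(4, 4, 1)`: the normal form of the generic triple
-/

namespace Pool.Agent.Lib.D9

open Matrix Polynomial Pool.Agent.Lib.Q5dc Pool.Agent.Lib.D7 Pool.Agent.Lib.D8

variable {k : Type*} [Field k]

namespace T441

/-- first axis -/
def XX (t1 : k) : Matrix (Fin 9) (Fin 9) k :=
  Φ 0 !![1, 0; 0, 0] !![-t1, 0; 0, 0] 0 ![1, 0] ![t1, 0] 0

/-- second axis -/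
def YY (t1 t2 : k) : Matrix (Fin 9) (Fin 9) k :=
  Φ 0 !![0, 0; 0, 1] !![0, -t1; -t2, -t2] !![t1 * t2, 0; 0, 0] ![0, 1] ![0, t2] 0

/-- third axis -/
def ZZ (t1 t2 : k) : Matrix (Fin 9) (Fin 9) k :=
  Φ 0 0 !![-t1, -t1; -t2, -t2] 0 ![1, 1] ![t1, t2] 0

theorem mul0 (K1 K2 K3 L1 L2 L3 : Matrix (Fin 2) (Fin 2) k) (ρ κ σ τ : Fin 2 → k) :
    Φ 0 K1 K2 K3 ρ κ 0 * Φ 0 L1 L2 L3 σ τ 0 =
    Φ 0 0 (K1 * L1) (K1 * L2 + K2 * L1 + vecMulVec κ σ) 0 0 0 := by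
  rw [Φ_mul]
  congr 1 <;> simp

theorem mul0_eq_zero {K1 K2 K3 L1 L2 L3 : Matrix (Fin 2) (Fin 2) k} {ρ κ σ τ : Fin 2 → k}
    (h1 : K1 * L1 = 0) (h2 : K1 * L2 + K2 * L1 + vecMulVec κ σ = 0) :
    Φ 0 K1 K2 K3 ρ κ 0 * Φ 0 L1 L2 L3 σ τ 0 = 0 := by
  rw [mul0, h1, h2, Φ_zero]

theorem XY (t1 t2 : k) : XX t1 * YY t1 t2 = 0 := by
  refine mul0_eq_zero ?_ ?_ <;> ext i j <;> fin_cases i <;> fin_cases j <;>
    simp [Matrix.mul_apply, Fin.sum_univ_two, vecMulVec]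

theorem YX (t1 t2 : k) : YY t1 t2 * XX t1 = 0 := by
  refine mul0_eq_zero ?_ ?_ <;> ext i j <;> fin_cases i <;> fin_cases j <;>
    simp [Matrix.mul_apply, Fin.sum_univ_two, vecMulVec]

theorem XZ (t1 t2 : k) : XX t1 * ZZ t1 t2 = 0 := by
  refine mul0_eq_zero ?_ ?_ <;> ext i j <;> fin_cases i <;> fin_cases j <;>
    simp [Matrix.mul_apply, Fin.sum_univ_two, vecMulVec]

theorem ZX (t1 t2 : k) : ZZ t1 t2 * XX t1 = 0 := by
  refine mul0_eq_zero ?_ ?_ <;> ext i j <;> fin_cases i <;> fin_cases j <;>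
    simp [Matrix.mul_apply, Fin.sum_univ_two, vecMulVec]

theorem YZ (t1 t2 : k) : YY t1 t2 * ZZ t1 t2 = 0 := by
  refine mul0_eq_zero ?_ ?_ <;> ext i j <;> fin_cases i <;> fin_cases j <;>
    simp [Matrix.mul_apply, Fin.sum_univ_two, vecMulVec]

theorem ZY (t1 t2 : k) : ZZ t1 t2 * YY t1 t2 = 0 := by
  refine mul0_eq_zero ?_ ?_ <;> ext i j <;> fin_cases i <;> fin_cases j <;>
    simp [Matrix.mul_apply, Fin.sum_univ_two, vecMulVec]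

/-- first generator -/
def uu (t2 : k) : Fin 9 → k := e 0 + t2 • e 5 + t2 ^ 2 • e 6

/-- second generator -/
def vv (t1 t2 : k) : Fin 9 → k := uu t2 + (e 4 - t2 • e 8 + (t1 * t2) • e 2)

theorem X_u (t1 t2 : k) : XX t1 *ᵥ uu t2 = e 1 - t1 • e 2 + e 8 := by
  rw [uu, XX]
  simp only [Matrix.mulVec_add, Matrix.mulVec_sub, Matrix.mulVec_smul, Φ_e0, Φ_e5, Φ_e6]
  ext i
  fin_cases i <;> simp [e]

theorem X_w (t1 t2 : k) : XX t1 *ᵥ (e 4 - t2 • e 8 + (t1 * t2) • e 2) = 0 := by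
  rw [XX]
  simp only [Matrix.mulVec_add, Matrix.mulVec_sub, Matrix.mulVec_smul, Φ_e4, Φ_e8, Φ_e2]
  ext i
  fin_cases i <;> simp [e] <;> ring

theorem X_v (t1 t2 : k) : XX t1 *ᵥ vv t1 t2 = e 1 - t1 • e 2 + e 8 := by
  rw [vv, Matrix.mulVec_add, X_u, X_w, add_zero]

theorem X2_v (t1 t2 : k) : XX t1 ^ 2 *ᵥ vv t1 t2 = e 2 - t1 • e 3 := by
  rw [pow_two, ← Matrix.mulVec_mulVec, X_v, XX]
  simp only [Matrix.mulVec_add, Matrix.mulVec_sub, Matrix.mulVec_smul, Φ_e1, Φ_e2, Φ_e8]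
  ext i
  fin_cases i <;> simp [e]

theorem X3_v (t1 t2 : k) : XX t1 ^ 3 *ᵥ vv t1 t2 = e 3 := by
  rw [pow_succ', ← Matrix.mulVec_mulVec, X2_v, XX]
  simp only [Matrix.mulVec_add, Matrix.mulVec_sub, Matrix.mulVec_smul, Φ_e2, Φ_e3]
  ext i
  fin_cases i <;> simp [e]

theorem Y_u (t1 t2 : k) : YY t1 t2 *ᵥ uu t2 = 0 := by
  rw [uu, YY]
  simp only [Matrix.mulVec_add, Matrix.mulVec_sub, Matrix.mulVec_smul, Φ_e0, Φ_e5, Φ_e6]
  ext i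
  fin_cases i <;> simp [e] <;> ring

theorem Y_v (t1 t2 : k) : YY t1 t2 *ᵥ vv t1 t2 =
    e 5 - t1 • e 2 - t2 • e 6 + e 8 - t2 ^ 2 • e 7 := by
  rw [vv, Matrix.mulVec_add, Y_u, zero_add, YY]
  simp only [Matrix.mulVec_add, Matrix.mulVec_sub, Matrix.mulVec_smul, Φ_e4, Φ_e8, Φ_e2]
  ext i
  fin_cases i <;> simp [e] <;> ring

theorem Y2_v (t1 t2 : k) : YY t1 t2 ^ 2 *ᵥ vv t1 t2 = e 6 - t1 • e 3 - t2 • e 7 := by
  rw [pow_two, ← Matrix.mulVec_mulVec, Y_v, YY]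
  simp only [Matrix.mulVec_add, Matrix.mulVec_sub, Matrix.mulVec_smul, Φ_e5, Φ_e2, Φ_e6, Φ_e7,
    Φ_e8]
  ext i
  fin_cases i <;> simp [e]

theorem Y3_v (t1 t2 : k) : YY t1 t2 ^ 3 *ᵥ vv t1 t2 = e 7 := by
  rw [pow_succ', ← Matrix.mulVec_mulVec, Y2_v, YY]
  simp only [Matrix.mulVec_add, Matrix.mulVec_sub, Matrix.mulVec_smul, Φ_e6, Φ_e3, Φ_e7]
  ext i
  fin_cases i <;> simp [e]

theorem Z_u (t1 t2 : k) : ZZ t1 t2 *ᵥ uu t2 =
    e 8 - t1 • e 2 - t2 • e 6 - (t1 * t2) • e 3 - t2 ^ 2 • e 7 := by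
  rw [uu, ZZ]
  simp only [Matrix.mulVec_add, Matrix.mulVec_sub, Matrix.mulVec_smul, Φ_e0, Φ_e5, Φ_e6]
  ext i
  fin_cases i <;> simp [e] <;> ring

theorem Z_v (t1 t2 : k) : ZZ t1 t2 *ᵥ vv t1 t2 =
    (2 : k) • (e 8 - t1 • e 2 - t2 • e 6 - (t1 * t2) • e 3 - t2 ^ 2 • e 7) := by
  rw [vv, Matrix.mulVec_add, Z_u, ZZ]
  simp only [Matrix.mulVec_add, Matrix.mulVec_sub, Matrix.mulVec_smul, Φ_e4, Φ_e8, Φ_e2]
  ext i
  fin_cases i <;> simp [e] <;> ring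

theorem Z2_v (t1 t2 : k) : ZZ t1 t2 ^ 2 *ᵥ vv t1 t2 = (2 : k) • (t1 • e 3 + t2 • e 7) := by
  rw [pow_two, ← Matrix.mulVec_mulVec, Z_v, ZZ]
  simp only [Matrix.mulVec_add, Matrix.mulVec_sub, Matrix.mulVec_smul, Φ_e8, Φ_e2, Φ_e6, Φ_e3,
    Φ_e7]
  ext i
  fin_cases i <;> simp [e]

theorem span_top [CharZero k] (t1 t2 : k) :
    ⊤ ≤ Submodule.span k ({vv t1 t2} ∪ {uu t2} ∪ {x | ∃ i, x = XX t1 ^ (i + 1) *ᵥ vv t1 t2} ∪
      {x | ∃ i, x = YY t1 t2 ^ (i + 1) *ᵥ vv t1 t2} ∪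
      {x | ∃ i, x = ZZ t1 t2 ^ (i + 1) *ᵥ vv t1 t2}) := by
  set S := Submodule.span k ({vv t1 t2} ∪ {uu t2} ∪ {x | ∃ i, x = XX t1 ^ (i + 1) *ᵥ vv t1 t2} ∪
      {x | ∃ i, x = YY t1 t2 ^ (i + 1) *ᵥ vv t1 t2} ∪
      {x | ∃ i, x = ZZ t1 t2 ^ (i + 1) *ᵥ vv t1 t2}) with hS
  have hv : vv t1 t2 ∈ S := Submodule.subset_span (Or.inl (Or.inl (Or.inl (Or.inl rfl))))
  have hu : uu t2 ∈ S := Submodule.subset_span (Or.inl (Or.inl (Or.inl (Or.inr rfl))))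
  have hX1 : (e 1 - t1 • e 2 + e 8 : Fin 9 → k) ∈ S := by
    rw [← X_v t1 t2]
    exact Submodule.subset_span (Or.inl (Or.inl (Or.inr ⟨0, by rw [zero_add, pow_one]⟩)))
  have hX2 : (e 2 - t1 • e 3 : Fin 9 → k) ∈ S := by
    rw [← X2_v t1 t2]
    exact Submodule.subset_span (Or.inl (Or.inl (Or.inr ⟨1, rfl⟩)))
  have hX3 : (e 3 : Fin 9 → k) ∈ S := by
    rw [← X3_v t1 t2]
    exact Submodule.subset_span (Or.inl (Or.inl (Or.inr ⟨2, rfl⟩)))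
  have hY1 : (e 5 - t1 • e 2 - t2 • e 6 + e 8 - t2 ^ 2 • e 7 : Fin 9 → k) ∈ S := by
    rw [← Y_v t1 t2]
    exact Submodule.subset_span (Or.inl (Or.inr ⟨0, by rw [zero_add, pow_one]⟩))
  have hY2 : (e 6 - t1 • e 3 - t2 • e 7 : Fin 9 → k) ∈ S := by
    rw [← Y2_v t1 t2]
    exact Submodule.subset_span (Or.inl (Or.inr ⟨1, rfl⟩))
  have hY3 : (e 7 : Fin 9 → k) ∈ S := by
    rw [← Y3_v t1 t2]
    exact Submodule.subset_span (Or.inl (Or.inr ⟨2, rfl⟩))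
  have hZ1 : (e 8 - t1 • e 2 - t2 • e 6 - (t1 * t2) • e 3 - t2 ^ 2 • e 7 : Fin 9 → k) ∈ S := by
    have h : (2 : k) • (e 8 - t1 • e 2 - t2 • e 6 - (t1 * t2) • e 3 - t2 ^ 2 • e 7 :
        Fin 9 → k) ∈ S := by
      rw [← Z_v t1 t2]
      exact Submodule.subset_span (Or.inr ⟨0, by rw [zero_add, pow_one]⟩)
    have h2 := S.smul_mem (2 : k)⁻¹ h
    rwa [smul_smul, inv_mul_cancel₀ (two_ne_zero), one_smul] at h2
  have h2 : (e 2 : Fin 9 → k) ∈ S := by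
    have := add_mem hX2 (S.smul_mem t1 hX3)
    rwa [sub_add_cancel] at this
  have h6 : (e 6 : Fin 9 → k) ∈ S := by
    have := add_mem (add_mem hY2 (S.smul_mem t2 hY3)) (S.smul_mem t1 hX3)
    have e1 : (e 6 - t1 • e 3 - t2 • e 7 + t2 • e 7 + t1 • e 3 : Fin 9 → k) = e 6 := by abel
    rwa [e1] at this
  have h8 : (e 8 : Fin 9 → k) ∈ S := by
    have := add_mem (add_mem (add_mem (add_mem hZ1 (S.smul_mem t1 h2)) (S.smul_mem t2 h6))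
      (S.smul_mem (t1 * t2) hX3)) (S.smul_mem (t2 ^ 2) hY3)
    have e1 : (e 8 - t1 • e 2 - t2 • e 6 - (t1 * t2) • e 3 - t2 ^ 2 • e 7 + t1 • e 2 + t2 • e 6 +
      (t1 * t2) • e 3 + t2 ^ 2 • e 7 : Fin 9 → k) = e 8 := by abel
    rwa [e1] at this
  have h5 : (e 5 : Fin 9 → k) ∈ S := by
    have := sub_mem (add_mem (add_mem (add_mem hY1 (S.smul_mem t1 h2)) (S.smul_mem t2 h6))
      (S.smul_mem (t2 ^ 2) hY3)) h8
    have e1 : (e 5 - t1 • e 2 - t2 • e 6 + e 8 - t2 ^ 2 • e 7 + t1 • e 2 + t2 • e 6 +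
      t2 ^ 2 • e 7 - e 8 : Fin 9 → k) = e 5 := by abel
    rwa [e1] at this
  have h1 : (e 1 : Fin 9 → k) ∈ S := by
    have := sub_mem (add_mem hX1 (S.smul_mem t1 h2)) h8
    have e1 : (e 1 - t1 • e 2 + e 8 + t1 • e 2 - e 8 : Fin 9 → k) = e 1 := by abel
    rwa [e1] at this
  have h0 : (e 0 : Fin 9 → k) ∈ S := by
    have := sub_mem (sub_mem hu (S.smul_mem t2 h5)) (S.smul_mem (t2 ^ 2) h6)
    have e1 : (uu t2 - t2 • e 5 - t2 ^ 2 • e 6 : Fin 9 → k) = e 0 := by rw [uu]; abel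
    rwa [e1] at this
  have h4 : (e 4 : Fin 9 → k) ∈ S := by
    have := sub_mem (add_mem (sub_mem hv hu) (S.smul_mem t2 h8)) (S.smul_mem (t1 * t2) h2)
    have e1 : (vv t1 t2 - uu t2 + t2 • e 8 - (t1 * t2) • e 2 : Fin 9 → k) = e 4 := by
      rw [vv]; abel
    rwa [e1] at this
  intro x _
  rw [vec_sum x]
  refine Submodule.sum_mem _ fun i _ => S.smul_mem _ ?_
  fin_cases i
  · exact h0
  · exact h1
  · exact h2
  · exact hX3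
  · exact h4
  · exact h5
  · exact h6
  · exact hY3
  · exact h8

/-- the axes triple -/
theorem cl_axes [IsAlgClosed k] [CharZero k] {t1 t2 : k} (ht1 : t1 ≠ 0) (ht2 : t2 ≠ 0) :
    Cl ![XX t1, YY t1 t2, ZZ t1 t2] := by
  have h2 : (2 : k) ≠ 0 := two_ne_zero
  have h := cl_axes3_two (XX t1) (YY t1 t2) (ZZ t1 t2) (vv t1 t2) (uu t2) (p := 3) (q := 3) (r := 2)
    (by norm_num) (by norm_num) (by norm_num) (by simp) (XY t1 t2) (YX t1 t2) (XZ t1 t2)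
    (ZX t1 t2) (YZ t1 t2) (ZY t1 t2) (a := -(t2 / t1)) (b := (2 * t1)⁻¹)
    (neg_ne_zero.2 (div_ne_zero ht2 ht1)) (inv_ne_zero (mul_ne_zero h2 ht1)) (by
      rw [X3_v, Y3_v, Z2_v]
      ext i
      fin_cases i <;> simp [e] <;> field_simp
      ring) (l₀ := 1) (l₁ := 0) (l₂ := 2⁻¹) (by simp) (by
      intro h
      field_simp at h
      norm_num at h) (by
      intro h
      exact inv_ne_zero h2 h.symm) (by rw [X_u, X_v, one_smul]) (by rw [Y_u, zero_smul])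
    (by rw [Z_u, Z_v, smul_smul, inv_mul_cancel₀ h2, one_smul]) (span_top t1 t2)
    (fun i j => if i = j then 1 else 0)
  have h3 : (fun i : Fin 3 => (if i = 0 then (1 : k) else 0) • XX t1 +
      (if i = 1 then (1 : k) else 0) • YY t1 t2 +
      (if i = 2 then (1 : k) else 0) • ZZ t1 t2) = ![XX t1, YY t1 t2, ZZ t1 t2] := by
    funext i
    fin_cases i <;> simp
  rw [h3] at h
  exact h

theorem X2 (t1 : k) : XX t1 * XX t1 = Φ 0 0 !![1, 0; 0, 0] !![-t1, 0; 0, 0] 0 0 0 := by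
  rw [XX, mul0]
  congr 1 <;> ext i j <;> fin_cases i <;> fin_cases j <;>
    simp [Matrix.mul_apply, Fin.sum_univ_two, vecMulVec]

theorem X3 (t1 : k) : XX t1 * XX t1 * XX t1 = Φ 0 0 0 !![1, 0; 0, 0] 0 0 0 := by
  rw [X2, XX, mul0]
  congr 1 <;> ext i j <;> fin_cases i <;> fin_cases j <;>
    simp [Matrix.mul_apply, Fin.sum_univ_two, vecMulVec]

theorem Y2 (t1 t2 : k) : YY t1 t2 * YY t1 t2 =
    Φ 0 0 !![0, 0; 0, 1] !![0, -t1; -t2, -t2] 0 0 0 := by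
  rw [YY, mul0]
  congr 1 <;> ext i j <;> fin_cases i <;> fin_cases j <;>
    simp [Matrix.mul_apply, Fin.sum_univ_two, vecMulVec]

theorem Y3 (t1 t2 : k) : YY t1 t2 * YY t1 t2 * YY t1 t2 = Φ 0 0 0 !![0, 0; 0, 1] 0 0 0 := by
  rw [Y2, YY, mul0]
  congr 1 <;> ext i j <;> fin_cases i <;> fin_cases j <;>
    simp [Matrix.mul_apply, Fin.sum_univ_two, vecMulVec]

theorem Z2 (t1 t2 : k) : ZZ t1 t2 * ZZ t1 t2 = Φ 0 0 0 !![t1, t1; t2, t2] 0 0 0 := by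
  rw [ZZ, mul0]
  congr 1 <;> ext i j <;> fin_cases i <;> fin_cases j <;>
    simp [Matrix.mul_apply, Fin.sum_univ_two, vecMulVec]

theorem cl_adj3 {n : Type*} [Fintype n] [DecidableEq n] {A B C A' B' C' : Matrix n n k}
    (h : Cl ![A, B, C]) (hA : A' ∈ adj ![A, B, C]) (hB : B' ∈ adj ![A, B, C])
    (hC : C' ∈ adj ![A, B, C]) : Cl ![A', B', C'] := by
  refine cl_of_adj (fun i => ?_) h
  fin_cases i
  · exact hA
  · exact hB
  · exact hC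

theorem add3 (K1 K2 K3 L1 L2 L3 : Matrix (Fin 2) (Fin 2) k) (ρ κ σ τ : Fin 2 → k) :
    Φ 0 K1 K2 K3 ρ κ 0 + Φ 0 L1 L2 L3 σ τ 0 =
    Φ 0 (K1 + L1) (K2 + L2) (K3 + L3) (ρ + σ) (κ + τ) 0 := by
  rw [Φ_add, add_zero, add_zero]

/-- the generic triple with diagonal higher terms -/
theorem cl_diag [IsAlgClosed k] [CharZero k] {t1 t2 : k} (ht1 : t1 ≠ 0) (ht2 : t2 ≠ 0)
    (a1 a2 a3 a4 c1 c2 : k) :
    Cl ![J441 k, Φ 0 !![1, 0; 0, 0] !![a1, 0; 0, a2] !![a3, 0; 0, a4] ![1, 0] ![t1, 0] 0,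
      Φ 0 0 !![-t1, -t1; -t2, -t2] !![c1, 0; 0, c2] ![1, 1] ![t1, t2] 0] := by
  have mX : XX t1 ∈ adj ![XX t1, YY t1 t2, ZZ t1 t2] := mem_adj ![XX t1, YY t1 t2, ZZ t1 t2] 0
  have mY : YY t1 t2 ∈ adj ![XX t1, YY t1 t2, ZZ t1 t2] := mem_adj ![XX t1, YY t1 t2, ZZ t1 t2] 1
  have mZ : ZZ t1 t2 ∈ adj ![XX t1, YY t1 t2, ZZ t1 t2] := mem_adj ![XX t1, YY t1 t2, ZZ t1 t2] 2
  have mX2 := mul_mem mX mX
  have mX3 := mul_mem mX2 mX
  have mY2 := mul_mem mY mY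
  have mY3 := mul_mem mY2 mY
  have mZ2 := mul_mem mZ mZ
  have key : ∀ α β γ δ : k, Φ 0 0 !![α, 0; 0, β] !![γ, 0; 0, δ] 0 0 0 ∈
      adj ![XX t1, YY t1 t2, ZZ t1 t2] := by
    intro α β γ δ
    have h := add_mem (add_mem (add_mem (SMulMemClass.smul_mem α mX2)
      (SMulMemClass.smul_mem β (add_mem mY2 mZ2)))
      (SMulMemClass.smul_mem (γ + α * t1 - β * t1) mX3)) (SMulMemClass.smul_mem δ mY3)
    convert h using 1
    rw [X3, X2, Y3, Y2, Z2]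
    simp only [Φ_smul, Φ_add]
    congr 1
    · simp
    · simp
    · ext i j
      fin_cases i <;> fin_cases j <;> simp
    · ext i j
      fin_cases i <;> fin_cases j <;> simp
    · simp
    · simp
    · simp
  refine cl_adj3 (cl_axes ht1 ht2) ?_ ?_ ?_
  · have h := sub_mem (sub_mem (add_mem mX mY) mZ) (key 0 0 (t1 * t2) 0)
    convert h using 1
    rw [Φ_J, XX, YY, ZZ]
    simp only [Φ_sub, Φ_add]
    congr 1
    · simp
    · ext i j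
      fin_cases i <;> fin_cases j <;> simp
    · ext i j
      fin_cases i <;> fin_cases j <;> simp
    · ext i j
      fin_cases i <;> fin_cases j <;> simp
    · ext i
      fin_cases i <;> simp
    · ext i
      fin_cases i <;> simp
    · simp
  · have h := add_mem mX (key (a1 + t1) a2 a3 a4)
    convert h using 1
    rw [XX, add3]
    congr 1
    · simp
    · ext i j
      fin_cases i <;> fin_cases j <;> simp
    · simp
    · simp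
    · simp
  · have h := add_mem mZ (key 0 0 c1 c2)
    convert h using 1
    rw [ZZ, add3]
    congr 1
    · simp
    · ext i j
      fin_cases i <;> fin_cases j <;> simp
    · simp
    · simp
    · simp

end T441

end Pool.Agent.Lib.D9
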