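import Pool.Agent.Lib.D9.T441B

/-!
# MP_5dcbc3_ag: Jordan type `(4, 4, 1)`: the second case, closure steps
-/

namespace Pool.Agent.Lib.D9

open Matrix Polynomial Pool.Agent.Lib.Q5dc Pool.Agent.Lib.D7 Pool.Agent.Lib.D8

variable {k : Type*} [Field k]

namespace T441

/-- all triples with the given leading terms are limits of curvilinear ones -/
def G (K : Matrix (Fin 2) (Fin 2) k) (ρ κ : Fin 2 → k) (D : Matrix (Fin 2) (Fin 2) k)
    (σ τ : Fin 2 → k) : Prop :=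
  ∀ B2 B3 C3, Cl ![J441 k, Φ 0 K B2 B3 ρ κ 0, Φ 0 0 D C3 σ τ 0]

/-- conjugation by unipotent matrices -/
theorem cl_unip {A B C B' C' N : Matrix (Fin 9) (Fin 9) k} (hN : IsNilpotent N)
    (hA : A * N = N * A) (hB : (1 + N) * B' = B * (1 + N)) (hC : (1 + N) * C' = C * (1 + N))
    (h : Cl ![A, B', C']) : Cl ![A, B, C] := by
  obtain ⟨u, hu⟩ : IsUnit (1 + N) := hN.isUnit_one_add
  have h1 : (1 + N) * (↑u⁻¹ : Matrix (Fin 9) (Fin 9) k) = 1 := by rw [← hu]; exact u.mul_inv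
  have h2 : (↑u⁻¹ : Matrix (Fin 9) (Fin 9) k) * (1 + N) = 1 := by rw [← hu]; exact u.inv_mul
  refine cl_conj h1 h2 (by rw [mul_add, add_mul, hA, mul_one, one_mul]) ?_
  have e1 : (↑u⁻¹ : Matrix (Fin 9) (Fin 9) k) * B * (1 + N) = B' := by
    rw [mul_assoc, ← hB, ← mul_assoc, h2, one_mul]
  have e2 : (↑u⁻¹ : Matrix (Fin 9) (Fin 9) k) * C * (1 + N) = C' := by
    rw [mul_assoc, ← hC, ← mul_assoc, h2, one_mul]
  rw [e1, e2]
  exact h

theorem one_add_Φ (G1 G2 : Matrix (Fin 2) (Fin 2) k) (σ : Fin 2 → k) :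
    1 + Φ 0 G1 G2 0 σ 0 0 = Φ 1 G1 G2 0 σ 0 1 := by
  rw [← Φ_one, Φ_add]
  congr 1 <;> simp

theorem exists_unip {t1 t2 : k} (ht1 : t1 ≠ 0) (ht2 : t2 ≠ 0)
    (B2 B3 C3 : Matrix (Fin 2) (Fin 2) k) :
    ∃ (G1 G2 : Matrix (Fin 2) (Fin 2) k) (σ : Fin 2 → k) (a1 a2 a3 a4 c1 c2 : k),
      !![a1, 0; 0, a2] + G1 * !![1, 0; 0, 0] = !![1, 0; 0, 0] * G1 + B2 ∧
      !![a3, 0; 0, a4] + G1 * !![a1, 0; 0, a2] + G2 * !![1, 0; 0, 0] =
        !![1, 0; 0, 0] * G2 + B2 * G1 + B3 + vecMulVec ![t1, 0] σ ∧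
      !![c1, 0; 0, c2] + G1 * !![-t1, -t1; -t2, -t2] =
        !![-t1, -t1; -t2, -t2] * G1 + C3 + vecMulVec ![t1, t2] σ := by
  obtain ⟨s1, hs1⟩ : ∃ s1, t1 * s1 = -(C3 0 1) + (-(B2 0 1)) * (-t2) - (-t1) * (-(B2 0 1)) :=
    ⟨(-(C3 0 1) + (-(B2 0 1)) * (-t2) - (-t1) * (-(B2 0 1))) / t1, by field_simp⟩
  obtain ⟨s0, hs0⟩ : ∃ s0, t2 * s0 = -(C3 1 0) + B2 1 0 * (-t1) - (-t2) * (B2 1 0) :=
    ⟨(-(C3 1 0) + B2 1 0 * (-t1) - (-t2) * (B2 1 0)) / t2, by field_simp⟩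
  refine ⟨!![0, -(B2 0 1); B2 1 0, 0], !![0, -(B3 0 1 + B2 0 0 * (-(B2 0 1)) + t1 * s1 +
      B2 0 1 * B2 1 1); B3 1 0 + B2 1 1 * B2 1 0 - B2 1 0 * B2 0 0, 0], ![s0, s1], B2 0 0, B2 1 1,
      B3 0 0 + B2 0 1 * B2 1 0 + t1 * s0, B3 1 1 + B2 1 0 * (-(B2 0 1)),
      C3 0 0 + (-t1) * B2 1 0 + t1 * s0 + B2 0 1 * (-t2),
      C3 1 1 + (-t2) * (-(B2 0 1)) + t2 * s1 - B2 1 0 * (-t1), ?_, ?_, ?_⟩
  · ext i j
    fin_cases i <;> fin_cases j <;> simp [Matrix.mul_apply, Fin.sum_univ_two, vecMulVec]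
  · ext i j
    fin_cases i <;> fin_cases j <;> simp [Matrix.mul_apply, Fin.sum_univ_two, vecMulVec] <;> ring
  · ext i j
    fin_cases i <;> fin_cases j <;> simp [Matrix.mul_apply, Fin.sum_univ_two, vecMulVec]
    · ring
    · linear_combination -hs1
    · linear_combination -hs0
    · ring

/-- the generic triple, `K` a projection -/
theorem G_proj [IsAlgClosed k] [CharZero k] {t1 t2 : k} (ht1 : t1 ≠ 0) (ht2 : t2 ≠ 0) :
    G !![1, 0; 0, 0] ![1, 0] ![t1, 0] !![-t1, -t1; -t2, -t2] ![1, 1] ![t1, t2] := by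
  intro B2 B3 C3
  obtain ⟨G1, G2, σ, a1, a2, a3, a4, c1, c2, h1, h2, h3⟩ := exists_unip ht1 ht2 B2 B3 C3
  have hc : J441 k * Φ 0 G1 G2 0 σ 0 0 = Φ 0 G1 G2 0 σ 0 0 * J441 k := J_comm _ _ _ _ _ _ _
  refine cl_unip (nil_zero G1 G2 0 σ 0) hc ?_ ?_ (cl_diag ht1 ht2 a1 a2 a3 a4 c1 c2)
  · rw [one_add_Φ, Φ_mul, Φ_mul]
    congr 1
    · simp
    · simp
    · simpa using h1
    · simp only [one_mul, mul_one, zero_mul, mul_zero, zero_add, add_zero, Matrix.zero_vecMul]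
      have z : vecMulVec (0 : Fin 2 → k) ![(1 : k), 0] = 0 := by ext i j; simp [vecMulVec]
      rw [z, add_zero, h2]
    · simp
    · simp
    · simp
  · rw [one_add_Φ, Φ_mul, Φ_mul]
    congr 1
    · simp
    · simp
    · simp
    · simp only [one_mul, mul_one, zero_mul, mul_zero, zero_add, add_zero]
      have z : vecMulVec (0 : Fin 2 → k) ![(1 : k), 1] = 0 := by ext i j; simp [vecMulVec]
      rw [z, add_zero, h3]
    · simp
    · simp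
    · simp

theorem cl_adjc {n : Type*} [Fintype n] [DecidableEq n] {A B C B' C' : Matrix n n k}
    (h : Cl ![A, B', C']) {a0 b0 c0 d0 e0 a1 b1 c1 d1 e1 : k}
    (hB : B = a0 • A + b0 • B' + c0 • C' + d0 • (A * A) + e0 • (A * B'))
    (hC : C = a1 • A + b1 • B' + c1 • C' + d1 • (A * A) + e1 • (A * B')) : Cl ![A, B, C] := by
  have m0 : A ∈ adj ![A, B', C'] := mem_adj ![A, B', C'] 0
  have m1 : B' ∈ adj ![A, B', C'] := mem_adj ![A, B', C'] 1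
  have m2 : C' ∈ adj ![A, B', C'] := mem_adj ![A, B', C'] 2
  have key : ∀ a b c d e : k, a • A + b • B' + c • C' + d • (A * A) + e • (A * B') ∈
      adj ![A, B', C'] := by
    intro a b c d e
    exact add_mem (add_mem (add_mem (add_mem (SMulMemClass.smul_mem a m0)
      (SMulMemClass.smul_mem b m1)) (SMulMemClass.smul_mem c m2))
      (SMulMemClass.smul_mem d (mul_mem m0 m0))) (SMulMemClass.smul_mem e (mul_mem m0 m1))
  refine cl_adj3 h m0 ?_ ?_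
  · rw [hB]; exact key _ _ _ _ _
  · rw [hC]; exact key _ _ _ _ _

theorem comb (K B2 B3 D C3 : Matrix (Fin 2) (Fin 2) k) (ρ κ σ τ : Fin 2 → k) (a b c d e : k) :
    a • J441 k + b • Φ 0 K B2 B3 ρ κ 0 + c • Φ 0 0 D C3 σ τ 0 + d • (J441 k * J441 k) +
      e • (J441 k * Φ 0 K B2 B3 ρ κ 0) =
    Φ 0 (a • 1 + b • K) (b • B2 + c • D + d • 1 + e • K) (b • B3 + c • C3 + e • B2)
      (b • ρ + c • σ) (b • κ + c • τ) 0 := by
  rw [Φ_J, mul0, mul0]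
  have z1 : vecMulVec (0 : Fin 2 → k) (0 : Fin 2 → k) = 0 := by ext i j; simp [vecMulVec]
  have z2 : vecMulVec (0 : Fin 2 → k) ρ = 0 := by ext i j; simp [vecMulVec]
  simp only [Φ_smul, Φ_add, z1, z2]
  congr 1 <;> simp

/-- linear changes of the last two matrices -/
theorem G_of {K D K' D' : Matrix (Fin 2) (Fin 2) k} {ρ κ σ τ ρ' κ' σ' τ' : Fin 2 → k}
    (h : G K' ρ' κ' D' σ' τ') {a b c d e f : k} (hb : b ≠ 0) (hf : f ≠ 0)
    (hK : K = a • 1 + b • K') (hρ : ρ = b • ρ' + c • σ') (hκ : κ = b • κ' + c • τ')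
    (hD : D = d • 1 + e • K' + f • D') (hσ : σ = f • σ') (hτ : τ = f • τ') : G K ρ κ D σ τ := by
  intro B2 B3 C3
  have h1 := h (b⁻¹ • (B2 - c • D')) (b⁻¹ • (B3 - c • (f⁻¹ • (C3 - e • (b⁻¹ • (B2 - c • D'))))))
    (f⁻¹ • (C3 - e • (b⁻¹ • (B2 - c • D'))))
  refine cl_adjc h1 (a0 := a) (b0 := b) (c0 := c) (d0 := 0) (e0 := 0) (a1 := 0) (b1 := 0)
    (c1 := f) (d1 := d) (e1 := e) ?_ ?_
  · rw [comb, hK, hρ, hκ]
    congr 1
    · rw [smul_smul, mul_inv_cancel₀ hb, one_smul, zero_smul, zero_smul, add_zero, add_zero,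
        sub_add_cancel]
    · rw [smul_smul, mul_inv_cancel₀ hb, one_smul, zero_smul, add_zero, sub_add_cancel]
  · rw [comb, hD, hσ, hτ]
    congr 1
    · simp
    · rw [zero_smul, zero_add]; abel
    · rw [zero_smul, zero_add, smul_smul f, mul_inv_cancel₀ hf, one_smul, sub_add_cancel]
    · rw [zero_smul, zero_add]
    · rw [zero_smul, zero_add]

/-- basis changes -/
theorem G_conj {g gi : Matrix (Fin 2) (Fin 2) k} (h1 : g * gi = 1) (h2 : gi * g = 1)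
    {K D : Matrix (Fin 2) (Fin 2) k} {ρ κ σ τ : Fin 2 → k}
    (h : G (gi * K * g) (ρ ᵥ* g) (gi *ᵥ κ) (gi * D * g) (σ ᵥ* g) (gi *ᵥ τ)) : G K ρ κ D σ τ := by
  intro B2 B3 C3
  refine conj_E h1 h2 ?_
  have h3 := h (gi * B2 * g) (gi * B3 * g) (gi * C3 * g)
  simpa using h3

/-- the reversal -/
def sg : Fin 9 ≃ Fin 9 :=
  ⟨![3, 2, 1, 0, 7, 6, 5, 4, 8], ![3, 2, 1, 0, 7, 6, 5, 4, 8], by decide, by decide⟩

theorem Φ_sg (K0 K1 K2 K3 : Matrix (Fin 2) (Fin 2) k) (ρ κ : Fin 2 → k) (r : k) (i j : Fin 9) :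
    Φ K0 K1 K2 K3 ρ κ r (sg j) (sg i) = Φ K0ᵀ K1ᵀ K2ᵀ K3ᵀ κ ρ r i j := by
  fin_cases i <;> fin_cases j <;> simp [Φ, sg]

theorem cl_dual {K0 K1 K2 K3 L0 L1 L2 L3 : Matrix (Fin 2) (Fin 2) k} {ρ κ σ τ : Fin 2 → k}
    {r s : k} (h : Cl ![J441 k, Φ K0ᵀ K1ᵀ K2ᵀ K3ᵀ κ ρ r, Φ L0ᵀ L1ᵀ L2ᵀ L3ᵀ τ σ s]) :
    Cl ![J441 k, Φ K0 K1 K2 K3 ρ κ r, Φ L0 L1 L2 L3 σ τ s] := by
  have h5 := Cl.transpose (Cl.mapEquiv (Matrix.reindexAlgEquiv k k sg.symm) rfl h)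
  have h6 : ∀ M : Matrix (Fin 9) (Fin 9) k, ∀ r c,
      (Matrix.reindexAlgEquiv k k sg.symm M).transpose r c = M (sg c) (sg r) :=
    fun M r c => rfl
  convert h5 using 1
  funext i
  fin_cases i
  · ext r c
    show J441 k r c = (Matrix.reindexAlgEquiv k k sg.symm (J441 k)).transpose r c
    rw [h6, Φ_J, Φ_sg]
    simp
  · ext r' c
    show Φ K0 K1 K2 K3 ρ κ r r' c = (Matrix.reindexAlgEquiv k k sg.symm
      (Φ K0ᵀ K1ᵀ K2ᵀ K3ᵀ κ ρ r)).transpose r' c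
    rw [h6, Φ_sg]
    simp
  · ext r c
    show Φ L0 L1 L2 L3 σ τ s r c = (Matrix.reindexAlgEquiv k k sg.symm
      (Φ L0ᵀ L1ᵀ L2ᵀ L3ᵀ τ σ s)).transpose r c
    rw [h6, Φ_sg]
    simp

theorem G_dual {K D : Matrix (Fin 2) (Fin 2) k} {ρ κ σ τ : Fin 2 → k}
    (h : G Kᵀ κ ρ Dᵀ τ σ) : G K ρ κ D σ τ := by
  intro B2 B3 C3
  refine cl_dual ?_
  have h1 := h B2ᵀ B3ᵀ C3ᵀ
  simpa using h1

/-! ### polynomial families -/

/-- polynomial families of 2 x 2 matrices -/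
def PM (f : k → Matrix (Fin 2) (Fin 2) k) : Prop := ∀ i j, D7.IsPoly fun t => f t i j

/-- polynomial families of vectors -/
def PV (f : k → Fin 2 → k) : Prop := ∀ i, D7.IsPoly fun t => f t i

theorem PM.const (M : Matrix (Fin 2) (Fin 2) k) : PM fun _ : k => M := fun _ _ => D7.IsPoly.const _

theorem PV.const (v : Fin 2 → k) : PV fun _ : k => v := fun _ => D7.IsPoly.const _

theorem PM.add {f g : k → Matrix (Fin 2) (Fin 2) k} (hf : PM f) (hg : PM g) :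
    PM fun t => f t + g t := fun i j => (hf i j).add (hg i j)

theorem PV.add {f g : k → Fin 2 → k} (hf : PV f) (hg : PV g) : PV fun t => f t + g t :=
  fun i => (hf i).add (hg i)

theorem PM.sub {f g : k → Matrix (Fin 2) (Fin 2) k} (hf : PM f) (hg : PM g) :
    PM fun t => f t - g t := fun i j => (hf i j).sub (hg i j)

theorem PV.sub {f g : k → Fin 2 → k} (hf : PV f) (hg : PV g) : PV fun t => f t - g t :=
  fun i => (hf i).sub (hg i)

theorem PM.smul {c : k → k} {f : k → Matrix (Fin 2) (Fin 2) k} (hc : D7.IsPoly c) (hf : PM f) :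
    PM fun t => c t • f t := fun i j => hc.mul (hf i j)

theorem PV.smul {c : k → k} {f : k → Fin 2 → k} (hc : D7.IsPoly c) (hf : PV f) :
    PV fun t => c t • f t := fun i => hc.mul (hf i)

theorem PM.mul {f g : k → Matrix (Fin 2) (Fin 2) k} (hf : PM f) (hg : PM g) :
    PM fun t => f t * g t := fun i j => by
  simp only [Matrix.mul_apply, Fin.sum_univ_two]
  exact ((hf i 0).mul (hg 0 j)).add ((hf i 1).mul (hg 1 j))

theorem PV.mulVec {f : k → Matrix (Fin 2) (Fin 2) k} {g : k → Fin 2 → k} (hf : PM f)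
    (hg : PV g) : PV fun t => f t *ᵥ g t := fun i => by
  simp only [Matrix.mulVec, dotProduct, Fin.sum_univ_two]
  exact ((hf i 0).mul (hg 0)).add ((hf i 1).mul (hg 1))

theorem PV.vecMul {f : k → Matrix (Fin 2) (Fin 2) k} {g : k → Fin 2 → k} (hf : PM f)
    (hg : PV g) : PV fun t => g t ᵥ* f t := fun i => by
  simp only [Matrix.vecMul, dotProduct, Fin.sum_univ_two]
  exact ((hg 0).mul (hf 0 i)).add ((hg 1).mul (hf 1 i))

theorem PM.vecMulVec {f g : k → Fin 2 → k} (hf : PV f) (hg : PV g) :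
    PM fun t => vecMulVec (f t) (g t) := fun i j => (hf i).mul (hg j)

theorem PM.line (M M' : Matrix (Fin 2) (Fin 2) k) : PM fun t : k => M + t • M' :=
  (PM.const M).add (PM.smul D7.IsPoly.id (PM.const M'))

theorem PV.line (v v' : Fin 2 → k) : PV fun t : k => v + t • v' :=
  (PV.const v).add (PV.smul D7.IsPoly.id (PV.const v'))

theorem poly_Φ {K1 K2 K3 : k → Matrix (Fin 2) (Fin 2) k} {ρ κ : k → Fin 2 → k} (h1 : PM K1)
    (h2 : PM K2) (h3 : PM K3) (hρ : PV ρ) (hκ : PV κ) (i j : Fin 9) :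
    D7.IsPoly fun t => Φ 0 (K1 t) (K2 t) (K3 t) (ρ t) (κ t) 0 i j := by
  have h0 : D7.IsPoly fun _ : k => (0 : k) := D7.IsPoly.const 0
  have a1 := h1 0 0
  have a2 := h1 0 1
  have a3 := h1 1 0
  have a4 := h1 1 1
  have b1 := h2 0 0
  have b2 := h2 0 1
  have b3 := h2 1 0
  have b4 := h2 1 1
  have c1 := h3 0 0
  have c2 := h3 0 1
  have c3 := h3 1 0
  have c4 := h3 1 1
  have d1 := hρ 0
  have d2 := hρ 1
  have d3 := hκ 0
  have d4 := hκ 1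
  fin_cases i <;> fin_cases j <;> simp [Φ] <;> assumption

/-- limits -/
theorem G_limit [Infinite k] {K D : k → Matrix (Fin 2) (Fin 2) k} {ρ κ σ τ : k → Fin 2 → k}
    (hK : PM K) (hD : PM D) (hρ : PV ρ) (hκ : PV κ) (hσ : PV σ) (hτ : PV τ) {E : Set k}
    (hE : E.Finite) (h : ∀ t ∉ E, G (K t) (ρ t) (κ t) (D t) (σ t) (τ t)) :
    G (K 0) (ρ 0) (κ 0) (D 0) (σ 0) (τ 0) := by
  intro B2 B3 C3
  by_contra h0
  have hf := finite_cl (fun t => ![J441 k, Φ 0 (K t) B2 B3 (ρ t) (κ t) 0,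
    Φ 0 0 (D t) C3 (σ t) (τ t) 0]) (by
      intro l i j
      fin_cases l
      · exact D7.IsPoly.const _
      · exact poly_Φ hK (PM.const _) (PM.const _) hρ hκ i j
      · exact poly_Φ (PM.const _) hD (PM.const _) hσ hτ i j) h0
  obtain ⟨s, hs⟩ := (hf.union hE).exists_notMem
  simp only [Set.mem_union, Set.mem_ofPred_eq, not_or] at hs
  exact hs.1 (h s hs.2 B2 B3 C3)

end T441

end Pool.Agent.Lib.D9
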