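import Pool.Agent.Lib.D9.T441C

/-!
# MP_5dcbc3_ag: Jordan type `(4, 4, 1)`: the second case
-/

namespace Pool.Agent.Lib.D9

open Matrix Polynomial Pool.Agent.Lib.Q5dc Pool.Agent.Lib.D7 Pool.Agent.Lib.D8

variable {k : Type*} [Field k]

namespace T441

/-- a 2 x 2 matrix in terms of the images of the basis vectors -/
theorem diag_aux {a b c d x y z w p1 q1 p2 q2 l1 l2 r1 r2 δ c0 : k}
    (h1 : a * p1 + b * q1 = l1 * p1) (h2 : c * p1 + d * q1 = l1 * q1)
    (h3 : a * p2 + b * q2 = l2 * p2) (h4 : c * p2 + d * q2 = l2 * q2)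
    (h5 : p1 * q2 - p2 * q1 = δ * c0) (h6 : x * q2 - y * p2 = c0) (h7 : x * q1 - y * p1 = c0)
    (h8 : z * p1 + w * q1 = r1) (h9 : z * p2 + w * q2 = r2) (hr1 : r1 ≠ 0) (hr2 : r2 ≠ 0)
    (hδ : δ ≠ 0) (hc : c0 ≠ 0) :
    ∃ g gi : Matrix (Fin 2) (Fin 2) k, g * gi = 1 ∧ gi * g = 1 ∧
      gi * !![a, b; c, d] * g = !![l1, 0; 0, l2] ∧ ![z, w] ᵥ* g = ![1, 1] ∧
      gi *ᵥ ![x, y] = ![r1 / δ, -(r2 / δ)] := by
  obtain ⟨i1, hi1⟩ : ∃ i, i * r1 = 1 := ⟨r1⁻¹, inv_mul_cancel₀ hr1⟩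
  obtain ⟨i2, hi2⟩ : ∃ i, i * r2 = 1 := ⟨r2⁻¹, inv_mul_cancel₀ hr2⟩
  obtain ⟨j, hj⟩ : ∃ j, j * (δ * c0) = 1 := ⟨(δ * c0)⁻¹, inv_mul_cancel₀ (mul_ne_zero hδ hc)⟩
  have hgg : (!![p1 * i1, p2 * i2; q1 * i1, q2 * i2] : Matrix (Fin 2) (Fin 2) k) *
      !![j * r1 * q2, -(j * r1 * p2); -(j * r2 * q1), j * r2 * p1] = 1 := by
    ext m n
    fin_cases m <;> fin_cases n <;> simp [Matrix.mul_apply, Fin.sum_univ_two]
    · linear_combination (j * p1 * q2) * hi1 - (j * p2 * q1) * hi2 + j * h5 + hj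
    · linear_combination -(j * p1 * p2) * hi1 + (j * p1 * p2) * hi2
    · linear_combination (j * q1 * q2) * hi1 - (j * q1 * q2) * hi2
    · linear_combination -(j * q1 * p2) * hi1 + (j * q2 * p1) * hi2 + j * h5 + hj
  have hgg' : (!![j * r1 * q2, -(j * r1 * p2); -(j * r2 * q1), j * r2 * p1] :
      Matrix (Fin 2) (Fin 2) k) * !![p1 * i1, p2 * i2; q1 * i1, q2 * i2] = 1 :=
    mul_eq_one_comm.1 hgg
  refine ⟨!![p1 * i1, p2 * i2; q1 * i1, q2 * i2],
    !![j * r1 * q2, -(j * r1 * p2); -(j * r2 * q1), j * r2 * p1], hgg, hgg', ?_, ?_, ?_⟩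
  · have e : !![a, b; c, d] * !![p1 * i1, p2 * i2; q1 * i1, q2 * i2] =
        !![p1 * i1, p2 * i2; q1 * i1, q2 * i2] * !![l1, 0; 0, l2] := by
      ext m n
      fin_cases m <;> fin_cases n <;> simp [Matrix.mul_apply, Fin.sum_univ_two]
      · linear_combination i1 * h1
      · linear_combination i2 * h3
      · linear_combination i1 * h2
      · linear_combination i2 * h4
    rw [mul_assoc, e, ← mul_assoc, hgg', one_mul]
  · ext m
    fin_cases m <;> simp [Matrix.vecMul, dotProduct, Fin.sum_univ_two]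
    · linear_combination i1 * h8 + hi1
    · linear_combination i2 * h9 + hi2
  · have e1 : r1 / δ = j * r1 * c0 := by
      field_simp
      linear_combination -hj
    have e2 : r2 / δ = j * r2 * c0 := by
      field_simp
      linear_combination -hj
    rw [e1, e2]
    ext m
    fin_cases m <;> simp [Matrix.mulVec, dotProduct, Fin.sum_univ_two]
    · linear_combination (j * r1) * h6
    · linear_combination -(j * r2) * h7

/-- `κ` is a cyclic vector of `K` -/
def cyc (K : Matrix (Fin 2) (Fin 2) k) (κ : Fin 2 → k) : k :=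
  κ 0 * (K *ᵥ κ) 1 - κ 1 * (K *ᵥ κ) 0

/-- discriminant -/
def disc (K : Matrix (Fin 2) (Fin 2) k) : k := (K 0 0 - K 1 1) ^ 2 + 4 * K 0 1 * K 1 0

theorem exists_diag [IsAlgClosed k] [CharZero k] {K : Matrix (Fin 2) (Fin 2) k}
    {ρ κ : Fin 2 → k} (hκ : cyc K κ ≠ 0) (hρ : cyc Kᵀ ρ ≠ 0) (hd : disc K ≠ 0) :
    ∃ g gi : Matrix (Fin 2) (Fin 2) k, ∃ k1 k2 t1 t2 : k, g * gi = 1 ∧ gi * g = 1 ∧
      k1 - k2 ≠ 0 ∧ t1 ≠ 0 ∧ t2 ≠ 0 ∧
      gi * K * g = !![k1, 0; 0, k2] ∧ ρ ᵥ* g = ![1, 1] ∧ gi *ᵥ κ = ![t1, t2] := by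
  obtain ⟨δ, hδ2⟩ := IsAlgClosed.exists_pow_nat_eq (disc K) (n := 2) (by norm_num)
  have hδ : δ ≠ 0 := by
    rintro rfl
    apply hd
    rw [← hδ2]
    ring
  have h2 : (2 : k) ≠ 0 := two_ne_zero
  obtain ⟨l1, hl1⟩ : ∃ l1, 2 * l1 = K 0 0 + K 1 1 + δ := ⟨(K 0 0 + K 1 1 + δ) / 2, by field_simp⟩
  obtain ⟨l2, hl2⟩ : ∃ l2, 2 * l2 = K 0 0 + K 1 1 - δ := ⟨(K 0 0 + K 1 1 - δ) / 2, by field_simp⟩
  have hs : l1 + l2 = K 0 0 + K 1 1 := mul_left_cancel₀ h2 (by linear_combination hl1 + hl2)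
  have hdl : l1 - l2 = δ := mul_left_cancel₀ h2 (by linear_combination hl1 - hl2)
  have hp : l1 * l2 = K 0 0 * K 1 1 - K 0 1 * K 1 0 := by
    unfold disc at hδ2
    refine mul_left_cancel₀ (mul_ne_zero h2 h2) ?_
    linear_combination (2 * l2) * hl1 + (K 0 0 + K 1 1 + δ) * hl2 - hδ2
  obtain ⟨a, ha⟩ : ∃ a, K 0 0 = a := ⟨_, rfl⟩
  obtain ⟨b, hb⟩ : ∃ a, K 0 1 = a := ⟨_, rfl⟩
  obtain ⟨c, hc⟩ : ∃ a, K 1 0 = a := ⟨_, rfl⟩
  obtain ⟨d, hd'⟩ : ∃ a, K 1 1 = a := ⟨_, rfl⟩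
  obtain ⟨x, hx⟩ : ∃ a, κ 0 = a := ⟨_, rfl⟩
  obtain ⟨y, hy⟩ : ∃ a, κ 1 = a := ⟨_, rfl⟩
  obtain ⟨z, hz⟩ : ∃ a, ρ 0 = a := ⟨_, rfl⟩
  obtain ⟨w, hw⟩ : ∃ a, ρ 1 = a := ⟨_, rfl⟩
  have eK : K = !![a, b; c, d] := by
    ext i j
    fin_cases i <;> fin_cases j
    · exact ha
    · exact hb
    · exact hc
    · exact hd'
  have eκ : κ = ![x, y] := by
    ext i
    fin_cases i
    · exact hx
    · exact hy
  have eρ : ρ = ![z, w] := by
    ext i
    fin_cases i
    · exact hz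
    · exact hw
  rw [ha, hd'] at hs
  rw [ha, hb, hc, hd'] at hp
  subst eK eκ eρ
  simp only [cyc, Matrix.mulVec, dotProduct, Fin.sum_univ_two, Matrix.transpose_apply,
    Matrix.cons_val_zero, Matrix.cons_val_one, Matrix.of_apply, Matrix.cons_val'] at hκ hρ
  have hr : (z * (a * x + b * y - l2 * x) + w * (c * x + d * y - l2 * y)) *
      (z * (a * x + b * y - l1 * x) + w * (c * x + d * y - l1 * y)) =
      -((x * (c * x + d * y) - y * (a * x + b * y)) *
        (z * (b * z + d * w) - w * (a * z + c * w))) := by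
    linear_combination (-(z * x + w * y) * (z * (a * x + b * y) + w * (c * x + d * y))) * hs +
      (z * x + w * y) ^ 2 * hp
  have hr0 := neg_ne_zero.2 (mul_ne_zero hκ hρ)
  rw [← hr] at hr0
  have hr1 := left_ne_zero_of_mul hr0
  have hr2 := right_ne_zero_of_mul hr0
  obtain ⟨g, gi, e1, e2, e3, e4, e5⟩ := diag_aux (a := a) (b := b) (c := c) (d := d) (x := x)
    (y := y) (z := z) (w := w) (p1 := a * x + b * y - l2 * x) (q1 := c * x + d * y - l2 * y)
    (p2 := a * x + b * y - l1 * x) (q2 := c * x + d * y - l1 * y) (l1 := l1) (l2 := l2)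
    (δ := δ) (c0 := x * (c * x + d * y) - y * (a * x + b * y))
    (by linear_combination (-(a * x + b * y)) * hs + x * hp)
    (by linear_combination (-(c * x + d * y)) * hs + y * hp)
    (by linear_combination (-(a * x + b * y)) * hs + x * hp)
    (by linear_combination (-(c * x + d * y)) * hs + y * hp)
    (by rw [← hdl]; ring) (by ring) (by ring) rfl rfl hr1 hr2 hδ hκ
  exact ⟨g, gi, l1, l2, _, _, e1, e2, by rw [hdl]; exact hδ, div_ne_zero hr1 hδ,
    neg_ne_zero.2 (div_ne_zero hr2 hδ), e3, e4, e5⟩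

/-! ### the family `κ` cyclic -/

/-- the generic triple, `K` diagonal -/
theorem G_diag [IsAlgClosed k] [CharZero k] {t1 t2 k1 k2 : k} (ht1 : t1 ≠ 0) (ht2 : t2 ≠ 0)
    (hk : k1 - k2 ≠ 0) :
    G !![k1, 0; 0, k2] ![k1, k2] ![k1 * t1, k2 * t2] !![-t1, -t1; -t2, -t2] ![1, 1] ![t1, t2] := by
  refine G_of (G_proj ht1 ht2) (a := k2) (b := k1 - k2) (c := k2) (d := 0) (e := 0) (f := 1) hk
    one_ne_zero ?_ ?_ ?_ ?_ ?_ ?_
  · ext i j
    fin_cases i <;> fin_cases j <;> simp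
  · ext i
    fin_cases i <;> simp
  · ext i
    fin_cases i <;> simp
    ring
  · simp
  · simp
  · simp

theorem F1_one [IsAlgClosed k] [CharZero k] {K : Matrix (Fin 2) (Fin 2) k}
    {ρ κ : Fin 2 → k} (hκ : cyc K κ ≠ 0) (hρ : cyc Kᵀ ρ ≠ 0) (hd : disc K ≠ 0) :
    G K (ρ ᵥ* K) (K *ᵥ κ) (-vecMulVec κ ρ) ρ κ := by
  obtain ⟨g, gi, k1, k2, t1, t2, h1, h2, hk, ht1, ht2, e1, e2, e3⟩ := exists_diag hκ hρ hd
  refine G_conj h1 h2 ?_
  have f1 : (ρ ᵥ* K) ᵥ* g = ![k1, k2] := by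
    have : (ρ ᵥ* K) ᵥ* g = (ρ ᵥ* g) ᵥ* (gi * K * g) := by
      rw [Matrix.vecMul_vecMul, Matrix.vecMul_vecMul, ← mul_assoc, ← mul_assoc, h1, one_mul]
    rw [this, e1, e2]
    ext i
    fin_cases i <;> simp [Matrix.vecMul, dotProduct, Fin.sum_univ_two]
  have f2 : gi *ᵥ (K *ᵥ κ) = ![k1 * t1, k2 * t2] := by
    have : gi *ᵥ (K *ᵥ κ) = (gi * K * g) *ᵥ (gi *ᵥ κ) := by
      rw [Matrix.mulVec_mulVec, Matrix.mulVec_mulVec, mul_assoc (gi * K), h1, mul_one]
    rw [this, e1, e3]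
    ext i
    fin_cases i <;> simp [Matrix.mulVec, dotProduct, Fin.sum_univ_two]
  have f3 : gi * (-vecMulVec κ ρ) * g = !![-t1, -t1; -t2, -t2] := by
    rw [mul_neg, neg_mul, Matrix.mul_vecMulVec, Matrix.vecMulVec_mul, e2, e3]
    ext i j
    fin_cases i <;> fin_cases j <;> simp [vecMulVec]
  rw [e1, e2, e3, f1, f2, f3]
  exact G_diag ht1 ht2 hk

theorem cyc_smul (K : Matrix (Fin 2) (Fin 2) k) (κ : Fin 2 → k) (s : k) :
    cyc K (s • κ) = s ^ 2 * cyc K κ := by
  simp only [cyc, Matrix.mulVec_smul, Pi.smul_apply, smul_eq_mul]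
  ring

theorem F1_gen [IsAlgClosed k] [CharZero k] {K : Matrix (Fin 2) (Fin 2) k}
    {ρ κ : Fin 2 → k} (hκ : cyc K κ ≠ 0) (hρ : cyc Kᵀ ρ ≠ 0) (hd : disc K ≠ 0) {s : k}
    (hs : s ≠ 0) (s0 α β : k) :
    G K (s0 • ρ + s • (ρ ᵥ* K)) (s0 • κ + s • (K *ᵥ κ)) (α • 1 + β • K - s • vecMulVec κ ρ)
      ρ κ := by
  have h := F1_one (K := K) (ρ := s • ρ) (κ := s • κ)
    (by rw [cyc_smul]; exact mul_ne_zero (pow_ne_zero 2 hs) hκ)
    (by rw [cyc_smul]; exact mul_ne_zero (pow_ne_zero 2 hs) hρ) hd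
  refine G_of h (a := 0) (b := 1) (c := s0 / s) (d := α) (e := β) (f := s⁻¹) one_ne_zero
    (inv_ne_zero hs) ?_ ?_ ?_ ?_ ?_ ?_
  · rw [zero_smul, zero_add, one_smul]
  · rw [one_smul, smul_smul, div_mul_cancel₀ _ hs, Matrix.smul_vecMul, add_comm]
  · rw [one_smul, smul_smul, div_mul_cancel₀ _ hs, Matrix.mulVec_smul, add_comm]
  · rw [smul_neg, ← sub_eq_add_neg]
    congr 1
    rw [Matrix.smul_vecMulVec, Matrix.vecMulVec_smul, smul_smul, smul_smul,
      inv_mul_cancel₀ hs, one_mul]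
  · rw [smul_smul, inv_mul_cancel₀ hs, one_smul]
  · rw [smul_smul, inv_mul_cancel₀ hs, one_smul]

theorem poly_cyc {K : k → Matrix (Fin 2) (Fin 2) k} {κ : k → Fin 2 → k} (hK : PM K)
    (hκ : PV κ) : D7.IsPoly fun t => cyc (K t) (κ t) := by
  have h := PV.mulVec hK hκ
  exact ((hκ 0).mul (h 1)).sub ((hκ 1).mul (h 0))

theorem poly_disc {K : k → Matrix (Fin 2) (Fin 2) k} (hK : PM K) :
    D7.IsPoly fun t => disc (K t) :=
  (((hK 0 0).sub (hK 1 1)).pow 2).add (((D7.IsPoly.const 4).mul (hK 0 1)).mul (hK 1 0))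

theorem PM.transpose {K : k → Matrix (Fin 2) (Fin 2) k} (hK : PM K) : PM fun t => (K t)ᵀ :=
  fun i j => hK j i

theorem F1_all [IsAlgClosed k] [CharZero k] (K : Matrix (Fin 2) (Fin 2) k)
    (ρ κ : Fin 2 → k) (s s0 α β : k) :
    G K (s0 • ρ + s • (ρ ᵥ* K)) (s0 • κ + s • (K *ᵥ κ)) (α • 1 + β • K - s • vecMulVec κ ρ)
      ρ κ := by
  have hinf : Infinite k := IsAlgClosed.instInfinite
  have hK : PM fun t : k => K + t • (!![1, 0; 0, 0] - K) := PM.line _ _
  have hρ : PV fun t : k => ρ + t • (![1, 1] - ρ) := PV.line _ _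
  have hκ : PV fun t : k => κ + t • (![1, 1] - κ) := PV.line _ _
  have hs : D7.IsPoly fun t : k => s + t * (1 - s) :=
    (D7.IsPoly.const s).add (D7.IsPoly.id.mul (D7.IsPoly.const _))
  have hc := fun a : k => D7.IsPoly.const (k := k) a
  have E1 := (poly_cyc hK hκ).finite (s₁ := 1) (by
    rw [one_smul, one_smul, add_sub_cancel, add_sub_cancel]
    simp [cyc, Matrix.mulVec, dotProduct, Fin.sum_univ_two])
  have E2 := (poly_cyc hK.transpose hρ).finite (s₁ := 1) (by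
    rw [one_smul, one_smul, add_sub_cancel, add_sub_cancel]
    simp [cyc, Matrix.mulVec, dotProduct, Fin.sum_univ_two])
  have E3 := (poly_disc hK).finite (s₁ := 1) (by
    rw [one_smul, add_sub_cancel]
    simp [disc])
  have E4 := hs.finite (s₁ := 1) (by simp)
  have h := G_limit hK (((PM.smul (hc α) (PM.const 1)).add (PM.smul (hc β) hK)).sub
    (PM.smul hs (PM.vecMulVec hκ hρ)))
    ((PV.smul (hc s0) hρ).add (PV.smul hs (PV.vecMul hK hρ)))
    ((PV.smul (hc s0) hκ).add (PV.smul hs (PV.mulVec hK hκ))) hρ hκ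
    (((E1.union E2).union E3).union E4) (fun t ht => by
      simp only [Set.mem_union, Set.mem_ofPred_eq, not_or] at ht
      exact F1_gen ht.1.1.1 ht.1.1.2 ht.1.2 ht.2 s0 α β)
  simpa using h

/-- the commutation relation -/
def W (K : Matrix (Fin 2) (Fin 2) k) (ρ κ : Fin 2 → k) (D : Matrix (Fin 2) (Fin 2) k)
    (σ τ : Fin 2 → k) : Prop :=
  K * D + vecMulVec κ σ = D * K + vecMulVec τ ρ

theorem W.conj {g gi : Matrix (Fin 2) (Fin 2) k} (h1 : g * gi = 1)
    {K D : Matrix (Fin 2) (Fin 2) k} {ρ κ σ τ : Fin 2 → k} (h : W K ρ κ D σ τ) :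
    W (gi * K * g) (ρ ᵥ* g) (gi *ᵥ κ) (gi * D * g) (σ ᵥ* g) (gi *ᵥ τ) := by
  have e : ∀ M M' : Matrix (Fin 2) (Fin 2) k, gi * M * g * (gi * M' * g) = gi * (M * M') * g := by
    intro M M'
    calc gi * M * g * (gi * M' * g) = gi * M * (g * gi) * M' * g := by simp only [mul_assoc]
      _ = gi * (M * M') * g := by rw [h1, mul_one]; simp only [mul_assoc]
  unfold W at h ⊢
  rw [e, e, ← Matrix.vecMulVec_mul, ← Matrix.vecMulVec_mul, ← Matrix.mul_vecMulVec,
    ← Matrix.mul_vecMulVec, ← add_mul, ← add_mul, ← mul_add, ← mul_add, h]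

/-- if `τ` is cyclic, the triple belongs to the family -/
theorem of_cyc_aux [IsAlgClosed k] [CharZero k] {K D : Matrix (Fin 2) (Fin 2) k}
    {ρ κ σ τ : Fin 2 → k} (h : W K ρ κ D σ τ) (hτ : τ = ![1, 0]) (h00 : K 0 0 = 0)
    (h10 : K 1 0 = 1) : G K ρ κ D σ τ := by
  have e := fun i j => congrFun (congrFun h i) j
  have e00 := e 0 0
  have e01 := e 0 1
  have e10 := e 1 0
  have e11 := e 1 1
  subst hτ
  simp [Matrix.mul_apply, Fin.sum_univ_two, vecMulVec, h00, h10] at e00 e01 e10 e11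
  have h1 := F1_all K σ ![1, 0] (κ 1) (κ 0) (D 1 1 - K 1 1 * D 1 0) (D 1 0)
  have f1 : κ 0 • ![1, 0] + κ 1 • (K *ᵥ ![1, 0]) = κ := by
    ext i
    fin_cases i <;> simp [Matrix.mulVec, dotProduct, Fin.sum_univ_two, h00, h10]
  have f2 : κ 0 • σ + κ 1 • (σ ᵥ* K) = ρ := by
    ext i
    fin_cases i <;> simp [Matrix.vecMul, dotProduct, Fin.sum_univ_two, h00, h10]
    · linear_combination e00 + e11
    · linear_combination e01 + K 0 1 * e10 + K 1 1 * e11
  have f3 : (D 1 1 - K 1 1 * D 1 0) • (1 : Matrix (Fin 2) (Fin 2) k) + D 1 0 • K -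
      κ 1 • vecMulVec ![1, 0] σ = D := by
    ext i j
    fin_cases i <;> fin_cases j <;> simp [vecMulVec, h00, h10]
    · linear_combination -e10
    · linear_combination -e11
    · ring
  rw [f1, f2, f3] at h1
  exact h1

theorem of_cyc [IsAlgClosed k] [CharZero k] {K D : Matrix (Fin 2) (Fin 2) k}
    {ρ κ σ τ : Fin 2 → k} (h : W K ρ κ D σ τ) (hc : cyc K τ ≠ 0) : G K ρ κ D σ τ := by
  obtain ⟨g, hg⟩ : ∃ g : Matrix (Fin 2) (Fin 2) k,
      g = !![τ 0, (K *ᵥ τ) 0; τ 1, (K *ᵥ τ) 1] := ⟨_, rfl⟩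
  have hdet : g.det = cyc K τ := by
    rw [hg, Matrix.det_fin_two_of, cyc]
    ring
  have hu : IsUnit g.det := by rw [hdet]; exact isUnit_iff_ne_zero.2 hc
  have h1 := Matrix.mul_nonsing_inv g hu
  have h2 := Matrix.nonsing_inv_mul g hu
  have e0 : g *ᵥ ![1, 0] = τ := by
    rw [hg]
    ext i
    fin_cases i <;> simp [Matrix.mulVec, dotProduct, Fin.sum_univ_two]
  have e1 : g *ᵥ ![0, 1] = K *ᵥ τ := by
    rw [hg]
    ext i
    fin_cases i <;> simp [Matrix.mulVec, dotProduct, Fin.sum_univ_two]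
  have e2 : g⁻¹ *ᵥ τ = ![1, 0] := by
    rw [← e0, Matrix.mulVec_mulVec, h2, Matrix.one_mulVec]
  have e3 : (g⁻¹ * K * g) *ᵥ ![1, 0] = ![0, 1] := by
    rw [← Matrix.mulVec_mulVec, e0, ← Matrix.mulVec_mulVec, ← e1, Matrix.mulVec_mulVec, h2,
      Matrix.one_mulVec]
  have e4 : ∀ i, (g⁻¹ * K * g) i 0 = (![0, 1] : Fin 2 → k) i := by
    intro i
    rw [← e3]
    simp [Matrix.mulVec, dotProduct, Fin.sum_univ_two]
  exact G_conj h1 h2 (of_cyc_aux (h.conj h1) e2 (e4 0) (e4 1))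

theorem U1_aux [IsAlgClosed k] [CharZero k] {K D : Matrix (Fin 2) (Fin 2) k}
    {ρ κ σ τ : Fin 2 → k} (h : W K ρ κ D σ τ) (hκ : κ = ![1, 0]) (hτ : τ = ![0, 1]) :
    G K ρ κ D σ τ := by
  have hinf : Infinite k := IsAlgClosed.instInfinite
  subst hκ hτ
  have hM : ∀ M : Matrix (Fin 2) (Fin 2) k, M = vecMulVec ![0, 1] (![0, 1] ᵥ* M) -
      vecMulVec ![1, 0] (![1, 0] ᵥ* (-M)) := by
    intro M
    ext i j
    fin_cases i <;> fin_cases j <;> simp [vecMulVec, Matrix.vecMul, dotProduct, Fin.sum_univ_two]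
  have hK : PM fun t : k => K + t • !![0, 1; 0, 0] := PM.line _ _
  have hD : PM fun _ : k => D := PM.const _
  have hρ := PV.vecMul ((hK.mul hD).sub (hD.mul hK)) (PV.const ![0, 1])
  have hσ := PV.vecMul ((hD.mul hK).sub (hK.mul hD)) (PV.const ![1, 0])
  have hE := (poly_cyc hK (PV.const ![0, 1])).finite (s₁ := 1 - K 0 1) (by
    simp [cyc, Matrix.mulVec, dotProduct, Fin.sum_univ_two])
  have h1 := G_limit hK hD hρ (PV.const ![1, 0]) hσ (PV.const ![0, 1]) hE (fun t ht => by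
    simp only [Set.mem_ofPred_eq] at ht
    refine of_cyc ?_ ht
    unfold W
    have h2 := hM ((K + t • !![0, 1; 0, 0]) * D - D * (K + t • !![0, 1; 0, 0]))
    rw [neg_sub] at h2
    rw [← sub_eq_zero] at h2 ⊢
    rw [← h2]
    abel)
  simp only [zero_smul, add_zero] at h1
  have h3 : K * D - D * K = vecMulVec ![0, 1] ρ - vecMulVec ![1, 0] σ := by
    have h4 : K * D + vecMulVec ![1, 0] σ = D * K + vecMulVec ![0, 1] ρ := h
    rw [sub_eq_sub_iff_add_eq_add, h4, add_comm]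
  have h4 : ![0, 1] ᵥ* (K * D - D * K) = ρ := by
    rw [h3]
    ext i
    fin_cases i <;> simp [vecMulVec, Matrix.vecMul, dotProduct, Fin.sum_univ_two]
  have h5 : ![1, 0] ᵥ* (D * K - K * D) = σ := by
    rw [← neg_sub, h3]
    ext i
    fin_cases i <;> simp [vecMulVec, Matrix.vecMul, dotProduct, Fin.sum_univ_two]
  rw [h4, h5] at h1
  exact h1

theorem U1 [IsAlgClosed k] [CharZero k] {K D : Matrix (Fin 2) (Fin 2) k}
    {ρ κ σ τ : Fin 2 → k} (h : W K ρ κ D σ τ) (hc : κ 0 * τ 1 - κ 1 * τ 0 ≠ 0) :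
    G K ρ κ D σ τ := by
  obtain ⟨g, hg⟩ : ∃ g : Matrix (Fin 2) (Fin 2) k, g = !![κ 0, τ 0; κ 1, τ 1] := ⟨_, rfl⟩
  have hdet : g.det = κ 0 * τ 1 - κ 1 * τ 0 := by
    rw [hg, Matrix.det_fin_two_of]
    ring
  have hu : IsUnit g.det := by rw [hdet]; exact isUnit_iff_ne_zero.2 hc
  have h1 := Matrix.mul_nonsing_inv g hu
  have h2 := Matrix.nonsing_inv_mul g hu
  have e0 : g *ᵥ ![1, 0] = κ := by
    rw [hg]
    ext i
    fin_cases i <;> simp [Matrix.mulVec, dotProduct, Fin.sum_univ_two]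
  have e1 : g *ᵥ ![0, 1] = τ := by
    rw [hg]
    ext i
    fin_cases i <;> simp [Matrix.mulVec, dotProduct, Fin.sum_univ_two]
  have e2 : g⁻¹ *ᵥ κ = ![1, 0] := by
    rw [← e0, Matrix.mulVec_mulVec, h2, Matrix.one_mulVec]
  have e3 : g⁻¹ *ᵥ τ = ![0, 1] := by
    rw [← e1, Matrix.mulVec_mulVec, h2, Matrix.one_mulVec]
  exact G_conj h1 h2 (U1_aux (h.conj h1) e2 e3)

theorem W.dual {K D : Matrix (Fin 2) (Fin 2) k} {ρ κ σ τ : Fin 2 → k} (h : W K ρ κ D σ τ) :
    W Kᵀ κ ρ Dᵀ τ σ := by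
  have h1 := congrArg Matrix.transpose h
  rw [Matrix.transpose_add, Matrix.transpose_add, Matrix.transpose_mul, Matrix.transpose_mul,
    Matrix.transpose_vecMulVec, Matrix.transpose_vecMulVec] at h1
  exact h1.symm

theorem U2 [IsAlgClosed k] [CharZero k] {K D : Matrix (Fin 2) (Fin 2) k}
    {ρ κ σ τ : Fin 2 → k} (h : W K ρ κ D σ τ) (hc : ρ 0 * σ 1 - ρ 1 * σ 0 ≠ 0) :
    G K ρ κ D σ τ :=
  G_dual (U1 h.dual hc)

theorem comm_cases {K D : Matrix (Fin 2) (Fin 2) k} (h : K * D = D * K) :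
    (∃ α β : k, D = α • 1 + β • K) ∨ ∃ α : k, K = α • 1 := by
  have e := fun i j => congrFun (congrFun h i) j
  have e00 := e 0 0
  have e01 := e 0 1
  have e10 := e 1 0
  have e11 := e 1 1
  simp only [Matrix.mul_apply, Fin.sum_univ_two] at e00 e01 e10 e11
  by_cases hb : K 0 1 = 0
  · by_cases hc : K 1 0 = 0
    · by_cases hd : K 0 0 - K 1 1 = 0
      · right
        refine ⟨K 0 0, ?_⟩
        ext i j
        fin_cases i <;> fin_cases j
        · simp
        · simp [hb]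
        · simp [hc]
        · simp
          linear_combination -hd
      · left
        have h01 : D 0 1 = 0 := by
          rw [hb] at e01
          have : (K 0 0 - K 1 1) * D 0 1 = 0 := by linear_combination e01
          exact (mul_eq_zero.1 this).resolve_left hd
        have h10 : D 1 0 = 0 := by
          rw [hc] at e10
          have : (K 0 0 - K 1 1) * D 1 0 = 0 := by linear_combination -e10
          exact (mul_eq_zero.1 this).resolve_left hd
        obtain ⟨β, hβ⟩ : ∃ β, β * (K 0 0 - K 1 1) = D 0 0 - D 1 1 :=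
          ⟨(D 0 0 - D 1 1) / (K 0 0 - K 1 1), by field_simp⟩
        refine ⟨D 0 0 - β * K 0 0, β, ?_⟩
        ext i j
        fin_cases i <;> fin_cases j
        · simp
        · simp [hb, h01]
        · simp [hc, h10]
        · simp
          linear_combination hβ
    · left
      obtain ⟨β, hβ⟩ : ∃ β, β * K 1 0 = D 1 0 := ⟨D 1 0 / K 1 0, by field_simp⟩
      refine ⟨D 0 0 - β * K 0 0, β, ?_⟩
      ext i j
      fin_cases i <;> fin_cases j
      · simp
      · simp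
        refine mul_left_cancel₀ hc ?_
        linear_combination -e00 - K 0 1 * hβ
      · simp [hβ]
      · simp
        refine mul_left_cancel₀ hc ?_
        linear_combination -e10 + (K 0 0 - K 1 1) * hβ
  · left
    obtain ⟨β, hβ⟩ : ∃ β, β * K 0 1 = D 0 1 := ⟨D 0 1 / K 0 1, by field_simp⟩
    refine ⟨D 0 0 - β * K 0 0, β, ?_⟩
    ext i j
    fin_cases i <;> fin_cases j
    · simp
    · simp [hβ]
    · simp
      refine mul_left_cancel₀ hb ?_
      linear_combination e00 - K 1 0 * hβ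
    · simp
      refine mul_left_cancel₀ hb ?_
      linear_combination e01 + (K 0 0 - K 1 1) * hβ

theorem Z2_all [IsAlgClosed k] [CharZero k] {K D : Matrix (Fin 2) (Fin 2) k}
    (h : K * D = D * K) (σ τ : Fin 2 → k) : G K 0 0 D σ τ := by
  have hinf : Infinite k := IsAlgClosed.instInfinite
  have key : ∀ K D : Matrix (Fin 2) (Fin 2) k, ∀ α β : k, D = α • 1 + β • K → G K 0 0 D σ τ := by
    intro K D α β h1
    have h2 := F1_all K σ τ 0 0 α β
    simp only [zero_smul, add_zero, sub_zero] at h2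
    rw [h1]
    exact h2
  rcases comm_cases h with ⟨α, β, h1⟩ | ⟨α, h1⟩
  · exact key K D α β h1
  · have h2 := G_limit (PM.line (α • 1) D) (PM.const D) (PV.const 0) (PV.const 0) (PV.const σ)
      (PV.const τ) (Set.finite_singleton (0 : k)) (fun t ht => by
        have ht0 : t ≠ 0 := fun h => ht h
        refine key _ _ (-(t⁻¹ * α)) t⁻¹ ?_
        rw [smul_add, smul_smul, smul_smul, inv_mul_cancel₀ ht0, one_smul, neg_smul,
          neg_add_cancel_left])
    simp only [zero_smul, add_zero] at h2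
    rw [h1]
    exact h2

theorem Z1_all [IsAlgClosed k] [CharZero k] {K D : Matrix (Fin 2) (Fin 2) k}
    (h : K * D = D * K) (ρ κ : Fin 2 → k) : G K ρ κ D 0 0 := by
  have hinf : Infinite k := IsAlgClosed.instInfinite
  have key : ∀ K D : Matrix (Fin 2) (Fin 2) k, ∀ α β : k, K = α • 1 + β • D → G K ρ κ D 0 0 := by
    intro K D α β h1
    have hD : PM fun t : k => D + t • (!![1, 0; 0, 0] - D) := PM.line _ _
    have hκ : PV fun t : k => κ + t • (![1, 1] - κ) := PV.line _ _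
    have hρ : PV fun _ : k => ρ := PV.const _
    have hc := fun a : k => D7.IsPoly.const (k := k) a
    have hσ := PV.smul D7.IsPoly.id (PV.vecMul hD hρ)
    have hτ := PV.smul D7.IsPoly.id (PV.mulVec hD hκ)
    have hK := ((PM.smul (hc α) (PM.const 1)).add (PM.smul (hc β) hD)).sub
      (PM.smul D7.IsPoly.id (PM.vecMulVec hκ hρ))
    have hE := (poly_cyc hD hκ).finite (s₁ := 1) (by
      rw [one_smul, one_smul, add_sub_cancel, add_sub_cancel]
      simp [cyc, Matrix.mulVec, dotProduct, Fin.sum_univ_two])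
    have h2 := G_limit hK hD hρ hκ hσ hτ (hE.union (Set.finite_singleton (0 : k)))
      (fun t ht => by
        simp only [Set.mem_union, Set.mem_ofPred_eq, Set.mem_singleton_iff, not_or] at ht
        refine U1 ?_ ?_
        · have : ∀ (D : Matrix (Fin 2) (Fin 2) k) (κ : Fin 2 → k) (t : k),
              W (α • 1 + β • D - t • vecMulVec κ ρ) ρ κ D (t • (ρ ᵥ* D)) (t • (D *ᵥ κ)) := by
            intro D κ t
            unfold W
            simp only [Matrix.sub_mul, Matrix.mul_sub, Matrix.add_mul, Matrix.mul_add,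
              Matrix.smul_mul, Matrix.mul_smul, Matrix.one_mul, Matrix.mul_one,
              Matrix.vecMulVec_mul, Matrix.mul_vecMulVec, Matrix.smul_vecMulVec,
              Matrix.vecMulVec_smul]
            abel
          exact this _ _ _
        · have : ∀ (x : Fin 2 → k) (M : Matrix (Fin 2) (Fin 2) k) (t : k),
              x 0 * (t • (M *ᵥ x)) 1 - x 1 * (t • (M *ᵥ x)) 0 = t * cyc M x := by
            intro x M t
            simp only [cyc, Pi.smul_apply, smul_eq_mul]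
            ring
          rw [this]
          exact mul_ne_zero ht.2 ht.1)
    simp only [zero_smul, add_zero, sub_zero] at h2
    rw [h1]
    exact h2
  rcases comm_cases h.symm with ⟨α, β, h1⟩ | ⟨α, h1⟩
  · exact key K D α β h1
  · have h2 := G_limit (PM.const K) (PM.line (α • 1) K) (PV.const ρ) (PV.const κ) (PV.const 0)
      (PV.const 0) (Set.finite_singleton (0 : k)) (fun t ht => by
        have ht0 : t ≠ 0 := fun h => ht h
        refine key _ _ (-(t⁻¹ * α)) t⁻¹ ?_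
        rw [smul_add, smul_smul, smul_smul, inv_mul_cancel₀ ht0, one_smul, neg_smul,
          neg_add_cancel_left])
    simp only [zero_smul, add_zero] at h2
    rw [h1]
    exact h2

/-- linear changes preserve the relation -/
theorem W.sub {K D : Matrix (Fin 2) (Fin 2) k} {ρ κ σ τ : Fin 2 → k} (h : W K ρ κ D σ τ)
    (l : k) : W K (ρ - l • σ) (κ - l • τ) D σ τ := by
  unfold W at h ⊢
  rw [Matrix.sub_vecMulVec, Matrix.vecMulVec_sub, Matrix.smul_vecMulVec, Matrix.vecMulVec_smul,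
    ← add_sub_assoc, ← add_sub_assoc, h]

theorem exists_indep {σ : Fin 2 → k} (h : σ ≠ 0) : ∃ ν : Fin 2 → k, ν 0 * σ 1 - ν 1 * σ 0 = 1 := by
  by_cases h0 : σ 0 = 0
  · have h1 : σ 1 ≠ 0 := fun h1 => h (by ext i; fin_cases i; exacts [h0, h1])
    exact ⟨![(σ 1)⁻¹, 0], by simp [h1]⟩
  · exact ⟨![0, -(σ 0)⁻¹], by simp [h0]⟩

/-- the second case -/
theorem G_all [IsAlgClosed k] [CharZero k] {K D : Matrix (Fin 2) (Fin 2) k}
    {ρ κ σ τ : Fin 2 → k} (h : W K ρ κ D σ τ) : G K ρ κ D σ τ := by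
  have hinf : Infinite k := IsAlgClosed.instInfinite
  have z1 : ∀ w : Fin 2 → k, vecMulVec w (0 : Fin 2 → k) = 0 := by
    intro w; ext i j; simp [vecMulVec]
  have z2 : ∀ w : Fin 2 → k, vecMulVec (0 : Fin 2 → k) w = 0 := by
    intro w; ext i j; simp [vecMulVec]
  by_cases hτ : τ = 0
  · subst hτ
    by_cases hσ : σ = 0
    · subst hσ
      refine Z1_all ?_ ρ κ
      unfold W at h
      rwa [z1, z2, add_zero, add_zero] at h
    · obtain ⟨ν, hν⟩ := exists_indep hσ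
      have hE : {t : k | (ρ 0 * σ 1 - ρ 1 * σ 0) + t = 0}.Finite := by
        refine (Set.finite_singleton (-(ρ 0 * σ 1 - ρ 1 * σ 0))).subset fun t ht => ?_
        rw [Set.mem_singleton_iff]
        have h2 : (ρ 0 * σ 1 - ρ 1 * σ 0) + t = 0 := ht
        linear_combination h2
      have h2 := G_limit (PM.const K) (PM.const D) (PV.line ρ ν) (PV.const κ) (PV.const σ)
        (PV.const 0) hE (fun t ht => by
          refine U2 ?_ ?_
          · unfold W at h ⊢
            rwa [z2] at h ⊢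
          · intro h3
            apply ht
            rw [Set.mem_ofPred_eq]
            simp only [Pi.add_apply, Pi.smul_apply, smul_eq_mul] at h3
            linear_combination h3 - t * hν)
      simp only [zero_smul, add_zero] at h2
      exact h2
  · by_cases hc : κ 0 * τ 1 - κ 1 * τ 0 = 0
    · obtain ⟨l, hl⟩ : ∃ l : k, κ = l • τ := by
        by_cases h0 : τ 0 = 0
        · have h1 : τ 1 ≠ 0 := fun h1 => hτ (by ext i; fin_cases i; exacts [h0, h1])
          refine ⟨κ 1 / τ 1, ?_⟩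
          ext i
          fin_cases i
          · simp [h0]
            rw [h0, mul_zero, sub_zero] at hc
            exact (mul_eq_zero.1 hc).resolve_right h1
          · simp [h1]
        · refine ⟨κ 0 / τ 0, ?_⟩
          ext i
          fin_cases i
          · simp [h0]
          · simp
            field_simp
            linear_combination -hc
      have h2 := h.sub l
      refine G_of (K' := K) (D' := D) (ρ' := ρ - l • σ) (κ' := κ - l • τ) (σ' := σ) (τ' := τ)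
        ?_ (a := 0) (b := 1) (c := l) (d := 0) (e := 0) (f := 1) one_ne_zero one_ne_zero
        (by simp) (by simp) (by simp) (by simp) (by simp) (by simp)
      rw [hl, sub_self] at h2 ⊢
      obtain ⟨ρ', hρ'⟩ : ∃ ρ', ρ' = ρ - l • σ := ⟨_, rfl⟩
      rw [← hρ'] at h2 ⊢
      by_cases hr : ρ' = 0
      · rw [hr] at h2 ⊢
        refine Z2_all ?_ σ τ
        unfold W at h2
        rwa [z1, z2, add_zero, add_zero] at h2
      · obtain ⟨ν, hν⟩ := exists_indep hr
        have hE : {t : k | (ρ' 0 * σ 1 - ρ' 1 * σ 0) - t = 0}.Finite := by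
          refine (Set.finite_singleton (ρ' 0 * σ 1 - ρ' 1 * σ 0)).subset fun t ht => ?_
          rw [Set.mem_singleton_iff]
          have h3 : (ρ' 0 * σ 1 - ρ' 1 * σ 0) - t = 0 := ht
          linear_combination -h3
        have h3 := G_limit (PM.const K) (PM.const D) (PV.const ρ') (PV.const 0) (PV.line σ ν)
          (PV.const τ) hE (fun t ht => by
            refine U2 ?_ ?_
            · unfold W at h2 ⊢
              rwa [z2] at h2 ⊢
            · intro h3
              apply ht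
              rw [Set.mem_ofPred_eq]
              simp only [Pi.add_apply, Pi.smul_apply, smul_eq_mul] at h3
              linear_combination h3 + t * hν)
        simp only [zero_smul, add_zero] at h3
        exact h3
    · exact U1 h hc

end T441

end Pool.Agent.Lib.D9
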