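import Pool.Agent.Lib.D8.UtilB
import Pool.Agent.Lib.D9.Defs
import Pool.Agent.Lib.D7.T3211

/-!
# MP_5dcbc3_ag: type (5, 2, 1, 1), the matrices, their shape and ranks
-/

namespace Pool.Agent.Lib.D9

open Matrix Pool.Agent.Lib.Q5dc Pool.Agent.Lib.D7

/-- `v0, .., v4`, `u0, u1 = 5, 6`, `P = <e7, e8>`:
`v0 -> al u0 + al1 u1 + w`, `v1 -> al u1`, `u0 -> be v3 + be1 v4 + ga u1 + pi`, `u1 -> be v4`,
`p -> th(p) v4 + e(p) u1 + N p`. -/
def B5211 {k : Type*} [Field k] (al al1 : k) (w : Fin 2 → k) (be be1 ga : k)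
    (pi th e : Fin 2 → k) (N : Matrix (Fin 2) (Fin 2) k) : Matrix (Fin 9) (Fin 9) k :=
  !![0, 0, 0, 0, 0, 0, 0, 0, 0;
     0, 0, 0, 0, 0, 0, 0, 0, 0;
     0, 0, 0, 0, 0, 0, 0, 0, 0;
     0, 0, 0, 0, 0, be, 0, 0, 0;
     0, 0, 0, 0, 0, be1, be, th 0, th 1;
     al, 0, 0, 0, 0, 0, 0, 0, 0;
     al1, al, 0, 0, 0, ga, 0, e 0, e 1;
     w 0, 0, 0, 0, 0, pi 0, 0, N 0 0, N 0 1;
     w 1, 0, 0, 0, 0, pi 1, 0, N 1 0, N 1 1]

/-- the permutation reversing `v0, .., v4` and `u0, u1` -/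
def Pm5211 (k : Type*) [Field k] : Matrix (Fin 9) (Fin 9) k :=
  !![0, 0, 0, 0, 1, 0, 0, 0, 0;
     0, 0, 0, 1, 0, 0, 0, 0, 0;
     0, 0, 1, 0, 0, 0, 0, 0, 0;
     0, 1, 0, 0, 0, 0, 0, 0, 0;
     1, 0, 0, 0, 0, 0, 0, 0, 0;
     0, 0, 0, 0, 0, 0, 1, 0, 0;
     0, 0, 0, 0, 0, 1, 0, 0, 0;
     0, 0, 0, 0, 0, 0, 0, 1, 0;
     0, 0, 0, 0, 0, 0, 0, 0, 1]

namespace T5211Aux

variable {k : Type*} [Field k]

theorem P_perm (X : Matrix (Fin 9) (Fin 9) k) (i j : Fin 9) :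
    (Pm5211 k * X * Pm5211 k) i j =
      X (![4, 3, 2, 1, 0, 6, 5, 7, 8] i) (![4, 3, 2, 1, 0, 6, 5, 7, 8] j) := by
  have h1 : ∀ i j, (Pm5211 k * X) i j = X (![4, 3, 2, 1, 0, 6, 5, 7, 8] i) j := by
    intro i j
    fin_cases i <;> simp [Pm5211, Matrix.mul_apply, Fin.sum_univ_succ]
  have h2 : ∀ (Y : Matrix (Fin 9) (Fin 9) k) (i j : Fin 9),
      (Y * Pm5211 k) i j = Y i (![4, 3, 2, 1, 0, 6, 5, 7, 8] j) := by
    intro Y i j
    fin_cases j <;> simp [Pm5211, Matrix.mul_apply, Fin.sum_univ_succ]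
  rw [h2, h1]

theorem P_sq : Pm5211 k * Pm5211 k = 1 := by
  ext i j
  fin_cases i <;> fin_cases j <;> simp [Pm5211, Matrix.mul_apply, Fin.sum_univ_succ]

theorem B_dual (al al1 : k) (w : Fin 2 → k) (be be1 ga : k)
    (pi th e : Fin 2 → k) (N : Matrix (Fin 2) (Fin 2) k) :
    Pm5211 k * (B5211 al al1 w be be1 ga pi th e N)ᵀ * Pm5211 k =
      B5211 be be1 th al al1 ga e w pi Nᵀ := by
  ext i j
  rw [P_perm, Matrix.transpose_apply]
  fin_cases i <;> fin_cases j <;> simp [B5211]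

theorem J_dual : Pm5211 k * (J5211 k)ᵀ * Pm5211 k = J5211 k := by
  ext i j
  rw [P_perm, Matrix.transpose_apply]
  fin_cases i <;> fin_cases j <;> simp [J5211]

theorem J_rank : (J5211 k).rank ≤ 5 := by
  refine rank_le_of_factor _ !![0, 0, 0, 0, 0; 1, 0, 0, 0, 0; 0, 1, 0, 0, 0; 0, 0, 1, 0, 0; 0, 0, 0, 1, 0; 0, 0, 0, 0, 0; 0, 0, 0, 0, 1; 0, 0, 0, 0, 0; 0, 0, 0, 0, 0]
    !![1, 0, 0, 0, 0, 0, 0, 0, 0; 0, 1, 0, 0, 0, 0, 0, 0, 0; 0, 0, 1, 0, 0, 0, 0, 0, 0; 0, 0, 0, 1, 0, 0, 0, 0, 0; 0, 0, 0, 0, 0, 1, 0, 0, 0] ?_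
  ext i j
  fin_cases i <;> fin_cases j <;> simp [J5211, Matrix.mul_apply, Fin.sum_univ_succ]

theorem J_nil : IsNilpotent (J5211 k) := by
  refine isNilpotent_of_weight _ ![0, 1, 2, 3, 4, 0, 1, 0, 0] ?_
  intro i j h
  fin_cases i <;> fin_cases j <;> simp [J5211] at h ⊢

theorem B_nil (al al1 : k) (w : Fin 2 → k) (be be1 ga : k) (pi th e : Fin 2 → k) :
    IsNilpotent (B5211 al al1 w be be1 ga pi th e 0) := by
  refine isNilpotent_of_weight _ ![0, 1, 0, 5, 6, 1, 3, 2, 2] ?_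
  intro i j h
  fin_cases i <;> fin_cases j <;> simp [B5211] at h ⊢

theorem shape {M : Matrix (Fin 9) (Fin 9) k} (hc : J5211 k * M = M * J5211 k)
    (hM : IsNilpotent M) :
    M = B5211 (M 5 0) (M 6 0) ![M 7 0, M 8 0] (M 3 5) (M 4 5) (M 6 5 - M 1 0)
      ![M 7 5, M 8 5] ![M 4 7, M 4 8] ![M 6 7, M 6 8]
      !![M 7 7, M 7 8; M 8 7, M 8 8] +
      M 1 0 • J5211 k + M 2 0 • (J5211 k * J5211 k) + M 3 0 • ((J5211 k * J5211 k) * J5211 k) + M 4 0 • (((J5211 k * J5211 k) * J5211 k) * J5211 k) := by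
  have e (i j : Fin 9) : (J5211 k * M) i j = (M * J5211 k) i j := by rw [hc]
  have e_0_0 := e 0 0
  have e_0_1 := e 0 1
  have e_0_2 := e 0 2
  have e_0_3 := e 0 3
  have e_0_5 := e 0 5
  have e_1_0 := e 1 0
  have e_1_1 := e 1 1
  have e_1_2 := e 1 2
  have e_1_3 := e 1 3
  have e_1_4 := e 1 4
  have e_1_5 := e 1 5
  have e_1_6 := e 1 6
  have e_1_7 := e 1 7
  have e_1_8 := e 1 8
  have e_2_0 := e 2 0
  have e_2_1 := e 2 1
  have e_2_2 := e 2 2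
  have e_2_3 := e 2 3
  have e_2_4 := e 2 4
  have e_2_5 := e 2 5
  have e_2_6 := e 2 6
  have e_2_7 := e 2 7
  have e_2_8 := e 2 8
  have e_3_0 := e 3 0
  have e_3_1 := e 3 1
  have e_3_2 := e 3 2
  have e_3_3 := e 3 3
  have e_3_4 := e 3 4
  have e_3_5 := e 3 5
  have e_3_6 := e 3 6
  have e_3_7 := e 3 7
  have e_3_8 := e 3 8
  have e_4_0 := e 4 0
  have e_4_1 := e 4 1
  have e_4_2 := e 4 2
  have e_4_3 := e 4 3
  have e_4_4 := e 4 4
  have e_4_5 := e 4 5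
  have e_4_6 := e 4 6
  have e_4_7 := e 4 7
  have e_4_8 := e 4 8
  have e_5_0 := e 5 0
  have e_5_1 := e 5 1
  have e_5_2 := e 5 2
  have e_5_3 := e 5 3
  have e_5_5 := e 5 5
  have e_6_0 := e 6 0
  have e_6_1 := e 6 1
  have e_6_2 := e 6 2
  have e_6_3 := e 6 3
  have e_6_4 := e 6 4
  have e_6_5 := e 6 5
  have e_6_6 := e 6 6
  have e_6_7 := e 6 7
  have e_6_8 := e 6 8
  have e_7_0 := e 7 0
  have e_7_1 := e 7 1
  have e_7_2 := e 7 2
  have e_7_3 := e 7 3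
  have e_7_5 := e 7 5
  have e_8_0 := e 8 0
  have e_8_1 := e 8 1
  have e_8_2 := e 8 2
  have e_8_3 := e 8 3
  have e_8_5 := e 8 5
  clear e
  simp [J5211, Matrix.mul_apply, Fin.sum_univ_succ] at e_0_0 e_0_1 e_0_2 e_0_3 e_0_5 e_1_0 e_1_1 e_1_2 e_1_3 e_1_4 e_1_5 e_1_6 e_1_7 e_1_8 e_2_0 e_2_1 e_2_2 e_2_3 e_2_4 e_2_5 e_2_6 e_2_7 e_2_8 e_3_0 e_3_1 e_3_2 e_3_3 e_3_4 e_3_5 e_3_6 e_3_7 e_3_8 e_4_0 e_4_1 e_4_2 e_4_3 e_4_4 e_4_5 e_4_6 e_4_7 e_4_8 e_5_0 e_5_1 e_5_2 e_5_3 e_5_5 e_6_0 e_6_1 e_6_2 e_6_3 e_6_4 e_6_5 e_6_6 e_6_7 e_6_8 e_7_0 e_7_1 e_7_2 e_7_3 e_7_5 e_8_0 e_8_1 e_8_2 e_8_3 e_8_5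
  have z_0_1 : M 0 1 = 0 := by
    first | exact e_0_0 | exact e_0_0.symm
  have z_0_2 : M 0 2 = 0 := by
    first | exact e_0_1 | exact e_0_1.symm
  have z_0_3 : M 0 3 = 0 := by
    first | exact e_0_2 | exact e_0_2.symm
  have z_0_4 : M 0 4 = 0 := by
    first | exact e_0_3 | exact e_0_3.symm
  have z_0_6 : M 0 6 = 0 := by
    first | exact e_0_5 | exact e_0_5.symm
  have z_0_7 : M 0 7 = 0 := by
    first | exact e_1_7 | exact e_1_7.symm
  have z_0_8 : M 0 8 = 0 := by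
    first | exact e_1_8 | exact e_1_8.symm
  have z_1_4 : M 1 4 = 0 := by
    first | exact e_2_4 | exact e_2_4.symm
  have z_1_6 : M 1 6 = 0 := by
    first | exact e_2_6 | exact e_2_6.symm
  have z_1_7 : M 1 7 = 0 := by
    first | exact e_2_7 | exact e_2_7.symm
  have z_1_8 : M 1 8 = 0 := by
    first | exact e_2_8 | exact e_2_8.symm
  have z_2_4 : M 2 4 = 0 := by
    first | exact e_3_4 | exact e_3_4.symm
  have z_2_6 : M 2 6 = 0 := by
    first | exact e_3_6 | exact e_3_6.symm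
  have z_2_7 : M 2 7 = 0 := by
    first | exact e_3_7 | exact e_3_7.symm
  have z_2_8 : M 2 8 = 0 := by
    first | exact e_3_8 | exact e_3_8.symm
  have z_3_4 : M 3 4 = 0 := by
    first | exact e_4_4 | exact e_4_4.symm
  have z_3_6 : M 3 6 = 0 := by
    first | exact e_4_6 | exact e_4_6.symm
  have z_3_7 : M 3 7 = 0 := by
    first | exact e_4_7 | exact e_4_7.symm
  have z_3_8 : M 3 8 = 0 := by
    first | exact e_4_8 | exact e_4_8.symm
  have z_5_1 : M 5 1 = 0 := by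
    first | exact e_5_0 | exact e_5_0.symm
  have z_5_2 : M 5 2 = 0 := by
    first | exact e_5_1 | exact e_5_1.symm
  have z_5_3 : M 5 3 = 0 := by
    first | exact e_5_2 | exact e_5_2.symm
  have z_5_4 : M 5 4 = 0 := by
    first | exact e_5_3 | exact e_5_3.symm
  have z_5_6 : M 5 6 = 0 := by
    first | exact e_5_5 | exact e_5_5.symm
  have z_5_7 : M 5 7 = 0 := by
    first | exact e_6_7 | exact e_6_7.symm
  have z_5_8 : M 5 8 = 0 := by
    first | exact e_6_8 | exact e_6_8.symm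
  have z_7_1 : M 7 1 = 0 := by
    first | exact e_7_0 | exact e_7_0.symm
  have z_7_2 : M 7 2 = 0 := by
    first | exact e_7_1 | exact e_7_1.symm
  have z_7_3 : M 7 3 = 0 := by
    first | exact e_7_2 | exact e_7_2.symm
  have z_7_4 : M 7 4 = 0 := by
    first | exact e_7_3 | exact e_7_3.symm
  have z_7_6 : M 7 6 = 0 := by
    first | exact e_7_5 | exact e_7_5.symm
  have z_8_1 : M 8 1 = 0 := by
    first | exact e_8_0 | exact e_8_0.symm
  have z_8_2 : M 8 2 = 0 := by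
    first | exact e_8_1 | exact e_8_1.symm
  have z_8_3 : M 8 3 = 0 := by
    first | exact e_8_2 | exact e_8_2.symm
  have z_8_4 : M 8 4 = 0 := by
    first | exact e_8_3 | exact e_8_3.symm
  have z_8_6 : M 8 6 = 0 := by
    first | exact e_8_5 | exact e_8_5.symm
  have z_1_2 : M 1 2 = 0 := by
    first | exact e_1_1.trans z_0_1 | exact e_1_1.symm.trans z_0_1
  have z_1_3 : M 1 3 = 0 := by
    first | exact e_1_2.trans z_0_2 | exact e_1_2.symm.trans z_0_2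
  have z_0_5 : M 0 5 = 0 := by
    first | exact e_1_5.trans z_1_6 | exact e_1_5.symm.trans z_1_6
  have z_1_5 : M 1 5 = 0 := by
    first | exact e_2_5.trans z_2_6 | exact e_2_5.symm.trans z_2_6
  have z_2_3 : M 2 3 = 0 := by
    first | exact e_3_3.trans z_3_4 | exact e_3_3.symm.trans z_3_4
  have z_2_5 : M 2 5 = 0 := by
    first | exact e_3_5.trans z_3_6 | exact e_3_5.symm.trans z_3_6
  have z_6_2 : M 6 2 = 0 := by
    first | exact e_6_1.trans z_5_1 | exact e_6_1.symm.trans z_5_1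
  have z_6_3 : M 6 3 = 0 := by
    first | exact e_6_2.trans z_5_2 | exact e_6_2.symm.trans z_5_2
  have z_6_4 : M 6 4 = 0 := by
    first | exact e_6_3.trans z_5_3 | exact e_6_3.symm.trans z_5_3
  have h00 : M 0 0 = 0 := by
    refine T3211Aux.nilp_row hM (w := fun j => if j = 0 then 1 else 0) (c := M 0 0) ?_ ?_
    · funext j
      fin_cases j <;> simp [Matrix.vecMul, dotProduct, z_0_1, z_0_2, z_0_3, z_0_4, z_0_5, z_0_6, z_0_7, z_0_8]
    · intro h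
      simpa using congrFun h 0
  have hu : M 5 5 = 0 := by
    by_contra h
    refine h (T3211Aux.nilp_row hM
      (w := fun j => if j = 0 then M 5 0 else if j = 5 then M 5 5 else 0)
      (c := M 5 5) ?_ ?_)
    · funext j
      fin_cases j <;> simp [Matrix.vecMul, dotProduct, Fin.sum_univ_succ, h00, z_0_1, z_0_2, z_0_3, z_0_4, z_0_5, z_0_6, z_0_7, z_0_8, z_5_1, z_5_2, z_5_3, z_5_4, z_5_6, z_5_7, z_5_8, mul_comm]
    · intro h2
      exact h (by simpa using congrFun h2 5)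
  have d_1_1 : M 1 1 = 0 := by
    first | exact e_1_0.trans h00 | exact e_1_0.symm.trans h00
  have d_2_2 : M 2 2 = 0 := by
    first | exact e_2_1.trans d_1_1 | exact e_2_1.symm.trans d_1_1
  have d_3_3 : M 3 3 = 0 := by
    first | exact e_3_2.trans d_2_2 | exact e_3_2.symm.trans d_2_2
  have d_4_4 : M 4 4 = 0 := by
    first | exact e_4_3.trans d_3_3 | exact e_4_3.symm.trans d_3_3
  have d_6_6 : M 6 6 = 0 := by
    first | exact e_6_5.trans hu | exact e_6_5.symm.trans hu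
  have q_2_1 : M 2 1 = M 1 0 := by
    first | exact e_2_0 | exact e_2_0.symm
  have q_3_2 : M 3 2 = M 1 0 := by
    first | exact e_3_1.trans q_2_1 | exact e_3_1.symm.trans q_2_1
  have q_4_3 : M 4 3 = M 1 0 := by
    first | exact e_4_2.trans q_3_2 | exact e_4_2.symm.trans q_3_2
  have q_3_1 : M 3 1 = M 2 0 := by
    first | exact e_3_0 | exact e_3_0.symm
  have q_4_2 : M 4 2 = M 2 0 := by
    first | exact e_4_1.trans q_3_1 | exact e_4_1.symm.trans q_3_1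
  have q_4_1 : M 4 1 = M 3 0 := by
    first | exact e_4_0 | exact e_4_0.symm
  have q_4_6 : M 4 6 = M 3 5 := by
    first | exact e_4_5 | exact e_4_5.symm
  have q_6_1 : M 6 1 = M 5 0 := by
    first | exact e_6_0 | exact e_6_0.symm
  ext i j
  fin_cases i <;> fin_cases j <;> simp [B5211, J5211, Matrix.mul_apply, Fin.sum_univ_succ] <;>
    first
    | assumption
    | (simp only [z_0_1, z_0_2, z_0_3, z_0_4, z_0_6, z_0_7, z_0_8, z_1_4, z_1_6, z_1_7, z_1_8, z_2_4, z_2_6, z_2_7, z_2_8, z_3_4, z_3_6, z_3_7, z_3_8, z_5_1, z_5_2, z_5_3, z_5_4, z_5_6, z_5_7, z_5_8, z_7_1, z_7_2, z_7_3, z_7_4, z_7_6, z_8_1, z_8_2, z_8_3, z_8_4, z_8_6, z_1_2, z_1_3, z_0_5, z_1_5, z_2_3, z_2_5, z_6_2, z_6_3, z_6_4, h00, d_1_1, d_2_2, d_3_3, d_4_4, hu, d_6_6, q_2_1, q_3_2, q_4_3, q_3_1, q_4_2, q_4_1, q_4_6, q_6_1]; done)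
    | simp [z_0_1, z_0_2, z_0_3, z_0_4, z_0_6, z_0_7, z_0_8, z_1_4, z_1_6, z_1_7, z_1_8, z_2_4, z_2_6, z_2_7, z_2_8, z_3_4, z_3_6, z_3_7, z_3_8, z_5_1, z_5_2, z_5_3, z_5_4, z_5_6, z_5_7, z_5_8, z_7_1, z_7_2, z_7_3, z_7_4, z_7_6, z_8_1, z_8_2, z_8_3, z_8_4, z_8_6, z_1_2, z_1_3, z_0_5, z_1_5, z_2_3, z_2_5, z_6_2, z_6_3, z_6_4, h00, d_1_1, d_2_2, d_3_3, d_4_4, hu, d_6_6, q_2_1, q_3_2, q_4_3, q_3_1, q_4_2, q_4_1, q_4_6, q_6_1]

theorem detm (b c d e f g h x y z : k) :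
    (!![1, 0, 0, 0, 0, 0; 0, 1, 0, 0, 0, 0; 0, 0, 1, 0, b, 0; 0, 0, 0, 1, c, d; e, f, 0, 0, g, h; x, 0, 0, 0, y, z] : Matrix (Fin 6) (Fin 6) k).det =
      (g ) * z - h * y := by
  simp [Matrix.det_succ_row_zero, Fin.sum_univ_succ, Fin.succAbove]
  ring

theorem rankm {M : Matrix (Fin 9) (Fin 9) k} (i j : Fin 9)
    (h10 : M 1 0 = 1)
    (h11 : M 1 1 = 0)
    (h12 : M 1 2 = 0)
    (h13 : M 1 3 = 0)
    (h20 : M 2 0 = 0)
    (h21 : M 2 1 = 1)
    (h22 : M 2 2 = 0)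
    (h23 : M 2 3 = 0)
    (h30 : M 3 0 = 0)
    (h31 : M 3 1 = 0)
    (h32 : M 3 2 = 1)
    (h33 : M 3 3 = 0)
    (h40 : M 4 0 = 0)
    (h41 : M 4 1 = 0)
    (h42 : M 4 2 = 0)
    (h43 : M 4 3 = 1)
    (h1u : M 1 5 = 0)
    (h2u : M 2 5 = 0)
    (h1j : M 1 j = 0)
    (h2j : M 2 j = 0)
    (h3j : M 3 j = 0)
    (hu2 : M 6 2 = 0)
    (hu3 : M 6 3 = 0)
    (hi1 : M i 1 = 0)
    (hi2 : M i 2 = 0)
    (hi3 : M i 3 = 0)
    (h : (M 6 5 ) * M i j - M 6 j * M i 5 ≠ 0) : 6 ≤ M.rank := by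
  refine le_rank_of_minor M ![1, 2, 3, 4, 6, i] ![0, 1, 2, 3, 5, j] ?_
  have : M.submatrix ![1, 2, 3, 4, 6, i] ![0, 1, 2, 3, 5, j] =
      !![1, 0, 0, 0, 0, 0; 0, 1, 0, 0, 0, 0; 0, 0, 1, 0, M 3 5, 0; 0, 0, 0, 1, M 4 5, M 4 j; M 6 0, M 6 1, 0, 0, M 6 5, M 6 j; M i 0, 0, 0, 0, M i 5, M i j] := by
    ext a b
    fin_cases a <;> fin_cases b <;> simp [h10, h11, h12, h13, h20, h21, h22, h23, h30, h31, h32, h33, h40, h41, h42, h43, h1u, h2u, h1j, h2j, h3j, hu2, hu3, hi1, hi2, hi3]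
  rw [this, detm]
  exact h

/-- the indices of `P` -/
def P (i : Fin 2) : Fin 9 := ![7, 8] i

section entries

variable (al al1 : k) (w : Fin 2 → k) (be be1 ga : k) (pi th e : Fin 2 → k)
  (N : Matrix (Fin 2) (Fin 2) k)

theorem B_w (i : Fin 2) : B5211 al al1 w be be1 ga pi th e N (P i) 0 = w i := by
  fin_cases i <;> rfl

theorem B_pi (i : Fin 2) : B5211 al al1 w be be1 ga pi th e N (P i) 5 = pi i := by
  fin_cases i <;> rfl

theorem B_th (i : Fin 2) : B5211 al al1 w be be1 ga pi th e N 4 (P i) = th i := by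
  fin_cases i <;> rfl

theorem B_e (i : Fin 2) : B5211 al al1 w be be1 ga pi th e N 6 (P i) = e i := by
  fin_cases i <;> rfl

theorem B_N (i j : Fin 2) : B5211 al al1 w be be1 ga pi th e N (P i) (P j) = N i j := by
  fin_cases i <;> fin_cases j <;> rfl

theorem B_0P (i : Fin 2) : B5211 al al1 w be be1 ga pi th e N 0 (P i) = 0 := by
  fin_cases i <;> rfl

theorem B_1P (i : Fin 2) : B5211 al al1 w be be1 ga pi th e N 1 (P i) = 0 := by
  fin_cases i <;> rfl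

theorem B_2P (i : Fin 2) : B5211 al al1 w be be1 ga pi th e N 2 (P i) = 0 := by
  fin_cases i <;> rfl

theorem B_3P (i : Fin 2) : B5211 al al1 w be be1 ga pi th e N 3 (P i) = 0 := by
  fin_cases i <;> rfl

theorem B_5P (i : Fin 2) : B5211 al al1 w be be1 ga pi th e N 5 (P i) = 0 := by
  fin_cases i <;> rfl

theorem B_P1 (i : Fin 2) : B5211 al al1 w be be1 ga pi th e N (P i) 1 = 0 := by
  fin_cases i <;> rfl

theorem B_P2 (i : Fin 2) : B5211 al al1 w be be1 ga pi th e N (P i) 2 = 0 := by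
  fin_cases i <;> rfl

theorem B_P3 (i : Fin 2) : B5211 al al1 w be be1 ga pi th e N (P i) 3 = 0 := by
  fin_cases i <;> rfl

theorem B_P4 (i : Fin 2) : B5211 al al1 w be be1 ga pi th e N (P i) 4 = 0 := by
  fin_cases i <;> rfl

theorem B_P6 (i : Fin 2) : B5211 al al1 w be be1 ga pi th e N (P i) 6 = 0 := by
  fin_cases i <;> rfl

theorem J_zP (i : Fin 2) (r : Fin 9) : J5211 k r (P i) = 0 := by
  fin_cases i <;> fin_cases r <;> rfl

theorem J_P (i : Fin 2) (j : Fin 9) : J5211 k (P i) j = 0 := by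
  fin_cases i <;> fin_cases j <;> rfl

end entries

theorem comm_J (al al1 : k) (w : Fin 2 → k) (be be1 ga : k) (pi th e : Fin 2 → k)
    (N : Matrix (Fin 2) (Fin 2) k) :
    J5211 k * B5211 al al1 w be be1 ga pi th e N =
      B5211 al al1 w be be1 ga pi th e N * J5211 k := by
  ext i j
  fin_cases i <;> fin_cases j <;> simp [J5211, B5211, Matrix.mul_apply, Fin.sum_univ_succ]

theorem B_lin (c d : k) (al al1 : k) (w : Fin 2 → k) (be be1 ga : k) (pi th e : Fin 2 → k)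
    (N : Matrix (Fin 2) (Fin 2) k) (al' al1' : k) (w' : Fin 2 → k) (be' be1' ga' : k)
    (pi' th' e' : Fin 2 → k) (N' : Matrix (Fin 2) (Fin 2) k) :
    c • B5211 al al1 w be be1 ga pi th e N +
      d • B5211 al' al1' w' be' be1' ga' pi' th' e' N' =
    B5211 (c * al + d * al') (c * al1 + d * al1') (c • w + d • w')
      (c * be + d * be') (c * be1 + d * be1') (c * ga + d * ga') (c • pi + d • pi')
      (c • th + d • th') (c • e + d • e') (c • N + d • N') := by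
  ext i j
  fin_cases i <;> fin_cases j <;> simp [B5211]

theorem comm_BI {al al1 : k} {w : Fin 2 → k} {be1 ga : k} {th e : Fin 2 → k}
    {al' al1' : k} {w' : Fin 2 → k} {be1' ga' : k} {th' e' : Fin 2 → k}
    (h1 : al' * be1 + th ⬝ᵥ w' = al * be1' + th' ⬝ᵥ w)
    (h2 : al' * ga + e ⬝ᵥ w' = al * ga' + e' ⬝ᵥ w) :
    B5211 al al1 w 0 be1 ga 0 th e 0 * B5211 al' al1' w' 0 be1' ga' 0 th' e' 0 =
    B5211 al' al1' w' 0 be1' ga' 0 th' e' 0 * B5211 al al1 w 0 be1 ga 0 th e 0 := by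
  simp only [dotProduct, Fin.sum_univ_two] at h1 h2
  ext i j
  fin_cases i <;> fin_cases j <;> simp [B5211, Matrix.mul_apply, Fin.sum_univ_succ]
  · linear_combination h1
  · linear_combination h2

theorem comm_BI' {al al1 : k} {w : Fin 2 → k} {be1 ga : k} {th e : Fin 2 → k}
    {al' al1' : k} {w' : Fin 2 → k} {be1' ga' : k} {th' e' : Fin 2 → k}
    (h : B5211 al al1 w 0 be1 ga 0 th e 0 * B5211 al' al1' w' 0 be1' ga' 0 th' e' 0 =
    B5211 al' al1' w' 0 be1' ga' 0 th' e' 0 * B5211 al al1 w 0 be1 ga 0 th e 0) :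
    al' * be1 + th ⬝ᵥ w' = al * be1' + th' ⬝ᵥ w ∧
    al' * ga + e ⬝ᵥ w' = al * ga' + e' ⬝ᵥ w := by
  have h20 := congrFun (congrFun h 4) 0
  have h40 := congrFun (congrFun h 6) 0
  simp [B5211, Matrix.mul_apply, Fin.sum_univ_succ] at h20 h40
  simp only [dotProduct, Fin.sum_univ_two]
  constructor
  · linear_combination h20
  · linear_combination h40

/-- the relations for `al = 1, al' = 0`, `be' = ga' = 0, pi' = 0, e' = 0` -/
theorem comm1 {al1 : k} {w : Fin 2 → k} {be be1 ga : k} {pi th e : Fin 2 → k}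
    {al1' : k} {w' : Fin 2 → k} {be1' : k} {th' : Fin 2 → k}
    (h1 : al1' * be + th ⬝ᵥ w' = be1' + th' ⬝ᵥ w)
    (h2 : e ⬝ᵥ w' = 0) (h3 : th' ⬝ᵥ pi = 0) :
    B5211 1 al1 w be be1 ga pi th e 0 * B5211 0 al1' w' 0 be1' 0 0 th' 0 0 =
    B5211 0 al1' w' 0 be1' 0 0 th' 0 0 * B5211 1 al1 w be be1 ga pi th e 0 := by
  simp only [dotProduct, Fin.sum_univ_two] at h1 h2 h3
  ext i j
  fin_cases i <;> fin_cases j <;> simp [B5211, Matrix.mul_apply, Fin.sum_univ_succ]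
  · linear_combination h1
  · linear_combination -h3
  · linear_combination h2

/-- the relations for `al = 1, al' = 0`, `e = e' = 0` -/
theorem comm1' {al1 : k} {w : Fin 2 → k} {be be1 ga : k} {pi th : Fin 2 → k}
    {al1' : k} {w' : Fin 2 → k} {be' be1' ga' : k} {pi' th' : Fin 2 → k}
    (h : B5211 1 al1 w be be1 ga pi th 0 0 * B5211 0 al1' w' be' be1' ga' pi' th' 0 0 =
    B5211 0 al1' w' be' be1' ga' pi' th' 0 0 * B5211 1 al1 w be be1 ga pi th 0 0) :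
    be' = 0 ∧ ga' = 0 ∧ pi' = 0 ∧ al1' * be + th ⬝ᵥ w' = be1' + th' ⬝ᵥ w ∧ th' ⬝ᵥ pi = 0 := by
  have r1 := congrFun (congrFun h 3) 0
  have r2 := congrFun (congrFun h 4) 0
  have r3 := congrFun (congrFun h 6) 0
  have r4 := congrFun (congrFun h 4) 5
  have s7 := congrFun (congrFun h 7) 0
  have s8 := congrFun (congrFun h 8) 0
  simp [B5211, Matrix.mul_apply, Fin.sum_univ_succ] at r1 r2 r3 r4 s7 s8
  have hpi : pi' = 0 := by
    funext i
    fin_cases i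
    · exact s7.symm
    · exact s8.symm
  have hbe : be' = 0 := r1.symm
  have hga : ga' = 0 := r3.symm
  subst hpi hbe hga
  refine ⟨rfl, rfl, rfl, ?_, ?_⟩
  · simp only [dotProduct, Fin.sum_univ_two]
    simp at r2
    linear_combination r2
  · simp only [dotProduct, Fin.sum_univ_two]
    simp at r4
    linear_combination -r4

theorem exists_perp (v : Fin 2 → k) : ∃ x : Fin 2 → k, (∃ i, x i ≠ 0) ∧ v ⬝ᵥ x = 0 := by
  obtain ⟨x, y, z, h0, h1, h2⟩ := T3211Aux.ker23 (v 0) (v 1) 0 0 0 1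
  refine ⟨![x, y], ?_, ?_⟩
  · have hz : z = 0 := by linear_combination h2
    rcases h0 with h | h | h
    · exact ⟨0, h⟩
    · exact ⟨1, h⟩
    · exact absurd hz h
  · simp [dotProduct, Fin.sum_univ_two]
    linear_combination h1

end T5211Aux

end Pool.Agent.Lib.D9
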