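import Pool.Agent.Lib.D8.Ta21
import Pool.Agent.Lib.D9.Defs

/-!
# MP_5dcbc3_ag: Jordan type `(6, 2, 1)`
-/

namespace Pool.Agent.Lib.D9

open Matrix Pool.Agent.Lib.Q5dc Pool.Agent.Lib.D7 Pool.Agent.Lib.D8

variable {k : Type*} [Field k]

theorem J621_eq : J621 k = (Ta21.J : Matrix (Fin (1 + 8)) (Fin (1 + 8)) k) := by
  ext i j
  fin_cases i <;> fin_cases j <;> simp [J621, Ta21.J]

/-- no maximal bad triple of type `(6, 2, 1)` -/
theorem no_621 [IsAlgClosed k] [CharZero k] {ρ : ℕ → ℕ} {T : Fin 3 → Matrix (Fin 9) (Fin 9) k}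
    (hT : MaxR ρ T) (h0 : T 0 = J621 k) : False :=
  no_a21 (m := 1) hT (h0.trans J621_eq)

end Pool.Agent.Lib.D9
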