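import Pool.Agent.Lib.D8.Ta21
import Pool.Agent.Lib.D9.Defs

/-!
# MP_5dcbc3_ag: Jordan type `(a, 3, 1)`, `a = m + 5`: matrices

Basis `x^i v = e i` (`i ≤ m + 4`), `u = e (m+5)`, `x u = e (m+6)`, `x^2 u = e (m+7)`,
`p = e (m+8)`.
-/

namespace Pool.Agent.Lib.D9

open Matrix Polynomial Pool.Agent.Lib.Q5dc Pool.Agent.Lib.D7 Pool.Agent.Lib.D8

variable {k : Type*} [Field k]

namespace Ta31

variable {m : ℕ}

/-- basis vectors -/
def e (i : ℕ) : Fin (m + 9) → k := fun j => if (j : ℕ) = i then 1 else 0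

/-- matrix units -/
def E (i j : ℕ) : Matrix (Fin (m + 9)) (Fin (m + 9)) k :=
  Matrix.of fun r c => if (r : ℕ) = i ∧ (c : ℕ) = j then 1 else 0

/-- the Jordan matrix of type `(m + 5, 3, 1)` -/
def J : Matrix (Fin (m + 9)) (Fin (m + 9)) k :=
  Matrix.of fun r c => if (r : ℕ) = c + 1 ∧ (r : ℕ) ≠ m + 5 ∧ (r : ℕ) ≠ m + 8 then 1 else 0

/-- parameters of the matrices commuting with `J` -/
structure P (k : Type*) where
  (c0 c1 c2 f0 f1 f2 q1 q2 om pi th et : k)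

/-- the matrices commuting with `J`: `v -> c u + om p`, `u -> x^(a-3) f v + q u + pi p`,
`p -> th x^(a-1) v + et x^2 u` -/
def mk (x : P k) : Matrix (Fin (m + 9)) (Fin (m + 9)) k :=
  x.c0 • (E (m + 5) 0 + E (m + 6) 1 + E (m + 7) 2) + x.c1 • (E (m + 6) 0 + E (m + 7) 1) +
  x.c2 • E (m + 7) 0 +
  x.f0 • (E (m + 2) (m + 5) + E (m + 3) (m + 6) + E (m + 4) (m + 7)) +
  x.f1 • (E (m + 3) (m + 5) + E (m + 4) (m + 6)) + x.f2 • E (m + 4) (m + 5) +
  x.q1 • (E (m + 6) (m + 5) + E (m + 7) (m + 6)) + x.q2 • E (m + 7) (m + 5) +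
  x.om • E (m + 8) 0 + x.pi • E (m + 8) (m + 5) + x.th • E (m + 4) (m + 8) +
  x.et • E (m + 7) (m + 8)

instance : Add (P k) := ⟨fun x y => ⟨x.c0 + y.c0, x.c1 + y.c1, x.c2 + y.c2, x.f0 + y.f0,
  x.f1 + y.f1, x.f2 + y.f2, x.q1 + y.q1, x.q2 + y.q2, x.om + y.om, x.pi + y.pi, x.th + y.th,
  x.et + y.et⟩⟩

instance : Sub (P k) := ⟨fun x y => ⟨x.c0 - y.c0, x.c1 - y.c1, x.c2 - y.c2, x.f0 - y.f0,
  x.f1 - y.f1, x.f2 - y.f2, x.q1 - y.q1, x.q2 - y.q2, x.om - y.om, x.pi - y.pi, x.th - y.th,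
  x.et - y.et⟩⟩

instance : Zero (P k) := ⟨⟨0, 0, 0, 0, 0, 0, 0, 0, 0, 0, 0, 0⟩⟩

instance : SMul k (P k) := ⟨fun s x => ⟨s * x.c0, s * x.c1, s * x.c2, s * x.f0, s * x.f1,
  s * x.f2, s * x.q1, s * x.q2, s * x.om, s * x.pi, s * x.th, s * x.et⟩⟩

theorem mk_add (x y : P k) :
    (mk (x + y) : Matrix (Fin (m + 9)) (Fin (m + 9)) k) = mk x + mk y := by
  show mk ⟨x.c0 + y.c0, x.c1 + y.c1, x.c2 + y.c2, x.f0 + y.f0,
    x.f1 + y.f1, x.f2 + y.f2, x.q1 + y.q1, x.q2 + y.q2, x.om + y.om, x.pi + y.pi, x.th + y.th,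
    x.et + y.et⟩ = _
  simp only [mk]
  module

theorem mk_sub (x y : P k) :
    (mk (x - y) : Matrix (Fin (m + 9)) (Fin (m + 9)) k) = mk x - mk y := by
  show mk ⟨x.c0 - y.c0, x.c1 - y.c1, x.c2 - y.c2, x.f0 - y.f0,
    x.f1 - y.f1, x.f2 - y.f2, x.q1 - y.q1, x.q2 - y.q2, x.om - y.om, x.pi - y.pi, x.th - y.th,
    x.et - y.et⟩ = _
  simp only [mk]
  module

theorem mk_smul (s : k) (x : P k) :
    (mk (s • x) : Matrix (Fin (m + 9)) (Fin (m + 9)) k) = s • mk x := by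
  show mk ⟨s * x.c0, s * x.c1, s * x.c2, s * x.f0, s * x.f1,
    s * x.f2, s * x.q1, s * x.q2, s * x.om, s * x.pi, s * x.th, s * x.et⟩ = _
  simp only [mk]
  module

theorem mk_zero : (mk (0 : P k) : Matrix (Fin (m + 9)) (Fin (m + 9)) k) = 0 := by
  show mk ⟨0, 0, 0, 0, 0, 0, 0, 0, 0, 0, 0, 0⟩ = 0
  simp [mk]

theorem mulVec_e (M : Matrix (Fin (m + 9)) (Fin (m + 9)) k) (l : Fin (m + 9)) :
    M *ᵥ e (l : ℕ) = fun i => M i l := by
  have : (e (l : ℕ) : Fin (m + 9) → k) = Pi.single l 1 := by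
    funext j
    rw [e, Pi.single_apply]
    simp only [Fin.ext_iff]
  rw [this, Matrix.mulVec_single_one]
  rfl

theorem E_e (i j l : ℕ) (hl : l < m + 9) :
    (E i j : Matrix (Fin (m + 9)) (Fin (m + 9)) k) *ᵥ e l = if j = l then e i else 0 := by
  have h1 := mulVec_e (E i j : Matrix (Fin (m + 9)) (Fin (m + 9)) k) ⟨l, hl⟩
  rw [h1]
  funext r
  by_cases h : j = l
  · subst h
    simp [E, e]
  · rw [if_neg h]
    have : ¬ l = j := fun h' => h h'.symm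
    simp [E, this]

theorem J_e (l : ℕ) (hl : l < m + 9) : (J : Matrix (Fin (m + 9)) (Fin (m + 9)) k) *ᵥ e l =
    if l = m + 4 ∨ l = m + 7 then 0 else e (l + 1) := by
  have h1 := mulVec_e (J : Matrix (Fin (m + 9)) (Fin (m + 9)) k) ⟨l, hl⟩
  rw [h1]
  funext r
  by_cases h : l = m + 4 ∨ l = m + 7
  · rw [if_pos h]
    simp only [J, Matrix.of_apply, Pi.zero_apply]
    rw [if_neg]
    omega
  · rw [if_neg h]
    simp only [J, Matrix.of_apply, e]
    have hr := r.isLt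
    by_cases h2 : (r : ℕ) = l + 1
    · rw [if_pos h2, if_pos]
      omega
    · rw [if_neg h2, if_neg]
      omega

theorem e_big {l : ℕ} (hl : m + 9 ≤ l) : (e l : Fin (m + 9) → k) = 0 := by
  funext j
  have := j.isLt
  simp only [e, Pi.zero_apply]
  rw [if_neg]
  omega

theorem J_lt (l : ℕ) (hl : l < m + 4) : (J : Matrix (Fin (m + 9)) (Fin (m + 9)) k) *ᵥ e l =
    e (l + 1) := by
  rw [J_e l (by omega), if_neg (by omega)]

theorem J_a : (J : Matrix (Fin (m + 9)) (Fin (m + 9)) k) *ᵥ e (m + 4) = 0 := by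
  rw [J_e _ (by omega), if_pos (by omega)]

theorem J_a1 : (J : Matrix (Fin (m + 9)) (Fin (m + 9)) k) *ᵥ e (m + 3) = e (m + 4) := by
  rw [J_lt _ (by omega)]

theorem J_a2 : (J : Matrix (Fin (m + 9)) (Fin (m + 9)) k) *ᵥ e (m + 2) = e (m + 3) := by
  rw [J_lt _ (by omega)]

theorem J_u : (J : Matrix (Fin (m + 9)) (Fin (m + 9)) k) *ᵥ e (m + 5) = e (m + 6) := by
  rw [J_e _ (by omega), if_neg (by omega)]

theorem J_u1 : (J : Matrix (Fin (m + 9)) (Fin (m + 9)) k) *ᵥ e (m + 6) = e (m + 7) := by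
  rw [J_e _ (by omega), if_neg (by omega)]

theorem J_u2 : (J : Matrix (Fin (m + 9)) (Fin (m + 9)) k) *ᵥ e (m + 7) = 0 := by
  rw [J_e _ (by omega), if_pos (by omega)]

theorem J_p : (J : Matrix (Fin (m + 9)) (Fin (m + 9)) k) *ᵥ e (m + 8) = 0 := by
  rw [J_e _ (by omega), if_neg (by omega), e_big (by omega)]

theorem J_0 : (J : Matrix (Fin (m + 9)) (Fin (m + 9)) k) *ᵥ e 0 = e 1 := by
  rw [J_lt _ (by omega)]

theorem J_1 : (J : Matrix (Fin (m + 9)) (Fin (m + 9)) k) *ᵥ e 1 = e 2 := by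
  rw [J_lt _ (by omega)]

theorem J_2 : (J : Matrix (Fin (m + 9)) (Fin (m + 9)) k) *ᵥ e 2 = e 3 := by
  rw [J_lt _ (by omega)]

theorem mk_e (x : P k) (l : ℕ) (hl : l < m + 9) :
    (mk x : Matrix (Fin (m + 9)) (Fin (m + 9)) k) *ᵥ e l =
    x.c0 • ((if 0 = l then e (m + 5) else 0) + (if 1 = l then e (m + 6) else 0) +
      (if 2 = l then e (m + 7) else 0)) +
    x.c1 • ((if 0 = l then e (m + 6) else 0) + (if 1 = l then e (m + 7) else 0)) +
    x.c2 • (if 0 = l then e (m + 7) else 0) +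
    x.f0 • ((if m + 5 = l then e (m + 2) else 0) + (if m + 6 = l then e (m + 3) else 0) +
      (if m + 7 = l then e (m + 4) else 0)) +
    x.f1 • ((if m + 5 = l then e (m + 3) else 0) + (if m + 6 = l then e (m + 4) else 0)) +
    x.f2 • (if m + 5 = l then e (m + 4) else 0) +
    x.q1 • ((if m + 5 = l then e (m + 6) else 0) + (if m + 6 = l then e (m + 7) else 0)) +
    x.q2 • (if m + 5 = l then e (m + 7) else 0) +
    x.om • (if 0 = l then e (m + 8) else 0) + x.pi • (if m + 5 = l then e (m + 8) else 0) +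
    x.th • (if m + 8 = l then e (m + 4) else 0) + x.et • (if m + 8 = l then e (m + 7) else 0) := by
  simp only [mk, Matrix.add_mulVec, Matrix.smul_mulVec, E_e _ _ l hl]

theorem mk_0 (x : P k) : (mk x : Matrix (Fin (m + 9)) (Fin (m + 9)) k) *ᵥ e 0 =
    x.c0 • e (m + 5) + x.c1 • e (m + 6) + x.c2 • e (m + 7) + x.om • e (m + 8) := by
  rw [mk_e x 0 (by omega)]
  simp

theorem mk_1 (x : P k) : (mk x : Matrix (Fin (m + 9)) (Fin (m + 9)) k) *ᵥ e 1 =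
    x.c0 • e (m + 6) + x.c1 • e (m + 7) := by
  rw [mk_e x 1 (by omega)]
  simp

theorem mk_2 (x : P k) : (mk x : Matrix (Fin (m + 9)) (Fin (m + 9)) k) *ᵥ e 2 =
    x.c0 • e (m + 7) := by
  rw [mk_e x 2 (by omega)]
  simp

theorem mk_mid (x : P k) {l : ℕ} (h2 : 3 ≤ l) (hl : l ≤ m + 4) :
    (mk x : Matrix (Fin (m + 9)) (Fin (m + 9)) k) *ᵥ e l = 0 := by
  rw [mk_e x l (by omega)]
  have h0 : ¬ 0 = l := by omega
  have h1 : ¬ 1 = l := by omega
  have h2 : ¬ 2 = l := by omega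
  have h3 : ¬ m + 5 = l := by omega
  have h4 : ¬ m + 6 = l := by omega
  have h5 : ¬ m + 7 = l := by omega
  have h6 : ¬ m + 8 = l := by omega
  simp [h0, h1, h2, h3, h4, h5, h6]

theorem mk_u (x : P k) : (mk x : Matrix (Fin (m + 9)) (Fin (m + 9)) k) *ᵥ e (m + 5) =
    x.f0 • e (m + 2) + x.f1 • e (m + 3) + x.f2 • e (m + 4) + x.q1 • e (m + 6) +
      x.q2 • e (m + 7) + x.pi • e (m + 8) := by
  rw [mk_e x _ (by omega)]
  simp

theorem mk_u1 (x : P k) : (mk x : Matrix (Fin (m + 9)) (Fin (m + 9)) k) *ᵥ e (m + 6) =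
    x.f0 • e (m + 3) + x.f1 • e (m + 4) + x.q1 • e (m + 7) := by
  rw [mk_e x _ (by omega)]
  simp

theorem mk_u2 (x : P k) : (mk x : Matrix (Fin (m + 9)) (Fin (m + 9)) k) *ᵥ e (m + 7) =
    x.f0 • e (m + 4) := by
  rw [mk_e x _ (by omega)]
  simp

theorem mk_p (x : P k) : (mk x : Matrix (Fin (m + 9)) (Fin (m + 9)) k) *ᵥ e (m + 8) =
    x.th • e (m + 4) + x.et • e (m + 7) := by
  rw [mk_e x _ (by omega)]
  simp

theorem mk_a (x : P k) : (mk x : Matrix (Fin (m + 9)) (Fin (m + 9)) k) *ᵥ e (m + 4) = 0 :=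
  mk_mid x (by omega) (by omega)

theorem mk_a1 (x : P k) : (mk x : Matrix (Fin (m + 9)) (Fin (m + 9)) k) *ᵥ e (m + 3) = 0 :=
  mk_mid x (by omega) (by omega)

theorem ext_e {M M' : Matrix (Fin (m + 9)) (Fin (m + 9)) k}
    (h : ∀ l, l < m + 9 → M *ᵥ e l = M' *ᵥ e l) : M = M' := by
  ext i j
  have h1 := h j j.isLt
  rw [mulVec_e, mulVec_e] at h1
  exact congrFun h1 i

theorem Jpow_0 (i : ℕ) (hi : i ≤ m + 4) :
    (J : Matrix (Fin (m + 9)) (Fin (m + 9)) k) ^ i *ᵥ e 0 = e i := by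
  induction i with
  | zero => rw [pow_zero, Matrix.one_mulVec]
  | succ i ih =>
    rw [pow_succ', ← Matrix.mulVec_mulVec, ih (by omega), J_lt _ (by omega)]

/-- matrices commuting with `J` are determined by the images of the generators -/
theorem ext_gen {M M' : Matrix (Fin (m + 9)) (Fin (m + 9)) k} (hM : J * M = M * J)
    (hM' : J * M' = M' * J) (h0 : M *ᵥ e 0 = M' *ᵥ e 0) (hu : M *ᵥ e (m + 5) = M' *ᵥ e (m + 5))
    (hp : M *ᵥ e (m + 8) = M' *ᵥ e (m + 8)) : M = M' := by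
  have hc : ∀ w : Fin (m + 9) → k, M *ᵥ w = M' *ᵥ w → M *ᵥ (J *ᵥ w) = M' *ᵥ (J *ᵥ w) := by
    intro w hw
    rw [Matrix.mulVec_mulVec, Matrix.mulVec_mulVec, ← hM, ← hM', ← Matrix.mulVec_mulVec,
      ← Matrix.mulVec_mulVec, hw]
  refine ext_e fun l hl => ?_
  by_cases h1 : l ≤ m + 4
  · rw [← Jpow_0 l h1, Matrix.mulVec_mulVec, Matrix.mulVec_mulVec]
    have e1 : M * J ^ l = J ^ l * M := (Commute.pow_left (show Commute J M from hM) l).symm
    have e2 : M' * J ^ l = J ^ l * M' := (Commute.pow_left (show Commute J M' from hM') l).symm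
    rw [e1, e2, ← Matrix.mulVec_mulVec, ← Matrix.mulVec_mulVec, h0]
  · have hu1 := hc _ hu
    rw [J_u] at hu1
    have hu2 := hc _ hu1
    rw [J_u1] at hu2
    rcases (by omega : l = m + 5 ∨ l = m + 6 ∨ l = m + 7 ∨ l = m + 8) with rfl | rfl | rfl | rfl
    · exact hu
    · exact hu1
    · exact hu2
    · exact hp

theorem J_mk (x : P k) : (J : Matrix (Fin (m + 9)) (Fin (m + 9)) k) * mk x = mk x * J := by
  refine ext_e fun l hl => ?_
  rw [← Matrix.mulVec_mulVec, ← Matrix.mulVec_mulVec]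
  by_cases h1 : l ≤ m + 4
  · rcases (by omega : l = 0 ∨ l = 1 ∨ l = 2 ∨ (3 ≤ l ∧ l < m + 4) ∨ (3 ≤ l ∧ l = m + 4)) with
      rfl | rfl | rfl | ⟨h2, h3⟩ | ⟨h2, rfl⟩
    · rw [mk_0, J_0, mk_1]
      simp [Matrix.mulVec_add, Matrix.mulVec_smul, J_u, J_u1, J_u2, J_p]
    · rw [mk_1, J_1, mk_2]
      simp [Matrix.mulVec_add, Matrix.mulVec_smul, J_u1, J_u2]
    · rw [mk_2, J_2, mk_mid x (by omega) (by omega), Matrix.mulVec_smul, J_u2, smul_zero]
    · rw [mk_mid x h2 (by omega), J_lt _ h3, mk_mid x (by omega) (by omega), Matrix.mulVec_zero]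
    · rw [mk_a, J_a, Matrix.mulVec_zero, Matrix.mulVec_zero]
  · rcases (by omega : l = m + 5 ∨ l = m + 6 ∨ l = m + 7 ∨ l = m + 8) with rfl | rfl | rfl | rfl
    · rw [mk_u, J_u, mk_u1]
      simp [Matrix.mulVec_add, Matrix.mulVec_smul, J_a2, J_a1, J_a, J_u1, J_u2, J_p]
    · rw [mk_u1, J_u1, mk_u2]
      simp [Matrix.mulVec_add, Matrix.mulVec_smul, J_a1, J_a, J_u2]
    · rw [mk_u2, J_u2, Matrix.mulVec_smul, J_a, smul_zero, Matrix.mulVec_zero]
    · rw [mk_p, J_p]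
      simp [Matrix.mulVec_add, Matrix.mulVec_smul, J_a, J_u2]

theorem J_mk_mul (x y : P k) :
    (J : Matrix (Fin (m + 9)) (Fin (m + 9)) k) * (mk x * mk y) = mk x * mk y * J := by
  rw [← mul_assoc, J_mk, mul_assoc, J_mk, mul_assoc]

theorem mk_mk_0 (x y : P k) :
    (mk x : Matrix (Fin (m + 9)) (Fin (m + 9)) k) *ᵥ (mk y *ᵥ e 0) =
    (y.c0 * x.f0) • e (m + 2) + (y.c0 * x.f1 + y.c1 * x.f0) • e (m + 3) +
    (y.c0 * x.f2 + y.c1 * x.f1 + y.c2 * x.f0 + y.om * x.th) • e (m + 4) +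
    (y.c0 * x.q1) • e (m + 6) + (y.c0 * x.q2 + y.c1 * x.q1 + y.om * x.et) • e (m + 7) +
    (y.c0 * x.pi) • e (m + 8) := by
  rw [mk_0]
  simp only [Matrix.mulVec_add, Matrix.mulVec_smul, mk_u, mk_u1, mk_u2, mk_p]
  module

theorem mk_mid2 (x : P k) (hm : 1 ≤ m) :
    (mk x : Matrix (Fin (m + 9)) (Fin (m + 9)) k) *ᵥ e (m + 2) = 0 :=
  mk_mid x (by omega) (by omega)

theorem mk_m2 (x : P k) (m : ℕ) :
    (mk x : Matrix (Fin (m + 9)) (Fin (m + 9)) k) *ᵥ e (m + 2) =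
      (if m = 0 then x.c0 else 0) • e (m + 7) := by
  by_cases h : m = 0
  · subst h
    rw [if_pos rfl]
    exact mk_2 x
  · rw [if_neg h, zero_smul]
    exact mk_mid x (by omega) (by omega)

theorem mk_mk_u (x y : P k) :
    (mk x : Matrix (Fin (m + 9)) (Fin (m + 9)) k) *ᵥ (mk y *ᵥ e (m + 5)) =
    (y.q1 * x.f0) • e (m + 3) + (y.q1 * x.f1 + y.q2 * x.f0 + y.pi * x.th) • e (m + 4) +
    (y.f0 * (if m = 0 then x.c0 else 0) + y.q1 * x.q1 + y.pi * x.et) • e (m + 7) := by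
  rw [mk_u]
  simp only [Matrix.mulVec_add, Matrix.mulVec_smul, mk_u1, mk_u2, mk_p, mk_a, mk_a1, mk_m2]
  module

theorem mk_mk_p (x y : P k) :
    (mk x : Matrix (Fin (m + 9)) (Fin (m + 9)) k) *ᵥ (mk y *ᵥ e (m + 8)) =
    (y.et * x.f0) • e (m + 4) := by
  rw [mk_p]
  simp only [Matrix.mulVec_add, Matrix.mulVec_smul, mk_u2, mk_a]
  module

/-- the relations for commuting matrices -/
structure Rel (x y : P k) : Prop where
  a0 : y.c0 * x.f0 = x.c0 * y.f0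
  a1 : y.c0 * x.f1 + y.c1 * x.f0 = x.c0 * y.f1 + x.c1 * y.f0
  a2 : y.c0 * x.f2 + y.c1 * x.f1 + y.c2 * x.f0 + y.om * x.th =
    x.c0 * y.f2 + x.c1 * y.f1 + x.c2 * y.f0 + x.om * y.th
  b1 : y.c0 * x.q1 = x.c0 * y.q1
  b2 : y.c0 * x.q2 + y.c1 * x.q1 + y.om * x.et = x.c0 * y.q2 + x.c1 * y.q1 + x.om * y.et
  b3 : y.c0 * x.pi = x.c0 * y.pi
  d1 : y.q1 * x.f0 = x.q1 * y.f0
  d2 : y.q1 * x.f1 + y.q2 * x.f0 + y.pi * x.th = x.q1 * y.f1 + x.q2 * y.f0 + x.pi * y.th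
  d3 : y.pi * x.et = x.pi * y.et
  g : y.et * x.f0 = x.et * y.f0

theorem comm_of_rel {x y : P k} (h : Rel x y) :
    (mk x : Matrix (Fin (m + 9)) (Fin (m + 9)) k) * mk y = mk y * mk x := by
  obtain ⟨h1, h2, h3, h4, h5, h6, h7, h8, h9, h10⟩ := h
  refine ext_gen (J_mk_mul x y) (J_mk_mul y x) ?_ ?_ ?_
  · rw [← Matrix.mulVec_mulVec, ← Matrix.mulVec_mulVec, mk_mk_0, mk_mk_0, h1, h2, h3, h4, h5, h6]
  · rw [← Matrix.mulVec_mulVec, ← Matrix.mulVec_mulVec, mk_mk_u, mk_mk_u, h7, h8]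
    have : y.f0 * (if m = 0 then x.c0 else 0) + y.q1 * x.q1 + y.pi * x.et =
        x.f0 * (if m = 0 then y.c0 else 0) + x.q1 * y.q1 + x.pi * y.et := by
      split_ifs
      · linear_combination -h1 + h9
      · linear_combination h9
    rw [this]
  · rw [← Matrix.mulVec_mulVec, ← Matrix.mulVec_mulVec, mk_mk_p, mk_mk_p, h10]

theorem rel_of_comm {x y : P k}
    (h : (mk x : Matrix (Fin (m + 9)) (Fin (m + 9)) k) * mk y = mk y * mk x) : Rel x y := by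
  have h0 : (mk x : Matrix (Fin (m + 9)) (Fin (m + 9)) k) *ᵥ (mk y *ᵥ e 0) =
      mk y *ᵥ (mk x *ᵥ e 0) := by
    rw [Matrix.mulVec_mulVec, Matrix.mulVec_mulVec, h]
  have hu : (mk x : Matrix (Fin (m + 9)) (Fin (m + 9)) k) *ᵥ (mk y *ᵥ e (m + 5)) =
      mk y *ᵥ (mk x *ᵥ e (m + 5)) := by
    rw [Matrix.mulVec_mulVec, Matrix.mulVec_mulVec, h]
  have hp : (mk x : Matrix (Fin (m + 9)) (Fin (m + 9)) k) *ᵥ (mk y *ᵥ e (m + 8)) =
      mk y *ᵥ (mk x *ᵥ e (m + 8)) := by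
    rw [Matrix.mulVec_mulVec, Matrix.mulVec_mulVec, h]
  rw [mk_mk_0, mk_mk_0] at h0
  rw [mk_mk_u, mk_mk_u] at hu
  rw [mk_mk_p, mk_mk_p] at hp
  have a0 : y.c0 * x.f0 = x.c0 * y.f0 := by
    have := congrFun h0 ⟨m + 2, by omega⟩
    simpa [e] using this
  refine ⟨a0, ?_, ?_, ?_, ?_, ?_, ?_, ?_, ?_, ?_⟩
  · have := congrFun h0 ⟨m + 3, by omega⟩
    simpa [e] using this
  · have := congrFun h0 ⟨m + 4, by omega⟩
    simpa [e] using this
  · have := congrFun h0 ⟨m + 6, by omega⟩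
    simpa [e] using this
  · have := congrFun h0 ⟨m + 7, by omega⟩
    simpa [e] using this
  · have := congrFun h0 ⟨m + 8, by omega⟩
    simpa [e] using this
  · have := congrFun hu ⟨m + 3, by omega⟩
    simpa [e] using this
  · have := congrFun hu ⟨m + 4, by omega⟩
    simpa [e] using this
  · have := congrFun hu ⟨m + 7, by omega⟩
    simp [e] at this
    split_ifs at this
    · linear_combination this + a0
    · linear_combination this
  · have := congrFun hp ⟨m + 4, by omega⟩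
    simpa [e] using this

/-- the weight function -/
def wt (m : ℕ) (i : Fin (m + 9)) : ℕ :=
  if (i : ℕ) ≤ m + 4 then 3 * i else if (i : ℕ) = m + 5 then 1 else if (i : ℕ) = m + 6 then 4
    else if (i : ℕ) = m + 7 then 7 else 2

theorem nil_J : IsNilpotent (J : Matrix (Fin (m + 9)) (Fin (m + 9)) k) := by
  refine isNilpotent_of_weight _ (wt m) fun i j h => ?_
  simp only [J, Matrix.of_apply]
  rw [if_neg]
  rintro ⟨h1, h2, h3⟩
  have := i.isLt
  unfold wt at h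
  split_ifs at h <;> omega

theorem E_apply (i j : ℕ) (r c : Fin (m + 9)) :
    (E i j : Matrix (Fin (m + 9)) (Fin (m + 9)) k) r c = if (r : ℕ) = i ∧ (c : ℕ) = j then 1 else 0 :=
  rfl

theorem E_wt {i j : ℕ} (hw : ∀ r c : Fin (m + 9), (r : ℕ) = i → (c : ℕ) = j → wt m c < wt m r)
    {r c : Fin (m + 9)} (h : wt m r ≤ wt m c) :
    (E i j : Matrix (Fin (m + 9)) (Fin (m + 9)) k) r c = 0 := by
  rw [E_apply, if_neg]
  rintro ⟨h1, h2⟩
  exact absurd (hw r c h1 h2) (by omega)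

theorem nil_mk (x : P k) : IsNilpotent (mk x : Matrix (Fin (m + 9)) (Fin (m + 9)) k) := by
  refine isNilpotent_of_weight _ (wt m) fun i j h => ?_
  have key : ∀ r c : ℕ, (∀ r' c' : Fin (m + 9), (r' : ℕ) = r → (c' : ℕ) = c → wt m c' < wt m r') →
      (E r c : Matrix (Fin (m + 9)) (Fin (m + 9)) k) i j = 0 := fun r c hw => E_wt hw h
  simp only [mk, Matrix.add_apply, Matrix.smul_apply, smul_eq_mul]
  rw [key (m + 5) 0, key (m + 6) 1, key (m + 7) 2, key (m + 6) 0, key (m + 7) 1, key (m + 7) 0,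
    key (m + 2) (m + 5), key (m + 3) (m + 6), key (m + 4) (m + 7), key (m + 3) (m + 5),
    key (m + 4) (m + 6), key (m + 4) (m + 5), key (m + 6) (m + 5), key (m + 7) (m + 6),
    key (m + 7) (m + 5), key (m + 8) 0, key (m + 8) (m + 5), key (m + 4) (m + 8),
    key (m + 7) (m + 8)]
  · simp
  all_goals
    intro r' c' h1 h2
    unfold wt
    split_ifs <;> omega

theorem cn_of_rel {x y : P k} (h : Rel x y) :
    CN ![(J : Matrix (Fin (m + 9)) (Fin (m + 9)) k), mk x, mk y] := by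
  refine ⟨fun i j => ?_, fun i => ?_⟩
  · fin_cases i <;> fin_cases j
    · rfl
    · exact J_mk x
    · exact J_mk y
    · exact (J_mk x).symm
    · rfl
    · exact comm_of_rel h
    · exact (J_mk y).symm
    · exact (comm_of_rel h).symm
    · rfl
  · fin_cases i
    · exact nil_J
    · exact nil_mk x
    · exact nil_mk y

end Ta31

end Pool.Agent.Lib.D9
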