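import Pool.Agent.Lib.D9.Ta31A

/-!
# MP_5dcbc3_ag: Jordan type `(a, 3, 1)`, `a = m + 5`: shape, duality, limits
-/

namespace Pool.Agent.Lib.D9

open Matrix Polynomial Pool.Agent.Lib.Q5dc Pool.Agent.Lib.D7 Pool.Agent.Lib.D8

variable {k : Type*} [Field k]

namespace Ta31

variable {m : ℕ}

theorem vec_sum (w : Fin (m + 9) → k) : w = ∑ i : Fin (m + 9), w i • e (i : ℕ) := by
  funext j
  rw [Finset.sum_apply, Finset.sum_eq_single j]
  · simp [e]
  · intro i _ hij
    have : ¬ (j : ℕ) = (i : ℕ) := fun h => hij (Fin.ext h.symm)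
    simp [e, this]
  · intro h; exact absurd (Finset.mem_univ j) h

theorem e_apply (i : ℕ) (j : Fin (m + 9)) : (e i : Fin (m + 9) → k) j = if (j : ℕ) = i then 1 else 0 :=
  rfl

/-- the diagonal part -/
def Dg (q r : k) : Matrix (Fin (m + 9)) (Fin (m + 9)) k :=
  q • (E (m + 5) (m + 5) + E (m + 6) (m + 6) + E (m + 7) (m + 7)) + r • E (m + 8) (m + 8)

theorem Dg_e (q r : k) (l : ℕ) (hl : l < m + 9) : (Dg q r : Matrix (Fin (m + 9)) (Fin (m + 9)) k) *ᵥ
    e l = q • ((if m + 5 = l then e (m + 5) else 0) + (if m + 6 = l then e (m + 6) else 0) +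
      (if m + 7 = l then e (m + 7) else 0)) + r • (if m + 8 = l then e (m + 8) else 0) := by
  simp only [Dg, Matrix.add_mulVec, Matrix.smul_mulVec, E_e _ _ l hl]

theorem J_Dg (q r : k) : (J : Matrix (Fin (m + 9)) (Fin (m + 9)) k) * Dg q r = Dg q r * J := by
  refine ext_e fun l hl => ?_
  rw [← Matrix.mulVec_mulVec, ← Matrix.mulVec_mulVec, Dg_e _ _ _ hl]
  by_cases h1 : l ≤ m + 4
  · have h3 : ¬ m + 5 = l := by omega
    have h4 : ¬ m + 6 = l := by omega
    have h5 : ¬ m + 7 = l := by omega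
    have h6 : ¬ m + 8 = l := by omega
    rw [if_neg h3, if_neg h4, if_neg h5, if_neg h6]
    by_cases h2 : l = m + 4
    · rw [h2, J_a]; simp
    · rw [J_lt _ (by omega), Dg_e _ _ _ (by omega), if_neg (by omega), if_neg (by omega),
        if_neg (by omega), if_neg (by omega)]
      simp
  · rcases (by omega : l = m + 5 ∨ l = m + 6 ∨ l = m + 7 ∨ l = m + 8) with rfl | rfl | rfl | rfl
    · rw [J_u, Dg_e _ _ _ (by omega)]
      simp [Matrix.mulVec_smul, J_u]
    · rw [J_u1, Dg_e _ _ _ (by omega)]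
      simp [Matrix.mulVec_smul, J_u1]
    · rw [J_u2]
      simp [Matrix.mulVec_smul, J_u2]
    · rw [J_p]
      simp [Matrix.mulVec_smul, J_p]

theorem J_row (M : Matrix (Fin (m + 9)) (Fin (m + 9)) k) {i : Fin (m + 9)}
    (hi : (i : ℕ) = 0 ∨ (i : ℕ) = m + 5 ∨ (i : ℕ) = m + 8) (j : Fin (m + 9)) :
    ((J : Matrix (Fin (m + 9)) (Fin (m + 9)) k) * M) i j = 0 := by
  rw [Matrix.mul_apply]
  refine Finset.sum_eq_zero fun t _ => ?_
  have : (J : Matrix (Fin (m + 9)) (Fin (m + 9)) k) i t = 0 := by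
    simp only [J, Matrix.of_apply]
    rw [if_neg]
    omega
  rw [this, zero_mul]

theorem aeval_row (g : k[X]) {i : Fin (m + 9)}
    (hi : (i : ℕ) = 0 ∨ (i : ℕ) = m + 5 ∨ (i : ℕ) = m + 8) (j : Fin (m + 9)) :
    (aeval (J : Matrix (Fin (m + 9)) (Fin (m + 9)) k) g) i j = if i = j then g.coeff 0 else 0 := by
  have h1 : g = X * g.divX + C (g.coeff 0) := (X_mul_divX_add g).symm
  conv_lhs => rw [h1]
  rw [map_add, map_mul, aeval_X, aeval_C, Matrix.add_apply, J_row _ hi, zero_add,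
    Matrix.algebraMap_matrix_apply]
  rfl

theorem hJc (w : Fin (m + 9) → k) (i : ℕ) (hi : i + 1 < m + 9) (h1 : i + 1 ≠ m + 5)
    (h2 : i + 1 ≠ m + 8) : (J *ᵥ w) ⟨i + 1, hi⟩ = w ⟨i, by omega⟩ := by
  rw [Matrix.mulVec, dotProduct, Finset.sum_eq_single ⟨i, by omega⟩]
  · simp only [J, Matrix.of_apply]
    rw [if_pos ⟨trivial, h1, h2⟩, one_mul]
  · intro b _ hb
    simp only [J, Matrix.of_apply]
    rw [if_neg, zero_mul]
    rintro ⟨h3, -, -⟩
    apply hb
    exact Fin.ext (by simpa using h3.symm)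
  · intro h; exact absurd (Finset.mem_univ _) h

/-- shape of the nilpotent matrices commuting with `J` -/
theorem shape {M : Matrix (Fin (m + 9)) (Fin (m + 9)) k} (hM : J * M = M * J)
    (hn : IsNilpotent M) : ∃ (g : k[X]) (x : P k), X ∣ g ∧ M = aeval J g + mk x := by
  obtain ⟨g, hg⟩ : ∃ g : k[X], g = ∑ i ∈ Finset.range (m + 5),
    C (if h : i < m + 9 then (M *ᵥ e 0) ⟨i, h⟩ else 0) * X ^ i := ⟨_, rfl⟩
  have hgJ : (J : Matrix (Fin (m + 9)) (Fin (m + 9)) k) * aeval J g = aeval J g * J := by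
    have h1 : (J : Matrix (Fin (m + 9)) (Fin (m + 9)) k) * aeval J g = aeval J (X * g) := by
      rw [map_mul, aeval_X]
    have h2 : aeval J g * (J : Matrix (Fin (m + 9)) (Fin (m + 9)) k) = aeval J (X * g) := by
      rw [mul_comm X g, map_mul, aeval_X]
    rw [h1, h2]
  set M' := M - aeval J g with hM'
  have hM'J : J * M' = M' * J := by
    rw [hM', mul_sub, sub_mul, hM, hgJ]
  -- the generator `v`
  have h0 : ∀ j : Fin (m + 9), (j : ℕ) ≤ m + 4 → (M' *ᵥ e 0) j = 0 := by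
    intro j hj
    have h1 : (aeval (J : Matrix (Fin (m + 9)) (Fin (m + 9)) k) g *ᵥ e 0) j = (M *ᵥ e 0) j := by
      rw [hg, map_sum, Matrix.sum_mulVec, Finset.sum_apply, Finset.sum_eq_single (j : ℕ)]
      · rw [map_mul, map_pow, aeval_X, aeval_C, ← Matrix.mulVec_mulVec, Jpow_0 _ hj,
          dif_pos j.isLt, Algebra.algebraMap_eq_smul_one, Matrix.smul_mulVec, Matrix.one_mulVec,
          Pi.smul_apply, e_apply, if_pos rfl, smul_eq_mul, mul_one]
      · intro i hi hij
        rw [Finset.mem_range] at hi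
        rw [map_mul, map_pow, aeval_X, aeval_C, ← Matrix.mulVec_mulVec, Jpow_0 _ (by omega),
          Algebra.algebraMap_eq_smul_one, Matrix.smul_mulVec, Matrix.one_mulVec,
          Pi.smul_apply, e_apply, if_neg (fun h => hij h.symm), smul_zero]
      · intro h
        exact absurd (Finset.mem_range.2 (by omega)) h
    rw [hM', Matrix.sub_mulVec, Pi.sub_apply, h1, sub_self]
  have hJM : ∀ w, J *ᵥ (M' *ᵥ w) = M' *ᵥ (J *ᵥ w) := fun w => by
    rw [Matrix.mulVec_mulVec, hM'J, ← Matrix.mulVec_mulVec]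
  have hu : ∀ j : Fin (m + 9), (j : ℕ) ≤ m + 1 → (M' *ᵥ e (m + 5)) j = 0 := by
    intro j hj
    have h1 : J *ᵥ (J *ᵥ (J *ᵥ (M' *ᵥ e (m + 5)))) = 0 := by
      rw [hJM, J_u, hJM, J_u1, hJM, J_u2, Matrix.mulVec_zero]
    have h2 := congrFun h1 ⟨(j : ℕ) + 1 + 1 + 1, by omega⟩
    rw [hJc _ _ _ (by omega) (by omega), hJc _ _ _ (by omega) (by omega),
      hJc _ _ _ (by omega) (by omega)] at h2
    exact h2
  have hp : ∀ j : Fin (m + 9), (j : ℕ) ≤ m + 3 ∨ (j : ℕ) = m + 5 ∨ (j : ℕ) = m + 6 →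
      (M' *ᵥ e (m + 8)) j = 0 := by
    intro j hj
    have h1 : J *ᵥ (M' *ᵥ e (m + 8)) = 0 := by
      rw [hJM, J_p, Matrix.mulVec_zero]
    have h2 := congrFun h1 ⟨(j : ℕ) + 1, by omega⟩
    rw [hJc _ _ _ (by omega) (by omega)] at h2
    exact h2
  obtain ⟨x, q, r, hx⟩ : ∃ (x : P k) (q r : k), M' = mk x + Dg q r := by
    refine ⟨⟨(M' *ᵥ e 0) ⟨m + 5, by omega⟩, (M' *ᵥ e 0) ⟨m + 6, by omega⟩,
      (M' *ᵥ e 0) ⟨m + 7, by omega⟩, (M' *ᵥ e (m + 5)) ⟨m + 2, by omega⟩,
      (M' *ᵥ e (m + 5)) ⟨m + 3, by omega⟩, (M' *ᵥ e (m + 5)) ⟨m + 4, by omega⟩,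
      (M' *ᵥ e (m + 5)) ⟨m + 6, by omega⟩, (M' *ᵥ e (m + 5)) ⟨m + 7, by omega⟩,
      (M' *ᵥ e 0) ⟨m + 8, by omega⟩, (M' *ᵥ e (m + 5)) ⟨m + 8, by omega⟩,
      (M' *ᵥ e (m + 8)) ⟨m + 4, by omega⟩, (M' *ᵥ e (m + 8)) ⟨m + 7, by omega⟩⟩,
      (M' *ᵥ e (m + 5)) ⟨m + 5, by omega⟩, (M' *ᵥ e (m + 8)) ⟨m + 8, by omega⟩, ?_⟩
    have hJ2 : ∀ x q r, (J : Matrix (Fin (m + 9)) (Fin (m + 9)) k) * (mk x + Dg q r) =
        (mk x + Dg q r) * J := by
      intro x q r
      rw [mul_add, add_mul, J_mk, J_Dg]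
    refine ext_gen hM'J (hJ2 _ _ _) ?_ ?_ ?_
    · rw [Matrix.add_mulVec, mk_0, Dg_e _ _ _ (by omega)]
      funext j
      have hj := j.isLt
      rcases (by omega : (j : ℕ) ≤ m + 4 ∨ (j : ℕ) = m + 5 ∨ (j : ℕ) = m + 6 ∨ (j : ℕ) = m + 7 ∨
        (j : ℕ) = m + 8) with h | h | h | h | h
      · rw [h0 j h]
        have h3 : ¬ (j : ℕ) = m + 5 := by omega
        have h4 : ¬ (j : ℕ) = m + 6 := by omega
        have h5 : ¬ (j : ℕ) = m + 7 := by omega
        have h6 : ¬ (j : ℕ) = m + 8 := by omega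
        simp [e_apply, h3, h4, h5, h6]
      · have : j = ⟨m + 5, by omega⟩ := Fin.ext h
        rw [this]
        simp [e_apply]
      · have : j = ⟨m + 6, by omega⟩ := Fin.ext h
        rw [this]
        simp [e_apply]
      · have : j = ⟨m + 7, by omega⟩ := Fin.ext h
        rw [this]
        simp [e_apply]
      · have : j = ⟨m + 8, by omega⟩ := Fin.ext h
        rw [this]
        simp [e_apply]
    · rw [Matrix.add_mulVec, mk_u, Dg_e _ _ _ (by omega)]
      funext j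
      have hj := j.isLt
      rcases (by omega : (j : ℕ) ≤ m + 1 ∨ (j : ℕ) = m + 2 ∨ (j : ℕ) = m + 3 ∨ (j : ℕ) = m + 4 ∨
        (j : ℕ) = m + 5 ∨ (j : ℕ) = m + 6 ∨ (j : ℕ) = m + 7 ∨ (j : ℕ) = m + 8) with
        h | h | h | h | h | h | h | h
      · rw [hu j h]
        have h1 : ¬ (j : ℕ) = m + 3 := by omega
        have h2 : ¬ (j : ℕ) = m + 4 := by omega
        have h3 : ¬ (j : ℕ) = m + 5 := by omega
        have h4 : ¬ (j : ℕ) = m + 6 := by omega
        have h5 : ¬ (j : ℕ) = m + 7 := by omega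
        have h6 : ¬ (j : ℕ) = m + 8 := by omega
        have h7 : ¬ (j : ℕ) = m + 2 := by omega
        simp [e_apply, h1, h2, h3, h4, h5, h6, h7]
      · have : j = ⟨m + 2, by omega⟩ := Fin.ext h
        rw [this]
        simp [e_apply]
      · have : j = ⟨m + 3, by omega⟩ := Fin.ext h
        rw [this]
        simp [e_apply]
      · have : j = ⟨m + 4, by omega⟩ := Fin.ext h
        rw [this]
        simp [e_apply]
      · have : j = ⟨m + 5, by omega⟩ := Fin.ext h
        rw [this]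
        simp [e_apply]
      · have : j = ⟨m + 6, by omega⟩ := Fin.ext h
        rw [this]
        simp [e_apply]
      · have : j = ⟨m + 7, by omega⟩ := Fin.ext h
        rw [this]
        simp [e_apply]
      · have : j = ⟨m + 8, by omega⟩ := Fin.ext h
        rw [this]
        simp [e_apply]
    · rw [Matrix.add_mulVec, mk_p, Dg_e _ _ _ (by omega)]
      funext j
      have hj := j.isLt
      rcases (by omega : ((j : ℕ) ≤ m + 3 ∨ (j : ℕ) = m + 5 ∨ (j : ℕ) = m + 6) ∨ (j : ℕ) = m + 4 ∨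
        (j : ℕ) = m + 7 ∨ (j : ℕ) = m + 8) with h | h | h | h
      · rw [hp j h]
        have h2 : ¬ (j : ℕ) = m + 4 := by omega
        have h4 : ¬ (j : ℕ) = m + 7 := by omega
        have h5 : ¬ (j : ℕ) = m + 8 := by omega
        simp [e_apply, h2, h4, h5]
      · have : j = ⟨m + 4, by omega⟩ := Fin.ext h
        rw [this]
        simp [e_apply]
      · have : j = ⟨m + 7, by omega⟩ := Fin.ext h
        rw [this]
        simp [e_apply]
      · have : j = ⟨m + 8, by omega⟩ := Fin.ext h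
        rw [this]
        simp [e_apply]
  have hMeq : M = aeval J g + mk x + Dg q r := by
    rw [add_assoc, ← hx, hM']
    abel
  -- nilpotency
  have hent : ∀ i j : Fin (m + 9), ((i : ℕ) = 0 ∨ (i : ℕ) = m + 5 ∨ (i : ℕ) = m + 8) →
      M i j = (if i = j then g.coeff 0 else 0) + (mk x i j + (Dg q r : Matrix _ _ k) i j) := by
    intro i j hi
    rw [hMeq, Matrix.add_apply, Matrix.add_apply, aeval_row g hi, add_assoc]
  have hc0 : g.coeff 0 = 0 := by
    have h1 := diag_zero hn ∅ ⟨0, by omega⟩ (by simp) (by simp) (by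
      intro j _ hj
      have hj' : ¬ (⟨0, by omega⟩ : Fin (m + 9)) = j := fun h => hj h.symm
      rw [hent _ _ (Or.inl rfl), if_neg hj']
      simp [mk, Dg, E_apply])
    rw [hent _ _ (Or.inl rfl), if_pos rfl] at h1
    simpa [mk, Dg, E_apply] using h1
  have hq0 : q = 0 := by
    have h1 := diag_zero hn {⟨0, by omega⟩} ⟨m + 5, by omega⟩ (by simp) (by
      intro l hl j hj
      rw [Set.mem_singleton_iff] at hl hj
      subst hl
      rw [hent _ _ (Or.inl rfl), if_neg (fun h => hj h.symm)]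
      simp [mk, Dg, E_apply]) (by
      intro j hj hj2
      rw [Set.mem_singleton_iff] at hj
      have hj' : ¬ (⟨m + 5, by omega⟩ : Fin (m + 9)) = j := fun h => hj2 h.symm
      rw [hent _ _ (Or.inr (Or.inl rfl)), if_neg hj']
      have hj0 : ¬ j = 0 := fun h => hj (by rw [h]; rfl)
      have h4 : ¬ (j : ℕ) = m + 5 := fun h => hj2 (Fin.ext h)
      simp [mk, Dg, E_apply, h4]
      intro h; exact absurd h hj0)
    rw [hent _ _ (Or.inr (Or.inl rfl)), if_pos rfl, hc0] at h1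
    simpa [mk, Dg, E_apply] using h1
  have hr0 : r = 0 := by
    have h1 := diag_zero hn {⟨0, by omega⟩, ⟨m + 5, by omega⟩} ⟨m + 8, by omega⟩ (by simp) (by
      intro l hl j hj
      simp only [Set.mem_insert_iff, Set.mem_singleton_iff, not_or] at hl hj
      obtain ⟨hj1, hj2⟩ := hj
      have hj0 : ¬ j = 0 := fun h => hj1 (by rw [h]; rfl)
      have h4 : ¬ (j : ℕ) = m + 5 := fun h => hj2 (Fin.ext h)
      rcases hl with rfl | rfl
      · rw [hent _ _ (Or.inl rfl), if_neg (fun h => hj1 h.symm)]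
        simp [mk, Dg, E_apply]
      · rw [hent _ _ (Or.inr (Or.inl rfl)), if_neg (fun h => hj2 h.symm)]
        simp [mk, Dg, E_apply, h4]
        intro h; exact absurd h hj0) (by
      intro j hj hj3
      simp only [Set.mem_insert_iff, Set.mem_singleton_iff, not_or] at hj
      obtain ⟨hj1, hj2⟩ := hj
      have hj0 : ¬ j = 0 := fun h => hj1 (by rw [h]; rfl)
      have h4 : ¬ (j : ℕ) = m + 5 := fun h => hj2 (Fin.ext h)
      have h5 : ¬ (j : ℕ) = m + 8 := fun h => hj3 (Fin.ext h)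
      rw [hent _ _ (Or.inr (Or.inr rfl)), if_neg (fun h => hj3 h.symm)]
      simp [mk, Dg, E_apply, h4, h5]
      intro h; exact absurd h hj0)
    rw [hent _ _ (Or.inr (Or.inr rfl)), if_pos rfl, hc0] at h1
    simpa [mk, Dg, E_apply] using h1
  refine ⟨g, x, X_dvd_iff.2 hc0, ?_⟩
  rw [hMeq, hq0, hr0]
  simp [Dg]

/-! ### duality -/

/-- the involution of the basis -/
def sg (m i : ℕ) : ℕ :=
  if i ≤ m + 4 then m + 4 - i else if i = m + 5 then m + 7 else if i = m + 7 then m + 5 else i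

theorem sg_lt {i : ℕ} (_ : i < m + 9) : sg m i < m + 9 := by
  unfold sg
  split_ifs <;> omega

theorem sg_sg {i : ℕ} (hi : i < m + 9) : sg m (sg m i) = i := by
  unfold sg
  split_ifs <;> omega

/-- the involution of the basis as an equivalence -/
def sgE (m : ℕ) : Fin (m + 9) ≃ Fin (m + 9) where
  toFun := fun i => ⟨sg m i, sg_lt i.isLt⟩
  invFun := fun i => ⟨sg m i, sg_lt i.isLt⟩
  left_inv := fun i => Fin.ext (sg_sg i.isLt)
  right_inv := fun i => Fin.ext (sg_sg i.isLt)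

theorem E_sg {i j : ℕ} (hi : i < m + 9) (hj : j < m + 9) (r c : Fin (m + 9)) :
    (E i j : Matrix (Fin (m + 9)) (Fin (m + 9)) k) (sgE m c) (sgE m r) =
      E (sg m j) (sg m i) r c := by
  rw [E_apply, E_apply]
  have h1 : ((sgE m c : Fin (m + 9)) : ℕ) = i ↔ (c : ℕ) = sg m i := by
    show sg m c = i ↔ _
    constructor
    · rintro rfl; exact (sg_sg c.isLt).symm
    · intro h; rw [h]; exact sg_sg hi
  have h2 : ((sgE m r : Fin (m + 9)) : ℕ) = j ↔ (r : ℕ) = sg m j := by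
    show sg m r = j ↔ _
    constructor
    · rintro rfl; exact (sg_sg r.isLt).symm
    · intro h; rw [h]; exact sg_sg hj
  simp only [h1, h2, and_comm]

theorem J_sg (r c : Fin (m + 9)) :
    (J : Matrix (Fin (m + 9)) (Fin (m + 9)) k) (sgE m c) (sgE m r) = J r c := by
  simp only [J, Matrix.of_apply]
  have hr := r.isLt
  have hc := c.isLt
  have h1 : ((sgE m c : Fin (m + 9)) : ℕ) = sg m c := rfl
  have h2 : ((sgE m r : Fin (m + 9)) : ℕ) = sg m r := rfl
  rw [h1, h2]
  congr 1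
  unfold sg
  split_ifs <;> simp <;> omega

/-- dual parameters -/
def du (x : P k) : P k :=
  ⟨x.f0, x.f1, x.f2, x.c0, x.c1, x.c2, x.q1, x.q2, x.th, x.et, x.om, x.pi⟩

theorem mk_sg (x : P k) (r c : Fin (m + 9)) :
    (mk x : Matrix (Fin (m + 9)) (Fin (m + 9)) k) (sgE m c) (sgE m r) = mk (du x) r c := by
  have s0 : sg m 0 = m + 4 := by simp [sg]
  have s1 : sg m 1 = m + 3 := by simp [sg]
  have s1' : sg m 2 = m + 2 := by simp [sg]
  have s2' : sg m (m + 2) = 2 := by simp [sg]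
  have s2 : sg m (m + 3) = 1 := by simp [sg]
  have s3 : sg m (m + 4) = 0 := by simp [sg]
  have s4 : sg m (m + 5) = m + 7 := by simp [sg]
  have s5 : sg m (m + 6) = m + 6 := by simp [sg]
  have s6 : sg m (m + 7) = m + 5 := by simp [sg]
  have s7 : sg m (m + 8) = m + 8 := by simp [sg]
  simp only [mk, Matrix.add_apply, Matrix.smul_apply, smul_eq_mul]
  rw [E_sg (by omega) (by omega), E_sg (by omega) (by omega), E_sg (by omega) (by omega),
    E_sg (by omega) (by omega), E_sg (by omega) (by omega), E_sg (by omega) (by omega),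
    E_sg (by omega) (by omega), E_sg (by omega) (by omega), E_sg (by omega) (by omega),
    E_sg (by omega) (by omega), E_sg (by omega) (by omega), E_sg (by omega) (by omega),
    E_sg (by omega) (by omega), E_sg (by omega) (by omega), E_sg (by omega) (by omega),
    E_sg (by omega) (by omega), E_sg (by omega) (by omega), E_sg (by omega) (by omega),
    E_sg (by omega) (by omega), s0, s1, s1', s2', s2, s3, s4, s5, s6, s7]
  simp only [du]
  ring

theorem cl_dual {x y : P k}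
    (h : Cl ![(J : Matrix (Fin (m + 9)) (Fin (m + 9)) k), mk (du x), mk (du y)]) :
    Cl ![(J : Matrix (Fin (m + 9)) (Fin (m + 9)) k), mk x, mk y] := by
  have h5 := Cl.transpose (Cl.mapEquiv (Matrix.reindexAlgEquiv k k (sgE m)) rfl h)
  have h6 : ∀ M : Matrix (Fin (m + 9)) (Fin (m + 9)) k, ∀ r c,
      (Matrix.reindexAlgEquiv k k (sgE m) M).transpose r c = M (sgE m c) (sgE m r) :=
    fun M r c => rfl
  convert h5 using 1
  funext i
  fin_cases i
  · ext r c
    show _ = (Matrix.reindexAlgEquiv k k (sgE m) (J : Matrix (Fin (m + 9)) (Fin (m + 9)) k)).transpose r c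
    rw [h6, J_sg]
    rfl
  · ext r c
    show _ = (Matrix.reindexAlgEquiv k k (sgE m) (mk (du x) : Matrix (Fin (m + 9)) (Fin (m + 9)) k)).transpose r c
    rw [h6, mk_sg]
    rfl
  · ext r c
    show _ = (Matrix.reindexAlgEquiv k k (sgE m) (mk (du y) : Matrix (Fin (m + 9)) (Fin (m + 9)) k)).transpose r c
    rw [h6, mk_sg]
    rfl

theorem Rel.dual {x y : P k} (h : Rel x y) : Rel (du x) (du y) := by
  obtain ⟨h1, h2, h3, h4, h5, h6, h7, h8, h9, h10⟩ := h
  refine ⟨?_, ?_, ?_, ?_, ?_, ?_, ?_, ?_, ?_, ?_⟩ <;> simp only [du]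
  · linear_combination -h1
  · linear_combination -h2
  · linear_combination -h3
  · linear_combination -h7
  · linear_combination -h8
  · linear_combination -h10
  · linear_combination -h4
  · linear_combination -h5
  · linear_combination -h9
  · linear_combination -h6

theorem Rel.swap {x y : P k} (h : Rel x y) : Rel y x := by
  obtain ⟨h1, h2, h3, h4, h5, h6, h7, h8, h9, h10⟩ := h
  exact ⟨h1.symm, h2.symm, h3.symm, h4.symm, h5.symm, h6.symm, h7.symm, h8.symm, h9.symm,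
    h10.symm⟩

/-- the statement -/
def G (m : ℕ) (x y : P k) : Prop :=
  Cl ![(J : Matrix (Fin (m + 9)) (Fin (m + 9)) k), mk x, mk y]

theorem G.swap {x y : P k} (h : G m x y) : G m y x := Two.cl_swap h

theorem G.dual {x y : P k} (h : G m (du x) (du y)) : G m x y := cl_dual h

/-- linear changes -/
theorem G.lin {x y x' y' : P k} (h : G m x' y') (a b c d : k) (hx : x = a • x' + b • y')
    (hy : y = c • x' + d • y') : G m x y := by
  have m0 : (J : Matrix (Fin (m + 9)) (Fin (m + 9)) k) ∈ adj ![J, mk x', mk y'] :=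
    mem_adj ![(J : Matrix (Fin (m + 9)) (Fin (m + 9)) k), mk x', mk y'] 0
  have m1 : mk x' ∈ adj ![(J : Matrix (Fin (m + 9)) (Fin (m + 9)) k), mk x', mk y'] :=
    mem_adj ![(J : Matrix (Fin (m + 9)) (Fin (m + 9)) k), mk x', mk y'] 1
  have m2 : mk y' ∈ adj ![(J : Matrix (Fin (m + 9)) (Fin (m + 9)) k), mk x', mk y'] :=
    mem_adj ![(J : Matrix (Fin (m + 9)) (Fin (m + 9)) k), mk x', mk y'] 2
  refine cl_of_adj (fun i => ?_) h
  fin_cases i
  · exact m0
  · show mk x ∈ _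
    rw [hx, mk_add, mk_smul, mk_smul]
    exact add_mem (SMulMemClass.smul_mem _ m1) (SMulMemClass.smul_mem _ m2)
  · show mk y ∈ _
    rw [hy, mk_add, mk_smul, mk_smul]
    exact add_mem (SMulMemClass.smul_mem _ m1) (SMulMemClass.smul_mem _ m2)

end Ta31

end Pool.Agent.Lib.D9
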