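import Pool.Agent.Lib.D9.Ta31B

/-!
# MP_5dcbc3_ag: Jordan type `(a, 3, 1)`, `a = m + 5`: the case `c0 = f0 = 0`, normal form
-/

namespace Pool.Agent.Lib.D9

open Matrix Polynomial Pool.Agent.Lib.Q5dc Pool.Agent.Lib.D7 Pool.Agent.Lib.D8

variable {k : Type*} [Field k]

namespace Ta31

variable {m : ℕ}

/-! ### powers of `J` -/

theorem JJ_mul (M : Matrix (Fin (m + 9)) (Fin (m + 9)) k) (h : J * M = M * J) (i : ℕ) :
    J * (J ^ i * M) = J ^ i * M * J := by
  rw [← mul_assoc, ← pow_succ', mul_assoc, ← h, ← mul_assoc, ← pow_succ]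

theorem J_pow_comm (i : ℕ) : (J : Matrix (Fin (m + 9)) (Fin (m + 9)) k) * J ^ i = J ^ i * J := by
  rw [← pow_succ', ← pow_succ]

theorem Jpow_u (i : ℕ) : (J : Matrix (Fin (m + 9)) (Fin (m + 9)) k) ^ (i + 3) *ᵥ e (m + 5) = 0 := by
  rw [pow_succ, pow_succ, pow_succ, ← Matrix.mulVec_mulVec, ← Matrix.mulVec_mulVec,
    ← Matrix.mulVec_mulVec, J_u, J_u1, J_u2, Matrix.mulVec_zero]

theorem Jpow_p (i : ℕ) : (J : Matrix (Fin (m + 9)) (Fin (m + 9)) k) ^ (i + 1) *ᵥ e (m + 8) = 0 := by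
  rw [pow_succ, ← Matrix.mulVec_mulVec, J_p, Matrix.mulVec_zero]

theorem Jpow_u1 (i : ℕ) : (J : Matrix (Fin (m + 9)) (Fin (m + 9)) k) ^ (i + 2) *ᵥ e (m + 6) = 0 := by
  rw [pow_succ, pow_succ, ← Matrix.mulVec_mulVec, ← Matrix.mulVec_mulVec, J_u1, J_u2,
    Matrix.mulVec_zero]

theorem Jpow_u2 (i : ℕ) : (J : Matrix (Fin (m + 9)) (Fin (m + 9)) k) ^ (i + 1) *ᵥ e (m + 7) = 0 := by
  rw [pow_succ, ← Matrix.mulVec_mulVec, J_u2, Matrix.mulVec_zero]

theorem Jpow_ge (i j : ℕ) (hj : j ≤ m + 4) (h : m + 5 ≤ i + j) :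
    (J : Matrix (Fin (m + 9)) (Fin (m + 9)) k) ^ i *ᵥ e j = 0 := by
  have h1 : (J : Matrix (Fin (m + 9)) (Fin (m + 9)) k) ^ (m + 5) *ᵥ e 0 = 0 := by
    have : m + 5 = (m + 4) + 1 := rfl
    rw [this, pow_succ', ← Matrix.mulVec_mulVec, Jpow_0 _ (by omega), J_a]
  rw [← Jpow_0 j hj, Matrix.mulVec_mulVec, ← pow_add]
  obtain ⟨t, ht⟩ : ∃ t, i + j = t + (m + 5) := ⟨i + j - (m + 5), by omega⟩
  rw [ht, pow_add, ← Matrix.mulVec_mulVec, h1, Matrix.mulVec_zero]

theorem Jpow_add (i j : ℕ) (hij : i + j ≤ m + 4) :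
    (J : Matrix (Fin (m + 9)) (Fin (m + 9)) k) ^ i *ᵥ e j = e (i + j) := by
  rw [← Jpow_0 j (by omega), Matrix.mulVec_mulVec, ← pow_add, Jpow_0 _ hij]

theorem J3_0 : (J : Matrix (Fin (m + 9)) (Fin (m + 9)) k) ^ (m + 3) *ᵥ e 0 = e (m + 3) :=
  Jpow_0 _ (by omega)

theorem J3_1 : (J : Matrix (Fin (m + 9)) (Fin (m + 9)) k) ^ (m + 3) *ᵥ e 1 = e (m + 4) :=
  Jpow_add _ _ (by omega)

theorem J4_0 : (J : Matrix (Fin (m + 9)) (Fin (m + 9)) k) ^ (m + 4) *ᵥ e 0 = e (m + 4) :=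
  Jpow_0 _ (by omega)

theorem J3_u : (J : Matrix (Fin (m + 9)) (Fin (m + 9)) k) ^ (m + 3) *ᵥ e (m + 5) = 0 := Jpow_u m

theorem J4_u : (J : Matrix (Fin (m + 9)) (Fin (m + 9)) k) ^ (m + 4) *ᵥ e (m + 5) = 0 := by
  have : m + 4 = (m + 1) + 3 := rfl
  rw [this, Jpow_u]

theorem J3_p : (J : Matrix (Fin (m + 9)) (Fin (m + 9)) k) ^ (m + 3) *ᵥ e (m + 8) = 0 := Jpow_p _

theorem J4_p : (J : Matrix (Fin (m + 9)) (Fin (m + 9)) k) ^ (m + 4) *ᵥ e (m + 8) = 0 := Jpow_p _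

theorem J3_u1 : (J : Matrix (Fin (m + 9)) (Fin (m + 9)) k) ^ (m + 3) *ᵥ e (m + 6) = 0 :=
  Jpow_u1 _

theorem J3_u2 : (J : Matrix (Fin (m + 9)) (Fin (m + 9)) k) ^ (m + 3) *ᵥ e (m + 7) = 0 :=
  Jpow_u2 _

theorem J3_a1 : (J : Matrix (Fin (m + 9)) (Fin (m + 9)) k) ^ (m + 3) *ᵥ e (m + 3) = 0 :=
  Jpow_ge _ _ (by omega) (by omega)

theorem J3_a : (J : Matrix (Fin (m + 9)) (Fin (m + 9)) k) ^ (m + 3) *ᵥ e (m + 4) = 0 :=
  Jpow_ge _ _ (by omega) (by omega)

theorem Jpow_mem {T : Fin 3 → Matrix (Fin (m + 9)) (Fin (m + 9)) k} {M : Matrix _ _ k}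
    (h : M ∈ adj T) (i : ℕ) : M ^ (i + 1) ∈ adj T := by
  induction i with
  | zero => rw [zero_add, pow_one]; exact h
  | succ i ih => rw [pow_succ]; exact mul_mem ih h

/-! ### the generic member of the normal form -/

/-- the matrix `B` -/
def nB (p e' Om Th q : k) : P k := ⟨0, e' * Om, 0, 0, p * Th, 0, q, 0, 0, p, 0, e'⟩

/-- the matrix `D` -/
def nD (Om Th : k) : P k := ⟨0, 0, 0, 0, 0, 0, 1, 0, Om, 0, Th, 0⟩

/-- the first axis -/
def aX (Om Th : k) : Matrix (Fin (m + 9)) (Fin (m + 9)) k := J - mk (nD Om Th)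

/-- the other axes -/
def aY (p e' Om Th q l : k) : Matrix (Fin (m + 9)) (Fin (m + 9)) k :=
  mk (nB p e' Om Th q) - l • mk (nD Om Th) - (l * Om * Th) • J ^ (m + 3)

theorem J_aX (Om Th : k) : (J : Matrix (Fin (m + 9)) (Fin (m + 9)) k) * aX Om Th = aX Om Th * J := by
  rw [aX, mul_sub, sub_mul, J_mk]

theorem J_aY (p e' Om Th q l : k) :
    (J : Matrix (Fin (m + 9)) (Fin (m + 9)) k) * aY p e' Om Th q l = aY p e' Om Th q l * J := by
  rw [aY, mul_sub, mul_sub, sub_mul, sub_mul, J_mk, Matrix.mul_smul, Matrix.mul_smul,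
    Matrix.smul_mul, Matrix.smul_mul, J_mk, J_pow_comm]

variable {p e' Om Th q l l' : k}

theorem X_0 : (aX Om Th : Matrix (Fin (m + 9)) (Fin (m + 9)) k) *ᵥ e 0 = e 1 - Om • e (m + 8) := by
  rw [aX, Matrix.sub_mulVec, J_0, mk_0]
  simp [nD]

theorem X_l {l : ℕ} (h1 : 1 ≤ l) (h2 : l ≤ m + 3) :
    (aX Om Th : Matrix (Fin (m + 9)) (Fin (m + 9)) k) *ᵥ e l = e (l + 1) := by
  rw [aX, Matrix.sub_mulVec, J_lt _ (by omega)]
  rcases (by omega : l = 1 ∨ l = 2 ∨ 3 ≤ l) with rfl | rfl | h3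
  · rw [mk_1]; simp [nD]
  · rw [mk_2]; simp [nD]
  · rw [mk_mid _ h3 (by omega), sub_zero]

theorem X_a : (aX Om Th : Matrix (Fin (m + 9)) (Fin (m + 9)) k) *ᵥ e (m + 4) = 0 := by
  rw [aX, Matrix.sub_mulVec, J_a, mk_a, sub_zero]

theorem X_a1 : (aX Om Th : Matrix (Fin (m + 9)) (Fin (m + 9)) k) *ᵥ e (m + 3) = e (m + 4) :=
  X_l (by omega) (by omega)

theorem X_u : (aX Om Th : Matrix (Fin (m + 9)) (Fin (m + 9)) k) *ᵥ e (m + 5) = 0 := by
  rw [aX, Matrix.sub_mulVec, J_u, mk_u]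
  simp [nD]

theorem X_u1 : (aX Om Th : Matrix (Fin (m + 9)) (Fin (m + 9)) k) *ᵥ e (m + 6) = 0 := by
  rw [aX, Matrix.sub_mulVec, J_u1, mk_u1]
  simp [nD]

theorem X_u2 : (aX Om Th : Matrix (Fin (m + 9)) (Fin (m + 9)) k) *ᵥ e (m + 7) = 0 := by
  rw [aX, Matrix.sub_mulVec, J_u2, mk_u2]
  simp [nD]

theorem X_p : (aX Om Th : Matrix (Fin (m + 9)) (Fin (m + 9)) k) *ᵥ e (m + 8) =
    -(Th • e (m + 4)) := by
  rw [aX, Matrix.sub_mulVec, J_p, mk_p]
  simp [nD]

theorem Y_0 : (aY p e' Om Th q l : Matrix (Fin (m + 9)) (Fin (m + 9)) k) *ᵥ e 0 =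
    (e' * Om) • e (m + 6) - (l * Om) • e (m + 8) - (l * Om * Th) • e (m + 3) := by
  rw [aY, Matrix.sub_mulVec, Matrix.sub_mulVec, Matrix.smul_mulVec, Matrix.smul_mulVec, J3_0, mk_0,
    mk_0]
  simp only [nB, nD]
  module

theorem Y_1 : (aY p e' Om Th q l : Matrix (Fin (m + 9)) (Fin (m + 9)) k) *ᵥ e 1 =
    (e' * Om) • e (m + 7) - (l * Om * Th) • e (m + 4) := by
  rw [aY, Matrix.sub_mulVec, Matrix.sub_mulVec, Matrix.smul_mulVec, Matrix.smul_mulVec, J3_1, mk_1,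
    mk_1]
  simp only [nB, nD]
  module

theorem Y_u : (aY p e' Om Th q l : Matrix (Fin (m + 9)) (Fin (m + 9)) k) *ᵥ e (m + 5) =
    (p * Th) • e (m + 3) + (q - l) • e (m + 6) + p • e (m + 8) := by
  rw [aY, Matrix.sub_mulVec, Matrix.sub_mulVec, Matrix.smul_mulVec, Matrix.smul_mulVec, J3_u, mk_u,
    mk_u]
  simp only [nB, nD]
  module

theorem Y_u1 : (aY p e' Om Th q l : Matrix (Fin (m + 9)) (Fin (m + 9)) k) *ᵥ e (m + 6) =
    (p * Th) • e (m + 4) + (q - l) • e (m + 7) := by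
  rw [aY, Matrix.sub_mulVec, Matrix.sub_mulVec, Matrix.smul_mulVec, Matrix.smul_mulVec, J3_u1,
    mk_u1, mk_u1]
  simp only [nB, nD]
  module

theorem Y_u2 : (aY p e' Om Th q l : Matrix (Fin (m + 9)) (Fin (m + 9)) k) *ᵥ e (m + 7) = 0 := by
  rw [aY, Matrix.sub_mulVec, Matrix.sub_mulVec, Matrix.smul_mulVec, Matrix.smul_mulVec, J3_u2,
    mk_u2, mk_u2]
  simp only [nB, nD]
  module

theorem Y_p : (aY p e' Om Th q l : Matrix (Fin (m + 9)) (Fin (m + 9)) k) *ᵥ e (m + 8) =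
    e' • e (m + 7) - (l * Th) • e (m + 4) := by
  rw [aY, Matrix.sub_mulVec, Matrix.sub_mulVec, Matrix.smul_mulVec, Matrix.smul_mulVec, J3_p,
    mk_p, mk_p]
  simp only [nB, nD]
  module

theorem Y_a1 : (aY p e' Om Th q l : Matrix (Fin (m + 9)) (Fin (m + 9)) k) *ᵥ e (m + 3) = 0 := by
  rw [aY, Matrix.sub_mulVec, Matrix.sub_mulVec, Matrix.smul_mulVec, Matrix.smul_mulVec, J3_a1,
    mk_a1, mk_a1]
  simp

theorem Y_a : (aY p e' Om Th q l : Matrix (Fin (m + 9)) (Fin (m + 9)) k) *ᵥ e (m + 4) = 0 := by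
  rw [aY, Matrix.sub_mulVec, Matrix.sub_mulVec, Matrix.smul_mulVec, Matrix.smul_mulVec, J3_a,
    mk_a, mk_a]
  simp

theorem JM_mul {M N : Matrix (Fin (m + 9)) (Fin (m + 9)) k} (h1 : J * M = M * J)
    (h2 : J * N = N * J) : J * (M * N) = M * N * J := by
  rw [← mul_assoc, h1, mul_assoc, h2, mul_assoc]

theorem J_zero : (J : Matrix (Fin (m + 9)) (Fin (m + 9)) k) * 0 = 0 * J := by
  rw [mul_zero, zero_mul]

theorem XY_zero :
    (aX Om Th : Matrix (Fin (m + 9)) (Fin (m + 9)) k) * aY p e' Om Th q l = 0 := by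
  refine ext_gen (JM_mul (J_aX _ _) (J_aY _ _ _ _ _ _)) J_zero ?_ ?_ ?_
  · rw [← Matrix.mulVec_mulVec, Y_0, Matrix.zero_mulVec]
    simp only [Matrix.mulVec_sub, Matrix.mulVec_smul, X_u1, X_p, X_a1]
    module
  · rw [← Matrix.mulVec_mulVec, Y_u, Matrix.zero_mulVec]
    simp only [Matrix.mulVec_add, Matrix.mulVec_smul, X_u1, X_p, X_a1]
    module
  · rw [← Matrix.mulVec_mulVec, Y_p, Matrix.zero_mulVec]
    simp only [Matrix.mulVec_sub, Matrix.mulVec_smul, X_u2, X_a]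
    module

theorem YX_zero :
    (aY p e' Om Th q l : Matrix (Fin (m + 9)) (Fin (m + 9)) k) * aX Om Th = 0 := by
  refine ext_gen (JM_mul (J_aY _ _ _ _ _ _) (J_aX _ _)) J_zero ?_ ?_ ?_
  · rw [← Matrix.mulVec_mulVec, X_0, Matrix.zero_mulVec]
    simp only [Matrix.mulVec_sub, Matrix.mulVec_smul, Y_1, Y_p]
    module
  · rw [← Matrix.mulVec_mulVec, X_u, Matrix.mulVec_zero, Matrix.zero_mulVec]
  · rw [← Matrix.mulVec_mulVec, X_p, Matrix.zero_mulVec]
    simp only [Matrix.mulVec_neg, Matrix.mulVec_smul, Y_a]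
    module

theorem YY_0 (h : l * l' = -(p * e')) :
    (aY p e' Om Th (l + l') l' : Matrix (Fin (m + 9)) (Fin (m + 9)) k) *ᵥ
      (aY p e' Om Th (l + l') l *ᵥ e 0) = 0 := by
  rw [Y_0]
  simp only [Matrix.mulVec_sub, Matrix.mulVec_smul, Y_u1, Y_p, Y_a1]
  have : (e' * Om) • ((p * Th) • (e (m + 4) : Fin (m + 9) → k) + (l + l' - l') • e (m + 7)) -
      (l * Om) • (e' • e (m + 7) - (l' * Th) • e (m + 4)) - (l * Om * Th) • (0 : Fin (m + 9) → k) =
      (Om * Th * (l * l' + p * e')) • e (m + 4) := by module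
  rw [this, h, neg_add_cancel, mul_zero, zero_smul]

theorem YY_zero (h : l * l' = -(p * e')) :
    (aY p e' Om Th (l + l') l' : Matrix (Fin (m + 9)) (Fin (m + 9)) k) *
      aY p e' Om Th (l + l') l = 0 := by
  refine ext_gen (JM_mul (J_aY _ _ _ _ _ _) (J_aY _ _ _ _ _ _)) J_zero ?_ ?_ ?_
  · rw [← Matrix.mulVec_mulVec, YY_0 h, Matrix.zero_mulVec]
  · rw [← Matrix.mulVec_mulVec, Y_u, Matrix.zero_mulVec]
    simp only [Matrix.mulVec_add, Matrix.mulVec_smul, Y_u1, Y_p, Y_a1]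
    have : (p * Th) • (0 : Fin (m + 9) → k) +
        (l + l' - l) • ((p * Th) • (e (m + 4) : Fin (m + 9) → k) + (l + l' - l') • e (m + 7)) +
        p • (e' • e (m + 7) - (l' * Th) • e (m + 4)) = (l * l' + p * e') • e (m + 7) := by module
    rw [this, h, neg_add_cancel, zero_smul]
  · rw [← Matrix.mulVec_mulVec, Y_p, Matrix.zero_mulVec]
    simp only [Matrix.mulVec_sub, Matrix.mulVec_smul, Y_u2, Y_a]
    module

theorem Y2_0 (h : l * l' = -(p * e')) :
    (aY p e' Om Th (l + l') l : Matrix (Fin (m + 9)) (Fin (m + 9)) k) ^ 2 *ᵥ e 0 =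
      (Om * Th * l * (l - l')) • e (m + 4) + (e' * Om * (l' - l)) • e (m + 7) := by
  rw [pow_two, ← Matrix.mulVec_mulVec, Y_0]
  simp only [Matrix.mulVec_sub, Matrix.mulVec_smul, Y_u1, Y_p, Y_a1]
  have : (e' * Om) • ((p * Th) • (e (m + 4) : Fin (m + 9) → k) + (l + l' - l) • e (m + 7)) -
      (l * Om) • (e' • e (m + 7) - (l * Th) • e (m + 4)) - (l * Om * Th) • (0 : Fin (m + 9) → k) =
      (Om * Th * l * (l - l')) • e (m + 4) + (e' * Om * (l' - l)) • e (m + 7) +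
      (Om * Th * (l * l' + p * e')) • e (m + 4) := by module
  rw [this, h, neg_add_cancel, mul_zero, zero_smul, add_zero]

theorem X2_0 : (aX Om Th : Matrix (Fin (m + 9)) (Fin (m + 9)) k) ^ 2 *ᵥ e 0 =
    e 2 + (Om * Th) • e (m + 4) := by
  rw [pow_two, ← Matrix.mulVec_mulVec, X_0, Matrix.mulVec_sub, Matrix.mulVec_smul, X_p,
    X_l (l := 1) (by omega) (by omega)]
  module

theorem X3_0 (i : ℕ) (h : i + 3 ≤ m + 4) :
    (aX Om Th : Matrix (Fin (m + 9)) (Fin (m + 9)) k) ^ (i + 3) *ᵥ e 0 = e (i + 3) := by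
  induction i with
  | zero =>
    rw [zero_add, pow_succ', ← Matrix.mulVec_mulVec, X2_0, Matrix.mulVec_add, Matrix.mulVec_smul,
      X_a, X_l (l := 2) (by omega) (by omega)]
    simp
  | succ i ih =>
    have : i + 1 + 3 = (i + 3) + 1 := rfl
    rw [this, pow_succ', ← Matrix.mulVec_mulVec, ih (by omega),
      X_l (l := i + 3) (by omega) (by omega)]

theorem X_pow_J : (aX Om Th : Matrix (Fin (m + 9)) (Fin (m + 9)) k) ^ (m + 3) = J ^ (m + 3) := by
  have hc : ∀ i, (J : Matrix (Fin (m + 9)) (Fin (m + 9)) k) * aX Om Th ^ i =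
      aX Om Th ^ i * J := by
    intro i
    induction i with
    | zero => rw [pow_zero, mul_one, one_mul]
    | succ i ih => rw [pow_succ]; exact JM_mul ih (J_aX _ _)
  refine ext_gen (hc _) (J_pow_comm _) ?_ ?_ ?_
  · rw [X3_0 m (by omega), J3_0]
  · rw [pow_succ, ← Matrix.mulVec_mulVec, X_u, Matrix.mulVec_zero, J3_u]
  · rw [pow_succ, pow_succ, ← Matrix.mulVec_mulVec, ← Matrix.mulVec_mulVec, X_p, Matrix.mulVec_neg,
      Matrix.mulVec_smul, X_a, smul_zero, neg_zero, Matrix.mulVec_zero, J3_p]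

theorem span_top (he : e' ≠ 0) (hOm : Om ≠ 0) (hlm : l ≠ l')
    (h : l * l' = -(p * e')) :
    ⊤ ≤ Submodule.span k (({e 0} : Set (Fin (m + 9) → k)) ∪ {e (m + 5)} ∪
      {x | ∃ i, x = (aX Om Th : Matrix (Fin (m + 9)) (Fin (m + 9)) k) ^ (i + 1) *ᵥ e 0} ∪
      {x | ∃ i, x = (aY p e' Om Th (l + l') l : Matrix (Fin (m + 9)) (Fin (m + 9)) k) ^ (i + 1) *ᵥ
        e 0} ∪
      {x | ∃ i, x = (aY p e' Om Th (l + l') l' : Matrix (Fin (m + 9)) (Fin (m + 9)) k) ^ (i + 1) *ᵥ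
        e 0}) := by
  have hl0 : l' - l ≠ 0 := sub_ne_zero.2 (Ne.symm hlm)
  set S := Submodule.span k (({e 0} : Set (Fin (m + 9) → k)) ∪ {e (m + 5)} ∪
      {x | ∃ i, x = (aX Om Th : Matrix (Fin (m + 9)) (Fin (m + 9)) k) ^ (i + 1) *ᵥ e 0} ∪
      {x | ∃ i, x = (aY p e' Om Th (l + l') l : Matrix (Fin (m + 9)) (Fin (m + 9)) k) ^ (i + 1) *ᵥ
        e 0} ∪
      {x | ∃ i, x = (aY p e' Om Th (l + l') l' : Matrix (Fin (m + 9)) (Fin (m + 9)) k) ^ (i + 1) *ᵥ
        e 0}) with hS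
  have s0 : e 0 ∈ S := Submodule.subset_span (Or.inl (Or.inl (Or.inl (Or.inl rfl))))
  have su : e (m + 5) ∈ S := Submodule.subset_span (Or.inl (Or.inl (Or.inl (Or.inr rfl))))
  have sX : ∀ i, aX Om Th ^ (i + 1) *ᵥ e 0 ∈ S := fun i =>
    Submodule.subset_span (Or.inl (Or.inl (Or.inr ⟨i, rfl⟩)))
  have sY : ∀ i, aY p e' Om Th (l + l') l ^ (i + 1) *ᵥ e 0 ∈ S := fun i =>
    Submodule.subset_span (Or.inl (Or.inr ⟨i, rfl⟩))
  have sZ : ∀ i, aY p e' Om Th (l + l') l' ^ (i + 1) *ᵥ e 0 ∈ S := fun i =>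
    Submodule.subset_span (Or.inr ⟨i, rfl⟩)
  have s3 : ∀ l, 3 ≤ l → l ≤ m + 4 → e l ∈ S := by
    intro l h3 h4
    obtain ⟨j, rfl⟩ : ∃ j, l = j + 3 := ⟨l - 3, by omega⟩
    have := sX (j + 2)
    rw [show j + 2 + 1 = j + 3 from rfl, X3_0 j (by omega)] at this
    exact this
  have st : e (m + 4) ∈ S := s3 _ (by omega) (by omega)
  have s2 : e 2 ∈ S := by
    have h3 := sX 1
    rw [show 1 + 1 = 2 from rfl, X2_0] at h3
    have h4 := sub_mem h3 (Submodule.smul_mem _ (Om * Th) st)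
    rwa [add_sub_cancel_right] at h4
  have s7 : e (m + 7) ∈ S := by
    have h3 := sY 1
    rw [show 1 + 1 = 2 from rfl, Y2_0 h] at h3
    have h4 := sub_mem h3 (Submodule.smul_mem _ (Om * Th * l * (l - l')) st)
    rw [add_sub_cancel_left] at h4
    have h5 := Submodule.smul_mem _ (e' * Om * (l' - l))⁻¹ h4
    rwa [smul_smul, inv_mul_cancel₀ (mul_ne_zero (mul_ne_zero he hOm) hl0), one_smul] at h5
  have s8 : e (m + 8) ∈ S := by
    have h3 := sub_mem (sY 0) (sZ 0)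
    rw [zero_add, pow_one, pow_one, Y_0, Y_0] at h3
    have h4 : (e' * Om) • (e (m + 6) : Fin (m + 9) → k) - (l * Om) • e (m + 8) -
        (l * Om * Th) • e (m + 3) - ((e' * Om) • e (m + 6) - (l' * Om) • e (m + 8) -
          (l' * Om * Th) • e (m + 3)) =
        ((l' - l) * Om) • e (m + 8) + ((l' - l) * Om * Th) • e (m + 3) := by module
    rw [h4] at h3
    have h5 := sub_mem h3 (Submodule.smul_mem _ ((l' - l) * Om * Th)
      (s3 (m + 3) (by omega) (by omega)))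
    rw [add_sub_cancel_right] at h5
    have h6 := Submodule.smul_mem _ ((l' - l) * Om)⁻¹ h5
    rwa [smul_smul, inv_mul_cancel₀ (mul_ne_zero hl0 hOm), one_smul] at h6
  have s6 : e (m + 6) ∈ S := by
    have h3 := sY 0
    rw [zero_add, pow_one, Y_0] at h3
    have h4 := add_mem (add_mem h3 (Submodule.smul_mem _ (l * Om * Th)
      (s3 (m + 3) (by omega) (by omega)))) (Submodule.smul_mem _ (l * Om) s8)
    rw [sub_add_cancel, sub_add_cancel] at h4
    have h6 := Submodule.smul_mem _ (e' * Om)⁻¹ h4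
    rwa [smul_smul, inv_mul_cancel₀ (mul_ne_zero he hOm), one_smul] at h6
  have s1 : e 1 ∈ S := by
    have h3 := sX 0
    rw [zero_add, pow_one, X_0] at h3
    have h4 := add_mem h3 (Submodule.smul_mem _ Om s8)
    rwa [sub_add_cancel] at h4
  intro w _
  rw [vec_sum w]
  refine Submodule.sum_mem _ fun i _ => Submodule.smul_mem _ _ ?_
  have hi := i.isLt
  rcases (by omega : (i : ℕ) = 0 ∨ (i : ℕ) = 1 ∨ (i : ℕ) = 2 ∨ (3 ≤ (i : ℕ) ∧ (i : ℕ) ≤ m + 4) ∨
    (i : ℕ) = m + 5 ∨ (i : ℕ) = m + 6 ∨ (i : ℕ) = m + 7 ∨ (i : ℕ) = m + 8) with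
    h | h | h | ⟨h, h'⟩ | h | h | h | h
  · rw [h]; exact s0
  · rw [h]; exact s1
  · rw [h]; exact s2
  · exact s3 _ h h'
  · rw [h]; exact su
  · rw [h]; exact s6
  · rw [h]; exact s7
  · rw [h]; exact s8

theorem Y_u_eq (hl : l ≠ 0) (hOm : Om ≠ 0) (h : l * l' = -(p * e')) :
    (aY p e' Om Th (l + l') l : Matrix (Fin (m + 9)) (Fin (m + 9)) k) *ᵥ e (m + 5) =
      (-(p / (l * Om))) • (aY p e' Om Th (l + l') l *ᵥ e 0) := by
  rw [Y_u, Y_0]
  have e1 : p / (l * Om) * (e' * Om) = -l' := by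
    field_simp
    linear_combination h
  have e2 : p / (l * Om) * (l * Om) = p := by field_simp
  have : (-(p / (l * Om))) • ((e' * Om) • (e (m + 6) : Fin (m + 9) → k) - (l * Om) • e (m + 8) -
      (l * Om * Th) • e (m + 3)) = (-(p / (l * Om) * (e' * Om))) • e (m + 6) +
      (p / (l * Om) * (l * Om)) • e (m + 8) + (p / (l * Om) * (l * Om) * Th) • e (m + 3) := by
    module
  rw [this, e1, e2]
  module

/-- the generic member of the normal form -/
theorem base_gen [IsAlgClosed k] (hl : l ≠ 0) (hl' : l' ≠ 0) (hlm : l ≠ l') (he : e' ≠ 0)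
    (hp : p ≠ 0) (hOm : Om ≠ 0) (hTh : Th ≠ 0) (h : l * l' = -(p * e')) :
    G m (nB p e' Om Th (l + l')) (nD Om Th) := by
  have h' : l' * l = -(p * e') := by rw [mul_comm]; exact h
  have hc : l + l' = l' + l := add_comm _ _
  have hd : (Om * Th * (l - l') ^ 2)⁻¹ ≠ 0 :=
    inv_ne_zero (mul_ne_zero (mul_ne_zero hOm hTh) (pow_ne_zero 2 (sub_ne_zero.2 hlm)))
  have hY2 := Y2_0 (m := m) (Om := Om) (Th := Th) h
  have hZ2 := Y2_0 (m := m) (Om := Om) (Th := Th) h'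
  rw [← hc] at hZ2
  have hZu := Y_u_eq (m := m) (Th := Th) hl' hOm h'
  rw [← hc] at hZu
  have hZY := YY_zero (m := m) (Om := Om) (Th := Th) h'
  rw [← hc] at hZY
  have h1 := cl_axes3_two (aX Om Th) (aY p e' Om Th (l + l') l)
    (aY p e' Om Th (l + l') l') (e 0 : Fin (m + 9) → k) (e (m + 5))
    (p := m + 4) (q := 2) (r := 2) (by omega) (by norm_num) (by norm_num) (by simp)
    XY_zero YX_zero XY_zero YX_zero hZY (YY_zero h)
    hd hd (by
      rw [X3_0 (m + 1) (by omega), hY2, hZ2]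
      have e1 : ∀ c : k, c • ((Om * Th * l * (l - l')) • (e (m + 4) : Fin (m + 9) → k) +
          (e' * Om * (l' - l)) • e (m + 7)) + c • ((Om * Th * l' * (l' - l)) • e (m + 4) +
          (e' * Om * (l - l')) • e (m + 7)) = (c * (Om * Th * (l - l') ^ 2)) • e (m + 4) := by
        intro c; module
      rw [e1, inv_mul_cancel₀ (mul_ne_zero (mul_ne_zero hOm hTh)
        (pow_ne_zero 2 (sub_ne_zero.2 hlm))), one_smul])
    (l₀ := 0) (l₁ := -(p / (l * Om))) (l₂ := -(p / (l' * Om)))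
    (neg_ne_zero.2 (div_ne_zero hp (mul_ne_zero hl hOm)))
    (neg_ne_zero.2 (div_ne_zero hp (mul_ne_zero hl' hOm)))
    (fun h2 => hlm (by
      field_simp at h2
      linear_combination h2))
    (by rw [X_u, zero_smul]) (Y_u_eq hl hOm h) hZu
    (span_top he hOm hlm h) (fun i j => if i = j then 1 else 0)
  have h2 : (fun i : Fin 3 => (if i = 0 then (1 : k) else 0) •
        (aX Om Th : Matrix (Fin (m + 9)) (Fin (m + 9)) k) +
      (if i = 1 then (1 : k) else 0) • aY p e' Om Th (l + l') l +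
      (if i = 2 then (1 : k) else 0) • aY p e' Om Th (l + l') l') =
      ![aX Om Th, aY p e' Om Th (l + l') l, aY p e' Om Th (l + l') l'] := by
    funext i
    fin_cases i <;> simp
  rw [h2] at h1
  refine cl_of_adj (fun i => ?_) h1
  set T' : Fin 3 → Matrix (Fin (m + 9)) (Fin (m + 9)) k :=
    ![aX Om Th, aY p e' Om Th (l + l') l, aY p e' Om Th (l + l') l'] with hT'
  have tX : aX Om Th ∈ adj T' := mem_adj T' 0
  have tY : aY p e' Om Th (l + l') l ∈ adj T' := mem_adj T' 1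
  have tZ : aY p e' Om Th (l + l') l' ∈ adj T' := mem_adj T' 2
  have tJ : J ^ (m + 3) ∈ adj T' := by
    rw [← X_pow_J (Om := Om) (Th := Th)]
    exact Jpow_mem tX (m + 2)
  have tD : mk (nD Om Th) ∈ adj T' := by
    have h3 : (mk (nD Om Th) : Matrix (Fin (m + 9)) (Fin (m + 9)) k) =
        (l' - l)⁻¹ • (aY p e' Om Th (l + l') l - aY p e' Om Th (l + l') l') -
          (Om * Th) • J ^ (m + 3) := by
      have h4 : aY p e' Om Th (l + l') l - aY p e' Om Th (l + l') l' = (l' - l) •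
          ((mk (nD Om Th) : Matrix (Fin (m + 9)) (Fin (m + 9)) k) + (Om * Th) • J ^ (m + 3)) := by
        simp only [aY]
        module
      rw [h4, smul_smul, inv_mul_cancel₀ (sub_ne_zero.2 (Ne.symm hlm)), one_smul,
        add_sub_cancel_right]
    rw [h3]
    exact sub_mem (SMulMemClass.smul_mem _ (sub_mem tY tZ)) (SMulMemClass.smul_mem _ tJ)
  fin_cases i
  · show J ∈ adj T'
    have h3 : (J : Matrix (Fin (m + 9)) (Fin (m + 9)) k) = aX Om Th + mk (nD Om Th) := by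
      rw [aX, sub_add_cancel]
    rw [h3]
    exact add_mem tX tD
  · show mk (nB p e' Om Th (l + l')) ∈ adj T'
    have h3 : (mk (nB p e' Om Th (l + l')) : Matrix (Fin (m + 9)) (Fin (m + 9)) k) =
        aY p e' Om Th (l + l') l + l • mk (nD Om Th) + (l * Om * Th) • J ^ (m + 3) := by
      simp only [aY]
      module
    rw [h3]
    exact add_mem (add_mem tY (SMulMemClass.smul_mem _ tD)) (SMulMemClass.smul_mem _ tJ)
  · exact tD

/-! ### polynomial families -/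

/-- polynomial families of parameters -/
structure PP (x : k → P k) : Prop where
  c0 : D7.IsPoly fun t => (x t).c0
  c1 : D7.IsPoly fun t => (x t).c1
  c2 : D7.IsPoly fun t => (x t).c2
  f0 : D7.IsPoly fun t => (x t).f0
  f1 : D7.IsPoly fun t => (x t).f1
  f2 : D7.IsPoly fun t => (x t).f2
  q1 : D7.IsPoly fun t => (x t).q1
  q2 : D7.IsPoly fun t => (x t).q2
  om : D7.IsPoly fun t => (x t).om
  pi : D7.IsPoly fun t => (x t).pi
  th : D7.IsPoly fun t => (x t).th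
  et : D7.IsPoly fun t => (x t).et

theorem PP.const (x : P k) : PP fun _ : k => x :=
  ⟨D7.IsPoly.const _, D7.IsPoly.const _, D7.IsPoly.const _, D7.IsPoly.const _, D7.IsPoly.const _,
    D7.IsPoly.const _, D7.IsPoly.const _, D7.IsPoly.const _, D7.IsPoly.const _,
    D7.IsPoly.const _, D7.IsPoly.const _, D7.IsPoly.const _⟩

theorem poly_mk {x : k → P k} (h : PP x) (i j : Fin (m + 9)) :
    D7.IsPoly fun t => (mk (x t) : Matrix (Fin (m + 9)) (Fin (m + 9)) k) i j := by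
  have hc : ∀ a : k, D7.IsPoly fun _ : k => a := D7.IsPoly.const
  obtain ⟨h1, h2, h3, h4, h5, h6, h7, h8, h9, h10, h11, h12⟩ := h
  simp only [mk, Matrix.add_apply, Matrix.smul_apply, smul_eq_mul]
  exact (((((((((((h1.mul (((hc _).add (hc _)).add (hc _))).add (h2.mul ((hc _).add (hc _)))).add
    (h3.mul (hc _))).add (h4.mul (((hc _).add (hc _)).add (hc _)))).add
    (h5.mul ((hc _).add (hc _)))).add (h6.mul (hc _))).add (h7.mul ((hc _).add (hc _)))).add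
    (h8.mul (hc _))).add (h9.mul (hc _))).add (h10.mul (hc _))).add (h11.mul (hc _))).add
    (h12.mul (hc _))

/-- limits -/
theorem G_limit [Infinite k] {x y : k → P k} (hx : PP x) (hy : PP y) {E : Set k}
    (hE : E.Finite) (h : ∀ t ∉ E, G m (x t) (y t)) : G m (x 0) (y 0) := by
  by_contra h0
  have hf := finite_cl (fun t => ![(J : Matrix (Fin (m + 9)) (Fin (m + 9)) k), mk (x t),
    mk (y t)]) (by
      intro l i j
      fin_cases l
      · exact D7.IsPoly.const _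
      · exact poly_mk hx i j
      · exact poly_mk hy i j) h0
  obtain ⟨s, hs⟩ := (hf.union hE).exists_notMem
  simp only [Set.mem_union, Set.mem_ofPred_eq, not_or] at hs
  exact hs.1 (h s hs.2)

/-- the normal form -/
theorem base [IsAlgClosed k] [CharZero k] (p e' Om Th q : k) :
    G m (nB p e' Om Th q) (nD Om Th) := by
  have hk : Infinite k := IsAlgClosed.instInfinite
  have hc : ∀ a : k, D7.IsPoly fun _ : k => a := D7.IsPoly.const
  have ha : ∀ a : k, D7.IsPoly fun s : k => a + s := fun a => (hc a).add D7.IsPoly.id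
  have hfin : ∀ a : k, {s : k | a + s = 0}.Finite := fun a =>
    (Set.finite_singleton (-a)).subset fun s hs => by
      have h1 : a + s = 0 := hs
      exact Set.mem_singleton_iff.2 (by linear_combination h1)
  have hdisc : {s : k | q ^ 2 + 4 * (e' + s) * (p + s) = 0}.Finite := by
    have hP : D7.IsPoly fun s : k => q ^ 2 + 4 * (e' + s) * (p + s) :=
      (hc (q ^ 2)).add (((hc 4).mul (ha e')).mul (ha p))
    by_contra hinf
    have hz : ∀ s : k, q ^ 2 + 4 * (e' + s) * (p + s) = 0 := by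
      intro s
      by_contra hs
      exact hinf (hP.finite hs)
    have h0 := hz 0
    have h1 := hz 1
    have h2 := hz (-1)
    have h3 : (8 : k) = 0 := by linear_combination h1 + h2 - 2 * h0
    exact absurd h3 (by norm_num)
  have h := G_limit (m := m) (x := fun s => nB (p + s) (e' + s) (Om + s) (Th + s) q)
    (y := fun s => nD (Om + s) (Th + s))
    ⟨hc _, (ha _).mul (ha _), hc _, hc _, (ha _).mul (ha _), hc _, hc _, hc _, hc _, ha _, hc _,
      ha _⟩ ⟨hc _, hc _, hc _, hc _, hc _, hc _, hc _, hc _, ha _, hc _, ha _, hc _⟩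
    (((((hfin p).union (hfin e')).union (hfin Om)).union (hfin Th)).union hdisc) (by
      intro s hs
      simp only [Set.mem_union, Set.mem_ofPred_eq, not_or] at hs
      obtain ⟨⟨⟨⟨n1, n2⟩, n3⟩, n4⟩, n5⟩ := hs
      obtain ⟨d, hd2⟩ := IsAlgClosed.exists_pow_nat_eq (q ^ 2 + 4 * (e' + s) * (p + s)) (n := 2)
        (by norm_num)
      have hd0 : d ≠ 0 := by
        rintro rfl
        apply n5
        rw [← hd2]
        ring
      have hlm : ((q + d) / 2) * ((q - d) / 2) = -((p + s) * (e' + s)) := by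
        field_simp
        linear_combination -hd2
      have hpe : (p + s) * (e' + s) ≠ 0 := mul_ne_zero n1 n2
      have hl : (q + d) / 2 ≠ 0 := by
        intro h0
        rw [h0, zero_mul] at hlm
        exact hpe (by linear_combination hlm)
      have hl' : (q - d) / 2 ≠ 0 := by
        intro h0
        rw [h0, mul_zero] at hlm
        exact hpe (by linear_combination hlm)
      have hne : (q + d) / 2 ≠ (q - d) / 2 := by
        intro h3
        apply hd0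
        have : (q + d) / 2 - (q - d) / 2 = d := by field_simp; ring
        rw [← this, h3, sub_self]
      have h1 := base_gen (m := m) hl hl' hne n2 n1 n3 n4 hlm
      have h3 : (q + d) / 2 + (q - d) / 2 = q := by field_simp; ring
      rw [h3] at h1
      exact h1)
  simpa only [add_zero] using h

end Ta31

end Pool.Agent.Lib.D9
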