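import Pool.Agent.Lib.D9.Ta31C

/-!
# MP_5dcbc3_ag: Jordan type `(a, 3, 1)`, `a = m + 5`: the case `c0 = f0 = 0`
-/

namespace Pool.Agent.Lib.D9

open Matrix Polynomial Pool.Agent.Lib.Q5dc Pool.Agent.Lib.D7 Pool.Agent.Lib.D8

variable {k : Type*} [Field k]

namespace Ta31

set_option linter.unusedSimpArgs false

variable {m : ℕ}

/-! ### changes of basis -/

theorem cl_conjP {n : Type*} [Fintype n] [DecidableEq n] {T T' : Fin 3 → Matrix n n k}
    {P : Matrix n n k} (hP : IsUnit P) (h : ∀ i, T i * P = P * T' i) (hT : Cl T') : Cl T := by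
  obtain ⟨u, rfl⟩ := hP
  have h1 := hT.conj (u : Matrix n n k) (↑u⁻¹ : Matrix n n k) u.mul_inv u.inv_mul
  have h2 : (fun i => (u : Matrix n n k) * T' i * (↑u⁻¹ : Matrix n n k)) = T := by
    funext i
    rw [← h, Matrix.mul_assoc, u.mul_inv, Matrix.mul_one]
  rwa [h2] at h1

theorem G.conjN {x y x' y' n : P k} {a b c a' b' c' : k}
    (hx : mk x * (1 + mk n) = (1 + mk n) *
      ((mk x' : Matrix (Fin (m + 9)) (Fin (m + 9)) k) + a • J ^ (m + 2) + b • J ^ (m + 3) +
        c • J ^ (m + 4)))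
    (hy : mk y * (1 + mk n) = (1 + mk n) *
      ((mk y' : Matrix (Fin (m + 9)) (Fin (m + 9)) k) + a' • J ^ (m + 2) + b' • J ^ (m + 3) +
        c' • J ^ (m + 4)))
    (h : G m x' y') : G m x y := by
  refine cl_conjP (P := 1 + mk n) (nil_mk n).isUnit_one_add (T' := ![J,
    mk x' + a • J ^ (m + 2) + b • J ^ (m + 3) + c • J ^ (m + 4),
    mk y' + a' • J ^ (m + 2) + b' • J ^ (m + 3) + c' • J ^ (m + 4)]) ?_ ?_
  · intro i
    fin_cases i
    · show J * (1 + mk n) = (1 + mk n) * J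
      rw [mul_add, add_mul, mul_one, one_mul, J_mk]
    · exact hx
    · exact hy
  · have m0 : (J : Matrix (Fin (m + 9)) (Fin (m + 9)) k) ∈ adj ![J, mk x', mk y'] :=
      mem_adj ![(J : Matrix (Fin (m + 9)) (Fin (m + 9)) k), mk x', mk y'] 0
    have m1 : mk x' ∈ adj ![(J : Matrix (Fin (m + 9)) (Fin (m + 9)) k), mk x', mk y'] :=
      mem_adj ![(J : Matrix (Fin (m + 9)) (Fin (m + 9)) k), mk x', mk y'] 1
    have m2 : mk y' ∈ adj ![(J : Matrix (Fin (m + 9)) (Fin (m + 9)) k), mk x', mk y'] :=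
      mem_adj ![(J : Matrix (Fin (m + 9)) (Fin (m + 9)) k), mk x', mk y'] 2
    have p1 := Jpow_mem m0 (m + 1)
    have p2 := Jpow_mem m0 (m + 2)
    have p3 := Jpow_mem m0 (m + 3)
    refine cl_of_adj (fun i => ?_) h
    fin_cases i
    · exact m0
    · exact add_mem (add_mem (add_mem m1 (SMulMemClass.smul_mem _ p1))
        (SMulMemClass.smul_mem _ p2)) (SMulMemClass.smul_mem _ p3)
    · exact add_mem (add_mem (add_mem m2 (SMulMemClass.smul_mem _ p1))
        (SMulMemClass.smul_mem _ p2)) (SMulMemClass.smul_mem _ p3)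

theorem J_sum (x : P k) (a b c : k) : (J : Matrix (Fin (m + 9)) (Fin (m + 9)) k) *
    (mk x + a • J ^ (m + 2) + b • J ^ (m + 3) + c • J ^ (m + 4)) =
    (mk x + a • J ^ (m + 2) + b • J ^ (m + 3) + c • J ^ (m + 4)) * J := by
  simp only [mul_add, add_mul, J_mk, Matrix.mul_smul, Matrix.smul_mul, J_pow_comm]

theorem J_one_add (x : P k) : (J : Matrix (Fin (m + 9)) (Fin (m + 9)) k) * (1 + mk x) =
    (1 + mk x) * J := by
  rw [mul_add, add_mul, mul_one, one_mul, J_mk]

/-- parameters with `c0 = f0 = 0` -/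
def QQ (b1 b2 c1 c2 q1 q2 om pi th et : k) : P k := ⟨0, c1, c2, 0, b1, b2, q1, q2, om, pi, th, et⟩

/-- the first change of basis -/
theorem conj1 (γ β b1 b2 c1 c2 q1 q2 om pi th et : k) :
    mk (QQ b1 b2 c1 c2 q1 q2 om pi th et) * (1 + mk ⟨-γ, 0, 0, β, 0, 0, 0, 0, 0, 0, 0, 0⟩) =
    (1 + mk ⟨-γ, 0, 0, β, 0, 0, 0, 0, 0, 0, 0, 0⟩) *
      ((mk (QQ (b1 - β * q1) (b2 - β * q2) (c1 - γ * q1) (c2 - γ * q2) q1 q2 (om - γ * pi) pi
        (th - β * et) et) : Matrix (Fin (m + 9)) (Fin (m + 9)) k) + (0 : k) • J ^ (m + 2) +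
        (-(γ * b1) - β * (c1 - γ * q1)) • J ^ (m + 3) +
        (-(γ * b2) - β * (c2 - γ * q2)) • J ^ (m + 4)) := by
  refine ext_gen (JM_mul (J_mk _) (J_one_add _)) (JM_mul (J_one_add _) (J_sum _ _ _ _)) ?_ ?_ ?_
  · rw [← Matrix.mulVec_mulVec, ← Matrix.mulVec_mulVec]
    simp only [Matrix.add_mulVec, Matrix.one_mulVec, Matrix.smul_mulVec, Matrix.mulVec_add,
      Matrix.mulVec_smul, mk_0, J3_0, J4_0, zero_smul, QQ, mk_u, mk_u1, mk_u2, mk_p, mk_a, mk_a1,
      Matrix.zero_mulVec, Matrix.mulVec_zero, smul_zero, add_zero, zero_add, neg_smul,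
      Matrix.mulVec_neg]
    module
  · rw [← Matrix.mulVec_mulVec, ← Matrix.mulVec_mulVec]
    simp only [Matrix.add_mulVec, Matrix.one_mulVec, Matrix.smul_mulVec, Matrix.mulVec_add,
      Matrix.mulVec_smul, J3_u, J4_u, zero_smul, QQ, mk_u, mk_u1, mk_u2, mk_p, mk_a, mk_a1, mk_m2,
      Matrix.mulVec_zero, ite_self, Matrix.zero_mulVec, smul_zero, add_zero, zero_add]
    module
  · rw [← Matrix.mulVec_mulVec, ← Matrix.mulVec_mulVec]
    simp only [Matrix.add_mulVec, Matrix.one_mulVec, Matrix.smul_mulVec, Matrix.mulVec_add,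
      Matrix.mulVec_smul, J3_p, J4_p, zero_smul, QQ, mk_u, mk_u1, mk_u2, mk_p, mk_a, mk_a1,
      Matrix.mulVec_zero, Matrix.zero_mulVec, smul_zero, add_zero, zero_add]
    module

/-- the second change of basis -/
theorem conj2 (g η h e' b1 b2 c1 c2 q1 q2 om pi th et : k) :
    mk (QQ b1 b2 c1 c2 q1 q2 om pi th et) * (1 + mk ⟨0, g, 0, 0, h, 0, 0, 0, η, 0, e', 0⟩) =
    (1 + mk ⟨0, g, 0, 0, h, 0, 0, 0, η, 0, e', 0⟩) *
      ((mk (QQ b1 (b2 - h * q1 - e' * pi) c1 (c2 + g * q1 + η * et) q1 q2 om pi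
        th et) : Matrix (Fin (m + 9)) (Fin (m + 9)) k) + (0 : k) • J ^ (m + 2) +
        (0 : k) • J ^ (m + 3) +
        (g * b1 + η * th - c1 * h - om * e') • J ^ (m + 4)) := by
  refine ext_gen (JM_mul (J_mk _) (J_one_add _)) (JM_mul (J_one_add _) (J_sum _ _ _ _)) ?_ ?_ ?_
  · rw [← Matrix.mulVec_mulVec, ← Matrix.mulVec_mulVec]
    simp only [Matrix.add_mulVec, Matrix.one_mulVec, Matrix.smul_mulVec, Matrix.mulVec_add,
      Matrix.mulVec_smul, mk_0, J3_0, J4_0, zero_smul, QQ, mk_u, mk_u1, mk_u2, mk_p, mk_a, mk_a1,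
      Matrix.zero_mulVec, Matrix.mulVec_zero, smul_zero, add_zero, zero_add, neg_smul,
      Matrix.mulVec_neg]
    module
  · rw [← Matrix.mulVec_mulVec, ← Matrix.mulVec_mulVec]
    simp only [Matrix.add_mulVec, Matrix.one_mulVec, Matrix.smul_mulVec, Matrix.mulVec_add,
      Matrix.mulVec_smul, J3_u, J4_u, zero_smul, QQ, mk_u, mk_u1, mk_u2, mk_p, mk_a, mk_a1, mk_m2,
      Matrix.mulVec_zero, ite_self, Matrix.zero_mulVec, smul_zero, add_zero, zero_add]
    module
  · rw [← Matrix.mulVec_mulVec, ← Matrix.mulVec_mulVec]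
    simp only [Matrix.add_mulVec, Matrix.one_mulVec, Matrix.smul_mulVec, Matrix.mulVec_add,
      Matrix.mulVec_smul, J3_p, J4_p, zero_smul, QQ, mk_u, mk_u1, mk_u2, mk_p, mk_a, mk_a1,
      Matrix.mulVec_zero, Matrix.zero_mulVec, smul_zero, add_zero, zero_add]

theorem J_mul_QQ (b1 b2 c1 c2 q1 q2 om pi th et : k) :
    (J : Matrix (Fin (m + 9)) (Fin (m + 9)) k) * mk (QQ b1 b2 c1 c2 q1 q2 om pi th et) =
      mk (QQ 0 b1 0 c1 0 q1 0 0 0 0) := by
  refine ext_gen (JM_mul rfl (J_mk _)) (J_mk _) ?_ ?_ ?_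
  · rw [← Matrix.mulVec_mulVec]
    simp [Matrix.mulVec_add, Matrix.mulVec_smul, mk_0, QQ, J_u1, J_u2, J_p]
  · rw [← Matrix.mulVec_mulVec]
    simp [Matrix.mulVec_add, Matrix.mulVec_smul, mk_u, QQ, J_u1, J_u2, J_p, J_a1, J_a]
  · rw [← Matrix.mulVec_mulVec]
    simp [Matrix.mulVec_add, Matrix.mulVec_smul, mk_p, QQ, J_u2, J_a]

theorem QQ_add (b1 b2 c1 c2 q1 q2 om pi th et b1' b2' c1' c2' q1' q2' om' pi' th' et' : k) :
    QQ b1 b2 c1 c2 q1 q2 om pi th et + QQ b1' b2' c1' c2' q1' q2' om' pi' th' et' =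
    QQ (b1 + b1') (b2 + b2') (c1 + c1') (c2 + c2') (q1 + q1') (q2 + q2') (om + om') (pi + pi')
      (th + th') (et + et') := by
  show (⟨0 + 0, _, _, 0 + 0, _, _, _, _, _, _, _, _⟩ : P k) = _
  rw [add_zero]
  rfl

theorem QQ_smul (s b1 b2 c1 c2 q1 q2 om pi th et : k) :
    s • QQ b1 b2 c1 c2 q1 q2 om pi th et =
    QQ (s * b1) (s * b2) (s * c1) (s * c2) (s * q1) (s * q2) (s * om) (s * pi)
      (s * th) (s * et) := by
  show (⟨s * 0, _, _, s * 0, _, _, _, _, _, _, _, _⟩ : P k) = _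
  rw [mul_zero]
  rfl

/-- the second order terms can be changed by multiples of `A D` -/
theorem G.addJ {b1 b2 c1 c2 q1 q2 om pi th et : k} {x : P k}
    (h : G m x (QQ b1 b2 c1 c2 q1 q2 om pi th et)) (s t : k) :
    G m (x + s • QQ 0 b1 0 c1 0 q1 0 0 0 0)
      (QQ b1 b2 c1 c2 q1 q2 om pi th et + t • QQ 0 b1 0 c1 0 q1 0 0 0 0) := by
  set y := QQ b1 b2 c1 c2 q1 q2 om pi th et with hy
  have m0 : (J : Matrix (Fin (m + 9)) (Fin (m + 9)) k) ∈ adj ![J, mk x, mk y] :=
    mem_adj ![(J : Matrix (Fin (m + 9)) (Fin (m + 9)) k), mk x, mk y] 0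
  have m1 : mk x ∈ adj ![(J : Matrix (Fin (m + 9)) (Fin (m + 9)) k), mk x, mk y] :=
    mem_adj ![(J : Matrix (Fin (m + 9)) (Fin (m + 9)) k), mk x, mk y] 1
  have m2 : mk y ∈ adj ![(J : Matrix (Fin (m + 9)) (Fin (m + 9)) k), mk x, mk y] :=
    mem_adj ![(J : Matrix (Fin (m + 9)) (Fin (m + 9)) k), mk x, mk y] 2
  have m3 : mk (QQ 0 b1 0 c1 0 q1 0 0 0 0) ∈
      adj ![(J : Matrix (Fin (m + 9)) (Fin (m + 9)) k), mk x, mk y] := by
    rw [← J_mul_QQ b1 b2 c1 c2 q1 q2 om pi th et]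
    exact mul_mem m0 m2
  refine cl_of_adj (fun i => ?_) h
  fin_cases i
  · exact m0
  · show mk (x + s • _) ∈ _
    rw [mk_add, mk_smul]
    exact add_mem m1 (SMulMemClass.smul_mem _ m3)
  · show mk (y + t • _) ∈ _
    rw [mk_add, mk_smul]
    exact add_mem m2 (SMulMemClass.smul_mem _ m3)

theorem caseS3 [IsAlgClosed k] [CharZero k] {pi et : k} (hpi : pi ≠ 0) (het : et ≠ 0)
    (Om Th q b2 c2 q2 B2 C2 Q2 : k) :
    G m (QQ (pi * Th) b2 (et * Om) c2 q q2 0 pi 0 et) (QQ 0 B2 0 C2 1 Q2 Om 0 Th 0) := by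
  obtain ⟨η, hη⟩ : ∃ η, η * et = -c2 + C2 * q := ⟨(-c2 + C2 * q) / et, div_mul_cancel₀ _ het⟩
  obtain ⟨e', he'⟩ : ∃ e', e' * pi = b2 - B2 * q := ⟨(b2 - B2 * q) / pi, div_mul_cancel₀ _ hpi⟩
  have hx := conj2 (m := m) (-C2) η B2 e' (pi * Th) b2 (et * Om) c2 q q2 0 pi 0 et
  have hy := conj2 (m := m) (-C2) η B2 e' 0 B2 0 C2 1 Q2 Om 0 Th 0
  refine G.conjN hx hy ?_
  have e1 : b2 - B2 * q - e' * pi = 0 := by rw [he']; ring
  have e2 : c2 + -C2 * q + η * et = 0 := by rw [hη]; ring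
  have e3 : B2 - B2 * 1 - e' * 0 = 0 := by ring
  have e4 : C2 + -C2 * 1 + η * 0 = 0 := by ring
  rw [e1, e2, e3, e4]
  have h1 := (base (m := m) pi et Om Th q).addJ (b1 := 0) (b2 := 0) (c1 := 0) (c2 := 0) (q1 := 1)
    (q2 := 0) (om := Om) (pi := 0) (th := Th) (et := 0) q2 Q2
  have h2 : nB pi et Om Th q = QQ (pi * Th) 0 (et * Om) 0 q 0 0 pi 0 et := rfl
  rw [h2, QQ_smul, QQ_smul, QQ_add, QQ_add] at h1
  simpa using h1

theorem caseS2 [IsAlgClosed k] [CharZero k] {pi et : k} (hpi : pi ≠ 0) (het : et ≠ 0)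
    (Om Th q b2 c2 q2 b c B2 C2 Q2 : k) :
    G m (QQ (pi * Th + b * q) b2 (et * Om + c * q) c2 q q2 (c * pi) pi (b * et) et)
      (QQ b B2 c C2 1 Q2 Om 0 Th 0) := by
  refine G.conjN (conj1 c b _ _ _ _ _ _ _ _ _ _) (conj1 c b _ _ _ _ _ _ _ _ _ _) ?_
  have e1 : pi * Th + b * q - b * q = pi * Th := by ring
  have e2 : et * Om + c * q - c * q = et * Om := by ring
  have e3 : c * pi - c * pi = 0 := by ring
  have e4 : b * et - b * et = 0 := by ring
  have e5 : b - b * 1 = 0 := by ring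
  have e6 : c - c * 1 = 0 := by ring
  have e7 : Om - c * 0 = Om := by ring
  have e8 : Th - b * 0 = Th := by ring
  rw [e1, e2, e3, e4, e5, e6, e7, e8]
  exact caseS3 hpi het Om Th q _ _ _ _ _ _

theorem P_one_smul (x : P k) : (1 : k) • x = x := by
  show (⟨1 * x.c0, 1 * x.c1, 1 * x.c2, 1 * x.f0, 1 * x.f1, 1 * x.f2, 1 * x.q1, 1 * x.q2,
    1 * x.om, 1 * x.pi, 1 * x.th, 1 * x.et⟩ : P k) = x
  simp only [one_mul]

theorem P_zero_smul (x : P k) : (0 : k) • x = 0 := by
  show (⟨0 * x.c0, 0 * x.c1, 0 * x.c2, 0 * x.f0, 0 * x.f1, 0 * x.f2, 0 * x.q1, 0 * x.q2,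
    0 * x.om, 0 * x.pi, 0 * x.th, 0 * x.et⟩ : P k) = ⟨0, 0, 0, 0, 0, 0, 0, 0, 0, 0, 0, 0⟩
  simp only [zero_mul]

theorem P_zero_add (x : P k) : 0 + x = x := by
  show (⟨0 + x.c0, 0 + x.c1, 0 + x.c2, 0 + x.f0, 0 + x.f1, 0 + x.f2, 0 + x.q1, 0 + x.q2,
    0 + x.om, 0 + x.pi, 0 + x.th, 0 + x.et⟩ : P k) = x
  simp only [zero_add]

theorem P_add_zero (x : P k) : x + 0 = x := by
  show (⟨x.c0 + 0, x.c1 + 0, x.c2 + 0, x.f0 + 0, x.f1 + 0, x.f2 + 0, x.q1 + 0, x.q2 + 0,
    x.om + 0, x.pi + 0, x.th + 0, x.et + 0⟩ : P k) = x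
  simp only [add_zero]

theorem B_lin (a b1 b2 c1 c2 q1 q2 om pi th et b1' b2' c1' c2' q1' q2' om' th' : k) :
    QQ b1 b2 c1 c2 q1 q2 om pi th et + a • QQ b1' b2' c1' c2' q1' q2' om' 0 th' 0 =
      QQ (b1 + a * b1') (b2 + a * b2') (c1 + a * c1') (c2 + a * c2') (q1 + a * q1')
        (q2 + a * q2') (om + a * om') pi (th + a * th') et := by
  rw [QQ_smul, QQ_add]
  simp

theorem B_smul (a b1 b2 c1 c2 q1 q2 om th : k) :
    a • QQ b1 b2 c1 c2 q1 q2 om 0 th 0 =
      QQ (a * b1) (a * b2) (a * c1) (a * c2) (a * q1) (a * q2) (a * om) 0 (a * th) 0 := by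
  rw [QQ_smul]
  simp

theorem caseS1 [IsAlgClosed k] [CharZero k]
    {b1 b2 c1 c2 q1 q2 om pi th et b1' b2' c1' c2' q1' q2' om' th' : k}
    (hpi : pi ≠ 0) (het : et ≠ 0) (h5 : c1' * q1 + om' * et = c1 * q1')
    (h9 : q1' * b1 = q1 * b1' + pi * th') (h3 : c1' * b1 + om' * th = c1 * b1' + om * th')
    (hq : q1' ≠ 0) (hom : om' ≠ 0) :
    G m (QQ b1 b2 c1 c2 q1 q2 om pi th et) (QQ b1' b2' c1' c2' q1' q2' om' 0 th' 0) := by
  -- the coefficient
  obtain ⟨s, hm⟩ : ∃ s, s = (om * q1' - pi * c1') / om' := ⟨_, rfl⟩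
  have hm1 : s * om' = om * q1' - pi * c1' := by rw [hm]; field_simp
  have hm2 : s * th' = th * q1' - et * b1' := by
    have : om' * (s * th') = om' * (th * q1' - et * b1') := by
      linear_combination th' * hm1 - q1' * h3 + c1' * h9 + b1' * h5
    exact mul_left_cancel₀ hom this
  have h0 := caseS2 (m := m) hpi het (om' / q1') (th' / q1') (q1 - s) (b2 - s * (b2' / q1'))
    (c2 - s * (c2' / q1')) (q2 - s * (q2' / q1')) (b1' / q1') (c1' / q1') (b2' / q1') (c2' / q1')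
    (q2' / q1')
  have hB : QQ b1 b2 c1 c2 q1 q2 om pi th et =
      QQ (pi * (th' / q1') + b1' / q1' * (q1 - s)) (b2 - s * (b2' / q1'))
        (et * (om' / q1') + c1' / q1' * (q1 - s)) (c2 - s * (c2' / q1')) (q1 - s)
        (q2 - s * (q2' / q1')) (c1' / q1' * pi) pi (b1' / q1' * et) et +
      s • QQ (b1' / q1') (b2' / q1') (c1' / q1') (c2' / q1') 1 (q2' / q1') (om' / q1') 0
        (th' / q1') 0 := by
    rw [B_lin]
    congr 1
    · field_simp; linear_combination h9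
    · ring
    · field_simp; linear_combination -h5
    · ring
    · ring
    · ring
    · field_simp; linear_combination -hm1
    · field_simp; linear_combination -hm2
  have hD : QQ b1' b2' c1' c2' q1' q2' om' 0 th' 0 =
      q1' • QQ (b1' / q1') (b2' / q1') (c1' / q1') (c2' / q1') 1 (q2' / q1') (om' / q1') 0
        (th' / q1') 0 := by
    rw [B_smul]
    congr 1 <;> field_simp
  refine h0.lin 1 s 0 q1' ?_ ?_
  · rw [P_one_smul]; exact hB
  · rw [P_zero_smul, P_zero_add]; exact hD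

/-! ### step (S0) -/

theorem parallel {x0 x1 y0 y1 : k} (h : x0 * y1 = x1 * y0) :
    ∃ w0 w1 s t : k, (w0 ≠ 0 ∨ w1 ≠ 0) ∧ x0 = s * w0 ∧ x1 = s * w1 ∧ y0 = t * w0 ∧
      y1 = t * w1 := by
  by_cases h0 : x0 = 0
  · by_cases h1 : x1 = 0
    · by_cases hy : y0 = 0 ∧ y1 = 0
      · exact ⟨1, 0, 0, 0, Or.inl one_ne_zero, by simp [h0], by simp [h1], by simp [hy.1],
          by simp [hy.2]⟩
      · refine ⟨y0, y1, 0, 1, ?_, by simp [h0], by simp [h1], by simp, by simp⟩
        by_contra hc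
        push Not at hc
        exact hy hc
    · have hy : y0 = 0 := by
        have : x1 * y0 = 0 := by rw [← h, h0, zero_mul]
        exact (mul_eq_zero.1 this).resolve_left h1
      exact ⟨x0, x1, 1, y1 / x1, Or.inr h1, by simp, by simp, by simp [h0, hy],
        by field_simp⟩
  · exact ⟨x0, x1, 1, y0 / x0, Or.inl h0, by simp, by simp, by field_simp,
      by field_simp; linear_combination h⟩

theorem exists_dir {w0 w1 : k} (hw : w0 ≠ 0 ∨ w1 ≠ 0) :
    ∃ r0 r1 : k, w0 * r1 - w1 * r0 ≠ 0 ∧ r1 ≠ 0 := by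
  by_cases h : w0 = 0
  · refine ⟨1, 1, ?_, one_ne_zero⟩
    rw [h]
    simpa using hw.resolve_left (by simp [h])
  · exact ⟨0, 1, by simpa using h, one_ne_zero⟩

theorem cl_i [IsAlgClosed k] [CharZero k]
    {b1 b2 c1 c2 q1 q2 om pi th et b1' b2' c1' c2' q1' q2' om' th' : k}
    (hpi : pi ≠ 0) (het : et ≠ 0) (h5 : c1' * q1 + om' * et = c1 * q1')
    (h9 : q1' * b1 = q1 * b1' + pi * th') (h3 : c1' * b1 + om' * th = c1 * b1' + om * th') :
    G m (QQ b1 b2 c1 c2 q1 q2 om pi th et) (QQ b1' b2' c1' c2' q1' q2' om' 0 th' 0) := by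
  have : Infinite k := IsAlgClosed.instInfinite
  obtain ⟨t1, ht1⟩ : ∃ t1, t1 = th / et := ⟨_, rfl⟩
  obtain ⟨t2, ht2⟩ : ∃ t2, t2 = om / pi := ⟨_, rfl⟩
  have ht1' : t1 * et = th := by rw [ht1]; field_simp
  have ht2' : t2 * pi = om := by rw [ht2]; field_simp
  have hpar : (c1 - t2 * q1) * (b1' - t1 * q1') = (c1' - t2 * q1') * (b1 - t1 * q1) := by
    linear_combination -h3 + t2 * h9 + t1 * h5 - om' * ht1' + th' * ht2'
  obtain ⟨w0, w1, s1, s2, hw, e1, e2, e3, e4⟩ := parallel hpar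
  obtain ⟨r0, r1, hr, hr1⟩ := exists_dir hw
  -- the family
  let q : k → k := fun s => q1 + s * r0
  let q' : k → k := fun s => q1' + s * r1
  let W : k → k := fun s => w0 * q' s - w1 * q s
  let C : k → k := fun s => (s1 + s) * w0 + t2 * q s
  let C' : k → k := fun s => (s1 + s) * w1 + t2 * q' s
  let E : k → k := fun s => (s2 + s) * w0 + t1 * q s
  let E' : k → k := fun s => (s2 + s) * w1 + t1 * q' s
  let O : k → k := fun s => (s1 + s) * W s * et⁻¹
  let H : k → k := fun s => (s2 + s) * W s * pi⁻¹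
  have hq : D7.IsPoly q := (D7.IsPoly.const q1).add (D7.IsPoly.id.mul (D7.IsPoly.const r0))
  have hq' : D7.IsPoly q' := (D7.IsPoly.const q1').add (D7.IsPoly.id.mul (D7.IsPoly.const r1))
  have hW : D7.IsPoly W := ((D7.IsPoly.const w0).mul hq').sub ((D7.IsPoly.const w1).mul hq)
  have hC : D7.IsPoly C := (((D7.IsPoly.const s1).add D7.IsPoly.id).mul (D7.IsPoly.const w0)).add
    ((D7.IsPoly.const t2).mul hq)
  have hC' : D7.IsPoly C' := (((D7.IsPoly.const s1).add D7.IsPoly.id).mul (D7.IsPoly.const w1)).add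
    ((D7.IsPoly.const t2).mul hq')
  have hE : D7.IsPoly E := (((D7.IsPoly.const s2).add D7.IsPoly.id).mul (D7.IsPoly.const w0)).add
    ((D7.IsPoly.const t1).mul hq)
  have hE' : D7.IsPoly E' := (((D7.IsPoly.const s2).add D7.IsPoly.id).mul (D7.IsPoly.const w1)).add
    ((D7.IsPoly.const t1).mul hq')
  have hO : D7.IsPoly O := (((D7.IsPoly.const s1).add D7.IsPoly.id).mul hW).mul (D7.IsPoly.const et⁻¹)
  have hH : D7.IsPoly H := (((D7.IsPoly.const s2).add D7.IsPoly.id).mul hW).mul (D7.IsPoly.const pi⁻¹)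
  have a1 : q 0 = q1 := by simp [q]
  have a2 : q' 0 = q1' := by simp [q']
  have a3 : C 0 = c1 := by simp only [C, a1]; linear_combination -e1
  have a4 : C' 0 = c1' := by simp only [C', a2]; linear_combination -e2
  have a5 : E 0 = b1 := by simp only [E, a1]; linear_combination -e3
  have a6 : E' 0 = b1' := by simp only [E', a2]; linear_combination -e4
  have a7 : O 0 = om' := by
    simp only [O, W, a1, a2]
    field_simp
    linear_combination -q1' * e1 + q1 * e2 - h5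
  have a8 : H 0 = th' := by
    simp only [H, W, a1, a2]
    field_simp
    linear_combination -q1' * e3 + q1 * e4 + h9
  have hf1 : {s | q' s = 0}.Finite := by
    refine hq'.finite (s₁ := (1 - q1') / r1) ?_
    have : q' ((1 - q1') / r1) = 1 := by simp only [q']; field_simp; ring
    rw [this]
    exact one_ne_zero
  have hf2 : {s | W s = 0}.Finite := by
    refine hW.finite (s₁ := (1 - (w0 * q1' - w1 * q1)) / (w0 * r1 - w1 * r0)) ?_
    have : W ((1 - (w0 * q1' - w1 * q1)) / (w0 * r1 - w1 * r0)) = 1 := by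
      simp only [W, q, q']
      field_simp
      ring
    rw [this]
    exact one_ne_zero
  have hk : ∀ a : k, D7.IsPoly fun _ : k => a := D7.IsPoly.const
  have hlim := G_limit (m := m) (x := fun s => QQ (E s) b2 (C s) c2 (q s) q2 om pi th et)
    (y := fun s => QQ (E' s) b2' (C' s) c2' (q' s) q2' (O s) 0 (H s) 0)
    ⟨hk _, hC, hk _, hk _, hE, hk _, hq, hk _, hk _, hk _, hk _, hk _⟩
    ⟨hk _, hC', hk _, hk _, hE', hk _, hq', hk _, hO, hk _, hH, hk _⟩
    ((hf1.union hf2).union (Set.finite_singleton (-s1))) ?_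
  · simpa only [a1, a2, a3, a4, a5, a6, a7, a8] using hlim
  intro s hs
  simp only [Set.mem_union, not_or, Set.mem_singleton_iff, Set.mem_ofPred_eq] at hs
  obtain ⟨⟨n2, n3⟩, n4⟩ := hs
  have n5 : s1 + s ≠ 0 := fun h => n4 (by linear_combination h)
  refine caseS1 hpi het ?_ ?_ ?_ n2 ?_
  · simp only [O, C, C', W]
    field_simp
    ring
  · simp only [H, E, E', W]
    field_simp
    ring
  · simp only [O, H, C, C', E, E', W]
    field_simp
    simp only [q, q']
    linear_combination (-(s1 + s) * (w0 * (q1' + s * r1) - w1 * (q1 + s * r0)) * pi) * ht1' +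
      ((s2 + s) * (w0 * (q1' + s * r1) - w1 * (q1 + s * r0)) * et) * ht2'
  · exact mul_ne_zero (mul_ne_zero n5 n3) (inv_ne_zero het)

/-! ### general pairs -/

/-- the statement in terms of the parameters -/
def T2 (m : ℕ) (b1 b2 c1 c2 q1 q2 om pi th et b1' b2' c1' c2' q1' q2' om' pi' th' et' : k) : Prop :=
  G m (QQ b1 b2 c1 c2 q1 q2 om pi th et) (QQ b1' b2' c1' c2' q1' q2' om' pi' th' et')

/-- the entries of a family -/
structure PQ (b1 b2 c1 c2 q1 q2 om pi th et b1' b2' c1' c2' q1' q2' om' pi' th' et' : k → k) :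
    Prop where
  x : PP fun s => QQ (b1 s) (b2 s) (c1 s) (c2 s) (q1 s) (q2 s) (om s) (pi s) (th s) (et s)
  y : PP fun s => QQ (b1' s) (b2' s) (c1' s) (c2' s) (q1' s) (q2' s) (om' s) (pi' s) (th' s)
    (et' s)

theorem polyT {b1 b2 c1 c2 q1 q2 om pi th et b1' b2' c1' c2' q1' q2' om' pi' th' et' : k → k}
    (h1 : IsPoly b1) (h2 : IsPoly b2)
    (h3 : IsPoly c1) (h4 : IsPoly c2) (h5 : IsPoly q1) (h6 : IsPoly q2) (h7 : IsPoly om)
    (h8 : IsPoly pi) (h9 : IsPoly th) (h10 : IsPoly et) (h1' : IsPoly b1') (h2' : IsPoly b2')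
    (h3' : IsPoly c1') (h4' : IsPoly c2') (h5' : IsPoly q1') (h6' : IsPoly q2')
    (h7' : IsPoly om') (h8' : IsPoly pi') (h9' : IsPoly th') (h10' : IsPoly et') :
    PQ b1 b2 c1 c2 q1 q2 om pi th et b1' b2' c1' c2' q1' q2' om' pi' th' et' :=
  ⟨⟨D7.IsPoly.const 0, h3, h4, D7.IsPoly.const 0, h1, h2, h5, h6, h7, h8, h9, h10⟩,
    ⟨D7.IsPoly.const 0, h3', h4', D7.IsPoly.const 0, h1', h2', h5', h6', h7', h8', h9', h10'⟩⟩

theorem cl_fam [Infinite k]
    {b1 b2 c1 c2 q1 q2 om pi th et b1' b2' c1' c2' q1' q2' om' pi' th' et' : k → k}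
    (hc : PQ b1 b2 c1 c2 q1 q2 om pi th et b1' b2' c1' c2' q1' q2' om' pi' th' et')
    (E : Set k) (hE : E.Finite) (h : ∀ s ∉ E, T2 m (b1 s) (b2 s) (c1 s) (c2 s) (q1 s) (q2 s)
      (om s) (pi s) (th s) (et s) (b1' s) (b2' s) (c1' s) (c2' s) (q1' s) (q2' s) (om' s) (pi' s)
      (th' s) (et' s)) :
    T2 m (b1 0) (b2 0) (c1 0) (c2 0) (q1 0) (q2 0)
      (om 0) (pi 0) (th 0) (et 0) (b1' 0) (b2' 0) (c1' 0) (c2' 0) (q1' 0) (q2' 0) (om' 0) (pi' 0)
      (th' 0) (et' 0) := by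
  have h1 := G_limit (m := m) hc.x hc.y hE (fun s hs => h s hs)
  exact h1

theorem cl_lin (l b1 b2 c1 c2 q1 q2 om pi th et b1' b2' c1' c2' q1' q2' om' pi' th' et' : k)
    (h : T2 m b1 b2 c1 c2 q1 q2 om pi th et (b1' - l * b1) (b2' - l * b2) (c1' - l * c1)
      (c2' - l * c2) (q1' - l * q1) (q2' - l * q2) (om' - l * om) (pi' - l * pi) (th' - l * th)
      (et' - l * et)) :
    T2 m b1 b2 c1 c2 q1 q2 om pi th et b1' b2' c1' c2' q1' q2' om' pi' th' et' := by
  refine G.lin h 1 0 l 1 ?_ ?_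
  · rw [QQ_smul, QQ_smul, QQ_add]
    simp
  · rw [QQ_smul, QQ_smul, QQ_add]
    congr 1 <;> ring

theorem cl_swap (b1 b2 c1 c2 q1 q2 om pi th et b1' b2' c1' c2' q1' q2' om' pi' th' et' : k)
    (h : T2 m b1' b2' c1' c2' q1' q2' om' pi' th' et' b1 b2 c1 c2 q1 q2 om pi th et) :
    T2 m b1 b2 c1 c2 q1 q2 om pi th et b1' b2' c1' c2' q1' q2' om' pi' th' et' :=
  G.swap h

/-- duality -/
theorem cl_dual' (b1 b2 c1 c2 q1 q2 om pi th et b1' b2' c1' c2' q1' q2' om' pi' th' et' : k)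
    (h : T2 m c1 c2 b1 b2 q1 q2 th et om pi c1' c2' b1' b2' q1' q2' th' et' om' pi') :
    T2 m b1 b2 c1 c2 q1 q2 om pi th et b1' b2' c1' c2' q1' q2' om' pi' th' et' :=
  G.dual h

/-- (a): `et ≠ 0`, `et' = 0` -/
theorem cl_a [IsAlgClosed k] [CharZero k]
    {b1 b2 c1 c2 q1 q2 om pi th et b1' b2' c1' c2' q1' q2' om' th' : k}
    (h3 : c1' * b1 + om' * th = c1 * b1' + om * th')
    (h5 : c1' * q1 + om' * et = c1 * q1')
    (h9 : q1' * b1 = q1 * b1' + pi * th') (het : et ≠ 0) :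
    T2 m b1 b2 c1 c2 q1 q2 om pi th et b1' b2' c1' c2' q1' q2' om' 0 th' 0 := by
  have hk : Infinite k := IsAlgClosed.instInfinite
  have hc : ∀ a : k, IsPoly fun _ : k => a := D7.IsPoly.const
  by_cases hpi : pi = 0
  · subst hpi
    by_cases hth : th' = 0
    · subst hth
      have h1 := cl_fam (m := m) (k := k)
        (b1 := fun s => b1)
        (b2 := fun s => b2)
        (c1 := fun s => c1)
        (c2 := fun s => c2)
        (q1 := fun s => q1)
        (q2 := fun s => q2)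
        (om := fun s => om)
        (pi := fun s => s)
        (th := fun s => th)
        (et := fun s => et)
        (b1' := fun s => b1')
        (b2' := fun s => b2')
        (c1' := fun s => c1')
        (c2' := fun s => c2')
        (q1' := fun s => q1')
        (q2' := fun s => q2')
        (om' := fun s => om')
        (pi' := fun s => 0)
        (th' := fun s => 0)
        (et' := fun s => 0) (polyT (hc _) (hc _) (hc _) (hc _) (hc _) (hc _) (hc _) D7.IsPoly.id (hc _) (hc _)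
        (hc _) (hc _) (hc _) (hc _) (hc _) (hc _) (hc _) (hc _) (hc _) (hc _)) {0}
        (Set.finite_singleton 0) (fun s hs => cl_i (fun h => hs (Set.mem_singleton_iff.2 h)) het
          h5 (by linear_combination h9) h3)
      exact h1
    · have h1 := cl_fam (m := m) (k := k)
        (b1 := fun s => (b1 + s))
        (b2 := fun s => b2)
        (c1 := fun s => c1)
        (c2 := fun s => c2)
        (q1 := fun s => q1)
        (q2 := fun s => q2)
        (om := fun s => ((c1' * (b1 + s) - c1 * b1' + (c1 * (q1' + s) - c1' * q1) / et * th) / th'))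
        (pi := fun s => (((q1' + s) * (b1 + s) - q1 * b1') / th'))
        (th := fun s => th)
        (et := fun s => et)
        (b1' := fun s => b1')
        (b2' := fun s => b2')
        (c1' := fun s => c1')
        (c2' := fun s => c2')
        (q1' := fun s => (q1' + s))
        (q2' := fun s => q2')
        (om' := fun s => ((c1 * (q1' + s) - c1' * q1) / et))
        (pi' := fun s => 0)
        (th' := fun s => th')
        (et' := fun s => 0) ?_ {0, -(q1' + b1)}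
        (Set.toFinite _) (fun s hs => ?_)
      · have e1 : (c1 * (q1' + 0) - c1' * q1) / et = om' := by
          rw [div_eq_iff het]
          linear_combination -h5
        have e2 : ((q1' + 0) * (b1 + 0) - q1 * b1') / th' = 0 := by
          rw [div_eq_iff hth]
          linear_combination h9
        have e3 : (c1' * (b1 + 0) - c1 * b1' + om' * th) / th' = om := by
          rw [div_eq_iff hth]
          linear_combination h3
        simp only [e1, e2, e3] at h1
        simpa only [add_zero] using h1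
      · have i1 : ∀ a : k, IsPoly fun s : k => a + s := fun a => (hc a).add D7.IsPoly.id
        have i2 : IsPoly fun s : k => (c1 * (q1' + s) - c1' * q1) / et := by
          simp only [div_eq_mul_inv]
          exact ((((hc c1).mul (i1 q1')).sub (hc (c1' * q1))).mul (hc et⁻¹))
        have i3 : IsPoly fun s : k => ((q1' + s) * (b1 + s) - q1 * b1') / th' := by
          simp only [div_eq_mul_inv]
          exact ((((i1 q1').mul (i1 b1)).sub (hc (q1 * b1'))).mul (hc th'⁻¹))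
        have i4 : IsPoly fun s : k =>
            (c1' * (b1 + s) - c1 * b1' + (c1 * (q1' + s) - c1' * q1) / et * th) / th' := by
          simp only [div_eq_mul_inv] at i2 ⊢
          exact (((((hc c1').mul (i1 b1)).sub (hc (c1 * b1'))).add (i2.mul (hc th))).mul
            (hc th'⁻¹))
        exact polyT (i1 b1) (hc _) (hc _) (hc _) (hc _) (hc _) i4 i3 (hc _) (hc _)
          (hc _) (hc _) (hc _) (hc _) (i1 q1') (hc _) i2 (hc _) (hc _) (hc _)
      · simp only [Set.mem_insert_iff, Set.mem_singleton_iff, not_or] at hs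
        refine cl_i ?_ het ?_ ?_ ?_
        · intro h
          rw [div_eq_zero_iff] at h
          rcases h with h | h
          · have h4 : s * (s + (q1' + b1)) = 0 := by linear_combination h - h9
            rcases mul_eq_zero.1 h4 with h6 | h6
            · exact hs.1 h6
            · exact hs.2 (by linear_combination h6)
          · exact hth h
        · field_simp
          ring
        · field_simp
          ring
        · field_simp
          ring
  · exact cl_i hpi het h5 h9 h3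

/-- (b): `et ≠ 0` -/
theorem cl_b [IsAlgClosed k] [CharZero k]
    {b1 b2 c1 c2 q1 q2 om pi th et b1' b2' c1' c2' q1' q2' om' pi' th' et' : k}
    (h3 : c1' * b1 + om' * th = c1 * b1' + om * th')
    (h5 : c1' * q1 + om' * et = c1 * q1' + om * et') (h7 : pi' * et = pi * et')
    (h9 : q1' * b1 + pi' * th = q1 * b1' + pi * th') (het : et ≠ 0) :
    T2 m b1 b2 c1 c2 q1 q2 om pi th et b1' b2' c1' c2' q1' q2' om' pi' th' et' := by
  obtain ⟨l, hl⟩ : ∃ l : k, et' = l * et := ⟨et' / et, by field_simp⟩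
  have hp : pi' = l * pi := by
    have h1 : (pi' - l * pi) * et = 0 := by
      rw [hl] at h7
      linear_combination h7
    rcases mul_eq_zero.1 h1 with h2 | h2
    · linear_combination h2
    · exact absurd h2 het
  apply cl_lin l
  have e1 : et' - l * et = 0 := by rw [hl]; ring
  have e2 : pi' - l * pi = 0 := by rw [hp]; ring
  rw [e1, e2]
  refine cl_a ?_ ?_ ?_ het
  · linear_combination h3
  · rw [hl] at h5
    linear_combination h5
  · rw [hp] at h9
    linear_combination h9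

/-- (b'): `(et, et') ≠ (0, 0)` -/
theorem cl_b2 [IsAlgClosed k] [CharZero k]
    {b1 b2 c1 c2 q1 q2 om pi th et b1' b2' c1' c2' q1' q2' om' pi' th' et' : k}
    (h3 : c1' * b1 + om' * th = c1 * b1' + om * th')
    (h5 : c1' * q1 + om' * et = c1 * q1' + om * et') (h7 : pi' * et = pi * et')
    (h9 : q1' * b1 + pi' * th = q1 * b1' + pi * th') (het : et ≠ 0 ∨ et' ≠ 0) :
    T2 m b1 b2 c1 c2 q1 q2 om pi th et b1' b2' c1' c2' q1' q2' om' pi' th' et' := by
  rcases het with het | het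
  · exact cl_b h3 h5 h7 h9 het
  · exact cl_swap _ _ _ _ _ _ _ _ _ _ _ _ _ _ _ _ _ _ _ _ (cl_b h3.symm h5.symm h7.symm h9.symm het)

/-- (c): one of `et, et', pi, pi'` is nonzero -/
theorem cl_c [IsAlgClosed k] [CharZero k]
    {b1 b2 c1 c2 q1 q2 om pi th et b1' b2' c1' c2' q1' q2' om' pi' th' et' : k}
    (h3 : c1' * b1 + om' * th = c1 * b1' + om * th')
    (h5 : c1' * q1 + om' * et = c1 * q1' + om * et') (h7 : pi' * et = pi * et')
    (h9 : q1' * b1 + pi' * th = q1 * b1' + pi * th')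
    (het : (et ≠ 0 ∨ et' ≠ 0) ∨ (pi ≠ 0 ∨ pi' ≠ 0)) :
    T2 m b1 b2 c1 c2 q1 q2 om pi th et b1' b2' c1' c2' q1' q2' om' pi' th' et' := by
  rcases het with het | het
  · exact cl_b2 h3 h5 h7 h9 het
  · apply cl_dual'
    refine cl_b2 ?_ ?_ ?_ ?_ het
    · linear_combination -h3
    · linear_combination -h9
    · linear_combination -h7
    · linear_combination -h5

/-- (d): `et = et' = pi = pi' = 0`, `om' = 0` -/
theorem cl_d [IsAlgClosed k] [CharZero k]
    {b1 b2 c1 c2 q1 q2 om th b1' b2' c1' c2' q1' q2' th' : k}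
    (h3 : c1' * b1 = c1 * b1' + om * th') (h5 : c1' * q1 = c1 * q1')
    (h9 : q1' * b1 = q1 * b1') :
    T2 m b1 b2 c1 c2 q1 q2 om 0 th 0 b1' b2' c1' c2' q1' q2' 0 0 th' 0 := by
  have hk : Infinite k := IsAlgClosed.instInfinite
  have hc : ∀ a : k, IsPoly fun _ : k => a := D7.IsPoly.const
  exact cl_fam (m := m) (k := k)
        (b1 := fun s => b1)
        (b2 := fun s => b2)
        (c1 := fun s => c1)
        (c2 := fun s => c2)
        (q1 := fun s => q1)
        (q2 := fun s => q2)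
        (om := fun s => om)
        (pi := fun s => 0)
        (th := fun s => th)
        (et := fun s => s)
        (b1' := fun s => b1')
        (b2' := fun s => b2')
        (c1' := fun s => c1')
        (c2' := fun s => c2')
        (q1' := fun s => q1')
        (q2' := fun s => q2')
        (om' := fun s => 0)
        (pi' := fun s => 0)
        (th' := fun s => th')
        (et' := fun s => 0)
    (polyT (hc _) (hc _) (hc _) (hc _) (hc _) (hc _) (hc _) (hc _) (hc _) D7.IsPoly.id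
      (hc _) (hc _) (hc _) (hc _) (hc _) (hc _) (hc _) (hc _) (hc _) (hc _)) {0}
    (Set.finite_singleton 0) (fun s hs => cl_b (by linear_combination h3)
      (by linear_combination h5) (by ring) (by linear_combination h9)
      (fun h => hs (Set.mem_singleton_iff.2 h)))

/-- (d'): `et = et' = pi = pi' = 0`, `om ≠ 0` -/
theorem cl_d2 [IsAlgClosed k] [CharZero k]
    {b1 b2 c1 c2 q1 q2 om th b1' b2' c1' c2' q1' q2' om' th' : k}
    (h3 : c1' * b1 + om' * th = c1 * b1' + om * th') (h5 : c1' * q1 = c1 * q1')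
    (h9 : q1' * b1 = q1 * b1') (hom : om ≠ 0) :
    T2 m b1 b2 c1 c2 q1 q2 om 0 th 0 b1' b2' c1' c2' q1' q2' om' 0 th' 0 := by
  obtain ⟨l, hl⟩ : ∃ l : k, om' = l * om := ⟨om' / om, by field_simp⟩
  apply cl_lin l
  have e1 : om' - l * om = 0 := by rw [hl]; ring
  have e2 : (0 : k) - l * 0 = 0 := by ring
  rw [e1, e2]
  refine cl_d ?_ ?_ ?_
  · rw [hl] at h3
    linear_combination h3
  · linear_combination h5
  · linear_combination h9

theorem cl_431II [IsAlgClosed k] [CharZero k]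
    {b1 b2 c1 c2 q1 q2 om pi th et b1' b2' c1' c2' q1' q2' om' pi' th' et' : k}
    (h3 : c1' * b1 + om' * th = c1 * b1' + om * th')
    (h5 : c1' * q1 + om' * et = c1 * q1' + om * et') (h7 : pi' * et = pi * et')
    (h9 : q1' * b1 + pi' * th = q1 * b1' + pi * th') :
    T2 m b1 b2 c1 c2 q1 q2 om pi th et b1' b2' c1' c2' q1' q2' om' pi' th' et' := by
  by_cases h : (et ≠ 0 ∨ et' ≠ 0) ∨ (pi ≠ 0 ∨ pi' ≠ 0)
  · exact cl_c h3 h5 h7 h9 h
  · push Not at h
    obtain ⟨⟨rfl, rfl⟩, rfl, rfl⟩ := h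
    have h5' : c1' * q1 = c1 * q1' := by linear_combination h5
    have h9' : q1' * b1 = q1 * b1' := by linear_combination h9
    by_cases hom : om = 0
    · by_cases hom' : om' = 0
      · subst hom hom'
        exact cl_d (by linear_combination h3) h5' h9'
      · exact cl_swap _ _ _ _ _ _ _ _ _ _ _ _ _ _ _ _ _ _ _ _
          (cl_d2 h3.symm h5'.symm h9'.symm hom')
    · exact cl_d2 h3 h5' h9' hom

theorem cl_II [IsAlgClosed k] [CharZero k] {x y : P k} (hx : x.c0 = 0) (hxf : x.f0 = 0)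
    (hy : y.c0 = 0) (hyf : y.f0 = 0) (h : Rel x y) : G m x y := by
  obtain ⟨a0, a1, a2, b1, b2, b3, d1, d2, d3, g⟩ := h
  obtain ⟨xc0, xc1, xc2, xf0, xf1, xf2, xq1, xq2, xom, xpi, xth, xet⟩ := x
  obtain ⟨yc0, yc1, yc2, yf0, yf1, yf2, yq1, yq2, yom, ypi, yth, yet⟩ := y
  simp only at hx hxf hy hyf
  subst hx hxf hy hyf
  simp only at a0 a1 a2 b1 b2 b3 d1 d2 d3 g
  exact cl_431II (by linear_combination a2) (by linear_combination b2) d3
    (by linear_combination d2)

end Ta31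

end Pool.Agent.Lib.D9
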