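import Pool.Agent.Lib.D9.CycAx

/-!
# MP_5dcbc3_ag: Jordan type `(a, 3, 1)`, `a = m + 5`: the cyclic case, three axes

Algebra: `A C = 0`, `A^3 B = 0`, `A^(m+5) = 0`,
`B^2 = f1 A^(m+3) + f2 A^(m+4) + q1 A B + q2 A^2 B`, `B C = s A^(m+4) + t A^2 B`,
`C^2 = S A^(m+4) + T A^2 B`.
-/

namespace Pool.Agent.Lib.D9

open Matrix Polynomial Pool.Agent.Lib.Q5dc Pool.Agent.Lib.D7 Pool.Agent.Lib.D8

variable {k : Type*} [Field k]

namespace Ta31

section ring

variable {R : Type*} [CommRing R] {a b : R} {m : ℕ} {f1 f2 q1 q2 α1 α2 ε : R}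

theorem ring_XY (rgg : a ^ (m + 2) * a ^ (m + 2) = ε * a ^ (m + 4)) (ram : a ^ (m + 5) = 0)
    (rbb : b * b = f1 * a ^ (m + 3) + f2 * a ^ (m + 4) + q1 * (a * b) + q2 * (a ^ 2 * b))
    (h1 : q1 * α1 = -f1) (h2 : q1 * α2 = -f2 - q2 * α1 + ε * α1 ^ 2) :
    (b - q1 * a - q2 * a ^ 2 + (α1 * a ^ (m + 2) + α2 * a ^ (m + 3))) *
      (b - (α1 * a ^ (m + 2) + α2 * a ^ (m + 3))) = 0 := by
  linear_combination rbb + a ^ (m + 3) * h1 + a ^ (m + 4) * h2 - α1 ^ 2 * rgg +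
    (q2 * α2 - 2 * α1 * α2 * a ^ m - α2 ^ 2 * a ^ (m + 1)) * ram

theorem ring_Y3 (ra3b : a ^ 3 * b = 0) (ram : a ^ (m + 5) = 0) (h1 : q1 * α1 = -f1) :
    (q1 * a + q2 * a ^ 2 - 2 * (α1 * a ^ (m + 2) + α2 * a ^ (m + 3))) ^ 2 *
      (b - (α1 * a ^ (m + 2) + α2 * a ^ (m + 3))) =
    q1 ^ 2 * (a ^ 2 * b) + q1 * f1 * a ^ (m + 4) := by
  linear_combination (2 * q1 * q2 + q2 ^ 2 * a - 4 * (q1 + q2 * a) * (α1 + α2 * a) * a ^ m +
    4 * (α1 + α2 * a) ^ 2 * a ^ (2 * m + 1)) * ra3b - (q1 ^ 2 * α2 + (2 * q1 * q2 + q2 ^ 2 * a) *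
      (α1 + α2 * a) - 4 * (q1 + q2 * a) * (α1 + α2 * a) ^ 2 * a ^ m +
      4 * (α1 + α2 * a) ^ 3 * a ^ (2 * m + 1)) * ram - q1 * a ^ (m + 4) * h1

theorem ring_pow {X Y : R} (h : X * Y = 0) (j : ℕ) : X ^ (j + 1) = (-(Y - X)) ^ j * X := by
  induction j with
  | zero => simp
  | succ j ih =>
    rw [pow_succ X, ih, pow_succ]
    linear_combination ((-(Y - X)) ^ j) * h

theorem ring_U {U : R} (hU : a ^ (m + 4) * U = q1 * a ^ (m + 4)) (j : ℕ) :
    a ^ (m + 4) * U ^ j = q1 ^ j * a ^ (m + 4) := by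
  induction j with
  | zero => simp
  | succ j ih =>
    rw [pow_succ U, ← mul_assoc, ih, pow_succ q1]
    linear_combination q1 ^ j * hU

theorem ring_X (ra3b : a ^ 3 * b = 0) (ram : a ^ (m + 5) = 0)
    (hXY : (b - q1 * a - q2 * a ^ 2 + (α1 * a ^ (m + 2) + α2 * a ^ (m + 3))) *
      (b - (α1 * a ^ (m + 2) + α2 * a ^ (m + 3))) = 0) :
    (b - q1 * a - q2 * a ^ 2 + (α1 * a ^ (m + 2) + α2 * a ^ (m + 3))) ^ (m + 4) =
      (-q1) ^ (m + 4) * a ^ (m + 4) := by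
  have e0 : m + 4 = (m + 3) + 1 := rfl
  rw [e0, ring_pow hXY (m + 3)]
  have e1 : -(b - (α1 * a ^ (m + 2) + α2 * a ^ (m + 3)) -
      (b - q1 * a - q2 * a ^ 2 + (α1 * a ^ (m + 2) + α2 * a ^ (m + 3)))) =
      a * -(q1 + q2 * a - 2 * (α1 + α2 * a) * a ^ (m + 1)) := by ring
  rw [e1, mul_pow, ← e0]
  have e2 : a ^ (m + 4) * -(q1 + q2 * a - 2 * (α1 + α2 * a) * a ^ (m + 1)) =
      (-q1) * a ^ (m + 4) := by
    linear_combination (-q2 + 2 * (α1 + α2 * a) * a ^ m) * ram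
  have e3 := ring_U e2 (m + 3)
  have e4 : a ^ (m + 3) * (b - q1 * a - q2 * a ^ 2 + (α1 * a ^ (m + 2) + α2 * a ^ (m + 3))) =
      (-q1) * a ^ (m + 4) := by
    linear_combination a ^ m * ra3b + (-q2 + (α1 + α2 * a) * a ^ m) * ram
  have e5 : (-q1) ^ (m + 4) = (-q1) ^ (m + 3) * (-q1) := pow_succ _ _
  rw [e5]
  linear_combination (-(q1 + q2 * a - 2 * (α1 + α2 * a) * a ^ (m + 1))) ^ (m + 3) * e4 +
    (-q1) * e3

end ring

/-- the axes when `B C = 0` -/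
theorem ax_zero [IsAlgClosed k] {n : Type*} [Fintype n] [DecidableEq n]
    {A B C : Matrix n n k} {v : n → k} {m : ℕ} (hn : Fintype.card n = m + 9)
    (hT : CN ![A, B, C]) (hv : Cyc ![A, B, C] v) {f1 f2 q1 q2 S T : k}
    (hAC : A * C = 0) (hBC : B * C = 0) (hA3B : A ^ 3 * B = 0) (hAm : A ^ (m + 5) = 0)
    (hBB : B * B = f1 • A ^ (m + 3) + f2 • A ^ (m + 4) + q1 • (A * B) + q2 • (A ^ 2 * B))
    (hCC : C * C = S • A ^ (m + 4) + T • (A ^ 2 * B))
    (hq1 : q1 ≠ 0) (hT0 : T ≠ 0) (hd : q1 * S - T * f1 ≠ 0) : Cl ![A, B, C] := by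
  obtain ⟨R, _, _, ρ, a, b, c, hρ, ha, hb, hc⟩ := exists_ring hT
  obtain ⟨ε, hε⟩ : ∃ ε : k, ε = if m = 0 then 1 else 0 := ⟨_, rfl⟩
  obtain ⟨α1, hα1⟩ : ∃ α1, q1 * α1 = -f1 := ⟨-f1 / q1, by field_simp⟩
  obtain ⟨α2, hα2⟩ : ∃ α2, q1 * α2 = -f2 - q2 * α1 + ε * α1 ^ 2 :=
    ⟨(-f2 - q2 * α1 + ε * α1 ^ 2) / q1, by field_simp⟩
  have hsm : ∀ (r : k) (x : R), ρ (algebraMap k R r * x) = r • ρ x := by
    intro r x
    rw [map_mul, AlgHom.commutes, Algebra.smul_def]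
  have rac : a * c = 0 := hρ (by rw [map_mul, ha, hc, hAC, map_zero])
  have rbc : b * c = 0 := hρ (by rw [map_mul, hb, hc, hBC, map_zero])
  have ra3b : a ^ 3 * b = 0 := hρ (by rw [map_mul, map_pow, ha, hb, hA3B, map_zero])
  have ram : a ^ (m + 5) = 0 := hρ (by rw [map_pow, ha, hAm, map_zero])
  have rbb : b * b = algebraMap k R f1 * a ^ (m + 3) + algebraMap k R f2 * a ^ (m + 4) +
      algebraMap k R q1 * (a * b) + algebraMap k R q2 * (a ^ 2 * b) := hρ (by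
    simp only [map_add, hsm]
    simp only [map_mul, map_pow, ha, hb]
    exact hBB)
  have rcc : c * c = algebraMap k R S * a ^ (m + 4) + algebraMap k R T * (a ^ 2 * b) := hρ (by
    simp only [map_add, hsm]
    simp only [map_mul, map_pow, ha, hb, hc]
    exact hCC)
  have rgg : a ^ (m + 2) * a ^ (m + 2) = algebraMap k R ε * a ^ (m + 4) := by
    by_cases h : m = 0
    · subst h
      rw [hε, if_pos rfl, map_one]
      ring
    · obtain ⟨j, rfl⟩ : ∃ j, m = j + 1 := ⟨m - 1, by omega⟩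
      rw [hε, if_neg h, map_zero]
      linear_combination a ^ j * ram
  have h1 : algebraMap k R q1 * algebraMap k R α1 = -algebraMap k R f1 := by
    rw [← map_mul, hα1, map_neg]
  have h2 : algebraMap k R q1 * algebraMap k R α2 = -algebraMap k R f2 -
      algebraMap k R q2 * algebraMap k R α1 + algebraMap k R ε * algebraMap k R α1 ^ 2 := by
    rw [← map_mul, hα2]
    simp only [map_sub, map_add, map_neg, map_mul, map_pow]
  obtain ⟨g, hg⟩ : ∃ g, g = algebraMap k R α1 * a ^ (m + 2) + algebraMap k R α2 * a ^ (m + 3) :=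
    ⟨_, rfl⟩
  obtain ⟨X, hX⟩ : ∃ X, X = b - algebraMap k R q1 * a - algebraMap k R q2 * a ^ 2 + g := ⟨_, rfl⟩
  obtain ⟨Y, hY⟩ : ∃ Y, Y = b - g := ⟨_, rfl⟩
  have rXY : X * Y = 0 := by
    rw [hX, hY, hg]
    exact ring_XY rgg ram rbb h1 h2
  have rY3 : Y ^ 3 = algebraMap k R q1 ^ 2 * (a ^ 2 * b) +
      algebraMap k R q1 * algebraMap k R f1 * a ^ (m + 4) := by
    have e1 : Y ^ 3 = (Y - X) ^ 2 * Y := by linear_combination (2 * Y - X) * rXY
    have e2 : Y - X = algebraMap k R q1 * a + algebraMap k R q2 * a ^ 2 -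
        2 * (algebraMap k R α1 * a ^ (m + 2) + algebraMap k R α2 * a ^ (m + 3)) := by
      rw [hX, hY, hg]; ring
    rw [e1, e2, hY, hg]
    exact ring_Y3 ra3b ram h1
  have rX4 : X ^ (m + 4) = (-algebraMap k R q1) ^ (m + 4) * a ^ (m + 4) := by
    rw [hX, hg]
    rw [hX, hY, hg] at rXY
    exact ring_X ra3b ram rXY
  have rXc : X * c = 0 := by
    rw [hX, hg]
    linear_combination rbc - (algebraMap k R q1 + algebraMap k R q2 * a -
      (algebraMap k R α1 + algebraMap k R α2 * a) * a ^ (m + 1)) * rac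
  have rYc : Y * c = 0 := by
    rw [hY, hg]
    linear_combination rbc - ((algebraMap k R α1 + algebraMap k R α2 * a) * a ^ (m + 1)) * rac
  have hN : (-q1) ^ (m + 4) ≠ 0 := pow_ne_zero _ (neg_ne_zero.2 hq1)
  -- the relation
  obtain ⟨z1, hz1⟩ : ∃ z1, z1 * q1 ^ 2 = T := ⟨T / q1 ^ 2, by field_simp⟩
  obtain ⟨z2, hz2⟩ : ∃ z2, q1 * (z2 * (-q1) ^ (m + 4)) = q1 * S - T * f1 :=
    ⟨(q1 * S - T * f1) / q1 / (-q1) ^ (m + 4), by
      rw [div_mul_cancel₀ _ hN, mul_div_cancel₀ _ hq1]⟩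
  have hz1' : z1 ≠ 0 := by
    rintro rfl
    apply hT0
    rw [← hz1, zero_mul]
  have hz2' : z2 ≠ 0 := by
    rintro rfl
    apply hd
    rw [← hz2, zero_mul, mul_zero]
  have hz3 : z1 * (q1 * f1) + z2 * (-q1) ^ (m + 4) = S := by
    have : q1 * (z1 * (q1 * f1) + z2 * (-q1) ^ (m + 4)) = q1 * S := by
      linear_combination hz2 + f1 * hz1
    exact mul_left_cancel₀ hq1 this
  have rel : c ^ 2 = algebraMap k R z1 * Y ^ 3 + algebraMap k R z2 * X ^ (m + 4) := by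
    have i1 : algebraMap k R z1 * algebraMap k R q1 ^ 2 = algebraMap k R T := by
      rw [← hz1, map_mul, map_pow]
    have i3 : algebraMap k R z1 * (algebraMap k R q1 * algebraMap k R f1) +
        algebraMap k R z2 * (-algebraMap k R q1) ^ (m + 4) = algebraMap k R S := by
      rw [← hz3]
      simp only [map_add, map_mul, map_pow, map_neg]
    rw [rY3, rX4]
    linear_combination rcc - (a ^ 2 * b) * i1 - a ^ (m + 4) * i3
  have relm : ρ X ^ (m + 4) = (-(z1 / z2)) • ρ Y ^ 3 + (1 / z2) • ρ c ^ 2 := by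
    have h3 : ρ c ^ 2 = z1 • ρ Y ^ 3 + z2 • ρ X ^ (m + 4) := by
      rw [← map_pow, rel, map_add, hsm, hsm, map_pow, map_pow]
    rw [h3, smul_add, smul_smul, smul_smul, one_div_mul_cancel hz2', one_smul, ← add_assoc,
      ← add_smul]
    have : -(z1 / z2) + 1 / z2 * z1 = 0 := by field_simp; ring
    rw [this, zero_smul, zero_add]
  -- membership
  have mA : A ∈ adj ![A, B, C] := mem_adj ![A, B, C] 0
  have mB : B ∈ adj ![A, B, C] := mem_adj ![A, B, C] 1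
  have mC : C ∈ adj ![A, B, C] := mem_adj ![A, B, C] 2
  have mp : ∀ i, A ^ (i + 1) ∈ adj ![A, B, C] := by
    intro i
    induction i with
    | zero => rw [zero_add, pow_one]; exact mA
    | succ i ih => rw [pow_succ]; exact mul_mem ih mA
  have hρg : ρ g = α1 • A ^ (m + 2) + α2 • A ^ (m + 3) := by
    rw [hg, map_add, hsm, hsm, map_pow, map_pow, ha]
  have hρX : ρ X = B - q1 • A - q2 • A ^ 2 + ρ g := by
    rw [hX, map_add, map_sub, map_sub, hsm, hsm, map_pow, ha, hb]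
  have hρY : ρ Y = B - ρ g := by rw [hY, map_sub, hb]
  have mg : ρ g ∈ adj ![A, B, C] := by
    rw [hρg]
    exact add_mem (SMulMemClass.smul_mem _ (mp (m + 1))) (SMulMemClass.smul_mem _ (mp (m + 2)))
  have hsq : ∀ j, A ^ (j + 2) ∈ Submodule.span k {M : Matrix n n k | ∃ P ∈ adj ![A, B, C],
      ∃ Q ∈ adj ![A, B, C], M = P * Q} := fun j =>
    Submodule.subset_span ⟨A ^ (j + 1), mp j, A, mA, pow_succ _ _⟩
  have sg : ρ g ∈ Submodule.span k {M : Matrix n n k | ∃ P ∈ adj ![A, B, C],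
      ∃ Q ∈ adj ![A, B, C], M = P * Q} := by
    rw [hρg]
    exact add_mem (Submodule.smul_mem _ _ (hsq m)) (Submodule.smul_mem _ _ (hsq (m + 1)))
  have tX : ρ X ∈ adj ![ρ X, ρ Y, ρ c] := mem_adj ![ρ X, ρ Y, ρ c] 0
  have tY : ρ Y ∈ adj ![ρ X, ρ Y, ρ c] := mem_adj ![ρ X, ρ Y, ρ c] 1
  have tZ : ρ c ∈ adj ![ρ X, ρ Y, ρ c] := mem_adj ![ρ X, ρ Y, ρ c] 2
  refine cl_axes3_cyc (X := ρ X) (Y := ρ Y) (Z := ρ c) (v := v) (p := m + 4) (q := 3) (r := 2)
    (by omega) (by omega) (by omega) hn hT ?_ ?_ ?_ ?_ ?_ ?_ (a := -(z1 / z2)) (b := 1 / z2)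
    (neg_ne_zero.2 (div_ne_zero hz1' hz2')) (one_div_ne_zero hz2') ?_ ?_ hv
  · rw [hρX]
    exact add_mem (sub_mem (sub_mem mB (SMulMemClass.smul_mem _ mA))
      (SMulMemClass.smul_mem _ (mp 1))) mg
  · rw [hρY]
    exact sub_mem mB mg
  · rw [hc]; exact mC
  · rw [← map_mul, rXY, map_zero]
  · rw [← map_mul, rXc, map_zero]
  · rw [← map_mul, rYc, map_zero]
  · rw [relm, Matrix.add_mulVec, Matrix.smul_mulVec, Matrix.smul_mulVec]
  · intro i
    fin_cases i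
    · refine ⟨q1⁻¹ • (ρ Y - ρ X), SMulMemClass.smul_mem _ (sub_mem tY tX), ?_⟩
      have e1 : A - q1⁻¹ • (ρ Y - ρ X) = -((q1⁻¹ * q2) • A ^ 2) + (2 * q1⁻¹) • ρ g := by
        rw [hρX, hρY]
        have : B - ρ g - (B - q1 • A - q2 • A ^ 2 + ρ g) = q1 • A + q2 • A ^ 2 - (2 : k) • ρ g := by
          module
        rw [this, smul_sub, smul_add, smul_smul, inv_mul_cancel₀ hq1, one_smul]
        module
      show A - q1⁻¹ • (ρ Y - ρ X) ∈ _
      rw [e1]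
      exact add_mem (neg_mem (Submodule.smul_mem _ _ (hsq 0))) (Submodule.smul_mem _ _ sg)
    · refine ⟨ρ Y, tY, ?_⟩
      show B - ρ Y ∈ _
      rw [hρY, sub_sub_cancel]
      exact sg
    · refine ⟨ρ c, tZ, ?_⟩
      show C - ρ c ∈ _
      rw [hc, sub_self]
      exact zero_mem _

/-! ### the general case -/

section ring2

variable {R : Type*} [CommRing R] {a b c : R} {m : ℕ} {f1 f2 q1 q2 s t S T ξ ζ : R}

theorem r2_cube (r1 : a * c = 0)
    (r6 : c * c = S * a ^ (m + 4) + T * (a ^ 2 * b)) : c ^ 3 = 0 := by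
  linear_combination c * r6 + (S * a ^ (m + 3) + T * a * b) * r1

theorem r2_pow (r1 : a * c = 0) (r6 : c * c = S * a ^ (m + 4) + T * (a ^ 2 * b)) (j : ℕ) :
    (a + ζ * c) ^ (j + 3) = a ^ (j + 3) := by
  induction j with
  | zero =>
    have h := r2_cube r1 r6
    rw [zero_add]
    linear_combination ζ ^ 3 * h + (3 * ζ * a + 3 * ζ ^ 2 * c) * r1
  | succ j ih =>
    have e1 : j + 1 + 3 = (j + 3) + 1 := rfl
    rw [e1, pow_succ (a + ζ * c), ih, pow_succ]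
    linear_combination ζ * a ^ (j + 2) * r1

theorem r2_ac (r1 : a * c = 0) (r6 : c * c = S * a ^ (m + 4) + T * (a ^ 2 * b)) :
    (a + ζ * c) * (c - ζ * S * a ^ (m + 3) - ζ * T * (a * b)) = 0 := by
  linear_combination (1 - ζ ^ 2 * S * a ^ (m + 2) - ζ ^ 2 * T * b) * r1 + ζ * r6

theorem r2_bc (r1 : a * c = 0) (r2 : a ^ 3 * b = 0) (r3 : a ^ (m + 5) = 0)
    (r4 : b * b = f1 * a ^ (m + 3) + f2 * a ^ (m + 4) + q1 * (a * b) + q2 * (a ^ 2 * b))
    (r5 : b * c = s * a ^ (m + 4) + t * (a ^ 2 * b))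
    (r6 : c * c = S * a ^ (m + 4) + T * (a ^ 2 * b))
    (e1 : s + ξ * S - ζ * T * f1 = 0) (e2 : t + ξ * T - ζ * T * q1 = 0) :
    (b + ξ * c) * (c - ζ * S * a ^ (m + 3) - ζ * T * (a * b)) = 0 := by
  linear_combination r5 - ζ * S * a ^ m * r2 - ζ * T * a * r4 + ξ * r6 -
    (ξ * ζ * S * a ^ (m + 2) + ξ * ζ * T * b) * r1 - ζ * T * (f2 * r3 + q2 * r2) +
    a ^ (m + 4) * e1 + a ^ 2 * b * e2

theorem r2_a3b (r1 : a * c = 0) (r2 : a ^ 3 * b = 0)
    (r6 : c * c = S * a ^ (m + 4) + T * (a ^ 2 * b)) :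
    (a + ζ * c) ^ 3 * (b + ξ * c) = 0 := by
  have h := r2_pow (ζ := ζ) r1 r6 0
  rw [zero_add] at h
  rw [h]
  linear_combination r2 + ξ * a ^ 2 * r1

theorem r2_a2b (r1 : a * c = 0)
    (r5 : b * c = s * a ^ (m + 4) + t * (a ^ 2 * b))
    (r6 : c * c = S * a ^ (m + 4) + T * (a ^ 2 * b)) :
    (a + ζ * c) ^ 2 * (b + ξ * c) = a ^ 2 * b := by
  have h := r2_cube r1 r6
  linear_combination (2 * ζ * (b + ξ * c) + ξ * a) * r1 + ζ ^ 2 * ξ * h + ζ ^ 2 * c * r5 +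
    ζ ^ 2 * (s * a ^ (m + 3) + t * a * b) * r1

theorem r2_ab (r1 : a * c = 0) (r5 : b * c = s * a ^ (m + 4) + t * (a ^ 2 * b))
    (r6 : c * c = S * a ^ (m + 4) + T * (a ^ 2 * b)) :
    (a + ζ * c) * (b + ξ * c) = a * b + ζ * (s + ξ * S) * a ^ (m + 4) +
      ζ * (t + ξ * T) * (a ^ 2 * b) := by
  linear_combination ξ * r1 + ζ * r5 + ζ * ξ * r6

theorem r2_cc (r1 : a * c = 0) (r2 : a ^ 3 * b = 0) (r3 : a ^ (m + 5) = 0)
    (r4 : b * b = f1 * a ^ (m + 3) + f2 * a ^ (m + 4) + q1 * (a * b) + q2 * (a ^ 2 * b))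
    (r5 : b * c = s * a ^ (m + 4) + t * (a ^ 2 * b))
    (r6 : c * c = S * a ^ (m + 4) + T * (a ^ 2 * b)) :
    (c - ζ * S * a ^ (m + 3) - ζ * T * (a * b)) * (c - ζ * S * a ^ (m + 3) - ζ * T * (a * b)) =
      S * (a + ζ * c) ^ (m + 4) + T * ((a + ζ * c) ^ 2 * (b + ξ * c)) := by
  have e0 : m + 4 = (m + 1) + 3 := rfl
  have h := r2_pow (ζ := ζ) r1 r6 (m + 1)
  rw [r2_a2b r1 r5 r6, e0, h]
  linear_combination r6 + ζ ^ 2 * S ^ 2 * a ^ (m + 1) * r3 + ζ ^ 2 * T ^ 2 * (a ^ 2 * r4 + f1 * r3 +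
    f2 * a * r3 + q1 * r2 + q2 * a * r2) - (2 * ζ * S * a ^ (m + 2) + 2 * ζ * T * b) * r1 +
    2 * ζ ^ 2 * S * T * a ^ (m + 1) * r2

theorem r2_bb (r1 : a * c = 0)
    (r4 : b * b = f1 * a ^ (m + 3) + f2 * a ^ (m + 4) + q1 * (a * b) + q2 * (a ^ 2 * b))
    (r5 : b * c = s * a ^ (m + 4) + t * (a ^ 2 * b))
    (r6 : c * c = S * a ^ (m + 4) + T * (a ^ 2 * b)) :
    (b + ξ * c) * (b + ξ * c) = f1 * (a + ζ * c) ^ (m + 3) +
      (f2 + 2 * ξ * s + ξ ^ 2 * S - q1 * ζ * (s + ξ * S)) * (a + ζ * c) ^ (m + 4) +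
      q1 * ((a + ζ * c) * (b + ξ * c)) +
      (q2 + 2 * ξ * t + ξ ^ 2 * T - q1 * ζ * (t + ξ * T)) * ((a + ζ * c) ^ 2 * (b + ξ * c)) := by
  have e0 : m + 4 = (m + 1) + 3 := rfl
  have h := r2_pow (ζ := ζ) r1 r6 (m + 1)
  have h' := r2_pow (ζ := ζ) r1 r6 m
  rw [r2_a2b r1 r5 r6, e0, h, h', r2_ab r1 r5 r6]
  linear_combination r4 + 2 * ξ * r5 + ξ ^ 2 * r6

end ring2

/-- the general case -/
theorem ax_gen [IsAlgClosed k] {n : Type*} [Fintype n] [DecidableEq n]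
    {A B C : Matrix n n k} {v : n → k} {m : ℕ} (hn : Fintype.card n = m + 9)
    (hT : CN ![A, B, C]) (hv : Cyc ![A, B, C] v) {f1 f2 q1 q2 s t S T : k}
    (hAC : A * C = 0) (hA3B : A ^ 3 * B = 0) (hAm : A ^ (m + 5) = 0)
    (hBB : B * B = f1 • A ^ (m + 3) + f2 • A ^ (m + 4) + q1 • (A * B) + q2 • (A ^ 2 * B))
    (hBC : B * C = s • A ^ (m + 4) + t • (A ^ 2 * B))
    (hCC : C * C = S • A ^ (m + 4) + T • (A ^ 2 * B))
    (hq1 : q1 ≠ 0) (hT0 : T ≠ 0) (hd : q1 * S - T * f1 ≠ 0) : Cl ![A, B, C] := by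
  obtain ⟨R, _, _, ρ, a, b, c, hρ, ha, hb, hc⟩ := exists_ring hT
  obtain ⟨ξ, hξ⟩ : ∃ ξ, ξ * (q1 * S - T * f1) = t * f1 - s * q1 :=
    ⟨(t * f1 - s * q1) / (q1 * S - T * f1), div_mul_cancel₀ _ hd⟩
  obtain ⟨ζ, hζ⟩ : ∃ ζ, ζ * (T * q1) = t + ξ * T :=
    ⟨(t + ξ * T) / (T * q1), div_mul_cancel₀ _ (mul_ne_zero hT0 hq1)⟩
  have he2 : t + ξ * T - ζ * T * q1 = 0 := by linear_combination -hζ
  have he1 : s + ξ * S - ζ * T * f1 = 0 := by
    have : q1 * (s + ξ * S - ζ * T * f1) = 0 := by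
      linear_combination hξ - f1 * hζ
    exact (mul_eq_zero.1 this).resolve_left hq1
  have hsm : ∀ (r : k) (x : R), ρ (algebraMap k R r * x) = r • ρ x := by
    intro r x
    rw [map_mul, AlgHom.commutes, Algebra.smul_def]
  have r1 : a * c = 0 := hρ (by rw [map_mul, ha, hc, hAC, map_zero])
  have r2 : a ^ 3 * b = 0 := hρ (by rw [map_mul, map_pow, ha, hb, hA3B, map_zero])
  have r3 : a ^ (m + 5) = 0 := hρ (by rw [map_pow, ha, hAm, map_zero])
  have r4 : b * b = algebraMap k R f1 * a ^ (m + 3) + algebraMap k R f2 * a ^ (m + 4) +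
      algebraMap k R q1 * (a * b) + algebraMap k R q2 * (a ^ 2 * b) := hρ (by
    simp only [map_add, hsm]
    simp only [map_mul, map_pow, ha, hb]
    exact hBB)
  have r5 : b * c = algebraMap k R s * a ^ (m + 4) + algebraMap k R t * (a ^ 2 * b) := hρ (by
    simp only [map_add, hsm]
    simp only [map_mul, map_pow, ha, hb, hc]
    exact hBC)
  have r6 : c * c = algebraMap k R S * a ^ (m + 4) + algebraMap k R T * (a ^ 2 * b) := hρ (by
    simp only [map_add, hsm]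
    simp only [map_mul, map_pow, ha, hb, hc]
    exact hCC)
  have e1 : algebraMap k R s + algebraMap k R ξ * algebraMap k R S -
      algebraMap k R ζ * algebraMap k R T * algebraMap k R f1 = 0 := by
    have := congrArg (algebraMap k R) he1
    simpa only [map_sub, map_add, map_mul, map_zero] using this
  have e2 : algebraMap k R t + algebraMap k R ξ * algebraMap k R T -
      algebraMap k R ζ * algebraMap k R T * algebraMap k R q1 = 0 := by
    have := congrArg (algebraMap k R) he2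
    simpa only [map_sub, map_add, map_mul, map_zero] using this
  obtain ⟨A', hA'⟩ : ∃ A', A' = A + ζ • C := ⟨_, rfl⟩
  obtain ⟨B', hB'⟩ : ∃ B', B' = B + ξ • C := ⟨_, rfl⟩
  obtain ⟨C', hC'⟩ : ∃ C', C' = C - (ζ * S) • A ^ (m + 3) - (ζ * T) • (A * B) := ⟨_, rfl⟩
  have iA : ρ (a + algebraMap k R ζ * c) = A' := by rw [map_add, hsm, ha, hc, hA']
  have iB : ρ (b + algebraMap k R ξ * c) = B' := by rw [map_add, hsm, hb, hc, hB']
  have iC : ρ (c - algebraMap k R ζ * algebraMap k R S * a ^ (m + 3) -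
      algebraMap k R ζ * algebraMap k R T * (a * b)) = C' := by
    rw [← map_mul, ← map_mul, map_sub, map_sub, hsm, hsm, map_mul, map_pow, ha, hb, hc, hC']
  -- membership
  have mA : A ∈ adj ![A, B, C] := mem_adj ![A, B, C] 0
  have mB : B ∈ adj ![A, B, C] := mem_adj ![A, B, C] 1
  have mC : C ∈ adj ![A, B, C] := mem_adj ![A, B, C] 2
  have mp : ∀ i, A ^ (i + 1) ∈ adj ![A, B, C] := by
    intro i
    induction i with
    | zero => rw [zero_add, pow_one]; exact mA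
    | succ i ih => rw [pow_succ]; exact mul_mem ih mA
  have mT' : ∀ i, ![A', B', C'] i ∈ adj ![A, B, C] := by
    intro i
    fin_cases i
    · show A' ∈ _
      rw [hA']
      exact add_mem mA (SMulMemClass.smul_mem _ mC)
    · show B' ∈ _
      rw [hB']
      exact add_mem mB (SMulMemClass.smul_mem _ mC)
    · show C' ∈ _
      rw [hC']
      exact sub_mem (sub_mem mC (SMulMemClass.smul_mem _ (mp _)))
        (SMulMemClass.smul_mem _ (mul_mem mA mB))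
  have tA : A' ∈ adj ![A', B', C'] := mem_adj ![A', B', C'] 0
  have tB : B' ∈ adj ![A', B', C'] := mem_adj ![A', B', C'] 1
  have tC : C' ∈ adj ![A', B', C'] := mem_adj ![A', B', C'] 2
  have sq : ∀ r u : k, r • A ^ (m + 3) + u • (A * B) ∈
      Submodule.span k {M : Matrix n n k | ∃ P ∈ adj ![A, B, C],
      ∃ Q ∈ adj ![A, B, C], M = P * Q} := fun r u =>
    add_mem (Submodule.smul_mem _ _ (Submodule.subset_span ⟨A ^ (m + 2), mp _, A, mA,
      pow_succ _ _⟩)) (Submodule.smul_mem _ _ (Submodule.subset_span ⟨A, mA, B, mB, rfl⟩))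
  have hmem : ∀ i, ![A, B, C] i ∈ adj ![A', B', C'] := by
    refine adj_nak hT mT' ?_
    intro i
    fin_cases i
    · refine ⟨A' - ζ • C', sub_mem tA (SMulMemClass.smul_mem _ tC), ?_⟩
      have : A - (A' - ζ • C') = (-(ζ * (ζ * S))) • A ^ (m + 3) + (-(ζ * (ζ * T))) • (A * B) := by
        rw [hA', hC']; module
      show A - (A' - ζ • C') ∈ _
      rw [this]
      exact sq _ _
    · refine ⟨B' - ξ • C', sub_mem tB (SMulMemClass.smul_mem _ tC), ?_⟩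
      have : B - (B' - ξ • C') = (-(ξ * (ζ * S))) • A ^ (m + 3) + (-(ξ * (ζ * T))) • (A * B) := by
        rw [hB', hC']; module
      show B - (B' - ξ • C') ∈ _
      rw [this]
      exact sq _ _
    · refine ⟨C', tC, ?_⟩
      have : C - C' = (ζ * S) • A ^ (m + 3) + (ζ * T) • (A * B) := by
        rw [hC']; module
      show C - C' ∈ _
      rw [this]
      exact sq _ _
  have hT' : CN ![A', B', C'] := hT.of_adj mT'
  have hv' : Cyc ![A', B', C'] v := hv.of_adj hmem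
  refine cl_of_adj hmem ?_
  refine ax_zero hn hT' hv' (f1 := f1)
    (f2 := f2 + 2 * ξ * s + ξ ^ 2 * S - q1 * ζ * (s + ξ * S)) (q1 := q1)
    (q2 := q2 + 2 * ξ * t + ξ ^ 2 * T - q1 * ζ * (t + ξ * T)) (S := S) (T := T)
    ?_ ?_ ?_ ?_ ?_ ?_ hq1 hT0 hd
  · rw [← iA, ← iC, ← map_mul, r2_ac r1 r6, map_zero]
  · rw [← iB, ← iC, ← map_mul, r2_bc r1 r2 r3 r4 r5 r6 e1 e2, map_zero]
  · rw [← iA, ← iB, ← map_pow, ← map_mul, r2_a3b r1 r2 r6, map_zero]
  · have e0 : m + 5 = (m + 2) + 3 := rfl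
    rw [← iA, ← map_pow, e0, r2_pow r1 r6 (m + 2), ← e0, r3, map_zero]
  · have h := congrArg ρ (r2_bb (ξ := algebraMap k R ξ) (ζ := algebraMap k R ζ) r1 r4 r5 r6)
    have h4 : algebraMap k R f2 + 2 * algebraMap k R ξ * algebraMap k R s +
        algebraMap k R ξ ^ 2 * algebraMap k R S - algebraMap k R q1 * algebraMap k R ζ *
          (algebraMap k R s + algebraMap k R ξ * algebraMap k R S) =
        algebraMap k R (f2 + 2 * ξ * s + ξ ^ 2 * S - q1 * ζ * (s + ξ * S)) := by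
      simp only [map_add, map_sub, map_mul, map_pow, map_ofNat]
    have h5 : algebraMap k R q2 + 2 * algebraMap k R ξ * algebraMap k R t +
        algebraMap k R ξ ^ 2 * algebraMap k R T - algebraMap k R q1 * algebraMap k R ζ *
          (algebraMap k R t + algebraMap k R ξ * algebraMap k R T) =
        algebraMap k R (q2 + 2 * ξ * t + ξ ^ 2 * T - q1 * ζ * (t + ξ * T)) := by
      simp only [map_add, map_sub, map_mul, map_pow, map_ofNat]
    rw [h4, h5] at h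
    rw [map_add, map_add, map_add, hsm, hsm, hsm, hsm] at h
    simp only [map_mul (f := ρ), map_pow (f := ρ), iA, iB] at h
    exact h
  · have h := congrArg ρ (r2_cc (ξ := algebraMap k R ξ) (ζ := algebraMap k R ζ) r1 r2 r3 r4 r5 r6)
    rw [map_add, hsm, hsm] at h
    rw [map_mul, iC] at h
    simp only [map_mul (f := ρ), map_pow (f := ρ), iA, iB] at h
    exact h

end Ta31

end Pool.Agent.Lib.D9
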