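import Pool.Agent.Lib.D9.Ta31D
import Pool.Agent.Lib.D9.Ta31E

/-!
# MP_5dcbc3_ag: Jordan type `(a, 3, 1)`, `a = m + 5`: the case `c0 ≠ 0`, modulo planar triples
-/

namespace Pool.Agent.Lib.D9

open Matrix Polynomial Pool.Agent.Lib.Q5dc Pool.Agent.Lib.D7 Pool.Agent.Lib.D8

variable {k : Type*} [Field k]

theorem Cyc.ext_adj {n : Type*} [Fintype n] [DecidableEq n] {T : Fin 3 → Matrix n n k}
    {v : n → k} (h : Cyc T v) (hT : CN T) {M M' : Matrix n n k} (hM : M ∈ adj T)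
    (hM' : M' ∈ adj T) (hv : M *ᵥ v = M' *ᵥ v) : M = M' :=
  h.ext (fun i => hT.comm (mem_adj T i) hM) (fun i => hT.comm (mem_adj T i) hM') hv

namespace Ta31

set_option linter.unusedSimpArgs false

variable {m : ℕ}

/-! ### the cyclic case -/

/-- the matrix `B` -/
def bB (f1 f2 q1 q2 th et : k) : P k := ⟨1, 0, 0, 0, f1, f2, q1, q2, 0, 0, th, et⟩

/-- the matrix `C` -/
def bC (th et Om Th Et : k) : P k := ⟨0, 0, 0, 0, 0, Om * th, 0, Om * et, Om, 0, Th, Et⟩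

theorem rel_b (f1 f2 q1 q2 th et Om Th Et : k) :
    Rel (bB f1 f2 q1 q2 th et) (bC th et Om Th Et) := by
  refine ⟨?_, ?_, ?_, ?_, ?_, ?_, ?_, ?_, ?_, ?_⟩ <;> simp only [bB, bC] <;> ring

theorem cyc_b {f1 f2 q1 q2 th et Om Th Et : k} (hOm : Om ≠ 0) :
    Cyc ![(J : Matrix (Fin (m + 9)) (Fin (m + 9)) k), mk (bB f1 f2 q1 q2 th et),
      mk (bC th et Om Th Et)] (e 0) := by
  intro S h0 hS
  have hJ : ∀ w ∈ S, J *ᵥ w ∈ S := hS 0
  have s1 : ∀ i, i ≤ m + 4 → e i ∈ S := by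
    intro i
    induction i with
    | zero => intro _; exact h0
    | succ i ih =>
      intro hi
      rw [← J_lt i (by omega)]
      exact hJ _ (ih (by omega))
  have s5 : e (m + 5) ∈ S := by
    have h := hS 1 _ h0
    have h1 : (![(J : Matrix (Fin (m + 9)) (Fin (m + 9)) k), mk (bB f1 f2 q1 q2 th et),
      mk (bC th et Om Th Et)] 1) *ᵥ e 0 = e (m + 5) := by
      show mk (bB f1 f2 q1 q2 th et) *ᵥ e 0 = _
      rw [mk_0]; simp [bB]
    rwa [h1] at h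
  have s6 : e (m + 6) ∈ S := by rw [← J_u]; exact hJ _ s5
  have s7 : e (m + 7) ∈ S := by rw [← J_u1]; exact hJ _ s6
  have s8 : e (m + 8) ∈ S := by
    have h := hS 2 _ h0
    have h1 : (![(J : Matrix (Fin (m + 9)) (Fin (m + 9)) k), mk (bB f1 f2 q1 q2 th et),
      mk (bC th et Om Th Et)] 2) *ᵥ e 0 = Om • e (m + 8) := by
      show mk (bC th et Om Th Et) *ᵥ e 0 = _
      rw [mk_0]; simp [bC]
    rw [h1] at h
    have h2 := S.smul_mem Om⁻¹ h
    rwa [smul_smul, inv_mul_cancel₀ hOm, one_smul] at h2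
  rw [eq_top_iff]
  intro w _
  rw [vec_sum w]
  refine Submodule.sum_mem _ fun i _ => Submodule.smul_mem _ _ ?_
  have hi := i.isLt
  rcases (by omega : (i : ℕ) ≤ m + 4 ∨ (i : ℕ) = m + 5 ∨ (i : ℕ) = m + 6 ∨ (i : ℕ) = m + 7 ∨
    (i : ℕ) = m + 8) with h | h | h | h | h
  · exact s1 _ h
  · rw [h]; exact s5
  · rw [h]; exact s6
  · rw [h]; exact s7
  · rw [h]; exact s8

theorem beta_gen [IsAlgClosed k] {f1 f2 q1 q2 th et Om Th Et : k} (hOm : Om ≠ 0) (hq : q1 ≠ 0)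
    (hEt : Et ≠ 0) (hd : q1 * Th - Et * f1 ≠ 0) :
    G m (bB f1 f2 q1 q2 th et) (bC th et Om Th Et) := by
  have hT := cn_of_rel (m := m) (rel_b f1 f2 q1 q2 th et Om Th Et)
  have hv := cyc_b (m := m) (f1 := f1) (f2 := f2) (q1 := q1) (q2 := q2) (th := th) (et := et)
    (Th := Th) (Et := Et) hOm
  obtain ⟨B, hB⟩ : ∃ B : Matrix (Fin (m + 9)) (Fin (m + 9)) k, B = mk (bB f1 f2 q1 q2 th et) :=
    ⟨_, rfl⟩
  obtain ⟨C, hC⟩ : ∃ C : Matrix (Fin (m + 9)) (Fin (m + 9)) k, C = mk (bC th et Om Th Et) :=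
    ⟨_, rfl⟩
  show Cl ![J, mk _, mk _]
  rw [← hB, ← hC] at hT hv ⊢
  have mA : J ∈ adj ![J, B, C] := mem_adj ![J, B, C] 0
  have mB : B ∈ adj ![J, B, C] := mem_adj ![J, B, C] 1
  have mC : C ∈ adj ![J, B, C] := mem_adj ![J, B, C] 2
  have m2 : J ^ 2 ∈ adj ![J, B, C] := Jpow_mem mA 1
  have m3 : J ^ 3 ∈ adj ![J, B, C] := Jpow_mem mA 2
  have v1 : B *ᵥ e 0 = e (m + 5) := by rw [hB, mk_0]; simp [bB]
  have v2 : C *ᵥ e 0 = Om • e (m + 8) := by rw [hC, mk_0]; simp [bC]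
  have v3 : B *ᵥ e (m + 5) = f1 • e (m + 3) + f2 • e (m + 4) + q1 • e (m + 6) +
      q2 • e (m + 7) := by
    rw [hB, mk_u]; simp [bB]
  have v4 : B *ᵥ (C *ᵥ e 0) = (Om * th) • e (m + 4) + (Om * et) • e (m + 7) := by
    rw [hB, hC, mk_mk_0]; simp [bB, bC]
  have v5 : C *ᵥ (C *ᵥ e 0) = (Om * Th) • e (m + 4) + (Om * Et) • e (m + 7) := by
    rw [hC, mk_mk_0]; simp [bC]
  have v6 : (J : Matrix (Fin (m + 9)) (Fin (m + 9)) k) ^ 2 *ᵥ e (m + 5) = e (m + 7) := by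
    rw [pow_two, ← Matrix.mulVec_mulVec, J_u, J_u1]
  refine ax_gen (A := J) (B := B) (C := C) (v := e 0) (m := m) (by simp) hT hv (f1 := f1)
    (f2 := f2) (q1 := q1) (q2 := q2) (s := Om * th) (t := Om * et) (S := Om * Th) (T := Om * Et)
    ?_ ?_ ?_ ?_ ?_ ?_ hq (mul_ne_zero hOm hEt) ?_
  · refine hv.ext_adj hT (mul_mem mA mC) (zero_mem _) ?_
    rw [← Matrix.mulVec_mulVec, v2, Matrix.mulVec_smul, J_p, smul_zero, Matrix.zero_mulVec]
  · refine hv.ext_adj hT (mul_mem m3 mB) (zero_mem _) ?_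
    have := Jpow_u (k := k) (m := m) 0
    rw [zero_add] at this
    rw [← Matrix.mulVec_mulVec, v1, this, Matrix.zero_mulVec]
  · refine hv.ext_adj hT (Jpow_mem mA (m + 4)) (zero_mem _) ?_
    rw [Jpow_ge (m + 5) 0 (by omega) (by omega), Matrix.zero_mulVec]
  · refine hv.ext_adj hT (mul_mem mB mB) (add_mem (add_mem (add_mem
      (SMulMemClass.smul_mem _ (Jpow_mem mA (m + 2))) (SMulMemClass.smul_mem _ (Jpow_mem mA _)))
      (SMulMemClass.smul_mem _ (mul_mem mA mB))) (SMulMemClass.smul_mem _ (mul_mem m2 mB))) ?_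
    simp only [Matrix.add_mulVec, Matrix.smul_mulVec, ← Matrix.mulVec_mulVec, v3, J3_0, J4_0, v1,
      J_u, v6]
  · refine hv.ext_adj hT (mul_mem mB mC) (add_mem
      (SMulMemClass.smul_mem _ (Jpow_mem mA _)) (SMulMemClass.smul_mem _ (mul_mem m2 mB))) ?_
    simp only [Matrix.add_mulVec, Matrix.smul_mulVec, ← Matrix.mulVec_mulVec, v4, J4_0, v1, v6]
  · refine hv.ext_adj hT (mul_mem mC mC) (add_mem
      (SMulMemClass.smul_mem _ (Jpow_mem mA _)) (SMulMemClass.smul_mem _ (mul_mem m2 mB))) ?_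
    simp only [Matrix.add_mulVec, Matrix.smul_mulVec, ← Matrix.mulVec_mulVec, v5, J4_0, v1, v6]
  · have : q1 * (Om * Th) - Om * Et * f1 = Om * (q1 * Th - Et * f1) := by ring
    rw [this]
    exact mul_ne_zero hOm hd

/-- the cyclic case with `f0 = pi = 0` -/
theorem beta [IsAlgClosed k] [CharZero k] (f1 f2 q1 q2 th et Om Th Et : k) :
    G m (bB f1 f2 q1 q2 th et) (bC th et Om Th Et) := by
  have hk : Infinite k := IsAlgClosed.instInfinite
  have hc : ∀ a : k, D7.IsPoly fun _ : k => a := D7.IsPoly.const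
  have ha : ∀ a : k, D7.IsPoly fun s : k => a + s := fun a => (hc a).add D7.IsPoly.id
  have hfin : ∀ a : k, {s : k | a + s = 0}.Finite := fun a =>
    (Set.finite_singleton (-a)).subset fun s hs => by
      have h1 : a + s = 0 := hs
      exact Set.mem_singleton_iff.2 (by linear_combination h1)
  have hdisc : {s : k | (q1 + s) * (Th + s) - (Et + s) * f1 = 0}.Finite := by
    have hP : D7.IsPoly fun s : k => (q1 + s) * (Th + s) - (Et + s) * f1 :=
      ((ha q1).mul (ha Th)).sub ((ha Et).mul (hc f1))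
    by_contra hinf
    have hz : ∀ s : k, (q1 + s) * (Th + s) - (Et + s) * f1 = 0 := by
      intro s
      by_contra hs
      exact hinf (hP.finite hs)
    have h0 := hz 0
    have h1 := hz 1
    have h2 := hz (-1)
    have h3 : (2 : k) = 0 := by linear_combination h1 + h2 - 2 * h0
    exact absurd h3 (by norm_num)
  have h := G_limit (m := m) (x := fun s => bB f1 f2 (q1 + s) q2 th et)
    (y := fun s => bC th et (Om + s) (Th + s) (Et + s))
    ⟨hc _, hc _, hc _, hc _, hc _, hc _, ha _, hc _, hc _, hc _, hc _, hc _⟩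
    ⟨hc _, hc _, hc _, hc _, hc _, (ha _).mul (hc _), hc _, (ha _).mul (hc _), ha _, hc _, ha _,
      ha _⟩
    (((hfin q1).union (hfin Om)).union (hfin Et) |>.union hdisc) (by
      intro s hs
      simp only [Set.mem_union, Set.mem_ofPred_eq, not_or] at hs
      obtain ⟨⟨⟨n1, n2⟩, n3⟩, n4⟩ := hs
      exact beta_gen n2 n1 n3 n4)
  simpa only [add_zero] using h

/-! ### reduction to planar triples -/

/-- the matrix `B` -/
def aB (f0 f1 f2 q1 q2 pi th et : k) : P k := ⟨1, 0, 0, f0, f1, f2, q1, q2, 0, pi, th, et⟩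

theorem aC_eq {f0 f1 f2 q1 q2 pi th et Om Th : k} (hpi : pi ≠ 0) (h : Om * et * f0 = pi * Th) :
    (mk (bC th et Om Th 0) : Matrix (Fin (m + 9)) (Fin (m + 9)) k) =
      (Om / pi) • (mk (aB f0 f1 f2 q1 q2 pi th et) * mk (aB f0 f1 f2 q1 q2 pi th et) -
        f0 • J ^ (m + 2) - f1 • J ^ (m + 3) - f2 • J ^ (m + 4) -
        q1 • (J * mk (aB f0 f1 f2 q1 q2 pi th et)) -
        q2 • (J ^ 2 * mk (aB f0 f1 f2 q1 q2 pi th et))) := by
  obtain ⟨B, hB⟩ : ∃ B : Matrix (Fin (m + 9)) (Fin (m + 9)) k,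
    B = mk (aB f0 f1 f2 q1 q2 pi th et) := ⟨_, rfl⟩
  have hJB : J * B = B * J := by rw [hB, J_mk]
  have c2 : J * (J ^ 2 * B) = J ^ 2 * B * J := JJ_mul _ hJB _
  have v1 : B *ᵥ e 0 = e (m + 5) := by rw [hB, mk_0]; simp [aB]
  have v2 : B *ᵥ (B *ᵥ e 0) = f0 • e (m + 2) + f1 • e (m + 3) + f2 • e (m + 4) + q1 • e (m + 6) +
      q2 • e (m + 7) + pi • e (m + 8) := by
    rw [hB, mk_mk_0]; simp [aB]
  have v3 : B *ᵥ e (m + 5) = f0 • e (m + 2) + f1 • e (m + 3) + f2 • e (m + 4) + q1 • e (m + 6) +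
      q2 • e (m + 7) + pi • e (m + 8) := by
    rw [hB, mk_u]; simp [aB]
  have v4 : B *ᵥ (B *ᵥ e (m + 5)) = (q1 * f0) • e (m + 3) + (q1 * f1 + q2 * f0 + pi * th) •
      e (m + 4) + (f0 * (if m = 0 then 1 else 0) + q1 * q1 + pi * et) • e (m + 7) := by
    rw [hB, mk_mk_u]; simp [aB]
  have v5 : B *ᵥ e (m + 8) = th • e (m + 4) + et • e (m + 7) := by
    rw [hB, mk_p]; simp [aB]
  have v6 : B *ᵥ (B *ᵥ e (m + 8)) = (et * f0) • e (m + 4) := by
    rw [hB, mk_mk_p]; simp [aB]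
  have j2 : (J : Matrix (Fin (m + 9)) (Fin (m + 9)) k) ^ (m + 2) *ᵥ e 0 = e (m + 2) :=
    Jpow_0 _ (by omega)
  have j5 : (J : Matrix (Fin (m + 9)) (Fin (m + 9)) k) ^ (m + 2) *ᵥ e (m + 5) =
      (if m = 0 then (1 : k) else 0) • e (m + 7) := by
    by_cases hm : m = 0
    · subst hm
      rw [if_pos rfl, one_smul]
      show (J : Matrix (Fin (0 + 9)) (Fin (0 + 9)) k) ^ 2 *ᵥ e (0 + 5) = e (0 + 7)
      rw [pow_two, ← Matrix.mulVec_mulVec, J_u (m := 0), J_u1 (m := 0)]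
    · obtain ⟨i, rfl⟩ : ∃ i, m = i + 1 := ⟨m - 1, by omega⟩
      rw [if_neg hm, zero_smul]
      exact Jpow_u i
  have q5 : (J : Matrix (Fin (m + 9)) (Fin (m + 9)) k) ^ 2 *ᵥ e (m + 5) = e (m + 7) := by
    rw [pow_two, ← Matrix.mulVec_mulVec, J_u, J_u1]
  have j8 : (J : Matrix (Fin (m + 9)) (Fin (m + 9)) k) ^ (m + 2) *ᵥ e (m + 8) = 0 := Jpow_p _
  have e2 : ∀ w : Fin (m + 9) → k, J ^ 2 *ᵥ w = J *ᵥ (J *ᵥ w) := by
    intro w
    rw [pow_two, ← Matrix.mulVec_mulVec]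
  have hR : J * ((Om / pi) • (B * B - f0 • J ^ (m + 2) - f1 • J ^ (m + 3) - f2 • J ^ (m + 4) -
        q1 • (J * B) - q2 • (J ^ 2 * B))) = ((Om / pi) • (B * B - f0 • J ^ (m + 2) -
        f1 • J ^ (m + 3) - f2 • J ^ (m + 4) - q1 • (J * B) - q2 • (J ^ 2 * B))) * J := by
    simp only [Matrix.mul_smul, Matrix.smul_mul, mul_sub, sub_mul, JM_mul hJB hJB, J_pow_comm,
      JM_mul rfl hJB, c2]
  rw [← hB]
  refine ext_gen (J_mk _) hR ?_ ?_ ?_
  · rw [mk_0]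
    simp only [Matrix.smul_mulVec, Matrix.sub_mulVec, ← Matrix.mulVec_mulVec, v2, j2, J3_0, J4_0]
    simp only [v1, J_u, q5, bC]
    have : f0 • (e (m + 2) : Fin (m + 9) → k) + f1 • e (m + 3) + f2 • e (m + 4) + q1 • e (m + 6) +
        q2 • e (m + 7) + pi • e (m + 8) - f0 • e (m + 2) - f1 • e (m + 3) - f2 • e (m + 4) -
        q1 • e (m + 6) - q2 • e (m + 7) = pi • e (m + 8) := by abel
    rw [this, smul_smul, div_mul_cancel₀ _ hpi]
    simp
  · rw [mk_u]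
    simp only [Matrix.smul_mulVec, Matrix.sub_mulVec, ← Matrix.mulVec_mulVec, v4, j5, J3_u, J4_u,
      e2]
    simp only [v3, Matrix.mulVec_add, Matrix.mulVec_smul, J_a2, J_a1, J_a, J_u1, J_u2, J_p, bC,
      smul_zero, add_zero, sub_zero, zero_smul, zero_add, Matrix.mulVec_zero]
    have : ∀ ι : k, (q1 * f0) • (e (m + 3) : Fin (m + 9) → k) + (q1 * f1 + q2 * f0 + pi * th) •
        e (m + 4) + (f0 * ι + q1 * q1 + pi * et) • e (m + 7) - f0 • ι • e (m + 7) -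
        q1 • (f0 • e (m + 3) + f1 • e (m + 4) + q1 • e (m + 7)) - q2 • f0 • e (m + 4) =
        pi • (th • e (m + 4) + et • e (m + 7)) := by
      intro ι; module
    rw [this, smul_smul, div_mul_cancel₀ _ hpi, smul_add, smul_smul, smul_smul]
  · rw [mk_p]
    simp only [Matrix.smul_mulVec, Matrix.sub_mulVec, ← Matrix.mulVec_mulVec, v6, j8, J3_p, J4_p,
      e2]
    simp only [v5, Matrix.mulVec_add, Matrix.mulVec_smul, J_a, J_u2, bC,
      smul_zero, add_zero, sub_zero, zero_smul, Matrix.mulVec_zero]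
    rw [smul_smul]
    congr 1
    field_simp
    linear_combination -h

/-- the case `pi ≠ 0` -/
theorem alpha_pi (hpl : ∀ x : P k, G m x 0) {f0 f1 f2 q1 q2 pi th et Om Th : k} (hpi : pi ≠ 0)
    (h : Om * et * f0 = pi * Th) : G m (aB f0 f1 f2 q1 q2 pi th et) (bC th et Om Th 0) := by
  have h0 := hpl (aB f0 f1 f2 q1 q2 pi th et)
  set x := aB f0 f1 f2 q1 q2 pi th et with hx
  have m0 : (J : Matrix (Fin (m + 9)) (Fin (m + 9)) k) ∈ adj ![J, mk x, mk 0] :=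
    mem_adj ![(J : Matrix (Fin (m + 9)) (Fin (m + 9)) k), mk x, mk 0] 0
  have m1 : mk x ∈ adj ![(J : Matrix (Fin (m + 9)) (Fin (m + 9)) k), mk x, mk 0] :=
    mem_adj ![(J : Matrix (Fin (m + 9)) (Fin (m + 9)) k), mk x, mk 0] 1
  refine cl_of_adj (fun i => ?_) h0
  fin_cases i
  · exact m0
  · exact m1
  · show mk (bC th et Om Th 0) ∈ _
    rw [aC_eq (f0 := f0) (f1 := f1) (f2 := f2) (q1 := q1) (q2 := q2) hpi h, ← hx]
    exact SMulMemClass.smul_mem _ (sub_mem (sub_mem (sub_mem (sub_mem (sub_mem (mul_mem m1 m1)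
      (SMulMemClass.smul_mem _ (Jpow_mem m0 _))) (SMulMemClass.smul_mem _ (Jpow_mem m0 _)))
      (SMulMemClass.smul_mem _ (Jpow_mem m0 _))) (SMulMemClass.smul_mem _ (mul_mem m0 m1)))
      (SMulMemClass.smul_mem _ (mul_mem (Jpow_mem m0 1) m1)))

/-- the case `Et = 0` -/
theorem alpha [Infinite k] (hpl : ∀ x : P k, G m x 0) {f0 f1 f2 q1 q2 pi th et Om Th : k}
    (h : Om * et * f0 = pi * Th) : G m (aB f0 f1 f2 q1 q2 pi th et) (bC th et Om Th 0) := by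
  have hc : ∀ a : k, D7.IsPoly fun _ : k => a := D7.IsPoly.const
  have ha : ∀ a : k, D7.IsPoly fun s : k => a + s := fun a => (hc a).add D7.IsPoly.id
  have hfin : ∀ a : k, {s : k | a + s = 0}.Finite := fun a =>
    (Set.finite_singleton (-a)).subset fun s hs => by
      have h1 : a + s = 0 := hs
      exact Set.mem_singleton_iff.2 (by linear_combination h1)
  by_cases hTh : Th = 0
  · subst hTh
    have h1 := G_limit (m := m) (x := fun s => aB f0 f1 f2 q1 q2 (pi + s) th et)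
      (y := fun _ => bC th et Om 0 0)
      ⟨hc _, hc _, hc _, hc _, hc _, hc _, hc _, hc _, hc _, ha _, hc _, hc _⟩ (PP.const _)
      (hfin pi) (by
        intro s hs
        exact alpha_pi hpl hs (by linear_combination h))
    simpa only [add_zero] using h1
  · have h1 := G_limit (m := m)
      (x := fun s => aB (f0 + s) f1 f2 q1 q2 ((Om + s) * (et + s) * (f0 + s) * Th⁻¹) th (et + s))
      (y := fun s => bC th (et + s) (Om + s) Th 0)
      ⟨hc _, hc _, hc _, ha _, hc _, hc _, hc _, hc _, hc _,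
        (((ha _).mul (ha _)).mul (ha _)).mul (hc _), hc _, ha _⟩
      ⟨hc _, hc _, hc _, hc _, hc _, (ha _).mul (hc _), hc _, (ha _).mul (ha _), ha _, hc _, hc _,
        hc _⟩
      (((hfin f0).union (hfin et)).union (hfin Om)) (by
        intro s hs
        simp only [Set.mem_union, Set.mem_ofPred_eq, not_or] at hs
        obtain ⟨⟨n1, n2⟩, n3⟩ := hs
        refine alpha_pi hpl (mul_ne_zero (mul_ne_zero (mul_ne_zero n3 n2) n1) (inv_ne_zero hTh)) ?_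
        field_simp)
    have h2 : Om * et * f0 * Th⁻¹ = pi := by
      rw [h, mul_assoc, mul_inv_cancel₀ hTh, mul_one]
    simp only [add_zero, h2] at h1
    exact h1

/-! ### the case `c0 = 1`, `C0 = 0` -/

/-- change of the second generator -/
theorem conj3 (c1 c2 om f0 f1 f2 q1 q2 pi th et : k) :
    mk ⟨1, c1, c2, f0, f1, f2, q1, q2, om, pi, th, et⟩ *
      (1 + mk ⟨0, 0, 0, 0, 0, 0, c1, c2, 0, om, 0, 0⟩) =
    (1 + mk ⟨0, 0, 0, 0, 0, 0, c1, c2, 0, om, 0, 0⟩) *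
      ((mk (aB f0 (f1 + c1 * f0) (f2 + c1 * f1 + c2 * f0 + om * th) q1 (q2 + om * et) pi th et) :
        Matrix (Fin (m + 9)) (Fin (m + 9)) k) + (0 : k) • J ^ (m + 2) +
        (0 : k) • J ^ (m + 3) + (0 : k) • J ^ (m + 4)) := by
  refine ext_gen (JM_mul (J_mk _) (J_one_add _)) (JM_mul (J_one_add _) (J_sum _ _ _ _)) ?_ ?_ ?_
  · rw [← Matrix.mulVec_mulVec, ← Matrix.mulVec_mulVec]
    simp only [Matrix.add_mulVec, Matrix.one_mulVec, Matrix.smul_mulVec, Matrix.mulVec_add,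
      Matrix.mulVec_smul, mk_0, zero_smul, aB, mk_u, mk_u1, mk_u2, mk_p, mk_a, mk_a1,
      Matrix.zero_mulVec, Matrix.mulVec_zero, smul_zero, add_zero, zero_add]
    module
  · rw [← Matrix.mulVec_mulVec, ← Matrix.mulVec_mulVec]
    simp only [Matrix.add_mulVec, Matrix.one_mulVec, Matrix.smul_mulVec, Matrix.mulVec_add,
      Matrix.mulVec_smul, zero_smul, aB, mk_u, mk_u1, mk_u2, mk_p, mk_a, mk_a1, mk_m2,
      Matrix.mulVec_zero, ite_self, Matrix.zero_mulVec, smul_zero, add_zero, zero_add]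
    module
  · rw [← Matrix.mulVec_mulVec, ← Matrix.mulVec_mulVec]
    simp only [Matrix.add_mulVec, Matrix.one_mulVec, Matrix.smul_mulVec, Matrix.mulVec_add,
      Matrix.mulVec_smul, zero_smul, aB, mk_u, mk_u1, mk_u2, mk_p, mk_a, mk_a1,
      Matrix.mulVec_zero, Matrix.zero_mulVec, smul_zero, add_zero, zero_add]

theorem conj4 (c1 c2 om C1 C2 F1 F2 Q2 Om Th Et : k) :
    mk ⟨0, C1, C2, 0, F1, F2, 0, Q2, Om, 0, Th, Et⟩ *
      (1 + mk ⟨0, 0, 0, 0, 0, 0, c1, c2, 0, om, 0, 0⟩) =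
    (1 + mk ⟨0, 0, 0, 0, 0, 0, c1, c2, 0, om, 0, 0⟩) *
      ((mk (QQ F1 (F2 + c1 * F1 + om * Th) C1 (C2 - c1 * C1) 0 (Q2 + om * Et) Om 0 Th Et) :
        Matrix (Fin (m + 9)) (Fin (m + 9)) k) + (0 : k) • J ^ (m + 2) +
        (0 : k) • J ^ (m + 3) + (0 : k) • J ^ (m + 4)) := by
  refine ext_gen (JM_mul (J_mk _) (J_one_add _)) (JM_mul (J_one_add _) (J_sum _ _ _ _)) ?_ ?_ ?_
  · rw [← Matrix.mulVec_mulVec, ← Matrix.mulVec_mulVec]
    simp only [Matrix.add_mulVec, Matrix.one_mulVec, Matrix.smul_mulVec, Matrix.mulVec_add,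
      Matrix.mulVec_smul, mk_0, zero_smul, QQ, mk_u, mk_u1, mk_u2, mk_p, mk_a, mk_a1,
      Matrix.zero_mulVec, Matrix.mulVec_zero, smul_zero, add_zero, zero_add]
    module
  · rw [← Matrix.mulVec_mulVec, ← Matrix.mulVec_mulVec]
    simp only [Matrix.add_mulVec, Matrix.one_mulVec, Matrix.smul_mulVec, Matrix.mulVec_add,
      Matrix.mulVec_smul, zero_smul, QQ, mk_u, mk_u1, mk_u2, mk_p, mk_a, mk_a1, mk_m2,
      Matrix.mulVec_zero, ite_self, Matrix.zero_mulVec, smul_zero, add_zero, zero_add]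
    module
  · rw [← Matrix.mulVec_mulVec, ← Matrix.mulVec_mulVec]
    simp only [Matrix.add_mulVec, Matrix.one_mulVec, Matrix.smul_mulVec, Matrix.mulVec_add,
      Matrix.mulVec_smul, zero_smul, QQ, mk_u, mk_u1, mk_u2, mk_p, mk_a, mk_a1,
      Matrix.mulVec_zero, Matrix.zero_mulVec, smul_zero, add_zero, zero_add]

theorem J_aB (f0 f1 f2 q1 q2 pi th et : k) :
    (J : Matrix (Fin (m + 9)) (Fin (m + 9)) k) * mk (aB f0 f1 f2 q1 q2 pi th et) =
      mk (QQ f0 f1 1 0 0 q1 0 0 0 0) := by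
  refine ext_gen (JM_mul rfl (J_mk _)) (J_mk _) ?_ ?_ ?_
  · rw [← Matrix.mulVec_mulVec]
    simp [Matrix.mulVec_add, Matrix.mulVec_smul, mk_0, aB, QQ, J_u, J_u1, J_u2, J_p]
  · rw [← Matrix.mulVec_mulVec]
    simp [Matrix.mulVec_add, Matrix.mulVec_smul, mk_u, aB, QQ, J_u1, J_u2, J_p, J_a2, J_a1, J_a]
  · rw [← Matrix.mulVec_mulVec]
    simp [Matrix.mulVec_add, Matrix.mulVec_smul, mk_p, aB, QQ, J_u2, J_a]

theorem JJ_aB (f0 f1 f2 q1 q2 pi th et : k) :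
    (J : Matrix (Fin (m + 9)) (Fin (m + 9)) k) * (J * mk (aB f0 f1 f2 q1 q2 pi th et)) =
      mk (QQ 0 f0 0 1 0 0 0 0 0 0) := by
  rw [J_aB, J_mul_QQ]

/-- adding multiples of `A B` and `A^2 B` to `C` -/
theorem G.addB {f0 f1 f2 q1 q2 pi th et F1 F2 C1 C2 Q1 Q2 Om Pi Th Et : k}
    (h : G m (aB f0 f1 f2 q1 q2 pi th et) (QQ F1 F2 C1 C2 Q1 Q2 Om Pi Th Et)) (r s : k) :
    G m (aB f0 f1 f2 q1 q2 pi th et) (QQ (F1 + r * f0) (F2 + r * f1 + s * f0) (C1 + r)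
      (C2 + s) Q1 (Q2 + r * q1) Om Pi Th Et) := by
  set x := aB f0 f1 f2 q1 q2 pi th et with hx
  set y := QQ F1 F2 C1 C2 Q1 Q2 Om Pi Th Et with hy
  have m0 : (J : Matrix (Fin (m + 9)) (Fin (m + 9)) k) ∈ adj ![J, mk x, mk y] :=
    mem_adj ![(J : Matrix (Fin (m + 9)) (Fin (m + 9)) k), mk x, mk y] 0
  have m1 : mk x ∈ adj ![(J : Matrix (Fin (m + 9)) (Fin (m + 9)) k), mk x, mk y] :=
    mem_adj ![(J : Matrix (Fin (m + 9)) (Fin (m + 9)) k), mk x, mk y] 1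
  have m2 : mk y ∈ adj ![(J : Matrix (Fin (m + 9)) (Fin (m + 9)) k), mk x, mk y] :=
    mem_adj ![(J : Matrix (Fin (m + 9)) (Fin (m + 9)) k), mk x, mk y] 2
  have m3 := mul_mem m0 m1
  have m4 := mul_mem m0 m3
  rw [hx, J_aB] at m3
  rw [hx, JJ_aB] at m4
  refine cl_of_adj (fun i => ?_) h
  fin_cases i
  · exact m0
  · exact m1
  · show mk _ ∈ _
    have e1 : QQ (F1 + r * f0) (F2 + r * f1 + s * f0) (C1 + r)
      (C2 + s) Q1 (Q2 + r * q1) Om Pi Th Et = y + r • QQ f0 f1 1 0 0 q1 0 0 0 0 +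
        s • QQ 0 f0 0 1 0 0 0 0 0 0 := by
      rw [hy, QQ_smul, QQ_smul, QQ_add, QQ_add]
      congr 1 <;> ring
    rw [e1, mk_add, mk_add, mk_smul, mk_smul]
    exact add_mem (add_mem m2 (SMulMemClass.smul_mem _ m3)) (SMulMemClass.smul_mem _ m4)

/-- the case `c0 = 1`, `C0 = 0` -/
theorem cl_one [IsAlgClosed k] [CharZero k] (hpl : ∀ x : P k, G m x 0)
    {c1 c2 f0 f1 f2 q1 q2 om pi th et : k} {y : P k} (hy : y.c0 = 0)
    (h : Rel ⟨1, c1, c2, f0, f1, f2, q1, q2, om, pi, th, et⟩ y) :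
    G m ⟨1, c1, c2, f0, f1, f2, q1, q2, om, pi, th, et⟩ y := by
  have hk : Infinite k := IsAlgClosed.instInfinite
  obtain ⟨a0, a1, a2, b1, b2, b3, d1, d2, d3, g⟩ := h
  obtain ⟨C0, C1, C2, F0, F1, F2, Q1, Q2, Om, Pi, Th, Et⟩ := y
  simp only at hy a0 a1 a2 b1 b2 b3 d1 d2 d3 g
  subst hy
  have hF0 : F0 = 0 := by linear_combination -a0
  have hQ1 : Q1 = 0 := by linear_combination -b1
  have hPi : Pi = 0 := by linear_combination -b3
  subst hF0 hQ1 hPi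
  have hF1 : F1 = C1 * f0 := by linear_combination -a1
  have hg : Et * f0 = 0 := by linear_combination g
  have hd3 : pi * Et = 0 := by linear_combination -d3
  have hQ2 : Q2 + om * Et = C1 * q1 + Om * et := by linear_combination -b2
  have hF2 : F2 + c1 * F1 + om * Th = C1 * f1 + C2 * f0 + Om * th := by linear_combination -a2
  have hrel : Om * et * f0 = pi * Th := by
    linear_combination d2 - f0 * hQ2 + om * hg + q1 * hF1
  refine G.conjN (conj3 c1 c2 om f0 f1 f2 q1 q2 pi th et)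
    (conj4 c1 c2 om C1 C2 F1 F2 Q2 Om Th Et) ?_
  have key : G m (aB f0 (f1 + c1 * f0) (f2 + c1 * f1 + c2 * f0 + om * th) q1 (q2 + om * et) pi
      th et) (QQ 0 (Om * th) 0 0 0 (Om * et) Om 0 Th Et) := by
    by_cases hEt : Et = 0
    · subst hEt
      exact alpha hpl hrel
    · have hf0 : f0 = 0 := (mul_eq_zero.1 hg).resolve_left hEt
      have hpi : pi = 0 := (mul_eq_zero.1 hd3).resolve_right hEt
      subst hf0 hpi
      exact beta _ _ _ _ _ _ _ _ _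
  have h2 := key.addB C1 (C2 - c1 * C1)
  convert h2 using 2
  · rw [hF1]; ring
  · linear_combination hF2
  · ring
  · ring
  · linear_combination hQ2

theorem cl_c0 [IsAlgClosed k] [CharZero k] (hpl : ∀ x : P k, G m x 0) {x y : P k}
    (hx : x.c0 ≠ 0) (h : Rel x y) : G m x y := by
  have hR : Rel (x.c0⁻¹ • x) (y - (y.c0 * x.c0⁻¹) • x) := by
    have h1 := cn_of_rel (m := m) h
    apply rel_of_comm (m := m)
    rw [mk_sub, mk_smul, mk_smul]
    have h2 : (mk x : Matrix (Fin (m + 9)) (Fin (m + 9)) k) * mk y = mk y * mk x := comm_of_rel h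
    simp only [mul_sub, sub_mul, Matrix.smul_mul, Matrix.mul_smul, h2, smul_sub]
    rw [smul_comm]
  have h1 : (x.c0⁻¹ • x : P k) = ⟨1, x.c0⁻¹ * x.c1, x.c0⁻¹ * x.c2, x.c0⁻¹ * x.f0, x.c0⁻¹ * x.f1,
      x.c0⁻¹ * x.f2, x.c0⁻¹ * x.q1, x.c0⁻¹ * x.q2, x.c0⁻¹ * x.om, x.c0⁻¹ * x.pi, x.c0⁻¹ * x.th,
      x.c0⁻¹ * x.et⟩ := by
    show (⟨x.c0⁻¹ * x.c0, _, _, _, _, _, _, _, _, _, _, _⟩ : P k) = _
    rw [inv_mul_cancel₀ hx]
  rw [h1] at hR
  have h2 : (y - (y.c0 * x.c0⁻¹) • x : P k).c0 = 0 := by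
    show y.c0 - y.c0 * x.c0⁻¹ * x.c0 = 0
    rw [mul_assoc, inv_mul_cancel₀ hx, mul_one, sub_self]
  have h3 := cl_one hpl h2 hR
  rw [← h1] at h3
  have m0 := mem_adj ![(J : Matrix (Fin (m + 9)) (Fin (m + 9)) k), mk (x.c0⁻¹ • x),
    mk (y - (y.c0 * x.c0⁻¹) • x)] 0
  have m1 := mem_adj ![(J : Matrix (Fin (m + 9)) (Fin (m + 9)) k), mk (x.c0⁻¹ • x),
    mk (y - (y.c0 * x.c0⁻¹) • x)] 1
  have m2 := mem_adj ![(J : Matrix (Fin (m + 9)) (Fin (m + 9)) k), mk (x.c0⁻¹ • x),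
    mk (y - (y.c0 * x.c0⁻¹) • x)] 2
  have e1 : (mk x : Matrix (Fin (m + 9)) (Fin (m + 9)) k) = x.c0 • mk (x.c0⁻¹ • x) := by
    rw [mk_smul, smul_smul, mul_inv_cancel₀ hx, one_smul]
  have mx : mk x ∈ adj ![(J : Matrix (Fin (m + 9)) (Fin (m + 9)) k), mk (x.c0⁻¹ • x),
      mk (y - (y.c0 * x.c0⁻¹) • x)] := by
    rw [e1]
    exact SMulMemClass.smul_mem _ m1
  refine cl_of_adj (fun i => ?_) h3
  fin_cases i
  · exact m0
  · exact mx
  · show mk y ∈ _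
    have e2 : (mk y : Matrix (Fin (m + 9)) (Fin (m + 9)) k) =
        mk (y - (y.c0 * x.c0⁻¹) • x) + (y.c0 * x.c0⁻¹) • mk x := by
      rw [mk_sub, mk_smul, sub_add_cancel]
    rw [e2]
    exact add_mem m2 (SMulMemClass.smul_mem _ mx)

/-- all commuting pairs, modulo planar triples -/
theorem cl_rel [IsAlgClosed k] [CharZero k] (hpl : ∀ x : P k, G m x 0) {x y : P k}
    (h : Rel x y) : G m x y := by
  by_cases h1 : x.c0 = 0
  · by_cases h2 : y.c0 = 0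
    · by_cases h3 : x.f0 = 0
      · by_cases h4 : y.f0 = 0
        · exact cl_II h1 h3 h2 h4 h
        · exact G.dual (G.swap (cl_c0 hpl (x := du y) h4 h.dual.swap))
      · exact G.dual (cl_c0 hpl (x := du x) h3 h.dual)
    · exact G.swap (cl_c0 hpl h2 h.swap)
  · exact cl_c0 hpl h1 h

/-- type `(m + 5, 3, 1)`, modulo planar triples -/
theorem cl_T [IsAlgClosed k] [CharZero k] (hpl : ∀ x : P k, G m x 0)
    {T : Fin 3 → Matrix (Fin (m + 9)) (Fin (m + 9)) k} (hT : CN T) (h0 : T 0 = J) : Cl T := by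
  obtain ⟨g, x, hg, hx⟩ := shape (M := T 1) (by rw [← h0]; exact hT.1 0 1) (hT.2 1)
  obtain ⟨g', y, hg', hy⟩ := shape (M := T 2) (by rw [← h0]; exact hT.1 0 2) (hT.2 2)
  have hT3 : ![T 0, T 1, T 2] = T := by
    funext i
    fin_cases i <;> rfl
  rw [← hT3, h0]
  refine Two.cl_sub hg hg' ?_
  have e1 : T 1 - aeval J g = mk x := by rw [hx, add_sub_cancel_left]
  have e2 : T 2 - aeval J g' = mk y := by rw [hy, add_sub_cancel_left]
  have hcomm : (mk x : Matrix (Fin (m + 9)) (Fin (m + 9)) k) * mk y = mk y * mk x := by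
    have hc : ∀ (M : Matrix (Fin (m + 9)) (Fin (m + 9)) k) (p : k[X]), J * M = M * J →
        Commute (aeval (J : Matrix (Fin (m + 9)) (Fin (m + 9)) k) p) M := by
      intro M p hM
      rw [aeval_eq_sum_range]
      exact Commute.sum_left _ _ _ fun i _ =>
        (Commute.pow_left (show Commute J M from hM) i).smul_left _
    have hm1 : Commute (T 1) (T 2) := hT.1 1 2
    have hJ1 : (J : Matrix (Fin (m + 9)) (Fin (m + 9)) k) * T 1 = T 1 * J := by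
      rw [← h0]; exact hT.1 0 1
    have hJ2 : (J : Matrix (Fin (m + 9)) (Fin (m + 9)) k) * T 2 = T 2 * J := by
      rw [← h0]; exact hT.1 0 2
    have hg1 : Commute (aeval (J : Matrix (Fin (m + 9)) (Fin (m + 9)) k) g) (aeval J g') := by
      show _ = _
      rw [← map_mul, mul_comm, map_mul]
    have h1 : Commute (T 1 - aeval J g) (T 2 - aeval J g') :=
      (Commute.sub_left (Commute.sub_right hm1 (hc _ g' hJ1).symm)
        (Commute.sub_right (hc _ g hJ2) hg1))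
    rw [e1, e2] at h1
    exact h1
  rw [e1, e2]
  exact cl_rel hpl (rel_of_comm hcomm)

end Ta31

end Pool.Agent.Lib.D9
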