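import Pool.Agent.Lib.D9.Ta31F
import Pool.Agent.Lib.D8.Corank

/-!
# MP_5dcbc3_ag: planar triples, `n = m + 9`: a normal form and its deformation

Basis `Y^i v = e i` (`i ≤ m + 4`), `X v = e (m+5)`, `X Y v = e (m+6)`, `X^2 Y v = e (m+7)`,
`X^2 v = e (m+8)`; relations `X Y^2 = κ Y^(m+4)`, `X^3 = -β X^2 Y + δ Y^(m+3) + σ Y^(m+4) + s X Y`.
For `s ≠ 0` the matrix `X + Y` has corank `2`.
-/

namespace Pool.Agent.Lib.D9

open Matrix Polynomial Pool.Agent.Lib.Q5dc Pool.Agent.Lib.D7 Pool.Agent.Lib.D8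

variable {k : Type*} [Field k]

namespace Ta31

set_option linter.unusedSimpArgs false

variable {m : ℕ}

/-- the matrix `Y` -/
def NY (κ : k) : Matrix (Fin (m + 9)) (Fin (m + 9)) k :=
  J - E (m + 7) (m + 6) + κ • E (m + 4) (m + 6) + E (m + 7) (m + 8)

/-- the matrix `X` -/
def NX (κ β δ σ s : k) : Matrix (Fin (m + 9)) (Fin (m + 9)) k :=
  E (m + 5) 0 + E (m + 6) 1 + κ • E (m + 4) 2 + E (m + 8) (m + 5) + E (m + 7) (m + 6) +
    (δ + s * κ) • E (m + 4) (m + 7) - β • E (m + 7) (m + 8) + δ • E (m + 3) (m + 8) +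
    s • E (m + 6) (m + 8) + σ • E (m + 4) (m + 8)

variable {κ β δ σ s : k}

theorem NY_e (l : ℕ) (hl : l < m + 9) : (NY κ : Matrix (Fin (m + 9)) (Fin (m + 9)) k) *ᵥ e l =
    J *ᵥ e l - (if m + 6 = l then e (m + 7) else 0) + κ • (if m + 6 = l then e (m + 4) else 0) +
      (if m + 8 = l then e (m + 7) else 0) := by
  simp only [NY, Matrix.add_mulVec, Matrix.sub_mulVec, Matrix.smul_mulVec, E_e _ _ l hl]

theorem NX_e (l : ℕ) (hl : l < m + 9) :
    (NX κ β δ σ s : Matrix (Fin (m + 9)) (Fin (m + 9)) k) *ᵥ e l =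
    (if 0 = l then e (m + 5) else 0) + (if 1 = l then e (m + 6) else 0) +
    κ • (if 2 = l then e (m + 4) else 0) + (if m + 5 = l then e (m + 8) else 0) +
    (if m + 6 = l then e (m + 7) else 0) + (δ + s * κ) • (if m + 7 = l then e (m + 4) else 0) -
    β • (if m + 8 = l then e (m + 7) else 0) + δ • (if m + 8 = l then e (m + 3) else 0) +
    s • (if m + 8 = l then e (m + 6) else 0) + σ • (if m + 8 = l then e (m + 4) else 0) := by
  simp only [NX, Matrix.add_mulVec, Matrix.sub_mulVec, Matrix.smul_mulVec, E_e _ _ l hl]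

theorem NY_lt {l : ℕ} (hl : l < m + 4) :
    (NY κ : Matrix (Fin (m + 9)) (Fin (m + 9)) k) *ᵥ e l = e (l + 1) := by
  rw [NY_e l (by omega), J_lt l hl, if_neg (by omega), if_neg (by omega), if_neg (by omega)]
  simp

theorem NY_a : (NY κ : Matrix (Fin (m + 9)) (Fin (m + 9)) k) *ᵥ e (m + 4) = 0 := by
  rw [NY_e _ (by omega), J_a, if_neg (by omega), if_neg (by omega), if_neg (by omega)]
  simp

theorem NY_5 : (NY κ : Matrix (Fin (m + 9)) (Fin (m + 9)) k) *ᵥ e (m + 5) = e (m + 6) := by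
  rw [NY_e _ (by omega), J_u, if_neg (by omega), if_neg (by omega), if_neg (by omega)]
  simp

theorem NY_6 : (NY κ : Matrix (Fin (m + 9)) (Fin (m + 9)) k) *ᵥ e (m + 6) = κ • e (m + 4) := by
  rw [NY_e _ (by omega), J_u1, if_pos rfl, if_pos rfl, if_neg (by omega)]
  simp

theorem NY_7 : (NY κ : Matrix (Fin (m + 9)) (Fin (m + 9)) k) *ᵥ e (m + 7) = 0 := by
  rw [NY_e _ (by omega), J_u2, if_neg (by omega), if_neg (by omega), if_neg (by omega)]
  simp

theorem NY_8 : (NY κ : Matrix (Fin (m + 9)) (Fin (m + 9)) k) *ᵥ e (m + 8) = e (m + 7) := by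
  rw [NY_e _ (by omega), J_p, if_neg (by omega), if_neg (by omega), if_pos rfl]
  simp

theorem NX_0 : (NX κ β δ σ s : Matrix (Fin (m + 9)) (Fin (m + 9)) k) *ᵥ e 0 = e (m + 5) := by
  rw [NX_e _ (by omega)]
  simp

theorem NX_1 : (NX κ β δ σ s : Matrix (Fin (m + 9)) (Fin (m + 9)) k) *ᵥ e 1 = e (m + 6) := by
  rw [NX_e _ (by omega)]
  simp

theorem NX_2 : (NX κ β δ σ s : Matrix (Fin (m + 9)) (Fin (m + 9)) k) *ᵥ e 2 = κ • e (m + 4) := by
  rw [NX_e _ (by omega)]
  simp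

theorem NX_mid {l : ℕ} (h3 : 3 ≤ l) (hl : l ≤ m + 4) :
    (NX κ β δ σ s : Matrix (Fin (m + 9)) (Fin (m + 9)) k) *ᵥ e l = 0 := by
  rw [NX_e _ (by omega)]
  have h0 : ¬ 0 = l := by omega
  have h1 : ¬ 1 = l := by omega
  have h2 : ¬ 2 = l := by omega
  have h3 : ¬ m + 5 = l := by omega
  have h4 : ¬ m + 6 = l := by omega
  have h5 : ¬ m + 7 = l := by omega
  have h6 : ¬ m + 8 = l := by omega
  simp [h0, h1, h2, h3, h4, h5, h6]

theorem NX_5 : (NX κ β δ σ s : Matrix (Fin (m + 9)) (Fin (m + 9)) k) *ᵥ e (m + 5) =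
    e (m + 8) := by
  rw [NX_e _ (by omega)]
  simp

theorem NX_6 : (NX κ β δ σ s : Matrix (Fin (m + 9)) (Fin (m + 9)) k) *ᵥ e (m + 6) =
    e (m + 7) := by
  rw [NX_e _ (by omega)]
  simp

theorem NX_7 : (NX κ β δ σ s : Matrix (Fin (m + 9)) (Fin (m + 9)) k) *ᵥ e (m + 7) =
    (δ + s * κ) • e (m + 4) := by
  rw [NX_e _ (by omega)]
  simp

theorem NX_8 : (NX κ β δ σ s : Matrix (Fin (m + 9)) (Fin (m + 9)) k) *ᵥ e (m + 8) =
    -(β • e (m + 7)) + δ • e (m + 3) + s • e (m + 6) + σ • e (m + 4) := by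
  rw [NX_e _ (by omega)]
  simp

theorem cases_l {l : ℕ} (hl : l < m + 9) : l = 0 ∨ l = 1 ∨ l = 2 ∨ (3 ≤ l ∧ l < m + 4) ∨
    l = m + 4 ∨ l = m + 5 ∨ l = m + 6 ∨ l = m + 7 ∨ l = m + 8 := by omega

theorem NX_NY : (NX κ β δ σ s : Matrix (Fin (m + 9)) (Fin (m + 9)) k) * NY κ =
    NY κ * NX κ β δ σ s := by
  refine ext_e fun l hl => ?_
  rw [← Matrix.mulVec_mulVec, ← Matrix.mulVec_mulVec]
  rcases cases_l hl with rfl | rfl | rfl | ⟨h1, h2⟩ | rfl | rfl | rfl | rfl | rfl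
  · rw [NY_lt (by omega), NX_0, NY_5, NX_1]
  · rw [NY_lt (by omega), NX_1, NY_6, NX_2]
  · rw [NY_lt (by omega), NX_2, NX_mid (by omega) (by omega), Matrix.mulVec_smul, NY_a, smul_zero]
  · rw [NY_lt h2, NX_mid (by omega) (by omega), NX_mid (by omega) (by omega), Matrix.mulVec_zero]
  · rw [NY_a, NX_mid (by omega) (by omega), Matrix.mulVec_zero, Matrix.mulVec_zero]
  · rw [NY_5, NX_5, NX_6, NY_8]
  · rw [NY_6, NX_6, NY_7, Matrix.mulVec_smul, NX_mid (by omega) (by omega), smul_zero]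
  · rw [NY_7, NX_7, Matrix.mulVec_zero, Matrix.mulVec_smul, NY_a, smul_zero]
  · rw [NY_8, NX_8, NX_7]
    simp only [Matrix.mulVec_add, Matrix.mulVec_neg, Matrix.mulVec_smul, NY_7, NY_6, NY_a,
      NY_lt (show m + 3 < m + 4 by omega)]
    module

/-- the weight function -/
def wn (m : ℕ) (i : Fin (m + 9)) : ℕ :=
  if (i : ℕ) ≤ m + 4 then 10 * i else if (i : ℕ) = m + 5 then 1 else if (i : ℕ) = m + 6 then 11
    else if (i : ℕ) = m + 7 then 12 else 2

theorem E_wn {i j : ℕ} (hw : ∀ r c : Fin (m + 9), (r : ℕ) = i → (c : ℕ) = j → wn m c < wn m r)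
    {r c : Fin (m + 9)} (h : wn m r ≤ wn m c) :
    (E i j : Matrix (Fin (m + 9)) (Fin (m + 9)) k) r c = 0 := by
  rw [E_apply, if_neg]
  rintro ⟨h1, h2⟩
  exact absurd (hw r c h1 h2) (by omega)

theorem nil_NY : IsNilpotent (NY κ : Matrix (Fin (m + 9)) (Fin (m + 9)) k) := by
  refine isNilpotent_of_weight _ (wn m) fun i j h => ?_
  have key : ∀ r c : ℕ, (∀ r' c' : Fin (m + 9), (r' : ℕ) = r → (c' : ℕ) = c → wn m c' < wn m r') →
      (E r c : Matrix (Fin (m + 9)) (Fin (m + 9)) k) i j = 0 := fun r c hw => E_wn hw h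
  simp only [NY, Matrix.add_apply, Matrix.sub_apply, Matrix.smul_apply, smul_eq_mul]
  rw [key (m + 7) (m + 6), key (m + 4) (m + 6), key (m + 7) (m + 8)]
  · have : (J : Matrix (Fin (m + 9)) (Fin (m + 9)) k) i j = 0 := by
      simp only [J, Matrix.of_apply]
      rw [if_neg]
      rintro ⟨h1, h2, h3⟩
      have := i.isLt
      unfold wn at h
      split_ifs at h <;> omega
    rw [this]
    simp
  all_goals
    intro r' c' h1 h2
    unfold wn
    split_ifs <;> omega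

theorem nil_NX : IsNilpotent (NX κ β δ σ s : Matrix (Fin (m + 9)) (Fin (m + 9)) k) := by
  refine isNilpotent_of_weight _ (wn m) fun i j h => ?_
  have key : ∀ r c : ℕ, (∀ r' c' : Fin (m + 9), (r' : ℕ) = r → (c' : ℕ) = c → wn m c' < wn m r') →
      (E r c : Matrix (Fin (m + 9)) (Fin (m + 9)) k) i j = 0 := fun r c hw => E_wn hw h
  simp only [NX, Matrix.add_apply, Matrix.sub_apply, Matrix.smul_apply, smul_eq_mul]
  rw [key (m + 5) 0, key (m + 6) 1, key (m + 4) 2, key (m + 8) (m + 5), key (m + 7) (m + 6),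
    key (m + 4) (m + 7), key (m + 7) (m + 8), key (m + 3) (m + 8), key (m + 6) (m + 8),
    key (m + 4) (m + 8)]
  · simp
  all_goals
    intro r' c' h1 h2
    unfold wn
    split_ifs <;> omega

theorem cn_N : CN ![(NX κ β δ σ s : Matrix (Fin (m + 9)) (Fin (m + 9)) k), NY κ, 0] := by
  refine ⟨fun i j => ?_, fun i => ?_⟩
  · fin_cases i <;> fin_cases j
    · rfl
    · exact NX_NY
    · show NX κ β δ σ s * 0 = 0 * NX κ β δ σ s
      rw [mul_zero, zero_mul]
    · exact NX_NY.symm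
    · rfl
    · show NY κ * 0 = 0 * NY κ
      rw [mul_zero, zero_mul]
    · show 0 * NX κ β δ σ s = NX κ β δ σ s * 0
      rw [mul_zero, zero_mul]
    · show 0 * NY κ = NY κ * 0
      rw [mul_zero, zero_mul]
    · rfl
  · fin_cases i
    · exact nil_NX
    · exact nil_NY
    · exact IsNilpotent.zero

/-- corank at most `2` -/
theorem rank_ge {n : Type*} [Fintype n] [DecidableEq n] {M : Matrix n n k} {v w : n → k}
    (h : ∀ S : Submodule k (n → k), v ∈ S → w ∈ S → (∀ x, M *ᵥ x ∈ S) → S = ⊤) :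
    Fintype.card n ≤ M.rank + 2 := by
  have h1 := h (LinearMap.range (Matrix.mulVecLin M) ⊔ Submodule.span k {v, w})
    (Submodule.mem_sup_right (Submodule.subset_span (by simp)))
    (Submodule.mem_sup_right (Submodule.subset_span (by simp)))
    (fun x => Submodule.mem_sup_left ⟨x, rfl⟩)
  have h2 : Module.finrank k (⊤ : Submodule k (n → k)) = Fintype.card n := by
    rw [finrank_top, Module.finrank_fintype_fun_eq_card]
  have h3 := Submodule.finrank_add_le_finrank_add_finrank (LinearMap.range (Matrix.mulVecLin M))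
    (Submodule.span k {v, w})
  have h4 : Module.finrank k (Submodule.span k ({v, w} : Set (n → k))) ≤ 2 := by
    classical
    have h5 := finrank_span_finset_le_card (R := k) ({v, w} : Finset (n → k))
    rw [Finset.coe_pair] at h5
    exact h5.trans Finset.card_le_two
  rw [h1, h2] at h3
  have h6 : M.rank = Module.finrank k (LinearMap.range (Matrix.mulVecLin M)) := rfl
  omega

theorem rank_N (hs : s ≠ 0) :
    m + 9 ≤ ((NX κ β δ σ s : Matrix (Fin (m + 9)) (Fin (m + 9)) k) + NY κ).rank + 2 := by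
  have h0 := rank_ge (k := k) (M := (NX κ β δ σ s : Matrix (Fin (m + 9)) (Fin (m + 9)) k) + NY κ)
    (v := e 0) (w := e 1) (by
      intro S h0 h1 hS
      have hM : ∀ l, NX κ β δ σ s *ᵥ e l + NY κ *ᵥ e l ∈ S := by
        intro l
        rw [← Matrix.add_mulVec]
        exact hS _
      have s5 : e (m + 5) ∈ S := by
        have h := hM 0
        rw [NX_0, NY_lt (by omega)] at h
        have h2 := sub_mem h h1
        rwa [zero_add, add_sub_cancel_right] at h2
      have s4 : ∀ i, 4 ≤ i → i ≤ m + 4 → e i ∈ S := by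
        intro i h4 hi
        obtain ⟨j, rfl⟩ : ∃ j, i = j + 1 := ⟨i - 1, by omega⟩
        have h := hM j
        rwa [NX_mid (by omega) (by omega), NY_lt (by omega), zero_add] at h
      have st : e (m + 4) ∈ S := s4 _ (by omega) le_rfl
      have s3 : e 3 ∈ S := by
        have h := hM 2
        rw [NX_2, NY_lt (by omega)] at h
        have h2 := sub_mem h (S.smul_mem κ st)
        rwa [add_sub_cancel_left] at h2
      have s3' : ∀ i, 3 ≤ i → i ≤ m + 4 → e i ∈ S := by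
        intro i h3 hi
        by_cases h : i = 3
        · rw [h]; exact s3
        · exact s4 i (by omega) hi
      have s7 : e (m + 7) ∈ S := by
        have h := hM (m + 6)
        rw [NX_6, NY_6] at h
        have h2 := sub_mem h (S.smul_mem κ st)
        rwa [add_sub_cancel_right] at h2
      have s6 : e (m + 6) ∈ S := by
        have h := hM (m + 8)
        rw [NX_8, NY_8] at h
        have h2 := sub_mem (sub_mem (sub_mem h (S.smul_mem (1 - β) s7)) (S.smul_mem σ st))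
          (S.smul_mem δ (s3' (m + 3) (by omega) (by omega)))
        have h3 : -(β • (e (m + 7) : Fin (m + 9) → k)) + δ • e (m + 3) + s • e (m + 6) +
            σ • e (m + 4) + e (m + 7) - (1 - β) • e (m + 7) - σ • e (m + 4) - δ • e (m + 3) =
            s • e (m + 6) := by module
        rw [h3] at h2
        have h4 := S.smul_mem s⁻¹ h2
        rwa [smul_smul, inv_mul_cancel₀ hs, one_smul] at h4
      have s2 : e 2 ∈ S := by
        have h := hM 1
        rw [NX_1, NY_lt (by omega)] at h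
        have h2 := sub_mem h s6
        rwa [add_sub_cancel_left] at h2
      have s8 : e (m + 8) ∈ S := by
        have h := hM (m + 5)
        rw [NX_5, NY_5] at h
        have h2 := sub_mem h s6
        rwa [add_sub_cancel_right] at h2
      rw [eq_top_iff]
      intro w _
      rw [vec_sum w]
      refine Submodule.sum_mem _ fun i _ => Submodule.smul_mem _ _ ?_
      rcases cases_l i.isLt with h | h | h | ⟨h, h'⟩ | h | h | h | h | h
      · rw [h]; exact h0
      · rw [h]; exact h1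
      · rw [h]; exact s2
      · exact s3' _ h (by omega)
      · rw [h]; exact st
      · rw [h]; exact s5
      · rw [h]; exact s6
      · rw [h]; exact s7
      · rw [h]; exact s8)
  rwa [Fintype.card_fin] at h0

theorem cl_N [IsAlgClosed k] [CharZero k] (κ β δ σ : k) :
    Cl ![(NX κ β δ σ 0 : Matrix (Fin (m + 9)) (Fin (m + 9)) k), NY κ, 0] := by
  have hk : Infinite k := IsAlgClosed.instInfinite
  by_contra h0
  have hc : ∀ a : k, D7.IsPoly fun _ : k => a := D7.IsPoly.const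
  have hf := finite_cl (fun s => ![(NX κ β δ σ s : Matrix (Fin (m + 9)) (Fin (m + 9)) k),
    NY κ, 0]) (by
      intro l i j
      fin_cases l
      · show D7.IsPoly fun s => (NX κ β δ σ s : Matrix (Fin (m + 9)) (Fin (m + 9)) k) i j
        simp only [NX, Matrix.add_apply, Matrix.sub_apply, Matrix.smul_apply, smul_eq_mul]
        exact (((((((((hc _).add (hc _)).add ((hc _).mul (hc _))).add (hc _)).add (hc _)).add
          (((hc _).add (D7.IsPoly.id.mul (hc _))).mul (hc _))).sub ((hc _).mul (hc _))).add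
          ((hc _).mul (hc _))).add (D7.IsPoly.id.mul (hc _))).add ((hc _).mul (hc _))
      · exact D7.IsPoly.const _
      · exact D7.IsPoly.const _) h0
  obtain ⟨s, hs⟩ := (hf.union (Set.finite_singleton 0)).exists_notMem
  simp only [Set.mem_union, Set.mem_ofPred_eq, not_or, Set.mem_singleton_iff] at hs
  refine hs.1 (cl_corank (by omega) cn_N (M := NX κ β δ σ s + NY κ)
    (add_mem (mem_adj ![NX κ β δ σ s, NY κ, 0] 0) (mem_adj ![NX κ β δ σ s, NY κ, 0] 1)) ?_)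
  exact rank_N hs.2

/-- planar triples with the relations of the normal form -/
theorem planar_nf [IsAlgClosed k] [CharZero k] {X Y : Matrix (Fin (m + 9)) (Fin (m + 9)) k}
    {v : Fin (m + 9) → k} (hv : Cyc ![X, Y, 0] v) (hXY : X * Y = Y * X) {κ β δ σ : k}
    (h1 : X *ᵥ (Y ^ 2 *ᵥ v) = κ • (Y ^ (m + 4) *ᵥ v))
    (h2 : X *ᵥ (X *ᵥ (X *ᵥ v)) = -(β • (X *ᵥ (X *ᵥ (Y *ᵥ v)))) + δ • (Y ^ (m + 3) *ᵥ v) +
      σ • (Y ^ (m + 4) *ᵥ v))
    (h3 : Y ^ (m + 5) *ᵥ v = 0) : Cl ![X, Y, 0] := by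
  have hY : ∀ w, Y *ᵥ (X *ᵥ w) = X *ᵥ (Y *ᵥ w) := by
    intro w
    rw [Matrix.mulVec_mulVec, Matrix.mulVec_mulVec, hXY]
  have hpow : ∀ i, Y *ᵥ (Y ^ i *ᵥ v) = Y ^ (i + 1) *ᵥ v := by
    intro i
    rw [Matrix.mulVec_mulVec, ← pow_succ']
  have hXi : ∀ i, X *ᵥ (Y ^ (i + 3) *ᵥ v) = 0 := by
    intro i
    have e1 : i + 3 = (i + 1) + 2 := rfl
    have e2 : Y ^ (i + 1) *ᵥ (Y ^ 2 *ᵥ v) = Y ^ (i + 3) *ᵥ v := by
      rw [Matrix.mulVec_mulVec, ← pow_add]
    have e3 : X * Y ^ (i + 1) = Y ^ (i + 1) * X :=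
      (Commute.pow_right (show Commute X Y from hXY) _)
    rw [← e2, Matrix.mulVec_mulVec, e3, ← Matrix.mulVec_mulVec, h1, Matrix.mulVec_smul,
      Matrix.mulVec_mulVec, ← pow_add]
    have e4 : i + 1 + (m + 4) = i + (m + 5) := by omega
    rw [e4, pow_add, ← Matrix.mulVec_mulVec, h3, Matrix.mulVec_zero, smul_zero]
  have hXa : X *ᵥ (Y ^ (m + 4) *ᵥ v) = 0 := hXi (m + 1)
  obtain ⟨mon, hmon⟩ : ∃ mon : ℕ → Fin (m + 9) → k, mon = fun l =>
    if l ≤ m + 4 then Y ^ l *ᵥ v else if l = m + 5 then X *ᵥ v else if l = m + 6 then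
      X *ᵥ (Y *ᵥ v) else if l = m + 7 then X *ᵥ (X *ᵥ (Y *ᵥ v)) else X *ᵥ (X *ᵥ v) := ⟨_, rfl⟩
  have n1 : ∀ l, l ≤ m + 4 → mon l = Y ^ l *ᵥ v := by
    intro l hl; rw [hmon]; exact if_pos hl
  have n0 : mon 0 = v := by rw [n1 0 (by omega), pow_zero, Matrix.one_mulVec]
  have n5 : mon (m + 5) = X *ᵥ v := by rw [hmon]; simp
  have n6 : mon (m + 6) = X *ᵥ (Y *ᵥ v) := by rw [hmon]; simp
  have n7 : mon (m + 7) = X *ᵥ (X *ᵥ (Y *ᵥ v)) := by rw [hmon]; simp
  have n8 : mon (m + 8) = X *ᵥ (X *ᵥ v) := by rw [hmon]; simp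
  obtain ⟨P, hP⟩ : ∃ P : Matrix (Fin (m + 9)) (Fin (m + 9)) k,
    P = Matrix.of fun i (j : Fin (m + 9)) => mon (j : ℕ) i := ⟨_, rfl⟩
  have hPe : ∀ l, l < m + 9 → P *ᵥ e l = mon l := by
    intro l hl
    have := mulVec_e P ⟨l, hl⟩
    rw [this, hP]
    rfl
  have hXP : X * P = P * NX κ β δ σ 0 := by
    refine ext_e fun l hl => ?_
    rw [← Matrix.mulVec_mulVec, ← Matrix.mulVec_mulVec, hPe l hl]
    rcases cases_l hl with rfl | rfl | rfl | ⟨h4, h5⟩ | rfl | rfl | rfl | rfl | rfl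
    · rw [NX_0, hPe _ (by omega), n0, n5]
    · rw [NX_1, hPe _ (by omega), n6, n1 1 (by omega), pow_one]
    · rw [NX_2, Matrix.mulVec_smul, hPe _ (by omega), n1 2 (by omega), n1 _ le_rfl, h1]
    · rw [NX_mid h4 (by omega), Matrix.mulVec_zero, n1 l (by omega)]
      obtain ⟨i, rfl⟩ : ∃ i, l = i + 3 := ⟨l - 3, by omega⟩
      exact hXi i
    · rw [NX_mid (by omega) le_rfl, Matrix.mulVec_zero, n1 _ le_rfl, hXa]
    · rw [NX_5, hPe _ (by omega), n5, n8]
    · rw [NX_6, hPe _ (by omega), n6, n7]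
    · rw [NX_7, Matrix.mulVec_smul, hPe _ (by omega), n7, n1 _ le_rfl, zero_mul, add_zero,
        ← hY v, ← hY, ← hY, h2]
      simp only [Matrix.mulVec_add, Matrix.mulVec_neg, Matrix.mulVec_smul, hpow, h3]
      have : Y *ᵥ (X *ᵥ (X *ᵥ (Y *ᵥ v))) = 0 := by
        rw [hY, hY, Matrix.mulVec_mulVec v Y Y, ← pow_two, h1, Matrix.mulVec_smul, hXa, smul_zero]
      rw [this]
      simp
    · rw [NX_8, n8, h2]
      simp only [Matrix.mulVec_add, Matrix.mulVec_neg, Matrix.mulVec_smul]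
      rw [hPe _ (by omega), hPe _ (by omega), hPe _ (by omega), hPe _ (by omega), n7,
        n1 (m + 3) (by omega), n1 _ le_rfl, zero_smul, add_zero]
  have hYP : Y * P = P * NY κ := by
    refine ext_e fun l hl => ?_
    rw [← Matrix.mulVec_mulVec, ← Matrix.mulVec_mulVec, hPe l hl]
    rcases (by omega : l < m + 4 ∨ l = m + 4 ∨ l = m + 5 ∨ l = m + 6 ∨ l = m + 7 ∨ l = m + 8) with
      h4 | rfl | rfl | rfl | rfl | rfl
    · rw [NY_lt h4, hPe _ (by omega), n1 l (by omega), n1 (l + 1) (by omega), hpow]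
    · rw [NY_a, Matrix.mulVec_zero, n1 _ le_rfl, hpow, h3]
    · rw [NY_5, hPe _ (by omega), n5, n6, hY]
    · rw [NY_6, Matrix.mulVec_smul, hPe _ (by omega), n6, n1 _ le_rfl, hY,
        Matrix.mulVec_mulVec v Y Y, ← pow_two, h1]
    · rw [NY_7, Matrix.mulVec_zero, n7, hY, hY, Matrix.mulVec_mulVec v Y Y, ← pow_two, h1,
        Matrix.mulVec_smul, hXa, smul_zero]
    · rw [NY_8, hPe _ (by omega), n8, n7, hY, hY]
  have hsurj := hv (LinearMap.range (Matrix.mulVecLin P)) ⟨e 0, by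
    rw [Matrix.mulVecLin_apply, hPe 0 (by omega), n0]⟩ (by
    rintro i _ ⟨w, rfl⟩
    fin_cases i
    · refine ⟨NX κ β δ σ 0 *ᵥ w, ?_⟩
      show P *ᵥ (NX κ β δ σ 0 *ᵥ w) = X *ᵥ (P *ᵥ w)
      rw [Matrix.mulVec_mulVec, ← hXP, Matrix.mulVec_mulVec]
    · refine ⟨NY κ *ᵥ w, ?_⟩
      show P *ᵥ (NY κ *ᵥ w) = Y *ᵥ (P *ᵥ w)
      rw [Matrix.mulVec_mulVec, ← hYP, Matrix.mulVec_mulVec]
    · refine ⟨0, ?_⟩
      show P *ᵥ 0 = 0 *ᵥ (P *ᵥ w)
      rw [Matrix.mulVec_zero, Matrix.zero_mulVec])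
  have hunit : IsUnit P := by
    rw [← Matrix.mulVec_surjective_iff_isUnit]
    intro w
    have : w ∈ LinearMap.range (Matrix.mulVecLin P) := by rw [hsurj]; trivial
    obtain ⟨x, hx⟩ := this
    exact ⟨x, hx⟩
  refine cl_conjP hunit (T' := ![NX κ β δ σ 0, NY κ, 0]) ?_ (cl_N κ β δ σ)
  intro i
  fin_cases i
  · exact hXP
  · exact hYP
  · show 0 * P = P * 0
    rw [zero_mul, mul_zero]

end Ta31

end Pool.Agent.Lib.D9
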