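import Pool.Agent.Lib.D9.Ta31G

/-!
# MP_5dcbc3_ag: Jordan type `(a, 3, 1)`, `a = m + 5`: planar triples, identities
-/

namespace Pool.Agent.Lib.D9

open Matrix Polynomial Pool.Agent.Lib.Q5dc Pool.Agent.Lib.D7 Pool.Agent.Lib.D8

namespace Ta31

section general

variable {R : Type*} [CommRing R] {a b : R} {m : ℕ} {f0 f1 f2 q1 q2 π θ η ε E G : R}

/-- the cubic relations -/
theorem pl_ab2 (h3 : a ^ 3 * b = 0) (h4 : a ^ (m + 5) = 0)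
    (r1 : a * (b ^ 2 - q1 * (a * b) - q2 * (a ^ 2 * b) - f0 * a ^ (m + 2) - f1 * a ^ (m + 3) -
      f2 * a ^ (m + 4)) = 0) :
    a * b ^ 2 = q1 * (a ^ 2 * b) + f0 * a ^ (m + 3) + f1 * a ^ (m + 4) := by
  linear_combination r1 + q2 * h3 + f2 * h4

theorem pl_b3 (h3 : a ^ 3 * b = 0) (h4 : a ^ (m + 5) = 0)
    (hε : a ^ (m + 2) * b = ε * (a ^ 2 * b))
    (r1 : a * (b ^ 2 - q1 * (a * b) - q2 * (a ^ 2 * b) - f0 * a ^ (m + 2) - f1 * a ^ (m + 3) -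
      f2 * a ^ (m + 4)) = 0)
    (r2 : b * (b ^ 2 - q1 * (a * b) - q2 * (a ^ 2 * b) - f0 * a ^ (m + 2) - f1 * a ^ (m + 3) -
      f2 * a ^ (m + 4)) = π * θ * a ^ (m + 4) + π * η * (a ^ 2 * b)) :
    b ^ 3 = (q1 ^ 2 + π * η + ε * f0) * (a ^ 2 * b) + q1 * f0 * a ^ (m + 3) +
      (π * θ + q1 * f1 + q2 * f0) * a ^ (m + 4) := by
  have h1 := pl_ab2 h3 h4 r1
  linear_combination r2 + q1 * h1 + q2 * a * h1 + (q1 * q2 + (f1 + f2 * a) * a ^ m) * h3 +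
    f0 * hε + q2 * f1 * h4

end general

section big

variable {R : Type*} [CommRing R] {a b : R} {j : ℕ} {f0 f1 q1 ε E G r c d : R}

theorem pb_XY2 (h1 : a * b ^ 2 = q1 * (a ^ 2 * b) + f0 * a ^ (j + 4) + f1 * a ^ (j + 5))
    (h2 : b ^ 3 = E * (a ^ 2 * b) + q1 * f0 * a ^ (j + 4) + G * a ^ (j + 5))
    (h3 : a ^ 3 * b = 0) (h4 : a ^ (j + 6) = 0) (e2 : a ^ (2 * j + 5) = ε * a ^ (j + 5))
    (hr : E - 2 * r * q1 + r ^ 2 = 0) (hc : (q1 - 2 * r) * f0 - c * r ^ 2 = 0)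
    (hd : G - 2 * r * f1 - c * ε * f0 - d * r ^ 2 = 0) :
    (b - c * a ^ (j + 2) - d * a ^ (j + 3)) * (b - r * a) ^ 2 = 0 := by
  linear_combination h2 - 2 * r * h1 + a ^ 2 * b * hr + a ^ (j + 4) * hc + a ^ (j + 5) * hd -
    c * (a ^ (j + 1) * h1 + (q1 - 2 * r) * a ^ j * h3 + f0 * e2 + f1 * a ^ j * h4) -
    d * (a ^ (j + 2) * h1 + (q1 - 2 * r) * a ^ (j + 1) * h3 + f0 * a ^ j * h4 +
      f1 * a ^ (j + 1) * h4)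

theorem pb_X3 (h1 : a * b ^ 2 = q1 * (a ^ 2 * b) + f0 * a ^ (j + 4) + f1 * a ^ (j + 5))
    (h2 : b ^ 3 = E * (a ^ 2 * b) + q1 * f0 * a ^ (j + 4) + G * a ^ (j + 5))
    (h3 : a ^ 3 * b = 0) (h4 : a ^ (j + 6) = 0) (e2 : a ^ (2 * j + 5) = ε * a ^ (j + 5)) :
    (b - c * a ^ (j + 2) - d * a ^ (j + 3)) ^ 3 = E * (a ^ 2 * b) + q1 * f0 * a ^ (j + 4) +
      (G - 3 * c * ε * f0) * a ^ (j + 5) := by
  linear_combination h2 -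
    3 * (c * (a ^ (j + 1) * h1 + q1 * a ^ j * h3 + f0 * e2 + f1 * a ^ j * h4) +
    d * (a ^ (j + 2) * h1 + q1 * a ^ (j + 1) * h3 + f0 * a ^ j * h4 + f1 * a ^ (j + 1) * h4)) +
    3 * (c + d * a) ^ 2 * a ^ (2 * j + 1) * h3 - (c + d * a) ^ 3 * a ^ (2 * j) * h4

theorem pb_X2Y (h1 : a * b ^ 2 = q1 * (a ^ 2 * b) + f0 * a ^ (j + 4) + f1 * a ^ (j + 5))
    (h2 : b ^ 3 = E * (a ^ 2 * b) + q1 * f0 * a ^ (j + 4) + G * a ^ (j + 5))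
    (h3 : a ^ 3 * b = 0) (h4 : a ^ (j + 6) = 0) (e2 : a ^ (2 * j + 5) = ε * a ^ (j + 5)) :
    (b - c * a ^ (j + 2) - d * a ^ (j + 3)) ^ 2 * (b - r * a) = (E - r * q1) * (a ^ 2 * b) +
      (q1 - r) * f0 * a ^ (j + 4) + (G - 2 * c * ε * f0 - r * f1 - r * c ^ 2 * ε) *
      a ^ (j + 5) := by
  linear_combination h2 -
    2 * (c * (a ^ (j + 1) * h1 + q1 * a ^ j * h3 + f0 * e2 + f1 * a ^ j * h4) +
    d * (a ^ (j + 2) * h1 + q1 * a ^ (j + 1) * h3 + f0 * a ^ j * h4 + f1 * a ^ (j + 1) * h4)) +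
    (c + d * a) ^ 2 * a ^ (2 * j + 1) * h3 - r * (h1 - 2 * (c + d * a) * a ^ j * h3 +
      c ^ 2 * e2 + (2 * c * d + d ^ 2 * a) * a ^ j * h4)

theorem pb_Y4 (h1 : a * b ^ 2 = q1 * (a ^ 2 * b) + f0 * a ^ (j + 4) + f1 * a ^ (j + 5))
    (h2 : b ^ 3 = E * (a ^ 2 * b) + q1 * f0 * a ^ (j + 4) + G * a ^ (j + 5))
    (h3 : a ^ 3 * b = 0) (h4 : a ^ (j + 6) = 0) :
    (b - r * a) ^ 4 = r ^ 4 * a ^ 4 + f0 * (E - 4 * r * q1 + 6 * r ^ 2) * a ^ (j + 5) := by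
  linear_combination b * h2 + E * (a * h1 + q1 * h3 + f1 * h4) +
    (q1 * f0 * a ^ (j + 1) + G * a ^ (j + 2)) * h3 - 4 * r * (a * h2 + E * h3 + G * h4) +
    6 * r ^ 2 * (a * h1 + q1 * h3 + f1 * h4) - 4 * r ^ 3 * h3

theorem pb_Ya (h3 : a ^ 3 * b = 0) (i : ℕ) :
    (b - r * a) ^ i * a ^ 4 = (-r) ^ i * a ^ (i + 4) := by
  induction i with
  | zero => simp
  | succ i ih =>
    rw [pow_succ' (b - r * a), mul_assoc, ih, pow_succ (-r)]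
    linear_combination (-r) ^ i * a ^ (i + 1) * h3

theorem pb_Yj4 (h1 : a * b ^ 2 = q1 * (a ^ 2 * b) + f0 * a ^ (j + 4) + f1 * a ^ (j + 5))
    (h2 : b ^ 3 = E * (a ^ 2 * b) + q1 * f0 * a ^ (j + 4) + G * a ^ (j + 5))
    (h3 : a ^ 3 * b = 0) (h4 : a ^ (j + 6) = 0)
    (e3 : (b - r * a) ^ j * a ^ (j + 5) = ε * a ^ (j + 5)) :
    (b - r * a) ^ (j + 4) = r ^ 4 * (-r) ^ j * a ^ (j + 4) +
      f0 * (E - 4 * r * q1 + 6 * r ^ 2) * ε * a ^ (j + 5) := by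
  have h5 := pb_Y4 (r := r) h1 h2 h3 h4
  have h6 := pb_Ya (r := r) h3 j
  rw [pow_add, h5]
  linear_combination r ^ 4 * h6 + f0 * (E - 4 * r * q1 + 6 * r ^ 2) * e3

theorem pb_Yj5 (h3 : a ^ 3 * b = 0) (h4 : a ^ (j + 6) = 0) {N κ : R}
    (h : (b - r * a) ^ (j + 4) = N * a ^ (j + 4) + κ * a ^ (j + 5)) :
    (b - r * a) ^ (j + 5) = -(r * N) * a ^ (j + 5) := by
  have e1 : j + 5 = (j + 4) + 1 := rfl
  rw [e1, pow_succ, h]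
  linear_combination (N * a ^ (j + 1) + κ * a ^ (j + 2)) * h3 - κ * r * h4

theorem pb_Yj6 (h3 : a ^ 3 * b = 0) (h4 : a ^ (j + 6) = 0) {N : R}
    (h : (b - r * a) ^ (j + 5) = N * a ^ (j + 5)) : (b - r * a) ^ (j + 6) = 0 := by
  have e1 : j + 6 = (j + 5) + 1 := rfl
  rw [e1, pow_succ, h]
  linear_combination N * a ^ (j + 2) * h3 - N * r * h4

end big

section small

variable {R : Type*} [CommRing R] {a b : R} {f0 f1 q1 E G r μ n : R}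

theorem ps_XY2 (h1 : a * b ^ 2 = q1 * (a ^ 2 * b) + f0 * a ^ 3 + f1 * a ^ 4)
    (h2 : b ^ 3 = E * (a ^ 2 * b) + q1 * f0 * a ^ 3 + G * a ^ 4)
    (hf : f0 = n * r ^ 2) (hq : q1 = μ + μ * n + 2 * r)
    (hE : E = 2 * r * μ * (1 + n) + 3 * r ^ 2 + μ ^ 2 * n * (1 + n)) :
    (b - μ * n * a) * (b - r * a) ^ 2 = (G - (2 * r + μ * n) * f1) * a ^ 4 := by
  subst hf hq hE
  linear_combination h2 - (2 * r + μ * n) * h1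

theorem ps_rel (h1 : a * b ^ 2 = q1 * (a ^ 2 * b) + f0 * a ^ 3 + f1 * a ^ 4)
    (h2 : b ^ 3 = E * (a ^ 2 * b) + q1 * f0 * a ^ 3 + G * a ^ 4)
    (hf : f0 = n * r ^ 2) (hq : q1 = μ + μ * n + 2 * r)
    (hE : E = 2 * r * μ * (1 + n) + 3 * r ^ 2 + μ ^ 2 * n * (1 + n)) :
    (-r * (1 + n) * (r + μ)) * (b - μ * n * a) ^ 3 +
      ((1 + n) * (μ ^ 2 * n + 2 * r * μ + 3 * r ^ 2)) * ((b - μ * n * a) ^ 2 * (b - r * a)) +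
      (n * (μ + r) ^ 2) * (b - r * a) ^ 3 =
    ((-r * (1 + n) * (r + μ)) * (G - 3 * (μ * n) * f1) +
      ((1 + n) * (μ ^ 2 * n + 2 * r * μ + 3 * r ^ 2)) * (G - (2 * (μ * n) + r) * f1) +
      (n * (μ + r) ^ 2) * (G - 3 * r * f1)) * a ^ 4 := by
  subst hf hq hE
  linear_combination ((-r * (1 + n) * (r + μ)) + ((1 + n) * (μ ^ 2 * n + 2 * r * μ + 3 * r ^ 2)) +
    (n * (μ + r) ^ 2)) * h2 + ((-r * (1 + n) * (r + μ)) * (-3 * (μ * n)) +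
    ((1 + n) * (μ ^ 2 * n + 2 * r * μ + 3 * r ^ 2)) * (-(2 * (μ * n) + r)) +
    (n * (μ + r) ^ 2) * (-3 * r)) * h1

theorem ps_Y4 (h1 : a * b ^ 2 = q1 * (a ^ 2 * b) + f0 * a ^ 3 + f1 * a ^ 4)
    (h2 : b ^ 3 = E * (a ^ 2 * b) + q1 * f0 * a ^ 3 + G * a ^ 4)
    (h3 : a ^ 3 * b = 0) (h4 : a ^ 5 = 0)
    (hf : f0 = n * r ^ 2) (hq : q1 = μ + μ * n + 2 * r)
    (hE : E = 2 * r * μ * (1 + n) + 3 * r ^ 2 + μ ^ 2 * n * (1 + n)) :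
    (b - r * a) ^ 4 = (r ^ 2 * (1 + n) * (r - μ * n) ^ 2) * a ^ 4 := by
  have e1 : (b - r * a) ^ 4 = (r ^ 4 + f0 * (E - 4 * r * q1 + 6 * r ^ 2)) * a ^ 4 := by
    linear_combination b * h2 + E * (a * h1 + q1 * h3 + f1 * h4) +
      (q1 * f0 + G * a) * h3 - 4 * r * (a * h2 + E * h3 + G * h4) +
      6 * r ^ 2 * (a * h1 + q1 * h3 + f1 * h4) - 4 * r ^ 3 * h3
  rw [e1]
  subst hf hq hE
  ring

theorem ps_Y5 (h3 : a ^ 3 * b = 0) (h4 : a ^ 5 = 0) {N : R}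
    (h : (b - r * a) ^ 4 = N * a ^ 4) : (b - r * a) ^ 5 = 0 := by
  have e1 : 5 = 4 + 1 := rfl
  rw [e1, pow_succ, h]
  linear_combination N * a * h3 - N * r * h4

end small

end Ta31

end Pool.Agent.Lib.D9
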