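import Pool.Agent.Lib.D9.Ta31H

/-!
# MP_5dcbc3_ag: Jordan type `(a, 3, 1)`, `a = m + 5`: generic planar triples
-/

namespace Pool.Agent.Lib.D9

open Matrix Polynomial Pool.Agent.Lib.Q5dc Pool.Agent.Lib.D7 Pool.Agent.Lib.D8

namespace Ta31

section rings

variable {R : Type*} [CommRing R] {a b : R} {j : ℕ} {f0 f1 q1 ε E G r c d β δ σ N : R}

theorem pb_final (h1 : a * b ^ 2 = q1 * (a ^ 2 * b) + f0 * a ^ (j + 4) + f1 * a ^ (j + 5))
    (h2 : b ^ 3 = E * (a ^ 2 * b) + q1 * f0 * a ^ (j + 4) + G * a ^ (j + 5))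
    (h3 : a ^ 3 * b = 0) (h4 : a ^ (j + 6) = 0) (e2 : a ^ (2 * j + 5) = ε * a ^ (j + 5))
    (e3 : (b - r * a) ^ j * a ^ (j + 5) = ε * a ^ (j + 5))
    (hβ : β * (E - r * q1) = -E) (hδ : δ * N = q1 * f0 + β * ((q1 - r) * f0))
    (hN : N = r ^ 4 * (-r) ^ j)
    (hσ : σ * -(r * N) = (G - 3 * c * ε * f0) +
      β * (G - 2 * c * ε * f0 - r * f1 - r * c ^ 2 * ε) -
      δ * (f0 * (E - 4 * r * q1 + 6 * r ^ 2) * ε)) :
    (b - c * a ^ (j + 2) - d * a ^ (j + 3)) ^ 3 =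
      -(β * ((b - c * a ^ (j + 2) - d * a ^ (j + 3)) ^ 2 * (b - r * a))) +
        δ * (b - r * a) ^ (j + 4) + σ * (b - r * a) ^ (j + 5) := by
  have k1 := pb_X3 (c := c) (d := d) h1 h2 h3 h4 e2
  have k2 := pb_X2Y (c := c) (d := d) (r := r) h1 h2 h3 h4 e2
  have k3 := pb_Yj4 h1 h2 h3 h4 e3
  rw [← hN] at k3
  have k4 := pb_Yj5 h3 h4 k3
  rw [k1, k2, k3, k4]
  linear_combination (a ^ 2 * b) * hβ - a ^ (j + 4) * hδ - a ^ (j + 5) * hσ

variable {μ n : R}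

theorem ps_final (h1 : a * b ^ 2 = q1 * (a ^ 2 * b) + f0 * a ^ 3 + f1 * a ^ 4)
    (h2 : b ^ 3 = E * (a ^ 2 * b) + q1 * f0 * a ^ 3 + G * a ^ 4)
    (h3 : a ^ 3 * b = 0) (h4 : a ^ 5 = 0)
    (hf : f0 = n * r ^ 2) (hq : q1 = μ + μ * n + 2 * r)
    (hE : E = 2 * r * μ * (1 + n) + 3 * r ^ 2 + μ ^ 2 * n * (1 + n)) {u : R}
    (hu : u * (-r * (1 + n) * (r + μ)) = 1)
    (hσ : σ * (r ^ 2 * (1 + n) * (r - μ * n) ^ 2) =
      u * ((-r * (1 + n) * (r + μ)) * (G - 3 * (μ * n) * f1) +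
      ((1 + n) * (μ ^ 2 * n + 2 * r * μ + 3 * r ^ 2)) * (G - (2 * (μ * n) + r) * f1) +
      (n * (μ + r) ^ 2) * (G - 3 * r * f1))) :
    (b - μ * n * a) ^ 3 =
      -(u * ((1 + n) * (μ ^ 2 * n + 2 * r * μ + 3 * r ^ 2)) *
        ((b - μ * n * a) ^ 2 * (b - r * a))) +
        -(u * (n * (μ + r) ^ 2)) * (b - r * a) ^ 3 + σ * (b - r * a) ^ 4 := by
  have k1 := ps_rel h1 h2 hf hq hE
  have k2 := ps_Y4 h1 h2 h3 h4 hf hq hE
  linear_combination u * k1 - (b - μ * n * a) ^ 3 * hu - σ * k2 - a ^ 4 * hσ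

end rings

universe u

variable {k : Type u} [Field k] {m : ℕ}

theorem planar_ring [IsAlgClosed k] [CharZero k] {R : Type*} [CommRing R] [Algebra k R]
    (ρ : R →ₐ[k] Matrix (Fin (m + 9)) (Fin (m + 9)) k) {x y : R} {v : Fin (m + 9) → k}
    (hv : Cyc ![ρ x, ρ y, 0] v) {κ β δ σ : k}
    (h1 : x * y ^ 2 = algebraMap k R κ * y ^ (m + 4))
    (h2 : x ^ 3 = -(algebraMap k R β * (x ^ 2 * y)) + algebraMap k R δ * y ^ (m + 3) +
      algebraMap k R σ * y ^ (m + 4)) (h3 : y ^ (m + 5) = 0) : Cl ![ρ x, ρ y, 0] := by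
  have hsm : ∀ (r : k) (x : R), ρ (algebraMap k R r * x) = r • ρ x := by
    intro r x
    rw [map_mul, AlgHom.commutes, Algebra.smul_def]
  refine planar_nf hv ?_ (κ := κ) (β := β) (δ := δ) (σ := σ) ?_ ?_ ?_
  · rw [← map_mul, ← map_mul, mul_comm]
  · have h := congrArg (fun z => ρ z *ᵥ v) h1
    simp only [hsm, map_mul, map_pow] at h
    rw [Matrix.mulVec_mulVec, h, Matrix.smul_mulVec]
  · have h := congrArg (fun z => ρ z *ᵥ v) h2
    simp only [map_add, map_neg, hsm, map_mul, map_pow] at h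
    simp only [Matrix.add_mulVec, Matrix.neg_mulVec, Matrix.smul_mulVec] at h
    rw [Matrix.mulVec_mulVec, Matrix.mulVec_mulVec, Matrix.mulVec_mulVec, Matrix.mulVec_mulVec,
      ← pow_two, ← pow_succ, h]
  · rw [← map_pow, h3, map_zero, Matrix.zero_mulVec]

theorem cn_zero (x : P k) : CN ![(J : Matrix (Fin (m + 9)) (Fin (m + 9)) k), mk x, 0] := by
  refine ⟨fun i j => ?_, fun i => ?_⟩
  · fin_cases i <;> fin_cases j
    · rfl
    · exact J_mk x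
    · show J * 0 = 0 * J
      rw [mul_zero, zero_mul]
    · exact (J_mk x).symm
    · rfl
    · show mk x * 0 = 0 * mk x
      rw [mul_zero, zero_mul]
    · show 0 * J = J * 0
      rw [mul_zero, zero_mul]
    · show 0 * mk x = mk x * 0
      rw [mul_zero, zero_mul]
    · rfl
  · fin_cases i
    · exact nil_J
    · exact nil_mk x
    · exact IsNilpotent.zero

theorem cyc_zero {f0 f1 f2 q1 q2 pi th et : k} (hpi : pi ≠ 0) :
    Cyc ![(J : Matrix (Fin (m + 9)) (Fin (m + 9)) k), mk (aB f0 f1 f2 q1 q2 pi th et), 0]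
      (e 0) := by
  intro S h0 hS
  have hJ : ∀ w ∈ S, J *ᵥ w ∈ S := hS 0
  have hB : ∀ w ∈ S, mk (aB f0 f1 f2 q1 q2 pi th et) *ᵥ w ∈ S := hS 1
  have s1 : ∀ i, i ≤ m + 4 → e i ∈ S := by
    intro i
    induction i with
    | zero => intro _; exact h0
    | succ i ih =>
      intro hi
      rw [← J_lt i (by omega)]
      exact hJ _ (ih (by omega))
  have s5 : e (m + 5) ∈ S := by
    have h := hB _ h0
    have h1 : (mk (aB f0 f1 f2 q1 q2 pi th et) : Matrix (Fin (m + 9)) (Fin (m + 9)) k) *ᵥ e 0 =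
        e (m + 5) := by rw [mk_0]; simp [aB]
    rwa [h1] at h
  have s6 : e (m + 6) ∈ S := by rw [← J_u]; exact hJ _ s5
  have s7 : e (m + 7) ∈ S := by rw [← J_u1]; exact hJ _ s6
  have s8 : e (m + 8) ∈ S := by
    have h := hB _ s5
    rw [mk_u] at h
    simp only [aB] at h
    have h2 := sub_mem (sub_mem (sub_mem (sub_mem (sub_mem h
      (S.smul_mem f0 (s1 (m + 2) (by omega)))) (S.smul_mem f1 (s1 (m + 3) (by omega))))
      (S.smul_mem f2 (s1 (m + 4) (by omega)))) (S.smul_mem q1 s6)) (S.smul_mem q2 s7)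
    have h3 : f0 • (e (m + 2) : Fin (m + 9) → k) + f1 • e (m + 3) + f2 • e (m + 4) +
        q1 • e (m + 6) + q2 • e (m + 7) + pi • e (m + 8) - f0 • e (m + 2) - f1 • e (m + 3) -
        f2 • e (m + 4) - q1 • e (m + 6) - q2 • e (m + 7) = pi • e (m + 8) := by abel
    rw [h3] at h2
    have h4 := S.smul_mem pi⁻¹ h2
    rwa [smul_smul, inv_mul_cancel₀ hpi, one_smul] at h4
  rw [eq_top_iff]
  intro w _
  rw [vec_sum w]
  refine Submodule.sum_mem _ fun i _ => Submodule.smul_mem _ _ ?_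
  have hi := i.isLt
  rcases (by omega : (i : ℕ) ≤ m + 4 ∨ (i : ℕ) = m + 5 ∨ (i : ℕ) = m + 6 ∨ (i : ℕ) = m + 7 ∨
    (i : ℕ) = m + 8) with h | h | h | h | h
  · exact s1 _ h
  · rw [h]; exact s5
  · rw [h]; exact s6
  · rw [h]; exact s7
  · rw [h]; exact s8

/-- the relations of a planar triple, in a commutative ring -/
theorem planar_rel {f0 f1 f2 q1 q2 pi th et : k} (hpi : pi ≠ 0) :
    ∃ (R : Type u) (_ : CommRing R) (_ : Algebra k R)
      (ρ : R →ₐ[k] Matrix (Fin (m + 9)) (Fin (m + 9)) k) (a b : R), ρ a = J ∧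
      ρ b = mk (aB f0 f1 f2 q1 q2 pi th et) ∧ a ^ 3 * b = 0 ∧ a ^ (m + 5) = 0 ∧
      a * b ^ 2 = algebraMap k R q1 * (a ^ 2 * b) + algebraMap k R f0 * a ^ (m + 3) +
        algebraMap k R f1 * a ^ (m + 4) ∧
      b ^ 3 = algebraMap k R (q1 ^ 2 + pi * et + (if m = 0 then 1 else 0) * f0) * (a ^ 2 * b) +
        algebraMap k R q1 * algebraMap k R f0 * a ^ (m + 3) +
        algebraMap k R (pi * th + q1 * f1 + q2 * f0) * a ^ (m + 4) := by
  have hT := cn_zero (m := m) (aB f0 f1 f2 q1 q2 pi th et)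
  have hv := cyc_zero (m := m) (f0 := f0) (f1 := f1) (f2 := f2) (q1 := q1) (q2 := q2) (th := th)
    (et := et) hpi
  obtain ⟨B, hB⟩ : ∃ B : Matrix (Fin (m + 9)) (Fin (m + 9)) k,
    B = mk (aB f0 f1 f2 q1 q2 pi th et) := ⟨_, rfl⟩
  rw [← hB] at hT hv ⊢
  have mJ : J ∈ adj ![J, B, 0] := mem_adj ![J, B, 0] 0
  have mB : B ∈ adj ![J, B, 0] := mem_adj ![J, B, 0] 1
  have v1 : B *ᵥ e 0 = e (m + 5) := by rw [hB, mk_0]; simp [aB]
  have v2 : B *ᵥ e (m + 5) = f0 • e (m + 2) + f1 • e (m + 3) + f2 • e (m + 4) + q1 • e (m + 6) +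
      q2 • e (m + 7) + pi • e (m + 8) := by
    rw [hB, mk_u]; simp [aB]
  have v5 : B *ᵥ e (m + 8) = th • e (m + 4) + et • e (m + 7) := by
    rw [hB, mk_p]; simp [aB]
  have j2 : (J : Matrix (Fin (m + 9)) (Fin (m + 9)) k) ^ (m + 2) *ᵥ e 0 = e (m + 2) :=
    Jpow_0 _ (by omega)
  have q5 : (J : Matrix (Fin (m + 9)) (Fin (m + 9)) k) ^ 2 *ᵥ e (m + 5) = e (m + 7) := by
    rw [pow_two, ← Matrix.mulVec_mulVec, J_u, J_u1]
  obtain ⟨W, hW⟩ : ∃ W : Matrix (Fin (m + 9)) (Fin (m + 9)) k, W = B ^ 2 - q1 • (J * B) -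
      q2 • (J ^ 2 * B) - f0 • J ^ (m + 2) - f1 • J ^ (m + 3) - f2 • J ^ (m + 4) := ⟨_, rfl⟩
  have mW : W ∈ adj ![J, B, 0] := by
    rw [hW]
    exact sub_mem (sub_mem (sub_mem (sub_mem (sub_mem (Jpow_mem mB 1)
      (SMulMemClass.smul_mem _ (mul_mem mJ mB))) (SMulMemClass.smul_mem _
      (mul_mem (Jpow_mem mJ 1) mB))) (SMulMemClass.smul_mem _ (Jpow_mem mJ _)))
      (SMulMemClass.smul_mem _ (Jpow_mem mJ _))) (SMulMemClass.smul_mem _ (Jpow_mem mJ _))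
  have vW : W *ᵥ e 0 = pi • e (m + 8) := by
    rw [hW]
    simp only [Matrix.smul_mulVec, Matrix.sub_mulVec, ← Matrix.mulVec_mulVec, pow_two B, j2, J3_0,
      J4_0, v1, v2, J_u, q5]
    abel
  have d3 : J ^ 3 * B = 0 := by
    refine hv.ext_adj hT (mul_mem (Jpow_mem mJ 2) mB) (zero_mem _) ?_
    have := Jpow_u (k := k) (m := m) 0
    rw [zero_add] at this
    rw [← Matrix.mulVec_mulVec, v1, this, Matrix.zero_mulVec]
  have d4 : (J : Matrix (Fin (m + 9)) (Fin (m + 9)) k) ^ (m + 5) = 0 := by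
    refine hv.ext_adj hT (Jpow_mem mJ (m + 4)) (zero_mem _) ?_
    rw [Jpow_ge (m + 5) 0 (by omega) (by omega), Matrix.zero_mulVec]
  have d1 : J * W = 0 := by
    refine hv.ext_adj hT (mul_mem mJ mW) (zero_mem _) ?_
    rw [← Matrix.mulVec_mulVec, vW, Matrix.mulVec_smul, J_p, smul_zero, Matrix.zero_mulVec]
  have d2 : B * W = (pi * th) • J ^ (m + 4) + (pi * et) • (J ^ 2 * B) := by
    refine hv.ext_adj hT (mul_mem mB mW) (add_mem (SMulMemClass.smul_mem _ (Jpow_mem mJ _))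
      (SMulMemClass.smul_mem _ (mul_mem (Jpow_mem mJ 1) mB))) ?_
    rw [← Matrix.mulVec_mulVec, vW, Matrix.mulVec_smul, v5]
    simp only [Matrix.smul_mulVec, Matrix.add_mulVec, ← Matrix.mulVec_mulVec, J4_0, v1, q5]
    module
  obtain ⟨R, i1, i2, ρ, a, b, -, hρ, ha, hb, -⟩ := exists_ring hT
  have hsm : ∀ (r : k) (x : R), ρ (algebraMap k R r * x) = r • ρ x := by
    intro r x
    rw [map_mul, AlgHom.commutes, Algebra.smul_def]
  obtain ⟨w, hw⟩ : ∃ w : R, w = b ^ 2 - algebraMap k R q1 * (a * b) -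
      algebraMap k R q2 * (a ^ 2 * b) - algebraMap k R f0 * a ^ (m + 2) -
      algebraMap k R f1 * a ^ (m + 3) - algebraMap k R f2 * a ^ (m + 4) := ⟨_, rfl⟩
  have hρw : ρ w = W := by
    rw [hw, hW]
    simp only [map_sub, hsm]
    simp only [map_mul, map_pow, ha, hb]
  have r3 : a ^ 3 * b = 0 := hρ (by rw [map_mul, map_pow, ha, hb, d3, map_zero])
  have r4 : a ^ (m + 5) = 0 := hρ (by rw [map_pow, ha, d4, map_zero])
  have r1 : a * w = 0 := hρ (by rw [map_mul, ha, hρw, d1, map_zero])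
  have r2 : b * w = algebraMap k R pi * algebraMap k R th * a ^ (m + 4) +
      algebraMap k R pi * algebraMap k R et * (a ^ 2 * b) := hρ (by
    rw [← map_mul (algebraMap k R), ← map_mul (algebraMap k R), map_add, hsm, hsm]
    simp only [map_mul, map_pow, ha, hb, hρw]
    exact d2)
  have hε : a ^ (m + 2) * b = algebraMap k R (if m = 0 then 1 else 0) * (a ^ 2 * b) := by
    by_cases h : m = 0
    · subst h
      rw [if_pos rfl, map_one, one_mul]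
    · obtain ⟨j, rfl⟩ : ∃ j, m = j + 1 := ⟨m - 1, by omega⟩
      rw [if_neg h, map_zero, zero_mul]
      linear_combination a ^ j * r3
  rw [hw] at r1 r2
  refine ⟨R, i1, i2, ρ, a, b, ha, hb, r3, r4, pl_ab2 r3 r4 r1, ?_⟩
  have h5 := pl_b3 r3 r4 hε r1 r2
  rw [h5]
  simp only [map_add, map_mul, map_pow]

end Ta31

end Pool.Agent.Lib.D9
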