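import Pool.Agent.Lib.D9.Ta31I
import Pool.Agent.Lib.D9.Defs

/-!
# MP_5dcbc3_ag: Jordan type `(a, 3, 1)`, `a = m + 5`: all planar triples, the final theorems
-/

namespace Pool.Agent.Lib.D9

open Matrix Polynomial Pool.Agent.Lib.Q5dc Pool.Agent.Lib.D7 Pool.Agent.Lib.D8

universe u

variable {k : Type u} [Field k]

namespace Ta31

variable {m : ℕ}

/-- a planar triple and a normal form -/
theorem planar_back {n : Type*} [Fintype n] [DecidableEq n] {A B X Y : Matrix n n k} {v : n → k}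
    (hT : CN ![A, B, 0]) (hv : Cyc ![A, B, 0] v) (hX : X ∈ adj ![A, B, 0])
    (hY : Y ∈ adj ![A, B, 0])
    (h0 : ∃ N ∈ adj ![X, Y, 0], A - N ∈ Submodule.span k {M : Matrix n n k |
      ∃ P ∈ adj ![A, B, 0], ∃ Q ∈ adj ![A, B, 0], M = P * Q})
    (h1 : ∃ N ∈ adj ![X, Y, 0], B - N ∈ Submodule.span k {M : Matrix n n k |
      ∃ P ∈ adj ![A, B, 0], ∃ Q ∈ adj ![A, B, 0], M = P * Q}) :
    Cyc ![X, Y, 0] v ∧ (Cl ![X, Y, 0] → Cl ![A, B, 0]) := by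
  have hmem : ∀ i, ![A, B, 0] i ∈ adj ![X, Y, 0] := by
    refine adj_nak hT ?_ ?_
    · intro i
      fin_cases i
      · exact hX
      · exact hY
      · exact zero_mem _
    · intro i
      fin_cases i
      · exact h0
      · exact h1
      · refine ⟨0, zero_mem _, ?_⟩
        show (0 : Matrix n n k) - 0 ∈ _
        rw [sub_zero]
        exact zero_mem _
  exact ⟨hv.of_adj hmem, fun h => cl_of_adj hmem h⟩

theorem planar_big [IsAlgClosed k] [CharZero k] {j : ℕ} {f0 f1 f2 q1 q2 pi th et : k}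
    (hpi : pi ≠ 0) (het : et ≠ 0) (hE : q1 ^ 2 + pi * et ≠ 0) :
    Cl ![(J : Matrix (Fin (j + 1 + 9)) (Fin (j + 1 + 9)) k),
      mk (aB f0 f1 f2 q1 q2 pi th et), 0] := by
  have hT := cn_zero (m := j + 1) (aB f0 f1 f2 q1 q2 pi th et)
  have hv := cyc_zero (m := j + 1) (f0 := f0) (f1 := f1) (f2 := f2) (q1 := q1) (q2 := q2)
    (th := th) (et := et) hpi
  obtain ⟨R, i1, i2, ρ, a, b, ha, hb, h3, h4, h1, h2⟩ := planar_rel (m := j + 1) (f0 := f0)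
    (f1 := f1) (f2 := f2) (q1 := q1) (q2 := q2) (th := th) (et := et) hpi
  rw [if_neg (Nat.succ_ne_zero j), zero_mul, add_zero] at h2
  obtain ⟨ι, hι⟩ := IsAlgClosed.exists_pow_nat_eq (-(pi * et)) (n := 2) (by norm_num)
  have hι0 : ι ≠ 0 := by
    rintro rfl
    have : pi * et = 0 := by linear_combination hι
    exact mul_ne_zero hpi het this
  obtain ⟨r, hr⟩ : ∃ r, r = q1 + ι := ⟨_, rfl⟩
  have hr0 : r ≠ 0 := by
    intro h
    apply hE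
    rw [h] at hr
    linear_combination (ι - q1) * hr + hι
  obtain ⟨E, hEq⟩ : ∃ E, E = q1 ^ 2 + pi * et := ⟨_, rfl⟩
  obtain ⟨G, hG⟩ : ∃ G, G = pi * th + q1 * f1 + q2 * f0 := ⟨_, rfl⟩
  rw [← hEq, ← hG] at h2
  have hEr : E - 2 * r * q1 + r ^ 2 = 0 := by
    rw [hEq, hr]; linear_combination hι
  have hEq1 : E - r * q1 = -(ι * r) := by
    rw [hEq, hr]; linear_combination hι
  have hEq0 : E - r * q1 ≠ 0 := by
    rw [hEq1]; exact neg_ne_zero.2 (mul_ne_zero hι0 hr0)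
  obtain ⟨ε, hε⟩ : ∃ ε : k, ε = if j = 0 then 1 else 0 := ⟨_, rfl⟩
  have hr2 : r ^ 2 ≠ 0 := pow_ne_zero 2 hr0
  obtain ⟨c, hc⟩ : ∃ c, c * r ^ 2 = (q1 - 2 * r) * f0 := ⟨_, div_mul_cancel₀ _ hr2⟩
  obtain ⟨d, hd⟩ : ∃ d, d * r ^ 2 = G - 2 * r * f1 - c * ε * f0 := ⟨_, div_mul_cancel₀ _ hr2⟩
  obtain ⟨N, hN⟩ : ∃ N, N = r ^ 4 * (-r) ^ j := ⟨_, rfl⟩
  have hN0 : N ≠ 0 := by
    rw [hN]
    exact mul_ne_zero (pow_ne_zero 4 hr0) (pow_ne_zero j (neg_ne_zero.2 hr0))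
  have hrN : -(r * N) ≠ 0 := neg_ne_zero.2 (mul_ne_zero hr0 hN0)
  obtain ⟨β, hβ⟩ : ∃ β, β * (E - r * q1) = -E := ⟨_, div_mul_cancel₀ _ hEq0⟩
  obtain ⟨δ, hδ⟩ : ∃ δ, δ * N = q1 * f0 + β * ((q1 - r) * f0) := ⟨_, div_mul_cancel₀ _ hN0⟩
  obtain ⟨σ, hσ⟩ : ∃ σ, σ * -(r * N) = (G - 3 * c * ε * f0) +
      β * (G - 2 * c * ε * f0 - r * f1 - r * c ^ 2 * ε) -
      δ * (f0 * (E - 4 * r * q1 + 6 * r ^ 2) * ε) := ⟨_, div_mul_cancel₀ _ hrN⟩
  -- the identities in `R`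
  have h4' : a ^ (j + 6) = 0 := h4
  have h1' : a * b ^ 2 = algebraMap k R q1 * (a ^ 2 * b) + algebraMap k R f0 * a ^ (j + 4) +
      algebraMap k R f1 * a ^ (j + 5) := h1
  have h2' : b ^ 3 = algebraMap k R E * (a ^ 2 * b) + algebraMap k R q1 * algebraMap k R f0 *
      a ^ (j + 4) + algebraMap k R G * a ^ (j + 5) := h2
  have e2 : a ^ (2 * j + 5) = algebraMap k R ε * a ^ (j + 5) := by
    by_cases h : j = 0
    · subst h
      rw [hε, if_pos rfl, map_one, one_mul]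
    · obtain ⟨i, rfl⟩ : ∃ i, j = i + 1 := ⟨j - 1, by omega⟩
      rw [hε, if_neg h, map_zero, zero_mul]
      linear_combination a ^ i * h4'
  have e3 : (b - algebraMap k R r * a) ^ j * a ^ (j + 5) = algebraMap k R ε * a ^ (j + 5) := by
    by_cases h : j = 0
    · subst h
      rw [hε, if_pos rfl, map_one, pow_zero]
    · obtain ⟨i, rfl⟩ : ∃ i, j = i + 1 := ⟨j - 1, by omega⟩
      rw [hε, if_neg h, map_zero, zero_mul]
      linear_combination (b - algebraMap k R r * a) ^ i * (a ^ (i + 3) * h3 -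
        algebraMap k R r * h4')
  have mp : ∀ {x y : k}, x = y → algebraMap k R x = algebraMap k R y := fun h => by rw [h]
  have t1 := mp hEr
  have t2 := mp hc
  have t3 := mp hd
  have t4 := mp hβ
  have t5 := mp hδ
  have t6 := mp hN
  have t7 := mp hσ
  simp only [map_add, map_sub, map_mul, map_neg, map_pow, map_ofNat, map_zero] at t1 t2 t3 t4
  simp only [map_add, map_sub, map_mul, map_neg, map_pow, map_ofNat] at t5 t6 t7
  obtain ⟨x, hx⟩ : ∃ x, x = b - algebraMap k R c * a ^ (j + 2) - algebraMap k R d * a ^ (j + 3) :=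
    ⟨_, rfl⟩
  obtain ⟨y, hy⟩ : ∃ y, y = b - algebraMap k R r * a := ⟨_, rfl⟩
  have r1 : x * y ^ 2 = 0 := by
    rw [hx, hy]
    exact pb_XY2 h1' h2' h3 h4' e2 t1 (by linear_combination -t2) (by linear_combination -t3)
  have r2 : x ^ 3 = -(algebraMap k R β * (x ^ 2 * y)) + algebraMap k R δ * y ^ (j + 4) +
      algebraMap k R σ * y ^ (j + 5) := by
    rw [hx, hy]
    exact pb_final h1' h2' h3 h4' e2 e3 t4 t5 t6 t7
  have r3 : y ^ (j + 6) = 0 := by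
    have k3 := pb_Yj4 h1' h2' h3 h4' e3
    have k4 := pb_Yj5 h3 h4' k3
    rw [hy]
    exact pb_Yj6 h3 h4' k4
  -- transfer
  have hsm : ∀ (r : k) (x : R), ρ (algebraMap k R r * x) = r • ρ x := by
    intro r x
    rw [map_mul, AlgHom.commutes, Algebra.smul_def]
  obtain ⟨B, hB⟩ : ∃ B : Matrix (Fin (j + 1 + 9)) (Fin (j + 1 + 9)) k,
    B = mk (aB f0 f1 f2 q1 q2 pi th et) := ⟨_, rfl⟩
  rw [← hB] at hT hv hb ⊢
  have hρx : ρ x = B - c • J ^ (j + 2) - d • J ^ (j + 3) := by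
    rw [hx]
    simp only [map_sub, hsm]
    simp only [map_pow, ha, hb]
  have hρy : ρ y = B - r • J := by
    rw [hy]
    simp only [map_sub, hsm, ha, hb]
  have mJ : J ∈ adj ![J, B, 0] := mem_adj ![J, B, 0] 0
  have mB : B ∈ adj ![J, B, 0] := mem_adj ![J, B, 0] 1
  have tX : ρ x ∈ adj ![ρ x, ρ y, 0] := mem_adj ![ρ x, ρ y, 0] 0
  have tY : ρ y ∈ adj ![ρ x, ρ y, 0] := mem_adj ![ρ x, ρ y, 0] 1
  have hsq : ∀ i, J ^ (i + 2) ∈ Submodule.span k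
      {M : Matrix (Fin (j + 1 + 9)) (Fin (j + 1 + 9)) k | ∃ P ∈ adj ![J, B, 0],
      ∃ Q ∈ adj ![J, B, 0], M = P * Q} := fun i =>
    Submodule.subset_span ⟨J ^ (i + 1), Jpow_mem mJ i, J, mJ, pow_succ _ _⟩
  obtain ⟨hcyc, hback⟩ := planar_back (X := ρ x) (Y := ρ y) hT hv (by
      rw [hρx]
      exact sub_mem (sub_mem mB (SMulMemClass.smul_mem _ (Jpow_mem mJ _)))
        (SMulMemClass.smul_mem _ (Jpow_mem mJ _))) (by
      rw [hρy]
      exact sub_mem mB (SMulMemClass.smul_mem _ mJ)) (by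
      refine ⟨r⁻¹ • (ρ x - ρ y), SMulMemClass.smul_mem _ (sub_mem tX tY), ?_⟩
      have e1 : J - r⁻¹ • (ρ x - ρ y) = (r⁻¹ * c) • J ^ (j + 2) + (r⁻¹ * d) • J ^ (j + 3) := by
        rw [hρx, hρy]
        have : B - c • J ^ (j + 2) - d • J ^ (j + 3) - (B - r • J) =
            r • J - (c • J ^ (j + 2) + d • J ^ (j + 3)) := by abel
        rw [this, smul_sub, smul_smul, inv_mul_cancel₀ hr0, one_smul, sub_sub_cancel, smul_add,
          smul_smul, smul_smul]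
      rw [e1]
      exact add_mem (Submodule.smul_mem _ _ (hsq j)) (Submodule.smul_mem _ _ (hsq (j + 1)))) (by
      refine ⟨ρ x, tX, ?_⟩
      have e1 : B - ρ x = c • J ^ (j + 2) + d • J ^ (j + 3) := by
        rw [hρx]; abel
      rw [e1]
      exact add_mem (Submodule.smul_mem _ _ (hsq j)) (Submodule.smul_mem _ _ (hsq (j + 1))))
  apply hback
  refine planar_ring ρ hcyc (κ := 0) (β := β) (δ := δ) (σ := σ) ?_ r2 r3
  rw [r1, map_zero, zero_mul]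

theorem planar_small [IsAlgClosed k] [CharZero k] {f0 f1 f2 q1 q2 pi th et μ n r : k}
    (hpi : pi ≠ 0) (hf : f0 = n * r ^ 2) (hq : q1 = μ + μ * n + 2 * r)
    (hE : q1 ^ 2 + pi * et + f0 = 2 * r * μ * (1 + n) + 3 * r ^ 2 + μ ^ 2 * n * (1 + n))
    (hr : r ≠ 0) (hn : 1 + n ≠ 0) (hrμ : r + μ ≠ 0) (hw : r - μ * n ≠ 0) :
    Cl ![(J : Matrix (Fin (0 + 9)) (Fin (0 + 9)) k), mk (aB f0 f1 f2 q1 q2 pi th et), 0] := by
  have hT := cn_zero (m := 0) (aB f0 f1 f2 q1 q2 pi th et)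
  have hv := cyc_zero (m := 0) (f0 := f0) (f1 := f1) (f2 := f2) (q1 := q1) (q2 := q2)
    (th := th) (et := et) hpi
  obtain ⟨R, i1, i2, ρ, a, b, ha, hb, h3, h4, h1, h2⟩ := planar_rel (m := 0) (f0 := f0)
    (f1 := f1) (f2 := f2) (q1 := q1) (q2 := q2) (th := th) (et := et) hpi
  rw [if_pos rfl, one_mul] at h2
  obtain ⟨E, hEq⟩ : ∃ E, E = q1 ^ 2 + pi * et + f0 := ⟨_, rfl⟩
  obtain ⟨G, hG⟩ : ∃ G, G = pi * th + q1 * f1 + q2 * f0 := ⟨_, rfl⟩
  rw [← hEq, ← hG] at h2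
  rw [← hEq] at hE
  obtain ⟨N, hN⟩ : ∃ N, N = r ^ 2 * (1 + n) * (r - μ * n) ^ 2 := ⟨_, rfl⟩
  have hN0 : N ≠ 0 := by
    rw [hN]
    exact mul_ne_zero (mul_ne_zero (pow_ne_zero 2 hr) hn) (pow_ne_zero 2 hw)
  have hB0 : -r * (1 + n) * (r + μ) ≠ 0 := mul_ne_zero (mul_ne_zero (neg_ne_zero.2 hr) hn) hrμ
  obtain ⟨w, hw1⟩ : ∃ w, w * (-r * (1 + n) * (r + μ)) = 1 := ⟨_, inv_mul_cancel₀ hB0⟩
  obtain ⟨κ, hκ⟩ : ∃ κ, κ * N = G - (2 * r + μ * n) * f1 := ⟨_, div_mul_cancel₀ _ hN0⟩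
  obtain ⟨σ, hσ⟩ : ∃ σ, σ * N =
      w * ((-r * (1 + n) * (r + μ)) * (G - 3 * (μ * n) * f1) +
      ((1 + n) * (μ ^ 2 * n + 2 * r * μ + 3 * r ^ 2)) * (G - (2 * (μ * n) + r) * f1) +
      (n * (μ + r) ^ 2) * (G - 3 * r * f1)) := ⟨_, div_mul_cancel₀ _ hN0⟩
  rw [hN] at hκ hσ
  have h4' : a ^ 5 = 0 := h4
  have h1' : a * b ^ 2 = algebraMap k R q1 * (a ^ 2 * b) + algebraMap k R f0 * a ^ 3 +
      algebraMap k R f1 * a ^ 4 := h1
  have h2' : b ^ 3 = algebraMap k R E * (a ^ 2 * b) + algebraMap k R q1 * algebraMap k R f0 *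
      a ^ 3 + algebraMap k R G * a ^ 4 := h2
  have mp : ∀ {x y : k}, x = y → algebraMap k R x = algebraMap k R y := fun h => by rw [h]
  have t1 := mp hf
  have t2 := mp hq
  have t3 := mp hE
  have t4 := mp hw1
  have t5 := mp hκ
  have t6 := mp hσ
  simp only [map_add, map_sub, map_mul, map_neg, map_pow, map_ofNat, map_one] at t1 t2 t3 t4 t5 t6
  obtain ⟨x, hx⟩ : ∃ x, x = b - algebraMap k R μ * algebraMap k R n * a := ⟨_, rfl⟩
  obtain ⟨y, hy⟩ : ∃ y, y = b - algebraMap k R r * a := ⟨_, rfl⟩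
  have k2 := ps_Y4 h1' h2' h3 h4' t1 t2 t3
  have r1 : x * y ^ 2 = algebraMap k R κ * y ^ 4 := by
    have k1 := ps_XY2 h1' h2' t1 t2 t3
    rw [hx, hy, k1, k2]
    linear_combination -a ^ 4 * t5
  have r2 : x ^ 3 = -(algebraMap k R (w * ((1 + n) * (μ ^ 2 * n + 2 * r * μ + 3 * r ^ 2))) *
      (x ^ 2 * y)) + algebraMap k R (-(w * (n * (μ + r) ^ 2))) * y ^ 3 +
      algebraMap k R σ * y ^ 4 := by
    have k1 := ps_final h1' h2' h3 h4' t1 t2 t3 t4 t6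
    rw [hx, hy, k1]
    simp only [map_add, map_mul, map_neg, map_pow, map_ofNat, map_one]
  have r3 : y ^ 5 = 0 := by
    rw [hy]
    exact ps_Y5 h3 h4' k2
  have hsm : ∀ (r : k) (x : R), ρ (algebraMap k R r * x) = r • ρ x := by
    intro r x
    rw [map_mul, AlgHom.commutes, Algebra.smul_def]
  obtain ⟨B, hB⟩ : ∃ B : Matrix (Fin (0 + 9)) (Fin (0 + 9)) k,
    B = mk (aB f0 f1 f2 q1 q2 pi th et) := ⟨_, rfl⟩
  rw [← hB] at hT hv hb ⊢
  have hρx : ρ x = B - (μ * n) • J := by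
    rw [hx, ← map_mul]
    simp only [map_sub, hsm, ha, hb]
  have hρy : ρ y = B - r • J := by
    rw [hy]
    simp only [map_sub, hsm, ha, hb]
  have mJ : J ∈ adj ![J, B, 0] := mem_adj ![J, B, 0] 0
  have mB : B ∈ adj ![J, B, 0] := mem_adj ![J, B, 0] 1
  have tX : ρ x ∈ adj ![ρ x, ρ y, 0] := mem_adj ![ρ x, ρ y, 0] 0
  have tY : ρ y ∈ adj ![ρ x, ρ y, 0] := mem_adj ![ρ x, ρ y, 0] 1
  have e1 : J = (r - μ * n)⁻¹ • (ρ x - ρ y) := by
    rw [hρx, hρy]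
    have : B - (μ * n) • J - (B - r • J) = (r - μ * n) • J := by module
    rw [this, smul_smul, inv_mul_cancel₀ hw, one_smul]
  have tJ : J ∈ adj ![ρ x, ρ y, 0] := by
    rw [e1]
    exact SMulMemClass.smul_mem _ (sub_mem tX tY)
  obtain ⟨hcyc, hback⟩ := planar_back (X := ρ x) (Y := ρ y) hT hv (by
      rw [hρx]
      exact sub_mem mB (SMulMemClass.smul_mem _ mJ)) (by
      rw [hρy]
      exact sub_mem mB (SMulMemClass.smul_mem _ mJ))
      ⟨J, tJ, by rw [sub_self]; exact zero_mem _⟩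
      ⟨B, by
        have : B = ρ y + r • J := by rw [hρy, sub_add_cancel]
        rw [this]
        exact add_mem tY (SMulMemClass.smul_mem _ tJ), by rw [sub_self]; exact zero_mem _⟩
  apply hback
  exact planar_ring ρ hcyc r1 r2 r3

end Ta31

end Pool.Agent.Lib.D9
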